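import Pool.Agent.W_e8e3a0.Main49

namespace Pool.Agent.W_e8e3a0

open Finset Num49

/-- existence of caterpillars with prescribed spine degrees -/
theorem exists_cat (s : ℕ) (d : Fin s → ℕ) (hd : ∀ i, 2 ≤ d i) :
    ∃ (V : Type) (_ : Fintype V) (G : SimpleGraph V) (v : Fin s → V), IsSpine G v ∧
      ∀ i, deg G (v i) = d i := by
  classical
  let P : Fin s → Fin s → Prop := fun i j => (i : ℕ) + 1 = j ∨ (j : ℕ) + 1 = i
  let r : Fin s → ℕ := fun i => ∑ j, if P i j then 1 else 0
  have hr : ∀ i, r i ≤ 2 := by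
    intro i
    have h1 : ∀ j, (if P i j then 1 else 0) ≤ (if (i : ℕ) + 1 = j then 1 else 0) +
        (if (j : ℕ) + 1 = i then 1 else 0) := by
      intro j
      by_cases a : (i : ℕ) + 1 = j <;> by_cases b : (j : ℕ) + 1 = i <;> simp [P, a, b]
    have h2 : (∑ j : Fin s, if (i : ℕ) + 1 = j then 1 else 0) ≤ 1 :=
      sum_ite_le_one _ (fun a b ha hb => Fin.ext (by omega))
    have h3 : (∑ j : Fin s, if (j : ℕ) + 1 = i then 1 else 0) ≤ 1 :=
      sum_ite_le_one _ (fun a b ha hb => Fin.ext (by omega))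
    have h4 := Finset.sum_le_sum (s := univ) (fun j _ => h1 j)
    rw [Finset.sum_add_distrib] at h4
    exact le_trans h4 (by omega)
  let l : Fin s → ℕ := fun i => d i - r i
  let V := Fin s ⊕ (Σ i : Fin s, Fin (l i))
  let A : V → V → Prop := fun a b => match a, b with
    | Sum.inl i, Sum.inl j => P i j
    | Sum.inl i, Sum.inr k => k.1 = i
    | Sum.inr k, Sum.inl i => k.1 = i
    | Sum.inr _, Sum.inr _ => False
  have hAs : ∀ a b, A a b → A b a := by
    rintro (i | k) (j | k') h
    · exact h.symm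
    · exact h
    · exact h
    · exact h
  have hAi : ∀ a, ¬ A a a := by
    rintro (i | k) h
    · rcases h with h | h <;> omega
    · exact h
  let G : SimpleGraph V := { Adj := A, symm := ⟨hAs⟩, loopless := ⟨hAi⟩ }
  have hdeg : ∀ i, deg G (Sum.inl i) = d i := by
    intro i
    rw [deg_eq_adjN, Fintype.sum_sum_type, Fintype.sum_sigma]
    have h1 : ∑ j : Fin s, adjN G (Sum.inl i) (Sum.inl j) = r i :=
      Finset.sum_congr rfl (fun j _ => adjN_eq G _ _ (P i j) Iff.rfl)
    have h2 : ∀ j : Fin s, ∑ k : Fin (l j), adjN G (Sum.inl i) (Sum.inr ⟨j, k⟩) =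
        if j = i then l j else 0 := by
      intro j
      have h3 : ∀ k : Fin (l j), adjN G (Sum.inl i) (Sum.inr ⟨j, k⟩) = if j = i then 1 else 0 :=
        fun k => adjN_eq G _ _ (j = i) Iff.rfl
      rw [Finset.sum_congr rfl (fun k _ => h3 k)]
      by_cases h : j = i
      · rw [if_pos h, if_pos h]; simp
      · rw [if_neg h, if_neg h]; simp
    rw [h1, Finset.sum_congr rfl (fun j _ => h2 j), Finset.sum_ite_eq' univ i l,
      if_pos (mem_univ i)]
    have h3 := hr i
    have h4 := hd i
    show r i + (d i - r i) = d i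
    omega
  refine ⟨V, inferInstance, G, Sum.inl, ⟨Sum.inl_injective, fun i j => Iff.rfl, ?_, ?_⟩, hdeg⟩
  · intro i; rw [hdeg]; exact hd i
  · rintro (i | k) hu
    · exact absurd rfl (hu i)
    · refine ⟨k.1, ?_⟩
      rintro (j | k')
      · show k.1 = j ↔ Sum.inl j = Sum.inl k.1
        rw [Sum.inl.injEq]
        exact eq_comm
      · show False ↔ Sum.inr k' = Sum.inl k.1
        simp

variable {V : Type} [Fintype V]

/-- balance of the values `≥ 2` in a splitting -/
theorem bal_of_map {G G₁ G₂ : SimpleGraph V} {s : ℕ} {v : Fin s → V} (h : IsSpine G v)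
    (hadd : ∀ u, deg G u = deg G₁ u + deg G₂ u)
    (hmap : Multiset.map (deg G₁) Finset.univ.val = Multiset.map (deg G₂) Finset.univ.val)
    (k : ℕ) (hk : 2 ≤ k) :
    (∑ i, if deg G₁ (v i) = k then 1 else 0) = (∑ i, if deg G₂ (v i) = k then 1 else 0) := by
  classical
  have hleaf : ∀ u ∈ offSpine v, deg G₁ u + deg G₂ u = 1 := fun u hu => by
    rw [← hadd, deg_leaf h hu]
  have h1 := map_sum hmap (fun t => if t = k then 1 else 0)
  rw [sum_split h.inj, sum_split h.inj] at h1
  have h2 : ∑ u ∈ offSpine v, (if deg G₁ u = k then 1 else 0) = 0 :=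
    Finset.sum_eq_zero (fun u hu => if_neg (by have := hleaf u hu; omega))
  have h3 : ∑ u ∈ offSpine v, (if deg G₂ u = k then 1 else 0) = 0 :=
    Finset.sum_eq_zero (fun u hu => if_neg (by have := hleaf u hu; omega))
  rw [h2, h3] at h1
  simpa only [add_zero] using h1

theorem deg_pos_of_adj {G : SimpleGraph V} {a b : V} (h : G.Adj a b) : 1 ≤ deg G a := by
  classical
  unfold deg
  rw [Nat.one_le_iff_ne_zero, ← Nat.pos_iff_ne_zero, Finset.card_pos]
  exact ⟨b, by simp [h]⟩

/-- sharpness of the factor 2 -/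
theorem sharp {G : SimpleGraph V} {v : Fin 3 → V} (h : IsSpine G v) (δ : ℕ) (hδ : 2 ≤ δ)
    (h0 : deg G (v 0) = 2 * δ + 1) (h1 : deg G (v 1) = δ) (h2 : deg G (v 2) = δ + 1) :
    G.edgeSet.ncard = 4 * δ ∧ ¬ Splittable G := by
  classical
  constructor
  · have e1 := edges_eq h
    have e2 := sum_spine h
    rw [Fin.sum_univ_three, h0, h1, h2] at e2
    omega
  · rintro ⟨G₁, G₂, hsup, hinf, hmap⟩
    have hadd := deg_add hsup hinf
    have hadj : G.Adj (v 1) (v 2) := (h.path 1 2).2 (Or.inl rfl)
    have key : ∀ H K : SimpleGraph V, (∀ u, deg G u = deg H u + deg K u) →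
        Multiset.map (deg H) Finset.univ.val = Multiset.map (deg K) Finset.univ.val →
        (H.Adj (v 1) (v 2) ∨ K.Adj (v 1) (v 2)) → δ + 1 ≤ deg H (v 0) → False := by
      intro H K hHK hm hadj' hge
      have b := bal_of_map h hHK hm
      simp only [Fin.sum_univ_three] at b
      have a0 := hHK (v 0)
      have a1 := hHK (v 1)
      have a2 := hHK (v 2)
      have b1 := b (deg H (v 0)) (by omega)
      rw [if_pos rfl] at b1
      have c1 : deg K (v 2) = δ + 1 ∧ deg H (v 0) = δ + 1 := by
        by_contra hno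
        have n0 : ¬ deg K (v 0) = deg H (v 0) := by omega
        have n1 : ¬ deg K (v 1) = deg H (v 0) := by omega
        have n2 : ¬ deg K (v 2) = deg H (v 0) := by omega
        rw [if_neg n0, if_neg n1, if_neg n2] at b1
        omega
      have b2 := b δ hδ
      have d0 : deg K (v 0) = δ := by omega
      rw [if_pos d0] at b2
      have c2 : deg H (v 1) = δ := by
        by_contra hno
        rw [if_neg (show ¬ deg H (v 0) = δ by omega), if_neg hno,
          if_neg (show ¬ deg H (v 2) = δ by omega)] at b2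
        omega
      rcases hadj' with h' | h'
      · have := deg_pos_of_adj h'.symm
        omega
      · have := deg_pos_of_adj h'
        omega
    have hor : G₁.Adj (v 1) (v 2) ∨ G₂.Adj (v 1) (v 2) := by
      rw [← hsup] at hadj
      exact (SimpleGraph.sup_adj _ _ _ _).1 hadj
    have a0 := hadd (v 0)
    rcases Nat.lt_or_ge (deg G₁ (v 0)) (δ + 1) with hlt | hge
    · exact key G₂ G₁ (fun u => by rw [hadd u, add_comm]) hmap.symm hor.symm (by omega)
    · exact key G₁ G₂ hadd hmap hor hge

end Pool.Agent.W_e8e3a0
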