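import Pool.Agent.W_e8e3a0.Almost49
import Pool.Agent.W_e8e3a0.Extra49

namespace Pool.Agent.W_e8e3a0

open Finset Num49

/-- a dominating spine vertex of odd degree forbids splittings -/
theorem dominated {V : Type} [Fintype V] {G : SimpleGraph V} {s : ℕ} {v : Fin s → V}
    (h : IsSpine G v) (i₀ : Fin s) (ho : Odd (deg G (v i₀)))
    (hd : ∀ i, i ≠ i₀ → 2 * deg G (v i) < deg G (v i₀)) : ¬ Splittable G := by
  classical
  rintro ⟨G₁, G₂, hsup, hinf, hmap⟩
  have hadd := deg_add hsup hinf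
  have key : ∀ H K : SimpleGraph V, (∀ u, deg G u = deg H u + deg K u) →
      Multiset.map (deg H) Finset.univ.val = Multiset.map (deg K) Finset.univ.val →
      deg K (v i₀) < deg H (v i₀) → False := by
    intro H K hHK hm hlt
    have h0 := hHK (v i₀)
    have h2 := h.two i₀
    have b := bal_of_map h hHK hm (deg H (v i₀)) (by
      obtain ⟨r, hr⟩ := ho
      omega)
    have hr0 : (∑ i, if deg K (v i) = deg H (v i₀) then 1 else 0) = 0 := by
      refine Finset.sum_eq_zero (fun i _ => if_neg ?_)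
      by_cases hi : i = i₀
      · rw [hi]; omega
      · have h3 := hd i hi
        have h4 := hHK (v i)
        omega
    have hl0 : 1 ≤ ∑ i, if deg H (v i) = deg H (v i₀) then 1 else 0 := by
      have := Finset.single_le_sum (f := fun i => if deg H (v i) = deg H (v i₀) then 1 else 0)
        (fun _ _ => Nat.zero_le _) (mem_univ i₀)
      simpa using this
    omega
  have h0 := hadd (v i₀)
  rcases Nat.lt_trichotomy (deg G₂ (v i₀)) (deg G₁ (v i₀)) with hlt | heq | hgt
  · exact key G₁ G₂ hadd hmap hlt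
  · obtain ⟨r, hr⟩ := ho
    omega
  · exact key G₂ G₁ (fun u => by rw [hadd u, add_comm]) hmap.symm hgt

/-- compositions with all parts at most `L` -/
def small (L j : ℕ) : Finset (List ℕ) := (comps j).filter (fun l => ¬ ∃ x ∈ l, L + 1 ≤ x)

theorem small_card {L j M : ℕ} (hj : 1 ≤ j) (hjM : j ≤ M) (hM : 8 * M ≤ 2 ^ L) :
    3 * 2 ^ j ≤ 8 * (small L j).card := by
  have h1 : (small L j).card + big (L + 1) j = (comps j).card := by
    unfold small big
    rw [add_comm]
    exact Finset.card_filter_add_card_filter_not _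
  have h2 := big_le (L + 1) (by omega) j
  have h3 : (comps j).card = 2 ^ (j - 1) := by
    obtain ⟨t, rfl⟩ : ∃ t, j = t + 1 := ⟨j - 1, by omega⟩
    rw [(card_comps t).1]; rfl
  have h4 : 2 ^ j = 2 * 2 ^ (j - 1) := by rw [← pow_succ']; congr 1; omega
  have h5 : 8 * big (L + 1) j ≤ 2 ^ j := by
    have h6 : 16 * M * big (L + 1) j ≤ 2 ^ (L + 1) * big (L + 1) j := by
      refine Nat.mul_le_mul_right _ ?_
      rw [pow_succ]; omega
    have h7 : j * 2 ^ (j + 1) ≤ M * 2 ^ (j + 1) := Nat.mul_le_mul_right _ hjM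
    have h8 : M * 2 ^ (j + 1) = 2 * M * 2 ^ j := by rw [pow_succ]; ring
    have h9 : (2 * M) * (8 * big (L + 1) j) ≤ (2 * M) * 2 ^ j := by
      calc (2 * M) * (8 * big (L + 1) j) = 16 * M * big (L + 1) j := by ring
        _ ≤ j * 2 ^ (j + 1) := h6.trans h2
        _ ≤ (2 * M) * 2 ^ j := by rw [← h8]; exact h7
    exact Nat.le_of_mul_le_mul_left h9 (by omega)
  omega

theorem mem_small {L j : ℕ} {l : List ℕ} :
    l ∈ small L j ↔ (∀ x ∈ l, 1 ≤ x) ∧ l.sum = j ∧ ∀ x ∈ l, x ≤ L := by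
  unfold small
  rw [Finset.mem_filter, mem_comps]
  push Not
  constructor
  · rintro ⟨⟨h1, h2⟩, h3⟩
    exact ⟨h1, h2, fun x hx => by have := h3 x hx; omega⟩
  · rintro ⟨h1, h2, h3⟩
    exact ⟨⟨h1, h2⟩, fun x hx => by have := h3 x hx; omega⟩

theorem mem_nonSplit {L j k n : ℕ} {l₁ l₂ : List ℕ} (h₁ : l₁ ∈ small L j) (h₂ : l₂ ∈ small L k)
    (hn : 3 ≤ n) (hjk : j + k + (2 * L + 2) = n - 2) :
    (l₁ ++ (2 * L + 2) :: l₂).map (· + 1) ∈ NonSplitSeqs n := by
  rw [mem_small] at h₁ h₂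
  obtain ⟨a1, a2, a3⟩ := h₁
  obtain ⟨b1, b2, b3⟩ := h₂
  have hm : (l₁ ++ (2 * L + 2) :: l₂).map (· + 1) ∈ DegSeqs n := by
    rw [degSeqs_eq n hn]
    refine ⟨_, ?_, rfl⟩
    rw [Finset.mem_coe, mem_comps]
    constructor
    · intro x hx
      rw [List.mem_append, List.mem_cons] at hx
      rcases hx with hx | rfl | hx
      · exact a1 x hx
      · omega
      · exact b1 x hx
    · rw [List.sum_append, List.sum_cons, a2, b2]; omega
  obtain ⟨V, hV, G, v, q1, q2, q3, q4⟩ := hm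
  refine ⟨V, hV, G, v, q1, q2, q3, q4, ?_⟩
  have hlen : ((l₁ ++ (2 * L + 2) :: l₂).map (· + 1)).length = l₁.length + (l₂.length + 1) := by
    simp
  have hget : ∀ i : Fin ((l₁ ++ (2 * L + 2) :: l₂).map (· + 1)).length,
      ((i : ℕ) = l₁.length → ((l₁ ++ (2 * L + 2) :: l₂).map (· + 1)).get i = 2 * L + 3) ∧
      ((i : ℕ) ≠ l₁.length → ((l₁ ++ (2 * L + 2) :: l₂).map (· + 1)).get i ≤ L + 1) := by
    intro i
    rw [List.get_eq_getElem, List.getElem_map]
    constructor
    · intro hi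
      have : (l₁ ++ (2 * L + 2) :: l₂)[(i : ℕ)]'(by have := i.2; simpa using this) =
          2 * L + 2 := by
        simp only [hi]
        simp
      rw [this]
    · intro hi
      have hi2 : (i : ℕ) < l₁.length + (l₂.length + 1) := lt_of_lt_of_eq i.2 hlen
      rcases Nat.lt_or_ge (i : ℕ) l₁.length with hlt | hge
      · rw [List.getElem_append_left hlt]
        have := a3 _ (List.getElem_mem hlt)
        omega
      · rw [List.getElem_append_right hge]
        obtain ⟨t, ht⟩ : ∃ t, (i : ℕ) - l₁.length = t + 1 := ⟨(i : ℕ) - l₁.length - 1, by omega⟩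
        simp only [ht, List.getElem_cons_succ]
        have := b3 _ (List.getElem_mem (show t < l₂.length by omega))
        omega
  refine dominated q2 ⟨l₁.length, by rw [hlen]; omega⟩ ?_ ?_
  · rw [q4, (hget _).1 rfl]
    exact ⟨L + 1, by ring⟩
  · intro i hi
    rw [q4, q4, (hget ⟨l₁.length, by rw [hlen]; omega⟩).1 rfl]
    have := (hget i).2 (fun e => hi (Fin.ext e))
    omega

theorem lower (n L N' : ℕ) (hn : 3 ≤ n) (hN : N' + (2 * L + 2) = n - 2) (hL : 8 * N' ≤ 2 ^ L)
    (hN2 : 2 ≤ N') : 9 * ((N' - 1) * 2 ^ N') ≤ 64 * (NonSplitSeqs n).ncard := by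
  classical
  let T : Finset (Σ _ : ℕ, List ℕ × List ℕ) :=
    (Finset.Icc 1 (N' - 1)).sigma (fun j => small L j ×ˢ small L (N' - j))
  have hT : 9 * ((N' - 1) * 2 ^ N') ≤ 64 * T.card := by
    have h1 : T.card = ∑ j ∈ Finset.Icc 1 (N' - 1), (small L j).card * (small L (N' - j)).card := by
      rw [Finset.card_sigma]
      exact Finset.sum_congr rfl (fun j _ => Finset.card_product _ _)
    have h2 : ∀ j ∈ Finset.Icc 1 (N' - 1), 9 * 2 ^ N' ≤
        64 * ((small L j).card * (small L (N' - j)).card) := by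
      intro j hj
      rw [Finset.mem_Icc] at hj
      have h3 := small_card (L := L) (j := j) (M := N') hj.1 (by omega) hL
      have h4 := small_card (L := L) (j := N' - j) (M := N') (by omega) (by omega) hL
      have h5 := Nat.mul_le_mul h3 h4
      have h6 : 2 ^ N' = 2 ^ j * 2 ^ (N' - j) := by rw [← pow_add]; congr 1; omega
      calc 9 * 2 ^ N' = 3 * 2 ^ j * (3 * 2 ^ (N' - j)) := by rw [h6]; ring
        _ ≤ _ := h5
        _ = _ := by ring
    have h3 := Finset.sum_le_sum h2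
    have h3' : ∑ j ∈ Finset.Icc 1 (N' - 1), 64 * ((small L j).card * (small L (N' - j)).card) =
        64 * T.card := by rw [h1, Finset.mul_sum]
    rw [h3', Finset.sum_const, Nat.card_Icc, smul_eq_mul] at h3
    calc 9 * ((N' - 1) * 2 ^ N') = (N' - 1 + 1 - 1) * (9 * 2 ^ N') := by
          rw [show N' - 1 + 1 - 1 = N' - 1 by omega]; ring
      _ ≤ _ := h3
  let f : (Σ _ : ℕ, List ℕ × List ℕ) → List ℕ :=
    fun p => (p.2.1 ++ (2 * L + 2) :: p.2.2).map (· + 1)
  have hinj : Set.InjOn f (T : Set (Σ _ : ℕ, List ℕ × List ℕ)) := by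
    rintro ⟨j, l₁, l₂⟩ hp ⟨j', l₁', l₂'⟩ hp' he
    rw [Finset.mem_coe, Finset.mem_sigma, Finset.mem_product] at hp hp'
    obtain ⟨_, hp1, hp2⟩ := hp
    obtain ⟨_, hp1', hp2'⟩ := hp'
    rw [mem_small] at hp1 hp2 hp1' hp2'
    have he' : l₁ ++ (2 * L + 2) :: l₂ = l₁' ++ (2 * L + 2) :: l₂' := map_succ_inj he
    have hn1 : 2 * L + 2 ∉ l₁ := fun hx => by have := hp1.2.2 _ hx; omega
    have hn2 : 2 * L + 2 ∉ l₂ := fun hx => by have := hp2.2.2 _ hx; omega
    obtain ⟨e1, _, e2⟩ := (List.append_cons_inj_of_notMem hn1 hn2).1 he'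
    subst e1 e2
    have : j = j' := hp1.2.1.symm.trans hp1'.2.1
    subst this
    rfl
  have hsub : ((T.image f : Finset (List ℕ)) : Set (List ℕ)) ⊆ NonSplitSeqs n := by
    intro l hl
    rw [Finset.mem_coe, Finset.mem_image] at hl
    obtain ⟨⟨j, l₁, l₂⟩, hp, rfl⟩ := hl
    rw [Finset.mem_sigma, Finset.mem_product, Finset.mem_Icc] at hp
    obtain ⟨hj, hp1, hp2⟩ := hp
    exact mem_nonSplit hp1 hp2 hn (by simp only at hj ⊢; omega)
  have hfin : (NonSplitSeqs n).Finite := by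
    have hsub2 : NonSplitSeqs n ⊆ DegSeqs n := by
      rintro L ⟨V, hV, G, v, q1, q2, q3, q4, _⟩
      exact ⟨V, hV, G, v, q1, q2, q3, q4⟩
    refine Set.Finite.subset ?_ hsub2
    rw [degSeqs_eq n hn]
    exact (Finset.finite_toSet _).image _
  have hcard : T.card ≤ (NonSplitSeqs n).ncard := by
    have h1 := Set.ncard_le_ncard hsub hfin
    rw [Set.ncard_coe_finset, Finset.card_image_of_injOn hinj] at h1
    exact h1
  omega

theorem pow_big : ∀ L, 10 ≤ L → 64 * L + 96 < 2 ^ L := by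
  intro L hL
  induction L, hL using Nat.le_induction with
  | base => norm_num
  | succ L hL ih => rw [pow_succ]; omega

/-- the proportion of non-splittable caterpillars is at least `c / n` -/
theorem lower_bound (n : ℕ) (hn : 66 ≤ n) :
    (DegSeqs n).ncard ≤ 10000 * n * (NonSplitSeqs n).ncard := by
  have hn3 : 3 ≤ n := by omega
  set N := n - 2 with hN
  set L := Nat.log 2 (8 * N) + 1 with hL
  have h1 : 8 * N < 2 ^ L := Nat.lt_pow_succ_log_self (by norm_num) _
  have h2 : 2 ^ L ≤ 16 * N := by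
    have := Nat.pow_log_le_self 2 (show 8 * N ≠ 0 by omega)
    rw [hL, pow_succ]; omega
  have h3 : 4 * L + 6 ≤ N := by
    by_contra hno
    rcases Nat.lt_or_ge L 10 with h4 | h4
    · omega
    · have := pow_big L h4
      omega
  have h4 := lower n L (N - (2 * L + 2)) hn3 (by omega) (by omega) (by omega)
  rw [degSeqs_card n hn3]
  set B := (NonSplitSeqs n).ncard with hB
  set P := 2 ^ (N - (2 * L + 2)) with hP
  have h5 : P * (4 * (2 ^ L * 2 ^ L)) = 2 * 2 ^ (n - 3) := by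
    rw [hP, ← pow_add, show (4 : ℕ) = 2 ^ 2 by norm_num, ← pow_add, ← pow_add, ← pow_succ']
    congr 1; omega
  have h6 : 4 * (2 ^ L * 2 ^ L) ≤ 1024 * (N * N) := by nlinarith [Nat.mul_le_mul h2 h2]
  have h7 : 2 * 2 ^ (n - 3) ≤ P * (1024 * (N * N)) := by
    rw [← h5]; exact Nat.mul_le_mul_left _ h6
  have h8 : N * P ≤ 2 * ((N - (2 * L + 2) - 1) * P) := by
    rw [← mul_assoc]
    exact Nat.mul_le_mul_right _ (by omega)
  have h9 : 9 * (N * P) ≤ 128 * B := by omega
  have h10 : N * (9 * (2 * 2 ^ (n - 3))) ≤ N * (131072 * (N * B)) := by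
    calc N * (9 * (2 * 2 ^ (n - 3))) ≤ N * (9 * (P * (1024 * (N * N)))) :=
          Nat.mul_le_mul_left _ (Nat.mul_le_mul_left _ h7)
      _ = (1024 * (N * N)) * (9 * (N * P)) := by ring
      _ ≤ (1024 * (N * N)) * (128 * B) := Nat.mul_le_mul_left _ h9
      _ = N * (131072 * (N * B)) := by ring
  have h11 := Nat.le_of_mul_le_mul_left h10 (by omega)
  have h12 : N * B ≤ n * B := Nat.mul_le_mul_right _ (by omega)
  calc 2 ^ (n - 3) ≤ 10000 * (n * B) := by omega
    _ = 10000 * n * B := by ring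

end Pool.Agent.W_e8e3a0
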