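import Pool.Agent.W_e8e3a0.Parity49

namespace Pool.Agent.W_e8e3a0

open Finset Num49

variable {V : Type} [Fintype V]

theorem cx_swap {s : ℕ} {a b x y : Fin s → ℕ}
    (h : ∀ i, (x i = a i ∧ y i = b i) ∨ (x i = b i ∧ y i = a i)) (k : ℕ) :
    cx x univ k + cx y univ k = cx a univ k + cx b univ k := by
  unfold cx
  rw [← Finset.sum_add_distrib, ← Finset.sum_add_distrib]
  refine Finset.sum_congr rfl (fun i _ => ?_)
  rcases h i with ⟨h1, h2⟩ | ⟨h1, h2⟩ <;> rw [h1, h2]
  exact add_comm _ _

theorem of_zero {G : SimpleGraph V} {s : ℕ} {v : Fin s → V} (h : IsSpine G v) (hs : Even s)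
    {x y : Fin s → ℕ} (hxy : ∀ i, x i + y i = deg G (v i))
    (hbal : ∀ k, 2 ≤ k → cx x univ k = cx y univ k)
    (hx0 : cx x univ 0 = 0) (hy0 : cx y univ 0 = 1) : Splittable G := by
  have hz := zero_diff hbal
  obtain ⟨w, _, hw⟩ := exists_of_cx (x := y) (R := univ) (k := 0) (by omega)
  have hyp : ∀ i, i ≠ w → 1 ≤ y i := by
    intro i hi
    by_contra hno
    have hi0 : y i = 0 := by omega
    have h3 := cx_sub (x := y) (Finset.subset_univ ({i, w} : Finset (Fin s))) 0
    have h4 : cx y {i, w} 0 = 2 := by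
      unfold cx
      rw [Finset.sum_pair hi, hi0, hw]
      rfl
    omega
  have hxp : ∀ i, 1 ≤ x i := by
    intro i
    by_contra hno
    have hi0 : x i = 0 := by omega
    have h3 := cx_sub (x := x) (Finset.subset_univ ({i} : Finset (Fin s))) 0
    have h4 : cx x {i} 0 = 1 := by
      unfold cx
      rw [Finset.sum_singleton, if_pos hi0]
    omega
  refine construct h x y hxy w (Or.inl hw) (fun i hi => ⟨hxp i, hyp i hi⟩) hbal ?_
  rw [col_count]
  have hwl := w.2
  obtain ⟨t, ht⟩ := hs
  split_ifs <;> omega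

theorem of_nozero {G : SimpleGraph V} {s : ℕ} {v : Fin s → V} (h : IsSpine G v) (hs : Odd s)
    {x y : Fin s → ℕ} (hxy : ∀ i, x i + y i = deg G (v i))
    (hbal : ∀ k, 2 ≤ k → cx x univ k = cx y univ k)
    (hx0 : cx x univ 0 = 0) (hy0 : cx y univ 0 = 0) : Splittable G := by
  have hz := zero_diff hbal
  have hp : ∀ z : Fin s → ℕ, cx z univ 0 = 0 → ∀ i, 1 ≤ z i := by
    intro z hz i
    by_contra hno
    have hi0 : z i = 0 := by omega
    have h3 := cx_sub (x := z) (Finset.subset_univ ({i} : Finset (Fin s))) 0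
    have h4 : cx z {i} 0 = 1 := by
      unfold cx
      rw [Finset.sum_singleton, if_pos hi0]
    omega
  refine construct h x y hxy ⟨0, hs.pos⟩ (Or.inr ⟨rfl, hp x hx0 _⟩)
    (fun i _ => ⟨hp x hx0 i, hp y hy0 i⟩) hbal ?_
  have h3 := col_count 0 (s - 1)
  show _ = _ + 2 * ∑ i ∈ range (s - 1), (if col 0 i then 1 else 0)
  rw [h3]
  obtain ⟨t, ht⟩ := hs
  split_ifs <;> omega

/-- the parity condition with at most one zero suffices, whatever the order of the spine -/
theorem parity_suff {G : SimpleGraph V} {s : ℕ} {v : Fin s → V} (h : IsSpine G v)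
    (hs0 : 0 < s) (hev : Even G.edgeSet.ncard) (a b : Fin s → ℕ)
    (hab : ∀ i, a i + b i = deg G (v i))
    (hpar : ∀ k, 2 ≤ k → Even ((univ.filter (fun i => a i = k)).card +
      (univ.filter (fun i => b i = k)).card))
    (hz : (univ.filter (fun i => a i = 0)).card + (univ.filter (fun i => b i = 0)).card ≤ 1) :
    Splittable G := by
  have e : ∀ (z : Fin s → ℕ) k, (univ.filter (fun i => z i = k)).card = cx z univ k :=
    fun z k => Finset.card_filter _ _
  rw [e, e] at hz
  obtain ⟨x, y, hxy, hb⟩ := orient s univ a b (by rw [Finset.card_univ, Fintype.card_fin])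
    (fun k hk => by have := hpar k hk; rw [e, e] at this; exact Nat.even_iff.1 this)
  have hxy' : ∀ i, x i + y i = deg G (v i) := by
    intro i
    have h1 := hab i
    rcases hxy i with ⟨h2, h3⟩ | ⟨h2, h3⟩ <;> rw [h2, h3]
    · exact h1
    · omega
  have hc := cx_swap hxy 0
  have h1 := sum_diff hb
  have h2 := zero_diff hb
  have h3 := edges_eq h
  have h4 := sum_spine h
  have h5 : ∑ i, deg G (v i) = ∑ i, x i + ∑ i, y i := by
    rw [← Finset.sum_add_distrib]
    exact Finset.sum_congr rfl (fun i _ => (hxy' i).symm)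
  obtain ⟨r, hr⟩ := hev
  rcases Nat.even_or_odd s with hs | hs
  · obtain ⟨t, ht⟩ := hs
    have hs' : Even s := ⟨t, ht⟩
    rcases Nat.eq_zero_or_pos (cx x univ 0) with hx | hx
    · exact of_zero h hs' hxy' hb hx (by omega)
    · exact of_zero h hs' (x := y) (y := x) (fun i => by rw [add_comm]; exact hxy' i)
        (fun k hk => (hb k hk).symm) (by omega) (by omega)
  · obtain ⟨t, ht⟩ := hs
    exact of_nozero h ⟨t, ht⟩ hxy' hb (by omega) (by omega)

end Pool.Agent.W_e8e3a0
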