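import Pool.Agent.W_e8e3a0.Main49

namespace Pool.Agent.W_e8e3a0

open Finset Num49

/-- sums of `M + 4 b i + [i = z]` -/
theorem hard_sum {I : Type} [DecidableEq I] (b : I → ℕ) (M : ℕ) (z : I) (A : Finset I) :
    ∑ i ∈ A, (M + 4 * b i + if i = z then 1 else 0) =
      A.card * M + 4 * ∑ i ∈ A, b i + if z ∈ A then 1 else 0 := by
  rw [Finset.sum_add_distrib, Finset.sum_add_distrib, Finset.sum_const, smul_eq_mul,
    ← Finset.mul_sum, Finset.sum_ite_eq' A z]

/-- the condition for the numbers `M + 4 b i + [i = z]` -/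
theorem hard_cond {I : Type} [Fintype I] [DecidableEq I] (n : ℕ) (hI : Fintype.card I = 2 * n + 2)
    (b : I → ℕ) (M : ℕ) (hM : Odd M) (hbM : 4 * ∑ i, b i + 1 < M) (z : I) (d : I → ℕ)
    (hd : ∀ i, d i = M + 4 * b i + if i = z then 1 else 0) :
    Cond d ↔ ∃ A : Finset I, z ∈ A ∧ A.card = n + 1 ∧ 2 * ∑ i ∈ A, b i = ∑ i, b i := by
  have hsum : ∀ A : Finset I, ∑ i ∈ A, d i =
      A.card * M + 4 * ∑ i ∈ A, b i + if z ∈ A then 1 else 0 := by
    intro A
    rw [← hard_sum b M z A]
    exact Finset.sum_congr rfl (fun i _ => hd i)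
  have hle : ∀ A : Finset I, ∑ i ∈ A, b i ≤ ∑ i, b i := fun A =>
    Finset.sum_le_sum_of_subset (Finset.subset_univ A)
  obtain ⟨q, hq⟩ := hM
  constructor
  · rintro ⟨A, B, hAB, hS, hc⟩
    rw [hsum A, hsum B] at hS
    have h1 := hle A
    have h2 := hle B
    rcases hc with hc | ⟨hc, hc2⟩
    · exfalso
      rw [hc, Nat.add_mul, one_mul] at hS
      split_ifs at hS <;> omega
    · rw [hc] at hS
      have hzA : z ∈ A := by
        by_contra hz
        rw [if_neg hz] at hS
        split_ifs at hS <;> omega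
      have hzB : z ∉ B := fun hz => Finset.disjoint_left.1 hAB hzA hz
      rw [if_pos hzA, if_neg hzB] at hS
      have hb : ∑ i ∈ A, b i = ∑ i ∈ B, b i := by omega
      have hall : ∀ i, i ∈ A ∪ B := by
        rcases hc2 with hc2 | ⟨i, hi, hie⟩
        · exact hc2
        · exfalso
          have hiz : i ≠ z := by
            rintro rfl
            exact hi (Finset.mem_union_left _ hzA)
          rw [hd i, if_neg hiz] at hie
          obtain ⟨r, hr⟩ := hie
          omega
      have hU : A ∪ B = univ := Finset.eq_univ_iff_forall.2 hall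
      have h3 : A.card + B.card = 2 * n + 2 := by
        rw [← Finset.card_union_of_disjoint hAB, hU, Finset.card_univ, hI]
      have h4 : ∑ i ∈ A, b i + ∑ i ∈ B, b i = ∑ i, b i := by
        rw [← Finset.sum_union hAB, hU]
      exact ⟨A, hzA, by omega, by omega⟩
  · rintro ⟨A, hzA, hA, hs⟩
    have h3 : A.card + Aᶜ.card = 2 * n + 2 := by
      rw [Finset.card_add_card_compl, hI]
    have h4 : ∑ i ∈ A, b i + ∑ i ∈ Aᶜ, b i = ∑ i, b i := Finset.sum_add_sum_compl A b
    have hcc : A.card = Aᶜ.card := by omega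
    refine ⟨A, Aᶜ, disjoint_compl_right, ?_, Or.inr ⟨hcc, Or.inl (fun i => ?_)⟩⟩
    · rw [hsum, hsum, if_pos hzA, if_neg (fun h => (Finset.mem_compl.1 h) hzA), ← hcc]
      omega
    · rw [Finset.union_compl]
      exact Finset.mem_univ i

/-- halves of the numbers `a i`, with `n + 1` numbers `0` and one marked number `0` added -/
theorem hard_half {I : Type} [Fintype I] [DecidableEq I] (n : ℕ) (a : Fin n → ℕ)
    (σ : Option (Fin n ⊕ Fin (n + 1)) ≃ I) (b : I → ℕ) (hz : b (σ none) = 0)
    (ha : ∀ i, b (σ (some (Sum.inl i))) = a i) (h0 : ∀ j, b (σ (some (Sum.inr j))) = 0) :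
    (∃ A : Finset I, σ none ∈ A ∧ A.card = n + 1 ∧ 2 * ∑ i ∈ A, b i = ∑ i, b i) ↔
      ∃ S : Finset (Fin n), 2 * ∑ i ∈ S, a i = ∑ i, a i := by
  have htot : ∑ i, b i = ∑ i, a i := by
    rw [← Equiv.sum_comp σ b, Fintype.sum_option, Fintype.sum_sum_type, hz]
    simp only [ha, h0, Finset.sum_const_zero, add_zero, zero_add]
  rw [htot]
  constructor
  · rintro ⟨A, hzA, hA, hs⟩
    refine ⟨univ.filter (fun i => σ (some (Sum.inl i)) ∈ A), ?_⟩
    rw [← hs, Finset.sum_filter]
    have h1 : ∑ i ∈ A, b i = ∑ i, if i ∈ A then b i else 0 := by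
      rw [Finset.sum_ite_mem, Finset.univ_inter]
    rw [h1, ← Equiv.sum_comp σ (fun i => if i ∈ A then b i else 0), Fintype.sum_option,
      Fintype.sum_sum_type, hz]
    simp only [ha, h0, ite_self, Finset.sum_const_zero, add_zero, zero_add]
  · rintro ⟨S, hS⟩
    have hSn : S.card ≤ n := by
      have := Finset.card_le_univ S
      rwa [Fintype.card_fin] at this
    obtain ⟨T, -, hT⟩ := Finset.exists_subset_card_eq (s := (univ : Finset (Fin (n + 1))))
      (n := n - S.card) (by rw [Finset.card_univ, Fintype.card_fin]; omega)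
    refine ⟨(Finset.insertNone (S.disjSum T)).map σ.toEmbedding, ?_, ?_, ?_⟩
    · exact Finset.mem_map_of_mem _ (Finset.none_mem_insertNone)
    · rw [Finset.card_map, Finset.card_insertNone, Finset.card_disjSum, hT]
      omega
    · rw [Finset.sum_map, Finset.sum_insertNone, Finset.sum_disjSum]
      simp only [Equiv.toEmbedding_apply, hz, ha, h0, Finset.sum_const_zero, add_zero, zero_add]
      exact hS

/-- PARTITION in caterpillars -/
theorem hard {V : Type} [Fintype V] {G : SimpleGraph V} {s : ℕ} {v : Fin s → V}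
    (h : IsSpine G v) (n : ℕ) (a : Fin n → ℕ) (M : ℕ) (hM : Odd M) (haM : 4 * ∑ i, a i + 1 < M)
    (σ : Option (Fin n ⊕ Fin (n + 1)) ≃ Fin s) (hz : deg G (v (σ none)) = M + 1)
    (ha : ∀ i, deg G (v (σ (some (Sum.inl i)))) = M + 4 * a i)
    (h0 : ∀ j, deg G (v (σ (some (Sum.inr j)))) = M) :
    Splittable G ↔ ∃ S : Finset (Fin n), 2 * ∑ i ∈ S, a i = ∑ i, a i := by
  classical
  have hs : s = 2 * n + 2 := by
    have h1 := Fintype.card_congr σ
    rw [Fintype.card_option, Fintype.card_sum, Fintype.card_fin, Fintype.card_fin,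
      Fintype.card_fin] at h1
    omega
  set b : Fin s → ℕ := fun i => Option.elim (σ.symm i) 0 (Sum.elim a (fun _ => 0)) with hb
  have hbz : b (σ none) = 0 := by simp [hb]
  have hba : ∀ i, b (σ (some (Sum.inl i))) = a i := by intro i; simp [hb]
  have hb0 : ∀ j, b (σ (some (Sum.inr j))) = 0 := by intro j; simp [hb]
  have htot : ∑ i, b i = ∑ i, a i := by
    rw [← Equiv.sum_comp σ b, Fintype.sum_option, Fintype.sum_sum_type, hbz]
    simp only [hba, hb0, Finset.sum_const_zero, add_zero, zero_add]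
  have hd : ∀ i, deg G (v i) = M + 4 * b i + if i = σ none then 1 else 0 := by
    intro i
    obtain ⟨j, rfl⟩ := σ.surjective i
    rcases j with _ | (j | j)
    · rw [hz, hbz, if_pos rfl]
    · rw [ha, hba, if_neg (fun h5 => by have := σ.injective h5; simp at this)]
      rfl
    · rw [h0, hb0, if_neg (fun h5 => by have := σ.injective h5; simp at this)]
      rfl
  have hbM : 4 * ∑ i, b i + 1 < M := by rw [htot]; exact haM
  have hble : ∀ i, b i ≤ ∑ i, b i := fun i =>
    Finset.single_le_sum (f := b) (fun _ _ => Nat.zero_le _) (Finset.mem_univ i)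
  have hwin : ∀ i j, deg G (v i) ≤ 2 * deg G (v j) := by
    intro i j
    have h1 := hble i
    rw [hd i, hd j]
    split_ifs <;> omega
  have hev : Even G.edgeSet.ncard := by
    have h1 := edges_eq h
    have h2 := sum_spine h
    have h3 : ∑ i, deg G (v i) = s * M + 4 * ∑ i, b i + 1 := by
      have h4 := hard_sum b M (σ none) univ
      rw [Finset.card_univ, Fintype.card_fin, if_pos (Finset.mem_univ _)] at h4
      rw [← h4]
      exact Finset.sum_congr rfl (fun i _ => hd i)
    rw [h3] at h2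
    have h5 : s * M = 2 * ((n + 1) * M) := by rw [hs]; ring
    rw [h5] at h2
    rw [Nat.even_iff]
    omega
  rw [window h (by omega) hwin]
  have hno : ¬ Odd s := by
    rw [Nat.not_odd_iff_even, hs]
    exact ⟨n + 1, by ring⟩
  rw [← hard_half n a σ b hbz hba hb0,
    ← hard_cond n (by rw [Fintype.card_fin]; exact hs) b M hM hbM (σ none)
      (fun i => deg G (v i)) hd]
  constructor
  · rintro ⟨-, h6 | h6⟩
    · exact absurd h6 hno
    · exact h6
  · exact fun h6 => ⟨hev, Or.inr h6⟩

end Pool.Agent.W_e8e3a0
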