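import Pool.Agent.W_e8e3a0.Rich49

namespace Pool.Agent.W_e8e3a0

open Finset Num49

variable {V : Type} [Fintype V]

theorem split_of_good {G : SimpleGraph V} {s : ℕ} {v : Fin s → V} (h : IsSpine G v) (hs : Odd s)
    (hg : Good (fun i => deg G (v i)) (univ : Finset (Fin s))) : Splittable G := by
  obtain ⟨x, y, hxy, hb⟩ := hg
  have hs0 : 0 < s := hs.pos
  refine construct h x y (fun i => (hxy i (mem_univ i)).1) ⟨0, hs0⟩
    (Or.inr ⟨rfl, (hxy _ (mem_univ _)).2.1⟩) (fun i _ => (hxy i (mem_univ i)).2)
    (fun k _ => hb k) ?_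
  rw [hb 1]
  have h3 := col_count 0 (s - 1)
  show _ = _ + 2 * ∑ i ∈ range (s - 1), (if col 0 i then 1 else 0)
  rw [h3]
  obtain ⟨t, ht⟩ := hs
  split_ifs <;> omega

theorem split_of_seg {G : SimpleGraph V} {s : ℕ} {v : Fin s → V} (h : IsSpine G v) (hs : Even s)
    (hg : Seg (fun i => deg G (v i)) (univ : Finset (Fin s)) 1 0) : Splittable G := by
  classical
  obtain ⟨x, y, hxy, hb⟩ := hg
  obtain ⟨t, ht⟩ := hs
  have hx0 : cx x univ 0 = 0 := by
    unfold cx
    exact Finset.sum_eq_zero (fun i hi => if_neg (by have := (hxy i hi).2.1; omega))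
  have hy0 : cx y univ 0 = 1 := by
    have := hb 0
    rw [hx0] at this
    simpa using this.symm
  obtain ⟨w, _, hw⟩ := exists_of_cx (x := y) (R := univ) (k := 0) (by omega)
  have hyp : ∀ i, i ≠ w → 1 ≤ y i := by
    intro i hi
    by_contra hno
    have hi0 : y i = 0 := by omega
    have h3 := cx_sub (x := y) (Finset.subset_univ ({i, w} : Finset (Fin s))) 0
    have h4 : cx y {i, w} 0 = 2 := by
      unfold cx
      rw [Finset.sum_pair hi, hi0, hw]
      rfl
    omega
  refine construct h x y (fun i => (hxy i (mem_univ i)).1) w (Or.inl hw)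
    (fun i hi => ⟨(hxy i (mem_univ i)).2.1, hyp i hi⟩) ?_ ?_
  · intro k hk
    have := hb k
    rw [if_neg (by omega), if_neg (by omega)] at this
    omega
  · have h3 := hb 1
    simp only [one_ne_zero, if_false, if_true, add_zero] at h3
    rw [col_count]
    have hwl := w.2
    split_ifs <;> omega

/-- rich caterpillars: `p` odd, maximum degree at most `2 p - 1`, many vertices of degree `p` and
of each even degree `4, …, p + 1` on the spine, and a vertex of degree `2` and one of degree `3` -/
theorem rich_split {G : SimpleGraph V} {s : ℕ} {v : Fin s → V} (h : IsSpine G v) (hs : 0 < s)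
    (hev : Even G.edgeSet.ncard) {p : ℕ} (hp : Odd p) (hp3 : 3 ≤ p)
    (hD : ∀ i, deg G (v i) + 1 ≤ 2 * p)
    (hcp : 2 * p + 1 ≤ cx (fun i => deg G (v i)) univ p)
    (hce : ∀ e, Even e → 4 ≤ e → e ≤ p + 1 → 2 * p ≤ cx (fun i => deg G (v i)) univ e)
    (h2 : 1 ≤ cx (fun i => deg G (v i)) univ 2) (h3 : 1 ≤ cx (fun i => deg G (v i)) univ 3) :
    Splittable G := by
  classical
  have e1 := edges_eq h
  have e2 := sum_spine h
  set d : Fin s → ℕ := fun i => deg G (v i) with hd
  have e2' : (univ : Finset (Fin s)).sum d = 2 * (s - 1) + (offSpine v).card := e2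
  have hcard : ∀ R : Finset (Fin s), ((range (2 * p - 1 + 1)).filter
      (fun q => Odd q ∧ q ≠ p ∧ Odd (cx d R q))).card ≤ 2 * p := by
    intro R
    refine le_trans (Finset.card_filter_le _ _) ?_
    rw [Finset.card_range]; omega
  have hdD : ∀ i, 2 ≤ d i ∧ d i ≤ 2 * p - 1 := fun i => ⟨h.two i, by
    have h9 : d i + 1 ≤ 2 * p := hD i
    omega⟩
  obtain ⟨r, hr⟩ := hev
  rcases Nat.even_or_odd s with hse | hso
  · obtain ⟨a, _, ha⟩ := exists_of_cx h3
    obtain ⟨b, _, hb⟩ := exists_of_cx h2
    have hab : a ≠ b := by rintro rfl; omega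
    have hseg : Seg d {a, b} 1 0 := seg_pair hab le_rfl (by omega) (by omega)
    have hcxB : ∀ q, cx d ({a, b} : Finset (Fin s)) q = (if 3 = q then 1 else 0) +
        (if 2 = q then 1 else 0) := by
      intro q
      unfold cx
      rw [Finset.sum_pair hab, ha, hb]
    have hsub := fun q => cx_sub (x := d) (Finset.subset_univ ({a, b} : Finset (Fin s))) q
    have hsumB : ({a, b} : Finset (Fin s)).sum d = 5 := by
      have h9 : ({a, b} : Finset (Fin s)).sum d = d a + d b := Finset.sum_pair hab
      omega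
    have hsd : (univ \ {a, b}).sum d + ({a, b} : Finset (Fin s)).sum d =
      (univ : Finset (Fin s)).sum d := Finset.sum_sdiff (Finset.subset_univ _)
    obtain ⟨t, ht⟩ := hse
    have hgood : Good d (univ \ {a, b}) := by
      refine good_rich hp hp3 (by omega) (2 * p) _ (hcard _) ?_ (fun i _ => hdD i) ?_ ?_
      · refine Nat.even_iff.2 ?_
        show ((univ \ {a, b}).sum d) % 2 = 0
        omega
      · have h5 := hsub p
        have h6 := hcxB p
        rw [if_neg (show ¬ 2 = p by omega)] at h6
        by_cases h7 : 3 = p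
        · rw [if_pos h7] at h6; omega
        · rw [if_neg h7] at h6; omega
      · intro e he h4 hle
        have h5 := hsub e
        have h6 := hcxB e
        have h7 := hce e he h4 hle
        rw [if_neg (show ¬ 3 = e by omega), if_neg (show ¬ 2 = e by omega)] at h6
        omega
    have hall := hseg.good hgood Finset.disjoint_sdiff
    have hu : ({a, b} : Finset (Fin s)) ∪ (univ \ {a, b}) = univ :=
      Finset.union_sdiff_of_subset (subset_univ _)
    rw [hu] at hall
    exact split_of_seg h ⟨t, ht⟩ hall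
  · refine split_of_good h hso (good_rich hp hp3 (by omega) (2 * p) _ (hcard _) ?_
      (fun i _ => hdD i) (le_trans (Nat.le_succ _) hcp) hce)
    obtain ⟨t, ht⟩ := hso
    refine Nat.even_iff.2 ?_
    show ((univ : Finset (Fin s)).sum d) % 2 = 0
    omega

end Pool.Agent.W_e8e3a0
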