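import Pool.Agent.W_e8e3a0.Comp49

namespace Pool.Agent.W_e8e3a0

open Finset

/-- weighted count -/
noncomputable def Zc (c N : ℕ) : ℝ := ∑ l ∈ comps N, (1 / 2 : ℝ) ^ (l.count c)

theorem Zc_succ (c n : ℕ) : Zc c (n + 1) =
    ∑ j ∈ range (n + 1), (if j + 1 = c then (1 / 2 : ℝ) else 1) * Zc c (n - j) := by
  unfold Zc
  rw [sum_comps]
  refine Finset.sum_congr rfl (fun j _ => ?_)
  rw [Finset.mul_sum]
  refine Finset.sum_congr rfl (fun l _ => ?_)
  rw [List.count_cons]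
  by_cases h : j + 1 = c
  · simp [h, pow_succ, mul_comm]
  · simp [h]

theorem Zc_le (c : ℕ) (hc : 1 ≤ c) : ∀ N, Zc c N ≤ (2 - (1 / 2 : ℝ) ^ (c + 2)) ^ N := by
  set η : ℝ := (1 / 2 : ℝ) ^ (c + 2) with hη
  have hη0 : 0 < η := by positivity
  have hη1 : η ≤ 1 / 8 := by
    have : (1 / 2 : ℝ) ^ (c + 2) ≤ (1 / 2 : ℝ) ^ 3 :=
      pow_le_pow_of_le_one (by norm_num) (by norm_num) (by omega)
    rw [hη]
    refine le_trans this ?_
    norm_num
  have hη2 : η * 2 ^ c = 1 / 4 := by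
    rw [hη, pow_add, mul_right_comm, ← mul_pow]
    norm_num
  set lam : ℝ := 2 - η with hlam
  have hl1 : 1 < lam := by rw [hlam]; linarith
  have hl2 : lam ≤ 2 := by rw [hlam]; linarith
  have hstep : ∀ n, ∑ j ∈ range (n + 1), (if j + 1 = c then (1 / 2 : ℝ) else 1) * lam ^ (n - j) ≤
      lam ^ (n + 1) := by
    intro n
    have h1 : ∑ j ∈ range (n + 1), (if j + 1 = c then (1 / 2 : ℝ) else 1) * lam ^ (n - j) =
        ∑ j ∈ range (n + 1), lam ^ (n - j) -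
        ∑ j ∈ range (n + 1), (if j + 1 = c then (1 / 2 : ℝ) * lam ^ (n - j) else 0) := by
      rw [← Finset.sum_sub_distrib]
      refine Finset.sum_congr rfl (fun j _ => ?_)
      by_cases h : j + 1 = c
      · rw [if_pos h, if_pos h]; ring
      · rw [if_neg h, if_neg h]; ring
    have h2 : (∑ j ∈ range (n + 1), lam ^ (n - j)) * (lam - 1) = lam ^ (n + 1) - 1 := by
      rw [← geom_sum_mul, ← Finset.sum_range_reflect]
      congr 1
      refine Finset.sum_congr rfl (fun j hj => ?_)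
      have := Finset.mem_range.1 hj
      congr 1
      omega
    rw [h1]
    have hl0 : 0 < lam - 1 := by linarith
    by_cases hcn : c ≤ n + 1
    · have h3 : ∑ j ∈ range (n + 1), (if j + 1 = c then (1 / 2 : ℝ) * lam ^ (n - j) else 0) =
          (1 / 2 : ℝ) * lam ^ (n + 1 - c) := by
        rw [Finset.sum_eq_single (c - 1)]
        · rw [if_pos (by omega)]
          congr 2
          omega
        · intro j _ hj
          rw [if_neg (by omega)]
        · intro hn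
          exact absurd (Finset.mem_range.2 (by omega)) hn
      rw [h3]
      have h4 : lam ^ (n + 1) = lam ^ c * lam ^ (n + 1 - c) := by
        rw [← pow_add]; congr 1; omega
      have h5 : lam ^ c ≤ 2 ^ c := pow_le_pow_left₀ (by linarith) hl2 c
      have hx : 0 < lam ^ (n + 1 - c) := by positivity
      have h6 : η * lam ^ (n + 1) ≤ 1 / 4 * lam ^ (n + 1 - c) := by
        rw [h4, ← mul_assoc]
        refine mul_le_mul_of_nonneg_right ?_ hx.le
        calc η * lam ^ c ≤ η * 2 ^ c := mul_le_mul_of_nonneg_left h5 hη0.le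
          _ = 1 / 4 := hη2
      -- multiply by lam - 1
      have h7 : (∑ j ∈ range (n + 1), lam ^ (n - j)) * (lam - 1) ≤
          (lam ^ (n + 1) + 1 / 2 * lam ^ (n + 1 - c)) * (lam - 1) := by
        rw [h2]
        have h8 : (lam - 1) = 1 - η := by rw [hlam]; ring
        rw [h8]
        nlinarith
      have h9 := le_of_mul_le_mul_right h7 hl0
      linarith
    · have h3 : ∑ j ∈ range (n + 1), (if j + 1 = c then (1 / 2 : ℝ) * lam ^ (n - j) else 0) = 0 := by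
        refine Finset.sum_eq_zero (fun j hj => if_neg ?_)
        have := Finset.mem_range.1 hj
        omega
      rw [h3, sub_zero]
      have h5 : lam ^ (n + 1) ≤ 2 ^ c := by
        refine le_trans (pow_le_pow_left₀ (by linarith) hl2 (n + 1)) ?_
        exact pow_le_pow_right₀ (by norm_num) (by omega)
      have h6 : η * lam ^ (n + 1) ≤ 1 / 4 :=
        calc η * lam ^ (n + 1) ≤ η * 2 ^ c := mul_le_mul_of_nonneg_left h5 hη0.le
          _ = 1 / 4 := hη2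
      have h7 : (∑ j ∈ range (n + 1), lam ^ (n - j)) * (lam - 1) ≤ lam ^ (n + 1) * (lam - 1) := by
        rw [h2]
        have h8 : (lam - 1) = 1 - η := by rw [hlam]; ring
        rw [h8]
        nlinarith
      exact le_of_mul_le_mul_right h7 hl0
  intro N
  induction N using Nat.strong_induction_on with
  | _ N ih =>
  cases N with
  | zero => simp [Zc, comps]
  | succ n =>
    rw [Zc_succ]
    refine le_trans (Finset.sum_le_sum (fun j hj => ?_)) (hstep n)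
    refine mul_le_mul_of_nonneg_left (ih (n - j) (by omega)) ?_
    split_ifs <;> norm_num

/-- number of compositions of `N` with fewer than `K` parts equal to `c` -/
def few (c K N : ℕ) : ℕ := ((comps N).filter (fun l => l.count c < K)).card

theorem few_le (c K N : ℕ) (hc : 1 ≤ c) :
    (few c K N : ℝ) ≤ 2 ^ K * (2 ^ N * Real.exp (-(N * (1 / 2 : ℝ) ^ (c + 3)))) := by
  have h1 : (few c K N : ℝ) * (1 / 2 : ℝ) ^ K ≤ Zc c N := by
    unfold few Zc
    rw [← nsmul_eq_mul, ← Finset.sum_const]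
    refine le_trans (Finset.sum_le_sum (g := fun l : List ℕ => (1 / 2 : ℝ) ^ (l.count c))
      (fun l hl => ?_)) ?_
    · exact pow_le_pow_of_le_one (by norm_num) (by norm_num) (Finset.mem_filter.1 hl).2.le
    · exact Finset.sum_le_sum_of_subset_of_nonneg (Finset.filter_subset _ _)
        (fun l _ _ => by positivity)
  have h2 := Zc_le c hc N
  have h3 : (2 - (1 / 2 : ℝ) ^ (c + 2)) ^ N ≤ 2 ^ N * Real.exp (-(N * (1 / 2 : ℝ) ^ (c + 3))) := by
    have h4 : (2 - (1 / 2 : ℝ) ^ (c + 2)) = 2 * (1 - (1 / 2 : ℝ) ^ (c + 3)) := by ring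
    rw [h4, mul_pow]
    refine mul_le_mul_of_nonneg_left ?_ (by positivity)
    have h5 : (1 - (1 / 2 : ℝ) ^ (c + 3)) ≤ Real.exp (-((1 / 2 : ℝ) ^ (c + 3))) := by
      have := Real.add_one_le_exp (-((1 / 2 : ℝ) ^ (c + 3)))
      linarith
    have h6 : 0 ≤ 1 - (1 / 2 : ℝ) ^ (c + 3) := by
      have : (1 / 2 : ℝ) ^ (c + 3) ≤ 1 := pow_le_one₀ (by norm_num) (by norm_num)
      linarith
    refine le_trans (pow_le_pow_left₀ h6 h5 N) ?_
    rw [← Real.exp_nat_mul]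
    apply le_of_eq
    congr 1
    ring
  have h4 : (few c K N : ℝ) = 2 ^ K * ((few c K N : ℝ) * (1 / 2 : ℝ) ^ K) := by
    have : (2 : ℝ) ^ K * (1 / 2 : ℝ) ^ K = 1 := by rw [← mul_pow]; norm_num
    calc (few c K N : ℝ) = (few c K N : ℝ) * (2 ^ K * (1 / 2 : ℝ) ^ K) := by rw [this, mul_one]
      _ = _ := by ring
  rw [h4]
  exact mul_le_mul_of_nonneg_left (h1.trans (h2.trans h3)) (by positivity)

theorem exp_neg_le (y : ℝ) (hy : 0 < y) : Real.exp (-y) ≤ 720 / y ^ 6 := by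
  have h1 := Real.pow_div_factorial_le_exp y hy.le 6
  have h2 : ((Nat.factorial 6 : ℕ) : ℝ) = 720 := by norm_num [Nat.factorial]
  rw [h2] at h1
  rw [Real.exp_neg, inv_eq_one_div, div_le_div_iff₀ (Real.exp_pos y) (by positivity)]
  have h3 : y ^ 6 ≤ 720 * Real.exp y := by
    rw [div_le_iff₀ (by norm_num)] at h1
    linarith
  linarith

/-- bad compositions: a part `≥ 4 a + 1`, or fewer than `4 a + 3` parts equal to some
`c ∈ [1, 2 a + 1]` -/
def BadL (a : ℕ) (l : List ℕ) : Prop := (∃ x ∈ l, 4 * a + 1 ≤ x) ∨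
  ∃ c, 1 ≤ c ∧ c ≤ 2 * a + 1 ∧ l.count c < 4 * a + 3

theorem bad_le (a N : ℕ) [DecidablePred (BadL a)] (h1 : 2 ^ (3 * a) ≤ N)
    (h2 : N < 2 ^ (3 * a + 3)) :
    (((comps N).filter (BadL a)).card : ℝ) ≤ 2 ^ N * (2 ^ 38 * (1 / 2 : ℝ) ^ a) := by
  have hsub : (comps N).filter (BadL a) ⊆
      ((comps N).filter (fun l => ∃ x ∈ l, 4 * a + 1 ≤ x)) ∪
      (Finset.range (2 * a + 1)).biUnion (fun c =>
        (comps N).filter (fun l => l.count (c + 1) < 4 * a + 3)) := by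
    intro l hl
    obtain ⟨hl1, hl2⟩ := Finset.mem_filter.1 hl
    rw [Finset.mem_union, Finset.mem_biUnion]
    rcases hl2 with h | ⟨c, hc1, hc2, hc3⟩
    · exact Or.inl (Finset.mem_filter.2 ⟨hl1, h⟩)
    · refine Or.inr ⟨c - 1, Finset.mem_range.2 (by omega), Finset.mem_filter.2 ⟨hl1, ?_⟩⟩
      have : c - 1 + 1 = c := by omega
      rw [this]; exact hc3
  have hcard := (Finset.card_le_card hsub).trans (Finset.card_union_le _ _)
  have hcard2 := hcard.trans (Nat.add_le_add_left Finset.card_biUnion_le _)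
  have hreal : (((comps N).filter (BadL a)).card : ℝ) ≤
      (big (4 * a + 1) N : ℝ) + ∑ c ∈ range (2 * a + 1), (few (c + 1) (4 * a + 3) N : ℝ) := by
    exact_mod_cast hcard2
  refine hreal.trans ?_
  have hN : (2 : ℝ) ^ (3 * a) ≤ N := by exact_mod_cast h1
  -- the big part
  have hbig : (big (4 * a + 1) N : ℝ) ≤ 2 ^ N * (8 * (1 / 2 : ℝ) ^ a) := by
    have h3 := big_le (4 * a + 1) (by omega) N
    have h4 : 2 ^ (4 * a + 1) * big (4 * a + 1) N ≤ 2 ^ (3 * a + 3) * 2 ^ (N + 1) :=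
      h3.trans (Nat.mul_le_mul_right _ h2.le)
    have h5 : (2 : ℝ) ^ (4 * a + 1) * (big (4 * a + 1) N : ℝ) ≤ 2 ^ (3 * a + 3) * 2 ^ (N + 1) := by
      exact_mod_cast h4
    have h6 : (2 : ℝ) ^ (3 * a + 3) * 2 ^ (N + 1) =
        2 ^ (4 * a + 1) * (2 ^ N * (8 * (1 / 2 : ℝ) ^ a)) := by
      have h7 : (2 : ℝ) ^ a * (1 / 2 : ℝ) ^ a = 1 := by rw [← mul_pow]; norm_num
      have h8 : (2 : ℝ) ^ (4 * a + 1) = 2 ^ (3 * a) * 2 ^ a * 2 := by
        rw [← pow_add, ← pow_succ]; congr 1; ring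
      rw [h8, pow_add, pow_add]
      linear_combination (- 16 * (2 : ℝ) ^ (3 * a) * 2 ^ N) * h7
    rw [h6] at h5
    exact le_of_mul_le_mul_left h5 (by positivity)
  -- the few part
  have hfew : ∀ c ∈ range (2 * a + 1), (few (c + 1) (4 * a + 3) N : ℝ) ≤
      2 ^ N * (720 * 2 ^ 27 * ((1 / 2 : ℝ) ^ a) ^ 2) := by
    intro c hc
    have hc' := Finset.mem_range.1 hc
    have h3 := few_le (c + 1) (4 * a + 3) N (by omega)
    have hy : (2 : ℝ) ^ a / 16 ≤ N * (1 / 2 : ℝ) ^ (c + 1 + 3) := by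
      have h4 : (1 / 2 : ℝ) ^ (2 * a + 4) ≤ (1 / 2 : ℝ) ^ (c + 1 + 3) :=
        pow_le_pow_of_le_one (by norm_num) (by norm_num) (by omega)
      have h5 : (2 : ℝ) ^ a / 16 = 2 ^ (3 * a) * (1 / 2 : ℝ) ^ (2 * a + 4) := by
        have h7 : (2 : ℝ) ^ (2 * a) * (1 / 2 : ℝ) ^ (2 * a) = 1 := by rw [← mul_pow]; norm_num
        have h8 : (2 : ℝ) ^ (3 * a) = 2 ^ (2 * a) * 2 ^ a := by rw [← pow_add]; congr 1; ring
        rw [h8, pow_add]
        linear_combination (- (2 : ℝ) ^ a / 16) * h7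
      rw [h5]
      exact mul_le_mul hN h4 (by positivity) (by positivity)
    have hy0 : (0 : ℝ) < 2 ^ a / 16 := by positivity
    have h4 : Real.exp (-(N * (1 / 2 : ℝ) ^ (c + 1 + 3))) ≤ 720 / (2 ^ a / 16) ^ 6 :=
      (Real.exp_le_exp.2 (neg_le_neg hy)).trans (exp_neg_le _ hy0)
    refine h3.trans ?_
    have h5 : (2 : ℝ) ^ (4 * a + 3) * (2 ^ N * (720 / (2 ^ a / 16) ^ 6)) =
        2 ^ N * (720 * 2 ^ 27 * ((1 / 2 : ℝ) ^ a) ^ 2) := by
      have h7 : (1 / 2 : ℝ) ^ a = 1 / 2 ^ a := by rw [one_div, one_div, inv_pow]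
      have h8 : (2 : ℝ) ^ (4 * a + 3) = (2 ^ a) ^ 4 * 8 := by
        rw [pow_add, ← pow_mul, mul_comm a 4]; norm_num
      have h9 : (2 : ℝ) ^ a ≠ 0 := by positivity
      rw [h7, h8]
      field_simp
      norm_num
    rw [← h5]
    refine mul_le_mul_of_nonneg_left (mul_le_mul_of_nonneg_left h4 (by positivity)) (by positivity)
  have hsum := Finset.sum_le_sum hfew
  rw [Finset.sum_const, Finset.card_range, nsmul_eq_mul] at hsum
  have ha : ((2 * a + 1 : ℕ) : ℝ) * (1 / 2 : ℝ) ^ a ≤ 2 := by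
    have h3 : 2 * a + 1 ≤ 2 * 2 ^ a := by
      have := Nat.lt_two_pow_self (n := a)
      omega
    have h4 : ((2 * a + 1 : ℕ) : ℝ) ≤ 2 * 2 ^ a := by exact_mod_cast h3
    have h7 : (2 : ℝ) ^ a * (1 / 2 : ℝ) ^ a = 1 := by rw [← mul_pow]; norm_num
    calc ((2 * a + 1 : ℕ) : ℝ) * (1 / 2 : ℝ) ^ a ≤ (2 * 2 ^ a) * (1 / 2 : ℝ) ^ a :=
          mul_le_mul_of_nonneg_right h4 (by positivity)
      _ = 2 := by linear_combination 2 * h7
  have hx : (0 : ℝ) ≤ (1 / 2 : ℝ) ^ a := by positivity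
  have hP : (0 : ℝ) < 2 ^ N := by positivity
  have hfinal : ((2 * a + 1 : ℕ) : ℝ) * (2 ^ N * (720 * 2 ^ 27 * ((1 / 2 : ℝ) ^ a) ^ 2)) ≤
      2 ^ N * (720 * 2 ^ 28 * (1 / 2 : ℝ) ^ a) := by
    have h3 : ((2 * a + 1 : ℕ) : ℝ) * (2 ^ N * (720 * 2 ^ 27 * ((1 / 2 : ℝ) ^ a) ^ 2)) =
        2 ^ N * (720 * 2 ^ 27) * (1 / 2 : ℝ) ^ a * (((2 * a + 1 : ℕ) : ℝ) * (1 / 2 : ℝ) ^ a) := by
      ring
    rw [h3]
    have h4 : 2 ^ N * (720 * 2 ^ 27) * (1 / 2 : ℝ) ^ a * (((2 * a + 1 : ℕ) : ℝ) * (1 / 2 : ℝ) ^ a)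
        ≤ 2 ^ N * (720 * 2 ^ 27) * (1 / 2 : ℝ) ^ a * 2 :=
      mul_le_mul_of_nonneg_left ha (by positivity)
    refine h4.trans (le_of_eq ?_)
    ring
  have hnum : (8 : ℝ) + 720 * 2 ^ 28 ≤ 2 ^ 38 := by norm_num
  calc (big (4 * a + 1) N : ℝ) + ∑ c ∈ range (2 * a + 1), (few (c + 1) (4 * a + 3) N : ℝ)
      ≤ 2 ^ N * (8 * (1 / 2 : ℝ) ^ a) + 2 ^ N * (720 * 2 ^ 28 * (1 / 2 : ℝ) ^ a) :=
        add_le_add hbig (hsum.trans hfinal)
    _ = 2 ^ N * ((8 + 720 * 2 ^ 28) * (1 / 2 : ℝ) ^ a) := by ring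
    _ ≤ 2 ^ N * (2 ^ 38 * (1 / 2 : ℝ) ^ a) :=
        mul_le_mul_of_nonneg_left (mul_le_mul_of_nonneg_right hnum hx) hP.le

end Pool.Agent.W_e8e3a0
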