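import Pool.Agent.W_e8e3a0.DefsA49
import Pool.Agent.W_e8e3a0.RichM49
import Pool.Agent.W_e8e3a0.Weight49

namespace Pool.Agent.W_e8e3a0

open Finset Num49

theorem sum_get (L : List ℕ) : ∑ i : Fin L.length, L.get i = L.sum := by
  induction L with
  | nil => simp
  | cons a t ih =>
    rw [List.sum_cons, ← ih]
    exact Fin.sum_univ_succ (fun i : Fin (t.length + 1) => (a :: t).get i)

theorem count_get (L : List ℕ) (q : ℕ) :
    ∑ i : Fin L.length, (if L.get i = q then 1 else 0) = L.count q := by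
  induction L with
  | nil => simp
  | cons a t ih =>
    rw [List.count_cons, ← ih]
    have h := Fin.sum_univ_succ (fun i : Fin (t.length + 1) =>
      if (a :: t).get i = q then 1 else 0)
    refine h.trans ?_
    rw [add_comm]
    congr 1
    by_cases h : a = q <;> simp [h]

theorem sum_pred (L : List ℕ) (h : ∀ x ∈ L, 2 ≤ x) : (L.map (· - 1)).sum + L.length = L.sum := by
  induction L with
  | nil => simp
  | cons a t ih =>
    have h1 := ih (fun x hx => h x (List.mem_cons_of_mem _ hx))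
    have h2 := h a List.mem_cons_self
    simp only [List.map_cons, List.sum_cons, List.length_cons]
    omega

theorem count_pred (L : List ℕ) (h : ∀ x ∈ L, 2 ≤ x) (c : ℕ) :
    (L.map (· - 1)).count c = L.count (c + 1) := by
  induction L with
  | nil => simp
  | cons a t ih =>
    have h1 := ih (fun x hx => h x (List.mem_cons_of_mem _ hx))
    have h2 := h a List.mem_cons_self
    rw [List.map_cons, List.count_cons, List.count_cons, h1]
    congr 1
    by_cases h3 : a = c + 1
    · simp [h3]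
    · have : ¬ (a - 1 = c) := by omega
      simp [h3, this]

theorem card_eq {V : Type} [Fintype V] {G : SimpleGraph V} {s : ℕ} {v : Fin s → V}
    (h : IsSpine G v) : Fintype.card V = s + (offSpine v).card := by
  classical
  have h1 := sum_split h.inj (fun _ : V => 1)
  simp only [Finset.sum_const, smul_eq_mul, mul_one, Finset.card_univ, Fintype.card_fin] at h1
  exact h1

theorem deg_facts {V : Type} [Fintype V] {G : SimpleGraph V} {L : List ℕ}
    {v : Fin L.length → V} (h : IsSpine G v) (h0 : 0 < L.length)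
    (hd : ∀ i, deg G (v i) = L.get i) :
    (∀ x ∈ L, 2 ≤ x) ∧ (L.map (· - 1)).sum + 2 = Fintype.card V ∧
      G.edgeSet.ncard + 1 = Fintype.card V := by
  have h1 : ∀ x ∈ L, 2 ≤ x := by
    intro x hx
    obtain ⟨i, hi⟩ := List.mem_iff_get.1 hx
    rw [← hi, ← hd i]
    exact h.two i
  have h2 := sum_spine h
  rw [Finset.sum_congr rfl (fun i _ => hd i), sum_get] at h2
  have h3 := card_eq h
  have h4 := edges_eq h
  have h5 := sum_pred L h1
  exact ⟨h1, by omega, by omega⟩

theorem map_pred_succ (L : List ℕ) (h : ∀ x ∈ L, 2 ≤ x) : (L.map (· - 1)).map (· + 1) = L := by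
  rw [List.map_map]
  conv_rhs => rw [← List.map_id L]
  refine List.map_congr_left (fun x hx => ?_)
  have := h x hx
  simp only [Function.comp_apply, id]
  omega

theorem degSeqs_eq (n : ℕ) (hn : 3 ≤ n) :
    DegSeqs n = (fun l : List ℕ => l.map (· + 1)) '' (comps (n - 2) : Set (List ℕ)) := by
  ext L
  constructor
  · rintro ⟨V, _, G, v, h0, h, hc, hd⟩
    obtain ⟨h1, h2, _⟩ := deg_facts h h0 hd
    refine ⟨L.map (· - 1), ?_, map_pred_succ L h1⟩
    rw [Finset.mem_coe, mem_comps]
    refine ⟨?_, by omega⟩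
    intro x hx
    obtain ⟨y, hy, rfl⟩ := List.mem_map.1 hx
    have := h1 y hy
    omega
  · rintro ⟨l, hl, rfl⟩
    rw [Finset.mem_coe, mem_comps] at hl
    obtain ⟨hl1, hl2⟩ := hl
    set L : List ℕ := l.map (· + 1) with hL
    have hL2 : ∀ x ∈ L, 2 ≤ x := by
      intro x hx
      obtain ⟨y, hy, rfl⟩ := List.mem_map.1 hx
      have := hl1 y hy
      omega
    have h0 : 0 < L.length := by
      rw [hL, List.length_map]
      rcases l with _ | ⟨a, t⟩
      · simp at hl2; omega
      · simp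
    obtain ⟨V, hV, G, v, h, hd⟩ := exists_cat L.length (fun i => L.get i)
      (fun i => hL2 _ (List.get_mem L i))
    refine ⟨V, hV, G, v, h0, h, ?_, hd⟩
    have h2 := (deg_facts h h0 hd).2.1
    have h3 : L.map (· - 1) = l := by
      rw [hL, List.map_map]
      conv_rhs => rw [← List.map_id l]
      refine List.map_congr_left (fun x _ => ?_)
      simp
    rw [h3, hl2] at h2
    omega

theorem map_succ_inj : Function.Injective (fun l : List ℕ => l.map (· + 1)) :=
  List.map_injective_iff.2 (fun a b h => by simpa using h)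

theorem degSeqs_card (n : ℕ) (hn : 3 ≤ n) : (DegSeqs n).ncard = 2 ^ (n - 3) := by
  rw [degSeqs_eq n hn, Set.ncard_image_of_injective _ map_succ_inj, Set.ncard_coe_finset]
  have : n - 2 = (n - 3) + 1 := by omega
  rw [this, (card_comps _).1]

theorem nonSplit_subset (n a : ℕ) (ha : 1 ≤ a) (hn : Odd n) :
    NonSplitSeqs n ⊆ (fun l : List ℕ => l.map (· + 1)) '' {l | l ∈ comps (n - 2) ∧ BadL a l} := by
  classical
  rintro L ⟨V, _, G, v, h0, h, hc, hd, hns⟩
  obtain ⟨h1, h2, h3⟩ := deg_facts h h0 hd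
  refine ⟨L.map (· - 1), ⟨?_, ?_⟩, map_pred_succ L h1⟩
  · rw [mem_comps]
    refine ⟨?_, by omega⟩
    intro x hx
    obtain ⟨y, hy, rfl⟩ := List.mem_map.1 hx
    have := h1 y hy
    omega
  · by_contra hbad
    unfold BadL at hbad
    push Not at hbad
    obtain ⟨hb1, hb2⟩ := hbad
    apply hns
    have hcx : ∀ q, cx (fun i => deg G (v i)) univ q = L.count q := by
      intro q
      rw [← count_get]
      unfold cx
      exact Finset.sum_congr rfl (fun i _ => by
        show (if deg G (v i) = q then 1 else 0) = _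
        rw [hd i])
    have hcount : ∀ c, 1 ≤ c → c ≤ 2 * a + 1 →
        4 * a + 3 ≤ cx (fun i => deg G (v i)) univ (c + 1) := by
      intro c hc1 hc2
      rw [hcx, ← count_pred L h1]
      exact hb2 c hc1 hc2
    refine rich_split h h0 ?_ (p := 2 * a + 1) ⟨a, by ring⟩ (by omega) ?_ ?_ ?_ ?_ ?_
    · obtain ⟨k, hk⟩ := hn
      exact ⟨k, by omega⟩
    · intro i
      have h4 := hb1 (L.get i - 1) (List.mem_map.2 ⟨L.get i, List.get_mem L i, rfl⟩)
      have h5 := hd i
      omega
    · have := hcount (2 * a) (by omega) (by omega)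
      omega
    · intro e he he4 hle
      have := hcount (e - 1) (by omega) (by omega)
      have e1 : e - 1 + 1 = e := by omega
      rw [e1] at this
      omega
    · exact le_trans (show 1 ≤ 4 * a + 3 by omega) (hcount 1 (by omega) (by omega))
    · exact le_trans (show 1 ≤ 4 * a + 3 by omega) (hcount 2 (by omega) (by omega))

theorem almost_all : ∃ C : ℝ, ∀ n : ℕ, 3 ≤ n → Odd n →
    ((NonSplitSeqs n).ncard : ℝ) ≤ C * (n : ℝ) ^ (-(1 / 3 : ℝ)) * ((DegSeqs n).ncard : ℝ) := by
  classical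
  refine ⟨3 * 2 ^ 39, ?_⟩
  intro n hn hodd
  set N := n - 2 with hN
  set a := Nat.log 2 N / 3 with ha
  have hN0 : N ≠ 0 := by omega
  have hlog1 := Nat.pow_log_le_self 2 hN0
  have hlog2 := Nat.lt_pow_succ_log_self (b := 2) (by norm_num) N
  have h1 : 2 ^ (3 * a) ≤ N :=
    le_trans (Nat.pow_le_pow_right (by norm_num) (by omega)) hlog1
  have h2 : N < 2 ^ (3 * a + 3) :=
    lt_of_lt_of_le hlog2 (Nat.pow_le_pow_right (by norm_num) (by omega))
  have hcard : ((NonSplitSeqs n).ncard : ℝ) ≤ 2 ^ N * (2 ^ 38 * (1 / 2 : ℝ) ^ a) := by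
    rcases Nat.eq_zero_or_pos a with h0 | h0
    · have hsub : NonSplitSeqs n ⊆ DegSeqs n := by
        rintro L ⟨V, hV, G, v, q1, q2, q3, q4, _⟩
        exact ⟨V, hV, G, v, q1, q2, q3, q4⟩
      have hfin : (DegSeqs n).Finite := by
        rw [degSeqs_eq n hn]
        exact (Finset.finite_toSet _).image _
      have h3 := Set.ncard_le_ncard hsub hfin
      rw [degSeqs_card n hn] at h3
      have h4 : ((NonSplitSeqs n).ncard : ℝ) ≤ 2 ^ (n - 3) := by exact_mod_cast h3
      refine h4.trans ?_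
      rw [h0, pow_zero, mul_one]
      have h5 : (2 : ℝ) ^ (n - 3) ≤ 2 ^ N := pow_le_pow_right₀ (by norm_num) (by omega)
      have h6 : (0 : ℝ) < 2 ^ N := by positivity
      nlinarith
    · have hsub := nonSplit_subset n a h0 hodd
      have hfin : {l | l ∈ comps (n - 2) ∧ BadL a l}.Finite :=
        (Finset.finite_toSet (comps (n - 2))).subset (fun l hl => hl.1)
      have h3 := Set.ncard_le_ncard hsub (hfin.image _)
      rw [Set.ncard_image_of_injective _ map_succ_inj] at h3
      have h4 : {l | l ∈ comps (n - 2) ∧ BadL a l}.ncard =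
          ((comps N).filter (BadL a)).card := by
        rw [← Set.ncard_coe_finset]
        congr 1
        ext l
        simp [hN]
      rw [h4] at h3
      have h5 := bad_le a N h1 h2
      have h6 : ((NonSplitSeqs n).ncard : ℝ) ≤ (((comps N).filter (BadL a)).card : ℝ) := by
        exact_mod_cast h3
      exact h6.trans h5
  refine hcard.trans ?_
  rw [degSeqs_card n hn]
  have hpow : (2 : ℝ) ^ N = 2 * 2 ^ (n - 3) := by
    rw [← pow_succ']; congr 1; omega
  have hn0 : (0 : ℝ) < n := by exact_mod_cast (by omega : 0 < n)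
  -- (1/2)^a ≤ 3 n^(-1/3)
  have hroot : (1 / 2 : ℝ) ^ a ≤ 3 * (n : ℝ) ^ (-(1 / 3 : ℝ)) := by
    have h3 : (n : ℝ) ≤ (3 * 2 ^ a) ^ (3 : ℕ) := by
      have h4 : n ≤ 27 * 2 ^ (3 * a) := by
        have h5 : 2 ^ (3 * a + 3) = 8 * 2 ^ (3 * a) := by rw [pow_add]; ring
        rw [h5] at h2
        have h6 : 1 ≤ 2 ^ (3 * a) := Nat.one_le_two_pow
        omega
      have h5 : (27 : ℝ) * 2 ^ (3 * a) = (3 * 2 ^ a) ^ (3 : ℕ) := by
        rw [mul_pow, ← pow_mul, mul_comm a 3]; norm_num
      rw [← h5]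
      exact_mod_cast h4
    have h4 : (n : ℝ) ^ (1 / 3 : ℝ) ≤ 3 * 2 ^ a := by
      have h5 := Real.rpow_le_rpow hn0.le h3 (by norm_num : (0 : ℝ) ≤ 1 / 3)
      rw [← Real.rpow_natCast (3 * 2 ^ a) 3, ← Real.rpow_mul (by positivity)] at h5
      norm_num at h5
      exact h5
    rw [Real.rpow_neg hn0.le]
    have h6 : 0 < (n : ℝ) ^ (1 / 3 : ℝ) := Real.rpow_pos_of_pos hn0 _
    have h7 : (1 / 2 : ℝ) ^ a = 1 / 2 ^ a := by rw [one_div, one_div, inv_pow]
    rw [h7, ← div_eq_mul_inv, div_le_div_iff₀ (by positivity) h6]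
    linarith
  have hP : (0 : ℝ) < 2 ^ (n - 3) := by positivity
  rw [hpow]
  push_cast
  calc 2 * 2 ^ (n - 3) * (2 ^ 38 * (1 / 2 : ℝ) ^ a)
      ≤ 2 * 2 ^ (n - 3) * (2 ^ 38 * (3 * (n : ℝ) ^ (-(1 / 3 : ℝ)))) :=
        mul_le_mul_of_nonneg_left (mul_le_mul_of_nonneg_left hroot (by positivity)) (by positivity)
    _ = 3 * 2 ^ 39 * (n : ℝ) ^ (-(1 / 3 : ℝ)) * 2 ^ (n - 3) := by ring

theorem even_none {V : Type} [Fintype V] {G : SimpleGraph V} {s : ℕ} {v : Fin s → V}
    (hs : 0 < s) (h : IsSpine G v) (he : Even (Fintype.card V)) : ¬ Splittable G := by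
  intro hG
  obtain ⟨hev, _⟩ := necessary hs h hG
  have h1 := card_eq h
  have h2 := edges_eq h
  obtain ⟨a, ha⟩ := hev
  obtain ⟨b, hb⟩ := he
  omega

end Pool.Agent.W_e8e3a0
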