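import Pool.Agent.W_e8e3a0.GadgC49

/-! Assembly: arcs of the dual condition and copies of a gadget, all placed in even gaps. -/

namespace Pool.Agent.W_e8e3a0

open Finset Num49

variable {V : Type} [Fintype V]

theorem cx_cast {I : Type} (x : I → ℕ) (P : Finset I) (k : ℕ) :
    ((cx x P k : ℕ) : ℤ) = ∑ i ∈ P, (if x i = k then (1 : ℤ) else 0) := by
  unfold cx
  push_cast
  rfl

theorem phi_sum {s : ℕ} (φ : ℕ → ℤ) (h0 : φ 0 = 1) (h1 : φ 1 = 0) (x y : Fin s → ℕ)
    (hb : ∀ k, 2 ≤ k → cx x univ k = cx y univ k) :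
    ∑ i, (φ (x i) - φ (y i)) = (cx x univ 0 : ℤ) - (cx y univ 0 : ℤ) := by
  classical
  obtain ⟨N, hN1, hN2⟩ : ∃ N, (∀ i, x i < N + 2) ∧ (∀ i, y i < N + 2) := by
    refine ⟨∑ i, x i + ∑ i, y i, fun i => ?_, fun i => ?_⟩
    · have := Finset.single_le_sum (f := x) (fun _ _ => Nat.zero_le _) (Finset.mem_univ i)
      omega
    · have := Finset.single_le_sum (f := y) (fun _ _ => Nat.zero_le _) (Finset.mem_univ i)
      omega
  have key : ∀ z : Fin s → ℕ, (∀ i, z i < N + 2) →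
      ∑ i, φ (z i) = ∑ k ∈ range (N + 2), φ k * (cx z univ k : ℤ) := by
    intro z hz
    have e1 : ∀ k, φ k * (cx z univ k : ℤ) = ∑ i, (if z i = k then φ k else 0) := by
      intro k
      rw [cx_cast, Finset.mul_sum]
      refine Finset.sum_congr rfl (fun i _ => ?_)
      split_ifs <;> ring
    rw [Finset.sum_congr rfl (fun k _ => e1 k), Finset.sum_comm]
    refine Finset.sum_congr rfl (fun i _ => ?_)
    rw [Finset.sum_eq_single (z i)]
    · rw [if_pos rfl]
    · intro k _ hk; exact if_neg (Ne.symm hk)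
    · intro hn; exact absurd (Finset.mem_range.2 (hz i)) hn
  rw [Finset.sum_sub_distrib, key x hN1, key y hN2, ← Finset.sum_sub_distrib,
    Finset.sum_range_succ', Finset.sum_range_succ']
  rw [Finset.sum_eq_zero (fun k _ => by
    rw [hb (k + 1 + 1) (by omega), sub_self])]
  rw [h0]
  show 0 + (φ (0 + 1) * _ - φ (0 + 1) * _) + _ = _
  rw [show (0 + 1 : ℕ) = 1 from rfl, h1]
  ring

theorem assemble {G : SimpleGraph V} {s : ℕ} {v : Fin s → V} (h : IsSpine G v)
    (hev : Even G.edgeSet.ncard) (hno3 : ∀ i, deg G (v i) ≠ 3)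
    (A : Finset (ℕ × ℕ)) (mA : ℕ) (hAc : A.card ≤ mA) (hA1 : ∀ a ∈ A, a.2 ≤ a.1)
    (hA2 : ∀ e, e ≠ 2 → ∑ a ∈ A, (if a.1 = e then (1 : ZMod 2) else 0) =
      ∑ i, (if deg G (v i) = e then (1 : ZMod 2) else 0))
    (hA3 : ∀ k, 2 ≤ k → ∑ a ∈ A, ((if a.2 = k then (1 : ZMod 2) else 0) +
        (if a.1 - a.2 = k then (1 : ZMod 2) else 0)) = 0)
    (hA22 : ∀ a ∈ A, ∀ b ∈ A, a.1 = 2 → b.1 = 2 → a = b)
    (S : Finset ℕ) (hS : ∀ e ∈ S, 4 ≤ e) (J n k2 : ℕ) (c p q : ℕ → ℕ)
    (hG : J ≠ 0 → IsGadget S n c p q k2)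
    (hJ : mA + 2 ≤ J ∨ (J = 0 ∧ ∃ φ : ℕ → ℤ, φ 0 = 1 ∧ φ 1 = 0 ∧ φ 2 = -1 ∧
      ∀ i, 4 ≤ deg G (v i) → ∀ k, k ≤ deg G (v i) → φ (deg G (v i) - k) = φ k))
    (f : (ℕ × ℕ) ⊕ (ℕ × ℕ × ℕ) → Fin s)
    (hfA : ∀ a ∈ A, (a.1 = 2 → ∃ ab, CandZ (fun i => deg G (v i)) (f (Sum.inl a)) ab) ∧
      (a.1 ≠ 2 → deg G (v (f (Sum.inl a))) = a.1 ∧
        ∃ ab, Cand (fun i => deg G (v i)) ∅ (f (Sum.inl a)) ab))
    (hfG : ∀ g ∈ GI J n k2,
      (g.1 = 2 → ∃ ab, CandZ (fun i => deg G (v i)) (f (Sum.inr g)) ab) ∧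
      (g.1 ≠ 2 → deg G (v (f (Sum.inr g))) = c g.2.2 ∧
        ∃ ab, Cand (fun i => deg G (v i)) ∅ (f (Sum.inr g)) ab))
    (hfar : ∀ i ∈ A.image Sum.inl ∪ (GI J n k2).image Sum.inr,
      ∀ j ∈ A.image Sum.inl ∪ (GI J n k2).image Sum.inr, i ≠ j →
      nu (fun i => deg G (v i)) (f i) + 2 ≤ nu (fun i => deg G (v i)) (f j) ∨
        nu (fun i => deg G (v i)) (f j) + 2 ≤ nu (fun i => deg G (v i)) (f i)) :
    Splittable G := by
  classical
  set d : Fin s → ℕ := fun i => deg G (v i) with hd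
  have h2d : ∀ i, 2 ≤ d i := h.two
  have mI : ∀ a ∈ A, Sum.inl a ∈ (A.image Sum.inl ∪ (GI J n k2).image Sum.inr :
      Finset ((ℕ × ℕ) ⊕ (ℕ × ℕ × ℕ))) := fun a ha =>
    Finset.mem_union_left _ (Finset.mem_image_of_mem _ ha)
  have mG : ∀ g ∈ GI J n k2, Sum.inr g ∈ (A.image Sum.inl ∪ (GI J n k2).image Sum.inr :
      Finset ((ℕ × ℕ) ⊕ (ℕ × ℕ × ℕ))) := fun g hg =>
    Finset.mem_union_right _ (Finset.mem_image_of_mem _ hg)
  have hinj : ∀ i ∈ A.image Sum.inl ∪ (GI J n k2).image Sum.inr,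
      ∀ j ∈ A.image Sum.inl ∪ (GI J n k2).image Sum.inr, f i = f j → i = j := by
    intro i hi j hj hij
    by_contra hne
    have := hfar i hi j hj hne
    rw [hij] at this
    omega
  set p' : ℕ × ℕ → Fin s := fun a => f (Sum.inl a) with hp'
  have hp1 : ∀ a ∈ A, d (p' a) = a.1 := by
    intro a ha
    by_cases ha2 : a.1 = 2
    · obtain ⟨ab, hab⟩ := (hfA a ha).1 ha2
      rw [ha2]; exact (candZ_nu d hab).2.2.1
    · exact ((hfA a ha).2 ha2).1
  have hp2 : ∀ a ∈ A, ∀ b ∈ A, a ≠ b → (p' a : ℕ) + 1 < p' b ∨ (p' b : ℕ) + 1 < p' a := by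
    intro a ha b hb hab
    rcases hfar _ (mI a ha) _ (mI b hb) (fun hh => hab (Sum.inl.inj hh)) with h1 | h1
    · obtain ⟨k, k1, k2', _⟩ := nu_between d h1
      have k1' : (p' a : ℕ) < k := k1
      have k2'' : (k : ℕ) < p' b := k2'
      omega
    · obtain ⟨k, k1, k2', _⟩ := nu_between d h1
      have k1' : (p' b : ℕ) < k := k1
      have k2'' : (k : ℕ) < p' a := k2'
      omega
  obtain ⟨_, a, b, hab, hpar, hn, haA⟩ := mixed_parts2 d h2d A hA1 hA2 hA3 p' hp1 hp2
  set fG : ℕ × ℕ × ℕ → Fin s := fun g => f (Sum.inr g) with hfGd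
  have hfGinj : ∀ g ∈ GI J n k2, ∀ g' ∈ GI J n k2, fG g = fG g' → g = g' := fun g hg g' hg' hh =>
    Sum.inr.inj (hinj _ (mG g hg) _ (mG g' hg') hh)
  have hdG : ∀ g ∈ GI J n k2, d (fG g) = gdeg c g := by
    intro g hg
    unfold gdeg
    by_cases hg2 : g.1 = 2
    · obtain ⟨ab, hab⟩ := (hfG g hg).1 hg2
      rw [if_pos hg2]; exact (candZ_nu d hab).2.2.1
    · rw [if_neg hg2]; exact ((hfG g hg).2 hg2).1
  set W := (GI J n k2).image fG with hW
  set PA := A.image p' with hPA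
  have hWA : ∀ i ∈ W, i ∉ PA := by
    intro i hi hi2
    obtain ⟨g, hg, rfl⟩ := Finset.mem_image.1 hi
    obtain ⟨a', ha', hh⟩ := Finset.mem_image.1 hi2
    have := hinj _ (mI a' ha') _ (mG g hg) hh
    exact absurd this (by simp)
  set U := univ \ W with hU
  have hsum : ∀ (z : Fin s → ℕ) k, ((cx z univ k : ℕ) : ℤ) = (cx z U k : ℕ) +
      ∑ g ∈ GI J n k2, (if z (fG g) = k then (1 : ℤ) else 0) := by
    intro z k
    rw [cx_cast, cx_cast, ← Finset.sum_sdiff (Finset.subset_univ W), hW,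
      Finset.sum_image (fun g hg g' hg' hh => hfGinj g hg g' hg' hh)]
  have hparU : ∀ k, 2 ≤ k → (cx a U k + cx b U k) % 2 = 0 := by
    intro k hk
    have h1 := hpar k hk
    have e1 := hsum a k
    have e2 := hsum b k
    have e3 : ∑ g ∈ GI J n k2, (if a (fG g) = k then (1 : ℤ) else 0) +
        ∑ g ∈ GI J n k2, (if b (fG g) = k then (1 : ℤ) else 0) =
        2 * ∑ l ∈ range J, ∑ t ∈ range n, ((if 2 = k then (1 : ℤ) else 0) +
          (if c t - 2 = k then (1 : ℤ) else 0)) := by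
      rw [← Finset.sum_add_distrib, Finset.sum_congr rfl (g := fun g : ℕ × ℕ × ℕ =>
        if g.1 = 2 then (0 : ℤ) else ((if 2 = k then (1 : ℤ) else 0) +
          (if c g.2.2 - 2 = k then (1 : ℤ) else 0))), sum_GI, Finset.mul_sum]
      · refine Finset.sum_congr rfl (fun l _ => ?_)
        simp only [if_true, show (1 : ℕ) ≠ 2 from by omega, show (0 : ℕ) ≠ 2 from by omega,
          if_false, Finset.sum_const_zero]
        ring
      · intro g hg
        have hgW : fG g ∈ W := Finset.mem_image_of_mem _ hg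
        have h5 := hn (fG g) (hWA _ hgW)
        have h6 := hdG g hg
        unfold gdeg at h6
        by_cases hg2 : g.1 = 2
        · rw [if_pos hg2] at h6
          rw [(h5.1 h6).1, (h5.1 h6).2, if_neg (by omega), if_pos hg2]
          ring
        · rw [if_neg hg2] at h6
          have hJ0 : J ≠ 0 := by have := (mem_GI hg).1; omega
          have h7 := hS _ ((hG hJ0).1 g.2.2 ((mem_GI hg).2.1 hg2).2).1
          have h8 := h5.2.2 (by rw [h6]; exact h7)
          rw [h8.1, h8.2, h6, if_neg hg2]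
    omega
  obtain ⟨x0, y0, hsw, hb⟩ := orient U.card U a b rfl hparU
  have hxy0 : ∀ i, x0 i + y0 i = d i := by
    intro i
    have h1 := hab i
    rcases hsw i with ⟨h2, h3⟩ | ⟨h2, h3⟩ <;> omega
  have hbig0 : ∀ i, i ∉ PA → d i ≠ 2 → 2 ≤ x0 i ∧ 2 ≤ y0 i := by
    intro i hi hi2
    have h0 := h2d i
    have hne3 : d i ≠ 3 := hno3 i
    have h1 := (hn i hi).2.2 (by omega)
    rcases hsw i with ⟨h2, h3⟩ | ⟨h2, h3⟩ <;> omega
  have htwo0 : ∀ i, i ∉ PA → d i = 2 → x0 i = 1 ∧ y0 i = 1 := by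
    intro i hi hi2
    have h1 := (hn i hi).1 hi2
    rcases hsw i with ⟨h2, h3⟩ | ⟨h2, h3⟩ <;> omega
  have hone0 : ∀ i, i ∉ PA → 1 ≤ x0 i ∧ 1 ≤ y0 i := by
    intro i hi
    by_cases hi2 : d i = 2
    · have := htwo0 i hi hi2
      omega
    · have := hbig0 i hi hi2
      omega
  -- the full assignments
  have full : ∀ w, w ≤ 1 → ∀ j, j ≤ J → ∃ x y : Fin s → ℕ, (∀ i, x i + y i = d i) ∧
      (∀ g ∈ GI J n k2, x (fG g) = gx c p q w j g ∧ y (fG g) = gdeg c g - gx c p q w j g) ∧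
      (∀ i, i ∉ W → x i = x0 i ∧ y i = y0 i) ∧
      (∀ k, ((cx x univ k : ℕ) : ℤ) = (cx x0 U k : ℕ) +
        ∑ g ∈ GI J n k2, (if gx c p q w j g = k then (1 : ℤ) else 0)) ∧
      (∀ k, ((cx y univ k : ℕ) : ℤ) = (cx y0 U k : ℕ) +
        ∑ g ∈ GI J n k2, (if gdeg c g - gx c p q w j g = k then (1 : ℤ) else 0)) ∧
      (∀ k, 2 ≤ k → cx x univ k = cx y univ k) := by
    intro w hw j hj
    set x : Fin s → ℕ := fun i => if hh : ∃ g ∈ GI J n k2, fG g = i then
      gx c p q w j (Classical.choose hh) else x0 i with hx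
    have hxG : ∀ g ∈ GI J n k2, x (fG g) = gx c p q w j g := by
      intro g hg
      have hh : ∃ g' ∈ GI J n k2, fG g' = fG g := ⟨g, hg, rfl⟩
      rw [hx]
      dsimp only
      rw [dif_pos hh]
      have h1 := Classical.choose_spec hh
      rw [hfGinj _ h1.1 g hg h1.2]
    have hxU : ∀ i, i ∉ W → x i = x0 i := by
      intro i hi
      rw [hx]
      dsimp only
      rw [dif_neg]
      rintro ⟨g, hg, rfl⟩
      exact hi (Finset.mem_image_of_mem _ hg)
    have hxle : ∀ i, x i ≤ d i := by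
      intro i
      by_cases hi : i ∈ W
      · obtain ⟨g, hg, rfl⟩ := Finset.mem_image.1 hi
        rw [hxG g hg, hdG g hg]
        exact gx_le J j w hG hS g hg
      · rw [hxU i hi]
        have := hxy0 i
        omega
    have hyU : ∀ i, i ∉ W → d i - x i = y0 i := by
      intro i hi
      rw [hxU i hi]
      have := hxy0 i
      omega
    have k1 : ∀ k, ((cx x univ k : ℕ) : ℤ) = (cx x0 U k : ℕ) +
        ∑ g ∈ GI J n k2, (if gx c p q w j g = k then (1 : ℤ) else 0) := by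
      intro k
      rw [hsum x k, cx_congr (x' := x0) (fun i hi => hxU i (Finset.mem_sdiff.1 hi).2) k]
      congr 1
      exact Finset.sum_congr rfl (fun g hg => by rw [hxG g hg])
    have k2' : ∀ k, ((cx (fun i => d i - x i) univ k : ℕ) : ℤ) = (cx y0 U k : ℕ) +
        ∑ g ∈ GI J n k2, (if gdeg c g - gx c p q w j g = k then (1 : ℤ) else 0) := by
      intro k
      rw [hsum (fun i => d i - x i) k, cx_congr (x' := y0)
        (fun i hi => hyU i (Finset.mem_sdiff.1 hi).2) k]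
      congr 1
      exact Finset.sum_congr rfl (fun g hg => by rw [hxG g hg, hdG g hg])
    refine ⟨x, fun i => d i - x i, fun i => Nat.add_sub_cancel' (hxle i), fun g hg =>
      ⟨hxG g hg, by show d (fG g) - x (fG g) = _; rw [hxG g hg, hdG g hg]⟩,
      fun i hi => ⟨hxU i hi, hyU i hi⟩, k1, k2', fun k hk => ?_⟩
    have e1 := k1 k
    have e2 := k2' k
    have e3 := gx_balanced J j w hw hG hS k hk
    have e4 := hb k hk
    omega
  -- the base value
  set ZA := PA.filter (fun i => d i = 2) with hZA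
  have hZAc : ZA.card ≤ 1 := by
    rw [Finset.card_le_one]
    intro i hi j hj
    obtain ⟨h1, h2⟩ := Finset.mem_filter.1 hi
    obtain ⟨h3, h4⟩ := Finset.mem_filter.1 hj
    obtain ⟨a1, ha1, rfl⟩ := Finset.mem_image.1 h1
    obtain ⟨a2, ha2, rfl⟩ := Finset.mem_image.1 h3
    rw [hp1 a1 ha1] at h2
    rw [hp1 a2 ha2] at h4
    rw [hA22 a1 ha1 a2 ha2 h2 h4]
  have hcard : ∀ (z : Fin s → ℕ) (P : Finset (Fin s)), cx z P 0 ≤ P.card := by
    intro z P
    unfold cx
    rw [← Finset.card_filter]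
    exact Finset.card_filter_le _ _
  have hzle : ∀ z : Fin s → ℕ, (∀ i, i ∉ PA → 1 ≤ z i) → cx z U 0 ≤ mA := by
    intro z hz
    refine le_trans ?_ ((Finset.card_image_le (s := A) (f := p')).trans hAc)
    unfold cx
    rw [← Finset.card_filter]
    refine Finset.card_le_card (fun i hi => ?_)
    obtain ⟨h1, h2⟩ := Finset.mem_filter.1 hi
    by_contra hno
    have := hz i hno
    omega
  have z1 := hzle x0 (fun i h1 => (hone0 i h1).1)
  have z2 := hzle y0 (fun i h1 => (hone0 i h1).2)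
  have z3 := hcard x0 ZA
  have z4 := hcard y0 ZA
  have hpz : (s - 1 + cx x0 U 0 + cx y0 U 0) % 2 = 0 := by
    obtain ⟨x, y, k1, _, _, k4, k5, k6⟩ := full 0 (by omega) 0 (Nat.zero_le _)
    have e3 := sum_diff k6
    have e4 := zero_diff k6
    have e5 : ∑ i, x i + ∑ i, y i = 2 * (s - 1) + (offSpine v).card := by
      rw [← Finset.sum_add_distrib, ← sum_spine h]
      exact Finset.sum_congr rfl (fun i _ => k1 i)
    have e1 := edges_eq h
    obtain ⟨m, hm⟩ := hev
    have e6 := k4 0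
    have e7 := k5 0
    rw [Finset.sum_eq_zero (fun g hg => if_neg (by
      have := (gx_default J 0 hG hS g hg).1
      omega)), add_zero] at e6
    rw [Finset.sum_eq_zero (fun g hg => if_neg (by
      have := (gx_default J 0 hG hS g hg).2
      omega)), add_zero] at e7
    omega
  obtain ⟨w, hw, j, hj, hT0⟩ : ∃ w : ℕ, w ≤ 1 ∧ ∃ j : ℕ, j ≤ J ∧
      (((s - 1 : ℕ) : ℤ) % 2) + (cx x0 U 0 : ℕ) - (cx y0 U 0 : ℕ) -
      2 * ((cx x0 ZA 0 : ℕ) - (cx y0 ZA 0 : ℕ)) + (1 - 2 * (w : ℤ)) * (2 * j) = 0 := by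
    rcases hJ with hJ | ⟨hJ, φ, f0, f1, f2, f3⟩
    · obtain ⟨T, hTd⟩ : ∃ T : ℤ, (((s - 1 : ℕ) : ℤ) % 2) + (cx x0 U 0 : ℕ) - (cx y0 U 0 : ℕ) -
          2 * ((cx x0 ZA 0 : ℕ) - (cx y0 ZA 0 : ℕ)) = 2 * T :=
        ⟨((((s - 1 : ℕ) : ℤ) % 2) + (cx x0 U 0 : ℕ) - (cx y0 U 0 : ℕ) -
          2 * ((cx x0 ZA 0 : ℕ) - (cx y0 ZA 0 : ℕ))) / 2, by omega⟩
      rw [hTd]
      rcases le_total T 0 with h1 | h1
      · refine ⟨0, by omega, (-T).toNat, by omega, ?_⟩
        rw [Int.toNat_of_nonneg (by omega)]; push_cast; ring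
      · refine ⟨1, by omega, T.toNat, by omega, ?_⟩
        rw [Int.toNat_of_nonneg (by omega)]; push_cast; ring
    · refine ⟨0, by omega, 0, Nat.zero_le _, ?_⟩
      have hW0 : W = ∅ := by
        rw [hW, Finset.image_eq_empty]
        unfold GI
        rw [hJ]
        simp
      have hU0 : U = univ := by rw [hU, hW0, Finset.sdiff_empty]
      rw [hU0] at hb hpz ⊢
      have e1 := phi_sum φ f0 f1 x0 y0 hb
      have e2 : ∑ i, (φ (x0 i) - φ (y0 i)) = 2 * ((cx x0 ZA 0 : ℕ) - (cx y0 ZA 0 : ℕ)) := by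
        rw [cx_cast, cx_cast, ← Finset.sum_sub_distrib, Finset.mul_sum, hZA, Finset.sum_filter,
          ← Finset.sum_subset (Finset.subset_univ PA)]
        · refine Finset.sum_congr rfl (fun i _ => ?_)
          have h1 := hxy0 i
          by_cases hi2 : d i = 2
          · rw [if_pos hi2]
            rw [hi2] at h1
            have h3 : (x0 i = 0 ∧ y0 i = 2) ∨ (x0 i = 1 ∧ y0 i = 1) ∨ (x0 i = 2 ∧ y0 i = 0) := by
              omega
            rcases h3 with ⟨h3, h4⟩ | ⟨h3, h4⟩ | ⟨h3, h4⟩ <;> rw [h3, h4]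
            · rw [f0, f2]; simp
            · simp
            · rw [f0, f2]; simp
          · rw [if_neg hi2]
            have h4 : 4 ≤ deg G (v i) := by
              have a1 := h2d i
              have a2 := hno3 i
              have a3 : d i = deg G (v i) := rfl
              omega
            have h5 := f3 i h4 (x0 i) (by
              have a3 : d i = deg G (v i) := rfl
              omega)
            have h6 : deg G (v i) - x0 i = y0 i := by
              have a3 : d i = deg G (v i) := rfl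
              omega
            rw [h6] at h5
            rw [h5, sub_self]
        · intro i _ hi
          by_cases hi2 : d i = 2
          · rw [(htwo0 i hi hi2).1, (htwo0 i hi hi2).2, sub_self]
          · have h1 := hxy0 i
            have h4 : 4 ≤ deg G (v i) := by
              have a1 := h2d i
              have a2 := hno3 i
              have a3 : d i = deg G (v i) := rfl
              omega
            have h5 := f3 i h4 (x0 i) (by
              have a3 : d i = deg G (v i) := rfl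
              omega)
            have h6 : deg G (v i) - x0 i = y0 i := by
              have a3 : d i = deg G (v i) := rfl
              omega
            rw [h6] at h5
            rw [h5, sub_self]
      rw [e2] at e1
      push_cast
      omega
  obtain ⟨x, y, k1, k2', k3, k4, k5, k6⟩ := full w hw j hj
  -- positions
  set Im := PA ∪ W with hIm
  have hIdx : ∀ i ∈ Im, ∃ u ∈ A.image Sum.inl ∪ (GI J n k2).image Sum.inr, f u = i := by
    intro i hi
    rcases Finset.mem_union.1 hi with h1 | h1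
    · obtain ⟨a', ha', rfl⟩ := Finset.mem_image.1 h1
      exact ⟨_, mI a' ha', rfl⟩
    · obtain ⟨g, hg, rfl⟩ := Finset.mem_image.1 h1
      exact ⟨_, mG g hg, rfl⟩
  have hex : ∀ i, i ∈ Im → ∃ ab, (d i = 2 → CandZ d i ab) ∧ (d i ≠ 2 → Cand d ∅ i ab) := by
    intro i hi
    rcases Finset.mem_union.1 hi with h1 | h1
    · obtain ⟨a', ha', rfl⟩ := Finset.mem_image.1 h1
      have h2 := hp1 a' ha'
      by_cases ha2 : a'.1 = 2
      · obtain ⟨ab, h3⟩ := (hfA a' ha').1 ha2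
        exact ⟨ab, fun _ => h3, fun hh => absurd (h2.trans ha2) hh⟩
      · obtain ⟨_, ab, h3⟩ := (hfA a' ha').2 ha2
        exact ⟨ab, fun hh => absurd (h2.symm.trans hh) ha2, fun _ => h3⟩
    · obtain ⟨g, hg, rfl⟩ := Finset.mem_image.1 h1
      by_cases hg2 : g.1 = 2
      · obtain ⟨ab, h3⟩ := (hfG g hg).1 hg2
        exact ⟨ab, fun _ => h3, fun hh => absurd (candZ_nu d h3).2.2.1 hh⟩
      · obtain ⟨h4, ab, h3⟩ := (hfG g hg).2 hg2
        refine ⟨ab, fun hh => ?_, fun _ => h3⟩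
        exfalso
        have := h3.1.2.2.1
        have hh' : d (fG g) = 2 := hh
        have h5 : 3 ≤ d (fG g) := this
        omega
  have hne : Nonempty (Fin s × Fin s) := ⟨(f (Sum.inl (0, 0)), f (Sum.inl (0, 0)))⟩
  choose! ab hab' using hex
  have hgen : ∀ i ∈ Im, (ab i).1 < i ∧ i < (ab i).2 ∧ 3 ≤ d (ab i).1 ∧ 3 ≤ d (ab i).2 ∧
      (∀ k, (ab i).1 < k → k < i → d k = 2) ∧ (∀ k, i < k → k < (ab i).2 → d k = 2) := by
    intro i hi
    obtain ⟨h1, h2⟩ := hab' i hi
    by_cases hi2 : d i = 2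
    · have h3 := h1 hi2
      obtain ⟨e1, e2, e3, e4⟩ := candZ_nu d h3
      obtain ⟨⟨g1, g2, g3, g4⟩, _, _⟩ := h3
      exact ⟨e1, e2, g2, g3, fun k hk1 hk2 => g4 k hk1 (hk2.trans e2),
        fun k hk1 hk2 => g4 k (e1.trans hk1) hk2⟩
    · obtain ⟨⟨g1, g2, g3, g4⟩, ⟨g1', g2', g3', g4'⟩, _⟩ := h2 hi2
      exact ⟨g1, g1', g2, g3', g4, g4'⟩
  have hord : ∀ i ∈ Im, ∀ j ∈ Im, nu d i + 2 ≤ nu d j → (ab i).2 ≤ (ab j).1 := by
    intro i hi j hj hn2
    obtain ⟨k, k1', k2'', k3'⟩ := nu_between d hn2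
    have g2 := (hgen i hi).2.2.2.2.2
    have g1 := (hgen j hj).2.2.2.2.1
    have e1 : (ab i).2 ≤ k := by
      by_contra hh
      have := g2 k k1' (not_le.1 hh)
      omega
    have e2 : k ≤ (ab j).1 := by
      by_contra hh
      have := g1 k (not_le.1 hh) k2''
      omega
    exact e1.trans e2
  have hRZ : Im.filter (fun i => ¬ d i = 2) ∪ Im.filter (fun i => d i = 2) = Im := by
    rw [Finset.union_comm]
    exact Finset.filter_union_filter_not_eq _ _
  refine zone_split h x y k1 (Im.filter (fun i => ¬ d i = 2)) (Im.filter (fun i => d i = 2))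
    ?_ ?_ ?_ k6 (fun i => (ab i).1) (fun i => (ab i).2) ?_ ?_ ?_ ?_ ?_
  · intro i hi
    have a1 := h2d i
    have a2 : d i ≠ 3 := hno3 i
    have a3 := (Finset.mem_filter.1 hi).2
    have a4 : d i = deg G (v i) := rfl
    omega
  · intro i hi
    exact (Finset.mem_filter.1 hi).2
  · intro i h1 h2
    have hi : i ∉ Im := by
      intro hh
      by_cases hi2 : d i = 2
      · exact h2 (Finset.mem_filter.2 ⟨hh, hi2⟩)
      · exact h1 (Finset.mem_filter.2 ⟨hh, hi2⟩)
    rw [hIm, Finset.mem_union, not_or] at hi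
    rw [(k3 i hi.2).1, (k3 i hi.2).2]
    exact ⟨fun h3 => htwo0 i hi.1 h3, fun h3 => hbig0 i hi.1 h3⟩
  · intro i hi
    rw [hRZ] at hi
    exact hgen i hi
  · intro i hi
    obtain ⟨h1, h2⟩ := Finset.mem_filter.1 hi
    obtain ⟨_, _, g3, g4, _⟩ := (hab' i h1).2 h2
    exact ⟨g3, g4⟩
  · intro i hi
    obtain ⟨h1, h2⟩ := Finset.mem_filter.1 hi
    have h3 := (hab' i h1).1 h2
    obtain ⟨e1, e2, _, _⟩ := candZ_nu d h3
    obtain ⟨_, g3, g4⟩ := h3
    have e1' : ((ab i).1 : ℕ) < i := e1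
    have e2' : (i : ℕ) < (ab i).2 := e2
    exact ⟨g4, by omega⟩
  · intro i hi j' hj' hij
    rw [hRZ] at hi hj'
    obtain ⟨u, hu, rfl⟩ := hIdx i hi
    obtain ⟨u', hu', rfl⟩ := hIdx j' hj'
    rcases hfar u hu u' hu' (fun hh => hij (by rw [hh])) with h1 | h1
    · exact Or.inl (hord _ hi _ hj' h1)
    · exact Or.inr (hord _ hj' _ hi h1)
  · have hZ : Im.filter (fun i => d i = 2) = ZA ∪ (ZI J k2).image fG := by
      ext i
      constructor
      · intro hi
        obtain ⟨h1, h2⟩ := Finset.mem_filter.1 hi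
        rcases Finset.mem_union.1 h1 with h1 | h1
        · exact Finset.mem_union_left _ (Finset.mem_filter.2 ⟨h1, h2⟩)
        · refine Finset.mem_union_right _ ?_
          obtain ⟨g, hg, rfl⟩ := Finset.mem_image.1 h1
          refine Finset.mem_image_of_mem _ ((mem_GI hg).2.2 ?_)
          by_contra hg2
          have h3 := ((hfG g hg).2 hg2).2
          obtain ⟨ab', h4⟩ := h3
          have h5 : 3 ≤ d (fG g) := h4.1.2.2.1
          omega
      · intro hi
        rcases Finset.mem_union.1 hi with h1 | h1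
        · obtain ⟨h1, h2⟩ := Finset.mem_filter.1 h1
          exact Finset.mem_filter.2 ⟨Finset.mem_union_left _ h1, h2⟩
        · obtain ⟨g, hg, rfl⟩ := Finset.mem_image.1 h1
          have h3 := mem_ZI hg n
          refine Finset.mem_filter.2 ⟨Finset.mem_union_right _ (Finset.mem_image_of_mem _ h3.2), ?_⟩
          rw [hdG g h3.2]
          unfold gdeg
          rw [if_pos h3.1]
    have hdis : Disjoint ZA ((ZI J k2).image fG) := by
      rw [Finset.disjoint_left]
      intro i h1 h2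
      obtain ⟨g, hg, rfl⟩ := Finset.mem_image.1 h2
      exact hWA _ (Finset.mem_image_of_mem _ (mem_ZI hg n).2) (Finset.mem_filter.1 h1).1
    have hsplitZ : ∀ z : Fin s → ℕ, ((cx z (Im.filter (fun i => d i = 2)) 0 : ℕ) : ℤ) =
        (cx z ZA 0 : ℕ) + ∑ g ∈ ZI J k2, (if z (fG g) = 0 then (1 : ℤ) else 0) := by
      intro z
      rw [cx_cast, cx_cast, hZ, Finset.sum_union hdis, Finset.sum_image
        (fun g hg g' hg' hh => hfGinj g (mem_ZI hg n).2 g' (mem_ZI hg' n).2 hh)]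
    have hZAW : ∀ i ∈ ZA, i ∉ W := fun i hi hh => hWA i hh (Finset.mem_filter.1 hi).1
    have t1 : ∑ g ∈ ZI J k2, (if x (fG g) = 0 then (1 : ℤ) else 0) =
        ∑ g ∈ ZI J k2, (if gx c p q w j g = 0 then (1 : ℤ) else 0) :=
      Finset.sum_congr rfl (fun g hg => by rw [(k2' g (mem_ZI hg n).2).1])
    have t2 : ∑ g ∈ ZI J k2, (if y (fG g) = 0 then (1 : ℤ) else 0) =
        ∑ g ∈ ZI J k2, (if gdeg c g - gx c p q w j g = 0 then (1 : ℤ) else 0) :=
      Finset.sum_congr rfl (fun g hg => by rw [(k2' g (mem_ZI hg n).2).2])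
    have t3 : cx x ZA 0 = cx x0 ZA 0 := cx_congr (fun i hi => (k3 i (hZAW i hi)).1) 0
    have t4 : cx y ZA 0 = cx y0 ZA 0 := cx_congr (fun i hi => (k3 i (hZAW i hi)).2) 0
    rw [hsplitZ x, hsplitZ y, t1, t2, t3, t4, k4 0, k5 0]
    have e1 := gx_zeros J j w hj hw hG hS
    linarith

end Pool.Agent.W_e8e3a0
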