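import Pool.Agent.W_e8e3a0.RichG49
import Pool.Agent.W_e8e3a0.Almost49

namespace Pool.Agent.W_e8e3a0

open Finset Num49

/-- bad compositions, sharper form -/
def BadG (a : ℕ) (l : List ℕ) : Prop :=
  (∃ c, 1 ≤ c ∧ c ≤ 2 * a + 1 ∧ l.count c < 4 * a + 7) ∨
  (∃ l₁ x l₂, l = l₁ ++ x :: l₂ ∧ 4 * a + 1 ≤ x ∧ ∃ y ∈ l₂, 4 * a + 1 ≤ y) ∨
  (∃ k, 1 ≤ k ∧ 2 * k ∈ l ∧ (k ∉ l ∨ k + 1 ∉ l))

theorem two_idx (L : List ℕ) (m : ℕ) (i j : Fin L.length) (hij : i < j)
    (hi : m + 1 ≤ L.get i) (hj : m + 1 ≤ L.get j) :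
    ∃ l₁ x l₂, L.map (· - 1) = l₁ ++ x :: l₂ ∧ m ≤ x ∧ ∃ y ∈ l₂, m ≤ y := by
  have h1 : L = L.take i ++ L[i.1] :: L.drop (i.1 + 1) := by
    rw [List.getElem_cons_drop, List.take_append_drop]
  have h2 : L.get j ∈ L.drop (i.1 + 1) := by
    rw [List.mem_iff_getElem]
    have hij' : i.1 < j.1 := hij
    have hjl := j.2
    refine ⟨j.1 - (i.1 + 1), by rw [List.length_drop]; omega, ?_⟩
    rw [List.getElem_drop]
    have : i.1 + 1 + (j.1 - (i.1 + 1)) = j.1 := by omega
    simp [this]
  refine ⟨(L.take i).map (· - 1), L.get i - 1, (L.drop (i.1 + 1)).map (· - 1), ?_, by omega,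
    L.get j - 1, List.mem_map.2 ⟨_, h2, rfl⟩, by omega⟩
  conv_lhs => rw [h1]
  rw [List.map_append, List.map_cons]
  rfl

theorem nonSplit_subset_g (n a : ℕ) (ha : 1 ≤ a) (hn : Odd n) :
    NonSplitSeqs n ⊆ (fun l : List ℕ => l.map (· + 1)) '' {l | l ∈ comps (n - 2) ∧ BadG a l} := by
  classical
  rintro L ⟨V, _, G, v, h0, h, hc, hd, hns⟩
  obtain ⟨h1, h2, h3⟩ := deg_facts h h0 hd
  refine ⟨L.map (· - 1), ⟨?_, ?_⟩, map_pred_succ L h1⟩
  · rw [mem_comps]
    refine ⟨?_, by omega⟩
    intro x hx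
    obtain ⟨y, hy, rfl⟩ := List.mem_map.1 hx
    have := h1 y hy
    omega
  · by_contra hbad
    unfold BadG at hbad
    rw [not_or, not_or] at hbad
    obtain ⟨hb1, hb2, hb3⟩ := hbad
    have hb1' : ∀ c, 1 ≤ c → c ≤ 2 * a + 1 → 4 * a + 7 ≤ (L.map (· - 1)).count c := by
      intro c hc1 hc2
      by_contra hlt
      exact hb1 ⟨c, hc1, hc2, by omega⟩
    have hb3' : ∀ k, 1 ≤ k → 2 * k ∈ L.map (· - 1) →
        k ∈ L.map (· - 1) ∧ k + 1 ∈ L.map (· - 1) := by
      intro k hk h2k
      by_contra hlt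
      exact hb3 ⟨k, hk, h2k, by tauto⟩
    apply hns
    have hcx : ∀ q, cx (fun i => deg G (v i)) univ q = L.count q := by
      intro q
      rw [← count_get]
      unfold cx
      exact Finset.sum_congr rfl (fun i _ => by
        show (if deg G (v i) = q then 1 else 0) = _
        rw [hd i])
    have hcount : ∀ c, 1 ≤ c → c ≤ 2 * a + 1 →
        4 * a + 7 ≤ cx (fun i => deg G (v i)) univ (c + 1) := by
      intro c hc1 hc2
      rw [hcx, ← count_pred L h1]
      exact hb1' c hc1 hc2
    have hev : Even G.edgeSet.ncard := by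
      obtain ⟨k, hk⟩ := hn
      exact ⟨k, by omega⟩
    have hcp : 4 * a + 7 ≤ cx (fun i => deg G (v i)) univ (2 * a + 1) := by
      have := hcount (2 * a) (by omega) (by omega)
      exact this
    have hce : ∀ e, Even e → 4 ≤ e → e ≤ 2 * a + 1 + 1 →
        4 * a + 7 ≤ cx (fun i => deg G (v i)) univ e := by
      intro e he he4 hle
      have := hcount (e - 1) (by omega) (by omega)
      have e1 : e - 1 + 1 = e := by omega
      rwa [e1] at this
    have hc2 : 4 * a + 7 ≤ cx (fun i => deg G (v i)) univ 2 := hcount 1 (by omega) (by omega)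
    have hc3 : 4 * a + 7 ≤ cx (fun i => deg G (v i)) univ 3 := hcount 2 (by omega) (by omega)
    by_cases hbig : ∃ i : Fin L.length, 4 * a + 2 ≤ L.get i
    · obtain ⟨X, hX⟩ := hbig
      have hothers : ∀ i, i ≠ X → L.get i ≤ 4 * a + 1 := by
        intro i hi
        by_contra hgt
        rcases lt_or_gt_of_ne hi with hlt | hlt
        · exact hb2 (two_idx L (4 * a + 1) i X hlt (by omega) (by omega))
        · exact hb2 (two_idx L (4 * a + 1) X i hlt (by omega) (by omega))
      refine rich_split_big h h0 hev (p := 2 * a + 1) ⟨a, by ring⟩ (by omega) X ?_ ?_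
        (le_trans (by omega) hcp) (fun e h4 h5 h6 => le_trans (by omega) (hce e h4 h5 h6))
        (le_trans (by omega) hc2) (le_trans (by omega) hc3)
      · rcases Nat.even_or_odd (deg G (v X)) with hev' | hodd
        · exact Or.inl hev'
        · refine Or.inr ?_
          obtain ⟨k, hk⟩ := hodd
          have hdX : deg G (v X) = L.get X := hd X
          have hk3 : 3 ≤ k := by omega
          have hmem : 2 * k ∈ L.map (· - 1) :=
            List.mem_map.2 ⟨L.get X, List.get_mem L X, by show L.get X - 1 = 2 * k; omega⟩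
          obtain ⟨m1, m2⟩ := hb3' k (by omega) hmem
          obtain ⟨y1, hy1, ey1⟩ := List.mem_map.1 m1
          obtain ⟨y2, hy2, ey2⟩ := List.mem_map.1 m2
          obtain ⟨b, hb⟩ := List.mem_iff_get.1 hy1
          obtain ⟨e, he⟩ := List.mem_iff_get.1 hy2
          have hy1' := h1 y1 hy1
          have hy2' := h1 y2 hy2
          have ey1' : y1 - 1 = k := ey1
          have ey2' : y2 - 1 = k + 1 := ey2
          have hdb : deg G (v b) = k + 1 := by rw [hd b, hb]; omega
          have hde : deg G (v e) = k + 2 := by rw [hd e, he]; omega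
          refine ⟨b, e, ?_, ?_, ?_, ?_, ?_, ?_, ?_⟩
          · rintro rfl; omega
          · rintro rfl; omega
          · rintro rfl; omega
          · omega
          · omega
          · omega
          · omega
      · intro i hi
        have h4 := hothers i hi
        have h5 := hd i
        omega
    · push Not at hbig
      refine rich_split h h0 hev (p := 2 * a + 1) ⟨a, by ring⟩ (by omega) ?_
        (le_trans (by omega) hcp) (fun e h4 h5 h6 => le_trans (by omega) (hce e h4 h5 h6))
        (le_trans (by omega) hc2) (le_trans (by omega) hc3)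
      intro i
      have h4 := hbig i
      have h5 := hd i
      omega

end Pool.Agent.W_e8e3a0
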