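import Pool.Agent.W_e8e3a0.Graph49

namespace Pool.Agent.W_e8e3a0

open Finset Num49

/-- colouring of the spine edges, alternating outward from `w` -/
def col (w : ℕ) (i : ℕ) : Prop := (w ≤ i ∧ (i + w) % 2 = 0) ∨ (i < w ∧ (i + w) % 2 = 1)

instance (w : ℕ) : DecidablePred (col w) := fun i => by unfold col; infer_instance

theorem col_count (w : ℕ) : ∀ n, ∑ i ∈ range n, (if col w i then 1 else 0) =
    if n ≤ w then (n + w % 2) / 2 else (w + w % 2) / 2 + (n - w + 1) / 2 := by
  intro n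
  induction n with
  | zero =>
    simp only [Finset.range_zero, Finset.sum_empty, Nat.zero_le, if_true]
    omega
  | succ n ih =>
    rw [Finset.sum_range_succ, ih]
    by_cases h1 : n + 1 ≤ w
    · rw [if_pos (by omega : n ≤ w), if_pos h1]
      by_cases h2 : (n + w) % 2 = 1
      · rw [if_pos (show col w n from Or.inr ⟨by omega, h2⟩)]; omega
      · rw [if_neg (show ¬ col w n by unfold col; omega)]; omega
    · rw [if_neg h1]
      by_cases h2 : (n + w) % 2 = 0
      · rw [if_pos (show col w n from Or.inl ⟨by omega, h2⟩)]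
        by_cases h3 : n ≤ w
        · rw [if_pos h3]; omega
        · rw [if_neg h3]; omega
      · rw [if_neg (show ¬ col w n by unfold col; omega)]
        by_cases h3 : n ≤ w
        · rw [if_pos h3]; omega
        · rw [if_neg h3]; omega

theorem sum_diff {s : ℕ} {x y : Fin s → ℕ} (hbal : ∀ k, 2 ≤ k → cx x univ k = cx y univ k) :
    ∑ i, x i + cx y univ 1 = ∑ i, y i + cx x univ 1 := by
  have key : ∀ z : Fin s → ℕ, ∑ i, z i = ∑ i, (if 2 ≤ z i then z i else 0) + cx z univ 1 := by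
    intro z
    unfold cx
    rw [← Finset.sum_add_distrib]
    refine Finset.sum_congr rfl (fun i _ => ?_)
    by_cases h : 2 ≤ z i
    · rw [if_pos h, if_neg (by omega)]; rfl
    · rw [if_neg h]
      by_cases h1 : z i = 1
      · rw [if_pos h1]; omega
      · rw [if_neg h1]; omega
  obtain ⟨N, hN⟩ : ∃ N, ∀ i ∈ (univ : Finset (Fin s)), x i < N ∧ y i < N :=
    ⟨∑ i, (x i + y i) + 1, fun i hi => by
      have := Finset.single_le_sum (f := fun i => x i + y i) (fun _ _ => Nat.zero_le _) hi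
      omega⟩
  have hx := sum_cx (fun k => if 2 ≤ k then k else 0) x univ N (fun i hi => (hN i hi).1)
  have hy := sum_cx (fun k => if 2 ≤ k then k else 0) y univ N (fun i hi => (hN i hi).2)
  have hxy : ∑ k ∈ range N, (if 2 ≤ k then k else 0) * cx x univ k =
      ∑ k ∈ range N, (if 2 ≤ k then k else 0) * cx y univ k := by
    refine Finset.sum_congr rfl (fun k _ => ?_)
    by_cases h : 2 ≤ k
    · rw [hbal k h]
    · rw [if_neg h, zero_mul, zero_mul]
  have h1 := key x
  have h2 := key y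
  omega

variable {V : Type} [Fintype V]

theorem map_eq_of_cx {f g : V → ℕ} [DecidableEq V]
    (h : ∀ k, 1 ≤ k → cx f univ k = cx g univ k) :
    Multiset.map f Finset.univ.val = Multiset.map g Finset.univ.val := by
  ext k
  have h1 := sum_eq_of_cx h (fun t => if t = k then 1 else 0)
  rw [Multiset.count_map, Multiset.count_map]
  have h2 : ∀ f : V → ℕ, (Multiset.filter (fun a => k = f a) univ.val).card =
      ∑ i, if f i = k then 1 else 0 := by
    intro f
    have : (Multiset.filter (fun a => k = f a) univ.val).card =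
      (Finset.univ.filter (fun a => k = f a)).card := rfl
    rw [this, Finset.card_filter]
    exact Finset.sum_congr rfl (fun i _ => if_congr eq_comm rfl rfl)
  rw [h2, h2]
  exact h1

open Classical in
/-- adjacency as a number -/
noncomputable def adjN (G : SimpleGraph V) (a b : V) : ℕ := if G.Adj a b then 1 else 0

theorem adjN_eq (G : SimpleGraph V) (a b : V) (P : Prop) [Decidable P] (h : G.Adj a b ↔ P) :
    adjN G a b = if P then 1 else 0 := by
  unfold adjN
  by_cases hP : P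
  · rw [if_pos hP, if_pos (h.2 hP)]
  · rw [if_neg hP, if_neg (fun h' => hP (h.1 h'))]

theorem adjN_symm (G : SimpleGraph V) (a b : V) : adjN G a b = adjN G b a := by
  classical
  rw [adjN_eq G a b (G.Adj b a) ⟨fun h => h.symm, fun h => h.symm⟩,
    adjN_eq G b a (G.Adj b a) Iff.rfl]

theorem deg_eq_adjN (G : SimpleGraph V) (u : V) : deg G u = ∑ w, adjN G u w := deg_eq_sum G u

theorem sum_ite_le_one {s : ℕ} (P : Fin s → Prop) [DecidablePred P]
    (h : ∀ a b, P a → P b → a = b) : (∑ j : Fin s, if P j then 1 else 0) ≤ 1 := by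
  have h1 : (∑ j : Fin s, if P j then 1 else 0) = (Finset.univ.filter P).card := by
    rw [Finset.card_filter]
  rw [h1, Finset.card_le_one]
  intro a ha b hb
  exact h a b (Finset.mem_filter.1 ha).2 (Finset.mem_filter.1 hb).2

theorem construct {G : SimpleGraph V} {s : ℕ} {v : Fin s → V} (h : IsSpine G v)
    (x y : Fin s → ℕ) (hxy : ∀ i, x i + y i = deg G (v i)) (w : Fin s)
    (hw : y w = 0 ∨ ((w : ℕ) = 0 ∧ 1 ≤ x w)) (hpos : ∀ i, i ≠ w → 1 ≤ x i ∧ 1 ≤ y i)
    (hbal : ∀ k, 2 ≤ k → cx x univ k = cx y univ k)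
    (hE : cx x univ 1 + (s - 1) = cx y univ 1 +
      2 * ∑ i ∈ range (s - 1), (if col w i then 1 else 0)) : Splittable G := by
  classical
  let r₁ : Fin s → ℕ := fun i =>
    ∑ j : Fin s, if ((i : ℕ) + 1 = j ∧ col w i) ∨ ((j : ℕ) + 1 = i ∧ col w j) then 1 else 0
  let r₂ : Fin s → ℕ := fun i =>
    ∑ j : Fin s, if ((i : ℕ) + 1 = j ∧ ¬ col w i) ∨ ((j : ℕ) + 1 = i ∧ ¬ col w j) then 1 else 0
  have hr₁ : ∑ i, r₁ i = 2 * ∑ i ∈ range (s - 1), (if col w i then 1 else 0) := sum_path s (col w)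
  let L : Fin s → Finset V := fun i => (offSpine v).filter (fun u => G.Adj (v i) u)
  have hdeg : ∀ i, deg G (v i) = r₁ i + r₂ i + (L i).card := by
    intro i
    rw [deg_eq_sum, sum_split h.inj]
    congr 1
    · show _ = ∑ j : Fin s, _ + ∑ j : Fin s, _
      rw [← Finset.sum_add_distrib]
      refine Finset.sum_congr rfl (fun j _ => ?_)
      rw [if_congr (h.path i j) rfl rfl]
      by_cases a : (i : ℕ) + 1 = j <;> by_cases b : (j : ℕ) + 1 = i <;>
        by_cases c : col w i <;> by_cases c' : col w j <;> simp [a, b, c, c'] <;> omega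
    · rw [Finset.card_filter]
  -- bounds
  have hb1 : ∀ i, i ≠ w → r₁ i ≤ 1 := by
    intro i hi
    have hi' : (i : ℕ) ≠ w := fun e => hi (Fin.ext e)
    refine sum_ite_le_one _ ?_
    intro a b ha hb
    simp only [col] at ha hb
    apply Fin.ext
    omega
  have hb2 : ∀ i, i ≠ w → r₂ i ≤ 1 := by
    intro i hi
    have hi' : (i : ℕ) ≠ w := fun e => hi (Fin.ext e)
    refine sum_ite_le_one _ ?_
    intro a b ha hb
    simp only [col] at ha hb
    apply Fin.ext
    omega
  have hb3 : r₂ w = 0 := by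
    show (∑ j : Fin s, if ((w : ℕ) + 1 = j ∧ ¬ col w w) ∨ ((j : ℕ) + 1 = w ∧ ¬ col w j)
      then 1 else 0) = 0
    refine Finset.sum_eq_zero (fun j _ => if_neg ?_)
    simp only [col]
    omega
  have hb4 : (w : ℕ) = 0 → r₁ w ≤ 1 := by
    intro h0
    refine sum_ite_le_one _ ?_
    intro a b ha hb
    simp only [col] at ha hb
    apply Fin.ext
    omega
  have hrx : ∀ i, r₁ i ≤ x i ∧ r₂ i ≤ y i := by
    intro i
    by_cases hi : i = w
    · subst hi
      rw [hb3]
      refine ⟨?_, Nat.zero_le _⟩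
      rcases hw with hw | ⟨hw1, hw2⟩
      · have h1 := hdeg i
        have h2 := hxy i
        omega
      · exact le_trans (hb4 hw1) hw2
    · have h1 := hb1 i hi
      have h2 := hb2 i hi
      have h3 := hpos i hi
      omega
  -- the leaves of the first half
  have hT : ∀ i, ∃ T ⊆ L i, T.card = x i - r₁ i := by
    intro i
    refine Finset.exists_subset_card_eq ?_
    have h1 := hdeg i
    have h2 := hxy i
    have h3 := hrx i
    omega
  choose T hTL hTc using hT
  have hTmem : ∀ i u, u ∈ T i → u ∈ offSpine v ∧ G.Adj (v i) u := fun i u hu =>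
    Finset.mem_filter.1 (hTL i hu)
  let Tu : Finset V := Finset.univ.biUnion T
  have hTu : ∀ u, u ∈ Tu ↔ ∃ i, u ∈ T i := fun u => by simp [Tu]
  have hvT : ∀ i, v i ∉ Tu := by
    intro i hi
    obtain ⟨j, hj⟩ := (hTu _).1 hi
    exact mem_offSpine.1 (hTmem j _ hj).1 i rfl
  let R : V → V → Prop := fun a b => (a ∈ Tu ∨ b ∈ Tu) ∨ ∃ i j : Fin s, a = v i ∧ b = v j ∧
    (((i : ℕ) + 1 = j ∧ col w i) ∨ ((j : ℕ) + 1 = i ∧ col w j))
  have hRs : ∀ a b, R a b → R b a := by
    intro a b hab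
    rcases hab with (h1 | h1) | ⟨i, j, h1, h2, h3⟩
    · exact Or.inl (Or.inr h1)
    · exact Or.inl (Or.inl h1)
    · exact Or.inr ⟨j, i, h2, h1, h3.symm⟩
  let G₁ : SimpleGraph V :=
    { Adj := fun a b => G.Adj a b ∧ R a b
      symm := ⟨fun a b hab => ⟨hab.1.symm, hRs a b hab.2⟩⟩
      loopless := ⟨fun a ha => G.loopless.irrefl a ha.1⟩ }
  let G₂ : SimpleGraph V :=
    { Adj := fun a b => G.Adj a b ∧ ¬ R a b
      symm := ⟨fun a b hab => ⟨hab.1.symm, fun hR => hab.2 (hRs b a hR)⟩⟩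
      loopless := ⟨fun a ha => G.loopless.irrefl a ha.1⟩ }
  have hsup : G₁ ⊔ G₂ = G := by
    ext a b
    rw [SimpleGraph.sup_adj]
    show (G.Adj a b ∧ R a b) ∨ (G.Adj a b ∧ ¬ R a b) ↔ G.Adj a b
    constructor
    · rintro (h1 | h1)
      · exact h1.1
      · exact h1.1
    · intro h1
      by_cases hR : R a b
      · exact Or.inl ⟨h1, hR⟩
      · exact Or.inr ⟨h1, hR⟩
  have hinf : G₁ ⊓ G₂ = ⊥ := by
    ext a b
    rw [SimpleGraph.inf_adj, SimpleGraph.bot_adj]
    show (G.Adj a b ∧ R a b) ∧ (G.Adj a b ∧ ¬ R a b) ↔ False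
    constructor
    · rintro ⟨⟨_, h1⟩, ⟨_, h2⟩⟩
      exact h2 h1
    · exact False.elim
  have hadd := deg_add hsup hinf
  have hA1 : ∀ i j, G₁.Adj (v i) (v j) ↔
      (((i : ℕ) + 1 = j ∧ col w i) ∨ ((j : ℕ) + 1 = i ∧ col w j)) := by
    intro i j
    show G.Adj (v i) (v j) ∧ R (v i) (v j) ↔ _
    rw [h.path]
    constructor
    · rintro ⟨h1, (h2 | h2) | ⟨i', j', h2, h3, h4⟩⟩
      · exact absurd h2 (hvT i)
      · exact absurd h2 (hvT j)
      · rw [h.inj h2, h.inj h3]; exact h4
    · intro h1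
      refine ⟨?_, Or.inr ⟨i, j, rfl, rfl, h1⟩⟩
      rcases h1 with h1 | h1
      · exact Or.inl h1.1
      · exact Or.inr h1.1
  have hA2 : ∀ i, ∀ u ∈ offSpine v, (G₁.Adj (v i) u ↔ u ∈ T i) := by
    intro i u hu
    show G.Adj (v i) u ∧ R (v i) u ↔ _
    constructor
    · rintro ⟨h1, (h2 | h2) | ⟨i', j', h2, h3, h4⟩⟩
      · exact absurd h2 (hvT i)
      · obtain ⟨j, hj⟩ := (hTu u).1 h2
        obtain ⟨t, ht⟩ := h.leaf u (mem_offSpine.1 hu)
        have e1 := (ht (v i)).1 h1.symm
        have e2 := (ht (v j)).1 (hTmem j u hj).2.symm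
        have e3 : i = j := h.inj (e1.trans e2.symm)
        rw [e3]; exact hj
      · exact absurd h3 (mem_offSpine.1 hu j')
    · intro h1
      exact ⟨(hTmem i u h1).2, Or.inl (Or.inr ((hTu u).2 ⟨i, h1⟩))⟩
  have hsT : ∀ i, ∑ u ∈ offSpine v, adjN G₁ (v i) u = (T i).card := by
    intro i
    have h1 : ∑ u ∈ offSpine v, adjN G₁ (v i) u = ∑ u ∈ offSpine v, if u ∈ T i then 1 else 0 :=
      Finset.sum_congr rfl (fun u hu => adjN_eq G₁ (v i) u (u ∈ T i) (hA2 i u hu))
    rw [h1, ← Finset.card_filter]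
    congr 1
    ext u
    rw [Finset.mem_filter]
    exact ⟨fun h2 => h2.2, fun h2 => ⟨(hTmem i u h2).1, h2⟩⟩
  have hd1 : ∀ i, deg G₁ (v i) = x i := by
    intro i
    rw [deg_eq_adjN, sum_split h.inj, hsT i, hTc i]
    have h1 : ∑ j, adjN G₁ (v i) (v j) = r₁ i :=
      Finset.sum_congr rfl (fun j _ => adjN_eq G₁ (v i) (v j) _ (hA1 i j))
    rw [h1]
    have := (hrx i).1
    omega
  have hd2 : ∀ i, deg G₂ (v i) = y i := by
    intro i
    have h1 := hadd (v i)
    have h2 := hxy i
    rw [hd1 i] at h1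
    omega
  have hleaf : ∀ u ∈ offSpine v, deg G₁ u + deg G₂ u = 1 := fun u hu => by
    rw [← hadd, deg_leaf h hu]
  -- number of leaves in the first half
  have hL1 : ∑ u ∈ offSpine v, deg G₁ u = ∑ i, (x i - r₁ i) := by
    have h1 : ∀ u ∈ offSpine v, deg G₁ u = ∑ i, adjN G₁ (v i) u := by
      intro u hu
      rw [deg_eq_adjN, sum_split h.inj]
      have h2 : ∑ t ∈ offSpine v, adjN G₁ u t = 0 := by
        refine Finset.sum_eq_zero (fun t ht => ?_)
        rw [adjN_eq G₁ u t False, if_neg (fun h' => h')]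
        constructor
        · intro h3
          obtain ⟨i, hi⟩ := h.leaf u (mem_offSpine.1 hu)
          exact mem_offSpine.1 ht i ((hi t).1 h3.1)
        · exact False.elim
      rw [h2, add_zero]
      exact Finset.sum_congr rfl (fun i _ => adjN_symm G₁ u (v i))
    rw [Finset.sum_congr rfl h1, Finset.sum_comm]
    refine Finset.sum_congr rfl (fun i _ => ?_)
    rw [hsT i, hTc i]
  have hL2 : ∑ i, (x i - r₁ i) + ∑ i, r₁ i = ∑ i, x i := by
    rw [← Finset.sum_add_distrib]
    refine Finset.sum_congr rfl (fun i _ => ?_)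
    have := (hrx i).1
    omega
  have hsp := sum_spine h
  have hsd := sum_diff hbal
  have hxysum : ∑ i, deg G (v i) = ∑ i, x i + ∑ i, y i := by
    rw [← Finset.sum_add_distrib]
    exact Finset.sum_congr rfl (fun i _ => (hxy i).symm)
  have hll : ∑ u ∈ offSpine v, deg G₁ u + ∑ u ∈ offSpine v, deg G₂ u = (offSpine v).card := by
    rw [← Finset.sum_add_distrib, Finset.card_eq_sum_ones]
    exact Finset.sum_congr rfl hleaf
  refine ⟨G₁, G₂, hsup, hinf, map_eq_of_cx ?_⟩
  intro k hk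
  unfold cx
  rw [sum_split h.inj, sum_split h.inj]
  simp only [hd1, hd2]
  rcases Nat.lt_or_ge k 2 with hk2 | hk2
  · have : k = 1 := by omega
    subst this
    have e1 : ∑ u ∈ offSpine v, (if deg G₁ u = 1 then 1 else 0) =
        ∑ u ∈ offSpine v, deg G₁ u := by
      refine Finset.sum_congr rfl (fun u hu => ?_)
      have := hleaf u hu
      by_cases a : deg G₁ u = 1
      · rw [if_pos a, a]
      · rw [if_neg a]; omega
    have e2 : ∑ u ∈ offSpine v, (if deg G₂ u = 1 then 1 else 0) =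
        ∑ u ∈ offSpine v, deg G₂ u := by
      refine Finset.sum_congr rfl (fun u hu => ?_)
      have := hleaf u hu
      by_cases a : deg G₂ u = 1
      · rw [if_pos a, a]
      · rw [if_neg a]; omega
    rw [e1, e2]
    have c1 : cx x univ 1 = ∑ i, if x i = 1 then 1 else 0 := rfl
    have c2 : cx y univ 1 = ∑ i, if y i = 1 then 1 else 0 := rfl
    rw [← c1, ← c2]
    omega
  · have e1 : ∑ u ∈ offSpine v, (if deg G₁ u = k then 1 else 0) = 0 :=
      Finset.sum_eq_zero (fun u hu => if_neg (by have := hleaf u hu; omega))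
    have e2 : ∑ u ∈ offSpine v, (if deg G₂ u = k then 1 else 0) = 0 :=
      Finset.sum_eq_zero (fun u hu => if_neg (by have := hleaf u hu; omega))
    rw [e1, e2, add_zero, add_zero]
    exact hbal k hk2

end Pool.Agent.W_e8e3a0
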