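import Pool.Agent.W_e8e3a0.Num49

namespace Pool.Agent.W_e8e3a0.Num49

open Finset

variable {I : Type} [DecidableEq I]

/-- the doubled values of a closed walk: `V 0 = c`, `V (n+1) + V n = 2 f n` -/
def V (f : ℕ → ℤ) (c : ℤ) : ℕ → ℤ
  | 0 => c
  | (n + 1) => 2 * f n - V f c n

/-- alternating sum -/
def S (f : ℕ → ℤ) (n : ℕ) : ℤ := ∑ i ∈ range n, (-1) ^ i * f i

theorem V_eq (f : ℕ → ℤ) (c : ℤ) (n : ℕ) : V f c n = (-1) ^ n * (c - 2 * S f n) := by
  induction n with
  | zero => simp [V, S]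
  | succ n ih =>
    have hs : S f (n + 1) = S f n + (-1) ^ n * f n := by
      unfold S; rw [Finset.sum_range_succ]
    have h1 : ((-1 : ℤ)) ^ n * (-1) ^ n = 1 := by
      rw [← mul_pow]; norm_num
    show 2 * f n - V f c n = _
    rw [ih, hs, pow_succ]
    linear_combination (-2 * f n) * h1

theorem V_close (f : ℕ → ℤ) (m : ℕ) : V f (S f (2 * m + 1)) (2 * m + 1) = S f (2 * m + 1) := by
  rw [V_eq, pow_succ, pow_mul]
  norm_num
  ring

theorem S_par (f : ℕ → ℤ) (n : ℕ) : (S f n - ∑ i ∈ range n, f i) % 2 = 0 := by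
  induction n with
  | zero => simp [S]
  | succ n ih =>
    have hs : S f (n + 1) = S f n + (-1) ^ n * f n := by
      unfold S; rw [Finset.sum_range_succ]
    rw [hs, Finset.sum_range_succ]
    rcases Nat.even_or_odd n with h | h
    · rw [h.neg_one_pow]; omega
    · rw [h.neg_one_pow]; omega

theorem V_par (f : ℕ → ℤ) (c : ℤ) (h : c % 2 = 0) (n : ℕ) : V f c n % 2 = 0 := by
  induction n with
  | zero => exact h
  | succ n ih => show (2 * f n - V f c n) % 2 = 0; omega

theorem S_bounds (f : ℕ → ℤ) (m : ℕ) (hm : ∀ i, i < 2 * m → f i ≤ f (i + 1)) :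
    f 0 ≤ S f (2 * m + 1) ∧ (1 ≤ m → S f (2 * m + 1) ≤ f 0 - f 1 + f (2 * m)) := by
  induction m with
  | zero => simp [S]
  | succ m ih =>
    have hs : S f (2 * (m + 1) + 1) = S f (2 * m + 1) - f (2 * m + 1) + f (2 * m + 2) := by
      have e : 2 * (m + 1) + 1 = 2 * m + 1 + 1 + 1 := by ring
      unfold S
      rw [e, Finset.sum_range_succ, Finset.sum_range_succ]
      have h1 : ((-1 : ℤ)) ^ (2 * m + 1) = -1 := by rw [pow_succ, pow_mul]; norm_num
      have h2 : ((-1 : ℤ)) ^ (2 * m + 1 + 1) = 1 := by rw [pow_succ, h1]; norm_num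
      rw [h1, h2]; ring
    have ih := ih (fun i hi => hm i (by omega))
    have m1 := hm (2 * m + 1) (by omega)
    have m0 := hm (2 * m) (by omega)
    have e2 : 2 * (m + 1) = 2 * m + 2 := by ring
    rw [hs, e2]
    refine ⟨by have := ih.1; linarith, fun _ => ?_⟩
    rcases Nat.eq_zero_or_pos m with h0 | h0
    · subst h0
      have hS : S f (2 * 0 + 1) = f 0 := by simp [S]
      rw [hS]
    · have := ih.2 h0
      linarith

/-- positivity of all values -/
theorem V_pos (f : ℕ → ℤ) (m : ℕ) (hm : ∀ i, i < 2 * m → f i ≤ f (i + 1))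
    (h0 : 1 ≤ f 0) (hc : 1 ≤ m → f (2 * m) < f 0 + f 1) :
    ∀ n, n ≤ 2 * m + 1 → 1 ≤ V f (S f (2 * m + 1)) n := by
  have hb := S_bounds f m hm
  set c := S f (2 * m + 1) with hcdef
  have c2 : c ≤ 2 * f 0 - 1 := by
    rcases Nat.eq_zero_or_pos m with h | h
    · subst h
      have hS : S f (2 * 0 + 1) = f 0 := by simp [S]
      rw [hcdef, hS]; linarith
    · have := hb.2 h
      have := hc h
      linarith
  have v1 : V f c 1 = 2 * f 0 - c := rfl
  have key : ∀ n, n ≤ 2 * m → V f c 1 ≤ V f c n ∧ V f c 1 ≤ V f c (n + 1) := by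
    intro n
    induction n with
    | zero =>
      intro _
      refine ⟨?_, le_rfl⟩
      show V f c 1 ≤ c
      rw [v1]; have := hb.1; linarith
    | succ n ih =>
      intro hn
      have ih := ih (by omega)
      refine ⟨ih.2, ?_⟩
      have e1 : V f c (n + 1 + 1) = 2 * f (n + 1) - V f c (n + 1) := rfl
      have e2 : V f c (n + 1) = 2 * f n - V f c n := rfl
      have := hm n (by omega)
      rw [e1, e2]
      linarith [ih.1]
  intro n hn
  have hv1 : 1 ≤ V f c 1 := by rw [v1]; linarith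
  rcases Nat.eq_zero_or_pos n with h | h
  · subst h; exact le_trans hv1 (key 0 (by omega)).1
  · obtain ⟨k, rfl⟩ : ∃ k, n = k + 1 := ⟨n - 1, by omega⟩
    exact le_trans hv1 (key k (by omega)).2

/-- sorted enumeration of a finset -/
theorem exists_enum (d : I → ℕ) (P : Finset I) :
    ∃ e : Fin P.card ≃ P, ∀ i j : Fin P.card, i ≤ j → d (e i) ≤ d (e j) := by
  let e₀ : Fin P.card ≃ P := P.equivFin.symm
  let f : Fin P.card → ℕ := fun i => d (e₀ i)
  refine ⟨(Tuple.sort f).trans e₀, ?_⟩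
  intro i j hij
  exact Tuple.monotone_sort f hij

end Pool.Agent.W_e8e3a0.Num49
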