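import Pool.Agent.W_e8e3a0.DualN49

/-! Classes of spine edges joined by rigid vertices, and placement of special vertices. -/

namespace Pool.Agent.W_e8e3a0

open Finset

section rep

variable (r : ℕ → Prop) [DecidablePred r]

/-- first edge of the class of the edge `t`; the vertex `i` lies between the edges `i - 1`, `i` -/
def rep : ℕ → ℕ
  | 0 => 0
  | (t + 1) => if r (t + 1) then rep t else t + 1

theorem rep_le (t : ℕ) : rep r t ≤ t := by
  induction t with
  | zero => exact le_rfl
  | succ t ih =>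
    rw [rep]
    split_ifs
    · omega
    · exact le_rfl

theorem rep_not {i : ℕ} (h : ¬ r i) : rep r i = i := by
  cases i with
  | zero => rfl
  | succ t => rw [rep, if_neg h]

theorem rep_rigid {i : ℕ} (h : r i) (hi : 1 ≤ i) : rep r i = rep r (i - 1) := by
  obtain ⟨t, rfl⟩ : ∃ t, i = t + 1 := ⟨i - 1, by omega⟩
  rw [rep, if_pos h]
  rfl

theorem le_rep {i : ℕ} (h : ¬ r i) {t : ℕ} (ht : i ≤ t) : i ≤ rep r t := by
  induction t with
  | zero =>
    have : i = 0 := by omega
    rw [this]; exact Nat.zero_le _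
  | succ t ih =>
    rcases Nat.lt_or_ge t i with h1 | h1
    · have : i = t + 1 := by omega
      rw [← this, rep_not r h]
    · rw [rep]
      split_ifs
      · exact ih h1
      · omega

/-- sign -/
def sgn (t : ℕ) : ℤ := if t % 2 = 0 then 1 else -1

theorem sum_sgn (n : ℕ) : ∑ t ∈ range n, sgn t = if n % 2 = 0 then 0 else 1 := by
  induction n with
  | zero => simp
  | succ n ih =>
    rw [Finset.sum_range_succ, ih]
    unfold sgn
    split_ifs <;> omega

/-- sum of the signs over a class -/
def cs (n u : ℕ) : ℤ := ∑ t ∈ (range n).filter (fun t => rep r t = u), sgn t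

theorem cs_succ (n u : ℕ) : cs r (n + 1) u = cs r n u + if rep r n = u then sgn n else 0 := by
  unfold cs
  rw [Finset.range_add_one, Finset.filter_insert]
  split_ifs with h
  · rw [Finset.sum_insert (by simp), add_comm]
  · rw [add_zero]

theorem cs_open (n : ℕ) : cs r n (rep r n) = if (n - rep r n) % 2 = 0 then 0 else
    sgn (rep r n) := by
  induction n with
  | zero =>
    rw [show rep r 0 = 0 from rfl]
    simp [cs]
  | succ n ih =>
    by_cases h : r (n + 1)
    · have e : rep r (n + 1) = rep r n := by rw [rep, if_pos h]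
      rw [e, cs_succ, ih, if_pos rfl]
      have h1 := rep_le r n
      unfold sgn
      split_ifs <;> omega
    · have e : rep r (n + 1) = n + 1 := rep_not r h
      rw [e]
      unfold cs
      rw [Finset.sum_eq_zero, if_pos (by omega)]
      intro t ht
      obtain ⟨h1, h2⟩ := Finset.mem_filter.1 ht
      have h3 := rep_le r t
      rw [Finset.mem_range] at h1
      omega

theorem cs_cases (n u : ℕ) : cs r n u = 0 ∨ cs r n u = sgn u := by
  induction n with
  | zero => left; simp [cs]
  | succ n ih =>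
    rw [cs_succ]
    by_cases h : rep r n = u
    · rw [if_pos h]
      have h1 := cs_open r n
      rw [h] at h1
      have h2 := rep_le r n
      rw [h1]
      unfold sgn
      split_ifs <;> omega
    · rw [if_neg h, add_zero]; exact ih

theorem sum_cs (n : ℕ) (G : Finset ℕ) :
    ∑ u ∈ G, cs r n u = ∑ t ∈ (range n).filter (fun t => rep r t ∈ G), sgn t := by
  unfold cs
  simp only [Finset.sum_filter]
  rw [Finset.sum_comm]
  refine Finset.sum_congr rfl (fun t _ => ?_)
  by_cases h : rep r t ∈ G
  · rw [if_pos h, Finset.sum_eq_single (rep r t)]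
    · rw [if_pos rfl]
    · intro b _ hb; rw [if_neg (Ne.symm hb)]
    · intro hn; exact absurd h hn
  · rw [if_neg h]
    exact Finset.sum_eq_zero (fun u hu => if_neg (fun hh : rep r t = u => h (by
      rw [hh]; exact hu)))

/-- both signs are frequent among the odd classes -/
theorem many_classes (n : ℕ) (W : Finset ℕ) (hW : ∀ t ∈ W, t < n ∧ ¬ r t ∧ ¬ r (t + 1))
    (σ : ℤ) (hσ : σ = 1 ∨ σ = -1) :
    W.card ≤ 2 * (((range n).image (rep r)).filter (fun u => cs r n u = σ)).card + 1 := by
  classical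
  set U := (range n).image (rep r) with hU
  have htot : ∑ u ∈ U, cs r n u = if n % 2 = 0 then 0 else 1 := by
    rw [sum_cs, ← sum_sgn]
    congr 1
    rw [Finset.filter_eq_self]
    intro t ht
    exact Finset.mem_image_of_mem _ ht
  have hWU : W ⊆ U.filter (fun u => cs r n u = 1) ∪ U.filter (fun u => cs r n u = -1) := by
    intro t ht
    obtain ⟨h1, h2, h3⟩ := hW t ht
    have e : rep r t = t := rep_not r h2
    have htU : t ∈ U := Finset.mem_image.2 ⟨t, Finset.mem_range.2 h1, e⟩
    have hcs : cs r n t = sgn t := by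
      unfold cs
      rw [Finset.sum_eq_single t]
      · intro b hb hbt
        exfalso
        obtain ⟨hb1, hb2⟩ := Finset.mem_filter.1 hb
        have := rep_le r b
        have h4 : t + 1 ≤ rep r b := le_rep r h3 (by omega)
        omega
      · intro hn
        exact absurd (show t ∈ (range n).filter (fun t' => rep r t' = t) from
          Finset.mem_filter.2 ⟨Finset.mem_range.2 h1, e⟩) hn
    rw [Finset.mem_union, Finset.mem_filter, Finset.mem_filter, hcs]
    unfold sgn
    split_ifs
    · exact Or.inl ⟨htU, rfl⟩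
    · exact Or.inr ⟨htU, rfl⟩
  have hc := (Finset.card_le_card hWU).trans (Finset.card_union_le _ _)
  have hsum : ∑ u ∈ U, cs r n u = ((U.filter (fun u => cs r n u = 1)).card : ℤ) -
      ((U.filter (fun u => cs r n u = -1)).card : ℤ) := by
    rw [Finset.card_filter, Finset.card_filter]
    push_cast
    rw [← Finset.sum_sub_distrib]
    refine Finset.sum_congr rfl (fun u _ => ?_)
    rcases cs_cases r n u with h | h
    · rw [h]; simp
    · rw [h]
      unfold sgn
      split_ifs <;> simp_all
  rw [htot] at hsum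
  rcases hσ with h | h <;> rw [h] <;> split_ifs at hsum <;> omega

end rep

section place

variable {s : ℕ} (d : Fin s → ℕ)

/-- number of spine vertices of degree at least three before `i` -/
def nu (i : Fin s) : ℕ := (univ.filter (fun j : Fin s => j < i ∧ 3 ≤ d j)).card

theorem nu_lt {i j : Fin s} (hij : i < j) (hi : 3 ≤ d i) : nu d i < nu d j := by
  unfold nu
  refine Finset.card_lt_card (Finset.ssubset_iff_subset_ne.2 ⟨?_, ?_⟩)
  · intro k hk
    obtain ⟨_, h1, h2⟩ := Finset.mem_filter.1 hk
    exact Finset.mem_filter.2 ⟨Finset.mem_univ _, h1.trans hij, h2⟩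
  · intro he
    have : i ∈ univ.filter (fun k : Fin s => k < i ∧ 3 ≤ d k) := by
      rw [he]
      exact Finset.mem_filter.2 ⟨Finset.mem_univ _, hij, hi⟩
    exact absurd (Finset.mem_filter.1 this).2.1 (lt_irrefl _)

theorem nu_between {i j : Fin s} (hij : nu d i + 2 ≤ nu d j) :
    ∃ k : Fin s, i < k ∧ k < j ∧ 3 ≤ d k := by
  by_contra hno
  push Not at hno
  have hsub : univ.filter (fun k : Fin s => k < j ∧ 3 ≤ d k) ⊆
      insert i (univ.filter (fun k : Fin s => k < i ∧ 3 ≤ d k)) := by
    intro k hk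
    obtain ⟨_, h1, h2⟩ := Finset.mem_filter.1 hk
    rw [Finset.mem_insert]
    rcases lt_trichotomy k i with h | h | h
    · exact Or.inr (Finset.mem_filter.2 ⟨Finset.mem_univ _, h, h2⟩)
    · exact Or.inl h
    · have := hno k h h1
      omega
  have h1 := (Finset.card_le_card hsub).trans (Finset.card_insert_le _ _)
  unfold nu at hij
  omega

theorem nu_three (c : ℕ) :
    (univ.filter (fun i : Fin s => 3 ≤ d i ∧ nu d i ≤ c + 1 ∧ c ≤ nu d i + 1)).card ≤ 3 := by
  have h : ((univ.filter (fun i : Fin s => 3 ≤ d i ∧ nu d i ≤ c + 1 ∧ c ≤ nu d i + 1)).image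
      (nu d)).card ≤ (Finset.Icc (c - 1) (c + 1)).card := by
    refine Finset.card_le_card ?_
    intro t ht
    obtain ⟨i, hi, rfl⟩ := Finset.mem_image.1 ht
    obtain ⟨_, _, h1, h2⟩ := Finset.mem_filter.1 hi
    exact Finset.mem_Icc.2 ⟨by omega, h1⟩
  rw [Finset.card_image_of_injOn, Nat.card_Icc] at h
  · omega
  · intro i hi j hj hij
    have hi' := (Finset.mem_filter.1 (Finset.mem_coe.1 hi)).2.1
    have hj' := (Finset.mem_filter.1 (Finset.mem_coe.1 hj)).2.1
    rcases lt_trichotomy i j with h1 | h1 | h1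
    · have := nu_lt d h1 hi'
      omega
    · exact h1
    · have := nu_lt d h1 hj'
      omega

theorem place_ext (B A : Finset (ℕ × ℕ)) (hBA : Disjoint A B) (p0 : ℕ × ℕ → Fin s)
    (hp0 : ∀ b ∈ B, d (p0 b) = b.1)
    (hp0' : ∀ a ∈ B, ∀ b ∈ B, a ≠ b → nu d (p0 a) + 2 ≤ nu d (p0 b) ∨
      nu d (p0 b) + 2 ≤ nu d (p0 a))
    (h3 : ∀ a ∈ A, 3 ≤ a.1)
    (h : ∀ a ∈ A, 3 * (A.card + B.card) ≤ (univ.filter (fun i => d i = a.1)).card) :
    ∃ p : ℕ × ℕ → Fin s, (∀ a ∈ A ∪ B, d (p a) = a.1) ∧
      ∀ a ∈ A ∪ B, ∀ b ∈ A ∪ B, a ≠ b → nu d (p a) + 2 ≤ nu d (p b) ∨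
        nu d (p b) + 2 ≤ nu d (p a) := by
  classical
  induction A using Finset.induction_on with
  | empty =>
    rw [Finset.empty_union]
    exact ⟨p0, hp0, hp0'⟩
  | insert a A ha ih =>
    rw [Finset.card_insert_of_notMem ha] at h
    have haB : a ∉ B := Finset.disjoint_left.1 hBA (Finset.mem_insert_self _ _)
    obtain ⟨p, hp1, hp2⟩ := ih (Finset.disjoint_of_subset_left (Finset.subset_insert _ _) hBA)
      (fun b hb => h3 b (Finset.mem_insert_of_mem hb)) (fun b hb => by
        have := h b (Finset.mem_insert_of_mem hb)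
        omega)
    have hfa := h a (Finset.mem_insert_self _ _)
    have h3a := h3 a (Finset.mem_insert_self _ _)
    set Bk : Finset (Fin s) := (A ∪ B).biUnion (fun b =>
      univ.filter (fun i : Fin s => 3 ≤ d i ∧ nu d i ≤ nu d (p b) + 1 ∧
        nu d (p b) ≤ nu d i + 1)) with hBk
    have hBkc : Bk.card ≤ 3 * (A.card + B.card) := by
      refine Finset.card_biUnion_le.trans ?_
      refine (Finset.sum_le_sum (fun b _ => nu_three d (nu d (p b)))).trans ?_
      rw [Finset.sum_const, smul_eq_mul]
      have := Finset.card_union_le A B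
      omega
    obtain ⟨i, hi⟩ : ∃ i, i ∈ (univ.filter (fun i => d i = a.1)) \ Bk := by
      have h1 := Finset.le_card_sdiff Bk (univ.filter (fun i => d i = a.1))
      have h2 : 0 < ((univ.filter (fun i => d i = a.1)) \ Bk).card := by omega
      exact Finset.card_pos.1 h2
    obtain ⟨hi1, hi2⟩ := Finset.mem_sdiff.1 hi
    have hi3 := (Finset.mem_filter.1 hi1).2
    have hfar : ∀ b ∈ A ∪ B, nu d i + 2 ≤ nu d (p b) ∨ nu d (p b) + 2 ≤ nu d i := by
      intro b hb
      by_contra hno
      apply hi2
      rw [hBk, Finset.mem_biUnion]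
      exact ⟨b, hb, Finset.mem_filter.2 ⟨Finset.mem_univ _, by omega, by omega, by omega⟩⟩
    have haAB : a ∉ A ∪ B := by
      rw [Finset.mem_union]
      rintro (h | h)
      · exact ha h
      · exact haB h
    have hne : ∀ b ∈ A ∪ B, b ≠ a := fun b hb hba => haAB (hba ▸ hb)
    have hins : insert a A ∪ B = insert a (A ∪ B) := Finset.insert_union _ _ _
    rw [hins]
    refine ⟨fun b => if b = a then i else p b, ?_, ?_⟩
    · intro b hb
      dsimp only
      rcases Finset.mem_insert.1 hb with hb' | hb'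
      · rw [if_pos hb', hb']; exact hi3
      · rw [if_neg (hne b hb')]; exact hp1 b hb'
    · intro b hb c hc hbc
      dsimp only
      rcases Finset.mem_insert.1 hb with hb' | hb'
      · rcases Finset.mem_insert.1 hc with hc' | hc'
        · exact absurd (hb'.trans hc'.symm) hbc
        · rw [if_pos hb', if_neg (hne c hc')]; exact hfar c hc'
      · rcases Finset.mem_insert.1 hc with hc' | hc'
        · rw [if_pos hc', if_neg (hne b hb')]
          exact (hfar b hb').symm
        · rw [if_neg (hne b hb'), if_neg (hne c hc')]; exact hp2 b hb' c hc' hbc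

/-- placement with at most one arc of label two -/
theorem place_sep (hs : 0 < s) (A : Finset (ℕ × ℕ)) (hA : ∀ a ∈ A, 2 ≤ a.1)
    (h2 : ∀ a ∈ A, ∀ b ∈ A, a.1 = 2 → b.1 = 2 → a = b)
    (hex : ∀ a ∈ A, a.1 = 2 → ∃ i, d i = 2)
    (h : ∀ a ∈ A, a.1 ≠ 2 → 3 * A.card ≤ (univ.filter (fun i => d i = a.1)).card) :
    ∃ p : ℕ × ℕ → Fin s, (∀ a ∈ A, d (p a) = a.1) ∧
      ∀ a ∈ A, ∀ b ∈ A, a ≠ b → nu d (p a) + 2 ≤ nu d (p b) ∨
        nu d (p b) + 2 ≤ nu d (p a) := by
  classical
  set B := A.filter (fun a => a.1 = 2) with hB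
  set A' := A.filter (fun a => ¬ a.1 = 2) with hA'
  have hun : A' ∪ B = A := by
    rw [Finset.union_comm, hA', hB]
    exact Finset.filter_union_filter_not_eq _ _
  have hcard : A'.card + B.card = A.card := by
    rw [add_comm]
    exact Finset.card_filter_add_card_filter_not _
  obtain ⟨i0, hi0⟩ : ∃ i0 : Fin s, ∀ a ∈ B, d i0 = 2 := by
    by_cases hBe : B.Nonempty
    · obtain ⟨b, hb⟩ := hBe
      obtain ⟨h1, h2'⟩ := Finset.mem_filter.1 hb
      obtain ⟨i, hi⟩ := hex b h1 h2'
      exact ⟨i, fun _ _ => hi⟩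
    · exact ⟨⟨0, hs⟩, fun a ha => absurd ⟨a, ha⟩ hBe⟩
  have hdis : Disjoint A' B := by
    rw [Finset.disjoint_left]
    intro a h1 h2'
    exact (Finset.mem_filter.1 h1).2 (Finset.mem_filter.1 h2').2
  have key := place_ext d B A' hdis (fun _ => i0)
    (fun b hb => by rw [hi0 b hb]; exact (Finset.mem_filter.1 hb).2.symm)
    (fun a ha b hb hab => by
      obtain ⟨a1, a2⟩ := Finset.mem_filter.1 ha
      obtain ⟨b1, b2⟩ := Finset.mem_filter.1 hb
      exact absurd (h2 a a1 b b1 a2 b2) hab)
    (fun a ha => by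
      obtain ⟨a1, a2⟩ := Finset.mem_filter.1 ha
      have := hA a a1
      omega)
    (fun a ha => by
      obtain ⟨a1, a2⟩ := Finset.mem_filter.1 ha
      rw [hcard]
      exact h a a1 a2)
  rw [hun] at key
  exact key

end place

end Pool.Agent.W_e8e3a0
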