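import Pool.Agent.W_e8e3a0.Class49

/-! Many odd classes of spine edges from many odd gaps. -/

namespace Pool.Agent.W_e8e3a0

open Finset

variable (r : ℕ → Prop) [DecidablePred r]

/-- an odd interval with non-rigid ends contains an odd class -/
theorem odd_class (n a b : ℕ) (hab : a < b) (hbn : b ≤ n) (hodd : (b - a) % 2 = 1)
    (ha : ¬ r a) (hb : ¬ r b) :
    ∃ u ∈ (range n).image (rep r), cs r n u ≠ 0 ∧ a ≤ u ∧ u < b := by
  classical
  by_contra hno
  push Not at hno
  set G := ((range n).image (rep r)).filter (fun u => a ≤ u ∧ u < b) with hG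
  have h0 : ∑ u ∈ G, cs r n u = 0 := by
    refine Finset.sum_eq_zero (fun u hu => ?_)
    obtain ⟨h1, h2, h3⟩ := Finset.mem_filter.1 hu
    by_contra h4
    have := hno u h1 h4 h2
    omega
  rw [sum_cs] at h0
  have h1 : (range n).filter (fun t => rep r t ∈ G) = Finset.Ico a b := by
    ext t
    rw [Finset.mem_filter, Finset.mem_range, Finset.mem_Ico]
    constructor
    · rintro ⟨h1, h2⟩
      obtain ⟨_, h3, h4⟩ := Finset.mem_filter.1 h2
      have h5 := rep_le r t
      refine ⟨by omega, ?_⟩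
      by_contra h6
      have := le_rep r hb (t := t) (by omega)
      omega
    · rintro ⟨h1, h2⟩
      have h3 : t < n := by omega
      refine ⟨h3, Finset.mem_filter.2 ⟨Finset.mem_image_of_mem _ (Finset.mem_range.2 h3), ?_, ?_⟩⟩
      · exact le_rep r ha h1
      · have := rep_le r t
        omega
  rw [h1, Finset.sum_Ico_eq_sub _ hab.le, sum_sgn, sum_sgn] at h0
  split_ifs at h0 <;> omega

/-- both signs are frequent among the odd classes -/
theorem many_classes2 {ι : Type} (n : ℕ) (W : Finset ι) (α β : ι → ℕ)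
    (hW : ∀ w ∈ W, α w < β w ∧ β w ≤ n ∧ (β w - α w) % 2 = 1 ∧ ¬ r (α w) ∧ ¬ r (β w))
    (hd : ∀ w ∈ W, ∀ w' ∈ W, w ≠ w' → β w ≤ α w' ∨ β w' ≤ α w)
    (σ : ℤ) (hσ : σ = 1 ∨ σ = -1) :
    W.card ≤ 2 * (((range n).image (rep r)).filter (fun u => cs r n u = σ)).card + 1 := by
  classical
  set U := (range n).image (rep r) with hU
  have htot : ∑ u ∈ U, cs r n u = if n % 2 = 0 then 0 else 1 := by
    rw [sum_cs, ← sum_sgn]
    congr 1
    rw [Finset.filter_eq_self]
    intro t ht
    exact Finset.mem_image_of_mem _ ht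
  have hex : ∀ w ∈ W, ∃ u ∈ U, cs r n u ≠ 0 ∧ α w ≤ u ∧ u < β w := by
    intro w hw
    obtain ⟨h1, h2, h3, h4, h5⟩ := hW w hw
    exact odd_class r n (α w) (β w) h1 h2 h3 h4 h5
  choose! f hf using hex
  have hcs1 : ∀ u, cs r n u ≠ 0 → cs r n u = 1 ∨ cs r n u = -1 := by
    intro u hu
    rcases cs_cases r n u with h | h
    · exact absurd h hu
    · rw [h]; unfold sgn; split_ifs
      · exact Or.inl rfl
      · exact Or.inr rfl
  have hc : W.card ≤ (U.filter (fun u => cs r n u = 1) ∪ U.filter (fun u => cs r n u = -1)).card := by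
    refine Finset.card_le_card_of_injOn f (fun w hw => ?_) (fun w hw w' hw' hww => ?_)
    · obtain ⟨h1, h2, _⟩ := hf w (Finset.mem_coe.1 hw)
      rw [Finset.mem_coe, Finset.mem_union, Finset.mem_filter, Finset.mem_filter]
      rcases hcs1 _ h2 with h | h
      · exact Or.inl ⟨h1, h⟩
      · exact Or.inr ⟨h1, h⟩
    · by_contra hne
      obtain ⟨_, _, h3, h4⟩ := hf w (Finset.mem_coe.1 hw)
      obtain ⟨_, _, h5, h6⟩ := hf w' (Finset.mem_coe.1 hw')
      rcases hd w (Finset.mem_coe.1 hw) w' (Finset.mem_coe.1 hw') hne with h | h <;> omega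
  have hc2 := hc.trans (Finset.card_union_le _ _)
  have hsum : ∑ u ∈ U, cs r n u = ((U.filter (fun u => cs r n u = 1)).card : ℤ) -
      ((U.filter (fun u => cs r n u = -1)).card : ℤ) := by
    rw [Finset.card_filter, Finset.card_filter]
    push_cast
    rw [← Finset.sum_sub_distrib]
    refine Finset.sum_congr rfl (fun u _ => ?_)
    rcases cs_cases r n u with h | h
    · rw [h]; simp
    · rw [h]
      unfold sgn
      split_ifs <;> simp_all
  rw [htot] at hsum
  rcases hσ with h | h <;> rw [h] <;> split_ifs at hsum <;> omega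

end Pool.Agent.W_e8e3a0
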