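import Pool.Agent.W_e8e3a0.Chain49

namespace Pool.Agent.W_e8e3a0.Num49

open Finset

variable {I : Type} [DecidableEq I]

theorem cx_enum {P : Finset I} {N : ℕ} (e : Fin N ≃ P) (x : I → ℕ) (v : ℕ → ℕ)
    (h : ∀ j : Fin N, x (e j) = v j) (k : ℕ) :
    cx x P k = ∑ j ∈ range N, if v j = k then 1 else 0 := by
  unfold cx
  rw [← Finset.sum_coe_sort P, ← Equiv.sum_comp e, Finset.sum_range]
  exact Finset.sum_congr rfl (fun j _ => by rw [h j])

theorem good_chain {d : I → ℕ} {P : Finset I} (hodd : Odd P.card)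
    (hsum : Even (∑ i ∈ P, d i)) (hpos : ∀ i ∈ P, 1 ≤ d i)
    (h : ∀ a ∈ P, ∀ b ∈ P, a ≠ b → ∀ c ∈ P, d c < d a + d b) : Good d P := by
  obtain ⟨m, hm⟩ := hodd
  obtain ⟨e, he⟩ := exists_enum d P
  have hmem : ∀ j : Fin P.card, ((e j : P) : I) ∈ P := fun j => (e j).2
  let f : ℕ → ℤ := fun n => if h : n < P.card then (d (e ⟨n, h⟩) : ℤ) else 0
  have hf : ∀ n (h : n < P.card), f n = (d (e ⟨n, h⟩) : ℤ) := fun n h => dif_pos h
  have hmono : ∀ i, i < 2 * m → f i ≤ f (i + 1) := by
    intro i hi
    rw [hf i (by omega), hf (i + 1) (by omega)]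
    exact_mod_cast he ⟨i, by omega⟩ ⟨i + 1, by omega⟩ (by simp)
  have h0 : 1 ≤ f 0 := by
    rw [hf 0 (by omega)]
    exact_mod_cast hpos _ (hmem _)
  have hc : 1 ≤ m → f (2 * m) < f 0 + f 1 := by
    intro h1
    rw [hf 0 (by omega), hf 1 (by omega), hf (2 * m) (by omega)]
    have hne : ((e ⟨0, by omega⟩ : P) : I) ≠ ((e ⟨1, by omega⟩ : P) : I) := by
      intro h'
      have := e.injective (Subtype.ext h')
      simp at this
    exact_mod_cast h _ (hmem ⟨0, by omega⟩) _ (hmem ⟨1, by omega⟩) hne _ (hmem ⟨2 * m, by omega⟩)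
  set c := S f (2 * m + 1) with hcdef
  have hsumf : ∑ i ∈ range (2 * m + 1), f i = ((∑ i ∈ P, d i : ℕ) : ℤ) := by
    rw [← Finset.sum_coe_sort P, ← Equiv.sum_comp e, ← hm, Finset.sum_range]
    push_cast
    exact Finset.sum_congr rfl (fun j _ => hf j j.2)
  have hc2 : c % 2 = 0 := by
    have h1 := S_par f (2 * m + 1)
    rw [← hcdef, hsumf] at h1
    obtain ⟨t, ht⟩ := hsum
    rw [ht] at h1
    push_cast at h1
    omega
  have hVp := V_pos f m hmono h0 hc
  rw [← hcdef] at hVp
  have hV2 := V_par f c hc2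
  have hclose : V f c (2 * m + 1) = V f c 0 := by
    have := V_close f m
    rw [← hcdef] at this
    rw [this]; rfl
  let v : ℕ → ℕ := fun n => (V f c n / 2).toNat
  have hv : ∀ n, n ≤ 2 * m + 1 → 2 * (v n : ℤ) = V f c n ∧ 1 ≤ v n := by
    intro n hn
    have h1 := hVp n hn
    have h2 := hV2 n
    have : ((v n : ℕ) : ℤ) = V f c n / 2 := Int.toNat_of_nonneg (by omega)
    omega
  have hstep : ∀ n, n < 2 * m + 1 → v n + v (n + 1) = f n := by
    intro n hn
    have h1 := (hv n (by omega)).1
    have h2 := (hv (n + 1) (by omega)).1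
    have h3 : V f c (n + 1) = 2 * f n - V f c n := rfl
    omega
  refine ⟨fun i => if h : i ∈ P then v (e.symm ⟨i, h⟩) else 0,
    fun i => if h : i ∈ P then v (e.symm ⟨i, h⟩ + 1) else 0, ?_, ?_⟩
  · intro i hi
    simp only [hi, dif_pos]
    set j := e.symm ⟨i, hi⟩ with hj
    have hj2 : (j : ℕ) < 2 * m + 1 := by have := j.2; omega
    have h1 := hstep j hj2
    rw [hf j j.2] at h1
    have h2 : e ⟨j, j.2⟩ = ⟨i, hi⟩ := by simp [hj]
    rw [h2] at h1
    refine ⟨by exact_mod_cast h1, (hv j (by omega)).2, (hv (j + 1) (by omega)).2⟩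
  · intro k
    rw [cx_enum e _ v (fun j => by simp) k, cx_enum e _ (fun n => v (n + 1)) (fun j => by simp) k]
    have hv0 : v P.card = v 0 := by
      show (V f c P.card / 2).toNat = (V f c 0 / 2).toNat
      rw [hm, hclose]
    have h1 := Finset.sum_range_succ (fun j => if v j = k then 1 else 0) P.card
    have h2 := Finset.sum_range_succ' (fun j => if v j = k then 1 else 0) P.card
    rw [h1] at h2
    simp only [hv0] at h2
    omega

/-- the closed part: `P` contains a vertex of even degree, the sum is even, all other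
even degrees are arbitrary `≥ 2` -/
theorem good_main {d : I → ℕ} : ∀ (n : ℕ) (P : Finset I), P.card = n → ∀ e ∈ P, Even (d e) →
    Even (∑ i ∈ P, d i) → (∀ i ∈ P, 2 ≤ d i) →
    (∀ a ∈ P, ∀ b ∈ P, ∀ c ∈ P, (a = e ∨ Odd (d a)) → (b = e ∨ Odd (d b)) →
      (c = e ∨ Odd (d c)) → d a ≠ d b → d c < d a + d b) → Good d P := by
  intro n
  induction n using Nat.strong_induction_on with
  | _ n ih =>
  intro P hP e he hee hsum hpos hwin
  by_cases h1 : ∃ f ∈ P, f ≠ e ∧ Even (d f)
  · obtain ⟨f, hf, hfe, hev⟩ := h1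
    have hle : (P.erase f).card < n := by rw [← hP]; exact Finset.card_erase_lt_of_mem hf
    have hs := Finset.add_sum_erase P d hf
    have hg := ih _ hle (P.erase f) rfl e (Finset.mem_erase.2 ⟨Ne.symm hfe, he⟩) hee
      (by
        rw [← hs] at hsum
        exact (Nat.even_add.1 hsum).1 hev)
      (fun i hi => hpos i (Finset.mem_of_mem_erase hi))
      (fun a ha b hb c hc => hwin a (Finset.mem_of_mem_erase ha) b (Finset.mem_of_mem_erase hb) c
        (Finset.mem_of_mem_erase hc))
    have h2 : P = {f} ∪ P.erase f := by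
      ext i; by_cases hi : i = f <;> simp [hi, hf]
    rw [h2]
    exact (good_even hev (hpos f hf)).union hg (by simp)
  by_cases h2 : ∃ a ∈ P, ∃ b ∈ P, a ≠ b ∧ d a = d b ∧ Odd (d a)
  · obtain ⟨a, ha, b, hb, hab, hd, hoa⟩ := h2
    have hea : e ≠ a := by rintro rfl; exact (Nat.not_even_iff_odd.2 hoa) hee
    have heb : e ≠ b := by rintro rfl; rw [hd] at hoa; exact (Nat.not_even_iff_odd.2 hoa) hee
    have hbP : b ∈ P.erase a := Finset.mem_erase.2 ⟨Ne.symm hab, hb⟩
    have hle : ((P.erase a).erase b).card < n := by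
      rw [← hP]
      exact lt_trans (Finset.card_erase_lt_of_mem hbP) (Finset.card_erase_lt_of_mem ha)
    have hs := Finset.add_sum_erase P d ha
    have hs2 := Finset.add_sum_erase (P.erase a) d hbP
    have hsub : ∀ i ∈ (P.erase a).erase b, i ∈ P := fun i hi =>
      Finset.mem_of_mem_erase (Finset.mem_of_mem_erase hi)
    have hg := ih _ hle ((P.erase a).erase b) rfl e
      (Finset.mem_erase.2 ⟨heb, Finset.mem_erase.2 ⟨hea, he⟩⟩) hee
      (by
        rw [← hs, ← hs2, ← add_assoc, hd] at hsum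
        exact (Nat.even_add.1 hsum).1 ⟨_, rfl⟩)
      (fun i hi => hpos i (hsub i hi))
      (fun a' ha' b' hb' c hc => hwin a' (hsub a' ha') b' (hsub b' hb') c (hsub c hc))
    have h3 : P = {a, b} ∪ (P.erase a).erase b := by
      ext i
      by_cases hi : i = a
      · simp [hi, ha]
      · by_cases hi2 : i = b
        · simp [hi2, hb]
        · simp [hi, hi2]
    rw [h3]
    refine (good_pair hab hd (hpos a ha)).union hg ?_
    rw [Finset.disjoint_left]
    intro i hi hi2
    simp only [Finset.mem_insert, Finset.mem_singleton] at hi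
    rcases hi with rfl | rfl
    · simp at hi2
    · simp at hi2
  push Not at h1 h2
  have hodd : ∀ i ∈ P, i = e ∨ Odd (d i) := by
    intro i hi
    by_cases hie : i = e
    · exact Or.inl hie
    · exact Or.inr (Nat.not_even_iff_odd.1 (h1 i hi hie))
  have hinj : ∀ a ∈ P, ∀ b ∈ P, a ≠ b → d a ≠ d b := by
    intro a ha b hb hab hd
    rcases hodd a ha with h | h
    · rcases hodd b hb with h' | h'
      · exact hab (h.trans h'.symm)
      · rw [← hd, h] at h'
        exact (Nat.not_even_iff_odd.2 h') hee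
    · exact h2 a ha b hb hab hd h
  have hcard : Odd P.card := by
    have hs := Finset.add_sum_erase P d he
    have hsp : ∀ Q : Finset I, (∀ i ∈ Q, Odd (d i)) → (Even (∑ i ∈ Q, d i) ↔ Even Q.card) := by
      intro Q
      induction Q using Finset.induction_on with
      | empty => intro _; simp
      | insert a s ha ihs =>
        intro hQ
        rw [Finset.sum_insert ha, Finset.card_insert_of_notMem ha]
        have h3 := ihs (fun i hi => hQ i (Finset.mem_insert_of_mem hi))
        have h4 : ¬ Even (d a) := Nat.not_even_iff_odd.2 (hQ a (Finset.mem_insert_self a s))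
        rw [Nat.even_add, Nat.even_add_one]
        tauto
    have h3 : Even (∑ i ∈ P.erase e, d i) := by
      rw [← hs] at hsum
      exact (Nat.even_add.1 hsum).1 hee
    have h4 := (hsp (P.erase e) (fun i hi => by
      rcases hodd i (Finset.mem_of_mem_erase hi) with h | h
      · exact absurd h (Finset.ne_of_mem_erase hi)
      · exact h)).1 h3
    have h5 := Finset.card_erase_add_one he
    rw [← h5]
    exact h4.add_one
  exact good_chain hcard hsum (fun i hi => by have := hpos i hi; omega)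
    (fun a ha b hb hab c hc => hwin a ha b hb c hc (hodd a ha) (hodd b hb) (hodd c hc)
      (hinj a ha b hb hab))

end Pool.Agent.W_e8e3a0.Num49
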