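import Mathlib

/-! Counting compositions (lists of positive integers with a given sum). -/

namespace Pool.Agent.W_e8e3a0

open Finset

/-- compositions of `N` -/
def comps : ℕ → Finset (List ℕ)
  | 0 => {[]}
  | (n + 1) => (Finset.range (n + 1)).attach.biUnion fun j =>
      (comps (n - j.1)).image (fun l => (j.1 + 1) :: l)
decreasing_by
  omega

theorem mem_comps : ∀ (l : List ℕ) (N : ℕ), l ∈ comps N ↔ (∀ x ∈ l, 1 ≤ x) ∧ l.sum = N := by
  intro l
  induction l with
  | nil =>
    intro N
    cases N with
    | zero => simp [comps]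
    | succ n => simp [comps]
  | cons a t ih =>
    intro N
    cases N with
    | zero =>
      simp only [comps, Finset.mem_singleton, List.sum_cons, List.mem_cons, forall_eq_or_imp]
      constructor
      · intro h; exact absurd h (by simp)
      · rintro ⟨⟨h1, _⟩, h2⟩; omega
    | succ n =>
      rw [comps]
      simp only [Finset.mem_biUnion, Finset.mem_attach, true_and, Finset.mem_image, Subtype.exists,
        Finset.mem_range, List.cons.injEq, List.sum_cons, List.mem_cons, forall_eq_or_imp]
      constructor
      · rintro ⟨j, hj, l, hl, h1, rfl⟩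
        have := (ih (n - j)).1 hl
        exact ⟨⟨by omega, this.1⟩, by omega⟩
      · rintro ⟨⟨h1, h2⟩, h3⟩
        exact ⟨a - 1, by omega, t, (ih _).2 ⟨h2, by omega⟩, by omega, rfl⟩

theorem sum_comps {M : Type*} [AddCommMonoid M] (f : List ℕ → M) (n : ℕ) :
    ∑ l ∈ comps (n + 1), f l = ∑ j ∈ range (n + 1), ∑ l ∈ comps (n - j), f ((j + 1) :: l) := by
  rw [comps, Finset.sum_biUnion]
  · rw [← Finset.sum_attach (range (n + 1))]
    refine Finset.sum_congr rfl (fun j _ => ?_)
    rw [Finset.sum_image]
    intro a _ b _ h
    exact (List.cons.inj h).2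
  · intro a _ b _ hab
    rw [Function.onFun, Finset.disjoint_left]
    intro l hl hl'
    simp only [Finset.mem_image] at hl hl'
    obtain ⟨x, _, rfl⟩ := hl
    obtain ⟨y, _, hy⟩ := hl'
    apply hab
    apply Subtype.ext
    have := (List.cons.inj hy).1
    omega

theorem card_comps (n : ℕ) : (comps (n + 1)).card = 2 ^ n ∧
    ∑ i ∈ range (n + 1), (comps i).card = 2 ^ n := by
  have hrec : ∀ n, (comps (n + 1)).card = ∑ i ∈ range (n + 1), (comps i).card := by
    intro n
    rw [Finset.card_eq_sum_ones, sum_comps, ← Finset.sum_range_reflect (fun i => (comps i).card)]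
    refine Finset.sum_congr rfl (fun j hj => ?_)
    rw [← Finset.card_eq_sum_ones]
    congr 2
  have h : ∀ n, ∑ i ∈ range (n + 1), (comps i).card = 2 ^ n := by
    intro n
    induction n with
    | zero => simp [comps]
    | succ n ih => rw [Finset.sum_range_succ, hrec n, ih]; ring
  exact ⟨by rw [hrec, h], h n⟩

theorem card_comps_le (k : ℕ) : (comps k).card ≤ 2 ^ k := by
  cases k with
  | zero => simp [comps]
  | succ n => rw [(card_comps n).1]; exact Nat.pow_le_pow_right (by norm_num) (Nat.le_succ n)

/-- number of compositions of `N` with a part `≥ m` -/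
def big (m N : ℕ) : ℕ := ((comps N).filter (fun l => ∃ x ∈ l, m ≤ x)).card

theorem big_le (m : ℕ) (hm : 1 ≤ m) : ∀ N, 2 ^ m * big m N ≤ N * 2 ^ (N + 1) := by
  intro N
  induction N using Nat.strong_induction_on with
  | _ N ih =>
  cases N with
  | zero =>
    have : big m 0 = 0 := by simp [big, comps]
    rw [this]; simp
  | succ n =>
    have h1 : big m (n + 1) ≤ ∑ j ∈ range (n + 1),
        ((if m ≤ j + 1 then (comps (n - j)).card else 0) + big m (n - j)) := by
      unfold big
      rw [Finset.card_filter, sum_comps]
      refine Finset.sum_le_sum (fun j _ => ?_)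
      rw [Finset.card_filter]
      by_cases hj : m ≤ j + 1
      · rw [if_pos hj]
        refine le_trans ?_ (Nat.le_add_right _ _)
        rw [Finset.card_eq_sum_ones]
        refine Finset.sum_le_sum (fun l _ => ?_)
        split_ifs <;> omega
      · rw [if_neg hj, zero_add]
        refine Finset.sum_le_sum (fun l _ => ?_)
        by_cases hl : ∃ x ∈ l, m ≤ x
        · rw [if_pos hl]; split_ifs <;> omega
        · rw [if_neg hl, if_neg]
          rintro ⟨x, hx, hmx⟩
          rcases List.mem_cons.1 hx with rfl | hx
          · exact hj hmx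
          · exact hl ⟨x, hx, hmx⟩
    have h2 : ∑ j ∈ range (n + 1), (if m ≤ j + 1 then 2 ^ m * (comps (n - j)).card else 0) ≤
        2 ^ (n + 2) := by
      have h3 : ∀ j ∈ range (n + 1), (if m ≤ j + 1 then 2 ^ m * (comps (n - j)).card else 0) ≤
          (if m ≤ j + 1 then 2 ^ (m + (n - j)) else 0) := by
        intro j _
        by_cases hj : m ≤ j + 1
        · rw [if_pos hj, if_pos hj, pow_add]
          exact Nat.mul_le_mul_left _ (card_comps_le _)
        · rw [if_neg hj, if_neg hj]
      refine le_trans (Finset.sum_le_sum h3) ?_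
      have h4 : ∀ n, ∑ j ∈ range (n + 1), (if m ≤ j + 1 then 2 ^ (m + (n - j)) else 0) ≤
          2 ^ (n + 2) - (if m ≤ n + 1 then 2 ^ m else 0) := by
        intro n
        induction n with
        | zero =>
          rw [Finset.sum_range_one]
          by_cases hj : m ≤ 0 + 1
          · have : m = 1 := by omega
            subst this
            norm_num
          · rw [if_neg hj, if_neg hj]; simp
        | succ n ihn =>
          rw [Finset.sum_range_succ]
          have h5 : ∑ j ∈ range (n + 1), (if m ≤ j + 1 then 2 ^ (m + (n + 1 - j)) else 0) =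
              2 * ∑ j ∈ range (n + 1), (if m ≤ j + 1 then 2 ^ (m + (n - j)) else 0) := by
            rw [Finset.mul_sum]
            refine Finset.sum_congr rfl (fun j hj => ?_)
            have := Finset.mem_range.1 hj
            by_cases hj' : m ≤ j + 1
            · rw [if_pos hj', if_pos hj', ← pow_succ']
              congr 1; omega
            · rw [if_neg hj', if_neg hj', mul_zero]
          rw [h5]
          have h6 : 2 ^ (n + 1 + 2) = 2 * 2 ^ (n + 2) := by ring
          rw [h6]
          by_cases hj : m ≤ n + 1
          · rw [if_pos (show m ≤ n + 1 + 1 by omega), if_pos (show m ≤ n + 1 + 1 by omega)]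
            rw [if_pos hj] at ihn
            have h7 : 2 ^ m ≤ 2 ^ (n + 1) := Nat.pow_le_pow_right (by norm_num) hj
            have h8 : 2 ^ (n + 2) = 2 * 2 ^ (n + 1) := by ring
            have h9 : m + (n + 1 - (n + 1)) = m := by omega
            rw [h9]
            omega
          · rw [if_neg hj] at ihn
            have h0 : ∑ j ∈ range (n + 1), (if m ≤ j + 1 then 2 ^ (m + (n - j)) else 0) = 0 := by
              refine Finset.sum_eq_zero (fun j hj' => if_neg ?_)
              have := Finset.mem_range.1 hj'
              omega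
            rw [h0]
            have h9 : m + (n + 1 - (n + 1)) = m := by omega
            rw [h9]
            by_cases hj2 : m ≤ n + 1 + 1
            · rw [if_pos hj2]
              have h7 : 2 ^ m ≤ 2 ^ (n + 2) := Nat.pow_le_pow_right (by norm_num) hj2
              omega
            · rw [if_neg hj2]; omega
      exact le_trans (h4 n) (Nat.sub_le _ _)
    have h3 : ∑ j ∈ range (n + 1), 2 ^ m * big m (n - j) ≤ ∑ i ∈ range (n + 1), i * 2 ^ (i + 1) := by
      rw [← Finset.sum_range_reflect (fun i => i * 2 ^ (i + 1))]
      refine Finset.sum_le_sum (fun j hj => ?_)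
      have := Finset.mem_range.1 hj
      have h4 := ih (n - j) (by omega)
      have h5 : n + 1 - 1 - j = n - j := by omega
      rw [h5]
      exact h4
    have h4 : ∀ n, ∑ i ∈ range (n + 1), i * 2 ^ (i + 1) + 2 ^ (n + 2) ≤ n * 2 ^ (n + 2) + 4 := by
      intro n
      induction n with
      | zero => simp
      | succ n ihn =>
        rw [Finset.sum_range_succ]
        have h6 : 2 ^ (n + 1 + 2) = 2 * 2 ^ (n + 2) := by ring
        have h7 : 2 ^ (n + 1 + 1) = 2 ^ (n + 2) := by ring
        rw [h6, h7]
        have h8 : (n + 1) * 2 ^ (n + 2) = n * 2 ^ (n + 2) + 2 ^ (n + 2) := by ring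
        have h9 : (n + 1) * (2 * 2 ^ (n + 2)) = 2 * (n * 2 ^ (n + 2)) + 2 * 2 ^ (n + 2) := by ring
        rw [h8, h9]
        omega
    have h5 : 2 ^ m * big m (n + 1) ≤ 2 ^ (n + 2) + ∑ i ∈ range (n + 1), i * 2 ^ (i + 1) := by
      refine le_trans (Nat.mul_le_mul_left _ h1) ?_
      rw [Finset.mul_sum]
      have h6 : ∀ j ∈ range (n + 1),
          2 ^ m * ((if m ≤ j + 1 then (comps (n - j)).card else 0) + big m (n - j)) =
          (if m ≤ j + 1 then 2 ^ m * (comps (n - j)).card else 0) + 2 ^ m * big m (n - j) := by
        intro j _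
        rw [mul_add]
        congr 1
        split_ifs <;> simp
      rw [Finset.sum_congr rfl h6, Finset.sum_add_distrib]
      exact Nat.add_le_add h2 h3
    have h6 := h4 n
    have h7 : (n + 1) * 2 ^ (n + 1 + 1) = n * 2 ^ (n + 2) + 2 ^ (n + 2) := by ring
    have h8 : 4 ≤ 2 ^ (n + 2) := by
      have : 2 ^ 2 ≤ 2 ^ (n + 2) := Nat.pow_le_pow_right (by norm_num) (by omega)
      omega
    rw [h7]
    omega

end Pool.Agent.W_e8e3a0
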