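import Pool.Agent.W_e8e3a0.DualP49

/-! Parts, separated vertices and classes for the case of two consecutive spine degrees. -/

namespace Pool.Agent.W_e8e3a0

open Finset Num49

variable {V : Type} [Fintype V]

/-- parts with the parity property -/
theorem mixed_parts2 {s : ℕ} (d : Fin s → ℕ) (h2 : ∀ i, 2 ≤ d i)
    (A : Finset (ℕ × ℕ)) (hA1 : ∀ a ∈ A, a.2 ≤ a.1)
    (hA2 : ∀ e, e ≠ 2 → ∑ a ∈ A, (if a.1 = e then (1 : ZMod 2) else 0) =
      ∑ i, (if d i = e then (1 : ZMod 2) else 0))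
    (hA3 : ∀ k, 2 ≤ k → ∑ a ∈ A, ((if a.2 = k then (1 : ZMod 2) else 0) +
        (if a.1 - a.2 = k then (1 : ZMod 2) else 0)) = 0)
    (p : ℕ × ℕ → Fin s) (hp1 : ∀ a ∈ A, d (p a) = a.1)
    (hp2 : ∀ a ∈ A, ∀ b ∈ A, a ≠ b → (p a : ℕ) + 1 < p b ∨ (p b : ℕ) + 1 < p a) :
    (univ.filter (fun i => i ∉ A.image p ∧ d i = 3)).card % 2 = 0 ∧
    ∃ a b : Fin s → ℕ, (∀ i, a i + b i = d i) ∧
      (∀ k, 2 ≤ k → (cx a univ k + cx b univ k) % 2 = 0) ∧
      (∀ i, i ∉ A.image p → (d i = 2 → a i = 1 ∧ b i = 1) ∧ (d i = 3 → a i = 1 ∧ b i = 2) ∧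
        (4 ≤ d i → a i = 2 ∧ b i = d i - 2)) ∧ (∀ c ∈ A, a (p c) = c.2) := by
  classical
  have hinj : ∀ a ∈ A, ∀ b ∈ A, p a = p b → a = b := by
    intro a ha b hb hab
    by_contra hne
    have := hp2 a ha b hb hne
    rw [hab] at this
    omega
  obtain ⟨N, hN1, hN2⟩ : ∃ N, (∀ i ∈ (univ : Finset (Fin s)), d i < N) ∧
      (∀ a ∈ A, a.1 < N) := by
    refine ⟨∑ i, d i + ∑ a ∈ A, a.1 + 1, fun i hi => ?_, fun a ha => ?_⟩
    · have := Finset.single_le_sum (f := d) (fun _ _ => Nat.zero_le _) hi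
      omega
    · have := Finset.single_le_sum (f := fun a : ℕ × ℕ => a.1)
        (fun _ _ => Nat.zero_le _) ha
      omega
  -- sums over the non-special vertices vanish
  have hvan : ∀ H : ℕ → ZMod 2, H 2 = 0 → ∑ i ∈ univ \ A.image p, H (d i) = 0 := by
    intro H hH2
    have h2 : ∑ i ∈ A.image p, H (d i) = ∑ a ∈ A, H a.1 := by
      rw [Finset.sum_image (fun a ha b hb hab => hinj a ha b hb hab)]
      exact Finset.sum_congr rfl (fun a ha => by rw [hp1 a ha])
    have h3 : ∑ i, H (d i) = ∑ a ∈ A, H a.1 := by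
      rw [sum_by_label univ d H N hN1, sum_by_label A (fun a => a.1) H N hN2]
      refine Finset.sum_congr rfl (fun e _ => ?_)
      by_cases he : e = 2
      · rw [he, hH2, mul_zero, mul_zero]
      · rw [hA2 e he]
    have h6 := Finset.sum_sdiff (f := fun i => H (d i)) (Finset.subset_univ (A.image p))
    rw [h2, h3] at h6
    exact add_eq_right.1 h6
  refine ⟨?_, ?_⟩
  · have h1 := hvan (fun e => if e = 3 then 1 else 0) (if_neg (by norm_num))
    have h2 : (((univ.filter (fun i => i ∉ A.image p ∧ d i = 3)).card : ℕ) : ZMod 2) = 0 := by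
      rw [← h1, Finset.card_filter]
      push_cast
      rw [← Finset.sum_sdiff (Finset.subset_univ (A.image p))]
      have h3 : ∑ i ∈ A.image p, (if i ∉ A.image p ∧ d i = 3 then (1 : ZMod 2) else 0) = 0 :=
        Finset.sum_eq_zero (fun i hi => if_neg (fun hh => hh.1 hi))
      rw [h3, add_zero]
      refine Finset.sum_congr rfl (fun i hi => ?_)
      have := (Finset.mem_sdiff.1 hi).2
      exact if_congr ⟨fun hh => hh.2, fun hh => ⟨this, hh⟩⟩ rfl rfl
    have := (ZMod.natCast_eq_zero_iff _ _).1 h2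
    omega
  set c0 : ℕ → ℕ := fun e => if e ≤ 3 then 1 else 2 with hc0
  set α : Fin s → ℕ := fun i => if h : ∃ a ∈ A, p a = i then (Classical.choose h).2
    else c0 (d i) with hα
  have hαA : ∀ a ∈ A, α (p a) = a.2 := by
    intro a ha
    have hex : ∃ b ∈ A, p b = p a := ⟨a, ha, rfl⟩
    rw [hα]
    dsimp only
    rw [dif_pos hex]
    have h1 := Classical.choose_spec hex
    rw [hinj _ h1.1 a ha h1.2]
  have hαn : ∀ i, i ∉ A.image p → α i = c0 (d i) := by
    intro i hi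
    rw [hα]
    dsimp only
    rw [dif_neg]
    rintro ⟨a, ha, rfl⟩
    exact hi (Finset.mem_image_of_mem p ha)
  have hαle : ∀ i, α i ≤ d i := by
    intro i
    by_cases hi : i ∈ A.image p
    · obtain ⟨a, ha, rfl⟩ := Finset.mem_image.1 hi
      rw [hαA a ha, hp1 a ha]
      exact hA1 a ha
    · rw [hαn i hi, hc0]
      have := h2 i
      dsimp only
      split_ifs <;> omega
  refine ⟨α, fun i => d i - α i, fun i => by have := hαle i; show α i + (d i - α i) = d i; omega,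
    ?_, ?_, hαA⟩
  · intro k hk
    have hcast : ((cx α univ k + cx (fun i => d i - α i) univ k : ℕ) : ZMod 2) = 0 := by
      unfold cx
      push_cast
      rw [← Finset.sum_add_distrib]
      set F : Fin s → ZMod 2 := fun i => (if α i = k then (1 : ZMod 2) else 0) +
        (if d i - α i = k then (1 : ZMod 2) else 0) with hF
      set H : ℕ → ZMod 2 := fun e => (if c0 e = k then (1 : ZMod 2) else 0) +
        (if e - c0 e = k then (1 : ZMod 2) else 0) with hH
      show ∑ i, F i = 0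
      have h1 : ∑ i ∈ A.image p, F i = 0 := by
        rw [Finset.sum_image (fun a ha b hb hab => hinj a ha b hb hab), ← hA3 k hk]
        refine Finset.sum_congr rfl (fun a ha => ?_)
        rw [hF]
        dsimp only
        rw [hαA a ha, hp1 a ha]
      have h4' : ∑ i ∈ univ \ A.image p, F i = ∑ i ∈ univ \ A.image p, H (d i) := by
        refine Finset.sum_congr rfl (fun i hi => ?_)
        rw [hF, hH]
        dsimp only
        rw [hαn i (Finset.mem_sdiff.1 hi).2]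
      have h5 := Finset.sum_sdiff (f := F) (Finset.subset_univ (A.image p))
      rw [h1, add_zero, h4', hvan H (by
        show (if c0 2 = k then (1 : ZMod 2) else 0) + (if 2 - c0 2 = k then (1 : ZMod 2) else 0) = 0
        have hc2 : c0 2 = 1 := rfl
        rw [hc2, if_neg (by omega), add_zero])] at h5
      exact h5.symm
    have := (ZMod.natCast_eq_zero_iff _ _).1 hcast
    omega
  · intro i hi
    have := h2 i
    show (d i = 2 → α i = 1 ∧ d i - α i = 1) ∧ (d i = 3 → α i = 1 ∧ d i - α i = 2) ∧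
      (4 ≤ d i → α i = 2 ∧ d i - α i = d i - 2)
    rw [hαn i hi, hc0]
    dsimp only
    split_ifs <;> omega

/-- parts from the dual condition -/
theorem dual_parts2 {G : SimpleGraph V} {s : ℕ} {v : Fin s → V} (h : IsSpine G v) (hs : 0 < s)
    (M : ℕ) (hM : ∀ i, deg G (v i) ≤ M) (hM4 : 4 ≤ M + 1)
    (hrich : ∀ i, 30 * (M + 1) ≤ {j | deg G (v j) = deg G (v i)}.ncard)
    (hdual : ∀ f : ℕ → ZMod 2, f 0 = 0 → f 1 = 0 →
      (∀ i, ∀ k, k ≤ deg G (v i) → f k + f (deg G (v i) - k) = f (deg G (v i))) →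
      ∑ i, f (deg G (v i)) = 0) :
    ∃ (P : Finset (Fin s)) (a b : Fin s → ℕ), P.card ≤ 2 * (M + 1) ∧
      (∀ i ∈ P, ∀ j ∈ P, i < j → ∃ k : Fin s, i < k ∧ k < j ∧ 3 ≤ deg G (v k)) ∧
      (∀ i, a i + b i = deg G (v i)) ∧ (∀ i ∈ P, a i ≠ 1 ∨ b i ≠ 1) ∧
      (∀ k, 2 ≤ k → (cx a univ k + cx b univ k) % 2 = 0) ∧
      (∀ i, i ∉ P → (deg G (v i) = 2 → a i = 1 ∧ b i = 1) ∧
      (deg G (v i) = 3 → a i = 1 ∧ b i = 2) ∧ (4 ≤ deg G (v i) → a i = 2 ∧ b i = deg G (v i) - 2)) ∧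
      (univ.filter (fun i => i ∉ P ∧ deg G (v i) = 3)).card % 2 = 0 := by
  classical
  set d : Fin s → ℕ := fun i => deg G (v i) with hd
  have h2d : ∀ i, 2 ≤ d i := h.two
  have hr : ∀ i, 30 * (M + 1) ≤ (univ.filter (fun j => d j = d i)).card := by
    intro i
    have h1 := hrich i
    rw [Set.ncard_eq_toFinset_card'] at h1
    refine h1.trans (Finset.card_le_card (fun j hj => ?_))
    rw [Set.mem_toFinset] at hj
    exact Finset.mem_filter.2 ⟨Finset.mem_univ _, hj⟩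
  set S : Finset ℕ := univ.image d with hS
  have hSm : ∀ e, e ∈ S ↔ ∃ i, d i = e := by
    intro e
    rw [hS, Finset.mem_image]
    exact ⟨fun ⟨i, _, hi⟩ => ⟨i, hi⟩, fun ⟨i, hi⟩ => ⟨i, Finset.mem_univ _, hi⟩⟩
  have hSM : ∀ e ∈ S, e ≤ M := by
    intro e he
    obtain ⟨i, rfl⟩ := (hSm e).1 he
    exact hM i
  obtain ⟨A, hAc, hA1, hA2', hA3, hA21, hA22⟩ := arcs_two S
    (fun e => ∑ i, (if d i = e then (1 : ZMod 2) else 0)) M hSM (by
      intro f h0 h1 hf
      have h2 := hdual f h0 h1 (fun i k hk => hf (d i) ((hSm _).2 ⟨i, rfl⟩) k hk)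
      have h3 : ∑ e ∈ S, (∑ i, (if d i = e then (1 : ZMod 2) else 0)) * f e = ∑ i, f (d i) := by
        simp only [Finset.sum_mul]
        rw [Finset.sum_comm]
        refine Finset.sum_congr rfl (fun i _ => ?_)
        rw [Finset.sum_eq_single (d i)]
        · simp
        · intro b _ hb; simp [Ne.symm hb]
        · intro hn; exact absurd ((hSm _).2 ⟨i, rfl⟩) hn
      rw [h3]
      exact h2)
  have hA2 : ∀ e, e ≠ 2 → ∑ a ∈ A, (if a.1 = e then (1 : ZMod 2) else 0) =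
      ∑ i, (if d i = e then (1 : ZMod 2) else 0) := by
    intro e he2
    by_cases he : e ∈ S
    · exact hA2' e he he2
    · rw [Finset.sum_eq_zero, Finset.sum_eq_zero]
      · intro i _
        exact if_neg (fun hh => he ((hSm _).2 ⟨i, hh⟩))
      · intro a ha
        exact if_neg (fun hh : a.1 = e => he (by rw [← hh]; exact (hA1 a ha).1))
  obtain ⟨p, hp1, hpn⟩ := place_sep d hs A
    (fun a ha => by
      obtain ⟨i, hi⟩ := (hSm _).1 (hA1 a ha).1
      rw [← hi]; exact h2d i) hA22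
    (fun a ha ha2 => by
      obtain ⟨i, hi⟩ := (hSm _).1 (hA1 a ha).1
      exact ⟨i, by rw [hi, ha2]⟩)
    (fun a ha _ => by
      obtain ⟨i, hi⟩ := (hSm _).1 (hA1 a ha).1
      have h1 := hr i
      rw [← hi]
      refine le_trans ?_ h1
      omega)
  have hp2 : ∀ a ∈ A, ∀ b ∈ A, a ≠ b → (p a : ℕ) + 1 < p b ∨ (p b : ℕ) + 1 < p a := by
    intro a ha b hb hab
    rcases hpn a ha b hb hab with h1 | h1
    · obtain ⟨k, k1, k2, _⟩ := nu_between d h1
      have k1' : (p a : ℕ) < k := k1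
      have k2' : (k : ℕ) < p b := k2
      omega
    · obtain ⟨k, k1, k2, _⟩ := nu_between d h1
      have k1' : (p b : ℕ) < k := k1
      have k2' : (k : ℕ) < p a := k2
      omega
  obtain ⟨hQ2, a, b, hab, hpar, hn, haA⟩ := mixed_parts2 d h2d A
    (fun a ha => (hA1 a ha).2) hA2 hA3 p hp1 hp2
  have hPc : (A.image p).card ≤ 2 * (M + 1) := Finset.card_image_le.trans hAc
  refine ⟨A.image p, a, b, hPc, ?_, hab, ?_, hpar, hn, hQ2⟩
  · intro i hi j hj hij
    obtain ⟨a', ha', rfl⟩ := Finset.mem_image.1 hi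
    obtain ⟨b', hb', rfl⟩ := Finset.mem_image.1 hj
    rcases hpn a' ha' b' hb' (fun hh => absurd hij (by rw [hh]; exact lt_irrefl _)) with h1 | h1
    · exact nu_between d h1
    · obtain ⟨k, k1, k2, _⟩ := nu_between d h1
      exact absurd (k1.trans k2) (not_lt.2 hij.le)
  · intro i hi
    obtain ⟨c, hc, rfl⟩ := Finset.mem_image.1 hi
    by_contra hno
    push Not at hno
    have e1 := haA c hc
    have e2 := hp1 c hc
    have e3 := hab (p c)
    have e4 : c = (2, 1) := Prod.ext (by show c.1 = 2; omega) (by show c.2 = 1; omega)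
    exact hA21 (e4 ▸ hc)

/-- choice of separated vertices -/
theorem pick_sep {s : ℕ} (d : Fin s → ℕ) : ∀ (n : ℕ) (T : Finset (Fin s)), (∀ i ∈ T, 3 ≤ d i) →
    3 * n ≤ T.card → ∃ R ⊆ T, R.card = n ∧ ∀ i ∈ R, ∀ j ∈ R, i ≠ j →
      nu d i + 2 ≤ nu d j ∨ nu d j + 2 ≤ nu d i := by
  classical
  intro n
  induction n with
  | zero => intro T _ _; exact ⟨∅, Finset.empty_subset _, rfl, fun i hi => by simp at hi⟩
  | succ n ih =>
    intro T hT hc
    obtain ⟨i0, hi0⟩ := Finset.card_pos.1 (by omega : 0 < T.card)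
    have h1 : T.card ≤ (T.filter (fun i => ¬ (nu d i ≤ nu d i0 + 1 ∧ nu d i0 ≤ nu d i + 1))).card +
        3 := by
      have h2 := Finset.card_filter_add_card_filter_not (s := T)
        (fun i => nu d i ≤ nu d i0 + 1 ∧ nu d i0 ≤ nu d i + 1)
      have h3 : (T.filter (fun i => nu d i ≤ nu d i0 + 1 ∧ nu d i0 ≤ nu d i + 1)).card ≤ 3 := by
        refine le_trans (Finset.card_le_card (fun i hi => ?_)) (nu_three d (nu d i0))
        obtain ⟨h4, h5, h6⟩ := Finset.mem_filter.1 hi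
        exact Finset.mem_filter.2 ⟨Finset.mem_univ _, hT i h4, h5, h6⟩
      omega
    obtain ⟨R, hR1, hR2, hR3⟩ := ih
      (T.filter (fun i => ¬ (nu d i ≤ nu d i0 + 1 ∧ nu d i0 ≤ nu d i + 1)))
      (fun i hi => hT i (Finset.mem_filter.1 hi).1) (by omega)
    have hfar : ∀ i ∈ R, nu d i + 2 ≤ nu d i0 ∨ nu d i0 + 2 ≤ nu d i := by
      intro i hi
      have := (Finset.mem_filter.1 (hR1 hi)).2
      omega
    have hi0R : i0 ∉ R := by
      intro hh
      have := hfar i0 hh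
      omega
    refine ⟨insert i0 R, ?_, ?_, ?_⟩
    · intro i hi
      rcases Finset.mem_insert.1 hi with h2 | h2
      · rw [h2]; exact hi0
      · exact (Finset.mem_filter.1 (hR1 h2)).1
    · rw [Finset.card_insert_of_notMem hi0R, hR2]
    · intro i hi j hj hij
      rcases Finset.mem_insert.1 hi with h2 | h2 <;> rcases Finset.mem_insert.1 hj with h3 | h3
      · exact absurd (h2.trans h3.symm) hij
      · rw [h2]; exact (hfar j h3).symm
      · rw [h3]; exact hfar i h2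
      · exact hR3 i h2 j h3 hij

/-- choice of separated vertices of two kinds -/
theorem pick_sep2 {s : ℕ} (d : Fin s → ℕ) (n : ℕ) (T0 T1 : Finset (Fin s))
    (hT0 : ∀ i ∈ T0, 3 ≤ d i) (hT1 : ∀ i ∈ T1, 3 ≤ d i) (hc0 : 3 * n ≤ T0.card)
    (hc1 : 6 * n ≤ T1.card) : ∃ R0 ⊆ T0, ∃ R1 ⊆ T1, R0.card = n ∧ R1.card = n ∧
      ∀ i ∈ R0 ∪ R1, ∀ j ∈ R0 ∪ R1, i ≠ j → nu d i + 2 ≤ nu d j ∨ nu d j + 2 ≤ nu d i := by
  classical
  obtain ⟨R0, a1, a2, a3⟩ := pick_sep d n T0 hT0 hc0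
  set T := T1.filter (fun i => ∀ j ∈ R0, ¬ (nu d i ≤ nu d j + 1 ∧ nu d j ≤ nu d i + 1)) with hT
  have h1 : T1.card ≤ T.card + 3 * n := by
    have h2 := Finset.card_filter_add_card_filter_not (s := T1)
      (fun i => ∀ j ∈ R0, ¬ (nu d i ≤ nu d j + 1 ∧ nu d j ≤ nu d i + 1))
    have h3 : (T1.filter (fun i => ¬ ∀ j ∈ R0, ¬ (nu d i ≤ nu d j + 1 ∧ nu d j ≤ nu d i + 1))).card
        ≤ R0.card * 3 := by
      have hsub : T1.filter (fun i => ¬ ∀ j ∈ R0, ¬ (nu d i ≤ nu d j + 1 ∧ nu d j ≤ nu d i + 1)) ⊆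
          R0.biUnion (fun j => univ.filter (fun i : Fin s => 3 ≤ d i ∧ nu d i ≤ nu d j + 1 ∧
            nu d j ≤ nu d i + 1)) := by
        intro i hi
        obtain ⟨h4, h5⟩ := Finset.mem_filter.1 hi
        push Not at h5
        obtain ⟨j, hj, h6, h7⟩ := h5
        exact Finset.mem_biUnion.2 ⟨j, hj, Finset.mem_filter.2 ⟨Finset.mem_univ _, hT1 i h4, h6, h7⟩⟩
      exact (Finset.card_le_card hsub).trans (Finset.card_biUnion_le_card_mul _ _ _
        (fun j _ => nu_three d (nu d j)))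
    rw [← hT] at h2
    omega
  obtain ⟨R1, b1, b2, b3⟩ := pick_sep d n T (fun i hi => hT1 i (Finset.mem_filter.1 hi).1) (by omega)
  have hfar : ∀ i ∈ R1, ∀ j ∈ R0, nu d i + 2 ≤ nu d j ∨ nu d j + 2 ≤ nu d i := by
    intro i hi j hj
    have := (Finset.mem_filter.1 (b1 hi)).2 j hj
    omega
  refine ⟨R0, a1, R1, b1.trans (Finset.filter_subset _ _), a2, b2, fun i hi j hj hij => ?_⟩
  rcases Finset.mem_union.1 hi with h2 | h2 <;> rcases Finset.mem_union.1 hj with h3 | h3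
  · exact a3 i h2 j h3 hij
  · exact (hfar j h3 i h2).symm
  · exact hfar i h2 j h3
  · exact b3 i h2 j h3 hij

theorem rep_const (r : ℕ → Prop) [DecidablePred r] {a b : ℕ} (ha : ¬ r a)
    (hr : ∀ k, a < k → k < b → r k) (t : ℕ) (h1 : a ≤ t) (h2 : t < b) : rep r t = a := by
  induction t with
  | zero =>
    have : a = 0 := by omega
    rw [this]; rfl
  | succ t ih =>
    rcases Nat.lt_or_ge t a with h3 | h3
    · have h4 : t + 1 = a := by omega
      rw [h4]; exact rep_not r ha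
    · have h6 : rep r (t + 1) = rep r t := by
        rw [rep, if_pos (hr (t + 1) (by omega) h2)]
      rw [h6]
      exact ih h3 (by omega)

/-- a class filling an even interval is even -/
theorem even_class (r : ℕ → Prop) [DecidablePred r] (n a b : ℕ) (hab : a < b) (hbn : b ≤ n)
    (hev : (b - a) % 2 = 0) (hb : ¬ r b) (hin : ∀ t, a ≤ t → t < b → rep r t = a) :
    cs r n a = 0 := by
  unfold cs
  have h1 : (range n).filter (fun t => rep r t = a) = Finset.Ico a b := by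
    ext t
    rw [Finset.mem_filter, Finset.mem_range, Finset.mem_Ico]
    constructor
    · rintro ⟨h1, h2⟩
      have h5 := rep_le r t
      refine ⟨by omega, ?_⟩
      by_contra h6
      have := le_rep r hb (t := t) (by omega)
      omega
    · rintro ⟨h1, h2⟩
      exact ⟨by omega, hin t h1 h2⟩
  rw [h1, Finset.sum_Ico_eq_sub _ hab.le, sum_sgn, sum_sgn]
  split_ifs <;> omega

/-- the case without spine vertices of degree three kept aside -/
theorem core_split0 {G : SimpleGraph V} {s : ℕ} {v : Fin s → V} (h : IsSpine G v)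
    (P : Finset (Fin s)) (x0 y0 : Fin s → ℕ) (hxy0 : ∀ i, x0 i + y0 i = deg G (v i))
    (hsp : ∀ i ∈ P, x0 i ≠ 1 ∨ y0 i ≠ 1)
    (hbig0 : ∀ i, i ∉ P → deg G (v i) ≠ 2 → 2 ≤ x0 i ∧ 2 ≤ y0 i)
    (htwo0 : ∀ i, i ∉ P → deg G (v i) = 2 → x0 i = 1 ∧ y0 i = 1)
    (hb : ∀ k, 2 ≤ k → cx x0 univ k = cx y0 univ k)
    (r : ℕ → Prop) [DecidablePred r] (GG : Finset ℕ)
    (hrig : ∀ i : Fin s, i ∉ P → deg G (v i) = 2 → 1 ≤ (i : ℕ) → (i : ℕ) < s - 1 →
      (rep r (i : ℕ) ∈ GG ↔ rep r ((i : ℕ) - 1) ∈ GG))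
    (hPw : ∀ i ∈ P, ∀ t, t < s - 1 → (t = (i : ℕ) ∨ t + 1 = (i : ℕ)) →
      (rep r t ∈ GG ↔ t % 2 = if x0 i ≤ 1 then 0 else 1))
    (hsum : 2 * ∑ u ∈ GG, cs r (s - 1) u = (((s - 1 : ℕ) : ℤ) % 2) +
      (cx x0 univ 0 : ℕ) - (cx y0 univ 0 : ℕ)) : Splittable G := by
  classical
  refine core_split h P ∅ x0 y0 hxy0 hsp (fun i hi _ => hbig0 i hi) htwo0 (fun i hi => by
    simp at hi) 0 (Nat.zero_le _) (fun k hk => ?_) r (fun i hi => by simp at hi) GG hrig hPw ?_
    (Or.inl rfl)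
  · rw [Finset.sdiff_empty, hb k hk]
    split_ifs <;> simp
  · rw [Finset.sdiff_empty]; exact hsum

theorem cx_three {I : Type} [DecidableEq I] {R S H : Finset I} (hS : S ⊆ R) (hH : H ⊆ R \ S)
    (x : I → ℕ) (e1 e2 e3 k : ℕ) (h1 : ∀ i ∈ S, x i = e1) (h2 : ∀ i ∈ H, x i = e2)
    (h3 : ∀ i ∈ (R \ S) \ H, x i = e3) :
    cx x R k = (if e1 = k then S.card else 0) + (if e2 = k then H.card else 0) +
      (if e3 = k then R.card - S.card - H.card else 0) := by
  unfold cx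
  rw [← Finset.sum_sdiff hS, ← Finset.sum_sdiff hH]
  have c : ∀ (T : Finset I) (e : ℕ), (∀ i ∈ T, x i = e) →
      ∑ i ∈ T, (if x i = k then 1 else 0) = if e = k then T.card else 0 := by
    intro T e hT
    rw [Finset.sum_congr rfl (fun i hi => by rw [hT i hi]), Finset.sum_const]
    split_ifs <;> simp
  rw [c _ _ h1, c _ _ h2, c _ _ h3, Finset.card_sdiff_of_subset hH,
    Finset.card_sdiff_of_subset hS]
  ring

end Pool.Agent.W_e8e3a0
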