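import Pool.Agent.W_e8e3a0.ConsA49

/-! Splittings from two consecutive frequent spine degrees. -/

namespace Pool.Agent.W_e8e3a0

open Finset Num49

variable {V : Type} [Fintype V]

/-- the parts on the chosen vertices -/
theorem cons_assign {s : ℕ} (d : Fin s → ℕ) (c J j w : ℕ) (hw : w ≤ 1) (hc : 4 ≤ c)
    (R0 R1 S0 H0 S1 H1 : Finset (Fin s)) (hR : Disjoint R0 R1) (hR0 : ∀ i ∈ R0, d i = c)
    (hR1 : ∀ i ∈ R1, d i = c + 1) (hS0 : S0 ⊆ R0) (hH0 : H0 ⊆ R0 \ S0) (hS1 : S1 ⊆ R1)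
    (hH1 : H1 ⊆ R1 \ S1) (c0 : R0.card = 2 * J) (c1 : R1.card = 2 * J) (c2 : S0.card = 2 * j)
    (c3 : S1.card = 2 * j) (c4 : H0.card + j = J) (c5 : H1.card + j = J)
    (x0 y0 : Fin s → ℕ) (hxy0 : ∀ i, x0 i + y0 i = d i)
    (hb : ∀ k, 2 ≤ k → cx x0 (univ \ (R0 ∪ R1)) k = cx y0 (univ \ (R0 ∪ R1)) k)
    (x y : Fin s → ℕ)
    (hx : x = fun i => if i ∈ S0 then c * w else if i ∈ S1 then c * (1 - w) + w else
      if i ∈ H0 ∪ H1 then 2 else if i ∈ R0 ∪ R1 then d i - 2 else x0 i)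
    (hy : y = fun i => if i ∈ S0 then c * (1 - w) else if i ∈ S1 then c * w + (1 - w) else
      if i ∈ H0 ∪ H1 then d i - 2 else if i ∈ R0 ∪ R1 then 2 else y0 i) :
    (∀ i, x i + y i = d i) ∧ (∀ k, 2 ≤ k → cx x univ k = cx y univ k) ∧
      cx x univ 0 = cx x0 (univ \ (R0 ∪ R1)) 0 + (1 - w) * (2 * j) ∧
      cx y univ 0 = cx y0 (univ \ (R0 ∪ R1)) 0 + w * (2 * j) := by
  classical
  have hw2 : w = 0 ∨ w = 1 := by omega
  have nR : ∀ i, i ∈ R0 → i ∉ R1 := fun i h1 h2 => (Finset.disjoint_left.1 hR) h1 h2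
  have eS0 : ∀ i ∈ S0, x i = c * w ∧ y i = c * (1 - w) := by
    intro i hi
    rw [hx, hy]
    exact ⟨if_pos hi, if_pos hi⟩
  have eS1 : ∀ i ∈ S1, x i = c * (1 - w) + w ∧ y i = c * w + (1 - w) := by
    intro i hi
    have h1 : i ∉ S0 := fun hh => nR i (hS0 hh) (hS1 hi)
    rw [hx, hy]
    dsimp only
    rw [if_neg h1, if_neg h1, if_pos hi, if_pos hi]
    exact ⟨rfl, rfl⟩
  have eH : ∀ i, i ∉ S0 → i ∉ S1 → i ∈ H0 ∪ H1 → x i = 2 ∧ y i = d i - 2 := by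
    intro i h1 h2 h3
    rw [hx, hy]
    dsimp only
    rw [if_neg h1, if_neg h1, if_neg h2, if_neg h2, if_pos h3, if_pos h3]
    exact ⟨rfl, rfl⟩
  have eT : ∀ i, i ∉ S0 → i ∉ S1 → i ∉ H0 ∪ H1 → i ∈ R0 ∪ R1 → x i = d i - 2 ∧ y i = 2 := by
    intro i h1 h2 h3 h4
    rw [hx, hy]
    dsimp only
    rw [if_neg h1, if_neg h1, if_neg h2, if_neg h2, if_neg h3, if_neg h3, if_pos h4, if_pos h4]
    exact ⟨rfl, rfl⟩
  have hH0R : ∀ i ∈ H0, i ∈ R0 ∧ i ∉ S0 := fun i hi => Finset.mem_sdiff.1 (hH0 hi)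
  have hH1R : ∀ i ∈ H1, i ∈ R1 ∧ i ∉ S1 := fun i hi => Finset.mem_sdiff.1 (hH1 hi)
  have eU : ∀ i, i ∉ R0 ∪ R1 → x i = x0 i ∧ y i = y0 i := by
    intro i h4
    rw [Finset.mem_union, not_or] at h4
    have h1 : i ∉ S0 := fun hh => h4.1 (hS0 hh)
    have h2 : i ∉ S1 := fun hh => h4.2 (hS1 hh)
    have h3 : i ∉ H0 ∪ H1 := by
      rw [Finset.mem_union, not_or]
      exact ⟨fun hh => h4.1 (hH0R i hh).1, fun hh => h4.2 (hH1R i hh).1⟩
    have h4' : i ∉ R0 ∪ R1 := by rw [Finset.mem_union, not_or]; exact h4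
    rw [hx, hy]
    dsimp only
    rw [if_neg h1, if_neg h1, if_neg h2, if_neg h2, if_neg h3, if_neg h3, if_neg h4', if_neg h4']
    exact ⟨rfl, rfl⟩
  have eH0 : ∀ i ∈ H0, x i = 2 ∧ y i = c - 2 := by
    intro i hi
    have h1 := hH0R i hi
    have h2 := eH i h1.2 (fun hh => nR i h1.1 (hS1 hh)) (Finset.mem_union_left _ hi)
    rw [hR0 i h1.1] at h2
    exact h2
  have eH1 : ∀ i ∈ H1, x i = 2 ∧ y i = c - 1 := by
    intro i hi
    have h1 := hH1R i hi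
    have h2 := eH i (fun hh => nR i (hS0 hh) h1.1) h1.2 (Finset.mem_union_right _ hi)
    rw [hR1 i h1.1] at h2
    exact ⟨h2.1, by omega⟩
  have eT0 : ∀ i ∈ (R0 \ S0) \ H0, x i = c - 2 ∧ y i = 2 := by
    intro i hi
    obtain ⟨h1, h2⟩ := Finset.mem_sdiff.1 hi
    obtain ⟨h3, h4⟩ := Finset.mem_sdiff.1 h1
    have h5 := eT i h4 (fun hh => nR i h3 (hS1 hh)) (by
      rw [Finset.mem_union, not_or]
      exact ⟨h2, fun hh => nR i h3 (hH1R i hh).1⟩) (Finset.mem_union_left _ h3)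
    rw [hR0 i h3] at h5
    exact h5
  have eT1 : ∀ i ∈ (R1 \ S1) \ H1, x i = c - 1 ∧ y i = 2 := by
    intro i hi
    obtain ⟨h1, h2⟩ := Finset.mem_sdiff.1 hi
    obtain ⟨h3, h4⟩ := Finset.mem_sdiff.1 h1
    have h5 := eT i (fun hh => nR i (hS0 hh) h3) h4 (by
      rw [Finset.mem_union, not_or]
      exact ⟨fun hh => nR i (hH0R i hh).1 h3, h2⟩) (Finset.mem_union_right _ h3)
    rw [hR1 i h3] at h5
    exact ⟨by omega, h5.2⟩
  have fx0 := fun k => cx_three hS0 hH0 x (c * w) 2 (c - 2) k (fun i hi => (eS0 i hi).1)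
    (fun i hi => (eH0 i hi).1) (fun i hi => (eT0 i hi).1)
  have fx1 := fun k => cx_three hS1 hH1 x (c * (1 - w) + w) 2 (c - 1) k
    (fun i hi => (eS1 i hi).1) (fun i hi => (eH1 i hi).1) (fun i hi => (eT1 i hi).1)
  have fy0 := fun k => cx_three hS0 hH0 y (c * (1 - w)) (c - 2) 2 k (fun i hi => (eS0 i hi).2)
    (fun i hi => (eH0 i hi).2) (fun i hi => (eT0 i hi).2)
  have fy1 := fun k => cx_three hS1 hH1 y (c * w + (1 - w)) (c - 1) 2 k
    (fun i hi => (eS1 i hi).2) (fun i hi => (eH1 i hi).2) (fun i hi => (eT1 i hi).2)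
  have hsp : ∀ (z z0 : Fin s → ℕ), (∀ i, i ∉ R0 ∪ R1 → z i = z0 i) → ∀ k,
      cx z univ k = cx z0 (univ \ (R0 ∪ R1)) k + (cx z R0 k + cx z R1 k) := by
    intro z z0 hz k
    rw [← cx_union hR, ← cx_congr (x := z) (x' := z0) (fun i hi => hz i (Finset.mem_sdiff.1 hi).2)]
    unfold cx
    exact (Finset.sum_sdiff (Finset.subset_univ (R0 ∪ R1))).symm
  have gx := hsp x x0 (fun i hi => (eU i hi).1)
  have gy := hsp y y0 (fun i hi => (eU i hi).2)
  rw [c0, c2] at fx0 fy0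
  rw [c1, c3] at fx1 fy1
  refine ⟨?_, ?_, ?_, ?_⟩
  · intro i
    by_cases h4 : i ∈ R0 ∪ R1
    · by_cases h1 : i ∈ S0
      · rw [(eS0 i h1).1, (eS0 i h1).2, hR0 i (hS0 h1)]
        rcases hw2 with h | h <;> rw [h] <;> simp
      · by_cases h2 : i ∈ S1
        · rw [(eS1 i h2).1, (eS1 i h2).2, hR1 i (hS1 h2)]
          rcases hw2 with h | h <;> rw [h] <;> simp
          omega
        · have h5 : 4 ≤ d i := by
            rcases Finset.mem_union.1 h4 with h6 | h6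
            · rw [hR0 i h6]; exact hc
            · rw [hR1 i h6]; omega
          by_cases h3 : i ∈ H0 ∪ H1
          · rw [(eH i h1 h2 h3).1, (eH i h1 h2 h3).2]; omega
          · rw [(eT i h1 h2 h3 h4).1, (eT i h1 h2 h3 h4).2]; omega
    · rw [(eU i h4).1, (eU i h4).2]; exact hxy0 i
  · intro k hk
    have h1 := fx0 k
    have h2 := fx1 k
    have h3 := fy0 k
    have h4 := fy1 k
    rw [gx, gy, h1, h2, h3, h4, hb k hk]
    have e1 : 2 * J - 2 * j - H0.card = H0.card := by omega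
    have e2 : 2 * J - 2 * j - H1.card = H1.card := by omega
    rw [e1, e2]
    rcases hw2 with h | h <;> rw [h] <;> simp only [Nat.mul_zero, Nat.mul_one, Nat.sub_zero,
      Nat.sub_self, Nat.zero_add, Nat.add_zero]
    · rw [if_neg (by omega : ¬ 0 = k), if_neg (by omega : ¬ 1 = k)]
      ring
    · rw [if_neg (by omega : ¬ 0 = k), if_neg (by omega : ¬ 1 = k)]
      ring
  · have h1 := fx0 0
    have h2 := fx1 0
    rw [gx, h1, h2, if_neg (by omega : ¬ 2 = 0), if_neg (by omega : ¬ c - 2 = 0),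
      if_neg (by omega : ¬ c - 1 = 0)]
    rcases hw2 with h | h <;> rw [h] <;> simp
    · omega
    · omega
  · have h1 := fy0 0
    have h2 := fy1 0
    rw [gy, h1, h2, if_neg (by omega : ¬ 2 = 0), if_neg (by omega : ¬ c - 2 = 0),
      if_neg (by omega : ¬ c - 1 = 0)]
    rcases hw2 with h | h <;> rw [h] <;> simp
    · omega
    · omega

end Pool.Agent.W_e8e3a0
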