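import Pool.Agent.W_e8e3a0.ConsB49

/-! Splittings from two consecutive frequent spine degrees. -/

namespace Pool.Agent.W_e8e3a0

open Finset Num49

variable {V : Type} [Fintype V]

/-- two consecutive frequent spine degrees inside even gaps -/
theorem cons_split {G : SimpleGraph V} {s : ℕ} {v : Fin s → V} (h : IsSpine G v)
    (hev : Even G.edgeSet.ncard) (P : Finset (Fin s))
    (hP : ∀ i ∈ P, ∀ j ∈ P, i < j → ∃ k : Fin s, i < k ∧ k < j ∧ 3 ≤ deg G (v k))
    (a b : Fin s → ℕ) (hab : ∀ i, a i + b i = deg G (v i)) (hPs : ∀ i ∈ P, a i ≠ 1 ∨ b i ≠ 1)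
    (hpar : ∀ k, 2 ≤ k → (cx a univ k + cx b univ k) % 2 = 0)
    (hn : ∀ i, i ∉ P → (deg G (v i) = 2 → a i = 1 ∧ b i = 1) ∧
      (4 ≤ deg G (v i) → a i = 2 ∧ b i = deg G (v i) - 2))
    (hno3 : ∀ i, deg G (v i) ≠ 3) (c : ℕ) (hc : 4 ≤ c) (R0 R1 : Finset (Fin s))
    (hR0 : ∀ i ∈ R0, deg G (v i) = c) (hR1 : ∀ i ∈ R1, deg G (v i) = c + 1)
    (c0 : R0.card = 2 * (2 * P.card + 1)) (c1 : R1.card = 2 * (2 * P.card + 1))
    (pv nx : Fin s → Fin s)
    (hg : ∀ i ∈ R0 ∪ R1, pv i < i ∧ i < nx i ∧ ((i : ℕ) - pv i) % 2 = 0 ∧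
      ((nx i : ℕ) - i) % 2 = 0 ∧ 3 ≤ deg G (v (pv i)) ∧ 3 ≤ deg G (v (nx i)) ∧
      (∀ k, pv i < k → k < i → deg G (v k) = 2) ∧ (∀ k, i < k → k < nx i → deg G (v k) = 2) ∧
      ∀ q ∈ P, ¬ (pv i ≤ q ∧ q ≤ nx i))
    (hfar : ∀ i ∈ R0 ∪ R1, ∀ j ∈ R0 ∪ R1, i ≠ j → nx i ≤ pv j ∨ nx j ≤ pv i) :
    Splittable G := by
  classical
  have h2d : ∀ i, 2 ≤ deg G (v i) := h.two
  have hR : Disjoint R0 R1 := by
    rw [Finset.disjoint_left]
    intro i h1 h2
    have := hR0 i h1
    have := hR1 i h2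
    omega
  have hRP : ∀ i ∈ R0 ∪ R1, i ∉ P := fun i hi hh => (hg i hi).2.2.2.2.2.2.2.2 i hh
    ⟨(hg i hi).1.le, (hg i hi).2.1.le⟩
  have hRd : ∀ i ∈ R0 ∪ R1, 4 ≤ deg G (v i) := by
    intro i hi
    rcases Finset.mem_union.1 hi with h6 | h6
    · rw [hR0 i h6]; exact hc
    · rw [hR1 i h6]; omega
  set J := 2 * P.card + 1 with hJ
  set U := univ \ (R0 ∪ R1) with hU
  have hsp : ∀ (z : Fin s → ℕ) k, cx z univ k = cx z U k + (cx z R0 k + cx z R1 k) := by
    intro z k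
    rw [← cx_union hR]
    unfold cx
    exact (Finset.sum_sdiff (Finset.subset_univ (R0 ∪ R1))).symm
  have hparU : ∀ k, 2 ≤ k → (cx a U k + cx b U k) % 2 = 0 := by
    intro k hk
    have h1 := hpar k hk
    rw [hsp a, hsp b] at h1
    have g : ∀ (R : Finset (Fin s)) (z : Fin s → ℕ) (e : ℕ), R.card = 2 * J → (∀ i ∈ R, z i = e) →
        (cx z R k) % 2 = 0 := by
      intro R z e hRc hz
      unfold cx
      rw [Finset.sum_congr rfl (fun i hi => by rw [hz i hi]), Finset.sum_const, hRc, smul_eq_mul,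
        Nat.mul_assoc]
      exact Nat.mul_mod_right 2 _
    have g1 := g R0 a 2 c0 (fun i hi => ((hn i (hRP i (Finset.mem_union_left _ hi))).2
      (hRd i (Finset.mem_union_left _ hi))).1)
    have g2 := g R0 b (c - 2) c0 (fun i hi => by
      rw [((hn i (hRP i (Finset.mem_union_left _ hi))).2
        (hRd i (Finset.mem_union_left _ hi))).2, hR0 i hi])
    have g3 := g R1 a 2 c1 (fun i hi => ((hn i (hRP i (Finset.mem_union_right _ hi))).2
      (hRd i (Finset.mem_union_right _ hi))).1)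
    have g4 := g R1 b (c + 1 - 2) c1 (fun i hi => by
      rw [((hn i (hRP i (Finset.mem_union_right _ hi))).2
        (hRd i (Finset.mem_union_right _ hi))).2, hR1 i hi])
    omega
  obtain ⟨x0, y0, hsw, hb⟩ := orient U.card U a b rfl hparU
  have hxy0 : ∀ i, x0 i + y0 i = deg G (v i) := by
    intro i
    have h1 := hab i
    rcases hsw i with ⟨h2, h3⟩ | ⟨h2, h3⟩ <;> omega
  have hbig0 : ∀ i, i ∉ P → deg G (v i) ≠ 2 → 2 ≤ x0 i ∧ 2 ≤ y0 i := by
    intro i hi hi2
    have h0 := h2d i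
    have hne3 := hno3 i
    have h1 := (hn i hi).2 (by omega)
    rcases hsw i with ⟨h2, h3⟩ | ⟨h2, h3⟩ <;> omega
  have htwo0 : ∀ i, i ∉ P → deg G (v i) = 2 → x0 i = 1 ∧ y0 i = 1 := by
    intro i hi hi2
    have h1 := (hn i hi).1 hi2
    rcases hsw i with ⟨h2, h3⟩ | ⟨h2, h3⟩ <;> omega
  have hzle : ∀ z : Fin s → ℕ, (∀ i, i ∉ P → 1 ≤ z i) → cx z U 0 ≤ P.card := by
    intro z hz
    unfold cx
    rw [← Finset.card_filter]
    refine Finset.card_le_card (fun i hi => ?_)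
    obtain ⟨h1, h2⟩ := Finset.mem_filter.1 hi
    by_contra hno
    have := hz i hno
    omega
  have hone0 : ∀ i, i ∉ P → 1 ≤ x0 i ∧ 1 ≤ y0 i := by
    intro i hi
    by_cases hi2 : deg G (v i) = 2
    · have := htwo0 i hi hi2
      omega
    · have := hbig0 i hi hi2
      omega
  have z1 := hzle x0 (fun i h1 => (hone0 i h1).1)
  have z2' := hzle y0 (fun i h1 => (hone0 i h1).2)
  -- parity of the number of zeros
  have e1 := edges_eq h
  have e2 := sum_spine h
  obtain ⟨m, hm⟩ := hev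
  have hpz : (s - 1 + cx x0 U 0 + cx y0 U 0) % 2 = 0 := by
    obtain ⟨H0, hH0, hH0c⟩ := Finset.exists_subset_card_eq (s := R0 \ ∅) (n := J) (by
      rw [Finset.sdiff_empty, c0]; omega)
    obtain ⟨H1, hH1, hH1c⟩ := Finset.exists_subset_card_eq (s := R1 \ ∅) (n := J) (by
      rw [Finset.sdiff_empty, c1]; omega)
    set xx : Fin s → ℕ := fun i => if i ∈ (∅ : Finset (Fin s)) then c * 0 else
      if i ∈ (∅ : Finset (Fin s)) then c * (1 - 0) + 0 else if i ∈ H0 ∪ H1 then 2 else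
      if i ∈ R0 ∪ R1 then deg G (v i) - 2 else x0 i with hxx
    set yy : Fin s → ℕ := fun i => if i ∈ (∅ : Finset (Fin s)) then c * (1 - 0) else
      if i ∈ (∅ : Finset (Fin s)) then c * 0 + (1 - 0) else if i ∈ H0 ∪ H1 then
      deg G (v i) - 2 else if i ∈ R0 ∪ R1 then 2 else y0 i with hyy
    obtain ⟨k1, k2, k3, k4⟩ := cons_assign (fun i => deg G (v i)) c J 0 0 (by omega) hc R0 R1 ∅ H0
      ∅ H1 hR hR0 hR1 (Finset.empty_subset _) hH0 (Finset.empty_subset _) hH1 c0 c1 rfl rfl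
      hH0c hH1c x0 y0 hxy0 hb xx yy hxx hyy
    have e3 := sum_diff k2
    have e4 := zero_diff k2
    rw [k3, k4] at e4
    have e5 : ∑ i, xx i + ∑ i, yy i = 2 * (s - 1) + (offSpine v).card := by
      rw [← Finset.sum_add_distrib, ← e2]
      exact Finset.sum_congr rfl (fun i _ => k1 i)
    rw [← hU] at e4
    omega
  set zx := cx x0 U 0 with hzx
  set zy := cx y0 U 0 with hzy
  -- rigid vertices, classes of edges
  set r : ℕ → Prop := fun i => ∃ hi : i < s, (⟨i, hi⟩ : Fin s) ∉ P ∧ deg G (v ⟨i, hi⟩) = 2 with hr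
  have hrP : ∀ i ∈ P, ¬ r (i : ℕ) := by
    rintro i hi ⟨_, h1, _⟩
    exact h1 hi
  have hr3 : ∀ i : Fin s, 3 ≤ deg G (v i) → ¬ r (i : ℕ) := by
    rintro i hi ⟨_, _, h1⟩
    have h1' : deg G (v i) = 2 := h1
    omega
  set want : Fin s → ℕ := fun i => if x0 i ≤ 1 then 0 else 1 with hwant
  have hwant2 : ∀ i, want i < 2 := by
    intro i; rw [hwant]; dsimp only; split_ifs <;> omega
  set inF := (range (s - 1)).filter (fun t => ∃ p ∈ P, (t = (p : ℕ) ∨ t + 1 = (p : ℕ)) ∧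
    t % 2 = want p) with hinF
  set outF := (range (s - 1)).filter (fun t => ∃ p ∈ P, (t = (p : ℕ) ∨ t + 1 = (p : ℕ)) ∧
    ¬ t % 2 = want p) with houtF
  have hinc : inF.card ≤ P.card := by
    have h1 : inF ⊆ P.image (fun p : Fin s => if (p : ℕ) % 2 = want p then (p : ℕ) else (p : ℕ) - 1) := by
      intro t ht
      obtain ⟨_, p, hp, htp, hpar⟩ := Finset.mem_filter.1 ht
      refine Finset.mem_image.2 ⟨p, hp, ?_⟩
      have := hwant2 p
      split_ifs <;> omega
    exact (Finset.card_le_card h1).trans Finset.card_image_le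
  have houtc : outF.card ≤ P.card := by
    have h1 : outF ⊆ P.image (fun p : Fin s => if (p : ℕ) % 2 = want p then (p : ℕ) - 1 else (p : ℕ)) := by
      intro t ht
      obtain ⟨_, p, hp, htp, hpar⟩ := Finset.mem_filter.1 ht
      refine Finset.mem_image.2 ⟨p, hp, ?_⟩
      have := hwant2 p
      split_ifs <;> omega
    exact (Finset.card_le_card h1).trans Finset.card_image_le
  have hsep : ∀ t ∈ inF, ∀ t' ∈ outF, rep r t ≠ rep r t' := by
    intro t ht t' ht' heq
    obtain ⟨_, p, hp, htp, hpar⟩ := Finset.mem_filter.1 ht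
    obtain ⟨_, q, hq, htq, hpar'⟩ := Finset.mem_filter.1 ht'
    have l1 := rep_le r t
    have l2 := rep_le r t'
    rcases lt_trichotomy p q with hpq | hpq | hpq
    · obtain ⟨k, hk1, hk2, hk3⟩ := hP p hp q hq hpq
      have hk1' : (p : ℕ) < k := hk1
      have hk2' : (k : ℕ) < q := hk2
      have := le_rep r (hr3 k hk3) (t := t') (by omega)
      omega
    · subst hpq
      rcases htp with e1 | e1
      · rcases htq with e2 | e2
        · exact hpar' (by rw [e2, ← e1]; exact hpar)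
        · have := le_rep r (hrP p hp) (t := t) (by omega)
          omega
      · rcases htq with e2 | e2
        · have := le_rep r (hrP p hp) (t := t') (by omega)
          omega
        · have : t = t' := by omega
          exact hpar' (by rw [← this]; exact hpar)
    · obtain ⟨k, hk1, hk2, hk3⟩ := hP q hq p hp hpq
      have hk1' : (q : ℕ) < k := hk1
      have hk2' : (k : ℕ) < p := hk2
      have := le_rep r (hr3 k hk3) (t := t) (by omega)
      omega
  set G0 := inF.image (rep r) with hG0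
  set bad := outF.image (rep r) with hbad
  have hG0c : G0.card ≤ P.card := Finset.card_image_le.trans hinc
  have hbadc : bad.card ≤ P.card := Finset.card_image_le.trans houtc
  have hG0bad : Disjoint G0 bad := by
    rw [Finset.disjoint_left]
    intro u h1 h2
    obtain ⟨t, ht, e1⟩ := Finset.mem_image.1 h1
    obtain ⟨t', ht', e2⟩ := Finset.mem_image.1 h2
    exact hsep t ht t' ht' (e1.trans e2.symm)
  have hB0 : |∑ u ∈ G0, cs r (s - 1) u| ≤ (P.card : ℤ) := by
    refine (Finset.abs_sum_le_sum_abs _ _).trans ?_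
    refine (Finset.sum_le_sum (g := fun _ => (1 : ℤ)) (fun u _ => ?_)).trans ?_
    · rcases cs_cases r (s - 1) u with h1 | h1 <;> rw [h1]
      · simp
      · unfold sgn; split_ifs <;> simp
    · rw [Finset.sum_const, nsmul_eq_mul, mul_one]
      exact_mod_cast hG0c
  rw [abs_le] at hB0
  set B0 := ∑ u ∈ G0, cs r (s - 1) u with hB0d
  -- the classes next to the chosen vertices
  have hA : ∀ i ∈ R0 ∪ R1, ∀ t, (pv i : ℕ) ≤ t → t < (i : ℕ) → rep r t = (pv i : ℕ) := by
    intro i hi t h1 h2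
    obtain ⟨g1, g2, g3, g4, g5, g6, g7, g8, g9⟩ := hg i hi
    refine rep_const r (hr3 _ g5) (fun k hk1 hk2 => ?_) t h1 h2
    have hks : k < s := hk2.trans i.2
    refine ⟨hks, fun hh => g9 _ hh ⟨hk1.le, ?_⟩, g7 ⟨k, hks⟩ hk1 hk2⟩
    exact (lt_trans (show (⟨k, hks⟩ : Fin s) < i from hk2) g2).le
  have hB : ∀ i ∈ R0 ∪ R1, ∀ t, (i : ℕ) ≤ t → t < (nx i : ℕ) → rep r t = (i : ℕ) := by
    intro i hi t h1 h2
    obtain ⟨g1, g2, g3, g4, g5, g6, g7, g8, g9⟩ := hg i hi
    refine rep_const r (hr3 _ (by have := hRd i hi; omega)) (fun k hk1 hk2 => ?_) t h1 h2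
    have hks : k < s := hk2.trans (nx i).2
    refine ⟨hks, fun hh => g9 _ hh ⟨?_, hk2.le⟩, g8 ⟨k, hks⟩ hk1 hk2⟩
    exact (lt_trans g1 (show i < (⟨k, hks⟩ : Fin s) from hk1)).le
  have hri : ∀ i ∈ R0 ∪ R1, ¬ r (i : ℕ) := fun i hi => hr3 _ (by have := hRd i hi; omega)
  have hrn : ∀ i ∈ R0 ∪ R1, ¬ r (nx i : ℕ) := fun i hi => hr3 _ (hg i hi).2.2.2.2.2.1
  have hrp : ∀ i ∈ R0 ∪ R1, ¬ r (pv i : ℕ) := fun i hi => hr3 _ (hg i hi).2.2.2.2.1
  have hcsA : ∀ i ∈ R0 ∪ R1, cs r (s - 1) (pv i : ℕ) = 0 := by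
    intro i hi
    obtain ⟨g1, g2, g3, g4, g5, g6, g7, g8, g9⟩ := hg i hi
    have g1' : (pv i : ℕ) < i := g1
    have his := i.2
    exact even_class r (s - 1) (pv i : ℕ) (i : ℕ) g1' (by omega) g3 (hri i hi) (hA i hi)
  have hcsB : ∀ i ∈ R0 ∪ R1, cs r (s - 1) (i : ℕ) = 0 := by
    intro i hi
    obtain ⟨g1, g2, g3, g4, g5, g6, g7, g8, g9⟩ := hg i hi
    have g2' : (i : ℕ) < nx i := g2
    have his := (nx i).2
    exact even_class r (s - 1) (i : ℕ) (nx i : ℕ) g2' (by omega) g4 (hrn i hi) (hB i hi)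
  have htouch : ∀ i ∈ R0 ∪ R1, ∀ q ∈ P, ∀ t, (t = (q : ℕ) ∨ t + 1 = (q : ℕ)) →
      rep r t ≠ (pv i : ℕ) ∧ rep r t ≠ (i : ℕ) := by
    intro i hi q hq t htq
    obtain ⟨g1, g2, g3, g4, g5, g6, g7, g8, g9⟩ := hg i hi
    have g1' : (pv i : ℕ) < i := g1
    have g2' : (i : ℕ) < nx i := g2
    have l1 := rep_le r t
    constructor
    · intro h1
      have h2 : t < (i : ℕ) := by
        by_contra h3
        have := le_rep r (hri i hi) (t := t) (by omega)
        omega
      refine g9 q hq ⟨?_, ?_⟩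
      · show (pv i : ℕ) ≤ q
        omega
      · show (q : ℕ) ≤ nx i
        omega
    · intro h1
      have h2 : t < (nx i : ℕ) := by
        by_contra h3
        have := le_rep r (hrn i hi) (t := t) (by omega)
        omega
      refine g9 q hq ⟨?_, ?_⟩
      · show (pv i : ℕ) ≤ q
        omega
      · show (q : ℕ) ≤ nx i
        omega
  have hG0R : ∀ i ∈ R0 ∪ R1, (pv i : ℕ) ∉ G0 ∧ (i : ℕ) ∉ G0 := by
    intro i hi
    constructor
    · intro hh
      obtain ⟨t, ht, e1⟩ := Finset.mem_image.1 hh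
      obtain ⟨_, q, hq, hti, _⟩ := Finset.mem_filter.1 ht
      exact (htouch i hi q hq t hti).1 e1
    · intro hh
      obtain ⟨t, ht, e1⟩ := Finset.mem_image.1 hh
      obtain ⟨_, q, hq, hti, _⟩ := Finset.mem_filter.1 ht
      exact (htouch i hi q hq t hti).2 e1
  -- the required sum
  obtain ⟨V0, hV0⟩ : ∃ V0 : ℤ, 2 * V0 = (((s - 1 : ℕ) : ℤ) % 2) + zx - zy := by
    refine ⟨((((s - 1 : ℕ) : ℤ) % 2) + zx - zy) / 2, ?_⟩
    omega
  obtain ⟨w, hw, j, hj, hjc⟩ : ∃ w : ℕ, w ≤ 1 ∧ ∃ j : ℕ, V0 + (1 - 2 * (w : ℤ)) * j = B0 ∧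
      j ≤ J := by
    rcases le_total B0 V0 with h1 | h1
    · refine ⟨1, le_rfl, (V0 - B0).toNat, ?_, ?_⟩
      · rw [Int.toNat_of_nonneg (by omega)]; push_cast; ring
      · omega
    · refine ⟨0, by omega, (B0 - V0).toNat, ?_, ?_⟩
      · rw [Int.toNat_of_nonneg (by omega)]; push_cast; ring
      · omega
  have hw2 : w = 0 ∨ w = 1 := by omega
  obtain ⟨S0, hS0, hS0c⟩ := Finset.exists_subset_card_eq (s := R0) (n := 2 * j) (by omega)
  obtain ⟨S1, hS1, hS1c⟩ := Finset.exists_subset_card_eq (s := R1) (n := 2 * j) (by omega)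
  obtain ⟨H0, hH0, hH0c⟩ := Finset.exists_subset_card_eq (s := R0 \ S0) (n := J - j) (by
    rw [Finset.card_sdiff_of_subset hS0]; omega)
  obtain ⟨H1, hH1, hH1c⟩ := Finset.exists_subset_card_eq (s := R1 \ S1) (n := J - j) (by
    rw [Finset.card_sdiff_of_subset hS1]; omega)
  set x : Fin s → ℕ := fun i => if i ∈ S0 then c * w else if i ∈ S1 then c * (1 - w) + w else
      if i ∈ H0 ∪ H1 then 2 else if i ∈ R0 ∪ R1 then deg G (v i) - 2 else x0 i with hx
  set y : Fin s → ℕ := fun i => if i ∈ S0 then c * (1 - w) else if i ∈ S1 then c * w + (1 - w)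
      else if i ∈ H0 ∪ H1 then deg G (v i) - 2 else if i ∈ R0 ∪ R1 then 2 else y0 i with hy
  obtain ⟨k1, k2, k3, k4⟩ := cons_assign (fun i => deg G (v i)) c J j w hw hc R0 R1 S0 H0
      S1 H1 hR hR0 hR1 hS0 hH0 hS1 hH1 c0 c1 hS0c hS1c (by omega) (by omega) x0 y0 hxy0 hb
      x y hx hy
  have hS0R : ∀ i ∈ S0, i ∈ R0 ∪ R1 := fun i hi => Finset.mem_union_left _ (hS0 hi)
  have hS1R : ∀ i ∈ S1, i ∈ R0 ∪ R1 := fun i hi => Finset.mem_union_right _ (hS1 hi)
  have hS01 : ∀ i ∈ S1, i ∉ S0 := fun i h1 h2 => (Finset.disjoint_left.1 hR) (hS0 h2) (hS1 h1)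
  have hSR : ∀ i ∈ S0 ∪ S1, i ∈ R0 ∪ R1 := by
    intro i hi
    rcases Finset.mem_union.1 hi with h1 | h1
    · exact hS0R i h1
    · exact hS1R i h1
  set wt : Fin s → ℕ := fun i => if i ∈ S0 then w else 1 - w with hwt
  have hwt1 : ∀ i, wt i ≤ 1 := by
    intro i; rw [hwt]; dsimp only; split_ifs <;> omega
  have hxS : ∀ i ∈ S0 ∪ S1, (if x i ≤ 1 then 0 else 1) = wt i ∧ (x i ≠ 1 ∨ y i ≠ 1) := by
    intro i hi
    by_cases h1 : i ∈ S0
    · have e1 : x i = c * w := if_pos h1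
      have e2 : y i = c * (1 - w) := if_pos h1
      have e3 : wt i = w := if_pos h1
      rw [e1, e2, e3]
      rcases hw2 with h | h <;> rw [h]
      · rw [Nat.mul_zero]
        exact ⟨rfl, Or.inl (by omega)⟩
      · rw [Nat.mul_one]
        exact ⟨if_neg (by omega), Or.inl (by omega)⟩
    · have h2 : i ∈ S1 := (Finset.mem_union.1 hi).resolve_left h1
      have e1 : x i = c * (1 - w) + w := (if_neg h1).trans (if_pos h2)
      have e2 : y i = c * w + (1 - w) := (if_neg h1).trans (if_pos h2)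
      have e3 : wt i = 1 - w := if_neg h1
      rw [e1, e2, e3]
      rcases hw2 with h | h <;> rw [h]
      · rw [Nat.sub_zero, Nat.mul_one, Nat.add_zero]
        exact ⟨if_neg (by omega), Or.inl (by omega)⟩
      · rw [Nat.sub_self, Nat.mul_zero, Nat.mul_one]
        exact ⟨rfl, Or.inr (by omega)⟩
  set uu : Fin s → ℕ := fun i => if (i : ℕ) % 2 = wt i then (i : ℕ) else (pv i : ℕ) with huu
  have huu2 : ∀ i : Fin s, ((i : ℕ) % 2 = wt i ∧ uu i = (i : ℕ)) ∨
      (¬ (i : ℕ) % 2 = wt i ∧ uu i = (pv i : ℕ)) := by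
    intro i
    rw [huu]
    dsimp only
    split_ifs with h1
    · exact Or.inl ⟨h1, rfl⟩
    · exact Or.inr ⟨h1, rfl⟩
  set X := (S0 ∪ S1).image uu with hX
  set GG := G0 ∪ X with hGG
  have hsumGG : ∑ u ∈ GG, cs r (s - 1) u = B0 := by
    rw [hGG, ← Finset.union_sdiff_self_eq_union, Finset.sum_union Finset.disjoint_sdiff, ← hB0d]
    rw [Finset.sum_eq_zero, add_zero]
    intro u hu
    obtain ⟨i, hi, e1⟩ := Finset.mem_image.1 (Finset.mem_sdiff.1 hu).1
    rw [← e1]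
    rcases huu2 i with ⟨_, h1⟩ | ⟨_, h1⟩
    · rw [h1]; exact hcsB i (hSR i hi)
    · rw [h1]; exact hcsA i (hSR i hi)
  have hmem : ∀ i ∈ S0 ∪ S1, ∀ u, (u = (pv i : ℕ) ∨ u = (i : ℕ)) → (u ∈ GG ↔ u = uu i) := by
    intro i hi u hu
    constructor
    · intro h1
      rcases Finset.mem_union.1 h1 with h1 | h1
      · exfalso
        obtain ⟨h3, h4⟩ := hG0R i (hSR i hi)
        rcases hu with h5 | h5
        · exact h3 (by rw [← h5]; exact h1)
        · exact h4 (by rw [← h5]; exact h1)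
      · obtain ⟨i', hi', e1⟩ := Finset.mem_image.1 h1
        by_cases hii : i = i'
        · rw [hii]; exact e1.symm
        · exfalso
          obtain ⟨g1, g2, _⟩ := hg i (hSR i hi)
          obtain ⟨g1', g2', _⟩ := hg i' (hSR i' hi')
          have a1 : (pv i : ℕ) < i := g1
          have a2 : (i : ℕ) < nx i := g2
          have a3 : (pv i' : ℕ) < i' := g1'
          have a4 : (i' : ℕ) < nx i' := g2'
          have h5 := huu2 i'
          rcases hfar i (hSR i hi) i' (hSR i' hi') hii with h6 | h6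
          · have h6' : (nx i : ℕ) ≤ pv i' := h6
            omega
          · have h6' : (nx i' : ℕ) ≤ pv i := h6
            omega
    · intro h1
      rw [h1]
      exact Finset.mem_union_right _ (Finset.mem_image_of_mem _ hi)
  have hxo : ∀ i, i ∉ S0 → i ∉ S1 → i ∉ P → deg G (v i) ≠ 2 → 2 ≤ x i ∧ 2 ≤ y i := by
    intro i h1 h2 hiP hi2
    have e1 : x i = if i ∈ H0 ∪ H1 then 2 else if i ∈ R0 ∪ R1 then deg G (v i) - 2 else x0 i :=
      (if_neg h1).trans (if_neg h2)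
    have e2 : y i = if i ∈ H0 ∪ H1 then deg G (v i) - 2 else if i ∈ R0 ∪ R1 then 2 else y0 i :=
      (if_neg h1).trans (if_neg h2)
    rw [e1, e2]
    have h3 := hno3 i
    have h4 := h2d i
    have h5 := hbig0 i hiP hi2
    split_ifs <;> omega
  have hnR : ∀ i, deg G (v i) = 2 → i ∉ R0 ∪ R1 := by
    intro i hi hh
    have := hRd i hh
    omega
  have hx2 : ∀ i, i ∉ R0 ∪ R1 → x i = x0 i ∧ y i = y0 i := by
    intro i hi
    have h1 : i ∉ S0 := fun hh => hi (hS0R i hh)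
    have h2 : i ∉ S1 := fun hh => hi (hS1R i hh)
    have h3 : i ∉ H0 ∪ H1 := by
      intro hh
      apply hi
      rcases Finset.mem_union.1 hh with h4 | h4
      · exact Finset.mem_union_left _ (Finset.mem_sdiff.1 (hH0 h4)).1
      · exact Finset.mem_union_right _ (Finset.mem_sdiff.1 (hH1 h4)).1
    exact ⟨(if_neg h1).trans ((if_neg h2).trans ((if_neg h3).trans (if_neg hi))),
      (if_neg h1).trans ((if_neg h2).trans ((if_neg h3).trans (if_neg hi)))⟩
  refine core_split0 h (P ∪ (S0 ∪ S1)) x y k1 ?_ ?_ ?_ k2 r GG ?_ ?_ ?_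
  · intro i hi
    rcases Finset.mem_union.1 hi with hiP | hiS
    · have h1 : i ∉ R0 ∪ R1 := fun hh => hRP i hh hiP
      rw [(hx2 i h1).1, (hx2 i h1).2]
      have h5 := hPs i hiP
      rcases hsw i with ⟨h6, h7⟩ | ⟨h6, h7⟩ <;> omega
    · exact (hxS i hiS).2
  · intro i hi hi2
    rw [Finset.mem_union, not_or, Finset.mem_union, not_or] at hi
    exact hxo i hi.2.1 hi.2.2 hi.1 hi2
  · intro i hi hi2
    rw [Finset.mem_union, not_or] at hi
    rw [(hx2 i (hnR i hi2)).1, (hx2 i (hnR i hi2)).2]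
    exact htwo0 i hi.1 hi2
  · -- rigid vertices
    intro i hi hi2 hi1 his
    rw [Finset.mem_union, not_or] at hi
    rw [rep_rigid r (i := (i : ℕ)) ⟨i.2, hi.1, hi2⟩ hi1]
  · -- special vertices
    intro i hi t ht hti
    by_cases hiS : i ∈ S0 ∪ S1
    · rw [(hxS i hiS).1]
      have hiR := hSR i hiS
      obtain ⟨g1, g2, _⟩ := hg i hiR
      have a1 : (pv i : ℕ) < i := g1
      have a2 : (i : ℕ) < nx i := g2
      have h5 := huu2 i
      have h6 := hwt1 i
      rcases hti with h1 | h1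
      · have e1 : rep r t = (i : ℕ) := hB i hiR t (by omega) (by omega)
        rw [e1, hmem i hiS _ (Or.inr rfl), h1]
        constructor
        · intro h7; omega
        · intro h7; omega
      · have e1 : rep r t = (pv i : ℕ) := hA i hiR t (by omega) (by omega)
        rw [e1, hmem i hiS _ (Or.inl rfl)]
        constructor
        · intro h7; omega
        · intro h7; omega
    · have hiP : i ∈ P := (Finset.mem_union.1 hi).resolve_right hiS
      have h1 : i ∉ R0 ∪ R1 := fun hh => hRP i hh hiP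
      have hwi : (if x0 i ≤ 1 then 0 else 1) = want i := rfl
      rw [(hx2 i h1).1, hwi]
      constructor
      · intro hgg
        by_contra hno
        rcases Finset.mem_union.1 hgg with h1 | h1
        · exact (Finset.disjoint_left.1 hG0bad) h1 (Finset.mem_image_of_mem _
            (Finset.mem_filter.2 ⟨Finset.mem_range.2 ht, i, hiP, hti, hno⟩))
        · obtain ⟨q, hq, e1⟩ := Finset.mem_image.1 h1
          obtain ⟨h3, h4⟩ := htouch q (hSR q hq) i hiP t hti
          rcases huu2 q with ⟨_, h5⟩ | ⟨_, h5⟩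
          · exact h4 (by rw [← e1, h5])
          · exact h3 (by rw [← e1, h5])
      · intro hw'
        exact Finset.mem_union_left _ (Finset.mem_image_of_mem _ (Finset.mem_filter.2
          ⟨Finset.mem_range.2 ht, i, hiP, hti, hw'⟩))
  · rw [hsumGG, k3, k4]
    rw [← hU, ← hzx, ← hzy]
    rcases hw2 with h1 | h1
    · rw [h1] at hj ⊢
      push_cast at hj ⊢
      omega
    · rw [h1] at hj ⊢
      push_cast at hj ⊢
      omega

end Pool.Agent.W_e8e3a0
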