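import Pool.Agent.W_e8e3a0.ConsC49

/-! The dual condition is sufficient when all spine degrees are frequent and two consecutive
integers are among them. -/

namespace Pool.Agent.W_e8e3a0

open Finset Num49

variable {V : Type} [Fintype V]

/-- `p` is a gap: two consecutive spine vertices of degree at least three -/
def IsGap {s : ℕ} (d : Fin s → ℕ) (p : Fin s × Fin s) : Prop :=
  p.1 < p.2 ∧ 3 ≤ d p.1 ∧ 3 ≤ d p.2 ∧ ∀ k, p.1 < k → k < p.2 → d k = 2

theorem nu_mono {s : ℕ} (d : Fin s → ℕ) {i j : Fin s} (hij : i ≤ j) : nu d i ≤ nu d j := by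
  unfold nu
  refine Finset.card_le_card (fun k hk => ?_)
  obtain ⟨_, h1, h2⟩ := Finset.mem_filter.1 hk
  exact Finset.mem_filter.2 ⟨Finset.mem_univ _, lt_of_lt_of_le h1 hij, h2⟩

theorem nu_gap {s : ℕ} (d : Fin s → ℕ) {a i : Fin s} (h : IsGap d (a, i)) :
    nu d i ≤ nu d a + 1 := by
  by_contra hno
  obtain ⟨k, h1, h2, h3⟩ := nu_between d (i := a) (j := i) (by omega)
  have := h.2.2.2 k h1 h2
  omega

theorem prev_gap {s : ℕ} (d : Fin s → ℕ) (h2 : ∀ i, 2 ≤ d i) (i : Fin s) (hi : 3 ≤ d i)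
    (hn : nu d i ≠ 0) : ∃ a, IsGap d (a, i) := by
  classical
  set N := univ.filter (fun j : Fin s => j < i ∧ 3 ≤ d j) with hN
  have hNn : N.Nonempty := by
    rw [← Finset.card_pos]
    exact Nat.pos_of_ne_zero hn
  obtain ⟨_, h5, h6⟩ := Finset.mem_filter.1 (Finset.max'_mem N hNn)
  refine ⟨N.max' hNn, h5, h6, hi, fun k hk1 hk2 => ?_⟩
  have h7 := h2 k
  by_contra h8
  have h9 : k ∈ N := Finset.mem_filter.2 ⟨Finset.mem_univ _, hk2, by omega⟩
  exact absurd (Finset.le_max' N k h9) (not_le.2 hk1)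

theorem next_gap {s : ℕ} (d : Fin s → ℕ) (h2 : ∀ i, 2 ≤ d i) (i : Fin s) (hi : 3 ≤ d i)
    (hn : ∃ j, i < j ∧ 3 ≤ d j) : ∃ b, IsGap d (i, b) := by
  classical
  set N := univ.filter (fun j : Fin s => i < j ∧ 3 ≤ d j) with hN
  have hNn : N.Nonempty := by
    obtain ⟨j, h3, h4⟩ := hn
    exact ⟨j, Finset.mem_filter.2 ⟨Finset.mem_univ _, h3, h4⟩⟩
  obtain ⟨_, h5, h6⟩ := Finset.mem_filter.1 (Finset.min'_mem N hNn)
  refine ⟨N.min' hNn, h5, hi, h6, fun k hk1 hk2 => ?_⟩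
  have h7 := h2 k
  by_contra h8
  have h9 : k ∈ N := Finset.mem_filter.2 ⟨Finset.mem_univ _, hk1, by omega⟩
  exact absurd (Finset.min'_le N k h9) (not_le.2 hk2)

/-- inner vertices with even gaps on both sides, away from `P` -/
def Cand {s : ℕ} (d : Fin s → ℕ) (P : Finset (Fin s)) (i : Fin s) (ab : Fin s × Fin s) : Prop :=
  IsGap d (ab.1, i) ∧ IsGap d (i, ab.2) ∧ ((i : ℕ) - ab.1) % 2 = 0 ∧ ((ab.2 : ℕ) - i) % 2 = 0 ∧
    ∀ q ∈ P, ¬ (ab.1 ≤ q ∧ q ≤ ab.2)

open Classical in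
theorem cand_count {s : ℕ} (d : Fin s → ℕ) (h2 : ∀ i, 2 ≤ d i) (P : Finset (Fin s)) (c : ℕ)
    (hc : 3 ≤ c) :
    (univ.filter (fun i => d i = c)).card ≤
      (univ.filter (fun i => d i = c ∧ ∃ ab, Cand d P i ab)).card + 2 + 3 * P.card +
      2 * (univ.filter (fun p : Fin s × Fin s => IsGap d p ∧ ¬ ((p.2 : ℕ) - p.1) % 2 = 0)).card := by
  set T := univ.filter (fun i => d i = c ∧ ∃ ab, Cand d P i ab) with hT
  set OG := univ.filter (fun p : Fin s × Fin s => IsGap d p ∧ ¬ ((p.2 : ℕ) - p.1) % 2 = 0) with hOG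
  set A1 := univ.filter (fun i : Fin s => 3 ≤ d i ∧ nu d i = 0) with hA1
  set A2 := univ.filter (fun i : Fin s => 3 ≤ d i ∧ ¬ ∃ j, i < j ∧ 3 ≤ d j) with hA2
  set E := P.biUnion (fun q => univ.filter (fun i : Fin s => 3 ≤ d i ∧ nu d i ≤ nu d q + 1 ∧
    nu d q ≤ nu d i + 1)) with hE
  have c1 : A1.card ≤ 1 := by
    rw [Finset.card_le_one]
    intro i hi j hj
    obtain ⟨_, i1, i2⟩ := Finset.mem_filter.1 hi
    obtain ⟨_, j1, j2⟩ := Finset.mem_filter.1 hj
    rcases lt_trichotomy i j with h | h | h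
    · have := nu_lt d h i1
      omega
    · exact h
    · have := nu_lt d h j1
      omega
  have c2 : A2.card ≤ 1 := by
    rw [Finset.card_le_one]
    intro i hi j hj
    obtain ⟨_, i1, i2⟩ := Finset.mem_filter.1 hi
    obtain ⟨_, j1, j2⟩ := Finset.mem_filter.1 hj
    rcases lt_trichotomy i j with h | h | h
    · exact absurd ⟨j, h, j1⟩ i2
    · exact h
    · exact absurd ⟨i, h, i1⟩ j2
  have c3 : E.card ≤ P.card * 3 :=
    Finset.card_biUnion_le_card_mul _ _ _ (fun q _ => nu_three d (nu d q))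
  have hsub : univ.filter (fun i => d i = c) ⊆
      T ∪ (A1 ∪ (A2 ∪ (E ∪ (OG.image Prod.fst ∪ OG.image Prod.snd)))) := by
    intro i hi
    have hic := (Finset.mem_filter.1 hi).2
    have hi3 : 3 ≤ d i := by omega
    by_contra hno
    simp only [Finset.mem_union, not_or] at hno
    obtain ⟨n1, n2, n3, n4, n5, n6⟩ := hno
    have m1 : nu d i ≠ 0 := fun hh => n2 (Finset.mem_filter.2 ⟨Finset.mem_univ _, hi3, hh⟩)
    have m2 : ∃ j, i < j ∧ 3 ≤ d j := by
      by_contra hh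
      exact n3 (Finset.mem_filter.2 ⟨Finset.mem_univ _, hi3, hh⟩)
    obtain ⟨a, ha⟩ := prev_gap d h2 i hi3 m1
    obtain ⟨b, hb⟩ := next_gap d h2 i hi3 m2
    refine n1 (Finset.mem_filter.2 ⟨Finset.mem_univ _, hic, (a, b), ha, hb, ?_, ?_, ?_⟩)
    · by_contra hh
      exact n6 (Finset.mem_image.2 ⟨(a, i), Finset.mem_filter.2 ⟨Finset.mem_univ _, ha, hh⟩, rfl⟩)
    · by_contra hh
      exact n5 (Finset.mem_image.2 ⟨(i, b), Finset.mem_filter.2 ⟨Finset.mem_univ _, hb, hh⟩, rfl⟩)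
    · rintro q hq ⟨q1, q2⟩
      have r1 : nu d a ≤ nu d q := nu_mono d q1
      have r2 : nu d q ≤ nu d b := nu_mono d q2
      have r3 := nu_gap d ha
      have r4 := nu_gap d hb
      exact n4 (Finset.mem_biUnion.2 ⟨q, hq, Finset.mem_filter.2 ⟨Finset.mem_univ _, hi3,
        by omega, by omega⟩⟩)
  have h1 := Finset.card_le_card hsub
  have h2' := Finset.card_union_le T (A1 ∪ (A2 ∪ (E ∪ (OG.image Prod.fst ∪ OG.image Prod.snd))))
  have h3 := Finset.card_union_le A1 (A2 ∪ (E ∪ (OG.image Prod.fst ∪ OG.image Prod.snd)))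
  have h4 := Finset.card_union_le A2 (E ∪ (OG.image Prod.fst ∪ OG.image Prod.snd))
  have h5 := Finset.card_union_le E (OG.image Prod.fst ∪ OG.image Prod.snd)
  have h6 := Finset.card_union_le (OG.image Prod.fst) (OG.image Prod.snd)
  have h7 : (OG.image Prod.fst).card ≤ OG.card := Finset.card_image_le
  have h8 : (OG.image Prod.snd).card ≤ OG.card := Finset.card_image_le
  omega

/-- the dual condition is sufficient when all spine degrees are frequent, unless `2` is among them,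
no two consecutive integers are, and almost all gaps between spine vertices of degree at least
three equal two -/
theorem dual_suff6 {G : SimpleGraph V} {s : ℕ} {v : Fin s → V} (h : IsSpine G v) (hs : 0 < s)
    (hev : Even G.edgeSet.ncard) (M : ℕ) (hM : ∀ i, deg G (v i) ≤ M)
    (hrich : ∀ i, 100 * (M + 1) ≤ {j | deg G (v j) = deg G (v i)}.ncard)
    (hgap : (∀ i, deg G (v i) ≠ 2) ∨ (∃ i j, deg G (v j) = deg G (v i) + 1) ∨
      100 * (M + 1) ≤ {p : Fin s × Fin s | p.1 < p.2 ∧ (p.2 : ℕ) - p.1 ≠ 2 ∧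
        3 ≤ deg G (v p.1) ∧ 3 ≤ deg G (v p.2) ∧
        ∀ k, p.1 < k → k < p.2 → deg G (v k) = 2}.ncard)
    (hdual : ∀ f : ℕ → ZMod 2, f 0 = 0 → f 1 = 0 →
      (∀ i, ∀ k, k ≤ deg G (v i) → f k + f (deg G (v i) - k) = f (deg G (v i))) →
      ∑ i, f (deg G (v i)) = 0) : Splittable G := by
  classical
  have h2d : ∀ i, 2 ≤ deg G (v i) := h.two
  have hrich5 : ∀ i, 60 * (M + 1) ≤ {j | deg G (v j) = deg G (v i)}.ncard := fun i =>
    le_trans (by omega) (hrich i)
  have hrich3 : ∀ i, 30 * (M + 1) ≤ {j | deg G (v j) = deg G (v i)}.ncard := fun i =>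
    le_trans (by omega) (hrich i)
  rcases hgap with h1 | h1 | h1
  · exact dual_suff5 h hs hev M hM hrich5 (Or.inl h1) hdual
  · by_cases hthree : ∃ i, deg G (v i) = 3
    · exact dual_suff5 h hs hev M hM hrich5 (Or.inr (Or.inl hthree)) hdual
    obtain ⟨i0, i1, hi01⟩ := h1
    have hno3 : ∀ i, deg G (v i) ≠ 3 := fun i hi => hthree ⟨i, hi⟩
    have hc : 4 ≤ deg G (v i0) := by
      have a1 := h2d i0
      have a2 := hno3 i0
      have a3 := hno3 i1
      omega
    by_cases hodd : 20 * (M + 1) ≤ {p : Fin s × Fin s | p.1 < p.2 ∧ Odd ((p.2 : ℕ) - p.1) ∧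
        3 ≤ deg G (v p.1) ∧ 3 ≤ deg G (v p.2) ∧
        ∀ k, p.1 < k → k < p.2 → deg G (v k) = 2}.ncard
    · exact dual_suff4 h hs hev M hM hrich3 hodd hdual
    have hM4 : 4 ≤ M + 1 := by
      have h1 : deg G (v i0) ≤ M := hM i0
      omega
    obtain ⟨P, a, b, hPc, hPsep, hab, hPs, hpar, hn, hQ2⟩ :=
      dual_parts2 h hs M hM hM4 hrich3 hdual
    set d : Fin s → ℕ := fun i => deg G (v i) with hd
    set c := deg G (v i0) with hcd
    have hOG : (univ.filter (fun p : Fin s × Fin s => IsGap d p ∧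
        ¬ ((p.2 : ℕ) - p.1) % 2 = 0)).card < 20 * (M + 1) := by
      refine lt_of_le_of_lt ?_ (not_le.1 hodd)
      rw [Set.ncard_eq_toFinset_card']
      refine Finset.card_le_card (fun p hp => ?_)
      obtain ⟨_, ⟨p1, p2, p3, p4⟩, p5⟩ := Finset.mem_filter.1 hp
      rw [Set.mem_toFinset]
      exact ⟨p1, Nat.odd_iff.2 (by omega), p2, p3, p4⟩
    have hcnt : ∀ (i : Fin s), 100 * (M + 1) ≤ (univ.filter (fun j => d j = d i)).card := by
      intro i
      have h1 := hrich i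
      rw [Set.ncard_eq_toFinset_card'] at h1
      refine h1.trans (Finset.card_le_card (fun j hj => ?_))
      rw [Set.mem_toFinset] at hj
      exact Finset.mem_filter.2 ⟨Finset.mem_univ _, hj⟩
    have n0 := hcnt i0
    have n1 := hcnt i1
    have hdi1 : d i1 = c + 1 := hi01
    have hdi0 : d i0 = c := rfl
    rw [hdi0] at n0
    rw [hdi1] at n1
    have m0 := cand_count d h2d P c (by omega)
    have m1 := cand_count d h2d P (c + 1) (by omega)
    obtain ⟨R0, hR0T, R1, hR1T, c0, c1, hsep⟩ := pick_sep2 d (2 * (2 * P.card + 1))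
      (univ.filter (fun i => d i = c ∧ ∃ ab, Cand d P i ab))
      (univ.filter (fun i => d i = c + 1 ∧ ∃ ab, Cand d P i ab))
      (fun i hi => by have := (Finset.mem_filter.1 hi).2.1; omega)
      (fun i hi => by have := (Finset.mem_filter.1 hi).2.1; omega) (by omega) (by omega)
    have hex : ∀ i, i ∈ R0 ∪ R1 → ∃ ab, Cand d P i ab := by
      intro i hi
      rcases Finset.mem_union.1 hi with h2 | h2
      · exact (Finset.mem_filter.1 (hR0T h2)).2.2
      · exact (Finset.mem_filter.1 (hR1T h2)).2.2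
    have : Nonempty (Fin s × Fin s) := ⟨(i0, i0)⟩
    choose! f hf using hex
    refine cons_split h hev P hPsep a b hab hPs hpar (fun i hi => ⟨(hn i hi).1, (hn i hi).2.2⟩)
      hno3 c hc R0 R1 (fun i hi => (Finset.mem_filter.1 (hR0T hi)).2.1)
      (fun i hi => (Finset.mem_filter.1 (hR1T hi)).2.1) c0 c1 (fun i => (f i).1)
      (fun i => (f i).2) (fun i hi => ?_) (fun i hi j hj hij => ?_)
    · obtain ⟨g1, g2, g3, g4, g5⟩ := hf i hi
      exact ⟨g1.1, g2.1, g3, g4, g1.2.1, g2.2.2.1, g1.2.2.2, g2.2.2.2, g5⟩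
    · have hord : ∀ i ∈ R0 ∪ R1, ∀ j ∈ R0 ∪ R1, nu d i + 2 ≤ nu d j → (f i).2 ≤ (f j).1 := by
        intro i hi j hj hn2
        obtain ⟨k, k1, k2, k3⟩ := nu_between d hn2
        obtain ⟨_, g2, _⟩ := hf i hi
        obtain ⟨g1, _⟩ := hf j hj
        have e1 : (f i).2 ≤ k := by
          by_contra hh
          have := g2.2.2.2 k k1 (not_le.1 hh)
          omega
        have e2 : k ≤ (f j).1 := by
          by_contra hh
          have := g1.2.2.2 k (not_le.1 hh) k2
          omega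
        exact e1.trans e2
      rcases hsep i hi j hj hij with h2 | h2
      · exact Or.inl (hord i hi j hj h2)
      · exact Or.inr (hord j hj i hi h2)
  · exact dual_suff5 h hs hev M hM hrich5 (Or.inr (Or.inr (le_trans (by omega) h1))) hdual

/-- two consecutive frequent spine degrees, each larger one at most twice a smaller one -/
theorem consec_suff6 {G : SimpleGraph V} {s : ℕ} {v : Fin s → V} (h : IsSpine G v) (hs : 0 < s)
    (M : ℕ) (hM : ∀ i, deg G (v i) ≤ M)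
    (hrich : ∀ i, 100 * (M + 1) ≤ {j | deg G (v j) = deg G (v i)}.ncard)
    (a : ℕ) (ha : ∃ i, deg G (v i) = a) (ha1 : ∃ i, deg G (v i) = a + 1)
    (hstep : ∀ i, a + 1 < deg G (v i) → ∃ j, a < deg G (v j) ∧ deg G (v j) < deg G (v i) ∧
      deg G (v i) ≤ 2 * deg G (v j)) :
    Splittable G ↔ Even G.edgeSet.ncard := by
  constructor
  · intro hG
    exact (necessary hs h hG).1
  · intro hev
    obtain ⟨i, hi⟩ := ha
    obtain ⟨j, hj⟩ := ha1
    refine dual_suff6 h hs hev M hM hrich (Or.inr (Or.inl ⟨i, j, by omega⟩)) (fun f h0 h1 hf => ?_)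
    exact Finset.sum_eq_zero (fun k _ =>
      adm_zero (fun i => deg G (v i)) f h0 h1 hf a ⟨i, hi⟩ ⟨j, hj⟩ hstep k)

end Pool.Agent.W_e8e3a0
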