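import Pool.Agent.W_e8e3a0.WideO49

/-! A splitting from parts of the spine degrees and a set of flipped classes of spine edges, in
the presence of many spine vertices of degree three. -/

namespace Pool.Agent.W_e8e3a0

open Finset Num49

variable {V : Type} [Fintype V]

theorem core_split {G : SimpleGraph V} {s : ℕ} {v : Fin s → V} (h : IsSpine G v)
    (P Q : Finset (Fin s)) (x0 y0 : Fin s → ℕ) (hxy0 : ∀ i, x0 i + y0 i = deg G (v i))
    (hsp : ∀ i ∈ P, x0 i ≠ 1 ∨ y0 i ≠ 1)
    (hbig0 : ∀ i, i ∉ P → i ∉ Q → deg G (v i) ≠ 2 → 2 ≤ x0 i ∧ 2 ≤ y0 i)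
    (htwo0 : ∀ i, i ∉ P → deg G (v i) = 2 → x0 i = 1 ∧ y0 i = 1)
    (hQ3 : ∀ i ∈ Q, deg G (v i) = 3) (h0 : ℕ) (hh0 : h0 ≤ Q.card)
    (hb : ∀ k, 2 ≤ k → cx x0 (univ \ Q) k + (if 2 = k then Q.card - h0 else 0) =
      cx y0 (univ \ Q) k + (if 2 = k then h0 else 0))
    (r : ℕ → Prop) [DecidablePred r] (hQr : ∀ i ∈ Q, ¬ r (i : ℕ)) (GG : Finset ℕ)
    (hrig : ∀ i : Fin s, i ∉ P → deg G (v i) = 2 → 1 ≤ (i : ℕ) → (i : ℕ) < s - 1 →
      (rep r (i : ℕ) ∈ GG ↔ rep r ((i : ℕ) - 1) ∈ GG))
    (hPw : ∀ i ∈ P, ∀ t, t < s - 1 → (t = (i : ℕ) ∨ t + 1 = (i : ℕ)) →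
      (rep r t ∈ GG ↔ t % 2 = if x0 i ≤ 1 then 0 else 1))
    (hsum : 2 * ∑ u ∈ GG, cs r (s - 1) u = (((s - 1 : ℕ) : ℤ) % 2) +
      (cx x0 (univ \ Q) 0 : ℕ) - (cx y0 (univ \ Q) 0 : ℕ))
    (hc : Q.card = 0 ∨ (2 * GG.card ≤ h0 ∧ 2 * GG.card + h0 ≤ Q.card)) : Splittable G := by
  classical
  have h2d : ∀ i, 2 ≤ deg G (v i) := h.two
  set U := univ \ Q with hU
  have hUQ : ∀ (z : Fin s → ℕ) k, cx z univ k = cx z U k + cx z Q k := by
    intro z k
    unfold cx
    exact (Finset.sum_sdiff (Finset.subset_univ Q)).symm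
  have key : ∀ H ⊆ Q, H.card = h0 →
      (∀ i, (if i ∈ Q then (if i ∈ H then 1 else 2) else x0 i) +
        (if i ∈ Q then (if i ∈ H then 2 else 1) else y0 i) = deg G (v i)) ∧
      (∀ k, 2 ≤ k → cx (fun i => if i ∈ Q then (if i ∈ H then 1 else 2) else x0 i) univ k =
        cx (fun i => if i ∈ Q then (if i ∈ H then 2 else 1) else y0 i) univ k) ∧
      cx (fun i => if i ∈ Q then (if i ∈ H then 1 else 2) else x0 i) univ 0 = cx x0 U 0 ∧
      cx (fun i => if i ∈ Q then (if i ∈ H then 2 else 1) else y0 i) univ 0 = cx y0 U 0 := by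
    intro H hHQ hH2
    have hsd : (Q \ H).card = Q.card - h0 := by
      rw [Finset.card_sdiff_of_subset hHQ]; omega
    have f1 : ∀ k, cx (fun i => if i ∈ Q then (if i ∈ H then 1 else 2) else x0 i) univ k =
        cx x0 U k + ((if 1 = k then h0 else 0) + (if 2 = k then Q.card - h0 else 0)) := by
      intro k
      rw [hUQ, cx_congr (x' := x0) (fun i hi => if_neg (Finset.mem_sdiff.1 hi).2) k,
        cx_two hHQ 1 2 k _ (fun i hi => by
          show (if i ∈ Q then (if i ∈ H then 1 else 2) else x0 i) = 1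
          rw [if_pos (hHQ hi), if_pos hi]) (fun i hi => by
          show (if i ∈ Q then (if i ∈ H then 1 else 2) else x0 i) = 2
          rw [if_pos (Finset.mem_sdiff.1 hi).1, if_neg (Finset.mem_sdiff.1 hi).2]), hsd, hH2]
    have f2 : ∀ k, cx (fun i => if i ∈ Q then (if i ∈ H then 2 else 1) else y0 i) univ k =
        cx y0 U k + ((if 2 = k then h0 else 0) + (if 1 = k then Q.card - h0 else 0)) := by
      intro k
      rw [hUQ, cx_congr (x' := y0) (fun i hi => if_neg (Finset.mem_sdiff.1 hi).2) k,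
        cx_two hHQ 2 1 k _ (fun i hi => by
          show (if i ∈ Q then (if i ∈ H then 2 else 1) else y0 i) = 2
          rw [if_pos (hHQ hi), if_pos hi]) (fun i hi => by
          show (if i ∈ Q then (if i ∈ H then 2 else 1) else y0 i) = 1
          rw [if_pos (Finset.mem_sdiff.1 hi).1, if_neg (Finset.mem_sdiff.1 hi).2]), hsd, hH2]
    refine ⟨?_, ?_, ?_, ?_⟩
    · intro i
      by_cases hi : i ∈ Q
      · rw [if_pos hi, if_pos hi, hQ3 i hi]
        split_ifs <;> rfl
      · rw [if_neg hi, if_neg hi]; exact hxy0 i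
    · intro k hk
      have := hb k hk
      rw [f1, f2, if_neg (by omega : ¬ 1 = k), if_neg (by omega : ¬ 1 = k)]
      omega
    · rw [f1]; simp
    · rw [f2]; simp
  set zx := cx x0 U 0 with hzx
  set zy := cx y0 U 0 with hzy
  set F := (range (s - 1)).filter (fun t => rep r t ∈ GG) with hF
  have hsumF : 2 * ∑ t ∈ F, sgn t = (((s - 1 : ℕ) : ℤ) % 2) + zx - zy := by
    rw [← hsum, sum_cs]
  set C := (range (s - 1)).filter (fun t => (t % 2 = 0 ∧ t ∉ F) ∨ (¬ t % 2 = 0 ∧ t ∈ F)) with hC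
  set D := (range (s - 1)).filter (fun t => ¬ ((t % 2 = 0 ∧ t ∉ F) ∨ (¬ t % 2 = 0 ∧ t ∈ F)))
    with hD
  have hCD : Disjoint C D := Finset.disjoint_filter_filter_not _ _ _
  have hCDu : C ∪ D = range (s - 1) := Finset.filter_union_filter_not_eq _ _
  have hdiff : (C.card : ℤ) - (D.card : ℤ) = zy - zx := by
    have h1 : (C.card : ℤ) - (D.card : ℤ) =
        ∑ t ∈ range (s - 1), (sgn t - 2 * (if t ∈ F then sgn t else 0)) := by
      rw [hC, hD, Finset.card_filter, Finset.card_filter]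
      push_cast
      rw [← Finset.sum_sub_distrib]
      refine Finset.sum_congr rfl (fun t _ => ?_)
      unfold sgn
      by_cases h1 : t % 2 = 0 <;> by_cases h2 : t ∈ F <;> simp [h1, h2]
    rw [h1, Finset.sum_sub_distrib, sum_sgn, ← Finset.mul_sum, ← Finset.sum_filter]
    have h2 : (range (s - 1)).filter (fun t => t ∈ F) = F := by
      rw [hF]
      ext t
      simp only [Finset.mem_filter]
      tauto
    rw [h2, hsumF]
    split_ifs <;> omega
  have hcnt : C.card + zx = D.card + zy := by omega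
  have hFm : ∀ t, t < s - 1 → (t ∈ F ↔ rep r t ∈ GG) := by
    intro t ht
    rw [hF, Finset.mem_filter, Finset.mem_range]
    exact ⟨fun hh => hh.2, fun hh => ⟨ht, hh⟩⟩
  have hCr : ∀ t ∈ C, t < s - 1 := fun t ht => Finset.mem_range.1 (Finset.mem_filter.1 ht).1
  have hDr : ∀ t ∈ D, t < s - 1 := fun t ht => Finset.mem_range.1 (Finset.mem_filter.1 ht).1
  -- both edges at `i` in the same set
  have hsame : ∀ i : Fin s, (2 ≤ (C.filter (fun t => t = (i : ℕ) ∨ t + 1 = i)).card ∨
      2 ≤ (D.filter (fun t => t = (i : ℕ) ∨ t + 1 = i)).card) →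
      1 ≤ (i : ℕ) ∧ (i : ℕ) < s - 1 ∧ ¬ (rep r (i : ℕ) ∈ GG ↔ rep r ((i : ℕ) - 1) ∈ GG) := by
    intro i hi
    rcases hi with hi | hi
    · obtain ⟨m1, m2, m3⟩ := both_mem hi
      have b1 := hCr _ m1
      have b2 := hCr _ m2
      have c1 := (Finset.mem_filter.1 m1).2
      have c2 := (Finset.mem_filter.1 m2).2
      rw [hFm _ b1] at c1
      rw [hFm _ b2] at c2
      refine ⟨m3, b1, fun hh => ?_⟩
      rw [← hh] at c2
      rcases c1 with ⟨c1, c1'⟩ | ⟨c1, c1'⟩ <;> rcases c2 with ⟨c2, c2'⟩ | ⟨c2, c2'⟩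
      · omega
      · exact c1' c2'
      · exact c2' c1'
      · omega
    · obtain ⟨m1, m2, m3⟩ := both_mem hi
      have b1 := hDr _ m1
      have b2 := hDr _ m2
      have c1 := (Finset.mem_filter.1 m1).2
      have c2 := (Finset.mem_filter.1 m2).2
      rw [hFm _ b1] at c1
      rw [hFm _ b2] at c2
      refine ⟨m3, b1, fun hh => ?_⟩
      rw [← hh] at c2
      rw [not_or, not_and, not_and] at c1 c2
      by_cases hg : rep r (i : ℕ) ∈ GG
      · have d1 : (i : ℕ) % 2 = 0 := by
          by_contra h0; exact c1.2 h0 hg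
        have d2 : ((i : ℕ) - 1) % 2 = 0 := by
          by_contra h0; exact c2.2 h0 hg
        omega
      · have d1 : ¬ (i : ℕ) % 2 = 0 := fun h0 => c1.1 h0 hg
        have d2 : ¬ ((i : ℕ) - 1) % 2 = 0 := fun h0 => c2.1 h0 hg
        omega
  have hrig' : ∀ i : Fin s, i ∉ P → deg G (v i) = 2 →
      (C.filter (fun t => t = (i : ℕ) ∨ t + 1 = i)).card ≤ 1 ∧
      (D.filter (fun t => t = (i : ℕ) ∨ t + 1 = i)).card ≤ 1 := by
    intro i hi hi2
    by_contra hno
    obtain ⟨m1, m2, m3⟩ := hsame i (by omega)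
    exact m3 (hrig i hi hi2 m1 m2)
  -- the defects
  set CC := univ.filter (fun i : Fin s =>
      2 ≤ (C.filter (fun t => t = (i : ℕ) ∨ t + 1 = i)).card) with hCC
  set DD := univ.filter (fun i : Fin s =>
      2 ≤ (D.filter (fun t => t = (i : ℕ) ∨ t + 1 = i)).card) with hDD
  have hdef : ((CC ∪ DD) ∩ Q).card ≤ 2 * GG.card := by
    have h1 : (CC ∪ DD) ∩ Q ⊆ (Q.filter (fun i : Fin s => rep r (i : ℕ) ∈ GG)) ∪
        (Q.filter (fun i : Fin s => 1 ≤ (i : ℕ) ∧ rep r ((i : ℕ) - 1) ∈ GG)) := by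
      intro i hi
      obtain ⟨h1, h2⟩ := Finset.mem_inter.1 hi
      have h3 : 1 ≤ (i : ℕ) ∧ (i : ℕ) < s - 1 ∧
          ¬ (rep r (i : ℕ) ∈ GG ↔ rep r ((i : ℕ) - 1) ∈ GG) := by
        apply hsame
        rcases Finset.mem_union.1 h1 with h1 | h1
        · exact Or.inl (Finset.mem_filter.1 h1).2
        · exact Or.inr (Finset.mem_filter.1 h1).2
      rw [Finset.mem_union, Finset.mem_filter, Finset.mem_filter]
      by_cases h4 : rep r (i : ℕ) ∈ GG
      · exact Or.inl ⟨h2, h4⟩
      · refine Or.inr ⟨h2, h3.1, ?_⟩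
        by_contra h5
        exact h3.2.2 ⟨fun h => absurd h h4, fun h => absurd h h5⟩
    have h2 : (Q.filter (fun i : Fin s => rep r (i : ℕ) ∈ GG)).card ≤ GG.card := by
      refine Finset.card_le_card_of_injOn (fun i : Fin s => rep r (i : ℕ)) (fun i hi => ?_) ?_
      · exact (Finset.mem_filter.1 (Finset.mem_coe.1 hi)).2
      · intro i hi j hj hij
        have e1 := rep_not r (hQr i (Finset.mem_filter.1 (Finset.mem_coe.1 hi)).1)
        have e2 := rep_not r (hQr j (Finset.mem_filter.1 (Finset.mem_coe.1 hj)).1)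
        have hij' : rep r (i : ℕ) = rep r (j : ℕ) := hij
        exact Fin.ext (by rw [← e1, ← e2]; exact hij')
    have h3 : (Q.filter (fun i : Fin s => 1 ≤ (i : ℕ) ∧ rep r ((i : ℕ) - 1) ∈ GG)).card ≤ GG.card := by
      refine Finset.card_le_card_of_injOn (fun i : Fin s => rep r ((i : ℕ) - 1)) (fun i hi => ?_) ?_
      · exact (Finset.mem_filter.1 (Finset.mem_coe.1 hi)).2.2
      · intro i hi j hj hij
        obtain ⟨i1, i2, _⟩ := Finset.mem_filter.1 (Finset.mem_coe.1 hi)
        obtain ⟨j1, j2, _⟩ := Finset.mem_filter.1 (Finset.mem_coe.1 hj)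
        have hij' : rep r ((i : ℕ) - 1) = rep r ((j : ℕ) - 1) := hij
        have l1 := rep_le r ((i : ℕ) - 1)
        have l2 := rep_le r ((j : ℕ) - 1)
        rcases lt_trichotomy (i : ℕ) (j : ℕ) with hlt | hlt | hlt
        · have := le_rep r (hQr i i1) (t := (j : ℕ) - 1) (by omega)
          omega
        · exact Fin.ext hlt
        · have := le_rep r (hQr j j1) (t := (i : ℕ) - 1) (by omega)
          omega
    have h4 := (Finset.card_le_card h1).trans (Finset.card_union_le _ _)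
    omega
  have hCDi : ∀ i : Fin s, (C.filter (fun t => t = (i : ℕ) ∨ t + 1 = i)).card +
      (D.filter (fun t => t = (i : ℕ) ∨ t + 1 = i)).card ≤ 2 := by
    intro i
    have h1 := inc_le (C ∪ D) (i : ℕ)
    rw [Finset.filter_union, Finset.card_union_of_disjoint
      (Finset.disjoint_filter_filter hCD)] at h1
    exact h1
  -- choose the half of `Q`
  obtain ⟨H, hH1, hH2, hH3⟩ : ∃ H, DD ∩ Q ⊆ H ∧ H ⊆ Q \ CC ∧ H.card = h0 := by
    have hi1 : (DD ∩ Q).card ≤ ((CC ∪ DD) ∩ Q).card := Finset.card_le_card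
      (Finset.inter_subset_inter_right Finset.subset_union_right)
    have hi2 : (CC ∩ Q).card ≤ ((CC ∪ DD) ∩ Q).card := Finset.card_le_card
      (Finset.inter_subset_inter_right Finset.subset_union_left)
    have hi3 := Finset.card_le_card (Finset.inter_subset_right (s₁ := CC ∪ DD) (s₂ := Q))
    refine Finset.exists_subsuperset_card_eq ?_ ?_ ?_
    · intro i hi
      obtain ⟨h1, h2⟩ := Finset.mem_inter.1 hi
      refine Finset.mem_sdiff.2 ⟨h2, fun h3 => ?_⟩
      have h4 := (Finset.mem_filter.1 h1).2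
      have h5 := (Finset.mem_filter.1 h3).2
      have := hCDi i
      omega
    · omega
    · have h1 : (Q \ CC).card + (CC ∩ Q).card = Q.card := by
        rw [Finset.inter_comm]
        exact Finset.card_sdiff_add_card_inter Q CC
      omega
  have hHQ : H ⊆ Q := hH2.trans Finset.sdiff_subset
  obtain ⟨k1, k2, k3, k4⟩ := key H hHQ hH3
  rw [formZ h]
  refine ⟨_, _, C, D, k1, ?_, hCD, hCDu, ?_, ?_⟩
  · intro k hk
    rw [Finset.card_filter, Finset.card_filter]
    exact k2 k hk
  · intro i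
    have k1' := inc_le C (i : ℕ)
    have k2' := inc_le D (i : ℕ)
    have k3' := hxy0 i
    have k4' := h2d i
    by_cases hiQ : i ∈ Q
    · rw [if_pos hiQ, if_pos hiQ]
      by_cases hiH : i ∈ H
      · rw [if_pos hiH, if_pos hiH]
        refine ⟨?_, k2'⟩
        by_contra hno
        exact (Finset.mem_sdiff.1 (hH2 hiH)).2
          (Finset.mem_filter.2 ⟨Finset.mem_univ _, by omega⟩)
      · rw [if_neg hiH, if_neg hiH]
        refine ⟨k1', ?_⟩
        by_contra hno
        exact hiH (hH1 (Finset.mem_inter.2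
          ⟨Finset.mem_filter.2 ⟨Finset.mem_univ _, by omega⟩, hiQ⟩))
    · rw [if_neg hiQ, if_neg hiQ]
      by_cases hi : i ∈ P
      · -- special vertices
        have hin : ∀ t, t < s - 1 → (t = (i : ℕ) ∨ t + 1 = (i : ℕ)) →
            (t ∈ F ↔ t % 2 = if x0 i ≤ 1 then 0 else 1) := by
          intro t ht hti
          rw [hFm t ht]
          exact hPw i hi t ht hti
        by_cases hx1 : x0 i ≤ 1
        · have hempty : C.filter (fun t => t = (i : ℕ) ∨ t + 1 = i) = ∅ := by
            rw [Finset.filter_eq_empty_iff]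
            intro t ht hti
            have h1 := (Finset.mem_filter.1 ht).2
            rw [hin t (hCr t ht) hti, if_pos hx1] at h1
            omega
          rw [hempty, Finset.card_empty]
          have hps : 2 ≤ y0 i := by
            have h5 := hsp i hi
            omega
          exact ⟨Nat.zero_le _, by omega⟩
        · have hempty : D.filter (fun t => t = (i : ℕ) ∨ t + 1 = i) = ∅ := by
            rw [Finset.filter_eq_empty_iff]
            intro t ht hti
            have h1 := (Finset.mem_filter.1 ht).2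
            rw [hin t (hDr t ht) hti, if_neg hx1] at h1
            omega
          rw [hempty, Finset.card_empty]
          exact ⟨by omega, Nat.zero_le _⟩
      · by_cases hi2 : deg G (v i) = 2
        · have h5 := htwo0 i hi hi2
          have h6 := hrig' i hi hi2
          exact ⟨by omega, by omega⟩
        · have := hbig0 i hi hiQ hi2
          exact ⟨by omega, by omega⟩
  · have k3'' : (univ.filter (fun i =>
        (if i ∈ Q then (if i ∈ H then 1 else 2) else x0 i) = 0)).card = zx :=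
      (Finset.card_filter _ _).trans k3
    have k4'' : (univ.filter (fun i =>
        (if i ∈ Q then (if i ∈ H then 2 else 1) else y0 i) = 0)).card = zy :=
      (Finset.card_filter _ _).trans k4
    rw [k3'', k4'']
    exact hcnt

end Pool.Agent.W_e8e3a0
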