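import Mathlib

/-!
Definitions for the splitting problem of caterpillars (MP_e8e3a0_co).
-/

namespace Pool.Agent.W_e8e3a0

open Finset

open Classical in
/-- The degree of `u` in the finite graph `G`. -/
noncomputable def deg {V : Type} [Fintype V] (G : SimpleGraph V) (u : V) : ℕ :=
  (Finset.univ.filter (fun w => G.Adj u w)).card

/-- A splitting of `G`: the edge set is the disjoint union of the edge sets of two spanning
subgraphs `G₁`, `G₂` (same vertex set) with the same degree list (multiset of degrees). -/
def Splittable {V : Type} [Fintype V] (G : SimpleGraph V) : Prop :=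
  ∃ G₁ G₂ : SimpleGraph V, G₁ ⊔ G₂ = G ∧ G₁ ⊓ G₂ = ⊥ ∧
    Multiset.map (deg G₁) Finset.univ.val = Multiset.map (deg G₂) Finset.univ.val

/-- `G` is a caterpillar with nonempty spine `v 0, v 1, …, v (s-1)` (in this order): the spine
vertices are distinct, two of them are adjacent iff they are consecutive, they are not leaves
(degree at least `2`), and every other vertex is a leaf whose only neighbour is on the spine. -/
structure IsSpine {V : Type} [Fintype V] (G : SimpleGraph V) {s : ℕ} (v : Fin s → V) : Prop where
  inj : Function.Injective v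
  path : ∀ i j : Fin s, G.Adj (v i) (v j) ↔ ((i : ℕ) + 1 = j ∨ (j : ℕ) + 1 = i)
  two : ∀ i, 2 ≤ deg G (v i)
  leaf : ∀ u, (∀ i, u ≠ v i) → ∃ i, ∀ w, G.Adj u w ↔ w = v i

end Pool.Agent.W_e8e3a0
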