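import Pool.Agent.W_e8e3a0.Defs49

namespace Pool.Agent.W_e8e3a0

/-- The spine degree sequences of the caterpillars with `n` vertices and nonempty spine. -/
def DegSeqs (n : ℕ) : Set (List ℕ) :=
  {L | ∃ (V : Type) (_ : Fintype V) (G : SimpleGraph V) (v : Fin L.length → V),
    0 < L.length ∧ IsSpine G v ∧ Fintype.card V = n ∧ ∀ i, deg G (v i) = L.get i}

/-- The spine degree sequences of the non-splittable caterpillars with `n` vertices and nonempty
spine. -/
def NonSplitSeqs (n : ℕ) : Set (List ℕ) :=
  {L | ∃ (V : Type) (_ : Fintype V) (G : SimpleGraph V) (v : Fin L.length → V),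
    0 < L.length ∧ IsSpine G v ∧ Fintype.card V = n ∧ (∀ i, deg G (v i) = L.get i) ∧
    ¬ Splittable G}

end Pool.Agent.W_e8e3a0
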