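import Mathlib

/-! A duality over `ZMod 2` for systems of pairs `(k, d - k)`. -/

namespace Pool.Agent.W_e8e3a0

open Finset

theorem z2 (c : ZMod 2) : c = 0 ∨ c = 1 := by
  revert c; decide

theorem z2_add (a b c : ZMod 2) (h : a + b + c = 0) : a + b = c := by
  revert a b c; decide

/-- `arcs` with prescribed numbers of labels and even degrees at all states `≥ 2` -/
theorem arcs_exist (S : Finset ℕ) (n : ℕ → ZMod 2) (M : ℕ) (hM : ∀ d ∈ S, d ≤ M)
    (hdual : ∀ f : ℕ → ZMod 2, f 0 = 0 → f 1 = 0 → (∀ d ∈ S, ∀ k, k ≤ d → f k + f (d - k) = f d) →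
      ∑ d ∈ S, n d * f d = 0) :
    ∃ A : Finset (ℕ × ℕ), A.card ≤ 2 * (M + 1) ∧ (∀ a ∈ A, a.1 ∈ S ∧ a.2 ≤ a.1) ∧
      (∀ d ∈ S, ∑ a ∈ A, (if a.1 = d then (1 : ZMod 2) else 0) = n d) ∧
      (∀ k, 2 ≤ k → ∑ a ∈ A, ((if a.2 = k then (1 : ZMod 2) else 0) +
        (if a.1 - a.2 = k then (1 : ZMod 2) else 0)) = 0) := by
  classical
  set st : ℕ → (Fin (M + 1) → ZMod 2) := fun k j => if 2 ≤ k ∧ (j : ℕ) = k then 1 else 0 with hst
  set lab : ℕ → (Fin (M + 1) → ZMod 2) := fun d j => if (j : ℕ) = d then 1 else 0 with hlab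
  set B : Finset (ℕ × ℕ) := (S ×ˢ range (M + 1)).filter (fun a => a.2 ≤ a.1) with hB
  have hBm : ∀ d k, (d, k) ∈ B ↔ d ∈ S ∧ k ≤ d := by
    intro d k
    rw [hB, Finset.mem_filter, Finset.mem_product, Finset.mem_range]
    constructor
    · rintro ⟨⟨h1, _⟩, h3⟩; exact ⟨h1, h3⟩
    · rintro ⟨h1, h2⟩
      have := hM d h1
      exact ⟨⟨h1, by show k < M + 1; omega⟩, h2⟩
  set g : ℕ × ℕ → (Fin (M + 1) → ZMod 2) × (Fin (M + 1) → ZMod 2) :=
    fun a => (st a.2 + st (a.1 - a.2), lab a.1) with hg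
  set t : (Fin (M + 1) → ZMod 2) × (Fin (M + 1) → ZMod 2) := ∑ d ∈ S, n d • (0, lab d) with ht
  have hmem : t ∈ Submodule.span (ZMod 2) (g '' (B : Set (ℕ × ℕ))) := by
    by_contra hno
    obtain ⟨ψ, hψ, hker⟩ := Submodule.exists_le_ker_of_notMem hno
    apply hψ
    have hz : ∀ a ∈ B, ψ (g a) = 0 := by
      intro a ha
      have := hker (Submodule.subset_span (Set.mem_image_of_mem g (Finset.mem_coe.2 ha)))
      exact LinearMap.mem_ker.1 this
    have hst0 : st 0 = 0 := by
      funext j; rw [hst]; simp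
    have hst1 : st 1 = 0 := by
      funext j; rw [hst]; simp
    have hadd : ∀ u w : Fin (M + 1) → ZMod 2, ∀ l : Fin (M + 1) → ZMod 2,
        ψ (u + w, l) = ψ (u, 0) + ψ (w, 0) + ψ (0, l) := by
      intro u w l
      rw [← map_add, ← map_add]
      congr 1
      simp
    have h00 : ψ (0, 0) = 0 := by
      have : ((0, 0) : (Fin (M + 1) → ZMod 2) × (Fin (M + 1) → ZMod 2)) = 0 := rfl
      rw [this, map_zero]
    have harc : ∀ d ∈ S, ∀ k, k ≤ d → ψ (st k, 0) + ψ (st (d - k), 0) + ψ (0, lab d) = 0 := by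
      intro d hd k hk
      have h1 := hz (d, k) ((hBm d k).2 ⟨hd, hk⟩)
      rw [← hadd]
      exact h1
    have hphi : ∀ d ∈ S, ψ (st d, 0) = ψ (0, lab d) := by
      intro d hd
      have h1 := harc d hd 0 (Nat.zero_le _)
      rw [hst0, h00, Nat.sub_zero] at h1
      have h2 := z2_add _ _ _ h1
      rw [zero_add] at h2
      exact h2
    have h1 := hdual (fun k => ψ (st k, 0)) (by show ψ (st 0, 0) = 0; rw [hst0, h00])
      (by show ψ (st 1, 0) = 0; rw [hst1, h00]) (fun d hd k hk => by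
        show ψ (st k, 0) + ψ (st (d - k), 0) = ψ (st d, 0)
        rw [hphi d hd]
        exact z2_add _ _ _ (harc d hd k hk))
    rw [ht, map_sum, ← h1]
    refine Finset.sum_congr rfl (fun d hd => ?_)
    rw [map_smul, smul_eq_mul]
    show n d * ψ (0, lab d) = n d * ψ (st d, 0)
    rw [hphi d hd]
  rw [Submodule.mem_span_image_finset_iff_exists_fun'] at hmem
  obtain ⟨c, hc⟩ := hmem
  -- a solution with the least number of arcs
  have hne : (B.powerset.filter (fun A => ∑ a ∈ A, g a = t)).Nonempty := by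
    refine ⟨B.filter (fun a => c a = 1), Finset.mem_filter.2
      ⟨Finset.mem_powerset.2 (Finset.filter_subset _ _), ?_⟩⟩
    rw [← hc, Finset.sum_filter]
    refine Finset.sum_congr rfl (fun a _ => ?_)
    rcases z2 (c a) with h | h
    · rw [h, zero_smul, if_neg (by decide)]
    · rw [h, one_smul, if_pos rfl]
  obtain ⟨A, hA, hmin⟩ := Finset.exists_min_image _ Finset.card hne
  obtain ⟨hAB', hsum⟩ := Finset.mem_filter.1 hA
  rw [Finset.mem_powerset] at hAB'
  have hAB : ∀ a ∈ A, a.1 ∈ S ∧ a.2 ≤ a.1 := by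
    intro a ha
    exact (hBm a.1 a.2).1 (hAB' ha)
  have hcardA : A.card ≤ 2 * (M + 1) := by
    by_contra hbig
    have hfr : Module.finrank (ZMod 2) ((Fin (M + 1) → ZMod 2) × (Fin (M + 1) → ZMod 2)) =
        2 * (M + 1) := by
      rw [Module.finrank_prod, Module.finrank_fin_fun]
      ring
    have hnl : ¬ LinearIndependent (ZMod 2) (fun a : A => g a.1) := by
      intro hli
      have h1 := hli.fintype_card_le_finrank
      rw [hfr, Fintype.card_coe] at h1
      exact hbig h1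
    rw [Fintype.not_linearIndependent_iff] at hnl
    obtain ⟨c', hc', ⟨a0, ha0⟩, hc0⟩ := hnl
    set c2 : ℕ × ℕ → ZMod 2 := fun a => if h : a ∈ A then c' ⟨a, h⟩ else 0 with hc2
    have hs2 : ∑ a ∈ A, c2 a • g a = 0 := by
      rw [← hc', ← Finset.sum_coe_sort A]
      refine Finset.sum_congr rfl (fun a _ => ?_)
      rw [hc2]
      simp
    have hs3 : ∑ a ∈ A.filter (fun a => c2 a = 1), g a = 0 := by
      rw [← hs2, Finset.sum_filter]
      refine Finset.sum_congr rfl (fun a _ => ?_)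
      rcases z2 (c2 a) with h | h
      · rw [h, zero_smul, if_neg (by decide)]
      · rw [h, one_smul, if_pos rfl]
    have hs4 := Finset.sum_filter_add_sum_filter_not A (fun a => c2 a = 1) g
    rw [hs3, zero_add, hsum] at hs4
    have hmem2 : A.filter (fun a => ¬ c2 a = 1) ∈
        B.powerset.filter (fun A => ∑ a ∈ A, g a = t) :=
      Finset.mem_filter.2 ⟨Finset.mem_powerset.2 ((Finset.filter_subset _ _).trans hAB'), hs4⟩
    have h1 := hmin _ hmem2
    have h2 : c2 a0 = 1 := by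
      rcases z2 (c2 a0) with h | h
      · exfalso
        apply hc0
        rw [hc2] at h
        simpa [ha0] using h
      · exact h
    have h3 : (A.filter (fun a => ¬ c2 a = 1)).card < A.card := by
      refine Finset.card_lt_card (Finset.filter_ssubset.2 ⟨a0, ha0, ?_⟩)
      intro h; exact h h2
    omega
  have ht2 : t = (0, ∑ d ∈ S, n d • lab d) := by
    rw [ht]
    refine Prod.ext ?_ ?_
    · rw [Prod.fst_sum]
      exact Finset.sum_eq_zero (fun d _ => by simp)
    · rw [Prod.snd_sum]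
      rfl
  rw [ht2] at hsum
  have e1 : ∑ a ∈ A, (g a).1 = 0 := by
    have h1 := congrArg Prod.fst hsum
    rw [Prod.fst_sum] at h1
    exact h1
  have e2 : ∑ a ∈ A, (g a).2 = ∑ d ∈ S, n d • lab d := by
    have h1 := congrArg Prod.snd hsum
    rw [Prod.snd_sum] at h1
    exact h1
  refine ⟨A, hcardA, hAB, ?_, ?_⟩
  · intro d hd
    have h1 := congrFun e2 ⟨d, by have := hM d hd; omega⟩
    rw [Finset.sum_apply, Finset.sum_apply] at h1
    have h2 : ∑ a ∈ A, (if a.1 = d then (1 : ZMod 2) else 0) =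
        ∑ a ∈ A, (g a).2 ⟨d, by have := hM d hd; omega⟩ := by
      refine Finset.sum_congr rfl (fun a _ => ?_)
      rw [hg, hlab]
      exact if_congr eq_comm rfl rfl
    rw [h2, h1]
    rw [Finset.sum_eq_single d]
    · rw [hlab]; simp
    · intro b _ hb
      rw [hlab]
      simp [Ne.symm hb]
    · intro hn; exact absurd hd hn
  · intro k hk
    by_cases hkM : k ≤ M
    · have h1 := congrFun e1 ⟨k, by omega⟩
      rw [Finset.sum_apply] at h1
      refine Eq.trans (Finset.sum_congr rfl (fun a _ => ?_)) h1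
      rw [hg]
      show _ = st a.2 ⟨k, by omega⟩ + st (a.1 - a.2) ⟨k, by omega⟩
      rw [hst]
      have h5 : ∀ z : ℕ, (if z = k then (1 : ZMod 2) else 0) =
          (if 2 ≤ z ∧ k = z then (1 : ZMod 2) else 0) := by
        intro z
        by_cases hz : z = k
        · rw [if_pos hz, if_pos ⟨by omega, hz.symm⟩]
        · rw [if_neg hz, if_neg (fun h => hz h.2.symm)]
      show (if a.2 = k then (1 : ZMod 2) else 0) + (if a.1 - a.2 = k then (1 : ZMod 2) else 0) =
        (if 2 ≤ a.2 ∧ k = a.2 then (1 : ZMod 2) else 0) +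
        (if 2 ≤ a.1 - a.2 ∧ k = a.1 - a.2 then (1 : ZMod 2) else 0)
      rw [h5 a.2, h5 (a.1 - a.2)]
    · refine Finset.sum_eq_zero (fun a ha => ?_)
      obtain ⟨h1, h2⟩ := hAB a ha
      have := hM a.1 h1
      rw [if_neg (by omega), if_neg (by omega), add_zero]

end Pool.Agent.W_e8e3a0
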