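import Pool.Agent.W_e8e3a0.LeafyM49

namespace Pool.Agent.W_e8e3a0

open Finset Num49

variable {V : Type} [Fintype V]

/-- the dual condition is necessary -/
theorem dual_nec {G : SimpleGraph V} {s : ℕ} {v : Fin s → V} (h : IsSpine G v)
    (hG : Splittable G) (f : ℕ → ZMod 2) (h0 : f 0 = 0) (h1 : f 1 = 0)
    (hf : ∀ i, ∀ k, k ≤ deg G (v i) → f k + f (deg G (v i) - k) = f (deg G (v i))) :
    ∑ i, f (deg G (v i)) = 0 := by
  classical
  obtain ⟨x, y, C, D, hxy, hbal, _⟩ := (formZ h).1 hG
  have e1 : ∑ i, f (deg G (v i)) = ∑ i, f (x i) + ∑ i, f (y i) := by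
    rw [← Finset.sum_add_distrib]
    refine Finset.sum_congr rfl (fun i _ => ?_)
    have h2 := hxy i
    rw [← hf i (x i) (by omega)]
    congr 2
    omega
  obtain ⟨N, hN1, hN2⟩ : ∃ N, (∀ i ∈ (univ : Finset (Fin s)), x i < N) ∧
      (∀ i ∈ (univ : Finset (Fin s)), y i < N) := by
    refine ⟨∑ i, x i + ∑ i, y i + 1, fun i hi => ?_, fun i hi => ?_⟩
    · have := Finset.single_le_sum (f := x) (fun _ _ => Nat.zero_le _) hi
      omega
    · have := Finset.single_le_sum (f := y) (fun _ _ => Nat.zero_le _) hi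
      omega
  have e2 : ∑ i, f (x i) = ∑ i, f (y i) := by
    rw [sum_by_label univ x f N hN1, sum_by_label univ y f N hN2]
    refine Finset.sum_congr rfl (fun e _ => ?_)
    rcases Nat.lt_or_ge e 2 with he | he
    · have : f e = 0 := by interval_cases e <;> assumption
      rw [this, mul_zero, mul_zero]
    · congr 1
      have h2 := hbal e he
      rw [Finset.card_filter, Finset.card_filter] at h2
      exact_mod_cast congrArg (Nat.cast (R := ZMod 2)) h2
  rw [e1, e2]
  exact CharTwo.add_self_eq_zero _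

/-- the dual condition is sufficient when no spine degree is two and all of them are frequent -/
theorem dual_suff {G : SimpleGraph V} {s : ℕ} {v : Fin s → V} (h : IsSpine G v) (hs : 0 < s)
    (hev : Even G.edgeSet.ncard) (M : ℕ)
    (hM : ∀ i, 3 ≤ deg G (v i) ∧ deg G (v i) ≤ M)
    (hrich : ∀ i, 43 * (M + 1) ≤ (univ.filter (fun j => deg G (v j) = deg G (v i))).card)
    (hdual : ∀ f : ℕ → ZMod 2, f 0 = 0 → f 1 = 0 →
      (∀ i, ∀ k, k ≤ deg G (v i) → f k + f (deg G (v i) - k) = f (deg G (v i))) →
      ∑ i, f (deg G (v i)) = 0) : Splittable G := by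
  classical
  set d : Fin s → ℕ := fun i => deg G (v i) with hd
  set S : Finset ℕ := univ.image d with hS
  have hSm : ∀ e, e ∈ S ↔ ∃ i, d i = e := by
    intro e
    rw [hS, Finset.mem_image]
    exact ⟨fun ⟨i, _, hi⟩ => ⟨i, hi⟩, fun ⟨i, hi⟩ => ⟨i, Finset.mem_univ _, hi⟩⟩
  have hSM : ∀ e ∈ S, e ≤ M := by
    intro e he
    obtain ⟨i, rfl⟩ := (hSm e).1 he
    exact (hM i).2
  obtain ⟨A, hAc, hA1, hA2, hA3⟩ := arcs_exist S
    (fun e => ∑ i, (if d i = e then (1 : ZMod 2) else 0)) M hSM (by
      intro f h0 h1 hf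
      have h2 := hdual f h0 h1 (fun i k hk => hf (d i) ((hSm _).2 ⟨i, rfl⟩) k hk)
      have h3 : ∑ e ∈ S, (∑ i, (if d i = e then (1 : ZMod 2) else 0)) * f e = ∑ i, f (d i) := by
        simp only [Finset.sum_mul]
        rw [Finset.sum_comm]
        refine Finset.sum_congr rfl (fun i _ => ?_)
        rw [Finset.sum_eq_single (d i)]
        · simp
        · intro b _ hb; simp [Ne.symm hb]
        · intro hn; exact absurd ((hSm _).2 ⟨i, rfl⟩) hn
      rw [h3]
      exact h2)
  have hM4 : 4 ≤ M + 1 := by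
    have h1 := hM ⟨0, hs⟩
    omega
  obtain ⟨p, hp1, hp2⟩ := place hs d A (fun a ha => by
    obtain ⟨i, hi⟩ := (hSm _).1 (hA1 a ha).1
    have h1 := hrich i
    rw [← hi]
    refine le_trans ?_ h1
    omega)
  obtain ⟨hQ2, a, b, hab, hpar, hn⟩ := leafy_parts d (fun i => (hM i).1) A
    (fun a ha => (hA1 a ha).2) (by
      intro e
      by_cases he : e ∈ S
      · exact hA2 e he
      · rw [Finset.sum_eq_zero, Finset.sum_eq_zero]
        · intro i _
          exact if_neg (fun hh => he ((hSm _).2 ⟨i, hh⟩))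
        · intro a ha
          exact if_neg (fun hh : a.1 = e => he (by rw [← hh]; exact (hA1 a ha).1))) hA3 p hp1 hp2
  have hPc : (A.image p).card ≤ 2 * (M + 1) := Finset.card_image_le.trans hAc
  have hscard : 43 * (M + 1) ≤ s := by
    have h1 := hrich ⟨0, hs⟩
    have h2 := Finset.card_le_univ (univ.filter (fun j => d j = d ⟨0, hs⟩))
    rw [Fintype.card_fin] at h2
    exact h1.trans h2
  refine leafy_split h hev (fun i => (hM i).1) (A.image p) ?_ a b hab hpar hn
    (univ.filter (fun i => i ∉ A.image p ∧ d i = 3)) (by intro i; simp [hd]) hQ2 (by omega) ?_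
  · intro i hi j hj hij
    obtain ⟨a', ha', rfl⟩ := Finset.mem_image.1 hi
    obtain ⟨b', hb', rfl⟩ := Finset.mem_image.1 hj
    exact hp2 a' ha' b' hb' (fun hh => hij (by rw [hh]))
  · by_cases hex : ∃ i, d i = 3
    · obtain ⟨i, hi⟩ := hex
      right
      have h1 := hrich i
      have h2 : (univ.filter (fun j => d j = 3)).card ≤
          (univ.filter (fun i => i ∉ A.image p ∧ d i = 3)).card + (A.image p).card := by
        rw [← Finset.card_union_of_disjoint]
        · refine Finset.card_le_card (fun j hj => ?_)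
          rw [Finset.mem_union]
          by_cases hjP : j ∈ A.image p
          · exact Or.inr hjP
          · exact Or.inl (Finset.mem_filter.2 ⟨Finset.mem_univ _, hjP,
              (Finset.mem_filter.1 hj).2⟩)
        · rw [Finset.disjoint_left]
          intro j hj hj2
          exact (Finset.mem_filter.1 hj).2.1 hj2
      have h3 : 43 * (M + 1) ≤ (univ.filter (fun j => d j = 3)).card := by
        rw [← hi]; exact h1
      omega
    · left
      rw [Finset.card_eq_zero, Finset.filter_eq_empty_iff]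
      intro i _ hh
      exact hex ⟨i, hh.2⟩

/-- when the spine degrees contain `a`, `a + 1` and do not jump by a factor more than two above
`a + 1`, every admissible function vanishes on them -/
theorem adm_zero {s : ℕ} (d : Fin s → ℕ) (f : ℕ → ZMod 2) (h0 : f 0 = 0) (h1 : f 1 = 0)
    (hf : ∀ i, ∀ k, k ≤ d i → f k + f (d i - k) = f (d i)) (a : ℕ)
    (ha : ∃ i, d i = a) (ha1 : ∃ i, d i = a + 1)
    (hstep : ∀ i, a + 1 < d i → ∃ j, a < d j ∧ d j < d i ∧ d i ≤ 2 * d j) (i : Fin s) :
    f (d i) = 0 := by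
  obtain ⟨i0, hi0⟩ := ha
  obtain ⟨i1, hi1⟩ := ha1
  have hshift : ∀ k, k ≤ a → f (k + 1) = f k + (f a + f (a + 1)) := by
    intro k hk
    have e1 := hf i0 k (by omega)
    have e2 := hf i1 (k + 1) (by omega)
    rw [hi0] at e1
    rw [hi1, show a + 1 - (k + 1) = a - k by omega] at e2
    rw [← e1, ← e2]
    generalize f k = x
    generalize f (k + 1) = y
    generalize f (a - k) = z
    revert x y z
    decide
  have hsum : f a + f (a + 1) = 0 := by
    have e := hshift 0 (Nat.zero_le _)
    rw [zero_add, h1, h0, zero_add] at e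
    exact e.symm
  have hlow : ∀ k, k ≤ a + 1 → f k = 0 := by
    intro k
    induction k with
    | zero => intro _; exact h0
    | succ k ih =>
      intro hk
      rw [hshift k (by omega), ih (by omega), hsum, add_zero]
  have hall : ∀ n, ∀ i, d i = n → a < n → ∀ k, k ≤ n → f k = 0 := by
    intro n
    induction n using Nat.strong_induction_on with
    | _ n ih =>
    intro i hi han k hk
    rcases Nat.lt_or_ge (a + 1) n with hlt | hge
    · obtain ⟨j, hj1, hj2, hj3⟩ := hstep i (by omega)
      have hz := ih (d j) (by omega) j rfl hj1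
      have hfn : f n = 0 := by
        have e := hf i (d j) (by omega)
        rw [hi, hz (d j) le_rfl, hz (n - d j) (by omega), add_zero] at e
        exact e.symm
      rcases Nat.lt_or_ge (d j) k with hk2 | hk2
      · have e := hf i k (by omega)
        rw [hi, hfn, hz (n - k) (by omega), add_zero] at e
        exact e
      · exact hz k hk2
    · exact hlow k (by omega)
  rcases Nat.lt_or_ge a (d i) with h | h
  · exact hall (d i) i rfl h (d i) le_rfl
  · exact hlow (d i) (by omega)

theorem consec_suff {G : SimpleGraph V} {s : ℕ} {v : Fin s → V} (h : IsSpine G v) (hs : 0 < s)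
    (M : ℕ) (hM : ∀ i, 3 ≤ deg G (v i) ∧ deg G (v i) ≤ M)
    (hrich : ∀ i, 43 * (M + 1) ≤ (univ.filter (fun j => deg G (v j) = deg G (v i))).card)
    (a : ℕ) (ha : ∃ i, deg G (v i) = a) (ha1 : ∃ i, deg G (v i) = a + 1)
    (hstep : ∀ i, a + 1 < deg G (v i) → ∃ j, a < deg G (v j) ∧ deg G (v j) < deg G (v i) ∧
      deg G (v i) ≤ 2 * deg G (v j)) :
    Splittable G ↔ Even G.edgeSet.ncard := by
  constructor
  · intro hG
    exact (necessary hs h hG).1
  · intro hev
    refine dual_suff h hs hev M hM hrich (fun f h0 h1 hf => ?_)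
    exact Finset.sum_eq_zero (fun i _ =>
      adm_zero (fun i => deg G (v i)) f h0 h1 hf a ha ha1 hstep i)

end Pool.Agent.W_e8e3a0
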