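import Pool.Agent.W_e8e3a0.MixedM49
import Pool.Agent.W_e8e3a0.DualM49

namespace Pool.Agent.W_e8e3a0

open Finset Num49

variable {V : Type} [Fintype V]

theorem good_edges {s : ℕ} (d : Fin s → ℕ) (W : Finset ℕ)
    (hW : ∀ t, t < s - 1 → gd d t → t ∈ W) (q : ℕ → Prop) [DecidablePred q]
    (hq : ∀ t, q t ∨ q (t + 1)) (T : Finset (Fin s))
    (hT : ∀ j ∈ T, 3 ≤ d j ∧ ∀ k : Fin s, ((k : ℕ) + 1 = j ∨ (j : ℕ) + 1 = k) → 3 ≤ d k) :
    T.card ≤ 2 * (W.filter q).card + 2 := by
  classical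
  have hsub : T.image (fun i : Fin s => (i : ℕ)) ⊆
      ({0, s - 1} : Finset ℕ) ∪ (W.filter q).biUnion (fun t => ({t, t + 1} : Finset ℕ)) := by
    intro n hn
    obtain ⟨j, hj, rfl⟩ := Finset.mem_image.1 hn
    obtain ⟨h3, hk⟩ := hT j hj
    have hjs := j.2
    rw [Finset.mem_union, Finset.mem_biUnion]
    by_cases h0 : (j : ℕ) = 0 ∨ (j : ℕ) = s - 1
    · left
      rw [Finset.mem_insert, Finset.mem_singleton]
      exact h0
    · right
      have w1 : (j : ℕ) - 1 ∈ W := by
        refine hW _ (by omega) (fun k hkk => ?_)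
        rcases hkk with hkk | hkk
        · exact hk k (Or.inl (by omega))
        · have : k = j := Fin.ext (by omega)
          rw [this]; exact h3
      have w2 : (j : ℕ) ∈ W := by
        refine hW _ (by omega) (fun k hkk => ?_)
        rcases hkk with hkk | hkk
        · have : k = j := Fin.ext hkk
          rw [this]; exact h3
        · exact hk k (Or.inr hkk.symm)
      rcases hq ((j : ℕ) - 1) with hqq | hqq
      · refine ⟨(j : ℕ) - 1, Finset.mem_filter.2 ⟨w1, hqq⟩, ?_⟩
        rw [Finset.mem_insert, Finset.mem_singleton]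
        omega
      · have e : (j : ℕ) - 1 + 1 = j := by omega
        rw [e] at hqq
        exact ⟨j, Finset.mem_filter.2 ⟨w2, hqq⟩, Finset.mem_insert_self _ _⟩
  have h1 := Finset.card_le_card hsub
  rw [Finset.card_image_of_injective _ Fin.val_injective] at h1
  have h2 := Finset.card_union_le ({0, s - 1} : Finset ℕ)
    ((W.filter q).biUnion (fun t => ({t, t + 1} : Finset ℕ)))
  have h3 : ({0, s - 1} : Finset ℕ).card ≤ 2 := Finset.card_insert_le _ _
  have h4 : ((W.filter q).biUnion (fun t => ({t, t + 1} : Finset ℕ))).card ≤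
      2 * (W.filter q).card := by
    refine Finset.card_biUnion_le.trans ?_
    rw [mul_comm, ← smul_eq_mul, ← Finset.sum_const]
    exact Finset.sum_le_sum (fun i _ => Finset.card_insert_le _ _)
  omega

/-- the dual condition is sufficient when all spine degrees are frequent at vertices without
neighbours of degree two on the spine -/
theorem dual_suff2 {G : SimpleGraph V} {s : ℕ} {v : Fin s → V} (h : IsSpine G v) (hs : 0 < s)
    (hev : Even G.edgeSet.ncard) (M : ℕ) (hM : ∀ i, deg G (v i) ≤ M)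
    (hrich : ∀ i, 43 * (M + 1) ≤ {j | deg G (v j) = deg G (v i) ∧
      ∀ k : Fin s, ((k : ℕ) + 1 = j ∨ (j : ℕ) + 1 = k) → 3 ≤ deg G (v k)}.ncard)
    (hdual : ∀ f : ℕ → ZMod 2, f 0 = 0 → f 1 = 0 →
      (∀ i, ∀ k, k ≤ deg G (v i) → f k + f (deg G (v i) - k) = f (deg G (v i))) →
      ∑ i, f (deg G (v i)) = 0) : Splittable G := by
  classical
  set d : Fin s → ℕ := fun i => deg G (v i) with hd
  have h2d : ∀ i, 2 ≤ d i := h.two
  set g : Fin s → Prop := fun j => ∀ k : Fin s, ((k : ℕ) + 1 = j ∨ (j : ℕ) + 1 = k) → 3 ≤ d k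
    with hg
  have hr : ∀ i, 43 * (M + 1) ≤ (univ.filter (fun j => d j = d i ∧ g j)).card := by
    intro i
    have h1 := hrich i
    rw [Set.ncard_eq_toFinset_card'] at h1
    refine h1.trans (Finset.card_le_card (fun j hj => ?_))
    rw [Set.mem_toFinset] at hj
    exact Finset.mem_filter.2 ⟨Finset.mem_univ _, hj⟩
  have hscard : 43 * (M + 1) ≤ s := by
    have h1 := hr ⟨0, hs⟩
    have h2 := Finset.card_le_univ (univ.filter (fun j => d j = d ⟨0, hs⟩ ∧ g j))
    rw [Fintype.card_fin] at h2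
    exact h1.trans h2
  obtain ⟨i3, hi3⟩ : ∃ i, 3 ≤ d i := by
    by_cases h0 : 3 ≤ d ⟨0, hs⟩
    · exact ⟨_, h0⟩
    · have h1 := hr ⟨0, hs⟩
      have h2 : 0 < (univ.filter (fun j => d j = d ⟨0, hs⟩ ∧ g j)).card := by omega
      obtain ⟨j, hj⟩ := Finset.card_pos.1 h2
      obtain ⟨_, _, hj3⟩ := Finset.mem_filter.1 hj
      have hjs := j.2
      by_cases hj0 : (j : ℕ) = 0
      · exact ⟨⟨1, by omega⟩, hj3 _ (Or.inr (by show (j : ℕ) + 1 = 1; omega))⟩
      · exact ⟨⟨(j : ℕ) - 1, by omega⟩, hj3 _ (Or.inl (by show (j : ℕ) - 1 + 1 = j; omega))⟩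
  have hM4 : 4 ≤ M + 1 := by
    have h1 : d i3 ≤ M := hM i3
    omega
  set S : Finset ℕ := univ.image d with hS
  have hSm : ∀ e, e ∈ S ↔ ∃ i, d i = e := by
    intro e
    rw [hS, Finset.mem_image]
    exact ⟨fun ⟨i, _, hi⟩ => ⟨i, hi⟩, fun ⟨i, hi⟩ => ⟨i, Finset.mem_univ _, hi⟩⟩
  have hSM : ∀ e ∈ S, e ≤ M := by
    intro e he
    obtain ⟨i, rfl⟩ := (hSm e).1 he
    exact hM i
  obtain ⟨A0, hAc0, hA10, hA20, hA30⟩ := arcs_exist S
    (fun e => ∑ i, (if d i = e then (1 : ZMod 2) else 0)) M hSM (by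
      intro f h0 h1 hf
      have h2 := hdual f h0 h1 (fun i k hk => hf (d i) ((hSm _).2 ⟨i, rfl⟩) k hk)
      have h3 : ∑ e ∈ S, (∑ i, (if d i = e then (1 : ZMod 2) else 0)) * f e = ∑ i, f (d i) := by
        simp only [Finset.sum_mul]
        rw [Finset.sum_comm]
        refine Finset.sum_congr rfl (fun i _ => ?_)
        rw [Finset.sum_eq_single (d i)]
        · simp
        · intro b _ hb; simp [Ne.symm hb]
        · intro hn; exact absurd ((hSm _).2 ⟨i, rfl⟩) hn
      rw [h3]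
      exact h2)
  -- remove the arc `(1, 1)`
  set A := A0.erase (2, 1) with hA
  have hAc : A.card ≤ 2 * (M + 1) := (Finset.card_le_card (Finset.erase_subset _ _)).trans hAc0
  have hA1 : ∀ a ∈ A, a.1 ∈ S ∧ a.2 ≤ a.1 := fun a ha => hA10 a (Finset.mem_of_mem_erase ha)
  have herase : ∀ F : ℕ × ℕ → ZMod 2, F (2, 1) = 0 → ∑ a ∈ A, F a = ∑ a ∈ A0, F a := by
    intro F hF
    rw [hA]
    exact Finset.sum_erase _ hF
  have hA2 : ∀ e, e ≠ 2 → ∑ a ∈ A, (if a.1 = e then (1 : ZMod 2) else 0) =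
      ∑ i, (if d i = e then (1 : ZMod 2) else 0) := by
    intro e he2
    rw [herase _ (if_neg (fun hh => he2 hh.symm))]
    by_cases he : e ∈ S
    · exact hA20 e he
    · rw [Finset.sum_eq_zero, Finset.sum_eq_zero]
      · intro i _
        exact if_neg (fun hh => he ((hSm _).2 ⟨i, hh⟩))
      · intro a ha
        exact if_neg (fun hh : a.1 = e => he (by rw [← hh]; exact (hA10 a ha).1))
  have hA3 : ∀ k, 2 ≤ k → ∑ a ∈ A, ((if a.2 = k then (1 : ZMod 2) else 0) +
      (if a.1 - a.2 = k then (1 : ZMod 2) else 0)) = 0 := by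
    intro k hk
    rw [herase _ (by
      show (if 1 = k then (1 : ZMod 2) else 0) + (if 2 - 1 = k then (1 : ZMod 2) else 0) = 0
      rw [if_neg (by omega), add_zero])]
    exact hA30 k hk
  obtain ⟨p, hp1, hp2⟩ := place_good hs d g A (fun a ha => by
    obtain ⟨i, hi⟩ := (hSm _).1 (hA1 a ha).1
    have h1 := hr i
    rw [← hi]
    refine le_trans ?_ h1
    omega)
  obtain ⟨hQ2, a, b, hab, hpar, hn, haA⟩ := mixed_parts d h2d A
    (fun a ha => (hA1 a ha).2) hA2 hA3 p (fun a ha => (hp1 a ha).1) hp2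
  have hPc : (A.image p).card ≤ 2 * (M + 1) := Finset.card_image_le.trans hAc
  -- free edges
  set W : Finset ℕ := (range (s - 1)).filter (fun t => gd d t) with hW
  have hWm : ∀ t, t < s - 1 → gd d t → t ∈ W := fun t h1 h2 =>
    Finset.mem_filter.2 ⟨Finset.mem_range.2 h1, h2⟩
  have hT : ∀ j ∈ univ.filter (fun j => d j = d i3 ∧ g j),
      3 ≤ d j ∧ ∀ k : Fin s, ((k : ℕ) + 1 = j ∨ (j : ℕ) + 1 = k) → 3 ≤ d k := by
    intro j hj
    obtain ⟨_, h1, h2⟩ := Finset.mem_filter.1 hj
    exact ⟨by omega, h2⟩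
  have w0 := good_edges d W hWm (fun t => t % 2 = 0) (fun t => by omega) _ hT
  have w1 := good_edges d W hWm (fun t => ¬ t % 2 = 0) (fun t => by omega) _ hT
  have hr3 := hr i3
  refine mixed_split h hev (A.image p) ?_ ?_ a b hab ?_ hpar hn
    (univ.filter (fun i => i ∉ A.image p ∧ d i = 3)) (by intro i; simp [hd]) hQ2 (by omega)
    W (Finset.filter_subset _ _) (fun t ht => (Finset.mem_filter.1 ht).2) (by omega) (by omega) ?_
  · intro i hi j hj hij
    obtain ⟨a', ha', rfl⟩ := Finset.mem_image.1 hi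
    obtain ⟨b', hb', rfl⟩ := Finset.mem_image.1 hj
    exact hp2 a' ha' b' hb' (fun hh => hij (by rw [hh]))
  · intro i hi k hk
    obtain ⟨a', ha', rfl⟩ := Finset.mem_image.1 hi
    exact (hp1 a' ha').2 k hk
  · intro i hi
    obtain ⟨c, hc, rfl⟩ := Finset.mem_image.1 hi
    by_contra hno
    push Not at hno
    have e1 := haA c hc
    have e2 := (hp1 c hc).1
    have e3 := hab (p c)
    have e4 : c = (2, 1) := Prod.ext (by show c.1 = 2; omega) (by show c.2 = 1; omega)
    exact (Finset.mem_erase.1 hc).1 e4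
  · by_cases hex : ∃ i, d i = 3
    · obtain ⟨i, hi⟩ := hex
      right
      have h1 := hr i
      have h2 : (univ.filter (fun j => d j = 3)).card ≤
          (univ.filter (fun i => i ∉ A.image p ∧ d i = 3)).card + (A.image p).card := by
        rw [← Finset.card_union_of_disjoint]
        · refine Finset.card_le_card (fun j hj => ?_)
          rw [Finset.mem_union]
          by_cases hjP : j ∈ A.image p
          · exact Or.inr hjP
          · exact Or.inl (Finset.mem_filter.2 ⟨Finset.mem_univ _, hjP,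
              (Finset.mem_filter.1 hj).2⟩)
        · rw [Finset.disjoint_left]
          intro j hj hj2
          exact (Finset.mem_filter.1 hj).2.1 hj2
      have h3 : (univ.filter (fun j => d j = d i ∧ g j)).card ≤
          (univ.filter (fun j => d j = 3)).card := by
        refine Finset.card_le_card (fun j hj => ?_)
        obtain ⟨_, q1, _⟩ := Finset.mem_filter.1 hj
        exact Finset.mem_filter.2 ⟨Finset.mem_univ _, q1.trans hi⟩
      omega
    · left
      rw [Finset.card_eq_zero, Finset.filter_eq_empty_iff]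
      intro i _ hh
      exact hex ⟨i, hh.2⟩

theorem consec_suff2 {G : SimpleGraph V} {s : ℕ} {v : Fin s → V} (h : IsSpine G v) (hs : 0 < s)
    (M : ℕ) (hM : ∀ i, deg G (v i) ≤ M)
    (hrich : ∀ i, 43 * (M + 1) ≤ {j | deg G (v j) = deg G (v i) ∧
      ∀ k : Fin s, ((k : ℕ) + 1 = j ∨ (j : ℕ) + 1 = k) → 3 ≤ deg G (v k)}.ncard)
    (a : ℕ) (ha : ∃ i, deg G (v i) = a) (ha1 : ∃ i, deg G (v i) = a + 1)
    (hstep : ∀ i, a + 1 < deg G (v i) → ∃ j, a < deg G (v j) ∧ deg G (v j) < deg G (v i) ∧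
      deg G (v i) ≤ 2 * deg G (v j)) :
    Splittable G ↔ Even G.edgeSet.ncard := by
  constructor
  · intro hG
    exact (necessary hs h hG).1
  · intro hev
    refine dual_suff2 h hs hev M hM hrich (fun f h0 h1 hf => ?_)
    exact Finset.sum_eq_zero (fun i _ =>
      adm_zero (fun i => deg G (v i)) f h0 h1 hf a ha ha1 hstep i)

end Pool.Agent.W_e8e3a0
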