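import Pool.Agent.W_e8e3a0.DualW49
import Pool.Agent.W_e8e3a0.WideO49

/-! The dual condition is sufficient when all spine degrees are frequent and there are many odd
gaps between spine vertices of degree at least three. -/

namespace Pool.Agent.W_e8e3a0

open Finset Num49

variable {V : Type} [Fintype V]

/-- the dual condition is sufficient when all spine degrees are frequent, and so are the odd gaps
between spine vertices of degree at least three -/
theorem dual_suff4 {G : SimpleGraph V} {s : ℕ} {v : Fin s → V} (h : IsSpine G v) (hs : 0 < s)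
    (hev : Even G.edgeSet.ncard) (M : ℕ) (hM : ∀ i, deg G (v i) ≤ M)
    (hrich : ∀ i, 30 * (M + 1) ≤ {j | deg G (v j) = deg G (v i)}.ncard)
    (hedge : 20 * (M + 1) ≤ {p : Fin s × Fin s | p.1 < p.2 ∧ Odd ((p.2 : ℕ) - p.1) ∧
      3 ≤ deg G (v p.1) ∧ 3 ≤ deg G (v p.2) ∧
      ∀ k, p.1 < k → k < p.2 → deg G (v k) = 2}.ncard)
    (hdual : ∀ f : ℕ → ZMod 2, f 0 = 0 → f 1 = 0 →
      (∀ i, ∀ k, k ≤ deg G (v i) → f k + f (deg G (v i) - k) = f (deg G (v i))) →
      ∑ i, f (deg G (v i)) = 0) : Splittable G := by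
  classical
  set d : Fin s → ℕ := fun i => deg G (v i) with hd
  have h2d : ∀ i, 2 ≤ d i := h.two
  have hr : ∀ i, 30 * (M + 1) ≤ (univ.filter (fun j => d j = d i)).card := by
    intro i
    have h1 := hrich i
    rw [Set.ncard_eq_toFinset_card'] at h1
    refine h1.trans (Finset.card_le_card (fun j hj => ?_))
    rw [Set.mem_toFinset] at hj
    exact Finset.mem_filter.2 ⟨Finset.mem_univ _, hj⟩
  set W : Finset (Fin s × Fin s) := univ.filter (fun p => p.1 < p.2 ∧
    ((p.2 : ℕ) - p.1) % 2 = 1 ∧ 3 ≤ d p.1 ∧ 3 ≤ d p.2 ∧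
    ∀ k, p.1 < k → k < p.2 → d k = 2) with hW
  have hWm : ∀ p ∈ W, p.1 < p.2 ∧ ((p.2 : ℕ) - p.1) % 2 = 1 ∧ 3 ≤ d p.1 ∧ 3 ≤ d p.2 ∧
      ∀ k, p.1 < k → k < p.2 → d k = 2 := fun p hp => (Finset.mem_filter.1 hp).2
  have hWc : 20 * (M + 1) ≤ W.card := by
    rw [Set.ncard_eq_toFinset_card'] at hedge
    refine hedge.trans (Finset.card_le_card (fun p hp => ?_))
    rw [Set.mem_toFinset] at hp
    obtain ⟨h1, h2, h3, h4, h5⟩ := hp
    exact Finset.mem_filter.2 ⟨Finset.mem_univ _, h1, Nat.odd_iff.1 h2, h3, h4, h5⟩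
  have hWd : ∀ p ∈ W, ∀ q ∈ W, p ≠ q → p.2 ≤ q.1 ∨ q.2 ≤ p.1 := by
    intro p hp q hq hpq
    obtain ⟨a1, _, a3, a4, a5⟩ := hWm p hp
    obtain ⟨b1, _, b3, b4, b5⟩ := hWm q hq
    rcases lt_trichotomy p.1 q.1 with h1 | h1 | h1
    · left
      by_contra h2
      have := a5 q.1 h1 (not_le.1 h2)
      omega
    · exfalso
      rcases lt_trichotomy p.2 q.2 with h2 | h2 | h2
      · have := b5 p.2 (by rw [← h1]; exact a1) h2
        omega
      · exact hpq (Prod.ext h1 h2)
      · have := a5 q.2 (by rw [h1]; exact b1) h2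
        omega
    · right
      by_contra h2
      have := b5 p.1 h1 (not_le.1 h2)
      omega
  obtain ⟨i3, hi3⟩ : ∃ i, 3 ≤ d i := by
    have h1 : 0 < W.card := by omega
    obtain ⟨p, hp⟩ := Finset.card_pos.1 h1
    exact ⟨p.1, (hWm p hp).2.2.1⟩
  have hM4 : 4 ≤ M + 1 := by
    have h1 : d i3 ≤ M := hM i3
    omega
  set S : Finset ℕ := univ.image d with hS
  have hSm : ∀ e, e ∈ S ↔ ∃ i, d i = e := by
    intro e
    rw [hS, Finset.mem_image]
    exact ⟨fun ⟨i, _, hi⟩ => ⟨i, hi⟩, fun ⟨i, hi⟩ => ⟨i, Finset.mem_univ _, hi⟩⟩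
  have hSM : ∀ e ∈ S, e ≤ M := by
    intro e he
    obtain ⟨i, rfl⟩ := (hSm e).1 he
    exact hM i
  obtain ⟨A, hAc, hA1, hA2', hA3, hA21, hA22⟩ := arcs_two S
    (fun e => ∑ i, (if d i = e then (1 : ZMod 2) else 0)) M hSM (by
      intro f h0 h1 hf
      have h2 := hdual f h0 h1 (fun i k hk => hf (d i) ((hSm _).2 ⟨i, rfl⟩) k hk)
      have h3 : ∑ e ∈ S, (∑ i, (if d i = e then (1 : ZMod 2) else 0)) * f e = ∑ i, f (d i) := by
        simp only [Finset.sum_mul]
        rw [Finset.sum_comm]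
        refine Finset.sum_congr rfl (fun i _ => ?_)
        rw [Finset.sum_eq_single (d i)]
        · simp
        · intro b _ hb; simp [Ne.symm hb]
        · intro hn; exact absurd ((hSm _).2 ⟨i, rfl⟩) hn
      rw [h3]
      exact h2)
  have hA2 : ∀ e, e ≠ 2 → ∑ a ∈ A, (if a.1 = e then (1 : ZMod 2) else 0) =
      ∑ i, (if d i = e then (1 : ZMod 2) else 0) := by
    intro e he2
    by_cases he : e ∈ S
    · exact hA2' e he he2
    · rw [Finset.sum_eq_zero, Finset.sum_eq_zero]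
      · intro i _
        exact if_neg (fun hh => he ((hSm _).2 ⟨i, hh⟩))
      · intro a ha
        exact if_neg (fun hh : a.1 = e => he (by rw [← hh]; exact (hA1 a ha).1))
  obtain ⟨p, hp1, hpn⟩ := place_sep d hs A
    (fun a ha => by
      obtain ⟨i, hi⟩ := (hSm _).1 (hA1 a ha).1
      rw [← hi]; exact h2d i) hA22
    (fun a ha ha2 => by
      obtain ⟨i, hi⟩ := (hSm _).1 (hA1 a ha).1
      exact ⟨i, by rw [hi, ha2]⟩)
    (fun a ha _ => by
      obtain ⟨i, hi⟩ := (hSm _).1 (hA1 a ha).1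
      have h1 := hr i
      rw [← hi]
      refine le_trans ?_ h1
      omega)
  have hp2 : ∀ a ∈ A, ∀ b ∈ A, a ≠ b → (p a : ℕ) + 1 < p b ∨ (p b : ℕ) + 1 < p a := by
    intro a ha b hb hab
    rcases hpn a ha b hb hab with h1 | h1
    · obtain ⟨k, k1, k2, _⟩ := nu_between d h1
      have k1' : (p a : ℕ) < k := k1
      have k2' : (k : ℕ) < p b := k2
      omega
    · obtain ⟨k, k1, k2, _⟩ := nu_between d h1
      have k1' : (p b : ℕ) < k := k1
      have k2' : (k : ℕ) < p a := k2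
      omega
  obtain ⟨hQ2, a, b, hab, hpar, hn, haA⟩ := mixed_parts d h2d A
    (fun a ha => (hA1 a ha).2) hA2 hA3 p hp1 hp2
  have hPc : (A.image p).card ≤ 2 * (M + 1) := Finset.card_image_le.trans hAc
  refine wide_split2 h hev (A.image p) ?_ a b hab ?_ hpar hn
    (univ.filter (fun i => i ∉ A.image p ∧ d i = 3)) (by intro i; simp [hd]) hQ2
    W (fun p hp => ?_) hWd (by omega) ?_
  · intro i hi j hj hij
    obtain ⟨a', ha', rfl⟩ := Finset.mem_image.1 hi
    obtain ⟨b', hb', rfl⟩ := Finset.mem_image.1 hj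
    rcases hpn a' ha' b' hb' (fun hh => absurd hij (by rw [hh]; exact lt_irrefl _)) with h1 | h1
    · exact nu_between d h1
    · obtain ⟨k, k1, k2, _⟩ := nu_between d h1
      exact absurd (k1.trans k2) (not_lt.2 hij.le)
  · intro i hi
    obtain ⟨c, hc, rfl⟩ := Finset.mem_image.1 hi
    by_contra hno
    push Not at hno
    have e1 := haA c hc
    have e2 := hp1 c hc
    have e3 := hab (p c)
    have e4 : c = (2, 1) := Prod.ext (by show c.1 = 2; omega) (by show c.2 = 1; omega)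
    exact hA21 (e4 ▸ hc)
  · obtain ⟨h1, h2, h3, h4, _⟩ := hWm p hp
    exact ⟨h1, h2, h3, h4⟩
  · by_cases hex : ∃ i, d i = 3
    · obtain ⟨i, hi⟩ := hex
      right
      have h1 := hr i
      have h2 : (univ.filter (fun j => d j = 3)).card ≤
          (univ.filter (fun i => i ∉ A.image p ∧ d i = 3)).card + (A.image p).card := by
        rw [← Finset.card_union_of_disjoint]
        · refine Finset.card_le_card (fun j hj => ?_)
          rw [Finset.mem_union]
          by_cases hjP : j ∈ A.image p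
          · exact Or.inr hjP
          · exact Or.inl (Finset.mem_filter.2 ⟨Finset.mem_univ _, hjP,
              (Finset.mem_filter.1 hj).2⟩)
        · rw [Finset.disjoint_left]
          intro j hj hj2
          exact (Finset.mem_filter.1 hj).2.1 hj2
      have h3 : 30 * (M + 1) ≤ (univ.filter (fun j => d j = 3)).card := by
        rw [← hi]; exact h1
      omega
    · left
      rw [Finset.card_eq_zero, Finset.filter_eq_empty_iff]
      intro i _ hh
      exact hex ⟨i, hh.2⟩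

theorem consec_suff4 {G : SimpleGraph V} {s : ℕ} {v : Fin s → V} (h : IsSpine G v) (hs : 0 < s)
    (M : ℕ) (hM : ∀ i, deg G (v i) ≤ M)
    (hrich : ∀ i, 30 * (M + 1) ≤ {j | deg G (v j) = deg G (v i)}.ncard)
    (hedge : 20 * (M + 1) ≤ {p : Fin s × Fin s | p.1 < p.2 ∧ Odd ((p.2 : ℕ) - p.1) ∧
      3 ≤ deg G (v p.1) ∧ 3 ≤ deg G (v p.2) ∧
      ∀ k, p.1 < k → k < p.2 → deg G (v k) = 2}.ncard)
    (a : ℕ) (ha : ∃ i, deg G (v i) = a) (ha1 : ∃ i, deg G (v i) = a + 1)
    (hstep : ∀ i, a + 1 < deg G (v i) → ∃ j, a < deg G (v j) ∧ deg G (v j) < deg G (v i) ∧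
      deg G (v i) ≤ 2 * deg G (v j)) :
    Splittable G ↔ Even G.edgeSet.ncard := by
  constructor
  · intro hG
    exact (necessary hs h hG).1
  · intro hev
    refine dual_suff4 h hs hev M hM hrich hedge (fun f h0 h1 hf => ?_)
    exact Finset.sum_eq_zero (fun i _ =>
      adm_zero (fun i => deg G (v i)) f h0 h1 hf a ha ha1 hstep i)

end Pool.Agent.W_e8e3a0
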