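import Pool.Agent.W_e8e3a0.WideP49

/-! Splittings from many long even gaps. -/

namespace Pool.Agent.W_e8e3a0

open Finset Num49

variable {V : Type} [Fintype V]

/-- many even gaps of length at least four -/
theorem long_split {G : SimpleGraph V} {s : ℕ} {v : Fin s → V} (h : IsSpine G v)
    (hev : Even G.edgeSet.ncard) (P : Finset (Fin s))
    (hP : ∀ i ∈ P, ∀ j ∈ P, i < j → ∃ k : Fin s, i < k ∧ k < j ∧ 3 ≤ deg G (v k))
    (a b : Fin s → ℕ) (hab : ∀ i, a i + b i = deg G (v i)) (hPs : ∀ i ∈ P, a i ≠ 1 ∨ b i ≠ 1)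
    (hpar : ∀ k, 2 ≤ k → (cx a univ k + cx b univ k) % 2 = 0)
    (hn : ∀ i, i ∉ P → (deg G (v i) = 2 → a i = 1 ∧ b i = 1) ∧
      (deg G (v i) = 3 → a i = 1 ∧ b i = 2) ∧ (4 ≤ deg G (v i) → 2 ≤ a i ∧ 2 ≤ b i))
    (Q : Finset (Fin s)) (hQm : ∀ i, i ∈ Q ↔ i ∉ P ∧ deg G (v i) = 3)
    (hQ0 : Q.card = 0)
    (W : Finset (Fin s × Fin s)) (hW : ∀ p ∈ W, (p.1 : ℕ) + 4 ≤ p.2 ∧
      ((p.2 : ℕ) - p.1) % 2 = 0 ∧ 3 ≤ deg G (v p.1) ∧ 3 ≤ deg G (v p.2) ∧
      ∀ k, p.1 < k → k < p.2 → deg G (v k) = 2)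
    (hWd : ∀ p ∈ W, ∀ q ∈ W, p ≠ q → p.2 ≤ q.1 ∨ q.2 ≤ p.1)
    (hWc : 10 * P.card + 4 ≤ W.card) :
    Splittable G := by
  have hQ2 : Q.card % 2 = 0 := by rw [hQ0]
  classical
  have h2d : ∀ i, 2 ≤ deg G (v i) := h.two
  set U := univ \ Q with hU
  have hUQ : ∀ (z : Fin s → ℕ) k, cx z univ k = cx z U k + cx z Q k := by
    intro z k
    unfold cx
    exact (Finset.sum_sdiff (Finset.subset_univ Q)).symm
  have haQ : ∀ i ∈ Q, a i = 1 ∧ b i = 2 := fun i hi =>
    (hn i ((hQm i).1 hi).1).2.1 ((hQm i).1 hi).2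
  have hparU : ∀ k, 2 ≤ k → (cx a U k + cx b U k) % 2 = 0 := by
    intro k hk
    have h1 := hpar k hk
    rw [hUQ a, hUQ b] at h1
    have h2 := cx_two (Finset.Subset.refl Q) 1 0 k a (fun i hi => (haQ i hi).1)
      (fun i hi => by simp at hi)
    have h3' := cx_two (Finset.Subset.refl Q) 2 0 k b (fun i hi => (haQ i hi).2)
      (fun i hi => by simp at hi)
    rw [Finset.sdiff_self, Finset.card_empty] at h2 h3'
    rw [if_neg (by omega : ¬ 1 = k)] at h2
    split_ifs at h2 h3' <;> omega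
  obtain ⟨x0, y0, hsw, hb⟩ := orient U.card U a b rfl hparU
  have hxy0 : ∀ i, x0 i + y0 i = deg G (v i) := by
    intro i
    have h1 := hab i
    rcases hsw i with ⟨h2, h3⟩ | ⟨h2, h3⟩ <;> omega
  have hbig0 : ∀ i, i ∉ P → i ∉ Q → deg G (v i) ≠ 2 → 2 ≤ x0 i ∧ 2 ≤ y0 i := by
    intro i hi hiQ hi2
    have h0 := h2d i
    have hne3 : deg G (v i) ≠ 3 := fun hh => hiQ ((hQm i).2 ⟨hi, hh⟩)
    have h1 := (hn i hi).2.2 (by omega)
    rcases hsw i with ⟨h2, h3⟩ | ⟨h2, h3⟩ <;> omega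
  have htwo0 : ∀ i, i ∉ P → deg G (v i) = 2 → x0 i = 1 ∧ y0 i = 1 := by
    intro i hi hi2
    have h1 := (hn i hi).1 hi2
    rcases hsw i with ⟨h2, h3⟩ | ⟨h2, h3⟩ <;> omega
  have hone0 : ∀ i, i ∉ P → i ∉ Q → 1 ≤ x0 i ∧ 1 ≤ y0 i := by
    intro i hi hiQ
    by_cases hi2 : deg G (v i) = 2
    · have := htwo0 i hi hi2
      omega
    · have := hbig0 i hi hiQ hi2
      omega
  have hzle : ∀ z : Fin s → ℕ, (∀ i, i ∉ P → i ∉ Q → 1 ≤ z i) → cx z U 0 ≤ P.card := by
    intro z hz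
    unfold cx
    rw [← Finset.card_filter]
    refine Finset.card_le_card (fun i hi => ?_)
    obtain ⟨h1, h2⟩ := Finset.mem_filter.1 hi
    by_contra hno
    have := hz i hno (Finset.mem_sdiff.1 h1).2
    omega
  have z1 := hzle x0 (fun i h1 h2 => (hone0 i h1 h2).1)
  have z2' := hzle y0 (fun i h1 h2 => (hone0 i h1 h2).2)
  -- the final parts for a given half of `Q`
  have key : ∀ H ⊆ Q, 2 * H.card = Q.card →
      (∀ i, (if i ∈ Q then (if i ∈ H then 1 else 2) else x0 i) +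
        (if i ∈ Q then (if i ∈ H then 2 else 1) else y0 i) = deg G (v i)) ∧
      (∀ k, 2 ≤ k → cx (fun i => if i ∈ Q then (if i ∈ H then 1 else 2) else x0 i) univ k =
        cx (fun i => if i ∈ Q then (if i ∈ H then 2 else 1) else y0 i) univ k) ∧
      cx (fun i => if i ∈ Q then (if i ∈ H then 1 else 2) else x0 i) univ 0 = cx x0 U 0 ∧
      cx (fun i => if i ∈ Q then (if i ∈ H then 2 else 1) else y0 i) univ 0 = cx y0 U 0 := by
    intro H hHQ hH2
    have hsd : (Q \ H).card = H.card := by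
      rw [Finset.card_sdiff_of_subset hHQ]; omega
    have f1 : ∀ k, cx (fun i => if i ∈ Q then (if i ∈ H then 1 else 2) else x0 i) univ k =
        cx x0 U k + ((if 1 = k then H.card else 0) + (if 2 = k then H.card else 0)) := by
      intro k
      rw [hUQ, cx_congr (x' := x0) (fun i hi => if_neg (Finset.mem_sdiff.1 hi).2) k,
        cx_two hHQ 1 2 k _ (fun i hi => by
          show (if i ∈ Q then (if i ∈ H then 1 else 2) else x0 i) = 1
          rw [if_pos (hHQ hi), if_pos hi]) (fun i hi => by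
          show (if i ∈ Q then (if i ∈ H then 1 else 2) else x0 i) = 2
          rw [if_pos (Finset.mem_sdiff.1 hi).1, if_neg (Finset.mem_sdiff.1 hi).2]), hsd]
    have f2 : ∀ k, cx (fun i => if i ∈ Q then (if i ∈ H then 2 else 1) else y0 i) univ k =
        cx y0 U k + ((if 2 = k then H.card else 0) + (if 1 = k then H.card else 0)) := by
      intro k
      rw [hUQ, cx_congr (x' := y0) (fun i hi => if_neg (Finset.mem_sdiff.1 hi).2) k,
        cx_two hHQ 2 1 k _ (fun i hi => by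
          show (if i ∈ Q then (if i ∈ H then 2 else 1) else y0 i) = 2
          rw [if_pos (hHQ hi), if_pos hi]) (fun i hi => by
          show (if i ∈ Q then (if i ∈ H then 2 else 1) else y0 i) = 1
          rw [if_pos (Finset.mem_sdiff.1 hi).1, if_neg (Finset.mem_sdiff.1 hi).2]), hsd]
    refine ⟨?_, ?_, ?_, ?_⟩
    · intro i
      by_cases hi : i ∈ Q
      · rw [if_pos hi, if_pos hi, ((hQm i).1 hi).2]
        split_ifs <;> rfl
      · rw [if_neg hi, if_neg hi]; exact hxy0 i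
    · intro k hk
      rw [f1, f2, hb k hk]
      omega
    · rw [f1]; simp
    · rw [f2]; simp
  -- parity of the number of zeros
  have e1 := edges_eq h
  have e2 := sum_spine h
  obtain ⟨m, hm⟩ := hev
  have hpz : (s - 1 + cx x0 U 0 + cx y0 U 0) % 2 = 0 := by
    obtain ⟨H0, hH0, hH0c⟩ := Finset.exists_subset_card_eq (s := Q) (n := Q.card / 2) (by omega)
    obtain ⟨k1, k2, k3, k4⟩ := key H0 hH0 (by omega)
    have e3 := sum_diff k2
    have e4 := zero_diff k2
    have e5 : ∑ i, (if i ∈ Q then (if i ∈ H0 then 1 else 2) else x0 i) +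
        ∑ i, (if i ∈ Q then (if i ∈ H0 then 2 else 1) else y0 i) =
        2 * (s - 1) + (offSpine v).card := by
      rw [← Finset.sum_add_distrib, ← e2]
      exact Finset.sum_congr rfl (fun i _ => k1 i)
    rw [k3, k4] at e4
    omega
  set zx := cx x0 U 0 with hzx
  set zy := cx y0 U 0 with hzy
  -- gaps not touched by `P`
  set W' := W.filter (fun p => ∀ i ∈ P, ¬ (p.1 ≤ i ∧ i ≤ p.2)) with hW'
  have hW'c : W.card ≤ W'.card + 2 * P.card := two_gaps W (fun p hp => by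
    have := (hW p hp).1
    show (p.1 : ℕ) < p.2
    omega) hWd P
  have hW'W : ∀ p ∈ W', p ∈ W := fun p hp => (Finset.mem_filter.1 hp).1
  have hgap : ∀ p ∈ W', (p.1 : ℕ) + 4 ≤ p.2 := fun p hp => (hW p (hW'W p hp)).1
  -- rigid vertices, classes of edges
  set r : ℕ → Prop := fun i => ∃ hi : i < s, (⟨i, hi⟩ : Fin s) ∉ P ∧ deg G (v ⟨i, hi⟩) = 2 ∧
    ∀ p ∈ W', i ≠ (p.1 : ℕ) + 1 ∧ i ≠ (p.1 : ℕ) + 2 ∧ i ≠ (p.1 : ℕ) + 3 with hr
  have hrP : ∀ i ∈ P, ¬ r (i : ℕ) := by
    rintro i hi ⟨_, h1, _⟩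
    exact h1 hi
  have hr3 : ∀ i : Fin s, 3 ≤ deg G (v i) → ¬ r (i : ℕ) := by
    rintro i hi ⟨_, _, h1, _⟩
    have h1' : deg G (v i) = 2 := h1
    omega
  have hrW1 : ∀ p ∈ W', ¬ r (p.1 : ℕ) := fun p hp => hr3 _ (hW p (hW'W p hp)).2.2.1
  have hrW2 : ∀ p ∈ W', ¬ r (p.2 : ℕ) := fun p hp => hr3 _ (hW p (hW'W p hp)).2.2.2.1
  have hrW : ∀ p ∈ W', ∀ c, c ≤ 3 → ¬ r ((p.1 : ℕ) + c) := by
    intro p hp c hc
    by_cases hc0 : c = 0
    · rw [hc0]; exact hrW1 p hp
    · rintro ⟨_, _, _, h1⟩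
      have := h1 p hp
      omega
  have hrepc : ∀ p ∈ W', ∀ c, c ≤ 3 → rep r ((p.1 : ℕ) + c) = (p.1 : ℕ) + c :=
    fun p hp c hc => rep_not r (hrW p hp c hc)
  set want : Fin s → ℕ := fun i => if x0 i ≤ 1 then 0 else 1 with hwant
  have hwant2 : ∀ i, want i < 2 := by
    intro i; rw [hwant]; dsimp only; split_ifs <;> omega
  set inF := (range (s - 1)).filter (fun t => ∃ p ∈ P, (t = (p : ℕ) ∨ t + 1 = (p : ℕ)) ∧
    t % 2 = want p) with hinF
  set outF := (range (s - 1)).filter (fun t => ∃ p ∈ P, (t = (p : ℕ) ∨ t + 1 = (p : ℕ)) ∧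
    ¬ t % 2 = want p) with houtF
  have hinc : inF.card ≤ P.card := by
    have h1 : inF ⊆ P.image (fun p : Fin s => if (p : ℕ) % 2 = want p then (p : ℕ) else (p : ℕ) - 1) := by
      intro t ht
      obtain ⟨_, p, hp, htp, hpar⟩ := Finset.mem_filter.1 ht
      refine Finset.mem_image.2 ⟨p, hp, ?_⟩
      have := hwant2 p
      split_ifs <;> omega
    exact (Finset.card_le_card h1).trans Finset.card_image_le
  have houtc : outF.card ≤ P.card := by
    have h1 : outF ⊆ P.image (fun p : Fin s => if (p : ℕ) % 2 = want p then (p : ℕ) - 1 else (p : ℕ)) := by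
      intro t ht
      obtain ⟨_, p, hp, htp, hpar⟩ := Finset.mem_filter.1 ht
      refine Finset.mem_image.2 ⟨p, hp, ?_⟩
      have := hwant2 p
      split_ifs <;> omega
    exact (Finset.card_le_card h1).trans Finset.card_image_le
  have hsep : ∀ t ∈ inF, ∀ t' ∈ outF, rep r t ≠ rep r t' := by
    intro t ht t' ht' heq
    obtain ⟨_, p, hp, htp, hpar⟩ := Finset.mem_filter.1 ht
    obtain ⟨_, q, hq, htq, hpar'⟩ := Finset.mem_filter.1 ht'
    have l1 := rep_le r t
    have l2 := rep_le r t'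
    rcases lt_trichotomy p q with hpq | hpq | hpq
    · obtain ⟨k, hk1, hk2, hk3⟩ := hP p hp q hq hpq
      have hk1' : (p : ℕ) < k := hk1
      have hk2' : (k : ℕ) < q := hk2
      have := le_rep r (hr3 k hk3) (t := t') (by omega)
      omega
    · subst hpq
      rcases htp with e1 | e1
      · rcases htq with e2 | e2
        · exact hpar' (by rw [e2, ← e1]; exact hpar)
        · have := le_rep r (hrP p hp) (t := t) (by omega)
          omega
      · rcases htq with e2 | e2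
        · have := le_rep r (hrP p hp) (t := t') (by omega)
          omega
        · have : t = t' := by omega
          exact hpar' (by rw [← this]; exact hpar)
    · obtain ⟨k, hk1, hk2, hk3⟩ := hP q hq p hp hpq
      have hk1' : (q : ℕ) < k := hk1
      have hk2' : (k : ℕ) < p := hk2
      have := le_rep r (hr3 k hk3) (t := t) (by omega)
      omega
  set G0 := inF.image (rep r) with hG0
  set bad := outF.image (rep r) with hbad
  have hG0c : G0.card ≤ P.card := Finset.card_image_le.trans hinc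
  have hbadc : bad.card ≤ P.card := Finset.card_image_le.trans houtc
  have hG0bad : Disjoint G0 bad := by
    rw [Finset.disjoint_left]
    intro u h1 h2
    obtain ⟨t, ht, e1⟩ := Finset.mem_image.1 h1
    obtain ⟨t', ht', e2⟩ := Finset.mem_image.1 h2
    exact hsep t ht t' ht' (e1.trans e2.symm)
  have hB0 : |∑ u ∈ G0, cs r (s - 1) u| ≤ (P.card : ℤ) := by
    refine (Finset.abs_sum_le_sum_abs _ _).trans ?_
    refine (Finset.sum_le_sum (g := fun _ => (1 : ℤ)) (fun u _ => ?_)).trans ?_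
    · rcases cs_cases r (s - 1) u with h1 | h1 <;> rw [h1]
      · simp
      · unfold sgn; split_ifs <;> simp
    · rw [Finset.sum_const, nsmul_eq_mul, mul_one]
      exact_mod_cast hG0c
  rw [abs_le] at hB0
  set B0 := ∑ u ∈ G0, cs r (s - 1) u with hB0d
  -- the classes of the untouched gaps
  have hinside : ∀ p ∈ W', ∀ t, (p.1 : ℕ) + 3 ≤ t → t < (p.2 : ℕ) → rep r t = (p.1 : ℕ) + 3 := by
    intro p hp t
    induction t with
    | zero => intro h1 _; omega
    | succ t ih =>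
      intro h1 h2
      rcases Nat.lt_or_ge t ((p.1 : ℕ) + 3) with h3 | h3
      · have h4 : t + 1 = (p.1 : ℕ) + 3 := by omega
        rw [h4]
        exact hrepc p hp 3 le_rfl
      · have h5 : r (t + 1) := by
          have hts : t + 1 < s := h2.trans p.2.2
          have hk1 : p.1 < (⟨t + 1, hts⟩ : Fin s) := by
            show (p.1 : ℕ) < t + 1
            omega
          have hk2 : (⟨t + 1, hts⟩ : Fin s) < p.2 := h2
          refine ⟨hts, fun hh => ?_, (hW p (hW'W p hp)).2.2.2.2 _ hk1 hk2, fun q hq => ?_⟩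
          · exact (Finset.mem_filter.1 hp).2 _ hh ⟨hk1.le, hk2.le⟩
          · by_cases hpq : p = q
            · rw [hpq] at h3
              omega
            · have hg := hgap q hq
              rcases hWd p (hW'W p hp) q (hW'W q hq) hpq with h6 | h6
              · have h6' : (p.2 : ℕ) ≤ q.1 := h6
                omega
              · have h6' : (q.2 : ℕ) ≤ p.1 := h6
                omega
        have h6 : rep r (t + 1) = rep r t := by
          rw [rep, if_pos h5]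
        rw [h6]
        exact ih h3 (by omega)
  have hcs : ∀ p ∈ W', ∀ c, c ≤ 3 → cs r (s - 1) ((p.1 : ℕ) + c) = sgn ((p.1 : ℕ) + c) := by
    intro p hp c hc
    have hg := hgap p hp
    have hps := p.2.2
    have h0 := (hW p (hW'W p hp)).2.1
    by_cases hc3 : c = 3
    · obtain ⟨u, hu, h1, h2, h3⟩ := odd_class r (s - 1) ((p.1 : ℕ) + 3) (p.2 : ℕ) (by omega)
        (by omega) (by omega) (hrW p hp 3 le_rfl) (hrW2 p hp)
      obtain ⟨t, _, ht2⟩ := Finset.mem_image.1 hu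
      have l1 := rep_le r t
      have h4 : t < (p.2 : ℕ) := by
        by_contra hno
        have := le_rep r (hrW2 p hp) (t := t) (by omega)
        omega
      have h5 := hinside p hp t (by omega) h4
      rw [h5] at ht2
      rw [← ht2] at h1
      rw [hc3]
      exact (cs_cases r (s - 1) ((p.1 : ℕ) + 3)).resolve_left h1
    · obtain ⟨u, _, h1, h2, h3⟩ := odd_class r (s - 1) ((p.1 : ℕ) + c) ((p.1 : ℕ) + (c + 1))
        (by omega) (by omega) (by omega) (hrW p hp c hc) (hrW p hp (c + 1) (by omega))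
      have h4 : u = (p.1 : ℕ) + c := by omega
      rw [h4] at h1
      exact (cs_cases r (s - 1) ((p.1 : ℕ) + c)).resolve_left h1
  have htouch : ∀ p ∈ W', ∀ i ∈ P, ∀ t, (t = (i : ℕ) ∨ t + 1 = (i : ℕ)) →
      ∀ c, c ≤ 3 → rep r t ≠ (p.1 : ℕ) + c := by
    intro p hp i hi t hti c hc h1
    have hno := (Finset.mem_filter.1 hp).2 i hi
    have hg := hgap p hp
    have l1 := rep_le r t
    have h2 : t < (p.2 : ℕ) := by
      by_cases hc3 : c = 3
      · by_contra h3
        have := le_rep r (hrW2 p hp) (t := t) (by omega)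
        omega
      · by_contra h3
        have := le_rep r (hrW p hp (c + 1) (by omega)) (t := t) (by omega)
        omega
    refine hno ⟨?_, ?_⟩
    · show (p.1 : ℕ) ≤ i
      omega
    · show (i : ℕ) ≤ p.2
      omega
  have hG0W : ∀ p ∈ W', ∀ c, c ≤ 3 → (p.1 : ℕ) + c ∉ G0 := by
    intro p hp c hc hh
    obtain ⟨t, ht, e1⟩ := Finset.mem_image.1 hh
    obtain ⟨_, i, hi, hti, _⟩ := Finset.mem_filter.1 ht
    exact htouch p hp i hi t hti c hc e1
  -- the required sum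
  obtain ⟨V0, hV0⟩ : ∃ V0 : ℤ, 2 * V0 = (((s - 1 : ℕ) : ℤ) % 2) + zx - zy := by
    refine ⟨((((s - 1 : ℕ) : ℤ) % 2) + zx - zy) / 2, ?_⟩
    omega
  obtain ⟨w, hw, j, hj, hjc⟩ : ∃ w : ℕ, w ≤ 1 ∧ ∃ j : ℕ, B0 - (1 - 2 * (w : ℤ)) * j = V0 ∧
      j ≤ 2 * P.card + 1 := by
    rcases le_total B0 V0 with h1 | h1
    · refine ⟨1, le_rfl, (V0 - B0).toNat, ?_, ?_⟩
      · rw [Int.toNat_of_nonneg (by omega)]; push_cast; ring
      · omega
    · refine ⟨0, by omega, (B0 - V0).toNat, ?_, ?_⟩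
      · rw [Int.toNat_of_nonneg (by omega)]; push_cast; ring
      · omega
  obtain ⟨W4, hW4, hW4c⟩ : ∃ W4 ⊆ W', W4.card = 4 * j :=
    Finset.exists_subset_card_eq (by omega)
  obtain ⟨W3, hW34, hW3c⟩ : ∃ W3 ⊆ W4, W3.card = j :=
    Finset.exists_subset_card_eq (by omega)
  set W1 := W4 \ W3 with hW1d
  have hW1c : W1.card = 3 * j := by
    rw [hW1d, Finset.card_sdiff_of_subset hW34]; omega
  have hW3 : ∀ p ∈ W3, p ∈ W' := fun p hp => hW4 (hW34 hp)
  have hW1 : ∀ p ∈ W1, p ∈ W' := fun p hp => hW4 (Finset.mem_sdiff.1 hp).1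
  have hW13 : ∀ p ∈ W1, p ∉ W3 := fun p hp => (Finset.mem_sdiff.1 hp).2
  -- the new special vertices and the flipped classes
  set nx : ℕ → Fin s × Fin s → Fin s := fun c p => if hh : (p.1 : ℕ) + c < s then
    ⟨(p.1 : ℕ) + c, hh⟩ else p.1 with hnx
  have hnxv : ∀ p ∈ W', ∀ c, c ≤ 3 → (nx c p : ℕ) = (p.1 : ℕ) + c := by
    intro p hp c hc
    have hg := hgap p hp
    have hps := p.2.2
    rw [hnx]
    dsimp only
    rw [dif_pos (by omega)]
  set cc : Fin s × Fin s → ℕ := fun p => if (p.1 : ℕ) % 2 = 1 - w then 0 else 3 with hcc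
  set cn : Fin s × Fin s → ℕ := fun p => if (p.1 : ℕ) % 2 = 1 - w then 1 else 3 with hcn
  set cu : Fin s × Fin s → ℕ := fun p => if (p.1 : ℕ) % 2 = w then 0 else 1 with hcu
  have hcc2 : ∀ p, ((p.1 : ℕ) % 2 = 1 - w ∧ cc p = 0 ∧ cn p = 1) ∨
      (¬ (p.1 : ℕ) % 2 = 1 - w ∧ cc p = 3 ∧ cn p = 3) := by
    intro p
    rw [hcc, hcn]
    dsimp only
    split_ifs with h1
    · exact Or.inl ⟨h1, rfl, rfl⟩
    · exact Or.inr ⟨h1, rfl, rfl⟩
  have hcu2 : ∀ p, cu p ≤ 1 ∧ ((p.1 : ℕ) + cu p) % 2 = w := by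
    intro p
    rw [hcu]
    dsimp only
    split_ifs <;> omega
  have hne : ∀ p ∈ W', ∀ q ∈ W', p ≠ q → (p.1 : ℕ) + 4 ≤ q.1 ∨ (q.1 : ℕ) + 4 ≤ p.1 := by
    intro p hp q hq hpq
    have g1 := hgap p hp
    have g2 := hgap q hq
    rcases hWd p (hW'W p hp) q (hW'W q hq) hpq with h6 | h6
    · have h6' : (p.2 : ℕ) ≤ q.1 := h6
      omega
    · have h6' : (q.2 : ℕ) ≤ p.1 := h6
      omega
  have huniq : ∀ p ∈ W', ∀ q ∈ W', ∀ c, c ≤ 3 → ∀ c', c' ≤ 3 →
      (p.1 : ℕ) + c = (q.1 : ℕ) + c' → p = q ∧ c = c' := by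
    intro p hp q hq c hc c' hc' hh
    by_cases hpq : p = q
    · refine ⟨hpq, ?_⟩
      rw [hpq] at hh
      omega
    · rcases hne p hp q hq hpq with h1 | h1 <;> omega
  set P3 := W3.biUnion (fun p => ({nx 1 p, nx 2 p, nx 3 p} : Finset (Fin s))) with hP3
  set P1 := W1.image (fun p => nx (cn p) p) with hP1
  have hcn3 : ∀ p, 1 ≤ cn p ∧ cn p ≤ 3 := by
    intro p
    rcases hcc2 p with h1 | h1 <;> omega
  have hP3m : ∀ i, i ∈ P3 ↔ ∃ p ∈ W3, ∃ c, 1 ≤ c ∧ c ≤ 3 ∧ (i : ℕ) = (p.1 : ℕ) + c := by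
    intro i
    rw [hP3, Finset.mem_biUnion]
    constructor
    · rintro ⟨p, hp, hi⟩
      simp only [Finset.mem_insert, Finset.mem_singleton] at hi
      rcases hi with hi | hi | hi
      · exact ⟨p, hp, 1, by omega, by omega, by rw [hi, hnxv p (hW3 p hp) 1 (by omega)]⟩
      · exact ⟨p, hp, 2, by omega, by omega, by rw [hi, hnxv p (hW3 p hp) 2 (by omega)]⟩
      · exact ⟨p, hp, 3, by omega, by omega, by rw [hi, hnxv p (hW3 p hp) 3 (by omega)]⟩
    · rintro ⟨p, hp, c, hc1, hc3, hi⟩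
      refine ⟨p, hp, ?_⟩
      simp only [Finset.mem_insert, Finset.mem_singleton]
      have h4 : c = 1 ∨ c = 2 ∨ c = 3 := by omega
      rcases h4 with h4 | h4 | h4
      · left; exact Fin.ext (by rw [hi, hnxv p (hW3 p hp) 1 (by omega), h4])
      · right; left; exact Fin.ext (by rw [hi, hnxv p (hW3 p hp) 2 (by omega), h4])
      · right; right; exact Fin.ext (by rw [hi, hnxv p (hW3 p hp) 3 (by omega), h4])
  have hP1m : ∀ i, i ∈ P1 ↔ ∃ p ∈ W1, (i : ℕ) = (p.1 : ℕ) + cn p := by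
    intro i
    rw [hP1, Finset.mem_image]
    constructor
    · rintro ⟨p, hp, hi⟩
      exact ⟨p, hp, by rw [← hi, hnxv p (hW1 p hp) _ (hcn3 p).2]⟩
    · rintro ⟨p, hp, hi⟩
      exact ⟨p, hp, Fin.ext (by rw [hi, hnxv p (hW1 p hp) _ (hcn3 p).2])⟩
  have hP3c : P3.card = 3 * j := by
    rw [hP3, Finset.card_biUnion]
    · rw [Finset.sum_congr rfl (g := fun _ => 3), Finset.sum_const, hW3c, smul_eq_mul, mul_comm]
      intro p hp
      have e1 := hnxv p (hW3 p hp) 1 (by omega)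
      have e2 := hnxv p (hW3 p hp) 2 (by omega)
      have e3 := hnxv p (hW3 p hp) 3 (by omega)
      refine Finset.card_eq_three.2 ⟨_, _, _, ?_, ?_, ?_, rfl⟩
      · intro hh; rw [hh] at e1; omega
      · intro hh; rw [hh] at e1; omega
      · intro hh; rw [hh] at e2; omega
    · intro p hp q hq hpq
      rw [Function.onFun, Finset.disjoint_left]
      intro i hi1 hi2
      apply hpq
      simp only [Finset.mem_insert, Finset.mem_singleton] at hi1 hi2
      have e1 := hnxv p (hW3 p hp) 1 (by omega)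
      have e2 := hnxv p (hW3 p hp) 2 (by omega)
      have e3 := hnxv p (hW3 p hp) 3 (by omega)
      have f1 := hnxv q (hW3 q hq) 1 (by omega)
      have f2 := hnxv q (hW3 q hq) 2 (by omega)
      have f3 := hnxv q (hW3 q hq) 3 (by omega)
      have g1 : (i : ℕ) = (p.1 : ℕ) + 1 ∨ (i : ℕ) = (p.1 : ℕ) + 2 ∨ (i : ℕ) = (p.1 : ℕ) + 3 := by
        rcases hi1 with hi | hi | hi <;> rw [hi] <;> omega
      have g2 : (i : ℕ) = (q.1 : ℕ) + 1 ∨ (i : ℕ) = (q.1 : ℕ) + 2 ∨ (i : ℕ) = (q.1 : ℕ) + 3 := by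
        rcases hi2 with hi | hi | hi <;> rw [hi] <;> omega
      by_contra hno
      rcases hne p (hW3 p hp) q (hW3 q hq) hno with h1 | h1 <;> omega
  have hP1c : P1.card = 3 * j := by
    rw [hP1, Finset.card_image_of_injOn, hW1c]
    intro p hp q hq hpq
    have hpq' : nx (cn p) p = nx (cn q) q := hpq
    have e1 := hnxv p (hW1 p hp) _ (hcn3 p).2
    have e2 := hnxv q (hW1 q hq) _ (hcn3 q).2
    rw [hpq', e2] at e1
    exact (huniq q (hW1 q hq) p (hW1 p hp) _ (hcn3 q).2 _ (hcn3 p).2 e1).1.symm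
  have hin2 : ∀ p ∈ W', ∀ i : Fin s, ∀ c, 1 ≤ c → c ≤ 3 → (i : ℕ) = (p.1 : ℕ) + c →
      i ∉ P ∧ deg G (v i) = 2 := by
    intro p hp i c hc1 hc3 hi
    have hg := hgap p hp
    have hk1 : p.1 < i := by
      show (p.1 : ℕ) < i
      omega
    have hk2 : i < p.2 := by
      show (i : ℕ) < p.2
      omega
    exact ⟨fun hh => (Finset.mem_filter.1 hp).2 _ hh ⟨hk1.le, hk2.le⟩,
      (hW p (hW'W p hp)).2.2.2.2 _ hk1 hk2⟩
  have hP3d : ∀ i ∈ P3, i ∉ P ∧ deg G (v i) = 2 := by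
    intro i hi
    obtain ⟨p, hp, c, hc1, hc3, hi'⟩ := (hP3m i).1 hi
    exact hin2 p (hW3 p hp) i c hc1 hc3 hi'
  have hP1d : ∀ i ∈ P1, i ∉ P ∧ deg G (v i) = 2 := by
    intro i hi
    obtain ⟨p, hp, hi'⟩ := (hP1m i).1 hi
    exact hin2 p (hW1 p hp) i _ (hcn3 p).1 (hcn3 p).2 hi'
  have hP13 : ∀ i ∈ P1, i ∉ P3 := by
    intro i hi hi3
    obtain ⟨p, hp, hi'⟩ := (hP1m i).1 hi
    obtain ⟨q, hq, c, hc1, hc3, hi''⟩ := (hP3m i).1 hi3
    have h1 := (huniq p (hW1 p hp) q (hW3 q hq) _ (hcn3 p).2 c hc3 (by omega)).1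
    exact hW13 p hp (by rw [h1]; exact hq)
  have hU2 : ∀ i, deg G (v i) = 2 → i ∈ U := by
    intro i hi
    refine Finset.mem_sdiff.2 ⟨Finset.mem_univ _, fun hh => ?_⟩
    have h1 := ((hQm i).1 hh).2
    omega
  set X3 := W3.biUnion (fun p => ({(p.1 : ℕ) + cu p, (p.1 : ℕ) + (cu p + 2)} : Finset ℕ)) with hX3
  set X1 := W1.image (fun p => (p.1 : ℕ) + cc p) with hX1
  have hcc3 : ∀ p, cc p ≤ 3 := by
    intro p
    rcases hcc2 p with h1 | h1 <;> omega
  have hX3m : ∀ u, u ∈ X3 → ∃ p ∈ W3, ∃ c, c ≤ 3 ∧ u = (p.1 : ℕ) + c ∧ u % 2 = w := by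
    intro u hu
    obtain ⟨p, hp, hu'⟩ := Finset.mem_biUnion.1 hu
    have h1 := hcu2 p
    simp only [Finset.mem_insert, Finset.mem_singleton] at hu'
    rcases hu' with h2 | h2
    · exact ⟨p, hp, cu p, by omega, h2, by omega⟩
    · exact ⟨p, hp, cu p + 2, by omega, h2, by omega⟩
  have hX3m' : ∀ p ∈ W3, ∀ c, c ≤ 3 → ((p.1 : ℕ) + c) % 2 = w → (p.1 : ℕ) + c ∈ X3 := by
    intro p hp c hc h2
    refine Finset.mem_biUnion.2 ⟨p, hp, ?_⟩
    have h1 := hcu2 p
    simp only [Finset.mem_insert, Finset.mem_singleton]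
    omega
  have hG0X3 : Disjoint G0 X3 := by
    rw [Finset.disjoint_left]
    intro u h1 h2
    obtain ⟨p, hp, c, hc, e1, _⟩ := hX3m u h2
    exact hG0W p (hW3 p hp) c hc (by rw [← e1]; exact h1)
  have hG0X1 : Disjoint (G0 ∪ X3) X1 := by
    rw [Finset.disjoint_left]
    intro u h1 h2
    obtain ⟨p, hp, e1⟩ := Finset.mem_image.1 h2
    rcases Finset.mem_union.1 h1 with h1 | h1
    · exact hG0W p (hW1 p hp) _ (hcc3 p) (by rw [e1]; exact h1)
    · obtain ⟨q, hq, c, hc, e2, _⟩ := hX3m u h1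
      have h3 := (huniq p (hW1 p hp) q (hW3 q hq) _ (hcc3 p) c hc (by rw [← e2]; exact e1)).1
      exact hW13 p hp (by rw [h3]; exact hq)
  have hsumX3 : ∑ u ∈ X3, cs r (s - 1) u = (1 - 2 * (w : ℤ)) * (2 * j : ℕ) := by
    rw [hX3, Finset.sum_biUnion]
    · rw [Finset.sum_congr rfl (g := fun _ => 2 * (1 - 2 * (w : ℤ))), Finset.sum_const, hW3c,
        nsmul_eq_mul]
      · push_cast; ring
      · intro p hp
        have h1 := hcu2 p
        rw [Finset.sum_pair (by omega), hcs p (hW3 p hp) _ (by omega),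
          hcs p (hW3 p hp) _ (by omega)]
        unfold sgn
        split_ifs <;> omega
    · intro p hp q hq hpq
      rw [Function.onFun, Finset.disjoint_left]
      intro u hu1 hu2
      have h1 := hcu2 p
      have h2 := hcu2 q
      simp only [Finset.mem_insert, Finset.mem_singleton] at hu1 hu2
      rcases hne p (hW3 p hp) q (hW3 q hq) hpq with h3 | h3 <;> omega
  have hsumX1 : ∑ u ∈ X1, cs r (s - 1) u = -((1 - 2 * (w : ℤ)) * (3 * j : ℕ)) := by
    rw [hX1, Finset.sum_image]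
    · rw [Finset.sum_congr rfl (g := fun _ => -(1 - 2 * (w : ℤ))), Finset.sum_const, hW1c,
        nsmul_eq_mul]
      · ring
      · intro p hp
        rw [hcs p (hW1 p hp) _ (hcc3 p)]
        have h1 := hcc2 p
        unfold sgn
        split_ifs <;> omega
    · intro p hp q hq hpq
      exact (huniq p (hW1 p hp) q (hW1 q hq) _ (hcc3 p) _ (hcc3 q) hpq).1
  set GG := (G0 ∪ X3) ∪ X1 with hGG
  have hsumGG : ∑ u ∈ GG, cs r (s - 1) u = B0 + (1 - 2 * (w : ℤ)) * (2 * j : ℕ) +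
      -((1 - 2 * (w : ℤ)) * (3 * j : ℕ)) := by
    rw [hGG, Finset.sum_union hG0X1, Finset.sum_union hG0X3, ← hB0d, hsumX3, hsumX1]
  -- membership in the untouched gaps
  have hmemX : ∀ p ∈ W', ∀ c, c ≤ 3 → ((p.1 : ℕ) + c ∈ GG ↔
      (p ∈ W3 ∧ ((p.1 : ℕ) + c) % 2 = w) ∨ (p ∈ W1 ∧ c = cc p)) := by
    intro p hp c hc
    constructor
    · intro h1
      rcases Finset.mem_union.1 h1 with h1 | h1
      · rcases Finset.mem_union.1 h1 with h1 | h1
        · exact absurd h1 (hG0W p hp c hc)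
        · obtain ⟨q, hq, c', hc', e2, e3⟩ := hX3m _ h1
          have h3 := (huniq p hp q (hW3 q hq) _ hc c' hc' e2).1
          exact Or.inl ⟨by rw [h3]; exact hq, e3⟩
      · obtain ⟨q, hq, e1⟩ := Finset.mem_image.1 h1
        obtain ⟨h3, h4⟩ := huniq q (hW1 q hq) p hp _ (hcc3 q) c hc e1
        exact Or.inr ⟨by rw [← h3]; exact hq, by rw [← h4, h3]⟩
    · rintro (⟨h1, h2⟩ | ⟨h1, h2⟩)
      · exact Finset.mem_union_left _ (Finset.mem_union_right _ (hX3m' p h1 c hc h2))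
      · rw [h2]
        exact Finset.mem_union_right _ (Finset.mem_image_of_mem _ h1)
  set x2 : Fin s → ℕ := fun i => if i ∈ P3 then 2 * w else x0 i with hx2
  set y2 : Fin s → ℕ := fun i => if i ∈ P3 then 2 * (1 - w) else y0 i with hy2
  set x1 : Fin s → ℕ := fun i => if i ∈ P1 then 2 * (1 - w) else x2 i with hx1
  set y1 : Fin s → ℕ := fun i => if i ∈ P1 then 2 * w else y2 i with hy1
  have ex : ∀ k, cx x2 U k + (if 1 = k then P3.card else 0) =
      cx x0 U k + (if 2 * w = k then P3.card else 0) := cx_change U P3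
    (fun i hi => hU2 i (hP3d i hi).2) x0 x2 (2 * w)
    (fun i hi => (htwo0 i (hP3d i hi).1 (hP3d i hi).2).1) (fun i hi => if_pos hi)
    (fun i hi => if_neg hi)
  have ey : ∀ k, cx y2 U k + (if 1 = k then P3.card else 0) =
      cx y0 U k + (if 2 * (1 - w) = k then P3.card else 0) := cx_change U P3
    (fun i hi => hU2 i (hP3d i hi).2) y0 y2 (2 * (1 - w))
    (fun i hi => (htwo0 i (hP3d i hi).1 (hP3d i hi).2).2) (fun i hi => if_pos hi)
    (fun i hi => if_neg hi)
  have ex' : ∀ k, cx x1 U k + (if 1 = k then P1.card else 0) =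
      cx x2 U k + (if 2 * (1 - w) = k then P1.card else 0) := cx_change U P1
    (fun i hi => hU2 i (hP1d i hi).2) x2 x1 (2 * (1 - w))
    (fun i hi => by
      rw [hx2]; dsimp only; rw [if_neg (hP13 i hi)]
      exact (htwo0 i (hP1d i hi).1 (hP1d i hi).2).1) (fun i hi => if_pos hi)
    (fun i hi => if_neg hi)
  have ey' : ∀ k, cx y1 U k + (if 1 = k then P1.card else 0) =
      cx y2 U k + (if 2 * w = k then P1.card else 0) := cx_change U P1
    (fun i hi => hU2 i (hP1d i hi).2) y2 y1 (2 * w)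
    (fun i hi => by
      rw [hy2]; dsimp only; rw [if_neg (hP13 i hi)]
      exact (htwo0 i (hP1d i hi).1 (hP1d i hi).2).2) (fun i hi => if_pos hi)
    (fun i hi => if_neg hi)
  have hx1P1 : ∀ i ∈ P1, x1 i = 2 * (1 - w) ∧ y1 i = 2 * w := fun i hi => ⟨if_pos hi, if_pos hi⟩
  have hx1P3 : ∀ i ∈ P3, x1 i = 2 * w ∧ y1 i = 2 * (1 - w) := by
    intro i hi
    have h1 : i ∉ P1 := fun hh => hP13 i hh hi
    exact ⟨(if_neg h1).trans (if_pos hi), (if_neg h1).trans (if_pos hi)⟩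
  have hx1o : ∀ i, i ∉ P3 → i ∉ P1 → x1 i = x0 i ∧ y1 i = y0 i := by
    intro i h3 h1
    exact ⟨(if_neg h1).trans (if_neg h3), (if_neg h1).trans (if_neg h3)⟩
  refine core_split h (P ∪ (P3 ∪ P1)) Q x1 y1 ?_ ?_ ?_ ?_ (fun i hi => ((hQm i).1 hi).2)
    0 (Nat.zero_le _) ?_ r (fun i hi => hr3 i (by rw [((hQm i).1 hi).2])) GG
    ?_ ?_ ?_ (Or.inl hQ0)
  · intro i
    by_cases hi : i ∈ P1
    · rw [(hx1P1 i hi).1, (hx1P1 i hi).2, (hP1d i hi).2]
      omega
    · by_cases hi3 : i ∈ P3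
      · rw [(hx1P3 i hi3).1, (hx1P3 i hi3).2, (hP3d i hi3).2]
        omega
      · rw [(hx1o i hi3 hi).1, (hx1o i hi3 hi).2]
        exact hxy0 i
  · intro i hi
    by_cases hi1 : i ∈ P1
    · rw [(hx1P1 i hi1).1, (hx1P1 i hi1).2]
      omega
    · by_cases hi3 : i ∈ P3
      · rw [(hx1P3 i hi3).1, (hx1P3 i hi3).2]
        omega
      · rw [(hx1o i hi3 hi1).1, (hx1o i hi3 hi1).2]
        have hiP : i ∈ P := by
          simp only [Finset.mem_union] at hi
          tauto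
        have h5 := hPs i hiP
        rcases hsw i with ⟨h6, h7⟩ | ⟨h6, h7⟩ <;> omega
  · intro i hi hiQ hi2
    simp only [Finset.mem_union, not_or] at hi
    rw [(hx1o i hi.2.1 hi.2.2).1, (hx1o i hi.2.1 hi.2.2).2]
    exact hbig0 i hi.1 hiQ hi2
  · intro i hi hi2
    simp only [Finset.mem_union, not_or] at hi
    rw [(hx1o i hi.2.1 hi.2.2).1, (hx1o i hi.2.1 hi.2.2).2]
    exact htwo0 i hi.1 hi2
  · intro k hk
    have e1 := ex k
    have e2 := ey k
    have e3 := ex' k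
    have e4 := ey' k
    have e5 := hb k hk
    rw [if_neg (by omega : ¬ 1 = k)] at e1 e2 e3 e4
    rw [← hU, hQ0]
    rw [hP3c] at e1 e2
    rw [hP1c] at e3 e4
    have h2 : (if 2 = k then 0 - 0 else 0) = 0 := by split_ifs <;> rfl
    rw [h2]
    omega
  · -- rigid vertices
    intro i hi hi2 hi1 his
    simp only [Finset.mem_union, not_or] at hi
    by_cases hri : r (i : ℕ)
    · rw [rep_rigid r hri hi1]
    · have h1 : ∃ p ∈ W', ∃ c, 1 ≤ c ∧ c ≤ 3 ∧ (i : ℕ) = (p.1 : ℕ) + c := by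
        by_contra hno
        push Not at hno
        refine hri ⟨i.2, hi.1, hi2, fun p hp => ⟨?_, ?_, ?_⟩⟩
        · exact hno p hp 1 (by omega) (by omega)
        · exact hno p hp 2 (by omega) (by omega)
        · exact hno p hp 3 (by omega) (by omega)
      obtain ⟨p, hp, c, hc1, hc3, hip⟩ := h1
      have hpW3 : p ∉ W3 := fun hh => hi.2.1 ((hP3m i).2 ⟨p, hh, c, hc1, hc3, hip⟩)
      obtain ⟨c', rfl⟩ : ∃ c', c = c' + 1 := ⟨c - 1, by omega⟩
      have r1 : rep r (i : ℕ) = (p.1 : ℕ) + (c' + 1) := by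
        rw [hip]; exact hrepc p hp _ hc3
      have r2 : rep r ((i : ℕ) - 1) = (p.1 : ℕ) + c' := by
        rw [hip, ← Nat.add_assoc, Nat.add_sub_cancel]; exact hrepc p hp _ (by omega)
      rw [r1, r2, hmemX p hp _ hc3, hmemX p hp _ (by omega)]
      have hc2 := hcc2 p
      constructor
      · rintro (hh | ⟨h5, h6⟩)
        · exact absurd hh.1 hpW3
        · exfalso
          apply hi.2.2
          refine (hP1m i).2 ⟨p, h5, ?_⟩
          omega
      · rintro (hh | ⟨h5, h6⟩)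
        · exact absurd hh.1 hpW3
        · exfalso
          apply hi.2.2
          refine (hP1m i).2 ⟨p, h5, ?_⟩
          omega
  · -- special vertices
    intro i hi t ht hti
    by_cases hi3 : i ∈ P3
    · obtain ⟨p, hp, c, hc1, hc3, hip⟩ := (hP3m i).1 hi3
      obtain ⟨c', hc', htc⟩ : ∃ c', c' ≤ 3 ∧ t = (p.1 : ℕ) + c' := by
        rcases hti with h1 | h1
        · exact ⟨c, hc3, by omega⟩
        · exact ⟨c - 1, by omega, by omega⟩
      have hp1 : p ∉ W1 := fun hh => hW13 p hh hp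
      rw [(hx1P3 i hi3).1, htc, hrepc p (hW3 p hp) c' hc', hmemX p (hW3 p hp) c' hc']
      constructor
      · rintro (⟨_, h2⟩ | ⟨h2, _⟩)
        · split_ifs <;> omega
        · exact absurd h2 hp1
      · intro h2
        refine Or.inl ⟨hp, ?_⟩
        split_ifs at h2 <;> omega
    · by_cases hi1 : i ∈ P1
      · obtain ⟨p, hp, hip⟩ := (hP1m i).1 hi1
        have hcn3' := hcn3 p
        have hc2 := hcc2 p
        obtain ⟨c', hc', htc, hcc'⟩ : ∃ c', c' ≤ 3 ∧ t = (p.1 : ℕ) + c' ∧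
            (c' = cn p ∨ c' + 1 = cn p) := by
          rcases hti with h1 | h1
          · exact ⟨cn p, by omega, by omega, by omega⟩
          · exact ⟨cn p - 1, by omega, by omega, by omega⟩
        have hp3 : p ∉ W3 := hW13 p hp
        rw [(hx1P1 i hi1).1, htc, hrepc p (hW1 p hp) c' hc', hmemX p (hW1 p hp) c' hc']
        constructor
        · rintro (⟨h2, _⟩ | ⟨_, h2⟩)
          · exact absurd h2 hp3
          · split_ifs <;> omega
        · intro h2
          refine Or.inr ⟨hp, ?_⟩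
          split_ifs at h2 <;> omega
      · have hiP : i ∈ P := by
          simp only [Finset.mem_union] at hi
          tauto
        have hwi : (if x0 i ≤ 1 then 0 else 1) = want i := rfl
        rw [(hx1o i hi3 hi1).1, hwi]
        constructor
        · intro hg
          by_contra hno
          rcases Finset.mem_union.1 hg with h1 | h1
          · rcases Finset.mem_union.1 h1 with h1 | h1
            · exact (Finset.disjoint_left.1 hG0bad) h1 (Finset.mem_image_of_mem _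
                (Finset.mem_filter.2 ⟨Finset.mem_range.2 ht, i, hiP, hti, hno⟩))
            · obtain ⟨q, hq, c, hc, e1, _⟩ := hX3m _ h1
              exact htouch q (hW3 q hq) i hiP t hti c hc e1
          · obtain ⟨q, hq, e1⟩ := Finset.mem_image.1 h1
            exact htouch q (hW1 q hq) i hiP t hti _ (hcc3 q) e1.symm
        · intro hw'
          exact Finset.mem_union_left _ (Finset.mem_union_left _ (Finset.mem_image_of_mem _
            (Finset.mem_filter.2 ⟨Finset.mem_range.2 ht, i, hiP, hti, hw'⟩)))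
  · have e1 := ex 0
    have e2 := ey 0
    have e3 := ex' 0
    have e4 := ey' 0
    rw [if_neg (by omega : ¬ 1 = 0)] at e1 e2 e3 e4
    rw [← hU, hsumGG]
    rw [← hzx, hP3c] at e1
    rw [← hzy, hP3c] at e2
    rw [hP1c] at e3 e4
    rcases (by omega : w = 0 ∨ w = 1) with h1 | h1
    · rw [h1] at e1 e2 e3 e4 hj ⊢
      simp at e1 e2 e3 e4 hj ⊢
      omega
    · rw [h1] at e1 e2 e3 e4 hj ⊢
      simp at e1 e2 e3 e4 hj ⊢
      omega

end Pool.Agent.W_e8e3a0
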