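import Pool.Agent.W_e8e3a0.DualO49
import Pool.Agent.W_e8e3a0.WideL49

/-! The dual condition is sufficient when all spine degrees are frequent, unless `2` is among them,
`3` is not, and almost all gaps between spine vertices of degree at least three equal two. -/

namespace Pool.Agent.W_e8e3a0

open Finset Num49

variable {V : Type} [Fintype V]

theorem gaps_card {s : ℕ} (d : Fin s → ℕ) (h2 : ∀ i, 2 ≤ d i) :
    (univ.filter (fun i => 3 ≤ d i)).card ≤ (univ.filter (fun p : Fin s × Fin s => p.1 < p.2 ∧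
      3 ≤ d p.1 ∧ 3 ≤ d p.2 ∧ ∀ k, p.1 < k → k < p.2 → d k = 2)).card + 1 := by
  classical
  set T := univ.filter (fun i => 3 ≤ d i) with hT
  set GP := univ.filter (fun p : Fin s × Fin s => p.1 < p.2 ∧
      3 ≤ d p.1 ∧ 3 ≤ d p.2 ∧ ∀ k, p.1 < k → k < p.2 → d k = 2) with hGP
  rcases T.eq_empty_or_nonempty with h0 | h0
  · rw [h0, Finset.card_empty]; exact Nat.zero_le _
  · set m := T.max' h0 with hm
    have hmT : m ∈ T := Finset.max'_mem _ _
    have hsub : T.erase m ⊆ GP.image Prod.fst := by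
      intro i hi
      obtain ⟨h1, h3⟩ := Finset.mem_erase.1 hi
      have h4 : i < m := lt_of_le_of_ne (Finset.le_max' _ _ h3) h1
      set N := T.filter (fun j => i < j) with hN
      have hNn : N.Nonempty := ⟨m, Finset.mem_filter.2 ⟨hmT, h4⟩⟩
      have h5 := Finset.mem_filter.1 (Finset.min'_mem N hNn)
      refine Finset.mem_image.2 ⟨(i, N.min' hNn), Finset.mem_filter.2 ⟨Finset.mem_univ _, h5.2,
        (Finset.mem_filter.1 h3).2, (Finset.mem_filter.1 h5.1).2, fun k hk1 hk2 => ?_⟩, rfl⟩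
      have h6 := h2 k
      by_contra h7
      have h8 : k ∈ N := Finset.mem_filter.2 ⟨Finset.mem_filter.2 ⟨Finset.mem_univ _, by omega⟩, hk1⟩
      exact absurd (Finset.min'_le N k h8) (not_le.2 hk2)
    have h1 := (Finset.card_le_card hsub).trans Finset.card_image_le
    rw [Finset.card_erase_of_mem hmT] at h1
    omega

/-- disjointness of gaps -/
theorem gaps_disj {s : ℕ} (d : Fin s → ℕ) (p q : Fin s × Fin s)
    (hp : p.1 < p.2 ∧ 3 ≤ d p.1 ∧ 3 ≤ d p.2 ∧ ∀ k, p.1 < k → k < p.2 → d k = 2)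
    (hq : q.1 < q.2 ∧ 3 ≤ d q.1 ∧ 3 ≤ d q.2 ∧ ∀ k, q.1 < k → k < q.2 → d k = 2)
    (hpq : p ≠ q) : p.2 ≤ q.1 ∨ q.2 ≤ p.1 := by
  obtain ⟨a1, a3, a4, a5⟩ := hp
  obtain ⟨b1, b3, b4, b5⟩ := hq
  rcases lt_trichotomy p.1 q.1 with h1 | h1 | h1
  · left
    by_contra h2
    have := a5 q.1 h1 (not_le.1 h2)
    omega
  · exfalso
    rcases lt_trichotomy p.2 q.2 with h2 | h2 | h2
    · have := b5 p.2 (by rw [← h1]; exact a1) h2
      omega
    · exact hpq (Prod.ext h1 h2)
    · have := a5 q.2 (by rw [h1]; exact b1) h2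
      omega
  · right
    by_contra h2
    have := b5 p.1 h1 (not_le.1 h2)
    omega

/-- parts from the dual condition -/
theorem dual_parts {G : SimpleGraph V} {s : ℕ} {v : Fin s → V} (h : IsSpine G v) (hs : 0 < s)
    (M : ℕ) (hM : ∀ i, deg G (v i) ≤ M) (hM4 : 4 ≤ M + 1)
    (hrich : ∀ i, 30 * (M + 1) ≤ {j | deg G (v j) = deg G (v i)}.ncard)
    (hdual : ∀ f : ℕ → ZMod 2, f 0 = 0 → f 1 = 0 →
      (∀ i, ∀ k, k ≤ deg G (v i) → f k + f (deg G (v i) - k) = f (deg G (v i))) →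
      ∑ i, f (deg G (v i)) = 0) :
    ∃ (P : Finset (Fin s)) (a b : Fin s → ℕ), P.card ≤ 2 * (M + 1) ∧
      (∀ i ∈ P, ∀ j ∈ P, i < j → ∃ k : Fin s, i < k ∧ k < j ∧ 3 ≤ deg G (v k)) ∧
      (∀ i, a i + b i = deg G (v i)) ∧ (∀ i ∈ P, a i ≠ 1 ∨ b i ≠ 1) ∧
      (∀ k, 2 ≤ k → (cx a univ k + cx b univ k) % 2 = 0) ∧
      (∀ i, i ∉ P → (deg G (v i) = 2 → a i = 1 ∧ b i = 1) ∧
      (deg G (v i) = 3 → a i = 1 ∧ b i = 2) ∧ (4 ≤ deg G (v i) → 2 ≤ a i ∧ 2 ≤ b i)) ∧
      (univ.filter (fun i => i ∉ P ∧ deg G (v i) = 3)).card % 2 = 0 := by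
  classical
  set d : Fin s → ℕ := fun i => deg G (v i) with hd
  have h2d : ∀ i, 2 ≤ d i := h.two
  have hr : ∀ i, 30 * (M + 1) ≤ (univ.filter (fun j => d j = d i)).card := by
    intro i
    have h1 := hrich i
    rw [Set.ncard_eq_toFinset_card'] at h1
    refine h1.trans (Finset.card_le_card (fun j hj => ?_))
    rw [Set.mem_toFinset] at hj
    exact Finset.mem_filter.2 ⟨Finset.mem_univ _, hj⟩
  set S : Finset ℕ := univ.image d with hS
  have hSm : ∀ e, e ∈ S ↔ ∃ i, d i = e := by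
    intro e
    rw [hS, Finset.mem_image]
    exact ⟨fun ⟨i, _, hi⟩ => ⟨i, hi⟩, fun ⟨i, hi⟩ => ⟨i, Finset.mem_univ _, hi⟩⟩
  have hSM : ∀ e ∈ S, e ≤ M := by
    intro e he
    obtain ⟨i, rfl⟩ := (hSm e).1 he
    exact hM i
  obtain ⟨A, hAc, hA1, hA2', hA3, hA21, hA22⟩ := arcs_two S
    (fun e => ∑ i, (if d i = e then (1 : ZMod 2) else 0)) M hSM (by
      intro f h0 h1 hf
      have h2 := hdual f h0 h1 (fun i k hk => hf (d i) ((hSm _).2 ⟨i, rfl⟩) k hk)
      have h3 : ∑ e ∈ S, (∑ i, (if d i = e then (1 : ZMod 2) else 0)) * f e = ∑ i, f (d i) := by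
        simp only [Finset.sum_mul]
        rw [Finset.sum_comm]
        refine Finset.sum_congr rfl (fun i _ => ?_)
        rw [Finset.sum_eq_single (d i)]
        · simp
        · intro b _ hb; simp [Ne.symm hb]
        · intro hn; exact absurd ((hSm _).2 ⟨i, rfl⟩) hn
      rw [h3]
      exact h2)
  have hA2 : ∀ e, e ≠ 2 → ∑ a ∈ A, (if a.1 = e then (1 : ZMod 2) else 0) =
      ∑ i, (if d i = e then (1 : ZMod 2) else 0) := by
    intro e he2
    by_cases he : e ∈ S
    · exact hA2' e he he2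
    · rw [Finset.sum_eq_zero, Finset.sum_eq_zero]
      · intro i _
        exact if_neg (fun hh => he ((hSm _).2 ⟨i, hh⟩))
      · intro a ha
        exact if_neg (fun hh : a.1 = e => he (by rw [← hh]; exact (hA1 a ha).1))
  obtain ⟨p, hp1, hpn⟩ := place_sep d hs A
    (fun a ha => by
      obtain ⟨i, hi⟩ := (hSm _).1 (hA1 a ha).1
      rw [← hi]; exact h2d i) hA22
    (fun a ha ha2 => by
      obtain ⟨i, hi⟩ := (hSm _).1 (hA1 a ha).1
      exact ⟨i, by rw [hi, ha2]⟩)
    (fun a ha _ => by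
      obtain ⟨i, hi⟩ := (hSm _).1 (hA1 a ha).1
      have h1 := hr i
      rw [← hi]
      refine le_trans ?_ h1
      omega)
  have hp2 : ∀ a ∈ A, ∀ b ∈ A, a ≠ b → (p a : ℕ) + 1 < p b ∨ (p b : ℕ) + 1 < p a := by
    intro a ha b hb hab
    rcases hpn a ha b hb hab with h1 | h1
    · obtain ⟨k, k1, k2, _⟩ := nu_between d h1
      have k1' : (p a : ℕ) < k := k1
      have k2' : (k : ℕ) < p b := k2
      omega
    · obtain ⟨k, k1, k2, _⟩ := nu_between d h1
      have k1' : (p b : ℕ) < k := k1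
      have k2' : (k : ℕ) < p a := k2
      omega
  obtain ⟨hQ2, a, b, hab, hpar, hn, haA⟩ := mixed_parts d h2d A
    (fun a ha => (hA1 a ha).2) hA2 hA3 p hp1 hp2
  have hPc : (A.image p).card ≤ 2 * (M + 1) := Finset.card_image_le.trans hAc
  refine ⟨A.image p, a, b, hPc, ?_, hab, ?_, hpar, hn, hQ2⟩
  · intro i hi j hj hij
    obtain ⟨a', ha', rfl⟩ := Finset.mem_image.1 hi
    obtain ⟨b', hb', rfl⟩ := Finset.mem_image.1 hj
    rcases hpn a' ha' b' hb' (fun hh => absurd hij (by rw [hh]; exact lt_irrefl _)) with h1 | h1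
    · exact nu_between d h1
    · obtain ⟨k, k1, k2, _⟩ := nu_between d h1
      exact absurd (k1.trans k2) (not_lt.2 hij.le)
  · intro i hi
    obtain ⟨c, hc, rfl⟩ := Finset.mem_image.1 hi
    by_contra hno
    push Not at hno
    have e1 := haA c hc
    have e2 := hp1 c hc
    have e3 := hab (p c)
    have e4 : c = (2, 1) := Prod.ext (by show c.1 = 2; omega) (by show c.2 = 1; omega)
    exact hA21 (e4 ▸ hc)

/-- the dual condition is sufficient when all spine degrees are frequent, unless `2` is among them,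
`3` is not, and almost all gaps between spine vertices of degree at least three equal two -/
theorem dual_suff5 {G : SimpleGraph V} {s : ℕ} {v : Fin s → V} (h : IsSpine G v) (hs : 0 < s)
    (hev : Even G.edgeSet.ncard) (M : ℕ) (hM : ∀ i, deg G (v i) ≤ M)
    (hrich : ∀ i, 60 * (M + 1) ≤ {j | deg G (v j) = deg G (v i)}.ncard)
    (hgap : (∀ i, deg G (v i) ≠ 2) ∨ (∃ i, deg G (v i) = 3) ∨
      60 * (M + 1) ≤ {p : Fin s × Fin s | p.1 < p.2 ∧ (p.2 : ℕ) - p.1 ≠ 2 ∧
        3 ≤ deg G (v p.1) ∧ 3 ≤ deg G (v p.2) ∧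
        ∀ k, p.1 < k → k < p.2 → deg G (v k) = 2}.ncard)
    (hdual : ∀ f : ℕ → ZMod 2, f 0 = 0 → f 1 = 0 →
      (∀ i, ∀ k, k ≤ deg G (v i) → f k + f (deg G (v i) - k) = f (deg G (v i))) →
      ∑ i, f (deg G (v i)) = 0) : Splittable G := by
  classical
  have h2d : ∀ i, 2 ≤ deg G (v i) := h.two
  have hr : ∀ i, 60 * (M + 1) ≤ (univ.filter (fun j => deg G (v j) = deg G (v i))).card := by
    intro i
    have h1 := hrich i
    rw [Set.ncard_eq_toFinset_card'] at h1
    refine h1.trans (Finset.card_le_card (fun j hj => ?_))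
    rw [Set.mem_toFinset] at hj
    exact Finset.mem_filter.2 ⟨Finset.mem_univ _, hj⟩
  have hrich' : ∀ i, 30 * (M + 1) ≤ {j | deg G (v j) = deg G (v i)}.ncard := fun i =>
    le_trans (by omega) (hrich i)
  set GP : Finset (Fin s × Fin s) := univ.filter (fun p => p.1 < p.2 ∧
    3 ≤ deg G (v p.1) ∧ 3 ≤ deg G (v p.2) ∧ ∀ k, p.1 < k → k < p.2 → deg G (v k) = 2) with hGP
  have hGPm : ∀ p ∈ GP, p.1 < p.2 ∧ 3 ≤ deg G (v p.1) ∧ 3 ≤ deg G (v p.2) ∧
      ∀ k, p.1 < k → k < p.2 → deg G (v k) = 2 := fun p hp => (Finset.mem_filter.1 hp).2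
  have hGPd : ∀ p ∈ GP, ∀ q ∈ GP, p ≠ q → p.2 ≤ q.1 ∨ q.2 ≤ p.1 := fun p hp q hq hpq =>
    gaps_disj (fun i => deg G (v i)) p q (hGPm p hp) (hGPm q hq) hpq
  have hGPc : (univ.filter (fun i => 3 ≤ deg G (v i))).card ≤ GP.card + 1 :=
    gaps_card (fun i => deg G (v i)) h2d
  by_cases hodd : 20 * (M + 1) ≤ (GP.filter (fun p => Odd ((p.2 : ℕ) - p.1))).card
  · refine dual_suff4 h hs hev M hM hrich' ?_ hdual
    have h1 : {p : Fin s × Fin s | p.1 < p.2 ∧ Odd ((p.2 : ℕ) - p.1) ∧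
        3 ≤ deg G (v p.1) ∧ 3 ≤ deg G (v p.2) ∧
        ∀ k, p.1 < k → k < p.2 → deg G (v k) = 2} =
        ((GP.filter (fun p => Odd ((p.2 : ℕ) - p.1)) : Finset (Fin s × Fin s)) : Set _) := by
      ext p
      simp only [Set.mem_ofPred_eq, Finset.coe_filter, hGP, Finset.mem_filter, Finset.mem_univ,
        true_and]
      tauto
    rw [h1, Set.ncard_coe_finset]
    exact hodd
  -- there is a spine vertex of degree at least three
  obtain ⟨i3, hi3⟩ : ∃ i, 3 ≤ deg G (v i) := by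
    rcases hgap with h1 | ⟨i, h1⟩ | h1
    · exact ⟨⟨0, hs⟩, by have := h2d ⟨0, hs⟩; have := h1 ⟨0, hs⟩; omega⟩
    · exact ⟨i, by omega⟩
    · rw [Set.ncard_eq_toFinset_card'] at h1
      obtain ⟨p, hp⟩ := Finset.card_pos.1 (lt_of_lt_of_le (by omega) h1)
      rw [Set.mem_toFinset] at hp
      exact ⟨p.1, hp.2.2.1⟩
  have hM4 : 4 ≤ M + 1 := by
    have h1 : deg G (v i3) ≤ M := hM i3
    omega
  have hsplit := Finset.card_filter_add_card_filter_not (s := GP)
    (fun p : Fin s × Fin s => Odd ((p.2 : ℕ) - p.1))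
  obtain ⟨P, a, b, hPc, hPsep, hab, hPs, hpar, hn, hQ2⟩ :=
    dual_parts h hs M hM hM4 hrich' hdual
  by_cases hthree : ∃ i, deg G (v i) = 3
  · obtain ⟨i, hi⟩ := hthree
    have h1 : (univ.filter (fun j => deg G (v j) = 3)).card ≤
        (univ.filter (fun j => 3 ≤ deg G (v j))).card := by
      refine Finset.card_le_card (fun j hj => ?_)
      have := (Finset.mem_filter.1 hj).2
      exact Finset.mem_filter.2 ⟨Finset.mem_univ _, by omega⟩
    have h2 := hr i
    rw [hi] at h2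
    refine even_split h hev P hPsep a b hab hPs hpar hn _ (by intro i; simp) hQ2
      (GP.filter (fun p => ¬ Odd ((p.2 : ℕ) - p.1))) (fun p hp => ?_) (fun p hp q hq hpq =>
        hGPd p (Finset.mem_filter.1 hp).1 q (Finset.mem_filter.1 hq).1 hpq) (by omega) ?_
    · obtain ⟨k1, k2⟩ := Finset.mem_filter.1 hp
      obtain ⟨k3, k4, k5, k6⟩ := hGPm p k1
      rw [Nat.not_odd_iff] at k2
      exact ⟨k3, k2, k4, k5, k6⟩
    · have h3 : (univ.filter (fun j => deg G (v j) = 3)).card ≤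
          (univ.filter (fun i => i ∉ P ∧ deg G (v i) = 3)).card + P.card := by
        rw [← Finset.card_union_of_disjoint]
        · refine Finset.card_le_card (fun j hj => ?_)
          rw [Finset.mem_union]
          by_cases hjP : j ∈ P
          · exact Or.inr hjP
          · exact Or.inl (Finset.mem_filter.2 ⟨Finset.mem_univ _, hjP,
              (Finset.mem_filter.1 hj).2⟩)
        · rw [Finset.disjoint_left]
          intro j hj hj2
          exact (Finset.mem_filter.1 hj).2.1 hj2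
      omega
  · rcases hgap with h1 | h1 | h1
    · -- all gaps are odd
      exfalso
      have h2 : GP.filter (fun p => ¬ Odd ((p.2 : ℕ) - p.1)) = ∅ := by
        rw [Finset.filter_eq_empty_iff]
        intro p hp
        obtain ⟨k3, k4, k5, k6⟩ := hGPm p hp
        rw [not_not]
        have k3' : (p.1 : ℕ) < p.2 := k3
        have k7 : (p.2 : ℕ) = p.1 + 1 := by
          by_contra hno
          have hlt : (p.1 : ℕ) + 1 < p.2 := by omega
          have hs1 : (p.1 : ℕ) + 1 < s := hlt.trans p.2.2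
          exact h1 ⟨(p.1 : ℕ) + 1, hs1⟩ (k6 _ (by
            show (p.1 : ℕ) < p.1 + 1
            omega) hlt)
        rw [k7, Nat.add_sub_cancel_left]
        exact odd_one
      have h3 : (univ.filter (fun j => deg G (v j) = deg G (v i3))).card ≤
          (univ.filter (fun j => 3 ≤ deg G (v j))).card := by
        refine Finset.card_le_card (fun j hj => ?_)
        have := (Finset.mem_filter.1 hj).2
        exact Finset.mem_filter.2 ⟨Finset.mem_univ _, by omega⟩
      have h4 := hr i3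
      rw [h2, Finset.card_empty] at hsplit
      omega
    · exact absurd h1 hthree
    · -- many long gaps
      have h2 : {p : Fin s × Fin s | p.1 < p.2 ∧ (p.2 : ℕ) - p.1 ≠ 2 ∧
          3 ≤ deg G (v p.1) ∧ 3 ≤ deg G (v p.2) ∧
          ∀ k, p.1 < k → k < p.2 → deg G (v k) = 2} =
          ((GP.filter (fun p => (p.2 : ℕ) - p.1 ≠ 2) : Finset (Fin s × Fin s)) : Set _) := by
        ext p
        simp only [Set.mem_ofPred_eq, Finset.coe_filter, hGP, Finset.mem_filter, Finset.mem_univ,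
          true_and]
        tauto
      rw [h2, Set.ncard_coe_finset] at h1
      have h3 : (GP.filter (fun p => (p.2 : ℕ) - p.1 ≠ 2)).card ≤
          (GP.filter (fun p => Odd ((p.2 : ℕ) - p.1))).card +
          (GP.filter (fun p => ¬ Odd ((p.2 : ℕ) - p.1) ∧ (p.2 : ℕ) - p.1 ≠ 2)).card := by
        rw [← Finset.card_union_of_disjoint]
        · refine Finset.card_le_card (fun p hp => ?_)
          obtain ⟨k1, k2⟩ := Finset.mem_filter.1 hp
          rw [Finset.mem_union]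
          by_cases k3 : Odd ((p.2 : ℕ) - p.1)
          · exact Or.inl (Finset.mem_filter.2 ⟨k1, k3⟩)
          · exact Or.inr (Finset.mem_filter.2 ⟨k1, k3, k2⟩)
        · rw [Finset.disjoint_left]
          intro p hp hp2
          exact (Finset.mem_filter.1 hp2).2.1 (Finset.mem_filter.1 hp).2
      refine long_split h hev P hPsep a b hab hPs hpar hn
        (univ.filter (fun i => i ∉ P ∧ deg G (v i) = 3)) (by intro i; simp) ?_
        (GP.filter (fun p => ¬ Odd ((p.2 : ℕ) - p.1) ∧ (p.2 : ℕ) - p.1 ≠ 2)) (fun p hp => ?_)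
        (fun p hp q hq hpq => hGPd p (Finset.mem_filter.1 hp).1 q (Finset.mem_filter.1 hq).1 hpq)
        (by omega)
      · rw [Finset.card_eq_zero, Finset.filter_eq_empty_iff]
        intro i _ hh
        exact hthree ⟨i, hh.2⟩
      · obtain ⟨k1, k2, k2'⟩ := Finset.mem_filter.1 hp
        obtain ⟨k3, k4, k5, k6⟩ := hGPm p k1
        rw [Nat.not_odd_iff] at k2
        have k3' : (p.1 : ℕ) < p.2 := k3
        exact ⟨by omega, k2, k4, k5, k6⟩

theorem consec_suff5 {G : SimpleGraph V} {s : ℕ} {v : Fin s → V} (h : IsSpine G v) (hs : 0 < s)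
    (M : ℕ) (hM : ∀ i, deg G (v i) ≤ M)
    (hrich : ∀ i, 60 * (M + 1) ≤ {j | deg G (v j) = deg G (v i)}.ncard)
    (hgap : (∀ i, deg G (v i) ≠ 2) ∨ (∃ i, deg G (v i) = 3) ∨
      60 * (M + 1) ≤ {p : Fin s × Fin s | p.1 < p.2 ∧ (p.2 : ℕ) - p.1 ≠ 2 ∧
        3 ≤ deg G (v p.1) ∧ 3 ≤ deg G (v p.2) ∧
        ∀ k, p.1 < k → k < p.2 → deg G (v k) = 2}.ncard)
    (a : ℕ) (ha : ∃ i, deg G (v i) = a) (ha1 : ∃ i, deg G (v i) = a + 1)
    (hstep : ∀ i, a + 1 < deg G (v i) → ∃ j, a < deg G (v j) ∧ deg G (v j) < deg G (v i) ∧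
      deg G (v i) ≤ 2 * deg G (v j)) :
    Splittable G ↔ Even G.edgeSet.ncard := by
  constructor
  · intro hG
    exact (necessary hs h hG).1
  · intro hev
    refine dual_suff5 h hs hev M hM hrich hgap (fun f h0 h1 hf => ?_)
    exact Finset.sum_eq_zero (fun i _ =>
      adm_zero (fun i => deg G (v i)) f h0 h1 hf a ha ha1 hstep i)

end Pool.Agent.W_e8e3a0
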