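import Pool.Agent.W_e8e3a0.WideM49

namespace Pool.Agent.W_e8e3a0

open Finset Num49

variable {V : Type} [Fintype V]

/-- arcs without `(1, 1)` and with at most one arc of label two -/
theorem arcs_two (S : Finset ℕ) (n : ℕ → ZMod 2) (M : ℕ) (hM : ∀ d ∈ S, d ≤ M)
    (hdual : ∀ f : ℕ → ZMod 2, f 0 = 0 → f 1 = 0 → (∀ d ∈ S, ∀ k, k ≤ d → f k + f (d - k) = f d) →
      ∑ d ∈ S, n d * f d = 0) :
    ∃ A : Finset (ℕ × ℕ), A.card ≤ 2 * (M + 1) ∧ (∀ a ∈ A, a.1 ∈ S ∧ a.2 ≤ a.1) ∧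
      (∀ d ∈ S, d ≠ 2 → ∑ a ∈ A, (if a.1 = d then (1 : ZMod 2) else 0) = n d) ∧
      (∀ k, 2 ≤ k → ∑ a ∈ A, ((if a.2 = k then (1 : ZMod 2) else 0) +
        (if a.1 - a.2 = k then (1 : ZMod 2) else 0)) = 0) ∧
      (2, 1) ∉ A ∧ (∀ a ∈ A, ∀ b ∈ A, a.1 = 2 → b.1 = 2 → a = b) := by
  classical
  obtain ⟨A0, hAc0, hA10, hA20, hA30⟩ := arcs_exist S n M hM hdual
  set A1 := A0.erase (2, 1) with hA1
  have hs1 : ∀ F : ℕ × ℕ → ZMod 2, F (2, 1) = 0 → ∑ a ∈ A1, F a = ∑ a ∈ A0, F a := by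
    intro F hF
    rw [hA1]
    exact Finset.sum_erase _ hF
  have hc1 : A1.card ≤ 2 * (M + 1) := (Finset.card_le_card (Finset.erase_subset _ _)).trans hAc0
  have hm1 : ∀ a ∈ A1, a.1 ∈ S ∧ a.2 ≤ a.1 := fun a ha => hA10 a (Finset.mem_of_mem_erase ha)
  have hl1 : ∀ d ∈ S, d ≠ 2 → ∑ a ∈ A1, (if a.1 = d then (1 : ZMod 2) else 0) = n d := by
    intro d hd hd2
    rw [hs1 _ (if_neg (fun hh => hd2 hh.symm))]
    exact hA20 d hd
  have hk1 : ∀ k, 2 ≤ k → ∑ a ∈ A1, ((if a.2 = k then (1 : ZMod 2) else 0) +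
      (if a.1 - a.2 = k then (1 : ZMod 2) else 0)) = 0 := by
    intro k hk
    rw [hs1 _ (by
      show (if 1 = k then (1 : ZMod 2) else 0) + (if 2 - 1 = k then (1 : ZMod 2) else 0) = 0
      rw [if_neg (by omega), add_zero])]
    exact hA30 k hk
  have hn1 : (2, 1) ∉ A1 := Finset.notMem_erase _ _
  have hlist : ∀ a : ℕ × ℕ, a.1 = 2 → a.2 ≤ a.1 → a ≠ (2, 1) → a = (2, 0) ∨ a = (2, 2) := by
    rintro ⟨a1, a2⟩ h1 h2 h3
    have h1' : a1 = 2 := h1
    have h2' : a2 ≤ a1 := h2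
    subst h1'
    have h4 : a2 ≠ 1 := fun hh => h3 (by rw [hh])
    have h5 : a2 = 0 ∨ a2 = 2 := by omega
    rcases h5 with h5 | h5 <;> rw [h5] <;> simp
  by_cases hboth : (2, 0) ∈ A1 ∧ (2, 2) ∈ A1
  · obtain ⟨b0, b2⟩ := hboth
    have b2' : ((2, 2) : ℕ × ℕ) ∈ A1.erase (2, 0) := Finset.mem_erase.2 ⟨by simp, b2⟩
    have hs2 : ∀ F : ℕ × ℕ → ZMod 2, F (2, 0) + F (2, 2) = 0 →
        ∑ a ∈ (A1.erase (2, 0)).erase (2, 2), F a = ∑ a ∈ A1, F a := by
      intro F hF
      have e1 := Finset.add_sum_erase A1 F b0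
      have e2 := Finset.add_sum_erase (A1.erase (2, 0)) F b2'
      rw [← e1, ← e2, ← add_assoc, hF, zero_add]
    have hsub : (A1.erase (2, 0)).erase (2, 2) ⊆ A1 :=
      (Finset.erase_subset _ _).trans (Finset.erase_subset _ _)
    refine ⟨(A1.erase (2, 0)).erase (2, 2), (Finset.card_le_card hsub).trans hc1,
      fun a ha => hm1 a (hsub ha), ?_, ?_, fun hh => hn1 (hsub hh), ?_⟩
    · intro d hd hd2
      rw [hs2 _ (by
        show (if 2 = d then (1 : ZMod 2) else 0) + (if 2 = d then (1 : ZMod 2) else 0) = 0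
        rw [if_neg (fun hh => hd2 hh.symm), add_zero])]
      exact hl1 d hd hd2
    · intro k hk
      rw [hs2 _ (by
        show ((if 0 = k then (1 : ZMod 2) else 0) + (if 2 - 0 = k then (1 : ZMod 2) else 0)) +
          ((if 2 = k then (1 : ZMod 2) else 0) + (if 2 - 2 = k then (1 : ZMod 2) else 0)) = 0
        by_cases h2k : 2 = k
        · subst h2k; decide
        · rw [if_neg (by omega), if_neg (by omega)]
          decide)]
      exact hk1 k hk
    · intro a ha b hb ha2 hb2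
      exfalso
      rcases hlist a ha2 (hm1 a (hsub ha)).2 (fun hh => hn1 (hh ▸ hsub ha)) with e | e
      · rw [e] at ha
        exact (Finset.notMem_erase _ _) (Finset.mem_of_mem_erase ha)
      · rw [e] at ha
        exact (Finset.notMem_erase _ _) ha
  · refine ⟨A1, hc1, hm1, hl1, hk1, hn1, ?_⟩
    intro a ha b hb ha2 hb2
    rcases hlist a ha2 (hm1 a ha).2 (fun hh => hn1 (hh ▸ ha)) with e1 | e1 <;>
      rcases hlist b hb2 (hm1 b hb).2 (fun hh => hn1 (hh ▸ hb)) with e2 | e2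
    · rw [e1, e2]
    · exact absurd ⟨e1 ▸ ha, e2 ▸ hb⟩ hboth
    · exact absurd ⟨e2 ▸ hb, e1 ▸ ha⟩ hboth
    · rw [e1, e2]

/-- the dual condition is sufficient when all spine degrees are frequent, and so are the spine
edges without an end of degree two -/
theorem dual_suff3 {G : SimpleGraph V} {s : ℕ} {v : Fin s → V} (h : IsSpine G v) (hs : 0 < s)
    (hev : Even G.edgeSet.ncard) (M : ℕ) (hM : ∀ i, deg G (v i) ≤ M)
    (hrich : ∀ i, 30 * (M + 1) ≤ {j | deg G (v j) = deg G (v i)}.ncard)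
    (hedge : 20 * (M + 1) ≤ {j : Fin s | 3 ≤ deg G (v j) ∧
      ∃ k : Fin s, (j : ℕ) + 1 = k ∧ 3 ≤ deg G (v k)}.ncard)
    (hdual : ∀ f : ℕ → ZMod 2, f 0 = 0 → f 1 = 0 →
      (∀ i, ∀ k, k ≤ deg G (v i) → f k + f (deg G (v i) - k) = f (deg G (v i))) →
      ∑ i, f (deg G (v i)) = 0) : Splittable G := by
  classical
  set d : Fin s → ℕ := fun i => deg G (v i) with hd
  have h2d : ∀ i, 2 ≤ d i := h.two
  have hr : ∀ i, 30 * (M + 1) ≤ (univ.filter (fun j => d j = d i)).card := by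
    intro i
    have h1 := hrich i
    rw [Set.ncard_eq_toFinset_card'] at h1
    refine h1.trans (Finset.card_le_card (fun j hj => ?_))
    rw [Set.mem_toFinset] at hj
    exact Finset.mem_filter.2 ⟨Finset.mem_univ _, hj⟩
  set W : Finset ℕ := (range (s - 1)).filter (fun t => gd d t) with hW
  have hWc : 20 * (M + 1) ≤ W.card := by
    rw [Set.ncard_eq_toFinset_card'] at hedge
    refine hedge.trans ?_
    refine Finset.card_le_card_of_injOn (fun j : Fin s => (j : ℕ)) (fun j hj => ?_)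
      (fun i _ j _ hij => Fin.ext hij)
    rw [Set.coe_toFinset] at hj
    obtain ⟨h1, k, h2, h3⟩ := hj
    have hks := k.2
    refine Finset.mem_coe.2 (Finset.mem_filter.2 ⟨Finset.mem_range.2 (by
      show (j : ℕ) < s - 1; omega), fun l hl => ?_⟩)
    rcases hl with hl | hl
    · have : l = j := Fin.ext hl
      rw [this]; exact h1
    · have : l = k := Fin.ext (by rw [hl, ← h2])
      rw [this]; exact h3
  obtain ⟨i3, hi3⟩ : ∃ i, 3 ≤ d i := by
    have h1 : 0 < W.card := by omega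
    obtain ⟨t, ht⟩ := Finset.card_pos.1 h1
    obtain ⟨h2, h3⟩ := Finset.mem_filter.1 ht
    rw [Finset.mem_range] at h2
    exact ⟨⟨t, by omega⟩, h3 _ (Or.inl rfl)⟩
  have hM4 : 4 ≤ M + 1 := by
    have h1 : d i3 ≤ M := hM i3
    omega
  set S : Finset ℕ := univ.image d with hS
  have hSm : ∀ e, e ∈ S ↔ ∃ i, d i = e := by
    intro e
    rw [hS, Finset.mem_image]
    exact ⟨fun ⟨i, _, hi⟩ => ⟨i, hi⟩, fun ⟨i, hi⟩ => ⟨i, Finset.mem_univ _, hi⟩⟩
  have hSM : ∀ e ∈ S, e ≤ M := by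
    intro e he
    obtain ⟨i, rfl⟩ := (hSm e).1 he
    exact hM i
  obtain ⟨A, hAc, hA1, hA2', hA3, hA21, hA22⟩ := arcs_two S
    (fun e => ∑ i, (if d i = e then (1 : ZMod 2) else 0)) M hSM (by
      intro f h0 h1 hf
      have h2 := hdual f h0 h1 (fun i k hk => hf (d i) ((hSm _).2 ⟨i, rfl⟩) k hk)
      have h3 : ∑ e ∈ S, (∑ i, (if d i = e then (1 : ZMod 2) else 0)) * f e = ∑ i, f (d i) := by
        simp only [Finset.sum_mul]
        rw [Finset.sum_comm]
        refine Finset.sum_congr rfl (fun i _ => ?_)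
        rw [Finset.sum_eq_single (d i)]
        · simp
        · intro b _ hb; simp [Ne.symm hb]
        · intro hn; exact absurd ((hSm _).2 ⟨i, rfl⟩) hn
      rw [h3]
      exact h2)
  have hA2 : ∀ e, e ≠ 2 → ∑ a ∈ A, (if a.1 = e then (1 : ZMod 2) else 0) =
      ∑ i, (if d i = e then (1 : ZMod 2) else 0) := by
    intro e he2
    by_cases he : e ∈ S
    · exact hA2' e he he2
    · rw [Finset.sum_eq_zero, Finset.sum_eq_zero]
      · intro i _
        exact if_neg (fun hh => he ((hSm _).2 ⟨i, hh⟩))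
      · intro a ha
        exact if_neg (fun hh : a.1 = e => he (by rw [← hh]; exact (hA1 a ha).1))
  obtain ⟨p, hp1, hpn⟩ := place_sep d hs A
    (fun a ha => by
      obtain ⟨i, hi⟩ := (hSm _).1 (hA1 a ha).1
      rw [← hi]; exact h2d i) hA22
    (fun a ha ha2 => by
      obtain ⟨i, hi⟩ := (hSm _).1 (hA1 a ha).1
      exact ⟨i, by rw [hi, ha2]⟩)
    (fun a ha _ => by
      obtain ⟨i, hi⟩ := (hSm _).1 (hA1 a ha).1
      have h1 := hr i
      rw [← hi]
      refine le_trans ?_ h1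
      omega)
  have hp2 : ∀ a ∈ A, ∀ b ∈ A, a ≠ b → (p a : ℕ) + 1 < p b ∨ (p b : ℕ) + 1 < p a := by
    intro a ha b hb hab
    rcases hpn a ha b hb hab with h1 | h1
    · obtain ⟨k, k1, k2, _⟩ := nu_between d h1
      have k1' : (p a : ℕ) < k := k1
      have k2' : (k : ℕ) < p b := k2
      omega
    · obtain ⟨k, k1, k2, _⟩ := nu_between d h1
      have k1' : (p b : ℕ) < k := k1
      have k2' : (k : ℕ) < p a := k2
      omega
  obtain ⟨hQ2, a, b, hab, hpar, hn, haA⟩ := mixed_parts d h2d A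
    (fun a ha => (hA1 a ha).2) hA2 hA3 p hp1 hp2
  have hPc : (A.image p).card ≤ 2 * (M + 1) := Finset.card_image_le.trans hAc
  refine wide_split h hev (A.image p) ?_ a b hab ?_ hpar hn
    (univ.filter (fun i => i ∉ A.image p ∧ d i = 3)) (by intro i; simp [hd]) hQ2
    W (fun t ht => ?_) (by omega) ?_
  · intro i hi j hj hij
    obtain ⟨a', ha', rfl⟩ := Finset.mem_image.1 hi
    obtain ⟨b', hb', rfl⟩ := Finset.mem_image.1 hj
    rcases hpn a' ha' b' hb' (fun hh => absurd hij (by rw [hh]; exact lt_irrefl _)) with h1 | h1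
    · exact nu_between d h1
    · obtain ⟨k, k1, k2, _⟩ := nu_between d h1
      exact absurd (k1.trans k2) (not_lt.2 hij.le)
  · intro i hi
    obtain ⟨c, hc, rfl⟩ := Finset.mem_image.1 hi
    by_contra hno
    push Not at hno
    have e1 := haA c hc
    have e2 := hp1 c hc
    have e3 := hab (p c)
    have e4 : c = (2, 1) := Prod.ext (by show c.1 = 2; omega) (by show c.2 = 1; omega)
    exact hA21 (e4 ▸ hc)
  · obtain ⟨h1, h2⟩ := Finset.mem_filter.1 ht
    exact ⟨Finset.mem_range.1 h1, h2⟩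
  · by_cases hex : ∃ i, d i = 3
    · obtain ⟨i, hi⟩ := hex
      right
      have h1 := hr i
      have h2 : (univ.filter (fun j => d j = 3)).card ≤
          (univ.filter (fun i => i ∉ A.image p ∧ d i = 3)).card + (A.image p).card := by
        rw [← Finset.card_union_of_disjoint]
        · refine Finset.card_le_card (fun j hj => ?_)
          rw [Finset.mem_union]
          by_cases hjP : j ∈ A.image p
          · exact Or.inr hjP
          · exact Or.inl (Finset.mem_filter.2 ⟨Finset.mem_univ _, hjP,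
              (Finset.mem_filter.1 hj).2⟩)
        · rw [Finset.disjoint_left]
          intro j hj hj2
          exact (Finset.mem_filter.1 hj).2.1 hj2
      have h3 : 30 * (M + 1) ≤ (univ.filter (fun j => d j = 3)).card := by
        rw [← hi]; exact h1
      omega
    · left
      rw [Finset.card_eq_zero, Finset.filter_eq_empty_iff]
      intro i _ hh
      exact hex ⟨i, hh.2⟩

theorem consec_suff3 {G : SimpleGraph V} {s : ℕ} {v : Fin s → V} (h : IsSpine G v) (hs : 0 < s)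
    (M : ℕ) (hM : ∀ i, deg G (v i) ≤ M)
    (hrich : ∀ i, 30 * (M + 1) ≤ {j | deg G (v j) = deg G (v i)}.ncard)
    (hedge : 20 * (M + 1) ≤ {j : Fin s | 3 ≤ deg G (v j) ∧
      ∃ k : Fin s, (j : ℕ) + 1 = k ∧ 3 ≤ deg G (v k)}.ncard)
    (a : ℕ) (ha : ∃ i, deg G (v i) = a) (ha1 : ∃ i, deg G (v i) = a + 1)
    (hstep : ∀ i, a + 1 < deg G (v i) → ∃ j, a < deg G (v j) ∧ deg G (v j) < deg G (v i) ∧
      deg G (v i) ≤ 2 * deg G (v j)) :
    Splittable G ↔ Even G.edgeSet.ncard := by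
  constructor
  · intro hG
    exact (necessary hs h hG).1
  · intro hev
    refine dual_suff3 h hs hev M hM hrich hedge (fun f h0 h1 hf => ?_)
    exact Finset.sum_eq_zero (fun i _ =>
      adm_zero (fun i => deg G (v i)) f h0 h1 hf a ha ha1 hstep i)

end Pool.Agent.W_e8e3a0
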