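import Pool.Agent.W_e8e3a0.Gen49

namespace Pool.Agent.W_e8e3a0

open Finset Num49

variable {V : Type} [Fintype V]

theorem fil_card (s : ℕ) (P : ℕ → Prop) [DecidablePred P] (i : Fin s) :
    (∑ j : Fin s, if ((i : ℕ) + 1 = j ∧ P i) ∨ ((j : ℕ) + 1 = i ∧ P j) then 1 else 0) =
      (((range (s - 1)).filter P).filter (fun t => t = (i : ℕ) ∨ t + 1 = i)).card := by
  have h1 : (∑ j : Fin s, if ((i : ℕ) + 1 = j ∧ P i) ∨ ((j : ℕ) + 1 = i ∧ P j) then 1 else 0) =
      ((univ : Finset (Fin s)).filter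
        (fun j : Fin s => ((i : ℕ) + 1 = (j : ℕ) ∧ P i) ∨ ((j : ℕ) + 1 = i ∧ P j))).card := by
    rw [Finset.card_filter]
  rw [h1]
  refine Finset.card_bij (fun j _ => min (i : ℕ) (j : ℕ)) ?_ ?_ ?_
  · intro j hj
    have hj := (Finset.mem_filter.1 hj).2
    have := j.2
    have := i.2
    rw [Finset.mem_filter, Finset.mem_filter, Finset.mem_range]
    rcases hj with ⟨a, b⟩ | ⟨a, b⟩
    · rw [min_eq_left (by omega)]
      exact ⟨⟨by omega, b⟩, Or.inl rfl⟩
    · rw [min_eq_right (by omega)]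
      exact ⟨⟨by omega, b⟩, Or.inr a⟩
  · intro j hj j' hj' he
    have hj := (Finset.mem_filter.1 hj).2
    have hj' := (Finset.mem_filter.1 hj').2
    apply Fin.ext
    rcases hj with ⟨a, b⟩ | ⟨a, b⟩ <;> rcases hj' with ⟨a', b'⟩ | ⟨a', b'⟩ <;> omega
  · intro t ht
    rw [Finset.mem_filter, Finset.mem_filter, Finset.mem_range] at ht
    obtain ⟨⟨h2, h3⟩, h4⟩ := ht
    rcases h4 with h4 | h4
    · subst h4
      refine ⟨⟨(i : ℕ) + 1, by omega⟩, ?_, ?_⟩
      · rw [Finset.mem_filter]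
        exact ⟨Finset.mem_univ _, Or.inl ⟨rfl, h3⟩⟩
      · simp only; omega
    · refine ⟨⟨t, by omega⟩, ?_, ?_⟩
      · rw [Finset.mem_filter]
        exact ⟨Finset.mem_univ _, Or.inr ⟨h4, h3⟩⟩
      · simp only; omega

/-- the spine edges of a subgraph -/
def PS {s : ℕ} (v : Fin s → V) (H : SimpleGraph V) (t : ℕ) : Prop :=
  ∃ i j : Fin s, (i : ℕ) = t ∧ (j : ℕ) = t + 1 ∧ H.Adj (v i) (v j)

theorem adj_iff_PS {G H : SimpleGraph V} {s : ℕ} {v : Fin s → V} (h : IsSpine G v)
    (hH : ∀ a b, H.Adj a b → G.Adj a b) (i j : Fin s) :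
    H.Adj (v i) (v j) ↔ ((i : ℕ) + 1 = j ∧ PS v H i) ∨ ((j : ℕ) + 1 = i ∧ PS v H j) := by
  constructor
  · intro ha
    rcases (h.path i j).1 (hH _ _ ha) with hij | hij
    · exact Or.inl ⟨hij, i, j, rfl, hij.symm, ha⟩
    · exact Or.inr ⟨hij, j, i, rfl, hij.symm, ha.symm⟩
  · rintro (⟨hij, i', j', h1, h2, h3⟩ | ⟨hij, i', j', h1, h2, h3⟩)
    · rw [Fin.ext h1, Fin.ext (show (j' : ℕ) = j by omega)] at h3
      exact h3
    · rw [Fin.ext h1, Fin.ext (show (j' : ℕ) = i by omega)] at h3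
      exact h3.symm

theorem adjN_sum {G H : SimpleGraph V} {s : ℕ} {v : Fin s → V} (h : IsSpine G v)
    (hH : ∀ a b, H.Adj a b → G.Adj a b) [DecidablePred (PS v H)] (i : Fin s) :
    ∑ j, adjN H (v i) (v j) =
      (((range (s - 1)).filter (PS v H)).filter (fun t => t = (i : ℕ) ∨ t + 1 = i)).card := by
  rw [← fil_card]
  exact Finset.sum_congr rfl (fun j _ => adjN_eq H (v i) (v j) _ (adj_iff_PS h hH i j))

theorem sub_count {G H : SimpleGraph V} {s : ℕ} {v : Fin s → V} (h : IsSpine G v)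
    (hH : ∀ a b, H.Adj a b → G.Adj a b) [DecidablePred (PS v H)] :
    ∑ u, deg H u + 2 * ((range (s - 1)).filter (PS v H)).card = 2 * ∑ i, deg H (v i) := by
  have h1 : ∀ u ∈ offSpine v, deg H u = ∑ i, adjN H (v i) u := by
    intro u hu
    rw [deg_eq_adjN, sum_split h.inj]
    have h2 : ∑ t ∈ offSpine v, adjN H u t = 0 := by
      refine Finset.sum_eq_zero (fun t ht => ?_)
      rw [adjN_eq H u t False, if_neg (fun h' => h')]
      constructor
      · intro h3
        obtain ⟨i, hi⟩ := h.leaf u (mem_offSpine.1 hu)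
        exact mem_offSpine.1 ht i ((hi t).1 (hH _ _ h3))
      · exact False.elim
    rw [h2, add_zero]
    exact Finset.sum_congr rfl (fun i _ => adjN_symm H u (v i))
  have h2 : ∑ i, deg H (v i) = ∑ i, ∑ j, adjN H (v i) (v j) +
      ∑ i, ∑ u ∈ offSpine v, adjN H (v i) u := by
    rw [← Finset.sum_add_distrib]
    refine Finset.sum_congr rfl (fun i _ => ?_)
    rw [deg_eq_adjN, sum_split h.inj]
  have h3 : ∑ i, ∑ j, adjN H (v i) (v j) = 2 * ((range (s - 1)).filter (PS v H)).card := by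
    rw [Finset.card_filter, ← sum_path]
    refine Finset.sum_congr rfl (fun i _ => Finset.sum_congr rfl (fun j _ => ?_))
    exact adjN_eq H (v i) (v j) _ (adj_iff_PS h hH i j)
  have h4 : ∑ u ∈ offSpine v, deg H u = ∑ i, ∑ u ∈ offSpine v, adjN H (v i) u := by
    rw [Finset.sum_congr rfl h1, Finset.sum_comm]
  rw [sum_split h.inj (fun u => deg H u)]
  omega

/-- the exact criterion on the spine -/
theorem form {G : SimpleGraph V} {s : ℕ} {v : Fin s → V} (h : IsSpine G v) :
    Splittable G ↔ ∃ (x y : Fin s → ℕ) (C D : Finset ℕ),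
      (∀ i, x i + y i = deg G (v i)) ∧
      (∀ k, 2 ≤ k → (univ.filter (fun i => x i = k)).card = (univ.filter (fun i => y i = k)).card) ∧
      Disjoint C D ∧ C ∪ D = range (s - 1) ∧
      (∀ i : Fin s, (C.filter (fun t => t = (i : ℕ) ∨ t + 1 = i)).card ≤ x i ∧
        (D.filter (fun t => t = (i : ℕ) ∨ t + 1 = i)).card ≤ y i) ∧
      ∑ i, x i + D.card = ∑ i, y i + C.card := by
  classical
  constructor
  · rintro ⟨G₁, G₂, hsup, hinf, hmap⟩
    have hadd := deg_add hsup hinf
    have hH1 : ∀ a b, G₁.Adj a b → G.Adj a b := fun a b hab => by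
      rw [← hsup]; exact (SimpleGraph.sup_adj _ _ _ _).2 (Or.inl hab)
    have hH2 : ∀ a b, G₂.Adj a b → G.Adj a b := fun a b hab => by
      rw [← hsup]; exact (SimpleGraph.sup_adj _ _ _ _).2 (Or.inr hab)
    refine ⟨fun i => deg G₁ (v i), fun i => deg G₂ (v i), (range (s - 1)).filter (PS v G₁),
      (range (s - 1)).filter (PS v G₂), fun i => (hadd (v i)).symm, ?_, ?_, ?_, ?_, ?_⟩
    · intro k hk
      have := bal_of_map h hadd hmap k hk
      rw [Finset.card_filter, Finset.card_filter]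
      exact this
    · rw [Finset.disjoint_left]
      intro t ht ht'
      obtain ⟨i, j, h1, h2, h3⟩ := (Finset.mem_filter.1 ht).2
      obtain ⟨i', j', h1', h2', h3'⟩ := (Finset.mem_filter.1 ht').2
      rw [Fin.ext (h1'.trans h1.symm), Fin.ext (h2'.trans h2.symm)] at h3'
      have h4 : (G₁ ⊓ G₂).Adj (v i) (v j) := (SimpleGraph.inf_adj _ _ _ _).2 ⟨h3, h3'⟩
      rw [hinf] at h4
      exact h4
    · ext t
      rw [Finset.mem_union, Finset.mem_filter, Finset.mem_filter]
      constructor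
      · rintro (h1 | h1) <;> exact h1.1
      · intro ht
        have ht' := Finset.mem_range.1 ht
        have h1 : G.Adj (v ⟨t, by omega⟩) (v ⟨t + 1, by omega⟩) := (h.path _ _).2 (Or.inl rfl)
        rw [← hsup] at h1
        rcases (SimpleGraph.sup_adj _ _ _ _).1 h1 with h2 | h2
        · exact Or.inl ⟨ht, _, _, rfl, rfl, h2⟩
        · exact Or.inr ⟨ht, _, _, rfl, rfl, h2⟩
    · intro i
      constructor
      · rw [← adjN_sum h hH1 i]
        show _ ≤ deg G₁ (v i)
        rw [deg_eq_adjN, sum_split h.inj]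
        exact Nat.le_add_right _ _
      · rw [← adjN_sum h hH2 i]
        show _ ≤ deg G₂ (v i)
        rw [deg_eq_adjN, sum_split h.inj]
        exact Nat.le_add_right _ _
    · have h1 := sub_count h hH1
      have h2 := sub_count h hH2
      have h3 := map_sum hmap id
      simp only [id] at h3
      show ∑ i, deg G₁ (v i) + ((range (s - 1)).filter (PS v G₂)).card =
        ∑ i, deg G₂ (v i) + ((range (s - 1)).filter (PS v G₁)).card
      omega
  · rintro ⟨x, y, C, D, hxy, hbal, hdis, huni, hloc, hsum⟩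
    have hC : (range (s - 1)).filter (fun t => t ∈ C) = C := by
      ext t
      rw [Finset.mem_filter, ← huni, Finset.mem_union]
      tauto
    have hD : (range (s - 1)).filter (fun t => ¬ t ∈ C) = D := by
      ext t
      rw [Finset.mem_filter, ← huni, Finset.mem_union]
      have hd : t ∈ C → ¬ t ∈ D := fun h1 => Finset.disjoint_left.1 hdis h1
      tauto
    have hcd : C.card + D.card = s - 1 := by
      rw [← Finset.card_union_of_disjoint hdis, huni, Finset.card_range]
    have hb : ∀ k, 2 ≤ k → cx x univ k = cx y univ k := by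
      intro k hk
      have := hbal k hk
      rw [Finset.card_filter, Finset.card_filter] at this
      exact this
    refine construct_gen h x y hxy (fun t => t ∈ C) ?_ hb ?_
    · intro i
      rw [fil_card, fil_card s (fun t => ¬ t ∈ C), hC, hD]
      exact hloc i
    · have h1 := sum_diff hb
      rw [← Finset.card_filter, hC]
      omega

/-- `(δ, 2δ+1, δ+1)` in this order is splittable -/
theorem split_mid {G : SimpleGraph V} {v : Fin 3 → V} (h : IsSpine G v) (δ : ℕ) (hδ : 2 ≤ δ)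
    (h0 : deg G (v 0) = δ) (h1 : deg G (v 1) = 2 * δ + 1) (h2 : deg G (v 2) = δ + 1) :
    Splittable G := by
  refine construct_gen h ![0, δ, δ + 1] ![δ, δ + 1, 0] ?_ (fun i => i = 1) ?_ ?_ ?_
  · intro i
    fin_cases i
    · show 0 + δ = deg G (v 0); rw [h0]; omega
    · show δ + (δ + 1) = deg G (v 1); rw [h1]; omega
    · show (δ + 1) + 0 = deg G (v 2); rw [h2]
  · intro i
    rw [fil_card 3 (fun t => t = 1), fil_card 3 (fun t => ¬ t = 1)]
    have e1 : ∀ i : Fin 3, (((range (3 - 1)).filter (fun t => t = 1)).filter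
        (fun t => t = (i : ℕ) ∨ t + 1 = i)).card = if (i : ℕ) = 0 then 0 else 1 := by decide
    have e2 : ∀ i : Fin 3, (((range (3 - 1)).filter (fun t => ¬ t = 1)).filter
        (fun t => t = (i : ℕ) ∨ t + 1 = i)).card = if (i : ℕ) = 2 then 0 else 1 := by decide
    rw [e1 i, e2 i]
    fin_cases i
    · exact ⟨Nat.zero_le _, show 1 ≤ δ by omega⟩
    · exact ⟨show 1 ≤ δ by omega, show 1 ≤ δ + 1 by omega⟩
    · exact ⟨show 1 ≤ δ + 1 by omega, Nat.zero_le _⟩
  · intro k hk
    unfold cx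
    rw [Fin.sum_univ_three, Fin.sum_univ_three]
    show (if (0 : ℕ) = k then 1 else 0) + (if δ = k then 1 else 0) + (if δ + 1 = k then 1 else 0) =
      (if δ = k then 1 else 0) + (if δ + 1 = k then 1 else 0) + (if (0 : ℕ) = k then 1 else 0)
    split_ifs <;> omega
  · have e3 : ∑ i ∈ range (3 - 1), (if i = 1 then 1 else 0) = 1 := by decide
    rw [e3]
    unfold cx
    rw [Fin.sum_univ_three, Fin.sum_univ_three]
    show (if (0 : ℕ) = 1 then 1 else 0) + (if δ = 1 then 1 else 0) + (if δ + 1 = 1 then 1 else 0)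
      + (3 - 1) = (if δ = 1 then 1 else 0) + (if δ + 1 = 1 then 1 else 0) +
        (if (0 : ℕ) = 1 then 1 else 0) + 2 * 1
    split_ifs <;> omega

end Pool.Agent.W_e8e3a0
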