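import Pool.Agent.W_e8e3a0.Order49

namespace Pool.Agent.W_e8e3a0

open Finset Num49

variable {V : Type} [Fintype V]

theorem zero_diff {s : ℕ} {x y : Fin s → ℕ} (hbal : ∀ k, 2 ≤ k → cx x univ k = cx y univ k) :
    cx x univ 0 + cx x univ 1 = cx y univ 0 + cx y univ 1 := by
  have key : ∀ z : Fin s → ℕ, s = ∑ i, (if 2 ≤ z i then 1 else 0) + cx z univ 0 + cx z univ 1 := by
    intro z
    unfold cx
    rw [← Finset.sum_add_distrib, ← Finset.sum_add_distrib]
    have : s = ∑ _i : Fin s, 1 := by simp
    conv_lhs => rw [this]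
    refine Finset.sum_congr rfl (fun i _ => ?_)
    by_cases h : 2 ≤ z i
    · rw [if_pos h, if_neg (by omega), if_neg (by omega)]
    · rw [if_neg h]
      by_cases h1 : z i = 1
      · rw [if_neg (by omega), if_pos h1]
      · rw [if_pos (by omega), if_neg h1]
  obtain ⟨N, hN⟩ : ∃ N, ∀ i ∈ (univ : Finset (Fin s)), x i < N ∧ y i < N :=
    ⟨∑ i, (x i + y i) + 1, fun i hi => by
      have := Finset.single_le_sum (f := fun i => x i + y i) (fun _ _ => Nat.zero_le _) hi
      omega⟩
  have hx := sum_cx (fun k => if 2 ≤ k then 1 else 0) x univ N (fun i hi => (hN i hi).1)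
  have hy := sum_cx (fun k => if 2 ≤ k then 1 else 0) y univ N (fun i hi => (hN i hi).2)
  have hxy : ∑ k ∈ range N, (if 2 ≤ k then 1 else 0) * cx x univ k =
      ∑ k ∈ range N, (if 2 ≤ k then 1 else 0) * cx y univ k := by
    refine Finset.sum_congr rfl (fun k _ => ?_)
    by_cases h : 2 ≤ k
    · rw [hbal k h]
    · rw [if_neg h, zero_mul, zero_mul]
  have h1 := key x
  have h2 := key y
  omega

/-- the exact criterion on the spine, with the zeros counted -/
theorem formZ {G : SimpleGraph V} {s : ℕ} {v : Fin s → V} (h : IsSpine G v) :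
    Splittable G ↔ ∃ (x y : Fin s → ℕ) (C D : Finset ℕ),
      (∀ i, x i + y i = deg G (v i)) ∧
      (∀ k, 2 ≤ k → (univ.filter (fun i => x i = k)).card = (univ.filter (fun i => y i = k)).card) ∧
      Disjoint C D ∧ C ∪ D = range (s - 1) ∧
      (∀ i : Fin s, (C.filter (fun t => t = (i : ℕ) ∨ t + 1 = i)).card ≤ x i ∧
        (D.filter (fun t => t = (i : ℕ) ∨ t + 1 = i)).card ≤ y i) ∧
      C.card + (univ.filter (fun i => x i = 0)).card =
        D.card + (univ.filter (fun i => y i = 0)).card := by
  rw [form h]
  refine exists_congr (fun x => exists_congr (fun y => exists_congr (fun C => exists_congr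
    (fun D => and_congr_right (fun _ => and_congr_right (fun hbal => and_congr_right (fun _ =>
      and_congr_right (fun _ => and_congr_right (fun _ => ?_)))))))))
  have hb : ∀ k, 2 ≤ k → cx x univ k = cx y univ k := by
    intro k hk
    have := hbal k hk
    rw [Finset.card_filter, Finset.card_filter] at this
    exact this
  have e1 := sum_diff hb
  have e2 := zero_diff hb
  have c1 : cx x univ 0 = (univ.filter (fun i => x i = 0)).card := (Finset.card_filter _ _).symm
  have c2 : cx y univ 0 = (univ.filter (fun i => y i = 0)).card := (Finset.card_filter _ _).symm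
  rw [← c1, ← c2]
  omega

/-- spines with two vertices -/
theorem short_two {G : SimpleGraph V} {v : Fin 2 → V} (h : IsSpine G v) :
    Splittable G ↔ (deg G (v 0) = deg G (v 1) + 1 ∨ deg G (v 1) = deg G (v 0) + 1) := by
  rw [short_even h (Or.inl rfl)]
  constructor
  · rintro ⟨A, B, hAB, hsum, hc, _⟩
    have hcard : A.card + B.card ≤ 2 := by
      rw [← Finset.card_union_of_disjoint hAB]
      exact (Finset.card_le_univ _).trans (by rw [Fintype.card_fin])
    rcases cond_small h.two hAB hsum hc (by omega) with ⟨a, b, hab, rfl, rfl, he⟩ |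
      ⟨a, b, c, hab, hac, hbc, rfl, rfl, he⟩ |
      ⟨a, b, c, e, hab, hac, hae, hbc, hbe, hce, rfl, rfl, he⟩
    · fin_cases a <;> fin_cases b
      · exact absurd rfl hab
      · exact Or.inl he
      · exact Or.inr he
      · exact absurd rfl hab
    · rw [Finset.card_pair hab, Finset.card_singleton] at hcard
      omega
    · rw [Finset.card_pair hab, Finset.card_pair hce] at hcard
      omega
  · rintro (he | he)
    · refine ⟨{0}, {1}, by decide, by simpa using he, Or.inl rfl, ?_⟩
      intro i hi
      fin_cases i <;> simp at hi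
    · refine ⟨{1}, {0}, by decide, by simpa using he, Or.inl rfl, ?_⟩
      intro i hi
      fin_cases i <;> simp at hi

end Pool.Agent.W_e8e3a0
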