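import Pool.Agent.W_e8e3a0.Extra49

namespace Pool.Agent.W_e8e3a0

open Finset Num49

variable {V : Type} [Fintype V]

/-- even spine, general form -/
theorem suff_even_gen {G : SimpleGraph V} {s : ℕ} {v : Fin s → V} (h : IsSpine G v) (hs : Even s)
    (hev : Even G.edgeSet.ncard) (A B : Finset (Fin s)) (hAB : Disjoint A B)
    (hsum : ∑ i ∈ A, deg G (v i) = ∑ i ∈ B, deg G (v i) + 1)
    (hc : A.card = B.card ∨ A.card = B.card + 1)
    (hwin : ∀ i ∈ A ∪ B, ∀ j ∈ A ∪ B, deg G (v i) ≤ 2 * deg G (v j))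
    (hR : (∀ i, i ∈ A ∪ B) ∨ ∃ e, e ∉ A ∪ B ∧ Even (deg G (v e)) ∧
      ∀ a b c, a ∉ A ∪ B → b ∉ A ∪ B → c ∉ A ∪ B → (a = e ∨ Odd (deg G (v a))) →
        (b = e ∨ Odd (deg G (v b))) → (c = e ∨ Odd (deg G (v c))) →
        deg G (v a) ≠ deg G (v b) → deg G (v c) < deg G (v a) + deg G (v b)) :
    Splittable G := by
  classical
  have h1 := edges_eq h
  have h2 := sum_spine h
  set d : Fin s → ℕ := fun i => deg G (v i) with hd
  have a1 : A.sum d = B.sum d + 1 := hsum
  have hne : (A ∪ B).Nonempty := by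
    by_contra hno
    rw [Finset.not_nonempty_iff_eq_empty, Finset.union_eq_empty] at hno
    rw [hno.1, hno.2, Finset.sum_empty] at a1
    omega
  have hs0 : 0 < s := by
    obtain ⟨i, _⟩ := hne
    exact lt_of_le_of_lt (Nat.zero_le _) i.2
  obtain ⟨m, hmm, hm⟩ := Finset.exists_min_image (A ∪ B) d hne
  have hseg : Seg d (A ∪ B) 1 0 :=
    seg_main (d m) (h.two m) _ A B rfl hAB hc (fun i hi => ⟨hm i hi, hwin i hi m hmm⟩) hsum
  set R : Finset (Fin s) := univ \ (A ∪ B) with hRdef
  have hRs : ∑ i ∈ R, d i + ∑ i ∈ A ∪ B, d i = ∑ i, d i := Finset.sum_sdiff (Finset.subset_univ _)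
  rw [Finset.sum_union hAB] at hRs
  obtain ⟨t, ht⟩ := hs
  obtain ⟨r, hr⟩ := hev
  have hRev : (∑ i ∈ R, d i) % 2 = 0 := by
    have a2 : R.sum d + (A.sum d + B.sum d) = (univ : Finset (Fin s)).sum d := hRs
    have a3 : (univ : Finset (Fin s)).sum d = 2 * (s - 1) + (offSpine v).card := h2
    show (R.sum d) % 2 = 0
    omega
  have hmemR : ∀ i, i ∈ R ↔ i ∉ A ∪ B := fun i => by simp [hRdef]
  have hgood : Good d R := by
    rcases hR with hR | ⟨e, he, hee, hw⟩
    · have : R = ∅ := by
        rw [Finset.eq_empty_iff_forall_notMem]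
        intro i hi
        exact (hmemR i).1 hi (hR i)
      rw [this]
      exact good_empty d
    · exact good_main _ R rfl e ((hmemR e).2 he) hee (Nat.even_iff.2 hRev) (fun i _ => h.two i)
        (fun a ha b hb c hc => hw a b c ((hmemR a).1 ha) ((hmemR b).1 hb) ((hmemR c).1 hc))
  have hall := hseg.good hgood (by rw [hRdef]; exact Finset.disjoint_sdiff)
  have hu : (A ∪ B) ∪ R = univ := by rw [hRdef]; exact Finset.union_sdiff_of_subset (subset_univ _)
  rw [hu] at hall
  obtain ⟨x, y, hxy, hb⟩ := hall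
  have hx0 : cx x univ 0 = 0 := by
    unfold cx
    exact Finset.sum_eq_zero (fun i hi => if_neg (by have := (hxy i hi).2.1; omega))
  have hy0 : cx y univ 0 = 1 := by
    have := hb 0
    rw [hx0] at this
    simpa using this.symm
  obtain ⟨w, _, hw⟩ := exists_of_cx (x := y) (R := univ) (k := 0) (by omega)
  have hyp : ∀ i, i ≠ w → 1 ≤ y i := by
    intro i hi
    by_contra hno
    have hi0 : y i = 0 := by omega
    have h3 := cx_sub (x := y) (Finset.subset_univ ({i, w} : Finset (Fin s))) 0
    have h4 : cx y {i, w} 0 = 2 := by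
      unfold cx
      rw [Finset.sum_pair hi, hi0, hw]
      rfl
    omega
  refine construct h x y (fun i => (hxy i (mem_univ i)).1) w (Or.inl hw)
    (fun i hi => ⟨(hxy i (mem_univ i)).2.1, hyp i hi⟩) ?_ ?_
  · intro k hk
    have := hb k
    rw [if_neg (by omega), if_neg (by omega)] at this
    omega
  · have h3 := hb 1
    simp only [one_ne_zero, if_false, if_true, add_zero] at h3
    rw [col_count]
    have hwl := w.2
    split_ifs <;> omega

theorem cond_four {s : ℕ} {d : Fin s → ℕ} (hs : Even s) (hd : ∀ i, 2 ≤ d i ∧ d i ≤ 4)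
    (hsum : Odd (∑ i, d i)) : Cond d := by
  classical
  -- a vertex of degree 3
  have h3 : ∃ i, d i = 3 := by
    by_contra hno
    push Not at hno
    have : Even (∑ i, d i) := Finset.even_sum _ (fun i _ => by
      have h1 := hd i
      have h2 := hno i
      rcases (by omega : d i = 2 ∨ d i = 4) with h | h <;> rw [h] <;> decide)
    exact (Nat.not_even_iff_odd.2 hsum) this
  obtain ⟨i, hi⟩ := h3
  -- a vertex of even degree
  have h4 : ∃ j, d j ≠ 3 := by
    by_contra hno
    push Not at hno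
    have h5 : ∑ i, d i = 3 * s := by
      rw [Finset.sum_congr rfl (fun i _ => hno i)]
      simp [mul_comm]
    rw [h5] at hsum
    obtain ⟨t, ht⟩ := hs
    obtain ⟨r, hr⟩ := hsum
    omega
  obtain ⟨j, hj⟩ := h4
  have hij : i ≠ j := by rintro rfl; exact hj hi
  have hdj := hd j
  by_cases hk : ∃ k, k ≠ j ∧ d k ≠ 3
  · obtain ⟨k, hkj, hk3⟩ := hk
    have hki : k ≠ i := by rintro rfl; exact hk3 hi
    have hdk := hd k
    have hke : Even (d k) := by
      rcases (by omega : d k = 2 ∨ d k = 4) with h | h <;> rw [h] <;> decide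
    rcases (by omega : d j = 2 ∨ d j = 4) with h | h
    · exact ⟨{i}, {j}, by simpa using hij, by simp [hi, h], Or.inr ⟨by simp, Or.inr ⟨k, by
        simp [hki, hkj], hke⟩⟩⟩
    · exact ⟨{j}, {i}, by simpa using hij.symm, by simp [hi, h], Or.inr ⟨by simp, Or.inr ⟨k, by
        simp [hki, hkj], hke⟩⟩⟩
  · push Not at hk
    set T : Finset (Fin s) := univ \ {i, j} with hT
    have hTc : T.card + 2 = s := by
      have := Finset.card_sdiff_add_card_eq_card (Finset.subset_univ ({i, j} : Finset (Fin s)))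
      rw [Finset.card_univ, Fintype.card_fin, Finset.card_pair hij] at this
      exact this
    have hTd : ∀ k ∈ T, d k = 3 := by
      intro k hk'
      refine hk k ?_
      rintro rfl
      simp [hT] at hk'
    have hTn : ∀ k ∈ T, k ≠ i ∧ k ≠ j := by
      intro k hk'
      simp only [hT, Finset.mem_sdiff, Finset.mem_univ, true_and, Finset.mem_insert,
        Finset.mem_singleton, not_or] at hk'
      exact hk'
    obtain ⟨t, ht⟩ := hs
    obtain ⟨T₁, hT₁, hT₁c⟩ := Finset.exists_subset_card_eq (show t - 1 ≤ T.card by omega)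
    have hT₂c : (T \ T₁).card = t - 1 := by
      have := Finset.card_sdiff_add_card_eq_card hT₁
      omega
    have s1 : ∑ k ∈ T₁, d k = 3 * (t - 1) := by
      rw [Finset.sum_congr rfl (fun k hk' => hTd k (hT₁ hk'))]
      simp [hT₁c, mul_comm]
    have s2 : ∑ k ∈ T \ T₁, d k = 3 * (t - 1) := by
      rw [Finset.sum_congr rfl (fun k hk' => hTd k (Finset.mem_sdiff.1 hk').1)]
      simp [hT₂c, mul_comm]
    have n1 : i ∉ T₁ := fun h' => (hTn i (hT₁ h')).1 rfl
    have n2 : j ∉ T₁ := fun h' => (hTn j (hT₁ h')).2 rfl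
    have n3 : i ∉ T \ T₁ := fun h' => (hTn i (Finset.mem_sdiff.1 h').1).1 rfl
    have n4 : j ∉ T \ T₁ := fun h' => (hTn j (Finset.mem_sdiff.1 h').1).2 rfl
    have hcov : ∀ k, k = i ∨ k = j ∨ k ∈ T₁ ∨ k ∈ T \ T₁ := by
      intro k
      by_cases a : k = i
      · exact Or.inl a
      by_cases b : k = j
      · exact Or.inr (Or.inl b)
      by_cases c : k ∈ T₁
      · exact Or.inr (Or.inr (Or.inl c))
      · exact Or.inr (Or.inr (Or.inr (Finset.mem_sdiff.2 ⟨by simp [hT, a, b], c⟩)))
    have hdis : Disjoint T₁ (T \ T₁) := Finset.disjoint_sdiff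
    rcases (by omega : d j = 2 ∨ d j = 4) with h | h
    · refine ⟨insert i T₁, insert j (T \ T₁), ?_, ?_, Or.inr ⟨?_, Or.inl ?_⟩⟩
      · rw [Finset.disjoint_insert_left, Finset.disjoint_insert_right]
        refine ⟨?_, n2, hdis⟩
        rw [Finset.mem_insert, not_or]; exact ⟨hij, n3⟩
      · rw [Finset.sum_insert n1, Finset.sum_insert n4, s1, s2, hi, h]; omega
      · rw [Finset.card_insert_of_notMem n1, Finset.card_insert_of_notMem n4, hT₁c, hT₂c]
      · intro k
        rcases hcov k with h' | h' | h' | h'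
        · exact Finset.mem_union_left _ (Finset.mem_insert.2 (Or.inl h'))
        · exact Finset.mem_union_right _ (Finset.mem_insert.2 (Or.inl h'))
        · exact Finset.mem_union_left _ (Finset.mem_insert.2 (Or.inr h'))
        · exact Finset.mem_union_right _ (Finset.mem_insert.2 (Or.inr h'))
    · refine ⟨insert j T₁, insert i (T \ T₁), ?_, ?_, Or.inr ⟨?_, Or.inl ?_⟩⟩
      · rw [Finset.disjoint_insert_left, Finset.disjoint_insert_right]
        refine ⟨?_, n1, hdis⟩
        rw [Finset.mem_insert, not_or]; exact ⟨hij.symm, n4⟩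
      · rw [Finset.sum_insert n2, Finset.sum_insert n3, s1, s2, hi, h]; omega
      · rw [Finset.card_insert_of_notMem n2, Finset.card_insert_of_notMem n3, hT₁c, hT₂c]
      · intro k
        rcases hcov k with h' | h' | h' | h'
        · exact Finset.mem_union_right _ (Finset.mem_insert.2 (Or.inl h'))
        · exact Finset.mem_union_left _ (Finset.mem_insert.2 (Or.inl h'))
        · exact Finset.mem_union_left _ (Finset.mem_insert.2 (Or.inr h'))
        · exact Finset.mem_union_right _ (Finset.mem_insert.2 (Or.inr h'))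

/-- maximum degree at most 4 -/
theorem four {G : SimpleGraph V} {s : ℕ} {v : Fin s → V} (h : IsSpine G v) (hs : 0 < s)
    (h4 : ∀ i, deg G (v i) ≤ 4) : Splittable G ↔ Even G.edgeSet.ncard := by
  classical
  have hw := window h hs (fun i j => by have := h4 i; have := h.two j; omega)
  rw [hw]
  refine ⟨fun h' => h'.1, fun hev => ⟨hev, ?_⟩⟩
  rcases Nat.even_or_odd s with hse | hso
  · right
    have h1 := edges_eq h
    have h2 := sum_spine h
    refine cond_four hse (fun i => ⟨h.two i, h4 i⟩) ?_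
    obtain ⟨t, ht⟩ := hse
    obtain ⟨r, hr⟩ := hev
    rw [h2, Nat.odd_iff]
    omega
  · exact Or.inl hso

end Pool.Agent.W_e8e3a0
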