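import Pool.Agent.W_e8e3a0.AssmZ49

/-! The dual condition is sufficient when all spine degrees are frequent. -/

namespace Pool.Agent.W_e8e3a0

open Finset Num49

variable {V : Type} [Fintype V]

theorem all_two {G : SimpleGraph V} {s : ℕ} {v : Fin s → V} (h : IsSpine G v)
    (hev : Even G.edgeSet.ncard) (h2 : ∀ i, deg G (v i) = 2) : Splittable G := by
  classical
  have hb : ∀ k, 2 ≤ k → cx (fun _ : Fin s => 1) univ k = cx (fun _ : Fin s => 1) univ k :=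
    fun _ _ => rfl
  have hz : cx (fun _ : Fin s => 1) univ 0 = 0 := by
    unfold cx
    exact Finset.sum_eq_zero (fun _ _ => if_neg (show ¬ (1 : ℕ) = 0 by omega))
  have e3 := sum_diff hb
  have e4 := zero_diff hb
  have e1 := edges_eq h
  have e2 := sum_spine h
  have e5 : ∑ _i : Fin s, 1 + ∑ _i : Fin s, 1 = 2 * (s - 1) + (offSpine v).card := by
    rw [← Finset.sum_add_distrib, ← e2]
    exact Finset.sum_congr rfl (fun i _ => (h2 i).symm)
  obtain ⟨m, hm⟩ := hev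
  have e6 : ∑ _i : Fin s, 1 = s := by simp
  refine zone_split h (fun _ => 1) (fun _ => 1) (fun i => by rw [h2 i]) ∅ ∅ (fun i hi => by
    simp at hi) (fun i hi => by simp at hi) (fun i _ _ => ⟨fun _ => ⟨rfl, rfl⟩, fun hh =>
    absurd (h2 i) hh⟩) hb (fun i => i) (fun i => i) (fun i hi => by simp at hi) (fun i hi => by
    simp at hi) (fun i hi => by simp at hi) (fun i hi => by simp at hi) ?_
  rw [hz]
  have e7 : cx (fun _ : Fin s => 1) ∅ 0 = 0 := rfl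
  rw [e7]
  rw [e6] at e5
  push_cast
  omega

/-- the dual condition is sufficient when all spine degrees are frequent -/
theorem dual_full {G : SimpleGraph V} {s : ℕ} {v : Fin s → V} (h : IsSpine G v) (hs : 0 < s)
    (hev : Even G.edgeSet.ncard) (M : ℕ) (hM : ∀ i, deg G (v i) ≤ M)
    (hrich : ∀ i, 30 * (M + 1) ^ 2 ≤ {j | deg G (v j) = deg G (v i)}.ncard)
    (hdual : ∀ f : ℕ → ZMod 2, f 0 = 0 → f 1 = 0 →
      (∀ i, ∀ k, k ≤ deg G (v i) → f k + f (deg G (v i) - k) = f (deg G (v i))) →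
      ∑ i, f (deg G (v i)) = 0) : Splittable G := by
  classical
  have h2d : ∀ i, 2 ≤ deg G (v i) := h.two
  have hM3 : 3 ≤ M + 1 := by
    have h1 := h2d ⟨0, hs⟩
    have h2 := hM ⟨0, hs⟩
    omega
  have hsq : ∀ K : ℕ, K ≤ M + 1 → K * (M + 1) ≤ (M + 1) ^ 2 := by
    intro K hK
    rw [pow_two]
    exact Nat.mul_le_mul_right _ hK
  have hsq3 := hsq 3 hM3
  have hrich5 : ∀ i, 60 * (M + 1) ≤ {j | deg G (v j) = deg G (v i)}.ncard := fun i =>
    le_trans (by omega) (hrich i)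
  have hrich3 : ∀ i, 30 * (M + 1) ≤ {j | deg G (v j) = deg G (v i)}.ncard := fun i =>
    le_trans (by omega) (hrich i)
  by_cases hthree : ∃ i, deg G (v i) = 3
  · exact dual_suff5 h hs hev M hM hrich5 (Or.inr (Or.inl hthree)) hdual
  have hno3 : ∀ i, deg G (v i) ≠ 3 := fun i hi => hthree ⟨i, hi⟩
  by_cases hodd : 20 * (M + 1) ≤ {p : Fin s × Fin s | p.1 < p.2 ∧ Odd ((p.2 : ℕ) - p.1) ∧
      3 ≤ deg G (v p.1) ∧ 3 ≤ deg G (v p.2) ∧
      ∀ k, p.1 < k → k < p.2 → deg G (v k) = 2}.ncard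
  · exact dual_suff4 h hs hev M hM hrich3 hodd hdual
  by_cases hall : ∀ i, deg G (v i) = 2
  · exact all_two h hev hall
  obtain ⟨i4, hi4⟩ : ∃ i, 4 ≤ deg G (v i) := by
    push Not at hall
    obtain ⟨i, hi⟩ := hall
    have a1 := h2d i
    have a2 := hno3 i
    exact ⟨i, by omega⟩
  have hM5 : 5 ≤ M + 1 := by
    have h2 := hM i4
    omega
  have hsq5 := hsq 5 hM5
  set d : Fin s → ℕ := fun i => deg G (v i) with hd
  have hOG : (univ.filter (fun p : Fin s × Fin s => IsGap d p ∧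
      ¬ ((p.2 : ℕ) - p.1) % 2 = 0)).card < 20 * (M + 1) := by
    refine lt_of_le_of_lt ?_ (not_le.1 hodd)
    rw [Set.ncard_eq_toFinset_card']
    refine Finset.card_le_card (fun p hp => ?_)
    obtain ⟨_, ⟨p1, p2, p3, p4⟩, p5⟩ := Finset.mem_filter.1 hp
    rw [Set.mem_toFinset]
    exact ⟨p1, Nat.odd_iff.2 (by omega), p2, p3, p4⟩
  have hcnt : ∀ (i : Fin s), 30 * (M + 1) ^ 2 ≤ (univ.filter (fun j => d j = d i)).card := by
    intro i
    have h1 := hrich i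
    rw [Set.ncard_eq_toFinset_card'] at h1
    refine h1.trans (Finset.card_le_card (fun j hj => ?_))
    rw [Set.mem_toFinset] at hj
    exact Finset.mem_filter.2 ⟨Finset.mem_univ _, hj⟩
  set CZ := univ.filter (fun z => ∃ ab, CandZ d z ab) with hCZ
  set CR : ℕ → Finset (Fin s) := fun e => univ.filter (fun i => d i = e ∧ ∃ ab, Cand d ∅ i ab)
    with hCR
  have hCZc : 18 * (M + 1) ^ 2 ≤ CZ.card := by
    have h1 := candZ_count d h2d
    have h3 : (univ.filter (fun j => d j = d i4)).card ≤ (univ.filter (fun j => 3 ≤ d j)).card := by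
      refine Finset.card_le_card (fun j hj => ?_)
      have h4 := (Finset.mem_filter.1 hj).2
      have h5 : 4 ≤ d i4 := hi4
      exact Finset.mem_filter.2 ⟨Finset.mem_univ _, by omega⟩
    have h4 := hcnt i4
    rw [← hCZ] at h1
    omega
  have hCRc : ∀ e, 4 ≤ e → (∃ i, d i = e) → 18 * (M + 1) ^ 2 ≤ (CR e).card := by
    intro e he hex
    obtain ⟨i, hi⟩ := hex
    have h1 := cand_count d h2d ∅ e (by omega)
    have h4 := hcnt i
    rw [hi] at h4
    rw [Finset.card_empty] at h1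
    have h5 : (CR e).card = (univ.filter (fun i => d i = e ∧ ∃ ab, Cand d ∅ i ab)).card := rfl
    omega
  -- the arcs
  set S : Finset ℕ := univ.image d with hS
  have hSm : ∀ e, e ∈ S ↔ ∃ i, d i = e := by
    intro e
    rw [hS, Finset.mem_image]
    exact ⟨fun ⟨i, _, hi⟩ => ⟨i, hi⟩, fun ⟨i, hi⟩ => ⟨i, Finset.mem_univ _, hi⟩⟩
  have hSM : ∀ e ∈ S, e ≤ M := by
    intro e he
    obtain ⟨i, rfl⟩ := (hSm e).1 he
    exact hM i
  obtain ⟨A, hAc, hA1, hA2', hA3, hA21, hA22⟩ := arcs_two S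
    (fun e => ∑ i, (if d i = e then (1 : ZMod 2) else 0)) M hSM (by
      intro f h0 h1 hf
      have h2 := hdual f h0 h1 (fun i k hk => hf (d i) ((hSm _).2 ⟨i, rfl⟩) k hk)
      have h3 : ∑ e ∈ S, (∑ i, (if d i = e then (1 : ZMod 2) else 0)) * f e = ∑ i, f (d i) := by
        simp only [Finset.sum_mul]
        rw [Finset.sum_comm]
        refine Finset.sum_congr rfl (fun i _ => ?_)
        rw [Finset.sum_eq_single (d i)]
        · simp
        · intro b _ hb; simp [Ne.symm hb]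
        · intro hn; exact absurd ((hSm _).2 ⟨i, rfl⟩) hn
      rw [h3]
      exact h2)
  have hA2 : ∀ e, e ≠ 2 → ∑ a ∈ A, (if a.1 = e then (1 : ZMod 2) else 0) =
      ∑ i, (if d i = e then (1 : ZMod 2) else 0) := by
    intro e he2
    by_cases he : e ∈ S
    · exact hA2' e he he2
    · rw [Finset.sum_eq_zero, Finset.sum_eq_zero]
      · intro i _
        exact if_neg (fun hh => he ((hSm _).2 ⟨i, hh⟩))
      · intro a ha
        exact if_neg (fun hh : a.1 = e => he (by rw [← hh]; exact (hA1 a ha).1))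
  -- the gadget or the invariant
  set S4 := S.filter (fun e => 4 ≤ e) with hS4
  obtain ⟨J, n, k2, c, p, q, hJle, hnM, hk2, hG, hJ⟩ : ∃ (J n k2 : ℕ) (c p q : ℕ → ℕ),
      J ≤ 2 * (M + 1) + 2 ∧ n ≤ M ∧ k2 ≤ 2 ∧ (J ≠ 0 → IsGadget S4 n c p q k2) ∧
      (2 * (M + 1) + 2 ≤ J ∨ (J = 0 ∧ ∃ φ : ℕ → ℤ, φ 0 = 1 ∧ φ 1 = 0 ∧ φ 2 = -1 ∧
        ∀ i, 4 ≤ deg G (v i) → ∀ k, k ≤ deg G (v i) → φ (deg G (v i) - k) = φ k)) := by
    rcases gadget_or_inv S4 M (fun e he => hSM e (Finset.mem_filter.1 he).1) with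
      ⟨n, c, p, q, k2, h1, h2, h3⟩ | ⟨φ, f0, f1, f2, f3⟩
    · exact ⟨2 * (M + 1) + 2, n, k2, c, p, q, le_rfl, h1, h2, fun _ => h3, Or.inl le_rfl⟩
    · refine ⟨0, 0, 0, fun _ => 0, fun _ => 0, fun _ => 0, Nat.zero_le _, Nat.zero_le _,
        Nat.zero_le _, fun hh => absurd rfl hh, Or.inr ⟨rfl, φ, f0, f1, f2, fun i hi k hk => ?_⟩⟩
      exact f3 _ (Finset.mem_filter.2 ⟨(hSm _).2 ⟨i, rfl⟩, hi⟩) k hk
  set T : (ℕ × ℕ) ⊕ (ℕ × ℕ × ℕ) → Finset (Fin s) := fun u => Sum.elim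
    (fun a => if a.1 = 2 then CZ else CR a.1) (fun g => if g.1 = 2 then CZ else CR (c g.2.2)) u
    with hT
  set I : Finset ((ℕ × ℕ) ⊕ (ℕ × ℕ × ℕ)) := A.image Sum.inl ∪ (GI J n k2).image Sum.inr with hI
  have hIc : I.card ≤ 6 * (M + 1) ^ 2 := by
    have h1 : I.card ≤ (A.image Sum.inl).card + ((GI J n k2).image Sum.inr).card :=
      Finset.card_union_le (A.image (Sum.inl : _ → (ℕ × ℕ) ⊕ (ℕ × ℕ × ℕ))) _
    have h3 : (A.image (Sum.inl : _ → (ℕ × ℕ) ⊕ (ℕ × ℕ × ℕ))).card ≤ A.card := Finset.card_image_le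
    have h4 : ((GI J n k2).image (Sum.inr : _ → (ℕ × ℕ) ⊕ (ℕ × ℕ × ℕ))).card ≤ (GI J n k2).card :=
      Finset.card_image_le
    have h5 := card_GI J n k2
    have h6 : J * (2 * n + k2) ≤ (2 * (M + 1) + 2) * (2 * (M + 1)) :=
      Nat.mul_le_mul hJle (by omega)
    have h7 : (2 * (M + 1) + 2) * (2 * (M + 1)) = 4 * (M + 1) ^ 2 + 4 * (M + 1) := by ring
    omega
  have hvalA : ∀ a ∈ A, a.1 ≠ 2 → 4 ≤ a.1 ∧ ∃ i, d i = a.1 := by
    intro a ha ha2
    obtain ⟨i, hi⟩ := (hSm _).1 (hA1 a ha).1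
    refine ⟨?_, i, hi⟩
    have a1 : 2 ≤ d i := h2d i
    have a2 : d i ≠ 3 := hno3 i
    omega
  have hvalG : ∀ g ∈ GI J n k2, g.1 ≠ 2 → 4 ≤ c g.2.2 ∧ ∃ i, d i = c g.2.2 := by
    intro g hg hg2
    have hJ0 : J ≠ 0 := by have := (mem_GI hg).1; omega
    have h7 := ((hG hJ0).1 g.2.2 ((mem_GI hg).2.1 hg2).2).1
    obtain ⟨h8, h9⟩ := Finset.mem_filter.1 h7
    exact ⟨h9, (hSm _).1 h8⟩
  have hTI : ∀ u ∈ I, (T u = CZ) ∨ (∃ e, 4 ≤ e ∧ (∃ i, d i = e) ∧ T u = CR e) := by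
    intro u hu
    rcases Finset.mem_union.1 hu with h1 | h1
    · obtain ⟨a, ha, rfl⟩ := Finset.mem_image.1 h1
      by_cases ha2 : a.1 = 2
      · exact Or.inl (if_pos ha2)
      · obtain ⟨h2, h3⟩ := hvalA a ha ha2
        exact Or.inr ⟨a.1, h2, h3, if_neg ha2⟩
    · obtain ⟨g, hg, rfl⟩ := Finset.mem_image.1 h1
      by_cases hg2 : g.1 = 2
      · exact Or.inl (if_pos hg2)
      · obtain ⟨h2, h3⟩ := hvalG g hg hg2
        exact Or.inr ⟨c g.2.2, h2, h3, if_neg hg2⟩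
  obtain ⟨f, hf1, hf2⟩ := place_index d ⟨0, hs⟩ (6 * (M + 1) ^ 2) T I hIc (fun u hu => by
      rcases hTI u hu with h1 | ⟨e, h1, h2, h3⟩
      · rw [h1]; omega
      · rw [h3]
        have := hCRc e h1 h2
        omega) (fun u hu c' => by
      rcases hTI u hu with h1 | ⟨e, h1, h2, h3⟩
      · rw [h1]; exact candZ_near d c'
      · rw [h3]; exact cand_near d e (by omega) c')
  have mI : ∀ a ∈ A, Sum.inl a ∈ I := fun a ha =>
    Finset.mem_union_left _ (Finset.mem_image_of_mem _ ha)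
  have mG : ∀ g ∈ GI J n k2, Sum.inr g ∈ I := fun g hg =>
    Finset.mem_union_right _ (Finset.mem_image_of_mem _ hg)
  refine assemble h hev hno3 A (2 * (M + 1)) hAc (fun a ha => (hA1 a ha).2) hA2 hA3 hA22 S4
    (fun e he => (Finset.mem_filter.1 he).2) J n k2 c p q hG hJ f (fun a ha => ⟨fun h1 => ?_,
    fun h1 => ?_⟩) (fun g hg => ⟨fun h1 => ?_, fun h1 => ?_⟩) hf2
  · have h3 := hf1 _ (mI a ha)
    have h4 : T (Sum.inl a) = CZ := if_pos h1
    rw [h4] at h3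
    exact (Finset.mem_filter.1 h3).2
  · have h3 := hf1 _ (mI a ha)
    have h4 : T (Sum.inl a) = CR a.1 := if_neg h1
    rw [h4] at h3
    exact (Finset.mem_filter.1 h3).2
  · have h3 := hf1 _ (mG g hg)
    have h4 : T (Sum.inr g) = CZ := if_pos h1
    rw [h4] at h3
    exact (Finset.mem_filter.1 h3).2
  · have h3 := hf1 _ (mG g hg)
    have h4 : T (Sum.inr g) = CR (c g.2.2) := if_neg h1
    rw [h4] at h3
    exact (Finset.mem_filter.1 h3).2

/-- exact answer for frequent spine degrees -/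
theorem dual_full_iff {G : SimpleGraph V} {s : ℕ} {v : Fin s → V} (h : IsSpine G v) (hs : 0 < s)
    (M : ℕ) (hM : ∀ i, deg G (v i) ≤ M)
    (hrich : ∀ i, 30 * (M + 1) ^ 2 ≤ {j | deg G (v j) = deg G (v i)}.ncard) :
    Splittable G ↔ Even G.edgeSet.ncard ∧ ∀ f : ℕ → ZMod 2, f 0 = 0 → f 1 = 0 →
      (∀ i, ∀ k, k ≤ deg G (v i) → f k + f (deg G (v i) - k) = f (deg G (v i))) →
      ∑ i, f (deg G (v i)) = 0 :=
  ⟨fun hG => ⟨(necessary hs h hG).1, dual_nec h hG⟩,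
    fun hc => dual_full h hs hc.1 M hM hrich hc.2⟩

/-- two consecutive frequent spine degrees, each larger one at most twice a smaller one -/
theorem consec_full {G : SimpleGraph V} {s : ℕ} {v : Fin s → V} (h : IsSpine G v) (hs : 0 < s)
    (M : ℕ) (hM : ∀ i, deg G (v i) ≤ M)
    (hrich : ∀ i, 30 * (M + 1) ^ 2 ≤ {j | deg G (v j) = deg G (v i)}.ncard)
    (a : ℕ) (ha : ∃ i, deg G (v i) = a) (ha1 : ∃ i, deg G (v i) = a + 1)
    (hstep : ∀ i, a + 1 < deg G (v i) → ∃ j, a < deg G (v j) ∧ deg G (v j) < deg G (v i) ∧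
      deg G (v i) ≤ 2 * deg G (v j)) :
    Splittable G ↔ Even G.edgeSet.ncard := by
  rw [dual_full_iff h hs M hM hrich]
  exact ⟨fun hh => hh.1, fun hh => ⟨hh, fun f h0 h1 hf => Finset.sum_eq_zero (fun i _ =>
    adm_zero (fun i => deg G (v i)) f h0 h1 hf a ha ha1 hstep i)⟩⟩

end Pool.Agent.W_e8e3a0
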