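import Pool.Agent.W_e8e3a0.ConsD49

/-! Walks between labels, and the alternative: a gadget which moves the zeros, or an invariant. -/

namespace Pool.Agent.W_e8e3a0

open Finset

/-- `x 0, ..., x n` is a walk: neighbouring labels have a sum in `S` -/
def WalkOn (S : Finset ℕ) (n : ℕ) (x : ℕ → ℕ) : Prop := ∀ t, t < n → x t + x (t + 1) ∈ S

def Reach (S : Finset ℕ) (a b : ℕ) : Prop := ∃ n x, WalkOn S n x ∧ x 0 = a ∧ x n = b

theorem reach_refl (S : Finset ℕ) (a : ℕ) : Reach S a a :=
  ⟨0, fun _ => a, fun t ht => absurd ht (Nat.not_lt_zero _), rfl, rfl⟩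

theorem reach_symm {S : Finset ℕ} {a b : ℕ} (h : Reach S a b) : Reach S b a := by
  obtain ⟨n, x, h1, h2, h3⟩ := h
  refine ⟨n, fun t => x (n - t), fun t ht => ?_, by simp [h3], by simp [h2]⟩
  have h4 := h1 (n - (t + 1)) (by omega)
  have e1 : n - (t + 1) + 1 = n - t := by omega
  rw [e1] at h4
  show x (n - t) + x (n - (t + 1)) ∈ S
  rw [add_comm]; exact h4

theorem reach_trans {S : Finset ℕ} {a b c : ℕ} (h : Reach S a b) (h' : Reach S b c) :
    Reach S a c := by
  obtain ⟨n, x, h1, h2, h3⟩ := h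
  obtain ⟨m, y, k1, k2, k3⟩ := h'
  refine ⟨n + m, fun t => if t ≤ n then x t else y (t - n), fun t ht => ?_, ?_, ?_⟩
  · rcases Nat.lt_trichotomy t n with h4 | h4 | h4
    · show (if t ≤ n then x t else y (t - n)) + (if t + 1 ≤ n then x (t + 1) else y (t + 1 - n)) ∈ S
      rw [if_pos (by omega), if_pos (by omega)]; exact h1 t h4
    · show (if t ≤ n then x t else y (t - n)) + (if t + 1 ≤ n then x (t + 1) else y (t + 1 - n)) ∈ S
      rw [if_pos (by omega), if_neg (by omega), h4, h3, ← k2, show n + 1 - n = 0 + 1 by omega]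
      exact k1 0 (by omega)
    · show (if t ≤ n then x t else y (t - n)) + (if t + 1 ≤ n then x (t + 1) else y (t + 1 - n)) ∈ S
      rw [if_neg (by omega), if_neg (by omega), show t + 1 - n = (t - n) + 1 by omega]
      exact k1 (t - n) (by omega)
  · show (if 0 ≤ n then x 0 else y (0 - n)) = a
    rw [if_pos (Nat.zero_le _), h2]
  · show (if n + m ≤ n then x (n + m) else y (n + m - n)) = c
    by_cases h4 : n + m ≤ n
    · have : m = 0 := by omega
      subst this
      rw [if_pos h4, Nat.add_zero, h3, ← k2, k3]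
    · rw [if_neg h4, Nat.add_sub_cancel_left, k3]

theorem reach_arc {S : Finset ℕ} {c k : ℕ} (hc : c ∈ S) (hk : k ≤ c) (a : ℕ) :
    Reach S a k → Reach S a (c - k) := by
  intro h
  refine reach_trans h ⟨1, fun t => if t = 0 then k else c - k, fun t ht => ?_, rfl, rfl⟩
  have : t = 0 := by omega
  subst this
  show (if 0 = 0 then k else c - k) + (if 0 + 1 = 0 then k else c - k) ∈ S
  rw [if_pos rfl, if_neg (by omega), Nat.add_sub_cancel' hk]; exact hc

/-- a shortest walk has no repetition -/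
theorem short_walk {S : Finset ℕ} {a b : ℕ} (h : Reach S a b) (M : ℕ) (hM : ∀ c ∈ S, c ≤ M) :
    ∃ n x, n ≤ M ∧ WalkOn S n x ∧ x 0 = a ∧ x n = b ∧
      ∀ i j, i < j → j ≤ n → x i ≠ x j := by
  classical
  have hex : ∃ n, ∃ x, WalkOn S n x ∧ x 0 = a ∧ x n = b := h
  obtain ⟨x, h1, h2, h3⟩ := Nat.find_spec hex
  set n := Nat.find hex with hn
  have hinj : ∀ i j, i < j → j ≤ n → x i ≠ x j := by
    intro i j hij hj hxx
    have hlt : n - (j - i) < n := by omega
    refine Nat.find_min hex hlt ⟨fun t => if t ≤ i then x t else x (t + (j - i)), fun t ht => ?_,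
      ?_, ?_⟩
    · show (if t ≤ i then x t else x (t + (j - i))) +
        (if t + 1 ≤ i then x (t + 1) else x (t + 1 + (j - i))) ∈ S
      rcases Nat.lt_trichotomy t i with h4 | h4 | h4
      · rw [if_pos (by omega), if_pos (by omega)]; exact h1 t (by omega)
      · rw [if_pos (by omega), if_neg (by omega), h4, hxx, show i + 1 + (j - i) = j + 1 by omega]
        exact h1 j (by omega)
      · rw [if_neg (by omega), if_neg (by omega), show t + 1 + (j - i) = t + (j - i) + 1 by omega]
        exact h1 _ (by omega)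
    · show (if 0 ≤ i then x 0 else x (0 + (j - i))) = a
      rw [if_pos (Nat.zero_le _), h2]
    · show (if n - (j - i) ≤ i then x (n - (j - i)) else x (n - (j - i) + (j - i))) = b
      by_cases h5 : n - (j - i) ≤ i
      · have h6 : n - (j - i) = i := by omega
        have h7 : j = n := by omega
        rw [if_pos h5, h6, hxx, h7, h3]
      · rw [if_neg h5, show n - (j - i) + (j - i) = n by omega, h3]
  refine ⟨n, x, ?_, h1, h2, h3, hinj⟩
  rcases Nat.eq_zero_or_pos n with h0 | h0
  · omega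
  · have hle : ∀ t, t ≤ n → x t ≤ M := by
      intro t ht
      rcases Nat.lt_or_ge t n with h4 | h4
      · have := hM _ (h1 t h4)
        omega
      · have h5 := hM _ (h1 (t - 1) (by omega))
        rw [show t - 1 + 1 = t by omega] at h5
        omega
    have hc : (range (n + 1)).card ≤ (range (M + 1)).card := by
      refine Finset.card_le_card_of_injOn x (fun t ht => ?_) (fun i hi j hj hij => ?_)
      · rw [Finset.mem_coe, Finset.mem_range] at ht ⊢
        have := hle t (by omega)
        omega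
      · rw [Finset.mem_coe, Finset.mem_range] at hi hj
        by_contra hne
        rcases Nat.lt_or_gt_of_ne hne with h6 | h6
        · exact hinj i j h6 (by omega) hij
        · exact hinj j i h6 (by omega) hij.symm
    rw [Finset.card_range, Finset.card_range] at hc
    omega

theorem tele (z : ℕ → ℕ) (n k : ℕ) : ∑ t ∈ range n, (if z t = k then 1 else 0) +
    (if z n = k then 1 else 0) = (if z 0 = k then 1 else 0) +
    ∑ t ∈ range n, (if z (t + 1) = k then 1 else 0) := by
  induction n with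
  | zero => simp
  | succ n ih =>
    rw [Finset.sum_range_succ, Finset.sum_range_succ, ih]
    ring

/-- a gadget: two arcs `(p t, c t - p t)`, `(q t, c t - q t)` for each `t < n` and `k2` arcs
`(2, 0)` which together move the zeros by two -/
def IsGadget (S : Finset ℕ) (n : ℕ) (c p q : ℕ → ℕ) (k2 : ℕ) : Prop :=
  (∀ t, t < n → c t ∈ S ∧ p t ≤ c t ∧ q t ≤ c t) ∧
  (∀ k, 2 ≤ k → ∑ t ∈ range n, (if p t = k then 1 else 0) +
    ∑ t ∈ range n, (if q t = k then 1 else 0) + (if 2 = k then k2 else 0) =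
    ∑ t ∈ range n, (if c t - p t = k then 1 else 0) +
    ∑ t ∈ range n, (if c t - q t = k then 1 else 0)) ∧
  (∑ t ∈ range n, (if p t = 0 then 1 else 0) + ∑ t ∈ range n, (if q t = 0 then 1 else 0) + k2 =
    2 + ∑ t ∈ range n, (if c t - p t = 0 then 1 else 0) +
    ∑ t ∈ range n, (if c t - q t = 0 then 1 else 0))

/-- sums along a walk -/
theorem walk_sum (z : ℕ → ℕ) (n k : ℕ) : ∑ t ∈ range n, (if z t = k then 1 else 0) +
    (if z n = k then 1 else 0) = (if z 0 = k then 1 else 0) +
    ∑ t ∈ range n, (if z t + z (t + 1) - z t = k then 1 else 0) := by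
  rw [tele]
  congr 1
  refine Finset.sum_congr rfl (fun t _ => ?_)
  rw [Nat.add_sub_cancel_left]

/-- a gadget from a walk used twice -/
theorem gadget_double {S : Finset ℕ} {n : ℕ} {x : ℕ → ℕ} (h : WalkOn S n x)
    (h01 : (x 0 = 0 ∧ x n = 1) ∨ (x 0 = 1 ∧ x n = 2)) :
    ∃ c p q k2, k2 ≤ 2 ∧ IsGadget S n c p q k2 := by
  refine ⟨fun t => x t + x (t + 1), x, x, if x 0 = 0 then 0 else 2, by split_ifs <;> omega,
    fun t ht => ⟨h t ht, Nat.le_add_right _ _, Nat.le_add_right _ _⟩, fun k hk => ?_, ?_⟩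
  · have h1 := walk_sum x n k
    rcases h01 with ⟨h2, h3⟩ | ⟨h2, h3⟩
    · rw [h2, h3, if_neg (by omega), if_neg (by omega)] at h1
      rw [h2, if_pos rfl]
      show _ + _ + _ = ∑ t ∈ range n, (if x t + x (t + 1) - x t = k then 1 else 0) +
        ∑ t ∈ range n, (if x t + x (t + 1) - x t = k then 1 else 0)
      split_ifs <;> omega
    · rw [h2, h3, if_neg (by omega : ¬ 1 = k)] at h1
      rw [h2, if_neg (by omega : ¬ 1 = 0)]
      show _ + _ + _ = ∑ t ∈ range n, (if x t + x (t + 1) - x t = k then 1 else 0) +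
        ∑ t ∈ range n, (if x t + x (t + 1) - x t = k then 1 else 0)
      split_ifs at h1 ⊢ <;> omega
  · have h1 := walk_sum x n 0
    show _ + _ + _ = 2 + ∑ t ∈ range n, (if x t + x (t + 1) - x t = 0 then 1 else 0) +
      ∑ t ∈ range n, (if x t + x (t + 1) - x t = 0 then 1 else 0)
    rcases h01 with ⟨h2, h3⟩ | ⟨h2, h3⟩
    · rw [h2, h3, if_pos rfl, if_neg (by omega)] at h1
      rw [h2, if_pos rfl]
      omega
    · rw [h2, h3, if_neg (by omega), if_neg (by omega)] at h1
      rw [h2, if_neg (by omega)]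
      omega

/-- a gadget from a walk from `0` to `2` and closed walks using the same sums -/
theorem gadget_single {S : Finset ℕ} {n : ℕ} {x : ℕ → ℕ} (h : WalkOn S n x)
    (h0 : x 0 = 0) (hn : x n = 2) (q : ℕ → ℕ) (hq : ∀ t, t < n → q t ≤ x t + x (t + 1))
    (hz : ∀ k, ∑ t ∈ range n, (if q t = k then 1 else 0) =
      ∑ t ∈ range n, (if x t + x (t + 1) - q t = k then 1 else 0)) :
    ∃ c p q k2, k2 ≤ 2 ∧ IsGadget S n c p q k2 := by
  refine ⟨fun t => x t + x (t + 1), x, q, 1, by omega,
    fun t ht => ⟨h t ht, Nat.le_add_right _ _, hq t ht⟩, fun k hk => ?_, ?_⟩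
  · have h1 := walk_sum x n k
    have h2 := hz k
    rw [h0, hn, if_neg (by omega : ¬ 0 = k)] at h1
    show _ + _ + _ = ∑ t ∈ range n, (if x t + x (t + 1) - x t = k then 1 else 0) +
      ∑ t ∈ range n, (if x t + x (t + 1) - q t = k then 1 else 0)
    omega
  · have h1 := walk_sum x n 0
    have h2 := hz 0
    rw [h0, hn, if_pos rfl, if_neg (by omega)] at h1
    show _ + _ + _ = 2 + ∑ t ∈ range n, (if x t + x (t + 1) - x t = 0 then 1 else 0) +
      ∑ t ∈ range n, (if x t + x (t + 1) - q t = 0 then 1 else 0)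
    omega

/-- a shifted walk -/
def shift (x : ℕ → ℕ) (z : ℕ) (t : ℕ) : ℕ := if t % 2 = 0 then x t + z else x t - z

theorem shift_add (x : ℕ → ℕ) (z t : ℕ) (h : t % 2 = 1 → z ≤ x t)
    (h' : (t + 1) % 2 = 1 → z ≤ x (t + 1)) :
    shift x z t + shift x z (t + 1) = x t + x (t + 1) := by
  unfold shift
  split_ifs <;> omega

/-- the odd case -/
theorem gadget_odd {S : Finset ℕ} {n : ℕ} {x : ℕ → ℕ} (h : WalkOn S n x)
    (h0 : x 0 = 0) (hn : x n = 2) (hpos : ∀ t, 1 ≤ t → t ≤ n → 1 ≤ x t) (hodd : n % 2 = 1) :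
    ∃ c p q k2, k2 ≤ 2 ∧ IsGadget S n c p q k2 := by
  have hs : ∀ t, t < n → shift x 1 t + shift x 1 (t + 1) = x t + x (t + 1) := fun t ht =>
    shift_add x 1 t (fun h1 => hpos t (by omega) (by omega)) (fun h1 => hpos (t + 1) (by omega) ht)
  refine gadget_single h h0 hn (shift x 1) (fun t ht => by have := hs t ht; omega) (fun k => ?_)
  have h1 := walk_sum (shift x 1) n k
  have e0 : shift x 1 0 = 1 := by unfold shift; rw [if_pos rfl, h0]
  have en : shift x 1 n = 1 := by unfold shift; rw [if_neg (by omega), hn]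
  rw [e0, en] at h1
  have e3 : ∑ t ∈ range n, (if x t + x (t + 1) - shift x 1 t = k then 1 else 0) =
      ∑ t ∈ range n, (if shift x 1 t + shift x 1 (t + 1) - shift x 1 t = k then 1 else 0) :=
    Finset.sum_congr rfl (fun t ht => by rw [hs t (Finset.mem_range.1 ht)])
  rw [e3]
  omega

end Pool.Agent.W_e8e3a0
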