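import Pool.Agent.W_e8e3a0.GadgA49

/-! The alternative: a gadget or an invariant. -/

namespace Pool.Agent.W_e8e3a0

open Finset

/-- the even case -/
theorem gadget_even {S : Finset ℕ} {n : ℕ} {x : ℕ → ℕ} (h : WalkOn S n x)
    (h0 : x 0 = 0) (hn : x n = 2) (hpos : ∀ t, 1 ≤ t → t ≤ n → 1 ≤ x t) (hev : n % 2 = 0)
    (hno : ¬ Reach S 0 1) : ∃ c p q k2, k2 ≤ 2 ∧ IsGadget S n c p q k2 := by
  classical
  have hn2 : 2 ≤ n := by
    by_contra hlt
    have : n = 0 := by omega
    rw [this, h0] at hn
    omega
  obtain ⟨J, hJ, hmin⟩ := Finset.exists_min_image ((range n).filter (fun t => t % 2 = 1)) x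
    ⟨1, Finset.mem_filter.2 ⟨Finset.mem_range.2 (by omega), rfl⟩⟩
  obtain ⟨hJn, hJ1⟩ := Finset.mem_filter.1 hJ
  rw [Finset.mem_range] at hJn
  have hmin' : ∀ t, t < n → t % 2 = 1 → x J ≤ x t := fun t h1 h2 =>
    hmin t (Finset.mem_filter.2 ⟨Finset.mem_range.2 h1, h2⟩)
  have hm1 : 1 ≤ x J := hpos J (by omega) (by omega)
  have hs : ∀ z, z ≤ x J → ∀ t, t < n →
      shift x z t + shift x z (t + 1) = x t + x (t + 1) := by
    intro z hz t ht
    refine shift_add x z t (fun h1 => hz.trans (hmin' t ht h1)) (fun h1 => ?_)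
    have h2 : t + 1 < n := by
      rcases Nat.lt_or_ge (t + 1) n with h3 | h3
      · exact h3
      · exfalso; omega
    exact hz.trans (hmin' (t + 1) h2 h1)
  have hs0 : ∀ z, shift x z 0 = z := by intro z; unfold shift; rw [if_pos rfl, h0, zero_add]
  have hsn : ∀ z, shift x z n = 2 + z := by intro z; unfold shift; rw [if_pos hev, hn]
  by_cases hpar : x J % 2 = 1
  · exfalso
    apply hno
    have hodd : ∀ i, 2 * i + 1 ≤ x J → Reach S 1 (2 * i + 1) := by
      intro i
      induction i with
      | zero => intro _; exact reach_refl S 1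
      | succ i ih =>
        intro hi
        refine reach_trans (ih (by omega)) ⟨n, shift x (2 * i + 1), fun t ht => ?_, hs0 _, ?_⟩
        · rw [hs _ (by omega) t ht]; exact h t ht
        · rw [hsn]; ring
    have h1 : Reach S 1 (x J) := by
      have h2 := hodd (x J / 2) (by omega)
      rwa [show 2 * (x J / 2) + 1 = x J by omega] at h2
    have h2 : Reach S 0 (x J) := ⟨J, x, fun t ht => h t (by omega), h0, rfl⟩
    exact reach_trans h2 (reach_symm h1)
  · obtain ⟨μ, hμ⟩ : ∃ μ, x J = 2 * μ := ⟨x J / 2, by omega⟩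
    have hμ1 : 1 ≤ μ := by omega
    refine gadget_single h h0 hn (fun t => if t < J then shift x μ t else shift x (μ - 1) t)
      (fun t ht => ?_) (fun k => ?_)
    · have h1 := hs μ (by omega) t ht
      have h2 := hs (μ - 1) (by omega) t ht
      show (if t < J then shift x μ t else shift x (μ - 1) t) ≤ x t + x (t + 1)
      split_ifs <;> omega
    · obtain ⟨r, hr⟩ : ∃ r, n = J + r := ⟨n - J, by omega⟩
      have f1 : ∀ (F : ℕ → ℕ), ∑ t ∈ range n, F t = ∑ t ∈ range J, F t +
          ∑ t ∈ range r, F (J + t) := by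
        intro F
        rw [hr, Finset.sum_range_add]
      rw [f1, f1]
      have a1 : ∑ t ∈ range J, (if (if t < J then shift x μ t else shift x (μ - 1) t) = k
          then 1 else 0) = ∑ t ∈ range J, (if shift x μ t = k then 1 else 0) :=
        Finset.sum_congr rfl (fun t ht => by rw [if_pos (Finset.mem_range.1 ht)])
      have a2 : ∑ t ∈ range J, (if x t + x (t + 1) -
          (if t < J then shift x μ t else shift x (μ - 1) t) = k then 1 else 0) =
          ∑ t ∈ range J, (if shift x μ t + shift x μ (t + 1) - shift x μ t = k then 1 else 0) :=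
        Finset.sum_congr rfl (fun t ht => by
          have h3 := Finset.mem_range.1 ht
          rw [if_pos h3, hs μ (by omega) t (by omega)])
      have a3 : ∑ t ∈ range r, (if (if J + t < J then shift x μ (J + t) else
          shift x (μ - 1) (J + t)) = k then 1 else 0) =
          ∑ t ∈ range r, (if shift x (μ - 1) (J + t) = k then 1 else 0) :=
        Finset.sum_congr rfl (fun t ht => by rw [if_neg (by omega : ¬ J + t < J)])
      have a4 : ∑ t ∈ range r, (if x (J + t) + x (J + t + 1) -
          (if J + t < J then shift x μ (J + t) else shift x (μ - 1) (J + t)) = k then 1 else 0) =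
          ∑ t ∈ range r, (if shift x (μ - 1) (J + t) + shift x (μ - 1) (J + (t + 1)) -
            shift x (μ - 1) (J + t) = k then 1 else 0) :=
        Finset.sum_congr rfl (fun t ht => by
          have h3 := Finset.mem_range.1 ht
          have h4 := hs (μ - 1) (by omega) (J + t) (by omega)
          rw [if_neg (by omega : ¬ J + t < J), ← Nat.add_assoc J t 1, h4])
      rw [a1, a2, a3, a4]
      have b1 := walk_sum (shift x μ) J k
      have b2 := walk_sum (fun t => shift x (μ - 1) (J + t)) r k
      have e1 : shift x μ 0 = μ := hs0 μ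
      have e2 : shift x μ J = μ := by
        unfold shift
        rw [if_neg (by omega), hμ]; omega
      have e3 : shift x (μ - 1) (J + 0) = μ + 1 := by
        unfold shift
        rw [Nat.add_zero, if_neg (by omega), hμ]; omega
      have e4 : shift x (μ - 1) (J + r) = μ + 1 := by
        rw [← hr, hsn]; omega
      rw [e1, e2] at b1
      simp only [e3, e4] at b2
      omega

/-- a gadget, or an invariant -/
theorem gadget_or_inv (S : Finset ℕ) (M : ℕ) (hM : ∀ c ∈ S, c ≤ M) :
    (∃ n c p q k2, n ≤ M ∧ k2 ≤ 2 ∧ IsGadget S n c p q k2) ∨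
    (∃ φ : ℕ → ℤ, φ 0 = 1 ∧ φ 1 = 0 ∧ φ 2 = -1 ∧ ∀ c ∈ S, ∀ k, k ≤ c → φ (c - k) = φ k) := by
  classical
  by_cases h01 : Reach S 0 1
  · left
    obtain ⟨n, x, h1, h2, h3, h4, h5⟩ := short_walk h01 M hM
    obtain ⟨c, p, q, k2, h6, h7⟩ := gadget_double h2 (Or.inl ⟨h3, h4⟩)
    exact ⟨n, c, p, q, k2, h1, h6, h7⟩
  · by_cases h12 : Reach S 1 2
    · left
      obtain ⟨n, x, h1, h2, h3, h4, h5⟩ := short_walk h12 M hM
      obtain ⟨c, p, q, k2, h6, h7⟩ := gadget_double h2 (Or.inr ⟨h3, h4⟩)
      exact ⟨n, c, p, q, k2, h1, h6, h7⟩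
    · by_cases h02 : Reach S 0 2
      · left
        obtain ⟨n, x, h1, h2, h3, h4, h5⟩ := short_walk h02 M hM
        have hpos : ∀ t, 1 ≤ t → t ≤ n → 1 ≤ x t := by
          intro t ht1 htn
          have := h5 0 t (by omega) htn
          rw [h3] at this
          omega
        rcases Nat.mod_two_eq_zero_or_one n with h8 | h8
        · obtain ⟨c, p, q, k2, h6, h7⟩ := gadget_even h2 h3 h4 hpos h8 h01
          exact ⟨n, c, p, q, k2, h1, h6, h7⟩
        · obtain ⟨c, p, q, k2, h6, h7⟩ := gadget_odd h2 h3 h4 hpos h8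
          exact ⟨n, c, p, q, k2, h1, h6, h7⟩
      · right
        refine ⟨fun k => if Reach S 0 k then 1 else if Reach S 2 k then -1 else 0, ?_, ?_, ?_, ?_⟩
        · exact if_pos (reach_refl S 0)
        · show (if Reach S 0 1 then (1 : ℤ) else if Reach S 2 1 then -1 else 0) = 0
          rw [if_neg h01, if_neg (fun hh => h12 (reach_symm hh))]
        · show (if Reach S 0 2 then (1 : ℤ) else if Reach S 2 2 then -1 else 0) = -1
          rw [if_neg h02, if_pos (reach_refl S 2)]
        · intro c hc k hk
          have e : ∀ a, Reach S a (c - k) ↔ Reach S a k := by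
            intro a
            constructor
            · intro hh
              have := reach_arc hc (Nat.sub_le c k) a hh
              rwa [Nat.sub_sub_self hk] at this
            · exact reach_arc hc hk a
          show (if Reach S 0 (c - k) then (1 : ℤ) else if Reach S 2 (c - k) then -1 else 0) =
            if Reach S 0 k then 1 else if Reach S 2 k then -1 else 0
          simp only [e]

end Pool.Agent.W_e8e3a0
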