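import Pool.Agent.W_e8e3a0.PlaceZ49

/-! The parts on the copies of a gadget. -/

namespace Pool.Agent.W_e8e3a0

open Finset

/-- indices of the gadget vertices -/
def GI (J n k2 : ℕ) : Finset (ℕ × ℕ × ℕ) :=
  ((range 2) ×ˢ ((range J) ×ˢ (range n))) ∪ (({2} : Finset ℕ) ×ˢ ((range J) ×ˢ (range k2)))

/-- indices of the gadget vertices of degree two -/
def ZI (J k2 : ℕ) : Finset (ℕ × ℕ × ℕ) := ({2} : Finset ℕ) ×ˢ ((range J) ×ˢ (range k2))

/-- degrees of the gadget vertices -/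
def gdeg (c : ℕ → ℕ) (g : ℕ × ℕ × ℕ) : ℕ := if g.1 = 2 then 2 else c g.2.2

/-- first parts on the gadget vertices: `j` copies are active, in one of two directions -/
def gx (c p q : ℕ → ℕ) (w j : ℕ) (g : ℕ × ℕ × ℕ) : ℕ :=
  if g.1 = 2 then (if g.2.1 < j then 2 * (1 - w) else 1)
  else if g.1 = 0 then (if g.2.1 < j then (if w = 0 then p g.2.2 else c g.2.2 - p g.2.2) else 2)
  else (if g.2.1 < j then (if w = 0 then q g.2.2 else c g.2.2 - q g.2.2) else c g.2.2 - 2)

theorem sum_ZI (J k2 : ℕ) (F : ℕ × ℕ × ℕ → ℤ) :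
    ∑ g ∈ ZI J k2, F g = ∑ l ∈ range J, ∑ t ∈ range k2, F (2, l, t) := by
  unfold ZI
  rw [Finset.sum_product, Finset.sum_singleton, Finset.sum_product]

theorem sum_GI (J n k2 : ℕ) (F : ℕ × ℕ × ℕ → ℤ) :
    ∑ g ∈ GI J n k2, F g = ∑ l ∈ range J, (∑ t ∈ range n, F (0, l, t) +
      ∑ t ∈ range n, F (1, l, t) + ∑ t ∈ range k2, F (2, l, t)) := by
  unfold GI
  rw [Finset.sum_union]
  · rw [Finset.sum_product, Finset.sum_product, Finset.sum_range_succ, Finset.sum_range_one,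
      Finset.sum_singleton, Finset.sum_product, Finset.sum_product, Finset.sum_product,
      Finset.sum_add_distrib, Finset.sum_add_distrib]
  · rw [Finset.disjoint_left]
    intro g h1 h2
    have h3 := (Finset.mem_product.1 h1).1
    have h4 := (Finset.mem_product.1 h2).1
    rw [Finset.mem_range] at h3
    rw [Finset.mem_singleton] at h4
    omega

theorem card_GI (J n k2 : ℕ) : (GI J n k2).card ≤ J * (2 * n + k2) := by
  unfold GI
  refine (Finset.card_union_le _ _).trans ?_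
  rw [Finset.card_product, Finset.card_product, Finset.card_product, Finset.card_product,
    Finset.card_range, Finset.card_range, Finset.card_range, Finset.card_range,
    Finset.card_singleton]
  exact le_of_eq (by ring)

theorem mem_GI {J n k2 : ℕ} {g : ℕ × ℕ × ℕ} (h : g ∈ GI J n k2) :
    g.2.1 < J ∧ (g.1 ≠ 2 → g.1 < 2 ∧ g.2.2 < n) ∧ (g.1 = 2 → g ∈ ZI J k2) := by
  unfold GI at h
  rcases Finset.mem_union.1 h with h1 | h1
  · obtain ⟨h2, h3⟩ := Finset.mem_product.1 h1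
    obtain ⟨h4, h5⟩ := Finset.mem_product.1 h3
    rw [Finset.mem_range] at h2 h4 h5
    exact ⟨h4, fun _ => ⟨h2, h5⟩, fun hh => by omega⟩
  · obtain ⟨h2, h3⟩ := Finset.mem_product.1 h1
    obtain ⟨h4, h5⟩ := Finset.mem_product.1 h3
    rw [Finset.mem_range] at h4 h5
    rw [Finset.mem_singleton] at h2
    exact ⟨h4, fun hh => absurd h2 hh, fun _ => h1⟩

theorem mem_ZI {J k2 : ℕ} {g : ℕ × ℕ × ℕ} (h : g ∈ ZI J k2) (n : ℕ) :
    g.1 = 2 ∧ g ∈ GI J n k2 := by
  refine ⟨?_, Finset.mem_union_right _ h⟩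
  exact Finset.mem_singleton.1 (Finset.mem_product.1 h).1

section sums

variable {S : Finset ℕ} {n : ℕ} {c p q : ℕ → ℕ} {k2 : ℕ}

theorem gx_le (J j w : ℕ) (hG : J ≠ 0 → IsGadget S n c p q k2) (hS : ∀ e ∈ S, 4 ≤ e)
    (g : ℕ × ℕ × ℕ) (hg : g ∈ GI J n k2) : gx c p q w j g ≤ gdeg c g := by
  obtain ⟨h1, h2, h3⟩ := mem_GI hg
  have hGG := hG (by omega)
  unfold gx gdeg
  by_cases h4 : g.1 = 2
  · rw [if_pos h4, if_pos h4]
    split_ifs <;> omega
  · rw [if_neg h4, if_neg h4]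
    obtain ⟨h5, h6, h7⟩ := hGG.1 g.2.2 (h2 h4).2
    have h8 := hS _ h5
    split_ifs <;> omega

theorem gx_default (J w : ℕ) (hG : J ≠ 0 → IsGadget S n c p q k2) (hS : ∀ e ∈ S, 4 ≤ e)
    (g : ℕ × ℕ × ℕ) (hg : g ∈ GI J n k2) :
    1 ≤ gx c p q w 0 g ∧ 1 ≤ gdeg c g - gx c p q w 0 g := by
  obtain ⟨h1, h2, h3⟩ := mem_GI hg
  have hGG := hG (by omega)
  unfold gx gdeg
  by_cases h4 : g.1 = 2
  · rw [if_pos h4, if_pos h4, if_neg (by omega)]
    omega
  · rw [if_neg h4, if_neg h4]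
    obtain ⟨h5, h6, h7⟩ := hGG.1 g.2.2 (h2 h4).2
    have h8 := hS _ h5
    split_ifs <;> omega

theorem gx_balanced (J j w : ℕ) (hw : w ≤ 1) (hG : J ≠ 0 → IsGadget S n c p q k2)
    (hS : ∀ e ∈ S, 4 ≤ e) (k : ℕ) (hk : 2 ≤ k) :
    ∑ g ∈ GI J n k2, (if gx c p q w j g = k then (1 : ℤ) else 0) =
      ∑ g ∈ GI J n k2, (if gdeg c g - gx c p q w j g = k then (1 : ℤ) else 0) := by
  rw [sum_GI, sum_GI]
  refine Finset.sum_congr rfl (fun l hl => ?_)
  have hJ : J ≠ 0 := by
    have := Finset.mem_range.1 hl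
    omega
  obtain ⟨g1, g2, g3⟩ := hG hJ
  have hw2 : w = 0 ∨ w = 1 := by omega
  by_cases hlj : l < j
  · have e1 : (∑ t ∈ range n, (if p t = k then (1 : ℤ) else 0)) +
        ∑ t ∈ range n, (if q t = k then (1 : ℤ) else 0) + (if 2 = k then (k2 : ℤ) else 0) =
        ∑ t ∈ range n, (if c t - p t = k then (1 : ℤ) else 0) +
        ∑ t ∈ range n, (if c t - q t = k then (1 : ℤ) else 0) := by
      exact_mod_cast g2 k hk
    have c1 : ∀ t ∈ range n, c t - (c t - p t) = p t := fun t ht =>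
      Nat.sub_sub_self (g1 t (Finset.mem_range.1 ht)).2.1
    have c2 : ∀ t ∈ range n, c t - (c t - q t) = q t := fun t ht =>
      Nat.sub_sub_self (g1 t (Finset.mem_range.1 ht)).2.2
    have s1 : ∑ t ∈ range n, (if c t - (c t - p t) = k then (1 : ℤ) else 0) =
        ∑ t ∈ range n, (if p t = k then (1 : ℤ) else 0) :=
      Finset.sum_congr rfl (fun t ht => by rw [c1 t ht])
    have s2 : ∑ t ∈ range n, (if c t - (c t - q t) = k then (1 : ℤ) else 0) =
        ∑ t ∈ range n, (if q t = k then (1 : ℤ) else 0) :=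
      Finset.sum_congr rfl (fun t ht => by rw [c2 t ht])
    have s3 : ∑ _t ∈ range k2, (if 2 = k then (1 : ℤ) else 0) = if 2 = k then (k2 : ℤ) else 0 := by
      rw [Finset.sum_const, Finset.card_range]
      split_ifs <;> simp
    have s4 : ∑ _t ∈ range k2, (if 0 = k then (1 : ℤ) else 0) = 0 := by
      rw [if_neg (by omega)]; simp
    rcases hw2 with h | h <;> rw [h]
    · simp only [gx, gdeg, hlj, if_true, if_pos, show (2 : ℕ) ≠ 0 from by omega,
        show (1 : ℕ) ≠ 2 from by omega, show (0 : ℕ) ≠ 2 from by omega,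
        show (1 : ℕ) ≠ 0 from by omega, if_false, Nat.sub_zero, Nat.mul_one, Nat.sub_self]
      rw [s3, s4]
      linarith
    · simp only [gx, gdeg, hlj, if_true, if_pos, show (2 : ℕ) ≠ 0 from by omega,
        show (1 : ℕ) ≠ 2 from by omega, show (0 : ℕ) ≠ 2 from by omega,
        show (1 : ℕ) ≠ 0 from by omega, if_false, Nat.sub_zero, Nat.mul_zero, Nat.sub_self]
      rw [s1, s2, s3, s4]
      linarith
  · have hc : ∀ t ∈ range n, c t - (c t - 2) = 2 := fun t ht =>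
      Nat.sub_sub_self (by have := hS _ (g1 t (Finset.mem_range.1 ht)).1; omega)
    simp only [gx, gdeg, hlj, if_true, show (2 : ℕ) ≠ 0 from by omega,
        show (1 : ℕ) ≠ 2 from by omega, show (0 : ℕ) ≠ 2 from by omega,
        show (1 : ℕ) ≠ 0 from by omega, if_false, show 2 - 1 = 1 from rfl]
    have s1 : ∑ t ∈ range n, (if c t - (c t - 2) = k then (1 : ℤ) else 0) =
        ∑ t ∈ range n, (if 2 = k then (1 : ℤ) else 0) :=
      Finset.sum_congr rfl (fun t ht => by rw [hc t ht])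
    rw [s1]
    ring

theorem gx_zeros (J j w : ℕ) (hj : j ≤ J) (hw : w ≤ 1) (hG : J ≠ 0 → IsGadget S n c p q k2)
    (hS : ∀ e ∈ S, 4 ≤ e) :
    ∑ g ∈ GI J n k2, (if gx c p q w j g = 0 then (1 : ℤ) else 0) -
      ∑ g ∈ GI J n k2, (if gdeg c g - gx c p q w j g = 0 then (1 : ℤ) else 0) =
    2 * (∑ g ∈ ZI J k2, (if gx c p q w j g = 0 then (1 : ℤ) else 0) -
      ∑ g ∈ ZI J k2, (if gdeg c g - gx c p q w j g = 0 then (1 : ℤ) else 0)) +
      (1 - 2 * (w : ℤ)) * (2 * j) := by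
  rw [sum_GI, sum_GI, sum_ZI, sum_ZI, ← Finset.sum_sub_distrib, ← Finset.sum_sub_distrib,
    Finset.mul_sum]
  have hw2 : w = 0 ∨ w = 1 := by omega
  have hcnt : (1 - 2 * (w : ℤ)) * (2 * j) =
      ∑ l ∈ range J, (if l < j then (1 - 2 * (w : ℤ)) * 2 else 0) := by
    rw [← Finset.sum_filter]
    have : (range J).filter (fun l => l < j) = range j := by
      ext l
      rw [Finset.mem_filter, Finset.mem_range, Finset.mem_range]
      constructor
      · rintro ⟨_, h⟩; exact h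
      · intro h; exact ⟨by omega, h⟩
    rw [this, Finset.sum_const, Finset.card_range, nsmul_eq_mul]
    ring
  rw [hcnt, ← Finset.sum_add_distrib]
  refine Finset.sum_congr rfl (fun l hl => ?_)
  have hJ : J ≠ 0 := by
    have := Finset.mem_range.1 hl
    omega
  obtain ⟨g1, g2, g3⟩ := hG hJ
  by_cases hlj : l < j
  · have e1 : (∑ t ∈ range n, (if p t = 0 then (1 : ℤ) else 0)) +
        ∑ t ∈ range n, (if q t = 0 then (1 : ℤ) else 0) + (k2 : ℤ) =
        2 + ∑ t ∈ range n, (if c t - p t = 0 then (1 : ℤ) else 0) +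
        ∑ t ∈ range n, (if c t - q t = 0 then (1 : ℤ) else 0) := by
      exact_mod_cast g3
    have c1 : ∀ t ∈ range n, c t - (c t - p t) = p t := fun t ht =>
      Nat.sub_sub_self (g1 t (Finset.mem_range.1 ht)).2.1
    have c2 : ∀ t ∈ range n, c t - (c t - q t) = q t := fun t ht =>
      Nat.sub_sub_self (g1 t (Finset.mem_range.1 ht)).2.2
    have s1 : ∑ t ∈ range n, (if c t - (c t - p t) = 0 then (1 : ℤ) else 0) =
        ∑ t ∈ range n, (if p t = 0 then (1 : ℤ) else 0) :=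
      Finset.sum_congr rfl (fun t ht => by rw [c1 t ht])
    have s2 : ∑ t ∈ range n, (if c t - (c t - q t) = 0 then (1 : ℤ) else 0) =
        ∑ t ∈ range n, (if q t = 0 then (1 : ℤ) else 0) :=
      Finset.sum_congr rfl (fun t ht => by rw [c2 t ht])
    have s3 : ∑ _t ∈ range k2, (1 : ℤ) = k2 := by simp
    have s4 : ∑ _t ∈ range k2, (0 : ℤ) = 0 := by simp
    rcases hw2 with h | h <;> rw [h]
    · simp only [gx, gdeg, hlj, if_true, show (2 : ℕ) ≠ 0 from by omega,
        show (1 : ℕ) ≠ 2 from by omega, show (0 : ℕ) ≠ 2 from by omega,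
        show (1 : ℕ) ≠ 0 from by omega, if_false, Nat.sub_zero, Nat.mul_one, Nat.sub_self]
      rw [s3, s4]
      push_cast
      linarith
    · simp only [gx, gdeg, hlj, if_true, show (2 : ℕ) ≠ 0 from by omega,
        show (1 : ℕ) ≠ 2 from by omega, show (0 : ℕ) ≠ 2 from by omega,
        show (1 : ℕ) ≠ 0 from by omega, if_false, Nat.sub_zero, Nat.mul_zero, Nat.sub_self]
      rw [s1, s2, s3, s4]
      push_cast
      linarith
  · have hc : ∀ t ∈ range n, c t - (c t - 2) = 2 := fun t ht =>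
      Nat.sub_sub_self (by have := hS _ (g1 t (Finset.mem_range.1 ht)).1; omega)
    have hc' : ∀ t ∈ range n, c t - 2 ≠ 0 := fun t ht => by
      have := hS _ (g1 t (Finset.mem_range.1 ht)).1
      omega
    have z1 : ∑ t ∈ range n, (if c t - (c t - 2) = 0 then (1 : ℤ) else 0) = 0 :=
      Finset.sum_eq_zero (fun t ht => by rw [hc t ht, if_neg (by omega)])
    have z2 : ∑ t ∈ range n, (if c t - 2 = 0 then (1 : ℤ) else 0) = 0 :=
      Finset.sum_eq_zero (fun t ht => if_neg (hc' t ht))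
    simp only [gx, gdeg, hlj, if_true, show (2 : ℕ) ≠ 0 from by omega,
        show (1 : ℕ) ≠ 2 from by omega, show (0 : ℕ) ≠ 2 from by omega,
        show (1 : ℕ) ≠ 0 from by omega, if_false, show 2 - 1 = 1 from rfl,
        Finset.sum_const_zero, z1, z2]
    ring

end sums

end Pool.Agent.W_e8e3a0
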