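import Pool.Agent.W_e8e3a0.Extra49

namespace Pool.Agent.W_e8e3a0

open Finset Num49

variable {V : Type} [Fintype V]

theorem construct_gen {G : SimpleGraph V} {s : ℕ} {v : Fin s → V} (h : IsSpine G v)
    (x y : Fin s → ℕ) (hxy : ∀ i, x i + y i = deg G (v i)) (P : ℕ → Prop) [DecidablePred P]
    (hrx : ∀ i : Fin s, (∑ j : Fin s, if ((i : ℕ) + 1 = j ∧ P i) ∨ ((j : ℕ) + 1 = i ∧ P j)
        then 1 else 0) ≤ x i ∧
      (∑ j : Fin s, if ((i : ℕ) + 1 = j ∧ ¬ P i) ∨ ((j : ℕ) + 1 = i ∧ ¬ P j)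
        then 1 else 0) ≤ y i)
    (hbal : ∀ k, 2 ≤ k → cx x univ k = cx y univ k)
    (hE : cx x univ 1 + (s - 1) = cx y univ 1 +
      2 * ∑ i ∈ range (s - 1), (if P i then 1 else 0)) : Splittable G := by
  classical
  let r₁ : Fin s → ℕ := fun i =>
    ∑ j : Fin s, if ((i : ℕ) + 1 = j ∧ P i) ∨ ((j : ℕ) + 1 = i ∧ P j) then 1 else 0
  let r₂ : Fin s → ℕ := fun i =>
    ∑ j : Fin s, if ((i : ℕ) + 1 = j ∧ ¬ P i) ∨ ((j : ℕ) + 1 = i ∧ ¬ P j) then 1 else 0
  have hr₁ : ∑ i, r₁ i = 2 * ∑ i ∈ range (s - 1), (if P i then 1 else 0) := sum_path s P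
  let L : Fin s → Finset V := fun i => (offSpine v).filter (fun u => G.Adj (v i) u)
  have hdeg : ∀ i, deg G (v i) = r₁ i + r₂ i + (L i).card := by
    intro i
    rw [deg_eq_sum, sum_split h.inj]
    congr 1
    · show _ = ∑ j : Fin s, _ + ∑ j : Fin s, _
      rw [← Finset.sum_add_distrib]
      refine Finset.sum_congr rfl (fun j _ => ?_)
      rw [if_congr (h.path i j) rfl rfl]
      by_cases a : (i : ℕ) + 1 = j <;> by_cases b : (j : ℕ) + 1 = i <;>
        by_cases c : P i <;> by_cases c' : P j <;> simp [a, b, c, c'] <;> omega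
    · rw [Finset.card_filter]
  have hrx' : ∀ i, r₁ i ≤ x i ∧ r₂ i ≤ y i := hrx
  clear hrx
  -- the leaves of the first half
  have hT : ∀ i, ∃ T ⊆ L i, T.card = x i - r₁ i := by
    intro i
    refine Finset.exists_subset_card_eq ?_
    have h1 := hdeg i
    have h2 := hxy i
    have h3 := hrx' i
    omega
  choose T hTL hTc using hT
  have hTmem : ∀ i u, u ∈ T i → u ∈ offSpine v ∧ G.Adj (v i) u := fun i u hu =>
    Finset.mem_filter.1 (hTL i hu)
  let Tu : Finset V := Finset.univ.biUnion T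
  have hTu : ∀ u, u ∈ Tu ↔ ∃ i, u ∈ T i := fun u => by simp [Tu]
  have hvT : ∀ i, v i ∉ Tu := by
    intro i hi
    obtain ⟨j, hj⟩ := (hTu _).1 hi
    exact mem_offSpine.1 (hTmem j _ hj).1 i rfl
  let R : V → V → Prop := fun a b => (a ∈ Tu ∨ b ∈ Tu) ∨ ∃ i j : Fin s, a = v i ∧ b = v j ∧
    (((i : ℕ) + 1 = j ∧ P i) ∨ ((j : ℕ) + 1 = i ∧ P j))
  have hRs : ∀ a b, R a b → R b a := by
    intro a b hab
    rcases hab with (h1 | h1) | ⟨i, j, h1, h2, h3⟩
    · exact Or.inl (Or.inr h1)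
    · exact Or.inl (Or.inl h1)
    · exact Or.inr ⟨j, i, h2, h1, h3.symm⟩
  let G₁ : SimpleGraph V :=
    { Adj := fun a b => G.Adj a b ∧ R a b
      symm := ⟨fun a b hab => ⟨hab.1.symm, hRs a b hab.2⟩⟩
      loopless := ⟨fun a ha => G.loopless.irrefl a ha.1⟩ }
  let G₂ : SimpleGraph V :=
    { Adj := fun a b => G.Adj a b ∧ ¬ R a b
      symm := ⟨fun a b hab => ⟨hab.1.symm, fun hR => hab.2 (hRs b a hR)⟩⟩
      loopless := ⟨fun a ha => G.loopless.irrefl a ha.1⟩ }
  have hsup : G₁ ⊔ G₂ = G := by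
    ext a b
    rw [SimpleGraph.sup_adj]
    show (G.Adj a b ∧ R a b) ∨ (G.Adj a b ∧ ¬ R a b) ↔ G.Adj a b
    constructor
    · rintro (h1 | h1)
      · exact h1.1
      · exact h1.1
    · intro h1
      by_cases hR : R a b
      · exact Or.inl ⟨h1, hR⟩
      · exact Or.inr ⟨h1, hR⟩
  have hinf : G₁ ⊓ G₂ = ⊥ := by
    ext a b
    rw [SimpleGraph.inf_adj, SimpleGraph.bot_adj]
    show (G.Adj a b ∧ R a b) ∧ (G.Adj a b ∧ ¬ R a b) ↔ False
    constructor
    · rintro ⟨⟨_, h1⟩, ⟨_, h2⟩⟩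
      exact h2 h1
    · exact False.elim
  have hadd := deg_add hsup hinf
  have hA1 : ∀ i j, G₁.Adj (v i) (v j) ↔
      (((i : ℕ) + 1 = j ∧ P i) ∨ ((j : ℕ) + 1 = i ∧ P j)) := by
    intro i j
    show G.Adj (v i) (v j) ∧ R (v i) (v j) ↔ _
    rw [h.path]
    constructor
    · rintro ⟨h1, (h2 | h2) | ⟨i', j', h2, h3, h4⟩⟩
      · exact absurd h2 (hvT i)
      · exact absurd h2 (hvT j)
      · rw [h.inj h2, h.inj h3]; exact h4
    · intro h1
      refine ⟨?_, Or.inr ⟨i, j, rfl, rfl, h1⟩⟩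
      rcases h1 with h1 | h1
      · exact Or.inl h1.1
      · exact Or.inr h1.1
  have hA2 : ∀ i, ∀ u ∈ offSpine v, (G₁.Adj (v i) u ↔ u ∈ T i) := by
    intro i u hu
    show G.Adj (v i) u ∧ R (v i) u ↔ _
    constructor
    · rintro ⟨h1, (h2 | h2) | ⟨i', j', h2, h3, h4⟩⟩
      · exact absurd h2 (hvT i)
      · obtain ⟨j, hj⟩ := (hTu u).1 h2
        obtain ⟨t, ht⟩ := h.leaf u (mem_offSpine.1 hu)
        have e1 := (ht (v i)).1 h1.symm
        have e2 := (ht (v j)).1 (hTmem j u hj).2.symm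
        have e3 : i = j := h.inj (e1.trans e2.symm)
        rw [e3]; exact hj
      · exact absurd h3 (mem_offSpine.1 hu j')
    · intro h1
      exact ⟨(hTmem i u h1).2, Or.inl (Or.inr ((hTu u).2 ⟨i, h1⟩))⟩
  have hsT : ∀ i, ∑ u ∈ offSpine v, adjN G₁ (v i) u = (T i).card := by
    intro i
    have h1 : ∑ u ∈ offSpine v, adjN G₁ (v i) u = ∑ u ∈ offSpine v, if u ∈ T i then 1 else 0 :=
      Finset.sum_congr rfl (fun u hu => adjN_eq G₁ (v i) u (u ∈ T i) (hA2 i u hu))
    rw [h1, ← Finset.card_filter]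
    congr 1
    ext u
    rw [Finset.mem_filter]
    exact ⟨fun h2 => h2.2, fun h2 => ⟨(hTmem i u h2).1, h2⟩⟩
  have hd1 : ∀ i, deg G₁ (v i) = x i := by
    intro i
    rw [deg_eq_adjN, sum_split h.inj, hsT i, hTc i]
    have h1 : ∑ j, adjN G₁ (v i) (v j) = r₁ i :=
      Finset.sum_congr rfl (fun j _ => adjN_eq G₁ (v i) (v j) _ (hA1 i j))
    rw [h1]
    have := (hrx' i).1
    omega
  have hd2 : ∀ i, deg G₂ (v i) = y i := by
    intro i
    have h1 := hadd (v i)
    have h2 := hxy i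
    rw [hd1 i] at h1
    omega
  have hleaf : ∀ u ∈ offSpine v, deg G₁ u + deg G₂ u = 1 := fun u hu => by
    rw [← hadd, deg_leaf h hu]
  -- number of leaves in the first half
  have hL1 : ∑ u ∈ offSpine v, deg G₁ u = ∑ i, (x i - r₁ i) := by
    have h1 : ∀ u ∈ offSpine v, deg G₁ u = ∑ i, adjN G₁ (v i) u := by
      intro u hu
      rw [deg_eq_adjN, sum_split h.inj]
      have h2 : ∑ t ∈ offSpine v, adjN G₁ u t = 0 := by
        refine Finset.sum_eq_zero (fun t ht => ?_)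
        rw [adjN_eq G₁ u t False, if_neg (fun h' => h')]
        constructor
        · intro h3
          obtain ⟨i, hi⟩ := h.leaf u (mem_offSpine.1 hu)
          exact mem_offSpine.1 ht i ((hi t).1 h3.1)
        · exact False.elim
      rw [h2, add_zero]
      exact Finset.sum_congr rfl (fun i _ => adjN_symm G₁ u (v i))
    rw [Finset.sum_congr rfl h1, Finset.sum_comm]
    refine Finset.sum_congr rfl (fun i _ => ?_)
    rw [hsT i, hTc i]
  have hL2 : ∑ i, (x i - r₁ i) + ∑ i, r₁ i = ∑ i, x i := by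
    rw [← Finset.sum_add_distrib]
    refine Finset.sum_congr rfl (fun i _ => ?_)
    have := (hrx' i).1
    omega
  have hsp := sum_spine h
  have hsd := sum_diff hbal
  have hxysum : ∑ i, deg G (v i) = ∑ i, x i + ∑ i, y i := by
    rw [← Finset.sum_add_distrib]
    exact Finset.sum_congr rfl (fun i _ => (hxy i).symm)
  have hll : ∑ u ∈ offSpine v, deg G₁ u + ∑ u ∈ offSpine v, deg G₂ u = (offSpine v).card := by
    rw [← Finset.sum_add_distrib, Finset.card_eq_sum_ones]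
    exact Finset.sum_congr rfl hleaf
  refine ⟨G₁, G₂, hsup, hinf, map_eq_of_cx ?_⟩
  intro k hk
  unfold cx
  rw [sum_split h.inj, sum_split h.inj]
  simp only [hd1, hd2]
  rcases Nat.lt_or_ge k 2 with hk2 | hk2
  · have : k = 1 := by omega
    subst this
    have e1 : ∑ u ∈ offSpine v, (if deg G₁ u = 1 then 1 else 0) =
        ∑ u ∈ offSpine v, deg G₁ u := by
      refine Finset.sum_congr rfl (fun u hu => ?_)
      have := hleaf u hu
      by_cases a : deg G₁ u = 1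
      · rw [if_pos a, a]
      · rw [if_neg a]; omega
    have e2 : ∑ u ∈ offSpine v, (if deg G₂ u = 1 then 1 else 0) =
        ∑ u ∈ offSpine v, deg G₂ u := by
      refine Finset.sum_congr rfl (fun u hu => ?_)
      have := hleaf u hu
      by_cases a : deg G₂ u = 1
      · rw [if_pos a, a]
      · rw [if_neg a]; omega
    rw [e1, e2]
    have c1 : cx x univ 1 = ∑ i, if x i = 1 then 1 else 0 := rfl
    have c2 : cx y univ 1 = ∑ i, if y i = 1 then 1 else 0 := rfl
    rw [← c1, ← c2]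
    omega
  · have e1 : ∑ u ∈ offSpine v, (if deg G₁ u = k then 1 else 0) = 0 :=
      Finset.sum_eq_zero (fun u hu => if_neg (by have := hleaf u hu; omega))
    have e2 : ∑ u ∈ offSpine v, (if deg G₂ u = k then 1 else 0) = 0 :=
      Finset.sum_eq_zero (fun u hu => if_neg (by have := hleaf u hu; omega))
    rw [e1, e2, add_zero, add_zero]
    exact hbal k hk2


end Pool.Agent.W_e8e3a0
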