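import Pool.Agent.W_e8e3a0.PathM49

namespace Pool.Agent.W_e8e3a0.Num49

open Finset

variable {I : Type} [DecidableEq I]

theorem cx_insert {x : I → ℕ} {P : Finset I} {i : I} (hi : i ∉ P) (k : ℕ) :
    cx x (insert i P) k = (if x i = k then 1 else 0) + cx x P k := by
  unfold cx
  rw [Finset.sum_insert hi]

theorem cx_sub {x : I → ℕ} {P R : Finset I} (h : P ⊆ R) (k : ℕ) :
    cx x R k = cx x (R \ P) k + cx x P k := by
  unfold cx
  exact (Finset.sum_sdiff h).symm

theorem exists_of_cx {x : I → ℕ} {R : Finset I} {k : ℕ} (h : 1 ≤ cx x R k) :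
    ∃ i ∈ R, x i = k := by
  by_contra hc
  push Not at hc
  have : cx x R k = 0 := by
    unfold cx
    exact Finset.sum_eq_zero (fun i hi => by simp [hc i hi])
  omega

theorem extract_step {d x y : I → ℕ} {R : Finset I} (hxy : ∀ i ∈ R, x i + y i = d i)
    (hbal : ∀ k, 2 ≤ k → cx x R k = cx y R k) (hD : cx y R 1 < cx x R 1) :
    ∀ (n : ℕ) (A B : Finset I) (v : ℕ), (R \ (A ∪ B)).card = n → A ⊆ R → B ⊆ R →
      Disjoint A B →
      (∀ k, cx x (A ∪ B) k + (if k = v then 1 else 0) =
        cx y (A ∪ B) k + (if k = 1 then 1 else 0)) →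
      ((A.card = B.card + 1 ∧ ∑ i ∈ A, d i = ∑ i ∈ B, d i + 1 + v) ∨
        (A.card = B.card ∧ ∑ i ∈ A, d i + v = ∑ i ∈ B, d i + 1)) →
      ∃ A B : Finset I, A ⊆ R ∧ B ⊆ R ∧ Disjoint A B ∧
        (∀ k, cx x (A ∪ B) k + (if k = 0 then 1 else 0) =
          cx y (A ∪ B) k + (if k = 1 then 1 else 0)) ∧
        ∑ i ∈ A, d i = ∑ i ∈ B, d i + 1 ∧ (A.card = B.card + 1 ∨ A.card = B.card) := by
  intro n
  induction n using Nat.strong_induction_on with
  | _ n ih =>
  intro A B v hn hA hB hAB hb hs
  rcases Nat.eq_zero_or_pos v with hv | hv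
  · subst hv
    refine ⟨A, B, hA, hB, hAB, hb, ?_, ?_⟩
    · rcases hs with h | h
      · have := h.2; omega
      · have := h.2; omega
    · rcases hs with h | h
      · exact Or.inl h.1
      · exact Or.inr h.1
  · have hP : A ∪ B ⊆ R := Finset.union_subset hA hB
    have hbv := hb v
    have hsx := cx_sub (x := x) hP v
    have hsy := cx_sub (x := y) hP v
    have hex : 1 ≤ cx x (R \ (A ∪ B)) v := by
      by_cases h1 : v = 1
      · subst h1
        simp only [if_true] at hbv
        omega
      · have h2 := hbal v (by omega)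
        simp only [if_true, h1, if_false] at hbv
        omega
    obtain ⟨i, hi, hxi⟩ := exists_of_cx hex
    have hiR : i ∈ R := (Finset.mem_sdiff.1 hi).1
    have hiP : i ∉ A ∪ B := (Finset.mem_sdiff.1 hi).2
    have hiA : i ∉ A := fun h => hiP (Finset.mem_union_left _ h)
    have hiB : i ∉ B := fun h => hiP (Finset.mem_union_right _ h)
    have hcard : (R \ insert i (A ∪ B)).card < n := by
      rw [← hn]
      apply Finset.card_lt_card
      refine ⟨Finset.sdiff_subset_sdiff (subset_refl _) (Finset.subset_insert _ _), ?_⟩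
      intro h
      have := h hi
      simp at this
    have hnb : ∀ k, cx x (insert i (A ∪ B)) k + (if k = y i then 1 else 0) =
        cx y (insert i (A ∪ B)) k + (if k = 1 then 1 else 0) := by
      intro k
      rw [cx_insert hiP, cx_insert hiP, hxi]
      have h1 := hb k
      rw [if_congr (eq_comm (a := v) (b := k)) rfl rfl,
        if_congr (eq_comm (a := y i) (b := k)) rfl rfl]
      omega
    have hd := hxy i hiR
    rcases hs with ⟨h1, h2⟩ | ⟨h1, h2⟩
    · have e : insert i (A ∪ B) = A ∪ insert i B := by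
        ext j; simp only [Finset.mem_insert, Finset.mem_union]; tauto
      rw [e] at hcard hnb
      refine ih _ hcard A (insert i B) (y i) rfl hA (Finset.insert_subset hiR hB) ?_ hnb
        (Or.inr ⟨?_, ?_⟩)
      · rw [Finset.disjoint_insert_right]; exact ⟨hiA, hAB⟩
      · rw [Finset.card_insert_of_notMem hiB]; exact h1
      · rw [Finset.sum_insert hiB]; omega
    · have e : insert i (A ∪ B) = insert i A ∪ B := by
        ext j; simp only [Finset.mem_insert, Finset.mem_union]; tauto
      rw [e] at hcard hnb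
      refine ih _ hcard (insert i A) B (y i) rfl (Finset.insert_subset hiR hA) hB ?_ hnb
        (Or.inl ⟨?_, ?_⟩)
      · rw [Finset.disjoint_insert_left]; exact ⟨hiB, hAB⟩
      · rw [Finset.card_insert_of_notMem hiA]; omega
      · rw [Finset.sum_insert hiA]; omega

theorem extract {d x y : I → ℕ} {R : Finset I} (hxy : ∀ i ∈ R, x i + y i = d i)
    (hbal : ∀ k, 2 ≤ k → cx x R k = cx y R k) (hD : cx y R 1 < cx x R 1) :
      ∃ A B : Finset I, A ⊆ R ∧ B ⊆ R ∧ Disjoint A B ∧
        (∀ k, cx x (A ∪ B) k + (if k = 0 then 1 else 0) =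
          cx y (A ∪ B) k + (if k = 1 then 1 else 0)) ∧
        ∑ i ∈ A, d i = ∑ i ∈ B, d i + 1 ∧ (A.card = B.card + 1 ∨ A.card = B.card) := by
  obtain ⟨i, hi, hxi⟩ := exists_of_cx (x := x) (R := R) (k := 1) (by omega)
  have hd := hxy i hi
  refine extract_step hxy hbal hD _ {i} ∅ (y i) rfl (by simpa using hi) (by simp) (by simp) ?_
    (Or.inl ⟨by simp, ?_⟩)
  · intro k
    simp only [cx, Finset.union_empty, Finset.sum_singleton, hxi]
    rw [if_congr (eq_comm (a := 1) (b := k)) rfl rfl,
        if_congr (eq_comm (a := y i) (b := k)) rfl rfl]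
    omega
  · simp only [Finset.sum_singleton, Finset.sum_empty]; omega

theorem sum_cx (g : ℕ → ℕ) (x : I → ℕ) (R : Finset I) (N : ℕ) (h : ∀ i ∈ R, x i < N) :
    ∑ k ∈ range N, g k * cx x R k = ∑ i ∈ R, g (x i) := by
  unfold cx
  simp only [Finset.mul_sum]
  rw [Finset.sum_comm]
  refine Finset.sum_congr rfl (fun i hi => ?_)
  rw [Finset.sum_eq_single (x i)]
  · simp
  · intro b _ hb; simp [Ne.symm hb]
  · intro hn; exact absurd (Finset.mem_range.2 (h i hi)) hn

theorem sum_eq_of_cx {x y : I → ℕ} {R : Finset I} (h : ∀ k, 1 ≤ k → cx x R k = cx y R k)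
    (g : ℕ → ℕ) : ∑ i ∈ R, g (x i) = ∑ i ∈ R, g (y i) := by
  obtain ⟨N, hN⟩ : ∃ N, ∀ i ∈ R, x i < N ∧ y i < N :=
    ⟨∑ i ∈ R, (x i + y i) + 1, fun i hi => by
      have := Finset.single_le_sum (f := fun i => x i + y i) (fun _ _ => Nat.zero_le _) hi
      omega⟩
  have hx := fun g => sum_cx g x R (N + 1) (fun i hi => by have := (hN i hi).1; omega)
  have hy := fun g => sum_cx g y R (N + 1) (fun i hi => by have := (hN i hi).2; omega)
  have h0 : cx x R 0 = cx y R 0 := by
    have h1 := hx (fun _ => 1)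
    have h2 := hy (fun _ => 1)
    rw [Finset.sum_range_succ'] at h1 h2
    have h3 : ∑ k ∈ range N, 1 * cx x R (k + 1) = ∑ k ∈ range N, 1 * cx y R (k + 1) :=
      Finset.sum_congr rfl (fun k _ => by rw [h (k + 1) (by omega)])
    omega
  rw [← hx g, ← hy g]
  refine Finset.sum_congr rfl (fun k _ => ?_)
  rcases Nat.eq_zero_or_pos k with hk | hk
  · subst hk; rw [h0]
  · rw [h k hk]

/-- the condition on the spine degrees -/
def Cond [Fintype I] (d : I → ℕ) : Prop :=
  ∃ A B : Finset I, Disjoint A B ∧ ∑ i ∈ A, d i = ∑ i ∈ B, d i + 1 ∧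
    (A.card = B.card + 1 ∨
      (A.card = B.card ∧ ((∀ i, i ∈ A ∪ B) ∨ ∃ i, i ∉ A ∪ B ∧ Even (d i))))

theorem sum_odd_par {d : I → ℕ} : ∀ Q : Finset I, (∀ i ∈ Q, Odd (d i)) →
    (∑ i ∈ Q, d i) % 2 = Q.card % 2 := by
  intro Q
  induction Q using Finset.induction_on with
  | empty => intro _; simp
  | insert a s ha ihs =>
    intro hQ
    rw [Finset.sum_insert ha, Finset.card_insert_of_notMem ha]
    have h3 := ihs (fun i hi => hQ i (Finset.mem_insert_of_mem hi))
    have h4 := hQ a (Finset.mem_insert_self a s)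
    rw [Nat.odd_iff] at h4
    omega

theorem cond_of_lt [Fintype I] {d x y : I → ℕ} (hxy : ∀ i, x i + y i = d i)
    (hbal : ∀ k, 2 ≤ k → cx x univ k = cx y univ k) (hD : cx y univ 1 < cx x univ 1) :
    Cond d := by
  obtain ⟨A, B, _, _, hAB, hb, hsum, hc⟩ := extract (R := univ) (fun i _ => hxy i) hbal hD
  rcases hc with hc | hc
  · exact ⟨A, B, hAB, hsum, Or.inl hc⟩
  by_cases hev : ∃ i, i ∉ A ∪ B ∧ Even (d i)
  · exact ⟨A, B, hAB, hsum, Or.inr ⟨hc, Or.inr hev⟩⟩
  push Not at hev
  set R : Finset I := univ \ (A ∪ B) with hR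
  have hRo : ∀ i ∈ R, Odd (d i) := by
    intro i hi
    exact Nat.not_even_iff_odd.1 (hev i (Finset.mem_sdiff.1 hi).2)
  have hbR : ∀ k, 2 ≤ k → cx x R k = cx y R k := by
    intro k hk
    have h1 := cx_sub (x := x) (Finset.subset_univ (A ∪ B)) k
    have h2 := cx_sub (x := y) (Finset.subset_univ (A ∪ B)) k
    have h3 := hbal k hk
    have h4 := hb k
    rw [if_neg (by omega), if_neg (by omega)] at h4
    rw [← hR] at h1 h2
    omega
  have hsub : ∀ x' y' : I → ℕ, (∀ i, x' i + y' i = d i) → (∀ k, 2 ≤ k → cx x' R k = cx y' R k) →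
      cx y' R 1 < cx x' R 1 → Cond d := by
    intro x' y' h1 h2 h3
    obtain ⟨A', B', hA', hB', hAB', _, hsum', hc'⟩ := extract (R := R) (fun i _ => h1 i) h2 h3
    rcases hc' with hc' | hc'
    · exact ⟨A', B', hAB', hsum', Or.inl hc'⟩
    · exfalso
      have p1 := sum_odd_par A' (fun i hi => hRo i (hA' hi))
      have p2 := sum_odd_par B' (fun i hi => hRo i (hB' hi))
      omega
  rcases lt_trichotomy (cx x R 1) (cx y R 1) with hlt | heq | hgt
  · exact hsub y x (fun i => by have := hxy i; omega) (fun k hk => (hbR k hk).symm) hlt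
  · have hball : ∀ k, 1 ≤ k → cx x R k = cx y R k := by
      intro k hk
      rcases Nat.lt_or_ge k 2 with h | h
      · have : k = 1 := by omega
        subst this; exact heq
      · exact hbR k h
    let A' := R.filter (fun i => x i % 2 = 1)
    let B' := R.filter (fun i => ¬ x i % 2 = 1)
    have hdisj : Disjoint A' B' := Finset.disjoint_filter_filter_not _ _ _
    have huni : A' ∪ B' = R := Finset.filter_union_filter_not_eq _ _
    have hA'R : A' ⊆ R := Finset.filter_subset _ _
    have hB'R : B' ⊆ R := Finset.filter_subset _ _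
    have g1 := sum_eq_of_cx hball (fun k => if k % 2 = 1 then k else 0)
    have g2 := sum_eq_of_cx hball (fun k => if k % 2 = 1 then 0 else k)
    have g3 := sum_eq_of_cx hball (fun k => if k % 2 = 1 then 1 else 0)
    have hpar : ∀ i ∈ R, (x i % 2 = 1 ↔ ¬ y i % 2 = 1) := by
      intro i hi
      have h1 := hRo i hi
      have h2 := hxy i
      rw [Nat.odd_iff] at h1
      omega
    have s1 : ∑ i ∈ A', d i = ∑ i ∈ R, (if x i % 2 = 1 then x i else 0) +
        ∑ i ∈ R, (if y i % 2 = 1 then 0 else y i) := by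
      rw [Finset.sum_filter, ← Finset.sum_add_distrib]
      refine Finset.sum_congr rfl (fun i hi => ?_)
      have h1 := hpar i hi
      have h2 := hxy i
      by_cases h : x i % 2 = 1
      · simp only [h, if_true, h1.1 h, if_false]; omega
      · have h3 : y i % 2 = 1 := by by_contra h4; exact h (h1.2 h4)
        simp [h, h3]
    have s2 : ∑ i ∈ B', d i = ∑ i ∈ R, (if x i % 2 = 1 then 0 else x i) +
        ∑ i ∈ R, (if y i % 2 = 1 then y i else 0) := by
      rw [Finset.sum_filter, ← Finset.sum_add_distrib]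
      refine Finset.sum_congr rfl (fun i hi => ?_)
      have h1 := hpar i hi
      have h2 := hxy i
      by_cases h : x i % 2 = 1
      · simp [h, h1.1 h]
      · have h3 : y i % 2 = 1 := by by_contra h4; exact h (h1.2 h4)
        simp only [h, not_false_eq_true, if_false, h3, if_true]; omega
    have s3 : A'.card = ∑ i ∈ R, (if x i % 2 = 1 then 1 else 0) := by
      rw [Finset.card_filter]
    have s4 : B'.card = ∑ i ∈ R, (if y i % 2 = 1 then 1 else 0) := by
      rw [Finset.card_filter]
      refine Finset.sum_congr rfl (fun i hi => ?_)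
      have h1 := hpar i hi
      by_cases h : x i % 2 = 1
      · simp only [h, not_true, if_false, h1.1 h]
      · have h3 : y i % 2 = 1 := by by_contra h4; exact h (h1.2 h4)
        simp only [h, not_false_eq_true, h3, if_true]
    have hRAB : ∀ i ∈ R, i ∉ A ∪ B := fun i hi => (Finset.mem_sdiff.1 hi).2
    have dA : Disjoint A A' := by
      rw [Finset.disjoint_left]
      intro i hi hi'
      exact hRAB i (hA'R hi') (Finset.mem_union_left _ hi)
    have dB : Disjoint B B' := by
      rw [Finset.disjoint_left]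
      intro i hi hi'
      exact hRAB i (hB'R hi') (Finset.mem_union_right _ hi)
    refine ⟨A ∪ A', B ∪ B', ?_, ?_, Or.inr ⟨?_, Or.inl ?_⟩⟩
    · rw [Finset.disjoint_union_left, Finset.disjoint_union_right, Finset.disjoint_union_right]
      refine ⟨⟨hAB, ?_⟩, ?_, hdisj⟩
      · rw [Finset.disjoint_left]
        intro i hi hi'
        exact hRAB i (hB'R hi') (Finset.mem_union_left _ hi)
      · rw [Finset.disjoint_left]
        intro i hi hi'
        exact hRAB i (hA'R hi) (Finset.mem_union_right _ hi')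
    · rw [Finset.sum_union dA, Finset.sum_union dB, s1, s2]
      omega
    · rw [Finset.card_union_of_disjoint dA, Finset.card_union_of_disjoint dB, s3, s4]
      omega
    · intro i
      by_cases hi : i ∈ A ∪ B
      · rcases Finset.mem_union.1 hi with h | h
        · simp [h]
        · simp [h]
      · have : i ∈ A' ∪ B' := by rw [huni]; simp [hR]; simpa using hi
        rcases Finset.mem_union.1 this with h | h
        · exact Finset.mem_union_left _ (Finset.mem_union_right _ h)
        · exact Finset.mem_union_right _ (Finset.mem_union_right _ h)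
  · exact hsub x y hxy hbR hgt

theorem cond_of_bal [Fintype I] {d x y : I → ℕ} (hxy : ∀ i, x i + y i = d i)
    (hbal : ∀ k, 2 ≤ k → cx x univ k = cx y univ k)
    (hD : (cx x univ 1 + cx y univ 1) % 2 = 1) : Cond d := by
  rcases lt_trichotomy (cx x univ 1) (cx y univ 1) with h | h | h
  · exact cond_of_lt (x := y) (y := x) (fun i => by have := hxy i; omega)
      (fun k hk => (hbal k hk).symm) h
  · omega
  · exact cond_of_lt hxy hbal h

end Pool.Agent.W_e8e3a0.Num49
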