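import Pool.Agent.W_e8e3a0.Defs49
import Pool.Agent.W_e8e3a0.Nec49

namespace Pool.Agent.W_e8e3a0

open Finset Num49

variable {V : Type} [Fintype V]

/-- the vertices off the spine -/
noncomputable def offSpine {s : ℕ} (v : Fin s → V) : Finset V := by
  classical exact Finset.univ.filter (fun u => ∀ i, u ≠ v i)

theorem mem_offSpine {s : ℕ} {v : Fin s → V} {u : V} : u ∈ offSpine v ↔ ∀ i, u ≠ v i := by
  classical
  unfold offSpine
  simp

theorem sum_split {s : ℕ} {v : Fin s → V} (hv : Function.Injective v) (F : V → ℕ) :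
    ∑ u, F u = ∑ i, F (v i) + ∑ u ∈ offSpine v, F u := by
  classical
  have h1 : Disjoint (Finset.univ.image v) (offSpine v) := by
    rw [Finset.disjoint_left]
    intro u hu hu'
    obtain ⟨i, _, rfl⟩ := Finset.mem_image.1 hu
    exact mem_offSpine.1 hu' i rfl
  have h2 : (Finset.univ : Finset V) = Finset.univ.image v ∪ offSpine v := by
    ext u
    simp only [Finset.mem_univ, Finset.mem_union, Finset.mem_image, true_and, true_iff]
    by_cases h : ∃ i, v i = u
    · exact Or.inl h
    · right
      rw [mem_offSpine]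
      intro i hi
      exact h ⟨i, hi.symm⟩
  rw [h2, Finset.sum_union h1, Finset.sum_image (fun i _ j _ h => hv h)]

open Classical in
theorem deg_eq_sum (G : SimpleGraph V) (u : V) : deg G u = ∑ w, if G.Adj u w then 1 else 0 := by
  unfold deg
  rw [Finset.card_filter]

theorem deg_add {G G₁ G₂ : SimpleGraph V} (h : G₁ ⊔ G₂ = G) (hd : G₁ ⊓ G₂ = ⊥) (u : V) :
    deg G u = deg G₁ u + deg G₂ u := by
  classical
  rw [deg_eq_sum, deg_eq_sum, deg_eq_sum, ← Finset.sum_add_distrib]
  refine Finset.sum_congr rfl (fun w _ => ?_)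
  have h1 : G.Adj u w ↔ G₁.Adj u w ∨ G₂.Adj u w := by rw [← h]; exact SimpleGraph.sup_adj _ _ _ _
  have h2 : ¬ (G₁.Adj u w ∧ G₂.Adj u w) := by
    intro h3
    have h4 : (G₁ ⊓ G₂).Adj u w := (SimpleGraph.inf_adj _ _ _ _).2 h3
    rw [hd] at h4
    exact h4
  by_cases a : G₁.Adj u w <;> by_cases b : G₂.Adj u w <;> simp_all

theorem deg_leaf {G : SimpleGraph V} {s : ℕ} {v : Fin s → V} (h : IsSpine G v) {u : V}
    (hu : u ∈ offSpine v) : deg G u = 1 := by
  classical
  obtain ⟨i, hi⟩ := h.leaf u (mem_offSpine.1 hu)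
  unfold deg
  rw [Finset.card_eq_one]
  exact ⟨v i, by ext w; simp [hi]⟩

theorem handshake (G : SimpleGraph V) : ∑ u, deg G u = 2 * G.edgeSet.ncard := by
  classical
  have h := SimpleGraph.sum_degrees_eq_twice_card_edges G
  rw [Set.ncard_eq_toFinset_card']
  have e : G.edgeSet.toFinset = G.edgeFinset := rfl
  rw [e, ← h]
  refine Finset.sum_congr rfl (fun u _ => ?_)
  unfold deg
  rw [← SimpleGraph.card_neighborFinset_eq_degree]
  congr 1
  ext w
  simp

/-- spine edges, counted twice -/
theorem sum_path (s : ℕ) (P : ℕ → Prop) [DecidablePred P] :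
    ∑ i : Fin s, ∑ j : Fin s, (if ((i : ℕ) + 1 = j ∧ P i) ∨ ((j : ℕ) + 1 = i ∧ P j) then 1 else 0)
      = 2 * ∑ i ∈ range (s - 1), if P i then 1 else 0 := by
  have h1 : ∀ i j : Fin s,
      (if ((i : ℕ) + 1 = j ∧ P i) ∨ ((j : ℕ) + 1 = i ∧ P j) then 1 else 0)
      = (if ((i : ℕ) + 1 = j ∧ P i) then 1 else 0) + (if ((j : ℕ) + 1 = i ∧ P j) then 1 else 0) := by
    intro i j
    by_cases a : ((i : ℕ) + 1 = j ∧ P i) <;> by_cases b : ((j : ℕ) + 1 = i ∧ P j)
    · omega
    · simp [a, b]
    · simp [a, b]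
    · simp [a, b]
  have h2 : ∑ i : Fin s, ∑ j : Fin s, (if ((i : ℕ) + 1 = j ∧ P i) then 1 else 0)
      = ∑ i ∈ range (s - 1), if P i then 1 else 0 := by
    have h3 : ∀ i : Fin s, ∑ j : Fin s, (if ((i : ℕ) + 1 = j ∧ P i) then 1 else 0)
        = if ((i : ℕ) + 1 < s ∧ P i) then 1 else 0 := by
      intro i
      by_cases h : (i : ℕ) + 1 < s
      · rw [Finset.sum_eq_single ⟨i + 1, h⟩]
        · simp [h]
        · intro j _ hj
          rw [if_neg]
          rintro ⟨h4, _⟩
          exact hj (Fin.ext h4.symm)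
        · intro hn; exact absurd (Finset.mem_univ _) hn
      · rw [if_neg (fun h4 => h h4.1)]
        refine Finset.sum_eq_zero (fun j _ => if_neg ?_)
        rintro ⟨h4, _⟩
        have := j.2
        omega
    rw [Finset.sum_congr rfl (fun i _ => h3 i),
      ← Finset.sum_range (fun i => if (i + 1 < s ∧ P i) then 1 else 0)]
    rcases Nat.eq_zero_or_pos s with hs | hs
    · subst hs; simp
    · obtain ⟨t, rfl⟩ : ∃ t, s = t + 1 := ⟨s - 1, by omega⟩
      rw [Finset.sum_range_succ]
      simp only [Nat.add_sub_cancel, lt_irrefl, false_and, if_false, add_zero]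
      refine Finset.sum_congr rfl (fun i hi => ?_)
      have := Finset.mem_range.1 hi
      by_cases h : P i
      · rw [if_pos ⟨by omega, h⟩, if_pos h]
      · rw [if_neg (fun h4 => h h4.2), if_neg h]
  simp only [h1, Finset.sum_add_distrib]
  rw [h2]
  have h4 : ∑ i : Fin s, ∑ j : Fin s, (if ((j : ℕ) + 1 = i ∧ P j) then 1 else 0)
      = ∑ i ∈ range (s - 1), if P i then 1 else 0 := by
    rw [Finset.sum_comm]; exact h2
  rw [h4]
  ring

/-- sum of the spine degrees -/
theorem sum_spine {G : SimpleGraph V} {s : ℕ} {v : Fin s → V} (h : IsSpine G v) :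
    ∑ i, deg G (v i) = 2 * (s - 1) + (offSpine v).card := by
  classical
  have h1 : ∀ i, deg G (v i) = ∑ j, (if G.Adj (v i) (v j) then 1 else 0) +
      ∑ u ∈ offSpine v, (if G.Adj (v i) u then 1 else 0) := by
    intro i
    rw [deg_eq_sum, sum_split h.inj]
  simp only [h1, Finset.sum_add_distrib]
  congr 1
  · have h2 := sum_path s (fun _ => True)
    simp only [and_true, if_true, Finset.sum_const, Finset.card_range, smul_eq_mul, mul_one] at h2
    rw [← h2]
    refine Finset.sum_congr rfl (fun i _ => Finset.sum_congr rfl (fun j _ => ?_))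
    rw [if_congr (h.path i j) rfl rfl]
  · rw [Finset.sum_comm, Finset.card_eq_sum_ones]
    refine Finset.sum_congr rfl (fun u hu => ?_)
    obtain ⟨i, hi⟩ := h.leaf u (mem_offSpine.1 hu)
    rw [Finset.sum_eq_single i]
    · rw [if_pos]
      exact ((hi (v i)).2 rfl).symm
    · intro j _ hj
      rw [if_neg]
      intro h4
      exact hj (h.inj ((hi (v j)).1 h4.symm))
    · intro hn; exact absurd (Finset.mem_univ _) hn

theorem edges_eq {G : SimpleGraph V} {s : ℕ} {v : Fin s → V} (h : IsSpine G v) :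
    G.edgeSet.ncard = (s - 1) + (offSpine v).card := by
  have h1 := handshake G
  rw [sum_split h.inj, sum_spine h, Finset.sum_congr rfl (fun u hu => deg_leaf h hu)] at h1
  simp only [Finset.sum_const, smul_eq_mul, mul_one] at h1
  omega

theorem map_sum {f g : V → ℕ} (h : Multiset.map f Finset.univ.val = Multiset.map g Finset.univ.val)
    (F : ℕ → ℕ) : ∑ u, F (f u) = ∑ u, F (g u) := by
  have h1 := congrArg (fun m => (Multiset.map F m).sum) h
  simp only [Multiset.map_map, Function.comp_def] at h1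
  exact h1

/-- necessity -/
theorem necessary {G : SimpleGraph V} {s : ℕ} {v : Fin s → V} (hs : 0 < s) (h : IsSpine G v)
    (hG : Splittable G) :
    Even G.edgeSet.ncard ∧ (Odd s ∨ Cond (fun i => deg G (v i))) := by
  classical
  obtain ⟨G₁, G₂, hsup, hinf, hmap⟩ := hG
  have hadd := deg_add hsup hinf
  have hev : Even G.edgeSet.ncard := by
    have h1 := handshake G
    have h2 := handshake G₁
    have h3 := map_sum hmap id
    simp only [id, hadd, Finset.sum_add_distrib] at h1 h3
    exact ⟨G₁.edgeSet.ncard, by omega⟩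
  refine ⟨hev, ?_⟩
  rcases Nat.even_or_odd s with hse | hso
  · right
    have hleaf : ∀ u ∈ offSpine v, deg G₁ u + deg G₂ u = 1 := fun u hu => by
      rw [← hadd, deg_leaf h hu]
    refine cond_of_bal (x := fun i => deg G₁ (v i)) (y := fun i => deg G₂ (v i))
      (fun i => (hadd (v i)).symm) ?_ ?_
    · intro k hk
      have h1 := map_sum hmap (fun t => if t = k then 1 else 0)
      rw [sum_split h.inj, sum_split h.inj] at h1
      have h2 : ∑ u ∈ offSpine v, (if deg G₁ u = k then 1 else 0) = 0 :=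
        Finset.sum_eq_zero (fun u hu => if_neg (by have := hleaf u hu; omega))
      have h3 : ∑ u ∈ offSpine v, (if deg G₂ u = k then 1 else 0) = 0 :=
        Finset.sum_eq_zero (fun u hu => if_neg (by have := hleaf u hu; omega))
      rw [h2, h3] at h1
      simp only [add_zero] at h1
      exact h1
    · have h1 := map_sum hmap (fun t => if t = 1 then 1 else 0)
      rw [sum_split h.inj, sum_split h.inj] at h1
      have h2 : ∑ u ∈ offSpine v, (if deg G₁ u = 1 then 1 else 0) +
          ∑ u ∈ offSpine v, (if deg G₂ u = 1 then 1 else 0) = (offSpine v).card := by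
        rw [← Finset.sum_add_distrib, Finset.card_eq_sum_ones]
        refine Finset.sum_congr rfl (fun u hu => ?_)
        have h3 := hleaf u hu
        by_cases a : deg G₁ u = 1
        · have b : ¬ deg G₂ u = 1 := by omega
          simp [a, b]
        · have b : deg G₂ u = 1 := by omega
          simp [a, b]
      have h3 := edges_eq h
      obtain ⟨r, hr⟩ := hev
      obtain ⟨t, ht⟩ := hse
      show (∑ i ∈ univ, (if deg G₁ (v i) = 1 then 1 else 0) +
        ∑ i ∈ univ, (if deg G₂ (v i) = 1 then 1 else 0)) % 2 = 1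
      omega
  · exact Or.inl hso

end Pool.Agent.W_e8e3a0
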