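import Pool.Agent.W_e8e3a0.ThickM49

namespace Pool.Agent.W_e8e3a0

open Finset Num49

/-- parts with the parity property, all degrees at least three -/
theorem leafy_parts {s : ℕ} (d : Fin s → ℕ) (h3 : ∀ i, 3 ≤ d i)
    (A : Finset (ℕ × ℕ)) (hA1 : ∀ a ∈ A, a.2 ≤ a.1)
    (hA2 : ∀ e, ∑ a ∈ A, (if a.1 = e then (1 : ZMod 2) else 0) =
      ∑ i, (if d i = e then (1 : ZMod 2) else 0))
    (hA3 : ∀ k, 2 ≤ k → ∑ a ∈ A, ((if a.2 = k then (1 : ZMod 2) else 0) +
        (if a.1 - a.2 = k then (1 : ZMod 2) else 0)) = 0)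
    (p : ℕ × ℕ → Fin s) (hp1 : ∀ a ∈ A, d (p a) = a.1)
    (hp2 : ∀ a ∈ A, ∀ b ∈ A, a ≠ b → (p a : ℕ) + 1 < p b ∨ (p b : ℕ) + 1 < p a) :
    (univ.filter (fun i => i ∉ A.image p ∧ d i = 3)).card % 2 = 0 ∧
    ∃ a b : Fin s → ℕ, (∀ i, a i + b i = d i) ∧
      (∀ k, 2 ≤ k → (cx a univ k + cx b univ k) % 2 = 0) ∧
      (∀ i, i ∉ A.image p → (d i = 3 → a i = 1 ∧ b i = 2) ∧
        (d i ≠ 3 → 2 ≤ a i ∧ 2 ≤ b i)) := by
  classical
  have hinj : ∀ a ∈ A, ∀ b ∈ A, p a = p b → a = b := by
    intro a ha b hb hab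
    by_contra hne
    have := hp2 a ha b hb hne
    rw [hab] at this
    omega
  obtain ⟨N, hN1, hN2⟩ : ∃ N, (∀ i ∈ (univ : Finset (Fin s)), d i < N) ∧
      (∀ a ∈ A, a.1 < N) := by
    refine ⟨∑ i, d i + ∑ a ∈ A, a.1 + 1, fun i hi => ?_, fun a ha => ?_⟩
    · have := Finset.single_le_sum (f := d) (fun _ _ => Nat.zero_le _) hi
      omega
    · have := Finset.single_le_sum (f := fun a : ℕ × ℕ => a.1)
        (fun _ _ => Nat.zero_le _) ha
      omega
  -- sums over the non-special vertices vanish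
  have hvan : ∀ H : ℕ → ZMod 2, ∑ i ∈ univ \ A.image p, H (d i) = 0 := by
    intro H
    have h2 : ∑ i ∈ A.image p, H (d i) = ∑ a ∈ A, H a.1 := by
      rw [Finset.sum_image (fun a ha b hb hab => hinj a ha b hb hab)]
      exact Finset.sum_congr rfl (fun a ha => by rw [hp1 a ha])
    have h3 : ∑ i, H (d i) = ∑ a ∈ A, H a.1 := by
      rw [sum_by_label univ d H N hN1, sum_by_label A (fun a => a.1) H N hN2]
      exact Finset.sum_congr rfl (fun e _ => by rw [hA2 e])
    have h6 := Finset.sum_sdiff (f := fun i => H (d i)) (Finset.subset_univ (A.image p))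
    rw [h2, h3] at h6
    exact add_eq_right.1 h6
  refine ⟨?_, ?_⟩
  · have h1 := hvan (fun e => if e = 3 then 1 else 0)
    have h2 : (((univ.filter (fun i => i ∉ A.image p ∧ d i = 3)).card : ℕ) : ZMod 2) = 0 := by
      rw [← h1, Finset.card_filter]
      push_cast
      rw [← Finset.sum_sdiff (Finset.subset_univ (A.image p))]
      have h3 : ∑ i ∈ A.image p, (if i ∉ A.image p ∧ d i = 3 then (1 : ZMod 2) else 0) = 0 :=
        Finset.sum_eq_zero (fun i hi => if_neg (fun hh => hh.1 hi))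
      rw [h3, add_zero]
      refine Finset.sum_congr rfl (fun i hi => ?_)
      have := (Finset.mem_sdiff.1 hi).2
      exact if_congr ⟨fun hh => hh.2, fun hh => ⟨this, hh⟩⟩ rfl rfl
    have := (ZMod.natCast_eq_zero_iff _ _).1 h2
    omega
  set c0 : ℕ → ℕ := fun e => if e = 3 then 1 else 2 with hc0
  set α : Fin s → ℕ := fun i => if h : ∃ a ∈ A, p a = i then (Classical.choose h).2
    else c0 (d i) with hα
  have hαA : ∀ a ∈ A, α (p a) = a.2 := by
    intro a ha
    have hex : ∃ b ∈ A, p b = p a := ⟨a, ha, rfl⟩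
    rw [hα]
    dsimp only
    rw [dif_pos hex]
    have h1 := Classical.choose_spec hex
    rw [hinj _ h1.1 a ha h1.2]
  have hαn : ∀ i, i ∉ A.image p → α i = c0 (d i) := by
    intro i hi
    rw [hα]
    dsimp only
    rw [dif_neg]
    rintro ⟨a, ha, rfl⟩
    exact hi (Finset.mem_image_of_mem p ha)
  have hαle : ∀ i, α i ≤ d i := by
    intro i
    by_cases hi : i ∈ A.image p
    · obtain ⟨a, ha, rfl⟩ := Finset.mem_image.1 hi
      rw [hαA a ha, hp1 a ha]
      exact hA1 a ha
    · rw [hαn i hi, hc0]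
      have := h3 i
      dsimp only
      split_ifs <;> omega
  refine ⟨α, fun i => d i - α i, fun i => by have := hαle i; show α i + (d i - α i) = d i; omega,
    ?_, ?_⟩
  · intro k hk
    have hcast : ((cx α univ k + cx (fun i => d i - α i) univ k : ℕ) : ZMod 2) = 0 := by
      unfold cx
      push_cast
      rw [← Finset.sum_add_distrib]
      set F : Fin s → ZMod 2 := fun i => (if α i = k then (1 : ZMod 2) else 0) +
        (if d i - α i = k then (1 : ZMod 2) else 0) with hF
      set H : ℕ → ZMod 2 := fun e => (if c0 e = k then (1 : ZMod 2) else 0) +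
        (if e - c0 e = k then (1 : ZMod 2) else 0) with hH
      show ∑ i, F i = 0
      have h1 : ∑ i ∈ A.image p, F i = 0 := by
        rw [Finset.sum_image (fun a ha b hb hab => hinj a ha b hb hab), ← hA3 k hk]
        refine Finset.sum_congr rfl (fun a ha => ?_)
        rw [hF]
        dsimp only
        rw [hαA a ha, hp1 a ha]
      have h4' : ∑ i ∈ univ \ A.image p, F i = ∑ i ∈ univ \ A.image p, H (d i) := by
        refine Finset.sum_congr rfl (fun i hi => ?_)
        rw [hF, hH]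
        dsimp only
        rw [hαn i (Finset.mem_sdiff.1 hi).2]
      have h5 := Finset.sum_sdiff (f := F) (Finset.subset_univ (A.image p))
      rw [h1, add_zero, h4', hvan H] at h5
      exact h5.symm
    have := (ZMod.natCast_eq_zero_iff _ _).1 hcast
    omega
  · intro i hi
    have := h3 i
    show (d i = 3 → α i = 1 ∧ d i - α i = 2) ∧ (d i ≠ 3 → 2 ≤ α i ∧ 2 ≤ d i - α i)
    rw [hαn i hi, hc0]
    dsimp only
    constructor
    · intro h; rw [if_pos h]; omega
    · intro h; rw [if_neg h]; omega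

end Pool.Agent.W_e8e3a0
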