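import Pool.Agent.W_e8e3a0.Leafy49

namespace Pool.Agent.W_e8e3a0

open Finset Num49

variable {V : Type} [Fintype V]

theorem card_evens (n : ℕ) : ((range n).filter (fun t => t % 2 = 0)).card = (n + 1) / 2 := by
  induction n with
  | zero => simp
  | succ n ih =>
    rw [Finset.range_add_one, Finset.filter_insert]
    split_ifs with h
    · rw [Finset.card_insert_of_notMem (by simp), ih]
      omega
    · rw [ih]
      omega

/-- vertices whose two spine edges are both in `E` -/
theorem dd_le {s : ℕ} (E W : Finset ℕ) (ρ : ℕ) (hρ : ρ < 2) (hW : ∀ t ∈ E, t % 2 = ρ → t ∈ W) :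
    (univ.filter (fun i : Fin s =>
      2 ≤ (E.filter (fun t => t = (i : ℕ) ∨ t + 1 = i)).card)).card ≤ 2 * W.card := by
  classical
  have hsub : (univ.filter (fun i : Fin s =>
      2 ≤ (E.filter (fun t => t = (i : ℕ) ∨ t + 1 = i)).card)).image (fun i : Fin s => (i : ℕ)) ⊆
      W.biUnion (fun t => ({t, t + 1} : Finset ℕ)) := by
    intro j hj
    obtain ⟨i, hi, rfl⟩ := Finset.mem_image.1 hj
    have h2 := (Finset.mem_filter.1 hi).2
    have hs : E.filter (fun t => t = (i : ℕ) ∨ t + 1 = i) ⊆ ({(i : ℕ), (i : ℕ) - 1} : Finset ℕ) := by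
      intro t ht
      rw [Finset.mem_insert, Finset.mem_singleton]
      have := (Finset.mem_filter.1 ht).2
      omega
    have hi0 : (i : ℕ) ≠ (i : ℕ) - 1 := by
      intro h0
      rw [← h0, Finset.pair_eq_singleton] at hs
      have := Finset.card_le_card hs
      rw [Finset.card_singleton] at this
      omega
    have hc : ({(i : ℕ), (i : ℕ) - 1} : Finset ℕ).card = 2 := Finset.card_pair hi0
    have heq := Finset.eq_of_subset_of_card_le hs (by omega)
    have m1 : (i : ℕ) ∈ E := by
      have : (i : ℕ) ∈ E.filter (fun t => t = (i : ℕ) ∨ t + 1 = i) := by rw [heq]; simp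
      exact (Finset.mem_filter.1 this).1
    have m2 : (i : ℕ) - 1 ∈ E := by
      have : (i : ℕ) - 1 ∈ E.filter (fun t => t = (i : ℕ) ∨ t + 1 = i) := by rw [heq]; simp
      exact (Finset.mem_filter.1 this).1
    rw [Finset.mem_biUnion]
    by_cases hp : (i : ℕ) % 2 = ρ
    · exact ⟨i, hW _ m1 hp, by simp⟩
    · refine ⟨(i : ℕ) - 1, hW _ m2 (by omega), ?_⟩
      rw [Finset.mem_insert, Finset.mem_singleton]
      omega
  have h1 := Finset.card_le_card hsub
  rw [Finset.card_image_of_injective _ Fin.val_injective] at h1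
  refine h1.trans (Finset.card_biUnion_le.trans ?_)
  rw [mul_comm, ← smul_eq_mul, ← Finset.sum_const]
  exact Finset.sum_le_sum (fun i _ => Finset.card_insert_le _ _)

theorem cx_two {I : Type} [DecidableEq I] {Q H : Finset I} (hHQ : H ⊆ Q) (u w : ℕ) (k : ℕ)
    (z : I → ℕ) (h1 : ∀ i ∈ H, z i = u) (h2 : ∀ i ∈ Q \ H, z i = w) :
    cx z Q k = (if u = k then H.card else 0) + (if w = k then (Q \ H).card else 0) := by
  unfold cx
  rw [← Finset.sum_sdiff hHQ, add_comm]
  congr 1
  · rw [Finset.sum_congr rfl (fun i hi => by rw [h1 i hi])]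
    by_cases h : u = k
    · simp [h]
    · simp [h]
  · rw [Finset.sum_congr rfl (fun i hi => by rw [h2 i hi])]
    by_cases h : w = k
    · simp [h]
    · simp [h]

theorem leafy_split {G : SimpleGraph V} {s : ℕ} {v : Fin s → V} (h : IsSpine G v)
    (hev : Even G.edgeSet.ncard) (h3 : ∀ i, 3 ≤ deg G (v i)) (P : Finset (Fin s))
    (hP : ∀ i ∈ P, ∀ j ∈ P, i ≠ j → (i : ℕ) + 1 < j ∨ (j : ℕ) + 1 < i)
    (a b : Fin s → ℕ) (hab : ∀ i, a i + b i = deg G (v i))
    (hpar : ∀ k, 2 ≤ k → (cx a univ k + cx b univ k) % 2 = 0)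
    (hn : ∀ i, i ∉ P → (deg G (v i) = 3 → a i = 1 ∧ b i = 2) ∧
      (deg G (v i) ≠ 3 → 2 ≤ a i ∧ 2 ≤ b i))
    (Q : Finset (Fin s)) (hQm : ∀ i, i ∈ Q ↔ i ∉ P ∧ deg G (v i) = 3)
    (hQ2 : Q.card % 2 = 0) (hcard : 9 * P.card + 3 ≤ s)
    (hQc : Q.card = 0 ∨ 20 * P.card + 4 ≤ Q.card) : Splittable G := by
  classical
  set U := univ \ Q with hU
  have hUQ : ∀ (z : Fin s → ℕ) k, cx z univ k = cx z U k + cx z Q k := by
    intro z k
    unfold cx
    exact (Finset.sum_sdiff (Finset.subset_univ Q)).symm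
  have haQ : ∀ i ∈ Q, a i = 1 ∧ b i = 2 := fun i hi =>
    (hn i ((hQm i).1 hi).1).1 ((hQm i).1 hi).2
  have hparU : ∀ k, 2 ≤ k → (cx a U k + cx b U k) % 2 = 0 := by
    intro k hk
    have h1 := hpar k hk
    rw [hUQ a, hUQ b] at h1
    have h2 := cx_two (Finset.Subset.refl Q) 1 0 k a (fun i hi => (haQ i hi).1)
      (fun i hi => by simp at hi)
    have h3' := cx_two (Finset.Subset.refl Q) 2 0 k b (fun i hi => (haQ i hi).2)
      (fun i hi => by simp at hi)
    rw [Finset.sdiff_self, Finset.card_empty] at h2 h3'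
    rw [if_neg (by omega : ¬ 1 = k)] at h2
    split_ifs at h2 h3' <;> omega
  obtain ⟨x0, y0, hsw, hb⟩ := orient U.card U a b rfl hparU
  have hxy0 : ∀ i, x0 i + y0 i = deg G (v i) := by
    intro i
    have h1 := hab i
    rcases hsw i with ⟨h2, h3⟩ | ⟨h2, h3⟩ <;> omega
  have hbig0 : ∀ i, i ∉ P → i ∉ Q → 2 ≤ x0 i ∧ 2 ≤ y0 i := by
    intro i hi hiQ
    have h1 := (hn i hi).2 (fun hh => hiQ ((hQm i).2 ⟨hi, hh⟩))
    rcases hsw i with ⟨h2, h3⟩ | ⟨h2, h3⟩ <;> omega
  have hzle : ∀ z : Fin s → ℕ, (∀ i, i ∉ P → i ∉ Q → 2 ≤ z i) → cx z U 0 ≤ P.card := by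
    intro z hz
    unfold cx
    rw [← Finset.card_filter]
    refine Finset.card_le_card (fun i hi => ?_)
    obtain ⟨h1, h2⟩ := Finset.mem_filter.1 hi
    by_contra hno
    have := hz i hno (Finset.mem_sdiff.1 h1).2
    omega
  have z1 := hzle x0 (fun i h1 h2 => (hbig0 i h1 h2).1)
  have z2' := hzle y0 (fun i h1 h2 => (hbig0 i h1 h2).2)
  -- the final parts for a given half of `Q`
  have key : ∀ H ⊆ Q, 2 * H.card = Q.card →
      (∀ i, (if i ∈ Q then (if i ∈ H then 1 else 2) else x0 i) +
        (if i ∈ Q then (if i ∈ H then 2 else 1) else y0 i) = deg G (v i)) ∧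
      (∀ k, 2 ≤ k → cx (fun i => if i ∈ Q then (if i ∈ H then 1 else 2) else x0 i) univ k =
        cx (fun i => if i ∈ Q then (if i ∈ H then 2 else 1) else y0 i) univ k) ∧
      cx (fun i => if i ∈ Q then (if i ∈ H then 1 else 2) else x0 i) univ 0 = cx x0 U 0 ∧
      cx (fun i => if i ∈ Q then (if i ∈ H then 2 else 1) else y0 i) univ 0 = cx y0 U 0 := by
    intro H hHQ hH2
    have hsd : (Q \ H).card = H.card := by
      rw [Finset.card_sdiff_of_subset hHQ]; omega
    have f1 : ∀ k, cx (fun i => if i ∈ Q then (if i ∈ H then 1 else 2) else x0 i) univ k =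
        cx x0 U k + ((if 1 = k then H.card else 0) + (if 2 = k then H.card else 0)) := by
      intro k
      rw [hUQ, cx_congr (x' := x0) (fun i hi => if_neg (Finset.mem_sdiff.1 hi).2) k,
        cx_two hHQ 1 2 k _ (fun i hi => by
          show (if i ∈ Q then (if i ∈ H then 1 else 2) else x0 i) = 1
          rw [if_pos (hHQ hi), if_pos hi]) (fun i hi => by
          show (if i ∈ Q then (if i ∈ H then 1 else 2) else x0 i) = 2
          rw [if_pos (Finset.mem_sdiff.1 hi).1, if_neg (Finset.mem_sdiff.1 hi).2]), hsd]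
    have f2 : ∀ k, cx (fun i => if i ∈ Q then (if i ∈ H then 2 else 1) else y0 i) univ k =
        cx y0 U k + ((if 2 = k then H.card else 0) + (if 1 = k then H.card else 0)) := by
      intro k
      rw [hUQ, cx_congr (x' := y0) (fun i hi => if_neg (Finset.mem_sdiff.1 hi).2) k,
        cx_two hHQ 2 1 k _ (fun i hi => by
          show (if i ∈ Q then (if i ∈ H then 2 else 1) else y0 i) = 2
          rw [if_pos (hHQ hi), if_pos hi]) (fun i hi => by
          show (if i ∈ Q then (if i ∈ H then 2 else 1) else y0 i) = 1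
          rw [if_pos (Finset.mem_sdiff.1 hi).1, if_neg (Finset.mem_sdiff.1 hi).2]), hsd]
    refine ⟨?_, ?_, ?_, ?_⟩
    · intro i
      by_cases hi : i ∈ Q
      · rw [if_pos hi, if_pos hi, ((hQm i).1 hi).2]
        split_ifs <;> rfl
      · rw [if_neg hi, if_neg hi]; exact hxy0 i
    · intro k hk
      rw [f1, f2, hb k hk]
      omega
    · rw [f1]; simp
    · rw [f2]; simp
  -- parity of the number of zeros
  have e1 := edges_eq h
  have e2 := sum_spine h
  obtain ⟨m, hm⟩ := hev
  have hpz : (s - 1 + cx x0 U 0 + cx y0 U 0) % 2 = 0 := by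
    obtain ⟨H0, hH0, hH0c⟩ := Finset.exists_subset_card_eq (s := Q) (n := Q.card / 2) (by omega)
    obtain ⟨k1, k2, k3, k4⟩ := key H0 hH0 (by omega)
    have e3 := sum_diff k2
    have e4 := zero_diff k2
    have e5 : ∑ i, (if i ∈ Q then (if i ∈ H0 then 1 else 2) else x0 i) +
        ∑ i, (if i ∈ Q then (if i ∈ H0 then 2 else 1) else y0 i) =
        2 * (s - 1) + (offSpine v).card := by
      rw [← Finset.sum_add_distrib, ← e2]
      exact Finset.sum_congr rfl (fun i _ => k1 i)
    rw [k3, k4] at e4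
    omega
  set zx := cx x0 U 0 with hzx
  set zy := cx y0 U 0 with hzy
  set P1 := P.filter (fun i => x0 i ≤ 1) with hP1
  set P2 := P.filter (fun i => ¬ x0 i ≤ 1) with hP2
  have hPc : P1.card + P2.card = P.card := Finset.card_filter_add_card_filter_not _
  have hd1 := card_inc P1
  have hd2 := card_inc P2
  have hdis : Disjoint (inc P1) (inc P2) := by
    rw [Finset.disjoint_left]
    intro t h1 h2
    obtain ⟨_, i, hi, hti⟩ := Finset.mem_filter.1 h1
    obtain ⟨_, j, hj, htj⟩ := Finset.mem_filter.1 h2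
    obtain ⟨hi1, hi2⟩ := Finset.mem_filter.1 hi
    obtain ⟨hj1, hj2⟩ := Finset.mem_filter.1 hj
    have hij : i ≠ j := by rintro rfl; exact hj2 hi2
    have := hP i hi1 j hj1 hij
    omega
  have hs1 : inc P1 ∪ inc P2 ⊆ range (s - 1) :=
    Finset.union_subset (Finset.filter_subset _ _) (Finset.filter_subset _ _)
  set R := range (s - 1) \ (inc P1 ∪ inc P2) with hR
  have hRc : R.card + ((inc P1).card + (inc P2).card) = s - 1 := by
    have h1 := Finset.card_sdiff_add_card_eq_card hs1
    rw [Finset.card_union_of_disjoint hdis, Finset.card_range] at h1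
    exact h1
  obtain ⟨r, hr1, hr2⟩ : ∃ r, (inc P2).card + r + zx = (inc P1).card + (R.card - r) + zy ∧
      r ≤ R.card := by
    refine ⟨((inc P1).card + R.card + zy - (inc P2).card - zx) / 2, ?_⟩
    omega
  set E0 := R.filter (fun t => t % 2 = 0) with hE0
  have hE0R : E0 ⊆ R := Finset.filter_subset _ _
  have hE0a : 2 * E0.card ≤ s := by
    have h1 : E0.card ≤ ((range (s - 1)).filter (fun t => t % 2 = 0)).card :=
      Finset.card_le_card (Finset.filter_subset_filter _ Finset.sdiff_subset)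
    rw [card_evens] at h1
    omega
  have hE0b : s - 1 ≤ 2 * E0.card + 2 * ((inc P1).card + (inc P2).card) := by
    have h1 : (range (s - 1)).filter (fun t => t % 2 = 0) ⊆ E0 ∪ (inc P1 ∪ inc P2) := by
      intro t ht
      obtain ⟨h1, h2⟩ := Finset.mem_filter.1 ht
      rw [Finset.mem_union]
      by_cases h3 : t ∈ inc P1 ∪ inc P2
      · exact Or.inr h3
      · exact Or.inl (Finset.mem_filter.2 ⟨Finset.mem_sdiff.2 ⟨h1, h3⟩, h2⟩)
    have h2 := Finset.card_le_card h1
    have h3 := Finset.card_union_le E0 (inc P1 ∪ inc P2)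
    rw [Finset.card_union_of_disjoint hdis] at h3
    rw [card_evens] at h2
    omega
  obtain ⟨RC, hRC1, hRC2, hRC3, hRC4⟩ : ∃ RC ⊆ R, RC.card = r ∧ (RC \ E0).card ≤ 3 * P.card + 1 ∧
      (E0 \ RC).card ≤ 3 * P.card + 1 := by
    rcases Nat.lt_or_ge E0.card r with hlt | hge
    · obtain ⟨u, hu1, hu2, hu3⟩ := Finset.exists_subsuperset_card_eq hE0R hlt.le hr2
      refine ⟨u, hu2, hu3, ?_, ?_⟩
      · rw [Finset.card_sdiff_of_subset hu1, hu3]
        omega
      · rw [Finset.sdiff_eq_empty_iff_subset.2 hu1, Finset.card_empty]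
        omega
    · obtain ⟨u, hu1, hu3⟩ := Finset.exists_subset_card_eq hge
      refine ⟨u, hu1.trans hE0R, hu3, ?_, ?_⟩
      · rw [Finset.sdiff_eq_empty_iff_subset.2 hu1, Finset.card_empty]
        omega
      · rw [Finset.card_sdiff_of_subset hu1, hu3]
        omega
  have hdR1 : Disjoint (inc P1) R := by
    rw [Finset.disjoint_left]
    intro t h1 h2
    exact (Finset.mem_sdiff.1 h2).2 (Finset.mem_union_left _ h1)
  have hdR2 : Disjoint (inc P2) R := by
    rw [Finset.disjoint_left]
    intro t h1 h2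
    exact (Finset.mem_sdiff.1 h2).2 (Finset.mem_union_right _ h1)
  have hCc : (inc P2 ∪ RC).card = (inc P2).card + r := by
    rw [Finset.card_union_of_disjoint (Finset.disjoint_of_subset_right hRC1 hdR2), hRC2]
  have hDc : (inc P1 ∪ (R \ RC)).card = (inc P1).card + (R.card - r) := by
    rw [Finset.card_union_of_disjoint (Finset.disjoint_of_subset_right Finset.sdiff_subset hdR1),
      Finset.card_sdiff_of_subset hRC1, hRC2]
  have hCr : inc P2 ∪ RC ⊆ range (s - 1) :=
    Finset.union_subset (Finset.filter_subset _ _)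
      (hRC1.trans Finset.sdiff_subset)
  have hDr : inc P1 ∪ (R \ RC) ⊆ range (s - 1) :=
    Finset.union_subset (Finset.filter_subset _ _)
      (Finset.sdiff_subset.trans Finset.sdiff_subset)
  have hCD : Disjoint (inc P2 ∪ RC) (inc P1 ∪ (R \ RC)) := by
    rw [Finset.disjoint_left]
    intro t h1 h2
    rw [Finset.mem_union] at h1 h2
    rcases h1 with h1 | h1 <;> rcases h2 with h2 | h2
    · exact (Finset.disjoint_left.1 hdis) h2 h1
    · exact (Finset.disjoint_left.1 hdR2) h1 (Finset.mem_sdiff.1 h2).1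
    · exact (Finset.disjoint_left.1 hdR1) h2 (hRC1 h1)
    · exact (Finset.mem_sdiff.1 h2).2 h1
  set C := inc P2 ∪ RC with hC
  set D := inc P1 ∪ (R \ RC) with hD
  set CC := univ.filter (fun i : Fin s =>
      2 ≤ (C.filter (fun t => t = (i : ℕ) ∨ t + 1 = i)).card) with hCC
  set DD := univ.filter (fun i : Fin s =>
      2 ≤ (D.filter (fun t => t = (i : ℕ) ∨ t + 1 = i)).card) with hDD
  have hCCc : CC.card ≤ 10 * P.card + 2 := by
    have h1 := dd_le (s := s) C (inc P2 ∪ (RC \ E0)) 1 (by norm_num) (fun t ht h1 => by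
      rcases Finset.mem_union.1 ht with ht | ht
      · exact Finset.mem_union_left _ ht
      · refine Finset.mem_union_right _ (Finset.mem_sdiff.2 ⟨ht, fun h2 => ?_⟩)
        have := (Finset.mem_filter.1 h2).2
        omega)
    have h2 := Finset.card_union_le (inc P2) (RC \ E0)
    have h1' : CC.card ≤ 2 * (inc P2 ∪ (RC \ E0)).card := by convert h1
    omega
  have hDDc : DD.card ≤ 10 * P.card + 2 := by
    have h1 := dd_le (s := s) D (inc P1 ∪ (E0 \ RC)) 0 (by norm_num) (fun t ht h1 => by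
      rcases Finset.mem_union.1 ht with ht | ht
      · exact Finset.mem_union_left _ ht
      · obtain ⟨h2, h3⟩ := Finset.mem_sdiff.1 ht
        exact Finset.mem_union_right _ (Finset.mem_sdiff.2 ⟨Finset.mem_filter.2 ⟨h2, h1⟩, h3⟩))
    have h2 := Finset.card_union_le (inc P1) (E0 \ RC)
    have h1' : DD.card ≤ 2 * (inc P1 ∪ (E0 \ RC)).card := by convert h1
    omega
  have hCDi : ∀ i : Fin s, (C.filter (fun t => t = (i : ℕ) ∨ t + 1 = i)).card +
      (D.filter (fun t => t = (i : ℕ) ∨ t + 1 = i)).card ≤ 2 := by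
    intro i
    have h1 := inc_le (C ∪ D) (i : ℕ)
    rw [Finset.filter_union, Finset.card_union_of_disjoint
      (Finset.disjoint_filter_filter hCD)] at h1
    exact h1
  -- choose the half of `Q`
  obtain ⟨H, hH1, hH2, hH3⟩ : ∃ H, DD ∩ Q ⊆ H ∧ H ⊆ Q \ CC ∧ H.card = Q.card / 2 := by
    refine Finset.exists_subsuperset_card_eq ?_ ?_ ?_
    · intro i hi
      obtain ⟨h1, h2⟩ := Finset.mem_inter.1 hi
      refine Finset.mem_sdiff.2 ⟨h2, fun h3 => ?_⟩
      have h4 := (Finset.mem_filter.1 h1).2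
      have h5 := (Finset.mem_filter.1 h3).2
      have := hCDi i
      omega
    · have h1 := Finset.card_le_card (Finset.inter_subset_left (s₁ := DD) (s₂ := Q))
      have h2 := Finset.card_le_card (Finset.inter_subset_right (s₁ := DD) (s₂ := Q))
      omega
    · have h1 := Finset.le_card_sdiff CC Q
      omega
  have hHQ : H ⊆ Q := hH2.trans Finset.sdiff_subset
  obtain ⟨k1, k2, k3, k4⟩ := key H hHQ (by omega)
  rw [formZ h]
  refine ⟨_, _, C, D, k1, ?_, hCD, ?_, ?_, ?_⟩
  · intro k hk
    rw [Finset.card_filter, Finset.card_filter]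
    exact k2 k hk
  · refine Finset.Subset.antisymm (Finset.union_subset hCr hDr) ?_
    intro t ht
    rw [Finset.mem_union, hC, hD, Finset.mem_union, Finset.mem_union]
    by_cases h1 : t ∈ inc P1
    · exact Or.inr (Or.inl h1)
    · by_cases h2 : t ∈ inc P2
      · exact Or.inl (Or.inl h2)
      · have h3 : t ∈ R := Finset.mem_sdiff.2 ⟨ht, fun hh => by
          rcases Finset.mem_union.1 hh with hh | hh
          · exact h1 hh
          · exact h2 hh⟩
        by_cases h5 : t ∈ RC
        · exact Or.inl (Or.inr h5)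
        · exact Or.inr (Or.inr (Finset.mem_sdiff.2 ⟨h3, h5⟩))
  · intro i
    have k1' := inc_le C (i : ℕ)
    have k2' := inc_le D (i : ℕ)
    have k3' := hxy0 i
    have k4' := h3 i
    by_cases hiQ : i ∈ Q
    · rw [if_pos hiQ, if_pos hiQ]
      by_cases hiH : i ∈ H
      · rw [if_pos hiH, if_pos hiH]
        refine ⟨?_, k2'⟩
        by_contra hno
        exact (Finset.mem_sdiff.1 (hH2 hiH)).2
          (Finset.mem_filter.2 ⟨Finset.mem_univ _, by omega⟩)
      · rw [if_neg hiH, if_neg hiH]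
        refine ⟨k1', ?_⟩
        by_contra hno
        exact hiH (hH1 (Finset.mem_inter.2
          ⟨Finset.mem_filter.2 ⟨Finset.mem_univ _, by omega⟩, hiQ⟩))
    · rw [if_neg hiQ, if_neg hiQ]
      by_cases hi : i ∈ P
      · by_cases hx1 : x0 i ≤ 1
        · have hiP1 : i ∈ P1 := Finset.mem_filter.2 ⟨hi, hx1⟩
          have hempty : C.filter (fun t => t = (i : ℕ) ∨ t + 1 = i) = ∅ := by
            rw [Finset.filter_eq_empty_iff]
            intro t ht hti
            have h1 := mem_inc hiP1 (hCr ht) hti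
            exact (Finset.disjoint_left.1 hCD) ht (Finset.mem_union_left _ h1)
          rw [hempty, Finset.card_empty]
          exact ⟨Nat.zero_le _, by omega⟩
        · have hiP2 : i ∈ P2 := Finset.mem_filter.2 ⟨hi, hx1⟩
          have hempty : D.filter (fun t => t = (i : ℕ) ∨ t + 1 = i) = ∅ := by
            rw [Finset.filter_eq_empty_iff]
            intro t ht hti
            have h1 := mem_inc hiP2 (hDr ht) hti
            exact (Finset.disjoint_left.1 hCD) (Finset.mem_union_left _ h1) ht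
          rw [hempty, Finset.card_empty]
          exact ⟨by omega, Nat.zero_le _⟩
      · have := hbig0 i hi hiQ
        exact ⟨by omega, by omega⟩
  · rw [hCc, hDc, Finset.card_filter, Finset.card_filter]
    have k3'' : ∑ i, (if (if i ∈ Q then (if i ∈ H then 1 else 2) else x0 i) = 0 then 1 else 0) =
        zx := k3
    have k4'' : ∑ i, (if (if i ∈ Q then (if i ∈ H then 2 else 1) else y0 i) = 0 then 1 else 0) =
        zy := k4
    rw [k3'', k4'']
    exact hr1

end Pool.Agent.W_e8e3a0
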