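import Pool.Agent.W_e8e3a0.Almost49

namespace Pool.Agent.W_e8e3a0

open Finset

theorem exp_seven (a : ℕ) : Real.exp (-(7 * ((a : ℝ) + 1))) ≤ (1 / 2 : ℝ) ^ (10 * (a + 1)) := by
  have h1 : (2 : ℝ) ^ 10 ≤ Real.exp 7 := by
    have h2 : (2.7 : ℝ) ≤ Real.exp 1 := by
      have := Real.exp_one_gt_d9
      linarith
    have h3 : Real.exp 7 = Real.exp 1 ^ 7 := by
      rw [← Real.exp_nat_mul]; norm_num
    rw [h3]
    refine le_trans ?_ (pow_le_pow_left₀ (by norm_num) h2 7)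
    norm_num
  have h2 : Real.exp (-7) ≤ (1 / 2 : ℝ) ^ 10 := by
    rw [Real.exp_neg, one_div, inv_pow]
    exact inv_anti₀ (by positivity) h1
  have h3 : Real.exp (-(7 * ((a : ℝ) + 1))) = Real.exp (-7) ^ (a + 1) := by
    rw [← Real.exp_nat_mul]
    congr 1
    push_cast
    ring
  rw [h3, pow_mul]
  exact pow_le_pow_left₀ (Real.exp_pos _).le h2 _

theorem bad_log (a N : ℕ) [DecidablePred (BadL a)] (h1 : 4 ^ a * (112 * (a + 1)) ≤ N) :
    (((comps N).filter (BadL a)).card : ℝ) ≤ 2 ^ N * (2 * N * (1 / 16 : ℝ) ^ a) := by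
  have hsub : (comps N).filter (BadL a) ⊆
      ((comps N).filter (fun l => ∃ x ∈ l, 4 * a + 1 ≤ x)) ∪
      (Finset.range (2 * a + 1)).biUnion (fun c =>
        (comps N).filter (fun l => l.count (c + 1) < 4 * a + 3)) := by
    intro l hl
    obtain ⟨hl1, hl2⟩ := Finset.mem_filter.1 hl
    rw [Finset.mem_union, Finset.mem_biUnion]
    rcases hl2 with h | ⟨c, hc1, hc2, hc3⟩
    · exact Or.inl (Finset.mem_filter.2 ⟨hl1, h⟩)
    · refine Or.inr ⟨c - 1, Finset.mem_range.2 (by omega), Finset.mem_filter.2 ⟨hl1, ?_⟩⟩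
      have : c - 1 + 1 = c := by omega
      rw [this]; exact hc3
  have hcard := (Finset.card_le_card hsub).trans (Finset.card_union_le _ _)
  have hcard2 := hcard.trans (Nat.add_le_add_left Finset.card_biUnion_le _)
  have hreal : (((comps N).filter (BadL a)).card : ℝ) ≤
      (big (4 * a + 1) N : ℝ) + ∑ c ∈ range (2 * a + 1), (few (c + 1) (4 * a + 3) N : ℝ) := by
    exact_mod_cast hcard2
  refine hreal.trans ?_
  have hN1 : 1 ≤ N := le_trans (Nat.mul_pos (by positivity) (by omega)) h1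
  have hN1' : (1 : ℝ) ≤ N := by exact_mod_cast hN1
  have hN : (4 : ℝ) ^ a * (112 * (a + 1)) ≤ N := by exact_mod_cast h1
  have h16 : (16 : ℝ) ^ a * (1 / 16 : ℝ) ^ a = 1 := by rw [← mul_pow]; norm_num
  have hP : (0 : ℝ) < 2 ^ N := by positivity
  have hbig : (big (4 * a + 1) N : ℝ) ≤ 2 ^ N * (N * (1 / 16 : ℝ) ^ a) := by
    have h3 := big_le (4 * a + 1) (by omega) N
    have h5 : (2 : ℝ) ^ (4 * a + 1) * (big (4 * a + 1) N : ℝ) ≤ N * 2 ^ (N + 1) := by
      exact_mod_cast h3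
    have h6 : (N : ℝ) * 2 ^ (N + 1) = 2 ^ (4 * a + 1) * (2 ^ N * (N * (1 / 16 : ℝ) ^ a)) := by
      have h8 : (2 : ℝ) ^ (4 * a + 1) = 16 ^ a * 2 := by
        rw [pow_succ, pow_mul]; norm_num
      rw [h8, pow_succ]
      linear_combination (- 2 * 2 ^ N * (N : ℝ)) * h16
    rw [h6] at h5
    exact le_of_mul_le_mul_left h5 (by positivity)
  have hfew : ∀ c ∈ range (2 * a + 1), (few (c + 1) (4 * a + 3) N : ℝ) ≤
      2 ^ N * ((1 / 64 : ℝ) ^ a * (1 / 128)) := by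
    intro c hc
    have hc' := Finset.mem_range.1 hc
    have h3 := few_le (c + 1) (4 * a + 3) N (by omega)
    have hy : 7 * ((a : ℝ) + 1) ≤ N * (1 / 2 : ℝ) ^ (c + 1 + 3) := by
      have h4 : (1 / 2 : ℝ) ^ (2 * a + 4) ≤ (1 / 2 : ℝ) ^ (c + 1 + 3) :=
        pow_le_pow_of_le_one (by norm_num) (by norm_num) (by omega)
      have h5 : 7 * ((a : ℝ) + 1) = 4 ^ a * (112 * (a + 1)) * (1 / 2 : ℝ) ^ (2 * a + 4) := by
        have h7 : (4 : ℝ) ^ a * (1 / 4 : ℝ) ^ a = 1 := by rw [← mul_pow]; norm_num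
        have h8 : (1 / 2 : ℝ) ^ (2 * a + 4) = (1 / 4 : ℝ) ^ a / 16 := by
          rw [pow_add, pow_mul]; norm_num
          ring
        rw [h8]
        linear_combination (- 7 * ((a : ℝ) + 1)) * h7
      rw [h5]
      exact mul_le_mul hN h4 (by positivity) (by positivity)
    have h4 : Real.exp (-(N * (1 / 2 : ℝ) ^ (c + 1 + 3))) ≤ (1 / 2 : ℝ) ^ (10 * (a + 1)) :=
      (Real.exp_le_exp.2 (neg_le_neg hy)).trans (exp_seven a)
    refine h3.trans ?_
    have h5 : (2 : ℝ) ^ (4 * a + 3) * (2 ^ N * (1 / 2 : ℝ) ^ (10 * (a + 1))) =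
        2 ^ N * ((1 / 64 : ℝ) ^ a * (1 / 128)) := by
      have h8 : (2 : ℝ) ^ (4 * a + 3) = 16 ^ a * 8 := by
        rw [pow_add, pow_mul]; norm_num
      have h9 : (1 / 2 : ℝ) ^ (10 * (a + 1)) = (1 / 16 : ℝ) ^ a * (1 / 64 : ℝ) ^ a * (1 / 1024) := by
        rw [mul_add, pow_add, pow_mul, ← mul_pow]; norm_num
      rw [h8, h9]
      linear_combination (2 ^ N * (1 / 64 : ℝ) ^ a / 128) * h16
    rw [← h5]
    refine mul_le_mul_of_nonneg_left (mul_le_mul_of_nonneg_left h4 (by positivity)) (by positivity)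
  have hsum := Finset.sum_le_sum hfew
  rw [Finset.sum_const, Finset.card_range, nsmul_eq_mul] at hsum
  have hcnt : ((2 * a + 1 : ℕ) : ℝ) * ((1 / 64 : ℝ) ^ a * (1 / 128)) ≤ (1 / 16 : ℝ) ^ a := by
    have h3 : 2 * a + 1 ≤ 2 * 4 ^ a := by
      have h4 := Nat.lt_pow_self (n := a) (show 1 < 4 by norm_num)
      omega
    have h4 : ((2 * a + 1 : ℕ) : ℝ) ≤ 2 * 4 ^ a := by exact_mod_cast h3
    have h5 : (4 : ℝ) ^ a * (1 / 64 : ℝ) ^ a = (1 / 16 : ℝ) ^ a := by rw [← mul_pow]; norm_num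
    have h6 : (0 : ℝ) ≤ (1 / 16 : ℝ) ^ a := by positivity
    calc ((2 * a + 1 : ℕ) : ℝ) * ((1 / 64 : ℝ) ^ a * (1 / 128))
        ≤ (2 * 4 ^ a) * ((1 / 64 : ℝ) ^ a * (1 / 128)) :=
          mul_le_mul_of_nonneg_right h4 (by positivity)
      _ = (1 / 16 : ℝ) ^ a * (1 / 64) := by rw [← h5]; ring
      _ ≤ (1 / 16 : ℝ) ^ a := by linarith
  have hX : (0 : ℝ) ≤ (1 / 16 : ℝ) ^ a := by positivity
  calc (big (4 * a + 1) N : ℝ) + ∑ c ∈ range (2 * a + 1), (few (c + 1) (4 * a + 3) N : ℝ)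
      ≤ 2 ^ N * (N * (1 / 16 : ℝ) ^ a) + ((2 * a + 1 : ℕ) : ℝ) *
          (2 ^ N * ((1 / 64 : ℝ) ^ a * (1 / 128))) := add_le_add hbig hsum
    _ = 2 ^ N * (N * (1 / 16 : ℝ) ^ a + ((2 * a + 1 : ℕ) : ℝ) * ((1 / 64 : ℝ) ^ a * (1 / 128))) := by
        ring
    _ ≤ 2 ^ N * (N * (1 / 16 : ℝ) ^ a + (1 / 16 : ℝ) ^ a) :=
        mul_le_mul_of_nonneg_left (by linarith) hP.le
    _ ≤ 2 ^ N * (2 * N * (1 / 16 : ℝ) ^ a) :=
        mul_le_mul_of_nonneg_left (by nlinarith) hP.le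

/-- the proportion of non-splittable caterpillars is at most `C (log n)^2 / n` -/
theorem log_rate (n : ℕ) (hn : 3 ≤ n) (hodd : Odd n) :
    ((NonSplitSeqs n).ncard : ℝ) ≤ 30000000 * Real.log n ^ 2 / n * ((DegSeqs n).ncard : ℝ) := by
  classical
  set N := n - 2 with hN
  have hn0 : (0 : ℝ) < n := by exact_mod_cast (by omega : 0 < n)
  have hlog : 1 ≤ Real.log n := by
    rw [Real.le_log_iff_exp_le hn0]
    have h1 := Real.exp_one_lt_d9
    have h2 : (3 : ℝ) ≤ n := by exact_mod_cast hn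
    linarith
  have hlog2 : 1 ≤ Real.log n ^ 2 := one_le_pow₀ hlog
  have hD : (0 : ℝ) < 2 ^ (n - 3) := by positivity
  have hex : ∃ a, N < 4 ^ a * (112 * (a + 1)) := by
    refine ⟨N, ?_⟩
    have h1 := Nat.lt_pow_self (n := N) (show 1 < 4 by norm_num)
    have h2 : 4 ^ N * 1 ≤ 4 ^ N * (112 * (N + 1)) := Nat.mul_le_mul_left _ (by omega)
    omega
  set a' := Nat.find hex with ha'
  have hspec : N < 4 ^ a' * (112 * (a' + 1)) := Nat.find_spec hex
  rcases Nat.lt_or_ge a' 2 with hsmall | hlarge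
  · -- small `n`
    have hsub : NonSplitSeqs n ⊆ DegSeqs n := by
      rintro L ⟨V, hV, G, v, q1, q2, q3, q4, _⟩
      exact ⟨V, hV, G, v, q1, q2, q3, q4⟩
    have hfin : (DegSeqs n).Finite := by
      rw [degSeqs_eq n hn]
      exact (Finset.finite_toSet _).image _
    have h3 : ((NonSplitSeqs n).ncard : ℝ) ≤ ((DegSeqs n).ncard : ℝ) := by
      exact_mod_cast Set.ncard_le_ncard hsub hfin
    have hN896 : N < 896 := by
      have h4 : 4 ^ a' * (112 * (a' + 1)) ≤ 896 := by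
        interval_cases a' <;> norm_num
      omega
    have hn898 : (n : ℝ) ≤ 898 := by exact_mod_cast (by omega : n ≤ 898)
    have h5 : (1 : ℝ) ≤ 30000000 * Real.log n ^ 2 / n := by
      rw [le_div_iff₀ hn0]; linarith
    refine h3.trans ?_
    nlinarith [Nat.cast_nonneg (α := ℝ) (DegSeqs n).ncard]
  · obtain ⟨a, ha⟩ : ∃ a, a' = a + 1 := ⟨a' - 1, by omega⟩
    have ha1 : 1 ≤ a := by omega
    have hmin : 4 ^ a * (112 * (a + 1)) ≤ N := by
      have := Nat.find_min hex (m := a) (by omega)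
      omega
    rw [ha] at hspec
    have hsub := nonSplit_subset n a ha1 hodd
    have hfin : {l | l ∈ comps (n - 2) ∧ BadL a l}.Finite :=
      (Finset.finite_toSet (comps (n - 2))).subset (fun l hl => hl.1)
    have h3 := Set.ncard_le_ncard hsub (hfin.image _)
    rw [Set.ncard_image_of_injective _ map_succ_inj] at h3
    have h4 : {l | l ∈ comps (n - 2) ∧ BadL a l}.ncard = ((comps N).filter (BadL a)).card := by
      rw [← Set.ncard_coe_finset]
      congr 1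
      ext l
      simp [hN]
    rw [h4] at h3
    have h5 := bad_log a N hmin
    have h6 : ((NonSplitSeqs n).ncard : ℝ) ≤ (((comps N).filter (BadL a)).card : ℝ) := by
      exact_mod_cast h3
    refine (h6.trans h5).trans ?_
    rw [degSeqs_card n hn]
    have hpow : (2 : ℝ) ^ N = 2 * 2 ^ (n - 3) := by
      rw [← pow_succ']; congr 1; omega
    rw [hpow]
    push_cast
    -- `(1/16)^a ≤ (448 (a+2) / N)^2`
    have hNn : (n : ℝ) ≤ 3 * N := by exact_mod_cast (by omega : n ≤ 3 * N)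
    have hN0 : (0 : ℝ) < N := by linarith
    have h4a : (4 : ℝ) ^ a * (1 / 4 : ℝ) ^ a = 1 := by rw [← mul_pow]; norm_num
    have h16 : (1 / 16 : ℝ) ^ a = ((1 / 4 : ℝ) ^ a) ^ 2 := by
      rw [← pow_mul, mul_comm, pow_mul]; norm_num
    have h7 : (N : ℝ) ≤ 4 ^ a * (448 * (a + 2)) := by
      have h8 : (N : ℝ) < 4 ^ (a + 1) * (112 * ((a : ℝ) + 1 + 1)) := by exact_mod_cast hspec
      rw [pow_succ] at h8
      nlinarith
    have h8 : N * (1 / 4 : ℝ) ^ a ≤ 448 * (a + 2) := by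
      calc N * (1 / 4 : ℝ) ^ a ≤ (4 ^ a * (448 * (a + 2))) * (1 / 4 : ℝ) ^ a :=
            mul_le_mul_of_nonneg_right h7 (by positivity)
        _ = 448 * (a + 2) := by linear_combination (448 * ((a : ℝ) + 2)) * h4a
    have ha2 : (a : ℝ) + 2 ≤ 3 * Real.log n := by
      have h9 : (a : ℝ) ≤ Real.log n := by
        have h10 : (4 : ℝ) ^ a ≤ n := by
          have h11 : 4 ^ a * 1 ≤ 4 ^ a * (112 * (a + 1)) := Nat.mul_le_mul_left _ (by omega)
          have h12 : 4 ^ a ≤ n := by omega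
          exact_mod_cast h12
        have h13 : Real.exp 1 ≤ 4 := by
          have := Real.exp_one_lt_d9
          linarith
        have h14 : Real.exp a ≤ n := by
          have h15 : Real.exp a = Real.exp 1 ^ a := by rw [← Real.exp_nat_mul]; simp
          rw [h15]
          exact (pow_le_pow_left₀ (Real.exp_pos _).le h13 a).trans h10
        exact (Real.le_log_iff_exp_le hn0).2 h14
      linarith
    have h9 : N * (N * (1 / 16 : ℝ) ^ a) ≤ (448 * (3 * Real.log n)) ^ 2 := by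
      rw [h16]
      have h10 : N * (N * ((1 / 4 : ℝ) ^ a) ^ 2) = (N * (1 / 4 : ℝ) ^ a) ^ 2 := by ring
      rw [h10]
      refine pow_le_pow_left₀ (by positivity) (h8.trans ?_) 2
      linarith
    have h10 : N * (1 / 16 : ℝ) ^ a * n ≤ 3 * (448 * (3 * Real.log n)) ^ 2 := by
      have hX : 0 ≤ N * (1 / 16 : ℝ) ^ a := by positivity
      nlinarith
    have h11 : 2 * (2 * N * (1 / 16 : ℝ) ^ a) ≤ 30000000 * Real.log n ^ 2 / n := by
      rw [le_div_iff₀ hn0]
      nlinarith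
    calc 2 * 2 ^ (n - 3) * (2 * N * (1 / 16 : ℝ) ^ a)
        = (2 * (2 * N * (1 / 16 : ℝ) ^ a)) * 2 ^ (n - 3) := by ring
      _ ≤ 30000000 * Real.log n ^ 2 / n * 2 ^ (n - 3) := mul_le_mul_of_nonneg_right h11 hD.le

end Pool.Agent.W_e8e3a0
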