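import Pool.Agent.W_e8e3a0.Build49

namespace Pool.Agent.W_e8e3a0

open Finset Num49

variable {V : Type} [Fintype V]

/-- odd spine, general form -/
theorem suff_odd {G : SimpleGraph V} {s : ℕ} {v : Fin s → V} (h : IsSpine G v) (hs : Odd s)
    (hev : Even G.edgeSet.ncard) (e : Fin s) (he : Even (deg G (v e)))
    (hwin : ∀ a b c : Fin s, (a = e ∨ Odd (deg G (v a))) → (b = e ∨ Odd (deg G (v b))) →
      (c = e ∨ Odd (deg G (v c))) → deg G (v a) ≠ deg G (v b) →
      deg G (v c) < deg G (v a) + deg G (v b)) : Splittable G := by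
  have h1 := edges_eq h
  have h2 := sum_spine h
  have hsum : Even (∑ i, deg G (v i)) := by
    obtain ⟨t, ht⟩ := hs
    obtain ⟨r, hr⟩ := hev
    rw [h2]
    exact ⟨(s - 1) + (r - t), by omega⟩
  obtain ⟨x, y, hxy, hb⟩ := good_main (d := fun i => deg G (v i)) _ univ rfl e (mem_univ e) he hsum
    (fun i _ => h.two i) (fun a _ b _ c _ => hwin a b c)
  have hs0 : 0 < s := hs.pos
  refine construct h x y (fun i => (hxy i (mem_univ i)).1) ⟨0, hs0⟩
    (Or.inr ⟨rfl, (hxy _ (mem_univ _)).2.1⟩) (fun i _ => (hxy i (mem_univ i)).2)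
    (fun k _ => hb k) ?_
  rw [hb 1]
  have h3 := col_count 0 (s - 1)
  show _ = _ + 2 * ∑ i ∈ range (s - 1), (if col 0 i then 1 else 0)
  rw [h3]
  obtain ⟨t, ht⟩ := hs
  split_ifs <;> omega

/-- even spine, window form -/
theorem suff_even {G : SimpleGraph V} {s : ℕ} {v : Fin s → V} (h : IsSpine G v) (hs : Even s)
    (hs0 : 0 < s) (hev : Even G.edgeSet.ncard)
    (hwin : ∀ i j, deg G (v i) ≤ 2 * deg G (v j))
    (hC : Cond (fun i => deg G (v i))) : Splittable G := by
  classical
  have h1 := edges_eq h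
  have h2 := sum_spine h
  obtain ⟨A, B, hAB, hsum, hc⟩ := hC
  set d : Fin s → ℕ := fun i => deg G (v i) with hd
  obtain ⟨m, _, hm⟩ := Finset.exists_min_image (univ : Finset (Fin s)) d ⟨⟨0, hs0⟩, mem_univ _⟩
  have hseg : Seg d (A ∪ B) 1 0 := by
    refine seg_main (d m) (h.two m) _ A B rfl hAB ?_ (fun i _ => ⟨hm i (mem_univ i), hwin i m⟩) hsum
    rcases hc with hc | hc
    · exact Or.inr hc
    · exact Or.inl hc.1
  set R : Finset (Fin s) := univ \ (A ∪ B) with hR
  have hRs : ∑ i ∈ R, d i + ∑ i ∈ A ∪ B, d i = ∑ i, d i := Finset.sum_sdiff (Finset.subset_univ _)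
  rw [Finset.sum_union hAB] at hRs
  have hRc : R.card + (A ∪ B).card = s := by
    have := Finset.card_sdiff_add_card_eq_card (Finset.subset_univ (A ∪ B))
    rw [Finset.card_univ, Fintype.card_fin] at this
    exact this
  rw [Finset.card_union_of_disjoint hAB] at hRc
  have h2' : ∑ i, d i = 2 * (s - 1) + (offSpine v).card := h2
  obtain ⟨t, ht⟩ := hs
  obtain ⟨r, hr⟩ := hev
  have hRev : (∑ i ∈ R, d i) % 2 = 0 := by
    have a1 : A.sum d = B.sum d + 1 := hsum
    have a2 : R.sum d + (A.sum d + B.sum d) = (univ : Finset (Fin s)).sum d := hRs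
    have a3 : (univ : Finset (Fin s)).sum d = 2 * (s - 1) + (offSpine v).card := h2
    show (R.sum d) % 2 = 0
    omega
  have hmemR : ∀ i, i ∈ R ↔ i ∉ A ∪ B := fun i => by simp [hR]
  have hgood : Good d R := by
    have hfin : (∃ e ∈ R, Even (d e)) → Good d R := by
      rintro ⟨e, he, hee⟩
      refine good_main _ R rfl e he hee (Nat.even_iff.2 hRev) (fun i _ => h.two i) ?_
      intro a _ b _ c _ _ _ _ hab
      have e1 : d c ≤ 2 * d a := hwin c a
      have e2 : d c ≤ 2 * d b := hwin c b
      omega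
    rcases hc with hc | ⟨hc, hc2 | ⟨e, he, hee⟩⟩
    · apply hfin
      by_contra hno
      push Not at hno
      have := sum_odd_par R (fun i hi => Nat.not_even_iff_odd.1 (hno i hi))
      omega
    · have : R = ∅ := by
        rw [Finset.eq_empty_iff_forall_notMem]
        intro i hi
        exact (hmemR i).1 hi (hc2 i)
      rw [this]
      exact good_empty d
    · exact hfin ⟨e, (hmemR e).2 he, hee⟩
  have hall := hseg.good hgood (by rw [hR]; exact Finset.disjoint_sdiff)
  have hu : (A ∪ B) ∪ R = univ := by rw [hR]; exact Finset.union_sdiff_of_subset (subset_univ _)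
  rw [hu] at hall
  obtain ⟨x, y, hxy, hb⟩ := hall
  have hx0 : cx x univ 0 = 0 := by
    unfold cx
    exact Finset.sum_eq_zero (fun i hi => if_neg (by have := (hxy i hi).2.1; omega))
  have hy0 : cx y univ 0 = 1 := by
    have := hb 0
    rw [hx0] at this
    simpa using this.symm
  obtain ⟨w, _, hw⟩ := exists_of_cx (x := y) (R := univ) (k := 0) (by omega)
  have hyp : ∀ i, i ≠ w → 1 ≤ y i := by
    intro i hi
    by_contra hno
    have hi0 : y i = 0 := by omega
    have h3 := cx_sub (x := y) (Finset.subset_univ ({i, w} : Finset (Fin s))) 0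
    have h4 : cx y {i, w} 0 = 2 := by
      unfold cx
      rw [Finset.sum_pair hi, hi0, hw]
      rfl
    omega
  refine construct h x y (fun i => (hxy i (mem_univ i)).1) w (Or.inl hw)
    (fun i hi => ⟨(hxy i (mem_univ i)).2.1, hyp i hi⟩) ?_ ?_
  · intro k hk
    have := hb k
    rw [if_neg (by omega), if_neg (by omega)] at this
    omega
  · have h3 := hb 1
    simp only [one_ne_zero, if_false, if_true, add_zero] at h3
    rw [col_count]
    have hwl := w.2
    split_ifs <;> omega

/-- the characterisation in the window -/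
theorem window {G : SimpleGraph V} {s : ℕ} {v : Fin s → V} (h : IsSpine G v) (hs : 0 < s)
    (hwin : ∀ i j, deg G (v i) ≤ 2 * deg G (v j)) :
    Splittable G ↔ Even G.edgeSet.ncard ∧ (Odd s ∨ Cond (fun i => deg G (v i))) := by
  classical
  refine ⟨necessary hs h, ?_⟩
  rintro ⟨hev, hc⟩
  rcases Nat.even_or_odd s with hse | hso
  · rcases hc with hc | hc
    · exact absurd hse (Nat.not_even_iff_odd.2 hc)
    · exact suff_even h hse hs hev hwin hc
  · have h1 := edges_eq h
    have h2 := sum_spine h
    have hex : ∃ e, Even (deg G (v e)) := by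
      by_contra hno
      push Not at hno
      have h3 := sum_odd_par (d := fun i => deg G (v i)) univ
        (fun i _ => Nat.not_even_iff_odd.1 (hno i))
      rw [Finset.card_univ, Fintype.card_fin] at h3
      obtain ⟨t, ht⟩ := hso
      obtain ⟨r, hr⟩ := hev
      omega
    obtain ⟨e, he⟩ := hex
    refine suff_odd h hso hev e he ?_
    intro a b c _ _ _ hab
    have e1 := hwin c a
    have e2 := hwin c b
    omega

end Pool.Agent.W_e8e3a0
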