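import Pool.Agent.W_e8e3a0.Weight49

/-! Counting compositions with a marked part. -/

namespace Pool.Agent.W_e8e3a0

open Finset

theorem marked_one (N x : ℕ) (T : Finset (List ℕ)) (A B : List ℕ → Prop) [DecidablePred A]
    [DecidablePred B]
    (hT : ∀ l ∈ T, l ∈ comps N ∧ ∃ l₁ l₂, l = l₁ ++ x :: l₂ ∧ A l₁ ∧ B l₂) :
    T.card ≤ ∑ j ∈ range (N + 1 - x),
      ((comps j).filter A).card * ((comps (N - x - j)).filter B).card := by
  have hsub : T ⊆ (range (N + 1 - x)).biUnion (fun j =>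
      (((comps j).filter A) ×ˢ ((comps (N - x - j)).filter B)).image
        (fun p => p.1 ++ x :: p.2)) := by
    intro l hl
    obtain ⟨h1, l₁, l₂, rfl, hA, hB⟩ := hT l hl
    rw [mem_comps] at h1
    obtain ⟨h1, h2⟩ := h1
    rw [List.sum_append, List.sum_cons] at h2
    rw [Finset.mem_biUnion]
    refine ⟨l₁.sum, Finset.mem_range.2 (by omega), Finset.mem_image.2 ⟨(l₁, l₂), ?_, rfl⟩⟩
    rw [Finset.mem_product]
    exact ⟨Finset.mem_filter.2 ⟨(mem_comps _ _).2 ⟨fun y hy => h1 y (by simp [hy]), rfl⟩, hA⟩,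
      Finset.mem_filter.2 ⟨(mem_comps _ _).2 ⟨fun y hy => h1 y (by simp [hy]),
        show l₂.sum = N - x - l₁.sum by omega⟩, hB⟩⟩
  refine (Finset.card_le_card hsub).trans (Finset.card_biUnion_le.trans ?_)
  refine Finset.sum_le_sum (fun j _ => ?_)
  refine Finset.card_image_le.trans ?_
  rw [Finset.card_product]

theorem missing_le (c N : ℕ) : (((comps N).filter (fun l => c ∉ l)).card : ℝ) ≤ Zc c N := by
  unfold Zc
  rw [Finset.card_eq_sum_ones]
  push_cast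
  refine le_trans (Finset.sum_le_sum (g := fun l : List ℕ => (1 / 2 : ℝ) ^ (l.count c)) ?_)
    (Finset.sum_le_sum_of_subset_of_nonneg (Finset.filter_subset _ _)
      (fun _ _ _ => by positivity))
  intro l hl
  rw [List.count_eq_zero_of_not_mem (Finset.mem_filter.1 hl).2, pow_zero]

theorem lam_le (c N : ℕ) : (2 - (1 / 2 : ℝ) ^ (c + 2)) ^ N ≤
    2 ^ N * Real.exp (-(N * (1 / 2 : ℝ) ^ (c + 3))) := by
  have h4 : (2 - (1 / 2 : ℝ) ^ (c + 2)) = 2 * (1 - (1 / 2 : ℝ) ^ (c + 3)) := by ring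
  rw [h4, mul_pow]
  refine mul_le_mul_of_nonneg_left ?_ (by positivity)
  have h5 : (1 - (1 / 2 : ℝ) ^ (c + 3)) ≤ Real.exp (-((1 / 2 : ℝ) ^ (c + 3))) := by
    have := Real.add_one_le_exp (-((1 / 2 : ℝ) ^ (c + 3)))
    linarith
  have h6 : 0 ≤ 1 - (1 / 2 : ℝ) ^ (c + 3) := by
    have : (1 / 2 : ℝ) ^ (c + 3) ≤ 1 := pow_le_one₀ (by norm_num) (by norm_num)
    linarith
  refine le_trans (pow_le_pow_left₀ h6 h5 N) ?_
  rw [← Real.exp_nat_mul]
  apply le_of_eq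
  congr 1
  ring

/-- compositions with a part `x` and no part `c` -/
theorem miss_card (N x c e : ℕ) (hc : 1 ≤ c) (hce : c + 3 ≤ e) :
    (((comps N).filter (fun l => x ∈ l ∧ c ∉ l)).card : ℝ) ≤ (N + 1) * (if x ≤ N then
      2 ^ (N - x) * Real.exp (-(((N - x : ℕ) : ℝ) * (1 / 2 : ℝ) ^ e)) else 0) := by
  classical
  have h1 := marked_one N x ((comps N).filter (fun l => x ∈ l ∧ c ∉ l)) (fun l => c ∉ l)
    (fun l => c ∉ l) (by
      intro l hl
      obtain ⟨h1, h2, h3⟩ := Finset.mem_filter.1 hl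
      obtain ⟨l₁, l₂, rfl⟩ := List.append_of_mem h2
      refine ⟨h1, l₁, l₂, rfl, fun h => h3 (by simp [h]), fun h => h3 (by simp [h])⟩)
  by_cases hx : x ≤ N
  · rw [if_pos hx]
    have h2 : (((comps N).filter (fun l => x ∈ l ∧ c ∉ l)).card : ℝ) ≤
        ∑ j ∈ range (N + 1 - x), (((comps j).filter (fun l => c ∉ l)).card : ℝ) *
          (((comps (N - x - j)).filter (fun l => c ∉ l)).card : ℝ) := by
      exact_mod_cast h1
    have hlam0 : (0 : ℝ) ≤ 2 - (1 / 2 : ℝ) ^ (c + 2) := by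
      have : (1 / 2 : ℝ) ^ (c + 2) ≤ 1 := pow_le_one₀ (by norm_num) (by norm_num)
      linarith
    have h3 : ∀ j ∈ range (N + 1 - x), (((comps j).filter (fun l => c ∉ l)).card : ℝ) *
          (((comps (N - x - j)).filter (fun l => c ∉ l)).card : ℝ) ≤
          2 ^ (N - x) * Real.exp (-(((N - x : ℕ) : ℝ) * (1 / 2 : ℝ) ^ e)) := by
      intro j hj
      have hj' := Finset.mem_range.1 hj
      have h4 := (missing_le c j).trans (Zc_le c hc j)
      have h5 := (missing_le c (N - x - j)).trans (Zc_le c hc (N - x - j))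
      have h6 := mul_le_mul h4 h5 (by positivity) (by positivity)
      rw [← pow_add, show j + (N - x - j) = N - x by omega] at h6
      refine h6.trans ((lam_le c (N - x)).trans ?_)
      refine mul_le_mul_of_nonneg_left (Real.exp_le_exp.2 (neg_le_neg ?_)) (by positivity)
      exact mul_le_mul_of_nonneg_left (pow_le_pow_of_le_one (by norm_num) (by norm_num) hce)
        (by positivity)
    refine h2.trans ((Finset.sum_le_sum h3).trans ?_)
    rw [Finset.sum_const, Finset.card_range, nsmul_eq_mul]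
    refine mul_le_mul_of_nonneg_right ?_ (by positivity)
    have : N + 1 - x ≤ N + 1 := Nat.sub_le _ _
    exact_mod_cast this
  · rw [if_neg hx, mul_zero]
    rw [show N + 1 - x = 0 by omega, Finset.range_zero, Finset.sum_empty] at h1
    exact_mod_cast h1

/-- compositions with two parts `≥ m` -/
theorem two_big (m N : ℕ) (hm : 1 ≤ m) [DecidablePred (fun l : List ℕ => ∃ l₁ x l₂,
      l = l₁ ++ x :: l₂ ∧ m ≤ x ∧ ∃ y ∈ l₂, m ≤ y)] :
    (((comps N).filter (fun l : List ℕ => ∃ l₁ x l₂, l = l₁ ++ x :: l₂ ∧ m ≤ x ∧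
      ∃ y ∈ l₂, m ≤ y)).card : ℝ) ≤ 4 * N * (N + 1) * 2 ^ N * ((1 / 2 : ℝ) ^ m) ^ 2 := by
  classical
  have hsub : (comps N).filter (fun l : List ℕ => ∃ l₁ x l₂, l = l₁ ++ x :: l₂ ∧ m ≤ x ∧
      ∃ y ∈ l₂, m ≤ y) ⊆ (Finset.Ico m (N + 1)).biUnion (fun x =>
        (comps N).filter (fun l : List ℕ => ∃ l₁ l₂, l = l₁ ++ x :: l₂ ∧ ∃ y ∈ l₂, m ≤ y)) := by
    intro l hl
    obtain ⟨h1, l₁, x, l₂, h2, h3, h4⟩ := Finset.mem_filter.1 hl
    rw [Finset.mem_biUnion]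
    have h5 := ((mem_comps _ _).1 h1).2
    rw [h2, List.sum_append, List.sum_cons] at h5
    exact ⟨x, Finset.mem_Ico.2 ⟨h3, by omega⟩, Finset.mem_filter.2 ⟨h1, l₁, l₂, h2, h4⟩⟩
  have h1 := (Finset.card_le_card hsub).trans Finset.card_biUnion_le
  have h2 : (((comps N).filter (fun l : List ℕ => ∃ l₁ x l₂, l = l₁ ++ x :: l₂ ∧ m ≤ x ∧
      ∃ y ∈ l₂, m ≤ y)).card : ℝ) ≤ ∑ x ∈ Finset.Ico m (N + 1),
      (((comps N).filter (fun l : List ℕ => ∃ l₁ l₂, l = l₁ ++ x :: l₂ ∧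
        ∃ y ∈ l₂, m ≤ y)).card : ℝ) := by
    exact_mod_cast h1
  have h3 : ∀ x ∈ Finset.Ico m (N + 1),
      (((comps N).filter (fun l : List ℕ => ∃ l₁ l₂, l = l₁ ++ x :: l₂ ∧
        ∃ y ∈ l₂, m ≤ y)).card : ℝ) ≤
      (2 * N * (N + 1) * 2 ^ N * (1 / 2 : ℝ) ^ m) * (1 / 2 : ℝ) ^ x := by
    intro x hx
    obtain ⟨hx1, hx2⟩ := Finset.mem_Ico.1 hx
    have h4 := marked_one N x ((comps N).filter (fun l : List ℕ => ∃ l₁ l₂, l = l₁ ++ x :: l₂ ∧
        ∃ y ∈ l₂, m ≤ y)) (fun _ => True) (fun l => ∃ y ∈ l, m ≤ y) (by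
      intro l hl
      obtain ⟨h1, l₁, l₂, h2, h3⟩ := Finset.mem_filter.1 hl
      exact ⟨h1, l₁, l₂, h2, trivial, h3⟩)
    have h5 : ∀ j ∈ range (N + 1 - x), 2 ^ m * (((comps j).filter (fun _ => True)).card *
        ((comps (N - x - j)).filter (fun l => ∃ y ∈ l, m ≤ y)).card) ≤ N * 2 ^ (N + 1 - x) := by
      intro j hj
      have hj' := Finset.mem_range.1 hj
      have h6 : ((comps j).filter (fun _ => True)).card ≤ 2 ^ j := by
        rw [Finset.filter_true]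
        exact card_comps_le j
      have h7 := big_le m hm (N - x - j)
      have h8 : (N - x - j) * 2 ^ (N - x - j + 1) ≤ N * 2 ^ (N - x - j + 1) :=
        Nat.mul_le_mul_right _ (by omega)
      have h9 : 2 ^ (N + 1 - x) = 2 ^ j * 2 ^ (N - x - j + 1) := by
        rw [← pow_add]; congr 1; omega
      calc 2 ^ m * (((comps j).filter (fun _ => True)).card *
            ((comps (N - x - j)).filter (fun l => ∃ y ∈ l, m ≤ y)).card)
          = ((comps j).filter (fun _ => True)).card * (2 ^ m * big m (N - x - j)) := by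
            unfold big; ring
        _ ≤ 2 ^ j * (N * 2 ^ (N - x - j + 1)) := Nat.mul_le_mul h6 (h7.trans h8)
        _ = N * 2 ^ (N + 1 - x) := by rw [h9]; ring
    have h6 : 2 ^ m * ((comps N).filter (fun l : List ℕ => ∃ l₁ l₂, l = l₁ ++ x :: l₂ ∧
        ∃ y ∈ l₂, m ≤ y)).card ≤ (N + 1) * (N * 2 ^ (N + 1 - x)) := by
      refine (Nat.mul_le_mul_left _ h4).trans ?_
      rw [Finset.mul_sum]
      refine (Finset.sum_le_sum h5).trans ?_
      rw [Finset.sum_const, Finset.card_range, smul_eq_mul]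
      exact Nat.mul_le_mul_right _ (Nat.sub_le _ _)
    have h7 : (2 : ℝ) ^ m * (((comps N).filter (fun l : List ℕ => ∃ l₁ l₂, l = l₁ ++ x :: l₂ ∧
        ∃ y ∈ l₂, m ≤ y)).card : ℝ) ≤ (N + 1) * (N * 2 ^ (N + 1 - x)) := by
      exact_mod_cast h6
    have h8 : (2 : ℝ) ^ m * ((2 * N * (N + 1) * 2 ^ N * (1 / 2 : ℝ) ^ m) * (1 / 2 : ℝ) ^ x) =
        (N + 1) * (N * 2 ^ (N + 1 - x)) := by
      have e1 : (2 : ℝ) ^ m * (1 / 2 : ℝ) ^ m = 1 := by rw [← mul_pow]; norm_num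
      have e2 : (2 : ℝ) ^ x * (1 / 2 : ℝ) ^ x = 1 := by rw [← mul_pow]; norm_num
      have e3 : (2 : ℝ) ^ N * 2 = 2 ^ (N + 1 - x) * 2 ^ x := by
        rw [← pow_succ, ← pow_add]; congr 1; omega
      calc (2 : ℝ) ^ m * ((2 * N * (N + 1) * 2 ^ N * (1 / 2 : ℝ) ^ m) * (1 / 2 : ℝ) ^ x)
          = (2 ^ m * (1 / 2 : ℝ) ^ m) * ((N + 1) * N * (2 ^ N * 2) * (1 / 2 : ℝ) ^ x) := by ring
        _ = (N + 1) * N * 2 ^ (N + 1 - x) * (2 ^ x * (1 / 2 : ℝ) ^ x) := by
            rw [e1, e3]; ring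
        _ = (N + 1) * (N * 2 ^ (N + 1 - x)) := by rw [e2]; ring
    rw [← h8] at h7
    exact le_of_mul_le_mul_left h7 (by positivity)
  refine h2.trans ((Finset.sum_le_sum h3).trans ?_)
  rw [← Finset.mul_sum]
  have h4 := geom_sum_Ico_le_of_lt_one (x := (1 / 2 : ℝ)) (m := m) (n := N + 1) (by norm_num)
    (by norm_num)
  have h5 : (1 / 2 : ℝ) ^ m / (1 - 1 / 2) = 2 * (1 / 2 : ℝ) ^ m := by norm_num; ring
  rw [h5] at h4
  refine (mul_le_mul_of_nonneg_left h4 (by positivity)).trans (le_of_eq ?_)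
  ring

end Pool.Agent.W_e8e3a0
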