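import Pool.Agent.W_e8e3a0.Mixed49

namespace Pool.Agent.W_e8e3a0

open Finset Num49

variable {V : Type} [Fintype V]

theorem both_mem {E : Finset ℕ} {i : ℕ}
    (h2 : 2 ≤ (E.filter (fun t => t = i ∨ t + 1 = i)).card) : i ∈ E ∧ i - 1 ∈ E ∧ 1 ≤ i := by
  have hs : E.filter (fun t => t = i ∨ t + 1 = i) ⊆ ({i, i - 1} : Finset ℕ) := by
    intro t ht
    rw [Finset.mem_insert, Finset.mem_singleton]
    have := (Finset.mem_filter.1 ht).2
    omega
  have hi0 : i ≠ i - 1 := by
    intro h0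
    rw [← h0, Finset.pair_eq_singleton] at hs
    have := Finset.card_le_card hs
    rw [Finset.card_singleton] at this
    omega
  have hc : ({i, i - 1} : Finset ℕ).card = 2 := Finset.card_pair hi0
  have heq := Finset.eq_of_subset_of_card_le hs (by omega)
  have m1 : i ∈ E.filter (fun t => t = i ∨ t + 1 = i) := by rw [heq]; simp
  have m2 : i - 1 ∈ E.filter (fun t => t = i ∨ t + 1 = i) := by rw [heq]; simp
  exact ⟨(Finset.mem_filter.1 m1).1, (Finset.mem_filter.1 m2).1, by omega⟩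

/-- `t` and `t + 1` are spine vertices of degree at least three -/
def gd {s : ℕ} (d : Fin s → ℕ) (t : ℕ) : Prop :=
  ∀ k : Fin s, ((k : ℕ) = t ∨ (k : ℕ) = t + 1) → 3 ≤ d k

theorem mixed_split {G : SimpleGraph V} {s : ℕ} {v : Fin s → V} (h : IsSpine G v)
    (hev : Even G.edgeSet.ncard) (P : Finset (Fin s))
    (hP : ∀ i ∈ P, ∀ j ∈ P, i ≠ j → (i : ℕ) + 1 < j ∨ (j : ℕ) + 1 < i)
    (hPn : ∀ i ∈ P, ∀ k : Fin s, ((k : ℕ) + 1 = i ∨ (i : ℕ) + 1 = k) → 3 ≤ deg G (v k))
    (a b : Fin s → ℕ) (hab : ∀ i, a i + b i = deg G (v i)) (hPs : ∀ i ∈ P, a i ≠ 1 ∨ b i ≠ 1)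
    (hpar : ∀ k, 2 ≤ k → (cx a univ k + cx b univ k) % 2 = 0)
    (hn : ∀ i, i ∉ P → (deg G (v i) = 2 → a i = 1 ∧ b i = 1) ∧
      (deg G (v i) = 3 → a i = 1 ∧ b i = 2) ∧ (4 ≤ deg G (v i) → 2 ≤ a i ∧ 2 ≤ b i))
    (Q : Finset (Fin s)) (hQm : ∀ i, i ∈ Q ↔ i ∉ P ∧ deg G (v i) = 3)
    (hQ2 : Q.card % 2 = 0) (hcard : 9 * P.card + 3 ≤ s)
    (W : Finset ℕ) (hWr : W ⊆ range (s - 1)) (hWg : ∀ t ∈ W, gd (fun i => deg G (v i)) t)
    (hW0 : 5 * P.card + 1 ≤ (W.filter (fun t => t % 2 = 0)).card)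
    (hW1 : 5 * P.card + 1 ≤ (W.filter (fun t => ¬ t % 2 = 0)).card)
    (hQc : Q.card = 0 ∨ 20 * P.card + 4 ≤ Q.card) : Splittable G := by
  classical
  have h2d : ∀ i, 2 ≤ deg G (v i) := h.two
  set U := univ \ Q with hU
  have hUQ : ∀ (z : Fin s → ℕ) k, cx z univ k = cx z U k + cx z Q k := by
    intro z k
    unfold cx
    exact (Finset.sum_sdiff (Finset.subset_univ Q)).symm
  have haQ : ∀ i ∈ Q, a i = 1 ∧ b i = 2 := fun i hi =>
    (hn i ((hQm i).1 hi).1).2.1 ((hQm i).1 hi).2
  have hparU : ∀ k, 2 ≤ k → (cx a U k + cx b U k) % 2 = 0 := by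
    intro k hk
    have h1 := hpar k hk
    rw [hUQ a, hUQ b] at h1
    have h2 := cx_two (Finset.Subset.refl Q) 1 0 k a (fun i hi => (haQ i hi).1)
      (fun i hi => by simp at hi)
    have h3' := cx_two (Finset.Subset.refl Q) 2 0 k b (fun i hi => (haQ i hi).2)
      (fun i hi => by simp at hi)
    rw [Finset.sdiff_self, Finset.card_empty] at h2 h3'
    rw [if_neg (by omega : ¬ 1 = k)] at h2
    split_ifs at h2 h3' <;> omega
  obtain ⟨x0, y0, hsw, hb⟩ := orient U.card U a b rfl hparU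
  have hxy0 : ∀ i, x0 i + y0 i = deg G (v i) := by
    intro i
    have h1 := hab i
    rcases hsw i with ⟨h2, h3⟩ | ⟨h2, h3⟩ <;> omega
  have hbig0 : ∀ i, i ∉ P → i ∉ Q → deg G (v i) ≠ 2 → 2 ≤ x0 i ∧ 2 ≤ y0 i := by
    intro i hi hiQ hi2
    have h0 := h2d i
    have hne3 : deg G (v i) ≠ 3 := fun hh => hiQ ((hQm i).2 ⟨hi, hh⟩)
    have h1 := (hn i hi).2.2 (by omega)
    rcases hsw i with ⟨h2, h3⟩ | ⟨h2, h3⟩ <;> omega
  have htwo0 : ∀ i, i ∉ P → deg G (v i) = 2 → x0 i = 1 ∧ y0 i = 1 := by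
    intro i hi hi2
    have h1 := (hn i hi).1 hi2
    rcases hsw i with ⟨h2, h3⟩ | ⟨h2, h3⟩ <;> omega
  have hone0 : ∀ i, i ∉ P → i ∉ Q → 1 ≤ x0 i ∧ 1 ≤ y0 i := by
    intro i hi hiQ
    by_cases hi2 : deg G (v i) = 2
    · have := htwo0 i hi hi2
      omega
    · have := hbig0 i hi hiQ hi2
      omega
  have hzle : ∀ z : Fin s → ℕ, (∀ i, i ∉ P → i ∉ Q → 1 ≤ z i) → cx z U 0 ≤ P.card := by
    intro z hz
    unfold cx
    rw [← Finset.card_filter]
    refine Finset.card_le_card (fun i hi => ?_)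
    obtain ⟨h1, h2⟩ := Finset.mem_filter.1 hi
    by_contra hno
    have := hz i hno (Finset.mem_sdiff.1 h1).2
    omega
  have z1 := hzle x0 (fun i h1 h2 => (hone0 i h1 h2).1)
  have z2' := hzle y0 (fun i h1 h2 => (hone0 i h1 h2).2)
  -- the final parts for a given half of `Q`
  have key : ∀ H ⊆ Q, 2 * H.card = Q.card →
      (∀ i, (if i ∈ Q then (if i ∈ H then 1 else 2) else x0 i) +
        (if i ∈ Q then (if i ∈ H then 2 else 1) else y0 i) = deg G (v i)) ∧
      (∀ k, 2 ≤ k → cx (fun i => if i ∈ Q then (if i ∈ H then 1 else 2) else x0 i) univ k =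
        cx (fun i => if i ∈ Q then (if i ∈ H then 2 else 1) else y0 i) univ k) ∧
      cx (fun i => if i ∈ Q then (if i ∈ H then 1 else 2) else x0 i) univ 0 = cx x0 U 0 ∧
      cx (fun i => if i ∈ Q then (if i ∈ H then 2 else 1) else y0 i) univ 0 = cx y0 U 0 := by
    intro H hHQ hH2
    have hsd : (Q \ H).card = H.card := by
      rw [Finset.card_sdiff_of_subset hHQ]; omega
    have f1 : ∀ k, cx (fun i => if i ∈ Q then (if i ∈ H then 1 else 2) else x0 i) univ k =
        cx x0 U k + ((if 1 = k then H.card else 0) + (if 2 = k then H.card else 0)) := by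
      intro k
      rw [hUQ, cx_congr (x' := x0) (fun i hi => if_neg (Finset.mem_sdiff.1 hi).2) k,
        cx_two hHQ 1 2 k _ (fun i hi => by
          show (if i ∈ Q then (if i ∈ H then 1 else 2) else x0 i) = 1
          rw [if_pos (hHQ hi), if_pos hi]) (fun i hi => by
          show (if i ∈ Q then (if i ∈ H then 1 else 2) else x0 i) = 2
          rw [if_pos (Finset.mem_sdiff.1 hi).1, if_neg (Finset.mem_sdiff.1 hi).2]), hsd]
    have f2 : ∀ k, cx (fun i => if i ∈ Q then (if i ∈ H then 2 else 1) else y0 i) univ k =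
        cx y0 U k + ((if 2 = k then H.card else 0) + (if 1 = k then H.card else 0)) := by
      intro k
      rw [hUQ, cx_congr (x' := y0) (fun i hi => if_neg (Finset.mem_sdiff.1 hi).2) k,
        cx_two hHQ 2 1 k _ (fun i hi => by
          show (if i ∈ Q then (if i ∈ H then 2 else 1) else y0 i) = 2
          rw [if_pos (hHQ hi), if_pos hi]) (fun i hi => by
          show (if i ∈ Q then (if i ∈ H then 2 else 1) else y0 i) = 1
          rw [if_pos (Finset.mem_sdiff.1 hi).1, if_neg (Finset.mem_sdiff.1 hi).2]), hsd]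
    refine ⟨?_, ?_, ?_, ?_⟩
    · intro i
      by_cases hi : i ∈ Q
      · rw [if_pos hi, if_pos hi, ((hQm i).1 hi).2]
        split_ifs <;> rfl
      · rw [if_neg hi, if_neg hi]; exact hxy0 i
    · intro k hk
      rw [f1, f2, hb k hk]
      omega
    · rw [f1]; simp
    · rw [f2]; simp
  -- parity of the number of zeros
  have e1 := edges_eq h
  have e2 := sum_spine h
  obtain ⟨m, hm⟩ := hev
  have hpz : (s - 1 + cx x0 U 0 + cx y0 U 0) % 2 = 0 := by
    obtain ⟨H0, hH0, hH0c⟩ := Finset.exists_subset_card_eq (s := Q) (n := Q.card / 2) (by omega)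
    obtain ⟨k1, k2, k3, k4⟩ := key H0 hH0 (by omega)
    have e3 := sum_diff k2
    have e4 := zero_diff k2
    have e5 : ∑ i, (if i ∈ Q then (if i ∈ H0 then 1 else 2) else x0 i) +
        ∑ i, (if i ∈ Q then (if i ∈ H0 then 2 else 1) else y0 i) =
        2 * (s - 1) + (offSpine v).card := by
      rw [← Finset.sum_add_distrib, ← e2]
      exact Finset.sum_congr rfl (fun i _ => k1 i)
    rw [k3, k4] at e4
    omega
  set zx := cx x0 U 0 with hzx
  set zy := cx y0 U 0 with hzy
  set P1 := P.filter (fun i => x0 i ≤ 1) with hP1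
  set P2 := P.filter (fun i => ¬ x0 i ≤ 1) with hP2
  have hPc : P1.card + P2.card = P.card := Finset.card_filter_add_card_filter_not _
  have hd1 := card_inc P1
  have hd2 := card_inc P2
  have hdis : Disjoint (inc P1) (inc P2) := by
    rw [Finset.disjoint_left]
    intro t h1 h2
    obtain ⟨_, i, hi, hti⟩ := Finset.mem_filter.1 h1
    obtain ⟨_, j, hj, htj⟩ := Finset.mem_filter.1 h2
    obtain ⟨hi1, hi2⟩ := Finset.mem_filter.1 hi
    obtain ⟨hj1, hj2⟩ := Finset.mem_filter.1 hj
    have hij : i ≠ j := by rintro rfl; exact hj2 hi2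
    have := hP i hi1 j hj1 hij
    omega
  have hs1 : inc P1 ∪ inc P2 ⊆ range (s - 1) :=
    Finset.union_subset (Finset.filter_subset _ _) (Finset.filter_subset _ _)
  set R := range (s - 1) \ (inc P1 ∪ inc P2) with hR
  have hRc : R.card + ((inc P1).card + (inc P2).card) = s - 1 := by
    have h1 := Finset.card_sdiff_add_card_eq_card hs1
    rw [Finset.card_union_of_disjoint hdis, Finset.card_range] at h1
    exact h1
  obtain ⟨r, hr1, hr2⟩ : ∃ r, (inc P2).card + r + zx = (inc P1).card + (R.card - r) + zy ∧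
      r ≤ R.card := by
    refine ⟨((inc P1).card + R.card + zy - (inc P2).card - zx) / 2, ?_⟩
    omega
  set E0 := R.filter (fun t => t % 2 = 0) with hE0
  have hE0R : E0 ⊆ R := Finset.filter_subset _ _
  have hE0a : 2 * E0.card ≤ s := by
    have h1 : E0.card ≤ ((range (s - 1)).filter (fun t => t % 2 = 0)).card :=
      Finset.card_le_card (Finset.filter_subset_filter _ Finset.sdiff_subset)
    rw [card_evens] at h1
    omega
  have hE0b : s - 1 ≤ 2 * E0.card + 2 * ((inc P1).card + (inc P2).card) := by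
    have h1 : (range (s - 1)).filter (fun t => t % 2 = 0) ⊆ E0 ∪ (inc P1 ∪ inc P2) := by
      intro t ht
      obtain ⟨h1, h2⟩ := Finset.mem_filter.1 ht
      rw [Finset.mem_union]
      by_cases h3 : t ∈ inc P1 ∪ inc P2
      · exact Or.inr h3
      · exact Or.inl (Finset.mem_filter.2 ⟨Finset.mem_sdiff.2 ⟨h1, h3⟩, h2⟩)
    have h2 := Finset.card_le_card h1
    have h3 := Finset.card_union_le E0 (inc P1 ∪ inc P2)
    rw [Finset.card_union_of_disjoint hdis] at h3
    rw [card_evens] at h2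
    omega
  have hincP : (inc P1).card + (inc P2).card ≤ 2 * P.card := by omega
  have hfree : ∀ q : ℕ → Prop, ∀ _ : DecidablePred q,
      5 * P.card + 1 ≤ (W.filter q).card → 3 * P.card + 1 ≤ ((W ∩ R).filter q).card := by
    intro q _ hq
    have h1 : W.filter q ⊆ (W ∩ R).filter q ∪ (inc P1 ∪ inc P2) := by
      intro t ht
      obtain ⟨h1, h2⟩ := Finset.mem_filter.1 ht
      rw [Finset.mem_union]
      by_cases h3 : t ∈ inc P1 ∪ inc P2
      · exact Or.inr h3
      · exact Or.inl (Finset.mem_filter.2 ⟨Finset.mem_inter.2 ⟨h1,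
          Finset.mem_sdiff.2 ⟨hWr h1, h3⟩⟩, h2⟩)
    have h2 := Finset.card_le_card h1
    have h3 := Finset.card_union_le ((W ∩ R).filter q) (inc P1 ∪ inc P2)
    rw [Finset.card_union_of_disjoint hdis] at h3
    omega
  have hf0 := hfree (fun t => t % 2 = 0) inferInstance hW0
  have hf1 := hfree (fun t => ¬ t % 2 = 0) inferInstance hW1
  obtain ⟨RC, hRC1, hRC2, hRC3, hRC4, hRC5, hRC6⟩ : ∃ RC ⊆ R, RC.card = r ∧
      (RC \ E0).card ≤ 3 * P.card + 1 ∧ (E0 \ RC).card ≤ 3 * P.card + 1 ∧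
      (∀ t ∈ RC \ E0, t ∈ W) ∧ (∀ t ∈ E0 \ RC, t ∈ W) := by
    rcases Nat.lt_or_ge E0.card r with hlt | hge
    · obtain ⟨Y, hY1, hY2⟩ := Finset.exists_subset_card_eq
        (s := (W ∩ R).filter (fun t => ¬ t % 2 = 0)) (n := r - E0.card) (by omega)
      have hYR : Y ⊆ R := fun t ht =>
        (Finset.mem_inter.1 (Finset.mem_filter.1 (hY1 ht)).1).2
      have hYE : Disjoint E0 Y := by
        rw [Finset.disjoint_left]
        intro t h1 h2
        exact (Finset.mem_filter.1 (hY1 h2)).2 (Finset.mem_filter.1 h1).2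
      have e1 : (E0 ∪ Y) \ E0 = Y := by
        rw [Finset.union_sdiff_left]
        exact Finset.sdiff_eq_self_of_disjoint hYE.symm
      refine ⟨E0 ∪ Y, Finset.union_subset hE0R hYR, ?_, ?_, ?_, ?_, ?_⟩
      · rw [Finset.card_union_of_disjoint hYE]; omega
      · rw [e1]; omega
      · rw [Finset.sdiff_eq_empty_iff_subset.2 Finset.subset_union_left, Finset.card_empty]
        omega
      · intro t ht
        rw [e1] at ht
        exact (Finset.mem_inter.1 (Finset.mem_filter.1 (hY1 ht)).1).1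
      · intro t ht
        rw [Finset.sdiff_eq_empty_iff_subset.2 Finset.subset_union_left] at ht
        exact absurd ht (Finset.notMem_empty t)
    · obtain ⟨Y, hY1, hY2⟩ := Finset.exists_subset_card_eq
        (s := (W ∩ R).filter (fun t => t % 2 = 0)) (n := E0.card - r) (by omega)
      have hYE : Y ⊆ E0 := fun t ht => by
        obtain ⟨h1, h2⟩ := Finset.mem_filter.1 (hY1 ht)
        exact Finset.mem_filter.2 ⟨(Finset.mem_inter.1 h1).2, h2⟩
      have e1 : E0 \ (E0 \ Y) = Y := by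
        rw [Finset.sdiff_sdiff_self_left]
        exact Finset.inter_eq_right.2 hYE
      refine ⟨E0 \ Y, Finset.sdiff_subset.trans hE0R, ?_, ?_, ?_, ?_, ?_⟩
      · rw [Finset.card_sdiff_of_subset hYE]; omega
      · rw [Finset.sdiff_eq_empty_iff_subset.2 Finset.sdiff_subset, Finset.card_empty]
        omega
      · rw [e1]; omega
      · intro t ht
        rw [Finset.sdiff_eq_empty_iff_subset.2 Finset.sdiff_subset] at ht
        exact absurd ht (Finset.notMem_empty t)
      · intro t ht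
        rw [e1] at ht
        exact (Finset.mem_inter.1 (Finset.mem_filter.1 (hY1 ht)).1).1
  have hdR1 : Disjoint (inc P1) R := by
    rw [Finset.disjoint_left]
    intro t h1 h2
    exact (Finset.mem_sdiff.1 h2).2 (Finset.mem_union_left _ h1)
  have hdR2 : Disjoint (inc P2) R := by
    rw [Finset.disjoint_left]
    intro t h1 h2
    exact (Finset.mem_sdiff.1 h2).2 (Finset.mem_union_right _ h1)
  have hCc : (inc P2 ∪ RC).card = (inc P2).card + r := by
    rw [Finset.card_union_of_disjoint (Finset.disjoint_of_subset_right hRC1 hdR2), hRC2]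
  have hDc : (inc P1 ∪ (R \ RC)).card = (inc P1).card + (R.card - r) := by
    rw [Finset.card_union_of_disjoint (Finset.disjoint_of_subset_right Finset.sdiff_subset hdR1),
      Finset.card_sdiff_of_subset hRC1, hRC2]
  have hCr : inc P2 ∪ RC ⊆ range (s - 1) :=
    Finset.union_subset (Finset.filter_subset _ _)
      (hRC1.trans Finset.sdiff_subset)
  have hDr : inc P1 ∪ (R \ RC) ⊆ range (s - 1) :=
    Finset.union_subset (Finset.filter_subset _ _)
      (Finset.sdiff_subset.trans Finset.sdiff_subset)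
  have hCD : Disjoint (inc P2 ∪ RC) (inc P1 ∪ (R \ RC)) := by
    rw [Finset.disjoint_left]
    intro t h1 h2
    rw [Finset.mem_union] at h1 h2
    rcases h1 with h1 | h1 <;> rcases h2 with h2 | h2
    · exact (Finset.disjoint_left.1 hdis) h2 h1
    · exact (Finset.disjoint_left.1 hdR2) h1 (Finset.mem_sdiff.1 h2).1
    · exact (Finset.disjoint_left.1 hdR1) h2 (hRC1 h1)
    · exact (Finset.mem_sdiff.1 h2).2 h1
  set C := inc P2 ∪ RC with hC
  set D := inc P1 ∪ (R \ RC) with hD
  set CC := univ.filter (fun i : Fin s =>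
      2 ≤ (C.filter (fun t => t = (i : ℕ) ∨ t + 1 = i)).card) with hCC
  set DD := univ.filter (fun i : Fin s =>
      2 ≤ (D.filter (fun t => t = (i : ℕ) ∨ t + 1 = i)).card) with hDD
  have hCCc : CC.card ≤ 10 * P.card + 2 := by
    have h1 := dd_le (s := s) C (inc P2 ∪ (RC \ E0)) 1 (by norm_num) (fun t ht h1 => by
      rcases Finset.mem_union.1 ht with ht | ht
      · exact Finset.mem_union_left _ ht
      · refine Finset.mem_union_right _ (Finset.mem_sdiff.2 ⟨ht, fun h2 => ?_⟩)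
        have := (Finset.mem_filter.1 h2).2
        omega)
    have h2 := Finset.card_union_le (inc P2) (RC \ E0)
    have h1' : CC.card ≤ 2 * (inc P2 ∪ (RC \ E0)).card := by convert h1
    omega
  have hDDc : DD.card ≤ 10 * P.card + 2 := by
    have h1 := dd_le (s := s) D (inc P1 ∪ (E0 \ RC)) 0 (by norm_num) (fun t ht h1 => by
      rcases Finset.mem_union.1 ht with ht | ht
      · exact Finset.mem_union_left _ ht
      · obtain ⟨h2, h3⟩ := Finset.mem_sdiff.1 ht
        exact Finset.mem_union_right _ (Finset.mem_sdiff.2 ⟨Finset.mem_filter.2 ⟨h2, h1⟩, h3⟩))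
    have h2 := Finset.card_union_le (inc P1) (E0 \ RC)
    have h1' : DD.card ≤ 2 * (inc P1 ∪ (E0 \ RC)).card := by convert h1
    omega
  have hCDi : ∀ i : Fin s, (C.filter (fun t => t = (i : ℕ) ∨ t + 1 = i)).card +
      (D.filter (fun t => t = (i : ℕ) ∨ t + 1 = i)).card ≤ 2 := by
    intro i
    have h1 := inc_le (C ∪ D) (i : ℕ)
    rw [Finset.filter_union, Finset.card_union_of_disjoint
      (Finset.disjoint_filter_filter hCD)] at h1
    exact h1
  -- the non-special vertices of degree two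
  have hinc2 : ∀ Z ⊆ P, ∀ i : Fin s, i ∉ P → deg G (v i) = 2 → ∀ t ∈ inc Z,
      ¬ (t = (i : ℕ) ∨ t + 1 = (i : ℕ)) := by
    intro Z hZ i hi hi2 t ht hti
    obtain ⟨_, j, hj, htj⟩ := Finset.mem_filter.1 ht
    have hij : (i : ℕ) ≠ j := fun hh => hi (by rw [Fin.ext hh]; exact hZ hj)
    have := hPn j (hZ hj) i (by omega)
    omega
  have hWi : ∀ i : Fin s, deg G (v i) = 2 → ∀ t ∈ W, ¬ (t = (i : ℕ) ∨ t + 1 = (i : ℕ)) := by
    intro i hi2 t ht hti
    have h1 : 3 ≤ deg G (v i) := hWg t ht i (by omega)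
    omega
  have hC2 : ∀ i : Fin s, i ∉ P → deg G (v i) = 2 →
      (C.filter (fun t => t = (i : ℕ) ∨ t + 1 = i)).card ≤ 1 := by
    intro i hi hi2
    by_contra hno
    obtain ⟨m1, m2, m3⟩ := both_mem (E := C) (i := (i : ℕ)) (by omega)
    obtain ⟨t, ht, hti, htodd⟩ : ∃ t ∈ C, (t = (i : ℕ) ∨ t + 1 = (i : ℕ)) ∧ ¬ t % 2 = 0 := by
      by_cases hp : (i : ℕ) % 2 = 0
      · exact ⟨(i : ℕ) - 1, m2, by omega, by omega⟩
      · exact ⟨i, m1, Or.inl rfl, hp⟩
    rcases Finset.mem_union.1 ht with h1 | h1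
    · exact hinc2 P2 (Finset.filter_subset _ _) i hi hi2 t h1 hti
    · refine hWi i hi2 t (hRC5 t (Finset.mem_sdiff.2 ⟨h1, fun h2 => ?_⟩)) hti
      exact htodd (Finset.mem_filter.1 h2).2
  have hD2 : ∀ i : Fin s, i ∉ P → deg G (v i) = 2 →
      (D.filter (fun t => t = (i : ℕ) ∨ t + 1 = i)).card ≤ 1 := by
    intro i hi hi2
    by_contra hno
    obtain ⟨m1, m2, m3⟩ := both_mem (E := D) (i := (i : ℕ)) (by omega)
    obtain ⟨t, ht, hti, hteven⟩ : ∃ t ∈ D, (t = (i : ℕ) ∨ t + 1 = (i : ℕ)) ∧ t % 2 = 0 := by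
      by_cases hp : (i : ℕ) % 2 = 0
      · exact ⟨i, m1, Or.inl rfl, hp⟩
      · exact ⟨(i : ℕ) - 1, m2, by omega, by omega⟩
    rcases Finset.mem_union.1 ht with h1 | h1
    · exact hinc2 P1 (Finset.filter_subset _ _) i hi hi2 t h1 hti
    · obtain ⟨h2, h3⟩ := Finset.mem_sdiff.1 h1
      exact hWi i hi2 t (hRC6 t (Finset.mem_sdiff.2
        ⟨Finset.mem_filter.2 ⟨h2, hteven⟩, h3⟩)) hti
  -- choose the half of `Q`
  obtain ⟨H, hH1, hH2, hH3⟩ : ∃ H, DD ∩ Q ⊆ H ∧ H ⊆ Q \ CC ∧ H.card = Q.card / 2 := by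
    refine Finset.exists_subsuperset_card_eq ?_ ?_ ?_
    · intro i hi
      obtain ⟨h1, h2⟩ := Finset.mem_inter.1 hi
      refine Finset.mem_sdiff.2 ⟨h2, fun h3 => ?_⟩
      have h4 := (Finset.mem_filter.1 h1).2
      have h5 := (Finset.mem_filter.1 h3).2
      have := hCDi i
      omega
    · have h1 := Finset.card_le_card (Finset.inter_subset_left (s₁ := DD) (s₂ := Q))
      have h2 := Finset.card_le_card (Finset.inter_subset_right (s₁ := DD) (s₂ := Q))
      omega
    · have h1 := Finset.le_card_sdiff CC Q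
      omega
  have hHQ : H ⊆ Q := hH2.trans Finset.sdiff_subset
  obtain ⟨k1, k2, k3, k4⟩ := key H hHQ (by omega)
  rw [formZ h]
  refine ⟨_, _, C, D, k1, ?_, hCD, ?_, ?_, ?_⟩
  · intro k hk
    rw [Finset.card_filter, Finset.card_filter]
    exact k2 k hk
  · refine Finset.Subset.antisymm (Finset.union_subset hCr hDr) ?_
    intro t ht
    rw [Finset.mem_union, hC, hD, Finset.mem_union, Finset.mem_union]
    by_cases h1 : t ∈ inc P1
    · exact Or.inr (Or.inl h1)
    · by_cases h2 : t ∈ inc P2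
      · exact Or.inl (Or.inl h2)
      · have h3 : t ∈ R := Finset.mem_sdiff.2 ⟨ht, fun hh => by
          rcases Finset.mem_union.1 hh with hh | hh
          · exact h1 hh
          · exact h2 hh⟩
        by_cases h5 : t ∈ RC
        · exact Or.inl (Or.inr h5)
        · exact Or.inr (Or.inr (Finset.mem_sdiff.2 ⟨h3, h5⟩))
  · intro i
    have k1' := inc_le C (i : ℕ)
    have k2' := inc_le D (i : ℕ)
    have k3' := hxy0 i
    have k4' := h2d i
    by_cases hiQ : i ∈ Q
    · rw [if_pos hiQ, if_pos hiQ]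
      by_cases hiH : i ∈ H
      · rw [if_pos hiH, if_pos hiH]
        refine ⟨?_, k2'⟩
        by_contra hno
        exact (Finset.mem_sdiff.1 (hH2 hiH)).2
          (Finset.mem_filter.2 ⟨Finset.mem_univ _, by omega⟩)
      · rw [if_neg hiH, if_neg hiH]
        refine ⟨k1', ?_⟩
        by_contra hno
        exact hiH (hH1 (Finset.mem_inter.2
          ⟨Finset.mem_filter.2 ⟨Finset.mem_univ _, by omega⟩, hiQ⟩))
    · rw [if_neg hiQ, if_neg hiQ]
      by_cases hi : i ∈ P
      · by_cases hx1 : x0 i ≤ 1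
        · have hiP1 : i ∈ P1 := Finset.mem_filter.2 ⟨hi, hx1⟩
          have hempty : C.filter (fun t => t = (i : ℕ) ∨ t + 1 = i) = ∅ := by
            rw [Finset.filter_eq_empty_iff]
            intro t ht hti
            have h1 := mem_inc hiP1 (hCr ht) hti
            exact (Finset.disjoint_left.1 hCD) ht (Finset.mem_union_left _ h1)
          rw [hempty, Finset.card_empty]
          have hps : 2 ≤ y0 i := by
            have h5 := hPs i hi
            rcases hsw i with ⟨h6, h7⟩ | ⟨h6, h7⟩ <;> omega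
          exact ⟨Nat.zero_le _, by omega⟩
        · have hiP2 : i ∈ P2 := Finset.mem_filter.2 ⟨hi, hx1⟩
          have hempty : D.filter (fun t => t = (i : ℕ) ∨ t + 1 = i) = ∅ := by
            rw [Finset.filter_eq_empty_iff]
            intro t ht hti
            have h1 := mem_inc hiP2 (hDr ht) hti
            exact (Finset.disjoint_left.1 hCD) (Finset.mem_union_left _ h1) ht
          rw [hempty, Finset.card_empty]
          exact ⟨by omega, Nat.zero_le _⟩
      · by_cases hi2 : deg G (v i) = 2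
        · have h5 := htwo0 i hi hi2
          have h6 := hC2 i hi hi2
          have h7 := hD2 i hi hi2
          exact ⟨by omega, by omega⟩
        · have := hbig0 i hi hiQ hi2
          exact ⟨by omega, by omega⟩
  · rw [hCc, hDc, Finset.card_filter, Finset.card_filter]
    have k3'' : ∑ i, (if (if i ∈ Q then (if i ∈ H then 1 else 2) else x0 i) = 0 then 1 else 0) =
        zx := k3
    have k4'' : ∑ i, (if (if i ∈ Q then (if i ∈ H then 2 else 1) else y0 i) = 0 then 1 else 0) =
        zy := k4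
    rw [k3'', k4'']
    exact hr1

end Pool.Agent.W_e8e3a0
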