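import Mathlib

/-!
Number part of the splitting problem for caterpillars: `d i` is the degree of the
`i`-th spine vertex, a splitting gives `x i + y i = d i`.
-/

namespace Pool.Agent.W_e8e3a0.Num49

open Finset

variable {I : Type} [DecidableEq I]

/-- number of `i ∈ P` with `x i = k` -/
def cx (x : I → ℕ) (P : Finset I) (k : ℕ) : ℕ := ∑ i ∈ P, if x i = k then 1 else 0

theorem cx_congr {x x' : I → ℕ} {P : Finset I} (h : ∀ i ∈ P, x i = x' i) (k : ℕ) :
    cx x P k = cx x' P k := by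
  unfold cx
  exact Finset.sum_congr rfl (fun i hi => by rw [h i hi])

theorem cx_union {x : I → ℕ} {P Q : Finset I} (h : Disjoint P Q) (k : ℕ) :
    cx x (P ∪ Q) k = cx x P k + cx x Q k := by
  unfold cx
  exact Finset.sum_union h

/-- gluing of two assignments -/
theorem glue {x₁ y₁ x₂ y₂ : I → ℕ} {P Q : Finset I} (h : Disjoint P Q) :
    ∃ x y : I → ℕ, (∀ i ∈ P, x i = x₁ i ∧ y i = y₁ i) ∧ (∀ i ∈ Q, x i = x₂ i ∧ y i = y₂ i) ∧
      (∀ k, cx x (P ∪ Q) k = cx x₁ P k + cx x₂ Q k) ∧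
      (∀ k, cx y (P ∪ Q) k = cx y₁ P k + cx y₂ Q k) := by
  refine ⟨fun i => if i ∈ P then x₁ i else x₂ i, fun i => if i ∈ P then y₁ i else y₂ i, ?_, ?_,
    ?_, ?_⟩
  · intro i hi; simp [hi]
  · intro i hi
    have : i ∉ P := fun h' => (Finset.disjoint_left.1 h) h' hi
    simp [this]
  · intro k
    rw [cx_union h]
    congr 1
    · exact cx_congr (fun i hi => by simp [hi]) k
    · exact cx_congr (fun i hi => by
        have : i ∉ P := fun h' => (Finset.disjoint_left.1 h) h' hi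
        simp [this]) k
  · intro k
    rw [cx_union h]
    congr 1
    · exact cx_congr (fun i hi => by simp [hi]) k
    · exact cx_congr (fun i hi => by
        have : i ∉ P := fun h' => (Finset.disjoint_left.1 h) h' hi
        simp [this]) k

/-- `P` splits into closed walks with all values `≥ 1` -/
def Good (d : I → ℕ) (P : Finset I) : Prop :=
  ∃ x y : I → ℕ, (∀ i ∈ P, x i + y i = d i ∧ 1 ≤ x i ∧ 1 ≤ y i) ∧ ∀ k, cx x P k = cx y P k

/-- `P` is a path from the value `q` to the value `z` -/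
def Seg (d : I → ℕ) (P : Finset I) (q z : ℕ) : Prop :=
  ∃ (x y : I → ℕ), (∀ i ∈ P, x i + y i = d i ∧ 1 ≤ x i ∧ (1 ≤ y i ∨ z = 0)) ∧
    ∀ k, cx x P k + (if k = z then 1 else 0) = cx y P k + (if k = q then 1 else 0)

theorem good_empty (d : I → ℕ) : Good d ∅ := ⟨d, d, by simp, fun _ => rfl⟩

theorem Good.union {d : I → ℕ} {P Q : Finset I} (hP : Good d P) (hQ : Good d Q)
    (h : Disjoint P Q) : Good d (P ∪ Q) := by
  obtain ⟨x₁, y₁, h₁, b₁⟩ := hP
  obtain ⟨x₂, y₂, h₂, b₂⟩ := hQ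
  obtain ⟨x, y, a, b, c, e⟩ := glue (x₁ := x₁) (y₁ := y₁) (x₂ := x₂) (y₂ := y₂) h
  refine ⟨x, y, ?_, ?_⟩
  · intro i hi
    rcases Finset.mem_union.1 hi with hi | hi
    · have := h₁ i hi; have := a i hi; omega
    · have := h₂ i hi; have := b i hi; omega
  · intro k; rw [c, e, b₁, b₂]

theorem Seg.trans {d : I → ℕ} {P Q : Finset I} {q r z : ℕ} (hr : 1 ≤ r) (hP : Seg d P q r)
    (hQ : Seg d Q r z) (h : Disjoint P Q) : Seg d (P ∪ Q) q z := by
  obtain ⟨x₁, y₁, h₁, b₁⟩ := hP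
  obtain ⟨x₂, y₂, h₂, b₂⟩ := hQ
  obtain ⟨x, y, a, b, c, e⟩ := glue (x₁ := x₁) (y₁ := y₁) (x₂ := x₂) (y₂ := y₂) h
  refine ⟨x, y, ?_, ?_⟩
  · intro i hi
    rcases Finset.mem_union.1 hi with hi | hi
    · have := h₁ i hi; have := a i hi; omega
    · have := h₂ i hi; have := b i hi; omega
  · intro k
    have h1 := b₁ k
    have h2 := b₂ k
    rw [c, e]
    omega

theorem Seg.good {d : I → ℕ} {P Q : Finset I} {q z : ℕ} (hP : Seg d P q z)
    (hQ : Good d Q) (h : Disjoint P Q) : Seg d (P ∪ Q) q z := by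
  obtain ⟨x₁, y₁, h₁, b₁⟩ := hP
  obtain ⟨x₂, y₂, h₂, b₂⟩ := hQ
  obtain ⟨x, y, a, b, c, e⟩ := glue (x₁ := x₁) (y₁ := y₁) (x₂ := x₂) (y₂ := y₂) h
  refine ⟨x, y, ?_, ?_⟩
  · intro i hi
    rcases Finset.mem_union.1 hi with hi | hi
    · have := h₁ i hi; have := a i hi; omega
    · have := h₂ i hi; have := b i hi; omega
  · intro k
    have h1 := b₁ k
    have h2 := b₂ k
    rw [c, e]
    omega

theorem seg_empty (d : I → ℕ) (q : ℕ) : Seg d ∅ q q := ⟨d, d, by simp, fun _ => rfl⟩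

/-- one vertex -/
theorem seg_one {d : I → ℕ} {i : I} {q z : ℕ} (h : q + z = d i) (hq : 1 ≤ q) :
    Seg d {i} q z := by
  refine ⟨fun _ => q, fun _ => z, ?_, ?_⟩
  · intro j hj
    rw [Finset.mem_singleton] at hj
    subst hj
    refine ⟨h, hq, ?_⟩
    dsimp only
    omega
  · intro k
    simp only [cx, Finset.sum_singleton]
    rw [if_congr (eq_comm (a := q) (b := k)) rfl rfl, if_congr (eq_comm (a := z) (b := k)) rfl rfl]
    omega

theorem good_even {d : I → ℕ} {i : I} (h : Even (d i)) (h2 : 2 ≤ d i) : Good d {i} := by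
  obtain ⟨c, hc⟩ := h
  refine ⟨fun _ => c, fun _ => c, ?_, fun _ => rfl⟩
  intro j hj
  rw [Finset.mem_singleton] at hj
  subst hj
  simp only
  omega

theorem good_pair {d : I → ℕ} {i j : I} (hij : i ≠ j) (h : d i = d j) (h2 : 2 ≤ d i) :
    Good d {i, j} := by
  have e : ({i, j} : Finset I) = {i} ∪ {j} := rfl
  have h1 : Seg d {i} 1 (d i - 1) := seg_one (by omega) le_rfl
  have h3 : Seg d {j} (d i - 1) 1 := seg_one (by omega) (by omega)
  obtain ⟨x, y, a, b⟩ := h1.trans (by omega) h3 (by simpa using hij)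
  rw [← e] at a b
  refine ⟨x, y, ?_, ?_⟩
  · intro i hi
    have := a i hi
    omega
  · intro k
    have := b k
    omega

end Pool.Agent.W_e8e3a0.Num49
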