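import Pool.Agent.W_e8e3a0.RareJ49

/-! Splittings from balanced parts; special vertices may be close if their sides agree. -/

namespace Pool.Agent.W_e8e3a0

open Finset Num49

/-- edges at special vertices keep the wanted sides -/
theorem sep_io {s : ℕ} (r : ℕ → Prop) [DecidablePred r] (P : Finset (Fin s)) (want : Fin s → ℕ)
    (hrP : ∀ i ∈ P, ¬ r (i : ℕ))
    (hP : ∀ i ∈ P, ∀ j ∈ P, i < j → (∃ k : Fin s, i < k ∧ k < j ∧ ¬ r (k : ℕ)) ∨
      ((i : ℕ) % 2 = want i ↔ ((j : ℕ) - 1) % 2 = want j))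
    (p : Fin s) (hp : p ∈ P) (t : ℕ) (htp : t = (p : ℕ) ∨ t + 1 = (p : ℕ)) (hpar : t % 2 = want p)
    (q : Fin s) (hq : q ∈ P) (t' : ℕ) (htq : t' = (q : ℕ) ∨ t' + 1 = (q : ℕ))
    (hpar' : ¬ t' % 2 = want q) : rep r t ≠ rep r t' := by
  intro heq
  have l1 := rep_le r t
  have l2 := rep_le r t'
  rcases lt_trichotomy p q with hpq | hpq | hpq
  · have hpq' : (p : ℕ) < q := hpq
    have h1 : t = (p : ℕ) := by
      rcases htp with e | e
      · exact e
      · have := le_rep r (hrP p hp) (t := t') (by omega)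
        omega
    have h2 : t' + 1 = (q : ℕ) := by
      rcases htq with e | e
      · have := le_rep r (hrP q hq) (t := t') (by omega)
        omega
      · exact e
    rcases hP p hp q hq hpq with ⟨k, hk1, hk2, hk3⟩ | hc
    · have hk1' : (p : ℕ) < k := hk1
      have hk2' : (k : ℕ) < q := hk2
      have := le_rep r hk3 (t := t') (by omega)
      omega
    · apply hpar'
      have h3 : t' = (q : ℕ) - 1 := by omega
      rw [h3]
      exact hc.1 (by rw [← h1]; exact hpar)
  · subst hpq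
    rcases htp with e1 | e1
    · rcases htq with e2 | e2
      · exact hpar' (by rw [e2, ← e1]; exact hpar)
      · have := le_rep r (hrP p hp) (t := t) (by omega)
        omega
    · rcases htq with e2 | e2
      · have := le_rep r (hrP p hp) (t := t') (by omega)
        omega
      · have : t = t' := by omega
        exact hpar' (by rw [← this]; exact hpar)
  · have hpq' : (q : ℕ) < p := hpq
    have h1 : t' = (q : ℕ) := by
      rcases htq with e | e
      · exact e
      · have := le_rep r (hrP q hq) (t := t) (by omega)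
        omega
    have h2 : t + 1 = (p : ℕ) := by
      rcases htp with e | e
      · have := le_rep r (hrP p hp) (t := t) (by omega)
        omega
      · exact e
    rcases hP q hq p hp hpq with ⟨k, hk1, hk2, hk3⟩ | hc
    · have hk1' : (q : ℕ) < k := hk1
      have hk2' : (k : ℕ) < p := hk2
      have := le_rep r hk3 (t := t) (by omega)
      omega
    · apply hpar'
      rw [h1]
      have h3 : t = (p : ℕ) - 1 := by omega
      exact hc.2 (by rw [← h3]; exact hpar)

variable {V : Type} [Fintype V]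

/-- oriented version of `wide_split2` -/
theorem wide_or2 {G : SimpleGraph V} {s : ℕ} {v : Fin s → V} (h : IsSpine G v)
    (hev : Even G.edgeSet.ncard) (P : Finset (Fin s))
    (a b : Fin s → ℕ)
    (hP : ∀ i ∈ P, ∀ j ∈ P, i < j → (∃ k : Fin s, i < k ∧ k < j ∧ 3 ≤ deg G (v k)) ∨
      ((i : ℕ) % 2 = (if a i ≤ 1 then 0 else 1) ↔
        ((j : ℕ) - 1) % 2 = (if a j ≤ 1 then 0 else 1)))
    (hab : ∀ i, a i + b i = deg G (v i)) (hPs : ∀ i ∈ P, a i ≠ 1 ∨ b i ≠ 1)
    (hn : ∀ i, i ∉ P → (deg G (v i) = 2 → a i = 1 ∧ b i = 1) ∧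
      (4 ≤ deg G (v i) → 2 ≤ a i ∧ 2 ≤ b i))
    (Q : Finset (Fin s)) (hQm : ∀ i, i ∈ Q ↔ i ∉ P ∧ deg G (v i) = 3)
    (hQ2 : Q.card % 2 = 0) (hb0 : ∀ k, 2 ≤ k → cx a (univ \ Q) k = cx b (univ \ Q) k)
    (W : Finset (Fin s × Fin s)) (hW : ∀ p ∈ W, p.1 < p.2 ∧ ((p.2 : ℕ) - p.1) % 2 = 1 ∧
      3 ≤ deg G (v p.1) ∧ 3 ≤ deg G (v p.2))
    (hWd : ∀ p ∈ W, ∀ q ∈ W, p ≠ q → p.2 ≤ q.1 ∨ q.2 ≤ p.1)
    (hWc : 8 * P.card + 3 ≤ W.card) (hQc : Q.card = 0 ∨ 12 * P.card + 4 ≤ Q.card) :
    Splittable G := by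
  classical
  have h2d : ∀ i, 2 ≤ deg G (v i) := h.two
  set U := univ \ Q with hU
  have hUQ : ∀ (z : Fin s → ℕ) k, cx z univ k = cx z U k + cx z Q k := by
    intro z k
    unfold cx
    exact (Finset.sum_sdiff (Finset.subset_univ Q)).symm
  obtain ⟨x0, y0, hsw, hb, hx0, hy0⟩ : ∃ x0 y0 : Fin s → ℕ,
      (∀ i, (x0 i = a i ∧ y0 i = b i) ∨ (x0 i = b i ∧ y0 i = a i)) ∧
      (∀ k, 2 ≤ k → cx x0 U k = cx y0 U k) ∧ x0 = a ∧ y0 = b :=
    ⟨a, b, fun i => Or.inl ⟨rfl, rfl⟩, hb0, rfl, rfl⟩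
  have hxy0 : ∀ i, x0 i + y0 i = deg G (v i) := by
    intro i
    have h1 := hab i
    rcases hsw i with ⟨h2, h3⟩ | ⟨h2, h3⟩ <;> omega
  have hbig0 : ∀ i, i ∉ P → i ∉ Q → deg G (v i) ≠ 2 → 2 ≤ x0 i ∧ 2 ≤ y0 i := by
    intro i hi hiQ hi2
    have h0 := h2d i
    have hne3 : deg G (v i) ≠ 3 := fun hh => hiQ ((hQm i).2 ⟨hi, hh⟩)
    have h1 := (hn i hi).2 (by omega)
    rcases hsw i with ⟨h2, h3⟩ | ⟨h2, h3⟩ <;> omega
  have htwo0 : ∀ i, i ∉ P → deg G (v i) = 2 → x0 i = 1 ∧ y0 i = 1 := by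
    intro i hi hi2
    have h1 := (hn i hi).1 hi2
    rcases hsw i with ⟨h2, h3⟩ | ⟨h2, h3⟩ <;> omega
  have hone0 : ∀ i, i ∉ P → i ∉ Q → 1 ≤ x0 i ∧ 1 ≤ y0 i := by
    intro i hi hiQ
    by_cases hi2 : deg G (v i) = 2
    · have := htwo0 i hi hi2
      omega
    · have := hbig0 i hi hiQ hi2
      omega
  have hzle : ∀ z : Fin s → ℕ, (∀ i, i ∉ P → i ∉ Q → 1 ≤ z i) → cx z U 0 ≤ P.card := by
    intro z hz
    unfold cx
    rw [← Finset.card_filter]
    refine Finset.card_le_card (fun i hi => ?_)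
    obtain ⟨h1, h2⟩ := Finset.mem_filter.1 hi
    by_contra hno
    have := hz i hno (Finset.mem_sdiff.1 h1).2
    omega
  have z1 := hzle x0 (fun i h1 h2 => (hone0 i h1 h2).1)
  have z2' := hzle y0 (fun i h1 h2 => (hone0 i h1 h2).2)
  -- the final parts for a given half of `Q`
  have key : ∀ H ⊆ Q, 2 * H.card = Q.card →
      (∀ i, (if i ∈ Q then (if i ∈ H then 1 else 2) else x0 i) +
        (if i ∈ Q then (if i ∈ H then 2 else 1) else y0 i) = deg G (v i)) ∧
      (∀ k, 2 ≤ k → cx (fun i => if i ∈ Q then (if i ∈ H then 1 else 2) else x0 i) univ k =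
        cx (fun i => if i ∈ Q then (if i ∈ H then 2 else 1) else y0 i) univ k) ∧
      cx (fun i => if i ∈ Q then (if i ∈ H then 1 else 2) else x0 i) univ 0 = cx x0 U 0 ∧
      cx (fun i => if i ∈ Q then (if i ∈ H then 2 else 1) else y0 i) univ 0 = cx y0 U 0 := by
    intro H hHQ hH2
    have hsd : (Q \ H).card = H.card := by
      rw [Finset.card_sdiff_of_subset hHQ]; omega
    have f1 : ∀ k, cx (fun i => if i ∈ Q then (if i ∈ H then 1 else 2) else x0 i) univ k =
        cx x0 U k + ((if 1 = k then H.card else 0) + (if 2 = k then H.card else 0)) := by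
      intro k
      rw [hUQ, cx_congr (x' := x0) (fun i hi => if_neg (Finset.mem_sdiff.1 hi).2) k,
        cx_two hHQ 1 2 k _ (fun i hi => by
          show (if i ∈ Q then (if i ∈ H then 1 else 2) else x0 i) = 1
          rw [if_pos (hHQ hi), if_pos hi]) (fun i hi => by
          show (if i ∈ Q then (if i ∈ H then 1 else 2) else x0 i) = 2
          rw [if_pos (Finset.mem_sdiff.1 hi).1, if_neg (Finset.mem_sdiff.1 hi).2]), hsd]
    have f2 : ∀ k, cx (fun i => if i ∈ Q then (if i ∈ H then 2 else 1) else y0 i) univ k =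
        cx y0 U k + ((if 2 = k then H.card else 0) + (if 1 = k then H.card else 0)) := by
      intro k
      rw [hUQ, cx_congr (x' := y0) (fun i hi => if_neg (Finset.mem_sdiff.1 hi).2) k,
        cx_two hHQ 2 1 k _ (fun i hi => by
          show (if i ∈ Q then (if i ∈ H then 2 else 1) else y0 i) = 2
          rw [if_pos (hHQ hi), if_pos hi]) (fun i hi => by
          show (if i ∈ Q then (if i ∈ H then 2 else 1) else y0 i) = 1
          rw [if_pos (Finset.mem_sdiff.1 hi).1, if_neg (Finset.mem_sdiff.1 hi).2]), hsd]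
    refine ⟨?_, ?_, ?_, ?_⟩
    · intro i
      by_cases hi : i ∈ Q
      · rw [if_pos hi, if_pos hi, ((hQm i).1 hi).2]
        split_ifs <;> rfl
      · rw [if_neg hi, if_neg hi]; exact hxy0 i
    · intro k hk
      rw [f1, f2, hb k hk]
      omega
    · rw [f1]; simp
    · rw [f2]; simp
  -- parity of the number of zeros
  have e1 := edges_eq h
  have e2 := sum_spine h
  obtain ⟨m, hm⟩ := hev
  have hpz : (s - 1 + cx x0 U 0 + cx y0 U 0) % 2 = 0 := by
    obtain ⟨H0, hH0, hH0c⟩ := Finset.exists_subset_card_eq (s := Q) (n := Q.card / 2) (by omega)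
    obtain ⟨k1, k2, k3, k4⟩ := key H0 hH0 (by omega)
    have e3 := sum_diff k2
    have e4 := zero_diff k2
    have e5 : ∑ i, (if i ∈ Q then (if i ∈ H0 then 1 else 2) else x0 i) +
        ∑ i, (if i ∈ Q then (if i ∈ H0 then 2 else 1) else y0 i) =
        2 * (s - 1) + (offSpine v).card := by
      rw [← Finset.sum_add_distrib, ← e2]
      exact Finset.sum_congr rfl (fun i _ => k1 i)
    rw [k3, k4] at e4
    omega
  set zx := cx x0 U 0 with hzx
  set zy := cx y0 U 0 with hzy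
  -- rigid vertices, classes of edges
  set r : ℕ → Prop := fun i => ∃ hi : i < s, (⟨i, hi⟩ : Fin s) ∉ P ∧ deg G (v ⟨i, hi⟩) = 2 with hr
  have hrP : ∀ i ∈ P, ¬ r (i : ℕ) := by
    rintro i hi ⟨_, h1, _⟩
    exact h1 hi
  have hr3 : ∀ i : Fin s, 3 ≤ deg G (v i) → ¬ r (i : ℕ) := by
    rintro i hi ⟨_, _, h1⟩
    have h1' : deg G (v i) = 2 := h1
    omega
  set want : Fin s → ℕ := fun i => if x0 i ≤ 1 then 0 else 1 with hwant
  have hwant2 : ∀ i, want i < 2 := by
    intro i; rw [hwant]; dsimp only; split_ifs <;> omega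
  set inF := (range (s - 1)).filter (fun t => ∃ p ∈ P, (t = (p : ℕ) ∨ t + 1 = (p : ℕ)) ∧
    t % 2 = want p) with hinF
  set outF := (range (s - 1)).filter (fun t => ∃ p ∈ P, (t = (p : ℕ) ∨ t + 1 = (p : ℕ)) ∧
    ¬ t % 2 = want p) with houtF
  have hinc : inF.card ≤ P.card := by
    have h1 : inF ⊆ P.image (fun p : Fin s => if (p : ℕ) % 2 = want p then (p : ℕ) else (p : ℕ) - 1) := by
      intro t ht
      obtain ⟨_, p, hp, htp, hpar⟩ := Finset.mem_filter.1 ht
      refine Finset.mem_image.2 ⟨p, hp, ?_⟩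
      have := hwant2 p
      split_ifs <;> omega
    exact (Finset.card_le_card h1).trans Finset.card_image_le
  have houtc : outF.card ≤ P.card := by
    have h1 : outF ⊆ P.image (fun p : Fin s => if (p : ℕ) % 2 = want p then (p : ℕ) - 1 else (p : ℕ)) := by
      intro t ht
      obtain ⟨_, p, hp, htp, hpar⟩ := Finset.mem_filter.1 ht
      refine Finset.mem_image.2 ⟨p, hp, ?_⟩
      have := hwant2 p
      split_ifs <;> omega
    exact (Finset.card_le_card h1).trans Finset.card_image_le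
  have hsep : ∀ t ∈ inF, ∀ t' ∈ outF, rep r t ≠ rep r t' := by
    intro t ht t' ht'
    obtain ⟨_, p, hp, htp, hpar⟩ := Finset.mem_filter.1 ht
    obtain ⟨_, q, hq, htq, hpar'⟩ := Finset.mem_filter.1 ht'
    refine sep_io r P want hrP (fun i hi j hj hij => ?_) p hp t htp hpar q hq t' htq hpar'
    rcases hP i hi j hj hij with ⟨k, k1, k2, k3⟩ | hc
    · exact Or.inl ⟨k, k1, k2, hr3 k k3⟩
    · right
      rw [hwant, hx0]
      exact hc
  set G0 := inF.image (rep r) with hG0
  set bad := outF.image (rep r) with hbad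
  have hG0c : G0.card ≤ P.card := Finset.card_image_le.trans hinc
  have hbadc : bad.card ≤ P.card := Finset.card_image_le.trans houtc
  have hG0bad : Disjoint G0 bad := by
    rw [Finset.disjoint_left]
    intro u h1 h2
    obtain ⟨t, ht, e1⟩ := Finset.mem_image.1 h1
    obtain ⟨t', ht', e2⟩ := Finset.mem_image.1 h2
    exact hsep t ht t' ht' (e1.trans e2.symm)
  have hB0 : |∑ u ∈ G0, cs r (s - 1) u| ≤ (P.card : ℤ) := by
    refine (Finset.abs_sum_le_sum_abs _ _).trans ?_
    refine (Finset.sum_le_sum (g := fun _ => (1 : ℤ)) (fun u _ => ?_)).trans ?_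
    · rcases cs_cases r (s - 1) u with h1 | h1 <;> rw [h1]
      · simp
      · unfold sgn; split_ifs <;> simp
    · rw [Finset.sum_const, nsmul_eq_mul, mul_one]
      exact_mod_cast hG0c
  rw [abs_le] at hB0
  set B0 := ∑ u ∈ G0, cs r (s - 1) u with hB0d
  have hWcls : ∀ p ∈ W, (p.1 : ℕ) < p.2 ∧ (p.2 : ℕ) ≤ s - 1 ∧ ((p.2 : ℕ) - p.1) % 2 = 1 ∧
      ¬ r (p.1 : ℕ) ∧ ¬ r (p.2 : ℕ) := by
    intro p hp
    obtain ⟨h1, h2, h3, h4⟩ := hW p hp
    have h5 := p.2.2
    exact ⟨h1, by omega, h2, hr3 _ h3, hr3 _ h4⟩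
  -- the required sum
  obtain ⟨V0, hV0⟩ : ∃ V0 : ℤ, 2 * V0 = (((s - 1 : ℕ) : ℤ) % 2) + zx - zy := by
    refine ⟨((((s - 1 : ℕ) : ℤ) % 2) + zx - zy) / 2, ?_⟩
    omega
  obtain ⟨σ, hσ, m, hm0, hmc⟩ : ∃ σ : ℤ, (σ = 1 ∨ σ = -1) ∧ ∃ m : ℕ, B0 + σ * m = V0 ∧
      m ≤ 2 * P.card + 1 := by
    rcases le_total B0 V0 with h1 | h1
    · refine ⟨1, Or.inl rfl, (V0 - B0).toNat, ?_, ?_⟩
      · rw [Int.toNat_of_nonneg (by omega)]; ring
      · omega
    · refine ⟨-1, Or.inr rfl, (B0 - V0).toNat, ?_, ?_⟩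
      · rw [Int.toNat_of_nonneg (by omega)]; ring
      · omega
  set Us := ((range (s - 1)).image (rep r)).filter (fun u => cs r (s - 1) u = σ) with hUs
  have hUsc : W.card ≤ 2 * Us.card + 1 := many_classes2 r (s - 1) W (fun p => (p.1 : ℕ))
    (fun p => (p.2 : ℕ)) hWcls hWd σ hσ
  obtain ⟨X, hX1, hX2⟩ : ∃ X ⊆ Us \ (G0 ∪ bad), X.card = m := by
    refine Finset.exists_subset_card_eq ?_
    have h1 := Finset.le_card_sdiff (G0 ∪ bad) Us
    have h2 := Finset.card_union_le G0 bad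
    omega
  have hXG : Disjoint G0 X := by
    rw [Finset.disjoint_left]
    intro u h1 h2
    exact (Finset.mem_sdiff.1 (hX1 h2)).2 (Finset.mem_union_left _ h1)
  set GG := G0 ∪ X with hGG
  have hGGc : GG.card ≤ 3 * P.card + 1 := by
    have h1 : GG.card ≤ G0.card + X.card := Finset.card_union_le _ _
    omega
  have hGGbad : ∀ u ∈ bad, u ∉ GG := by
    intro u hu hu2
    rcases Finset.mem_union.1 hu2 with h1 | h1
    · exact (Finset.disjoint_left.1 hG0bad) h1 hu
    · exact (Finset.mem_sdiff.1 (hX1 h1)).2 (Finset.mem_union_right _ hu)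
  have hsumGG : ∑ u ∈ GG, cs r (s - 1) u = V0 := by
    rw [hGG, Finset.sum_union hXG, ← hB0d, ← hm0]
    congr 1
    rw [Finset.sum_congr rfl (fun u hu =>
      (Finset.mem_filter.1 (Finset.mem_sdiff.1 (hX1 hu)).1).2), Finset.sum_const, hX2,
      nsmul_eq_mul, mul_comm]
  set F := (range (s - 1)).filter (fun t => rep r t ∈ GG) with hF
  have hsumF : ∑ t ∈ F, sgn t = V0 := by rw [← hsumGG, sum_cs]
  set C := (range (s - 1)).filter (fun t => (t % 2 = 0 ∧ t ∉ F) ∨ (¬ t % 2 = 0 ∧ t ∈ F)) with hC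
  set D := (range (s - 1)).filter (fun t => ¬ ((t % 2 = 0 ∧ t ∉ F) ∨ (¬ t % 2 = 0 ∧ t ∈ F)))
    with hD
  have hCD : Disjoint C D := Finset.disjoint_filter_filter_not _ _ _
  have hCDu : C ∪ D = range (s - 1) := Finset.filter_union_filter_not_eq _ _
  have hdiff : (C.card : ℤ) - (D.card : ℤ) = zy - zx := by
    have h1 : (C.card : ℤ) - (D.card : ℤ) =
        ∑ t ∈ range (s - 1), (sgn t - 2 * (if t ∈ F then sgn t else 0)) := by
      rw [hC, hD, Finset.card_filter, Finset.card_filter]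
      push_cast
      rw [← Finset.sum_sub_distrib]
      refine Finset.sum_congr rfl (fun t _ => ?_)
      unfold sgn
      by_cases h1 : t % 2 = 0 <;> by_cases h2 : t ∈ F <;> simp [h1, h2]
    rw [h1, Finset.sum_sub_distrib, sum_sgn, ← Finset.mul_sum, ← Finset.sum_filter]
    have h2 : (range (s - 1)).filter (fun t => t ∈ F) = F := by
      rw [hF]
      ext t
      simp only [Finset.mem_filter]
      tauto
    rw [h2, hsumF, hV0]
    split_ifs <;> omega
  have hcnt : C.card + zx = D.card + zy := by omega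
  have hFm : ∀ t, t < s - 1 → (t ∈ F ↔ rep r t ∈ GG) := by
    intro t ht
    rw [hF, Finset.mem_filter, Finset.mem_range]
    exact ⟨fun hh => hh.2, fun hh => ⟨ht, hh⟩⟩
  have hCr : ∀ t ∈ C, t < s - 1 := fun t ht => Finset.mem_range.1 (Finset.mem_filter.1 ht).1
  have hDr : ∀ t ∈ D, t < s - 1 := fun t ht => Finset.mem_range.1 (Finset.mem_filter.1 ht).1
  -- both edges at `i` in the same set
  have hsame : ∀ i : Fin s, (2 ≤ (C.filter (fun t => t = (i : ℕ) ∨ t + 1 = i)).card ∨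
      2 ≤ (D.filter (fun t => t = (i : ℕ) ∨ t + 1 = i)).card) →
      1 ≤ (i : ℕ) ∧ (i : ℕ) < s - 1 ∧ ¬ (rep r (i : ℕ) ∈ GG ↔ rep r ((i : ℕ) - 1) ∈ GG) := by
    intro i hi
    rcases hi with hi | hi
    · obtain ⟨m1, m2, m3⟩ := both_mem hi
      have b1 := hCr _ m1
      have b2 := hCr _ m2
      have c1 := (Finset.mem_filter.1 m1).2
      have c2 := (Finset.mem_filter.1 m2).2
      rw [hFm _ b1] at c1
      rw [hFm _ b2] at c2
      refine ⟨m3, b1, fun hh => ?_⟩
      rw [← hh] at c2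
      rcases c1 with ⟨c1, c1'⟩ | ⟨c1, c1'⟩ <;> rcases c2 with ⟨c2, c2'⟩ | ⟨c2, c2'⟩
      · omega
      · exact c1' c2'
      · exact c2' c1'
      · omega
    · obtain ⟨m1, m2, m3⟩ := both_mem hi
      have b1 := hDr _ m1
      have b2 := hDr _ m2
      have c1 := (Finset.mem_filter.1 m1).2
      have c2 := (Finset.mem_filter.1 m2).2
      rw [hFm _ b1] at c1
      rw [hFm _ b2] at c2
      refine ⟨m3, b1, fun hh => ?_⟩
      rw [← hh] at c2
      rw [not_or, not_and, not_and] at c1 c2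
      by_cases hg : rep r (i : ℕ) ∈ GG
      · have d1 : (i : ℕ) % 2 = 0 := by
          by_contra h0; exact c1.2 h0 hg
        have d2 : ((i : ℕ) - 1) % 2 = 0 := by
          by_contra h0; exact c2.2 h0 hg
        omega
      · have d1 : ¬ (i : ℕ) % 2 = 0 := fun h0 => c1.1 h0 hg
        have d2 : ¬ ((i : ℕ) - 1) % 2 = 0 := fun h0 => c2.1 h0 hg
        omega
  have hrig : ∀ i : Fin s, i ∉ P → deg G (v i) = 2 →
      (C.filter (fun t => t = (i : ℕ) ∨ t + 1 = i)).card ≤ 1 ∧
      (D.filter (fun t => t = (i : ℕ) ∨ t + 1 = i)).card ≤ 1 := by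
    intro i hi hi2
    by_contra hno
    obtain ⟨m1, m2, m3⟩ := hsame i (by omega)
    apply m3
    rw [rep_rigid r (i := (i : ℕ)) ⟨i.2, hi, hi2⟩ m1]
  -- the defects
  set CC := univ.filter (fun i : Fin s =>
      2 ≤ (C.filter (fun t => t = (i : ℕ) ∨ t + 1 = i)).card) with hCC
  set DD := univ.filter (fun i : Fin s =>
      2 ≤ (D.filter (fun t => t = (i : ℕ) ∨ t + 1 = i)).card) with hDD
  have hQr : ∀ i ∈ Q, ¬ r (i : ℕ) := fun i hi => hr3 i (by rw [((hQm i).1 hi).2])
  have hdef : ((CC ∪ DD) ∩ Q).card ≤ 6 * P.card + 2 := by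
    have h1 : (CC ∪ DD) ∩ Q ⊆ (Q.filter (fun i : Fin s => rep r (i : ℕ) ∈ GG)) ∪
        (Q.filter (fun i : Fin s => 1 ≤ (i : ℕ) ∧ rep r ((i : ℕ) - 1) ∈ GG)) := by
      intro i hi
      obtain ⟨h1, h2⟩ := Finset.mem_inter.1 hi
      have h3 : 1 ≤ (i : ℕ) ∧ (i : ℕ) < s - 1 ∧
          ¬ (rep r (i : ℕ) ∈ GG ↔ rep r ((i : ℕ) - 1) ∈ GG) := by
        apply hsame
        rcases Finset.mem_union.1 h1 with h1 | h1
        · exact Or.inl (Finset.mem_filter.1 h1).2
        · exact Or.inr (Finset.mem_filter.1 h1).2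
      rw [Finset.mem_union, Finset.mem_filter, Finset.mem_filter]
      by_cases h4 : rep r (i : ℕ) ∈ GG
      · exact Or.inl ⟨h2, h4⟩
      · refine Or.inr ⟨h2, h3.1, ?_⟩
        by_contra h5
        exact h3.2.2 ⟨fun h => absurd h h4, fun h => absurd h h5⟩
    have h2 : (Q.filter (fun i : Fin s => rep r (i : ℕ) ∈ GG)).card ≤ GG.card := by
      refine Finset.card_le_card_of_injOn (fun i : Fin s => rep r (i : ℕ)) (fun i hi => ?_) ?_
      · exact (Finset.mem_filter.1 (Finset.mem_coe.1 hi)).2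
      · intro i hi j hj hij
        have e1 := rep_not r (hQr i (Finset.mem_filter.1 (Finset.mem_coe.1 hi)).1)
        have e2 := rep_not r (hQr j (Finset.mem_filter.1 (Finset.mem_coe.1 hj)).1)
        have hij' : rep r (i : ℕ) = rep r (j : ℕ) := hij
        exact Fin.ext (by rw [← e1, ← e2]; exact hij')
    have h3 : (Q.filter (fun i : Fin s => 1 ≤ (i : ℕ) ∧ rep r ((i : ℕ) - 1) ∈ GG)).card ≤ GG.card := by
      refine Finset.card_le_card_of_injOn (fun i : Fin s => rep r ((i : ℕ) - 1)) (fun i hi => ?_) ?_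
      · exact (Finset.mem_filter.1 (Finset.mem_coe.1 hi)).2.2
      · intro i hi j hj hij
        obtain ⟨i1, i2, _⟩ := Finset.mem_filter.1 (Finset.mem_coe.1 hi)
        obtain ⟨j1, j2, _⟩ := Finset.mem_filter.1 (Finset.mem_coe.1 hj)
        have hij' : rep r ((i : ℕ) - 1) = rep r ((j : ℕ) - 1) := hij
        have l1 := rep_le r ((i : ℕ) - 1)
        have l2 := rep_le r ((j : ℕ) - 1)
        rcases lt_trichotomy (i : ℕ) (j : ℕ) with hlt | hlt | hlt
        · have := le_rep r (hQr i i1) (t := (j : ℕ) - 1) (by omega)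
          omega
        · exact Fin.ext hlt
        · have := le_rep r (hQr j j1) (t := (i : ℕ) - 1) (by omega)
          omega
    have h4 := (Finset.card_le_card h1).trans (Finset.card_union_le _ _)
    omega
  have hCDi : ∀ i : Fin s, (C.filter (fun t => t = (i : ℕ) ∨ t + 1 = i)).card +
      (D.filter (fun t => t = (i : ℕ) ∨ t + 1 = i)).card ≤ 2 := by
    intro i
    have h1 := inc_le (C ∪ D) (i : ℕ)
    rw [Finset.filter_union, Finset.card_union_of_disjoint
      (Finset.disjoint_filter_filter hCD)] at h1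
    exact h1
  -- choose the half of `Q`
  obtain ⟨H, hH1, hH2, hH3⟩ : ∃ H, DD ∩ Q ⊆ H ∧ H ⊆ Q \ CC ∧ H.card = Q.card / 2 := by
    have hi1 : (DD ∩ Q).card ≤ ((CC ∪ DD) ∩ Q).card := Finset.card_le_card
      (Finset.inter_subset_inter_right Finset.subset_union_right)
    have hi2 : (CC ∩ Q).card ≤ ((CC ∪ DD) ∩ Q).card := Finset.card_le_card
      (Finset.inter_subset_inter_right Finset.subset_union_left)
    have hi3 := Finset.card_le_card (Finset.inter_subset_right (s₁ := CC ∪ DD) (s₂ := Q))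
    refine Finset.exists_subsuperset_card_eq ?_ ?_ ?_
    · intro i hi
      obtain ⟨h1, h2⟩ := Finset.mem_inter.1 hi
      refine Finset.mem_sdiff.2 ⟨h2, fun h3 => ?_⟩
      have h4 := (Finset.mem_filter.1 h1).2
      have h5 := (Finset.mem_filter.1 h3).2
      have := hCDi i
      omega
    · omega
    · have h1 : (Q \ CC).card + (CC ∩ Q).card = Q.card := by
        rw [Finset.inter_comm]
        exact Finset.card_sdiff_add_card_inter Q CC
      omega
  have hHQ : H ⊆ Q := hH2.trans Finset.sdiff_subset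
  obtain ⟨k1, k2, k3, k4⟩ := key H hHQ (by omega)
  rw [formZ h]
  refine ⟨_, _, C, D, k1, ?_, hCD, hCDu, ?_, ?_⟩
  · intro k hk
    rw [Finset.card_filter, Finset.card_filter]
    exact k2 k hk
  · intro i
    have k1' := inc_le C (i : ℕ)
    have k2' := inc_le D (i : ℕ)
    have k3' := hxy0 i
    have k4' := h2d i
    by_cases hiQ : i ∈ Q
    · rw [if_pos hiQ, if_pos hiQ]
      by_cases hiH : i ∈ H
      · rw [if_pos hiH, if_pos hiH]
        refine ⟨?_, k2'⟩
        by_contra hno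
        exact (Finset.mem_sdiff.1 (hH2 hiH)).2
          (Finset.mem_filter.2 ⟨Finset.mem_univ _, by omega⟩)
      · rw [if_neg hiH, if_neg hiH]
        refine ⟨k1', ?_⟩
        by_contra hno
        exact hiH (hH1 (Finset.mem_inter.2
          ⟨Finset.mem_filter.2 ⟨Finset.mem_univ _, by omega⟩, hiQ⟩))
    · rw [if_neg hiQ, if_neg hiQ]
      by_cases hi : i ∈ P
      · -- special vertices
        have hin : ∀ t, t < s - 1 → (t = (i : ℕ) ∨ t + 1 = (i : ℕ)) → (t ∈ F ↔ t % 2 = want i) := by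
          intro t ht hti
          rw [hFm t ht]
          constructor
          · intro hg
            by_contra hno
            refine hGGbad (rep r t) (Finset.mem_image_of_mem _ (Finset.mem_filter.2
              ⟨Finset.mem_range.2 ht, i, hi, hti, hno⟩)) hg
          · intro hw
            exact Finset.mem_union_left _ (Finset.mem_image_of_mem _ (Finset.mem_filter.2
              ⟨Finset.mem_range.2 ht, i, hi, hti, hw⟩))
        by_cases hx1 : x0 i ≤ 1
        · have hw : want i = 0 := by rw [hwant]; exact if_pos hx1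
          have hempty : C.filter (fun t => t = (i : ℕ) ∨ t + 1 = i) = ∅ := by
            rw [Finset.filter_eq_empty_iff]
            intro t ht hti
            have h1 := (Finset.mem_filter.1 ht).2
            rw [hin t (hCr t ht) hti, hw] at h1
            omega
          rw [hempty, Finset.card_empty]
          have hps : 2 ≤ y0 i := by
            have h5 := hPs i hi
            rcases hsw i with ⟨h6, h7⟩ | ⟨h6, h7⟩ <;> omega
          exact ⟨Nat.zero_le _, by omega⟩
        · have hw : want i = 1 := by rw [hwant]; exact if_neg hx1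
          have hempty : D.filter (fun t => t = (i : ℕ) ∨ t + 1 = i) = ∅ := by
            rw [Finset.filter_eq_empty_iff]
            intro t ht hti
            have h1 := (Finset.mem_filter.1 ht).2
            rw [hin t (hDr t ht) hti, hw] at h1
            omega
          rw [hempty, Finset.card_empty]
          exact ⟨by omega, Nat.zero_le _⟩
      · by_cases hi2 : deg G (v i) = 2
        · have h5 := htwo0 i hi hi2
          have h6 := hrig i hi hi2
          exact ⟨by omega, by omega⟩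
        · have := hbig0 i hi hiQ hi2
          exact ⟨by omega, by omega⟩
  · have k3'' : (univ.filter (fun i =>
        (if i ∈ Q then (if i ∈ H then 1 else 2) else x0 i) = 0)).card = zx :=
      (Finset.card_filter _ _).trans k3
    have k4'' : (univ.filter (fun i =>
        (if i ∈ Q then (if i ∈ H then 2 else 1) else y0 i) = 0)).card = zy :=
      (Finset.card_filter _ _).trans k4
    rw [k3'', k4'']
    exact hcnt

/-- oriented version of `even_split` -/
theorem even_or2 {G : SimpleGraph V} {s : ℕ} {v : Fin s → V} (h : IsSpine G v)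
    (hev : Even G.edgeSet.ncard) (P : Finset (Fin s))
    (a b : Fin s → ℕ)
    (hP : ∀ i ∈ P, ∀ j ∈ P, i < j → (∃ k : Fin s, i < k ∧ k < j ∧ 3 ≤ deg G (v k)) ∨
      ((i : ℕ) % 2 = (if a i ≤ 1 then 0 else 1) ↔
        ((j : ℕ) - 1) % 2 = (if a j ≤ 1 then 0 else 1)))
    (hab : ∀ i, a i + b i = deg G (v i)) (hPs : ∀ i ∈ P, a i ≠ 1 ∨ b i ≠ 1)
    (hn : ∀ i, i ∉ P → (deg G (v i) = 2 → a i = 1 ∧ b i = 1) ∧
      (4 ≤ deg G (v i) → 2 ≤ a i ∧ 2 ≤ b i))
    (Q : Finset (Fin s)) (hQm : ∀ i, i ∈ Q ↔ i ∉ P ∧ deg G (v i) = 3)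
    (hQ2 : Q.card % 2 = 0) (hb0 : ∀ k, 2 ≤ k → cx a (univ \ Q) k = cx b (univ \ Q) k)
    (W : Finset (Fin s × Fin s)) (hW : ∀ p ∈ W, p.1 < p.2 ∧ ((p.2 : ℕ) - p.1) % 2 = 0 ∧
      3 ≤ deg G (v p.1) ∧ 3 ≤ deg G (v p.2) ∧ ∀ k, p.1 < k → k < p.2 → deg G (v k) = 2)
    (hWd : ∀ p ∈ W, ∀ q ∈ W, p ≠ q → p.2 ≤ q.1 ∨ q.2 ≤ p.1)
    (hWc : 6 * P.card + 2 ≤ W.card) (hQc : 24 * P.card + 10 ≤ Q.card) :
    Splittable G := by
  classical
  have h2d : ∀ i, 2 ≤ deg G (v i) := h.two
  set U := univ \ Q with hU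
  have hUQ : ∀ (z : Fin s → ℕ) k, cx z univ k = cx z U k + cx z Q k := by
    intro z k
    unfold cx
    exact (Finset.sum_sdiff (Finset.subset_univ Q)).symm
  obtain ⟨x0, y0, hsw, hb, hx0, hy0⟩ : ∃ x0 y0 : Fin s → ℕ,
      (∀ i, (x0 i = a i ∧ y0 i = b i) ∨ (x0 i = b i ∧ y0 i = a i)) ∧
      (∀ k, 2 ≤ k → cx x0 U k = cx y0 U k) ∧ x0 = a ∧ y0 = b :=
    ⟨a, b, fun i => Or.inl ⟨rfl, rfl⟩, hb0, rfl, rfl⟩
  have hxy0 : ∀ i, x0 i + y0 i = deg G (v i) := by
    intro i
    have h1 := hab i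
    rcases hsw i with ⟨h2, h3⟩ | ⟨h2, h3⟩ <;> omega
  have hbig0 : ∀ i, i ∉ P → i ∉ Q → deg G (v i) ≠ 2 → 2 ≤ x0 i ∧ 2 ≤ y0 i := by
    intro i hi hiQ hi2
    have h0 := h2d i
    have hne3 : deg G (v i) ≠ 3 := fun hh => hiQ ((hQm i).2 ⟨hi, hh⟩)
    have h1 := (hn i hi).2 (by omega)
    rcases hsw i with ⟨h2, h3⟩ | ⟨h2, h3⟩ <;> omega
  have htwo0 : ∀ i, i ∉ P → deg G (v i) = 2 → x0 i = 1 ∧ y0 i = 1 := by
    intro i hi hi2
    have h1 := (hn i hi).1 hi2
    rcases hsw i with ⟨h2, h3⟩ | ⟨h2, h3⟩ <;> omega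
  have hone0 : ∀ i, i ∉ P → i ∉ Q → 1 ≤ x0 i ∧ 1 ≤ y0 i := by
    intro i hi hiQ
    by_cases hi2 : deg G (v i) = 2
    · have := htwo0 i hi hi2
      omega
    · have := hbig0 i hi hiQ hi2
      omega
  have hzle : ∀ z : Fin s → ℕ, (∀ i, i ∉ P → i ∉ Q → 1 ≤ z i) → cx z U 0 ≤ P.card := by
    intro z hz
    unfold cx
    rw [← Finset.card_filter]
    refine Finset.card_le_card (fun i hi => ?_)
    obtain ⟨h1, h2⟩ := Finset.mem_filter.1 hi
    by_contra hno
    have := hz i hno (Finset.mem_sdiff.1 h1).2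
    omega
  have z1 := hzle x0 (fun i h1 h2 => (hone0 i h1 h2).1)
  have z2' := hzle y0 (fun i h1 h2 => (hone0 i h1 h2).2)
  -- the final parts for a given half of `Q`
  have key : ∀ H ⊆ Q, 2 * H.card = Q.card →
      (∀ i, (if i ∈ Q then (if i ∈ H then 1 else 2) else x0 i) +
        (if i ∈ Q then (if i ∈ H then 2 else 1) else y0 i) = deg G (v i)) ∧
      (∀ k, 2 ≤ k → cx (fun i => if i ∈ Q then (if i ∈ H then 1 else 2) else x0 i) univ k =
        cx (fun i => if i ∈ Q then (if i ∈ H then 2 else 1) else y0 i) univ k) ∧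
      cx (fun i => if i ∈ Q then (if i ∈ H then 1 else 2) else x0 i) univ 0 = cx x0 U 0 ∧
      cx (fun i => if i ∈ Q then (if i ∈ H then 2 else 1) else y0 i) univ 0 = cx y0 U 0 := by
    intro H hHQ hH2
    have hsd : (Q \ H).card = H.card := by
      rw [Finset.card_sdiff_of_subset hHQ]; omega
    have f1 : ∀ k, cx (fun i => if i ∈ Q then (if i ∈ H then 1 else 2) else x0 i) univ k =
        cx x0 U k + ((if 1 = k then H.card else 0) + (if 2 = k then H.card else 0)) := by
      intro k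
      rw [hUQ, cx_congr (x' := x0) (fun i hi => if_neg (Finset.mem_sdiff.1 hi).2) k,
        cx_two hHQ 1 2 k _ (fun i hi => by
          show (if i ∈ Q then (if i ∈ H then 1 else 2) else x0 i) = 1
          rw [if_pos (hHQ hi), if_pos hi]) (fun i hi => by
          show (if i ∈ Q then (if i ∈ H then 1 else 2) else x0 i) = 2
          rw [if_pos (Finset.mem_sdiff.1 hi).1, if_neg (Finset.mem_sdiff.1 hi).2]), hsd]
    have f2 : ∀ k, cx (fun i => if i ∈ Q then (if i ∈ H then 2 else 1) else y0 i) univ k =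
        cx y0 U k + ((if 2 = k then H.card else 0) + (if 1 = k then H.card else 0)) := by
      intro k
      rw [hUQ, cx_congr (x' := y0) (fun i hi => if_neg (Finset.mem_sdiff.1 hi).2) k,
        cx_two hHQ 2 1 k _ (fun i hi => by
          show (if i ∈ Q then (if i ∈ H then 2 else 1) else y0 i) = 2
          rw [if_pos (hHQ hi), if_pos hi]) (fun i hi => by
          show (if i ∈ Q then (if i ∈ H then 2 else 1) else y0 i) = 1
          rw [if_pos (Finset.mem_sdiff.1 hi).1, if_neg (Finset.mem_sdiff.1 hi).2]), hsd]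
    refine ⟨?_, ?_, ?_, ?_⟩
    · intro i
      by_cases hi : i ∈ Q
      · rw [if_pos hi, if_pos hi, ((hQm i).1 hi).2]
        split_ifs <;> rfl
      · rw [if_neg hi, if_neg hi]; exact hxy0 i
    · intro k hk
      rw [f1, f2, hb k hk]
      omega
    · rw [f1]; simp
    · rw [f2]; simp
  -- parity of the number of zeros
  have e1 := edges_eq h
  have e2 := sum_spine h
  obtain ⟨m, hm⟩ := hev
  have hpz : (s - 1 + cx x0 U 0 + cx y0 U 0) % 2 = 0 := by
    obtain ⟨H0, hH0, hH0c⟩ := Finset.exists_subset_card_eq (s := Q) (n := Q.card / 2) (by omega)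
    obtain ⟨k1, k2, k3, k4⟩ := key H0 hH0 (by omega)
    have e3 := sum_diff k2
    have e4 := zero_diff k2
    have e5 : ∑ i, (if i ∈ Q then (if i ∈ H0 then 1 else 2) else x0 i) +
        ∑ i, (if i ∈ Q then (if i ∈ H0 then 2 else 1) else y0 i) =
        2 * (s - 1) + (offSpine v).card := by
      rw [← Finset.sum_add_distrib, ← e2]
      exact Finset.sum_congr rfl (fun i _ => k1 i)
    rw [k3, k4] at e4
    omega
  set zx := cx x0 U 0 with hzx
  set zy := cx y0 U 0 with hzy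
  -- gaps not touched by `P`
  set W' := W.filter (fun p => ∀ i ∈ P, ¬ (p.1 ≤ i ∧ i ≤ p.2)) with hW'
  have hW'c : W.card ≤ W'.card + 2 * P.card := two_gaps W (fun p hp => (hW p hp).1) hWd P
  have hW'W : ∀ p ∈ W', p ∈ W := fun p hp => (Finset.mem_filter.1 hp).1
  have hgap : ∀ p ∈ W', (p.1 : ℕ) + 2 ≤ p.2 := by
    intro p hp
    obtain ⟨h1, h2, _⟩ := hW p (hW'W p hp)
    have h1' : (p.1 : ℕ) < p.2 := h1
    omega
  -- rigid vertices, classes of edges
  set r : ℕ → Prop := fun i => ∃ hi : i < s, (⟨i, hi⟩ : Fin s) ∉ P ∧ deg G (v ⟨i, hi⟩) = 2 ∧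
    ∀ p ∈ W', i ≠ (p.1 : ℕ) + 1 with hr
  have hrP : ∀ i ∈ P, ¬ r (i : ℕ) := by
    rintro i hi ⟨_, h1, _⟩
    exact h1 hi
  have hr3 : ∀ i : Fin s, 3 ≤ deg G (v i) → ¬ r (i : ℕ) := by
    rintro i hi ⟨_, _, h1, _⟩
    have h1' : deg G (v i) = 2 := h1
    omega
  have hrW : ∀ p ∈ W', ¬ r ((p.1 : ℕ) + 1) := by
    rintro p hp ⟨_, _, _, h1⟩
    exact h1 p hp rfl
  have hrW1 : ∀ p ∈ W', ¬ r (p.1 : ℕ) := fun p hp => hr3 _ (hW p (hW'W p hp)).2.2.1
  have hrW2 : ∀ p ∈ W', ¬ r (p.2 : ℕ) := fun p hp => hr3 _ (hW p (hW'W p hp)).2.2.2.1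
  set want : Fin s → ℕ := fun i => if x0 i ≤ 1 then 0 else 1 with hwant
  have hwant2 : ∀ i, want i < 2 := by
    intro i; rw [hwant]; dsimp only; split_ifs <;> omega
  set inF := (range (s - 1)).filter (fun t => ∃ p ∈ P, (t = (p : ℕ) ∨ t + 1 = (p : ℕ)) ∧
    t % 2 = want p) with hinF
  set outF := (range (s - 1)).filter (fun t => ∃ p ∈ P, (t = (p : ℕ) ∨ t + 1 = (p : ℕ)) ∧
    ¬ t % 2 = want p) with houtF
  have hinc : inF.card ≤ P.card := by
    have h1 : inF ⊆ P.image (fun p : Fin s => if (p : ℕ) % 2 = want p then (p : ℕ) else (p : ℕ) - 1) := by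
      intro t ht
      obtain ⟨_, p, hp, htp, hpar⟩ := Finset.mem_filter.1 ht
      refine Finset.mem_image.2 ⟨p, hp, ?_⟩
      have := hwant2 p
      split_ifs <;> omega
    exact (Finset.card_le_card h1).trans Finset.card_image_le
  have houtc : outF.card ≤ P.card := by
    have h1 : outF ⊆ P.image (fun p : Fin s => if (p : ℕ) % 2 = want p then (p : ℕ) - 1 else (p : ℕ)) := by
      intro t ht
      obtain ⟨_, p, hp, htp, hpar⟩ := Finset.mem_filter.1 ht
      refine Finset.mem_image.2 ⟨p, hp, ?_⟩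
      have := hwant2 p
      split_ifs <;> omega
    exact (Finset.card_le_card h1).trans Finset.card_image_le
  have hsep : ∀ t ∈ inF, ∀ t' ∈ outF, rep r t ≠ rep r t' := by
    intro t ht t' ht'
    obtain ⟨_, p, hp, htp, hpar⟩ := Finset.mem_filter.1 ht
    obtain ⟨_, q, hq, htq, hpar'⟩ := Finset.mem_filter.1 ht'
    refine sep_io r P want hrP (fun i hi j hj hij => ?_) p hp t htp hpar q hq t' htq hpar'
    rcases hP i hi j hj hij with ⟨k, k1, k2, k3⟩ | hc
    · exact Or.inl ⟨k, k1, k2, hr3 k k3⟩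
    · right
      rw [hwant, hx0]
      exact hc
  set G0 := inF.image (rep r) with hG0
  set bad := outF.image (rep r) with hbad
  have hG0c : G0.card ≤ P.card := Finset.card_image_le.trans hinc
  have hbadc : bad.card ≤ P.card := Finset.card_image_le.trans houtc
  have hG0bad : Disjoint G0 bad := by
    rw [Finset.disjoint_left]
    intro u h1 h2
    obtain ⟨t, ht, e1⟩ := Finset.mem_image.1 h1
    obtain ⟨t', ht', e2⟩ := Finset.mem_image.1 h2
    exact hsep t ht t' ht' (e1.trans e2.symm)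
  have hB0 : |∑ u ∈ G0, cs r (s - 1) u| ≤ (P.card : ℤ) := by
    refine (Finset.abs_sum_le_sum_abs _ _).trans ?_
    refine (Finset.sum_le_sum (g := fun _ => (1 : ℤ)) (fun u _ => ?_)).trans ?_
    · rcases cs_cases r (s - 1) u with h1 | h1 <;> rw [h1]
      · simp
      · unfold sgn; split_ifs <;> simp
    · rw [Finset.sum_const, nsmul_eq_mul, mul_one]
      exact_mod_cast hG0c
  rw [abs_le] at hB0
  set B0 := ∑ u ∈ G0, cs r (s - 1) u with hB0d
  -- the classes of the untouched gaps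
  have hinside : ∀ p ∈ W', ∀ t, (p.1 : ℕ) + 1 ≤ t → t < (p.2 : ℕ) → rep r t = (p.1 : ℕ) + 1 := by
    intro p hp t
    induction t with
    | zero => intro h1 _; omega
    | succ t ih =>
      intro h1 h2
      rcases Nat.lt_or_ge t ((p.1 : ℕ) + 1) with h3 | h3
      · have h4 : t + 1 = (p.1 : ℕ) + 1 := by omega
        rw [h4]
        exact rep_not r (hrW p hp)
      · have h5 : r (t + 1) := by
          have hts : t + 1 < s := h2.trans p.2.2
          have hk1 : p.1 < (⟨t + 1, hts⟩ : Fin s) := by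
            show (p.1 : ℕ) < t + 1
            omega
          have hk2 : (⟨t + 1, hts⟩ : Fin s) < p.2 := h2
          refine ⟨hts, fun hh => ?_, (hW p (hW'W p hp)).2.2.2.2 _ hk1 hk2, fun q hq hqt => ?_⟩
          · exact (Finset.mem_filter.1 hp).2 _ hh ⟨hk1.le, hk2.le⟩
          · by_cases hpq : p = q
            · rw [hpq] at h3
              omega
            · have hg := hgap q hq
              rcases hWd p (hW'W p hp) q (hW'W q hq) hpq with h6 | h6
              · have h6' : (p.2 : ℕ) ≤ q.1 := h6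
                omega
              · have h6' : (q.2 : ℕ) ≤ p.1 := h6
                omega
        have h6 : rep r (t + 1) = rep r t := by
          rw [rep, if_pos h5]
        rw [h6]
        exact ih h3 (by omega)
  have hcsa : ∀ p ∈ W', cs r (s - 1) (p.1 : ℕ) = sgn (p.1 : ℕ) := by
    intro p hp
    have hg := hgap p hp
    have hps := p.2.2
    obtain ⟨u, _, h1, h2, h3⟩ := odd_class r (s - 1) (p.1 : ℕ) ((p.1 : ℕ) + 1) (by omega)
      (by omega) (by omega) (hrW1 p hp) (hrW p hp)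
    have h4 : u = (p.1 : ℕ) := by omega
    rw [h4] at h1
    exact (cs_cases r (s - 1) (p.1 : ℕ)).resolve_left h1
  have hcsb : ∀ p ∈ W', cs r (s - 1) ((p.1 : ℕ) + 1) = sgn ((p.1 : ℕ) + 1) := by
    intro p hp
    have hg := hgap p hp
    have hps := p.2.2
    have h0 := (hW p (hW'W p hp)).2.1
    obtain ⟨u, hu, h1, h2, h3⟩ := odd_class r (s - 1) ((p.1 : ℕ) + 1) (p.2 : ℕ) (by omega)
      (by omega) (by omega) (hrW p hp) (hrW2 p hp)
    obtain ⟨t, _, ht2⟩ := Finset.mem_image.1 hu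
    have l1 := rep_le r t
    have h4 : t < (p.2 : ℕ) := by
      by_contra hno
      have := le_rep r (hrW2 p hp) (t := t) (by omega)
      omega
    have h5 := hinside p hp t (by omega) h4
    rw [h5] at ht2
    rw [← ht2] at h1
    exact (cs_cases r (s - 1) ((p.1 : ℕ) + 1)).resolve_left h1
  have htouch : ∀ p ∈ W', ∀ i ∈ P, ∀ t, (t = (i : ℕ) ∨ t + 1 = (i : ℕ)) →
      rep r t ≠ (p.1 : ℕ) ∧ rep r t ≠ (p.1 : ℕ) + 1 := by
    intro p hp i hi t hti
    have hno := (Finset.mem_filter.1 hp).2 i hi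
    have hg := hgap p hp
    have l1 := rep_le r t
    constructor
    · intro h1
      have h2 : t < (p.1 : ℕ) + 1 := by
        by_contra h3
        have := le_rep r (hrW p hp) (t := t) (by omega)
        omega
      refine hno ⟨?_, ?_⟩
      · show (p.1 : ℕ) ≤ i
        omega
      · show (i : ℕ) ≤ p.2
        omega
    · intro h1
      have h2 : t < (p.2 : ℕ) := by
        by_contra h3
        have := le_rep r (hrW2 p hp) (t := t) (by omega)
        omega
      refine hno ⟨?_, ?_⟩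
      · show (p.1 : ℕ) ≤ i
        omega
      · show (i : ℕ) ≤ p.2
        omega
  have hG0W : ∀ p ∈ W', (p.1 : ℕ) ∉ G0 ∧ (p.1 : ℕ) + 1 ∉ G0 := by
    intro p hp
    constructor
    · intro hh
      obtain ⟨t, ht, e1⟩ := Finset.mem_image.1 hh
      obtain ⟨_, i, hi, hti, _⟩ := Finset.mem_filter.1 ht
      exact (htouch p hp i hi t hti).1 e1
    · intro hh
      obtain ⟨t, ht, e1⟩ := Finset.mem_image.1 hh
      obtain ⟨_, i, hi, hti, _⟩ := Finset.mem_filter.1 ht
      exact (htouch p hp i hi t hti).2 e1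
  -- the required sum
  obtain ⟨V0, hV0⟩ : ∃ V0 : ℤ, 2 * V0 = (((s - 1 : ℕ) : ℤ) % 2) + zx - zy := by
    refine ⟨((((s - 1 : ℕ) : ℤ) % 2) + zx - zy) / 2, ?_⟩
    omega
  obtain ⟨w, hw, j, hj, hjc⟩ : ∃ w : ℕ, w ≤ 1 ∧ ∃ j : ℕ, B0 + (1 - 2 * (w : ℤ)) * j = V0 ∧
      j ≤ 2 * P.card + 1 := by
    rcases le_total B0 V0 with h1 | h1
    · refine ⟨0, by omega, (V0 - B0).toNat, ?_, ?_⟩
      · rw [Int.toNat_of_nonneg (by omega)]; push_cast; ring
      · omega
    · refine ⟨1, le_rfl, (B0 - V0).toNat, ?_, ?_⟩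
      · rw [Int.toNat_of_nonneg (by omega)]; push_cast; ring
      · omega
  obtain ⟨W2, hW2, hW2c⟩ : ∃ W2 ⊆ W', W2.card = 2 * j :=
    Finset.exists_subset_card_eq (by omega)
  -- the new special vertices and the flipped classes
  set nx : Fin s × Fin s → Fin s := fun p => if hh : (p.1 : ℕ) + 1 < s then ⟨(p.1 : ℕ) + 1, hh⟩
    else p.1 with hnx
  have hnxv : ∀ p ∈ W', (nx p : ℕ) = (p.1 : ℕ) + 1 := by
    intro p hp
    have hg := hgap p hp
    have hps := p.2.2
    rw [hnx]
    dsimp only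
    rw [dif_pos (by omega)]
  set uu : Fin s × Fin s → ℕ := fun p => if (p.1 : ℕ) % 2 = w then (p.1 : ℕ) else (p.1 : ℕ) + 1
    with huu
  have huu2 : ∀ p, uu p % 2 = w ∧ (uu p = (p.1 : ℕ) ∨ uu p = (p.1 : ℕ) + 1) := by
    intro p
    rw [huu]
    dsimp only
    split_ifs <;> omega
  have hne : ∀ p ∈ W', ∀ q ∈ W', p ≠ q → (p.1 : ℕ) + 2 ≤ q.1 ∨ (q.1 : ℕ) + 2 ≤ p.1 := by
    intro p hp q hq hpq
    have g1 := hgap p hp
    have g2 := hgap q hq
    rcases hWd p (hW'W p hp) q (hW'W q hq) hpq with h6 | h6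
    · have h6' : (p.2 : ℕ) ≤ q.1 := h6
      omega
    · have h6' : (q.2 : ℕ) ≤ p.1 := h6
      omega
  set P' := W2.image nx with hP'
  have hP'c : P'.card = 2 * j := by
    rw [hP', Finset.card_image_of_injOn, hW2c]
    intro p hp q hq hpq
    by_contra hno
    have e1 := hnxv p (hW2 hp)
    have e2 := hnxv q (hW2 hq)
    have hpq' : nx p = nx q := hpq
    rw [hpq', e2] at e1
    rcases hne p (hW2 hp) q (hW2 hq) hno with h1 | h1 <;> omega
  set X := W2.image uu with hX
  have hXc : X.card = 2 * j := by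
    rw [hX, Finset.card_image_of_injOn, hW2c]
    intro p hp q hq hpq
    by_contra hno
    have e1 := (huu2 p).2
    have e2 := (huu2 q).2
    have hpq' : uu p = uu q := hpq
    rcases hne p (hW2 hp) q (hW2 hq) hno with h1 | h1 <;> omega
  have hP'd : ∀ i ∈ P', i ∉ P ∧ deg G (v i) = 2 ∧ ∃ p ∈ W2, (i : ℕ) = (p.1 : ℕ) + 1 := by
    intro i hi
    obtain ⟨p, hp, rfl⟩ := Finset.mem_image.1 hi
    have e1 := hnxv p (hW2 hp)
    have hg := hgap p (hW2 hp)
    have hk1 : p.1 < nx p := by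
      show (p.1 : ℕ) < nx p
      omega
    have hk2 : nx p < p.2 := by
      show (nx p : ℕ) < p.2
      omega
    exact ⟨fun hh => (Finset.mem_filter.1 (hW2 hp)).2 _ hh ⟨hk1.le, hk2.le⟩,
      (hW p (hW'W p (hW2 hp))).2.2.2.2 _ hk1 hk2, p, hp, e1⟩
  have hP'U : P' ⊆ U := by
    intro i hi
    refine Finset.mem_sdiff.2 ⟨Finset.mem_univ _, fun hh => ?_⟩
    have h1 := ((hQm i).1 hh).2
    have h2 := (hP'd i hi).2.1
    omega
  have hG0X : Disjoint G0 X := by
    rw [Finset.disjoint_left]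
    intro u h1 h2
    obtain ⟨p, hp, e1⟩ := Finset.mem_image.1 h2
    obtain ⟨h3, h4⟩ := hG0W p (hW2 hp)
    rcases (huu2 p).2 with h5 | h5
    · exact h3 (by rw [← h5, e1]; exact h1)
    · exact h4 (by rw [← h5, e1]; exact h1)
  have hsumX : ∑ u ∈ X, cs r (s - 1) u = (1 - 2 * (w : ℤ)) * (2 * j : ℕ) := by
    rw [Finset.sum_congr rfl (g := fun _ => (1 - 2 * (w : ℤ))), Finset.sum_const, hXc,
      nsmul_eq_mul, mul_comm]
    intro u hu
    obtain ⟨p, hp, e1⟩ := Finset.mem_image.1 hu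
    have h1 : cs r (s - 1) u = sgn u := by
      rw [← e1]
      rcases (huu2 p).2 with h5 | h5
      · rw [h5]; exact hcsa p (hW2 hp)
      · rw [h5]; exact hcsb p (hW2 hp)
    have h2 : u % 2 = w := by rw [← e1]; exact (huu2 p).1
    rw [h1]
    unfold sgn
    split_ifs <;> omega
  set GG := G0 ∪ X with hGG
  have hGGc : GG.card ≤ P.card + 2 * j := by
    have h1 : GG.card ≤ G0.card + X.card := Finset.card_union_le _ _
    omega
  have hsumGG : ∑ u ∈ GG, cs r (s - 1) u = B0 + (1 - 2 * (w : ℤ)) * (2 * j : ℕ) := by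
    rw [hGG, Finset.sum_union hG0X, ← hB0d, hsumX]
  -- membership in the untouched gaps
  have hmemX : ∀ p ∈ W', ∀ t, (t = (p.1 : ℕ) ∨ t = (p.1 : ℕ) + 1) →
      (t ∈ GG ↔ p ∈ W2 ∧ t % 2 = w) := by
    intro p hp t ht
    constructor
    · intro h1
      rcases Finset.mem_union.1 h1 with h1 | h1
      · exfalso
        obtain ⟨h3, h4⟩ := hG0W p hp
        rcases ht with ht | ht
        · exact h3 (by rw [← ht]; exact h1)
        · exact h4 (by rw [← ht]; exact h1)
      · obtain ⟨q, hq, e1⟩ := Finset.mem_image.1 h1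
        have h5 := huu2 q
        by_cases hpq : p = q
        · rw [hpq]
          exact ⟨hq, by rw [← e1]; exact h5.1⟩
        · exfalso
          rcases hne p hp q (hW2 hq) hpq with h6 | h6 <;> omega
    · rintro ⟨h1, h2⟩
      refine Finset.mem_union_right _ (Finset.mem_image.2 ⟨p, h1, ?_⟩)
      have h5 := huu2 p
      omega
  set x1 : Fin s → ℕ := fun i => if i ∈ P' then 2 * w else x0 i with hx1
  set y1 : Fin s → ℕ := fun i => if i ∈ P' then 2 * (1 - w) else y0 i with hy1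
  have ex : ∀ k, cx x1 U k + (if 1 = k then P'.card else 0) =
      cx x0 U k + (if 2 * w = k then P'.card else 0) := cx_change U P' hP'U x0 x1 (2 * w)
    (fun i hi => (htwo0 i (hP'd i hi).1 (hP'd i hi).2.1).1) (fun i hi => if_pos hi)
    (fun i hi => if_neg hi)
  have ey : ∀ k, cx y1 U k + (if 1 = k then P'.card else 0) =
      cx y0 U k + (if 2 * (1 - w) = k then P'.card else 0) :=
    cx_change U P' hP'U y0 y1 (2 * (1 - w))
    (fun i hi => (htwo0 i (hP'd i hi).1 (hP'd i hi).2.1).2) (fun i hi => if_pos hi)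
    (fun i hi => if_neg hi)
  have hj0 : 2 * j ≤ Q.card := by omega
  refine core_split h (P ∪ P') Q x1 y1 ?_ ?_ ?_ ?_ (fun i hi => ((hQm i).1 hi).2)
    (Q.card / 2 + w * j - (1 - w) * j) ?_ ?_ r (fun i hi => hr3 i (by rw [((hQm i).1 hi).2])) GG
    ?_ ?_ ?_ (Or.inr ⟨?_, ?_⟩)
  · intro i
    rw [hx1, hy1]
    dsimp only
    by_cases hi : i ∈ P'
    · rw [if_pos hi, if_pos hi, (hP'd i hi).2.1]
      omega
    · rw [if_neg hi, if_neg hi]
      exact hxy0 i
  · intro i hi
    rw [hx1, hy1]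
    dsimp only
    by_cases hi' : i ∈ P'
    · rw [if_pos hi', if_pos hi']
      omega
    · rw [if_neg hi', if_neg hi']
      have hiP : i ∈ P := (Finset.mem_union.1 hi).resolve_right hi'
      have h5 := hPs i hiP
      rcases hsw i with ⟨h6, h7⟩ | ⟨h6, h7⟩ <;> omega
  · intro i hi hiQ hi2
    rw [Finset.mem_union, not_or] at hi
    rw [hx1, hy1]
    dsimp only
    rw [if_neg hi.2, if_neg hi.2]
    exact hbig0 i hi.1 hiQ hi2
  · intro i hi hi2
    rw [Finset.mem_union, not_or] at hi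
    rw [hx1, hy1]
    dsimp only
    rw [if_neg hi.2, if_neg hi.2]
    exact htwo0 i hi.1 hi2
  · rcases (by omega : w = 0 ∨ w = 1) with h1 | h1 <;> rw [h1] <;> simp <;> omega
  · intro k hk
    have e1 := ex k
    have e2 := ey k
    have e3 := hb k hk
    rw [if_neg (by omega : ¬ 1 = k)] at e1 e2
    rw [← hU]
    rcases (by omega : w = 0 ∨ w = 1) with h1 | h1
    · rw [h1] at e1 e2 ⊢
      by_cases h2k : 2 = k
      · subst h2k
        simp at e1 e2 ⊢
        omega
      · rw [if_neg (by omega)] at e1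
        rw [if_neg (by omega)] at e2
        rw [if_neg h2k, if_neg h2k]
        omega
    · rw [h1] at e1 e2 ⊢
      by_cases h2k : 2 = k
      · subst h2k
        simp at e1 e2 ⊢
        omega
      · rw [if_neg (by omega)] at e1
        rw [if_neg (by omega)] at e2
        rw [if_neg h2k, if_neg h2k]
        omega
  · -- rigid vertices
    intro i hi hi2 hi1 his
    rw [Finset.mem_union, not_or] at hi
    by_cases hri : r (i : ℕ)
    · rw [rep_rigid r hri hi1]
    · have h1 : ∃ p ∈ W', (i : ℕ) = (p.1 : ℕ) + 1 := by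
        by_contra hno
        push Not at hno
        exact hri ⟨i.2, hi.1, hi2, hno⟩
      obtain ⟨p, hp, hip⟩ := h1
      have hpW2 : p ∉ W2 := by
        intro hh
        apply hi.2
        refine Finset.mem_image.2 ⟨p, hh, Fin.ext ?_⟩
        rw [hnxv p hp, hip]
      have r1 : rep r (i : ℕ) = (p.1 : ℕ) + 1 := by
        rw [hip]; exact rep_not r (hrW p hp)
      have r2 : rep r ((i : ℕ) - 1) = (p.1 : ℕ) := by
        rw [hip, Nat.add_sub_cancel]; exact rep_not r (hrW1 p hp)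
      rw [r1, r2, hmemX p hp _ (Or.inr rfl), hmemX p hp _ (Or.inl rfl)]
      exact ⟨fun hh => absurd hh.1 hpW2, fun hh => absurd hh.1 hpW2⟩
  · -- special vertices
    intro i hi t ht hti
    by_cases hi' : i ∈ P'
    · obtain ⟨_, _, p, hp, hip⟩ := hP'd i hi'
      have hx : x1 i = 2 * w := if_pos hi'
      have hrt : rep r t = t := by
        rcases hti with h1 | h1
        · rw [h1, hip]; exact rep_not r (hrW p (hW2 hp))
        · have h2 : t = (p.1 : ℕ) := by omega
          rw [h2]; exact rep_not r (hrW1 p (hW2 hp))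
      rw [hrt, hmemX p (hW2 hp) t (by omega), hx]
      constructor
      · rintro ⟨_, h2⟩
        split_ifs <;> omega
      · intro h2
        refine ⟨hp, ?_⟩
        split_ifs at h2 <;> omega
    · have hiP : i ∈ P := (Finset.mem_union.1 hi).resolve_right hi'
      have hx : x1 i = x0 i := if_neg hi'
      have hwi : (if x0 i ≤ 1 then 0 else 1) = want i := rfl
      rw [hx, hwi]
      constructor
      · intro hg
        by_contra hno
        rcases Finset.mem_union.1 hg with h1 | h1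
        · exact (Finset.disjoint_left.1 hG0bad) h1 (Finset.mem_image_of_mem _
            (Finset.mem_filter.2 ⟨Finset.mem_range.2 ht, i, hiP, hti, hno⟩))
        · obtain ⟨q, hq, e1⟩ := Finset.mem_image.1 h1
          obtain ⟨h3, h4⟩ := htouch q (hW2 hq) i hiP t hti
          rcases (huu2 q).2 with h5 | h5
          · exact h3 (by rw [← e1, h5])
          · exact h4 (by rw [← e1, h5])
      · intro hw'
        exact Finset.mem_union_left _ (Finset.mem_image_of_mem _ (Finset.mem_filter.2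
          ⟨Finset.mem_range.2 ht, i, hiP, hti, hw'⟩))
  · have e1 := ex 0
    have e2 := ey 0
    rw [if_neg (by omega : ¬ 1 = 0)] at e1 e2
    rw [← hU, hsumGG]
    rw [← hzx] at e1
    rw [← hzy] at e2
    rcases (by omega : w = 0 ∨ w = 1) with h1 | h1
    · rw [h1] at e1 e2 hj ⊢
      simp at e1 e2 hj ⊢
      omega
    · rw [h1] at e1 e2 hj ⊢
      simp at e1 e2 hj ⊢
      omega
  · rcases (by omega : w = 0 ∨ w = 1) with h1 | h1 <;> rw [h1] <;> simp <;> omega
  · rcases (by omega : w = 0 ∨ w = 1) with h1 | h1 <;> rw [h1] <;> simp <;> omega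

end Pool.Agent.W_e8e3a0
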