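import Pool.Agent.W_e8e3a0.OrA49

/-! Splittings from balanced parts with rigid spine vertices of degree three. -/

namespace Pool.Agent.W_e8e3a0

open Finset Num49

variable {V : Type} [Fintype V]

/-- many odd gaps between spine vertices of degree at least four, other parts at least one
or two -/
theorem wide_or4 {G : SimpleGraph V} {s : ℕ} {v : Fin s → V} (h : IsSpine G v)
    (hev : Even G.edgeSet.ncard) (P : Finset (Fin s))
    (a b : Fin s → ℕ)
    (hP : ∀ i ∈ P, ∀ j ∈ P, i < j → (∃ k : Fin s, i < k ∧ k < j ∧ 4 ≤ deg G (v k)) ∨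
      ((i : ℕ) % 2 = (if a i ≤ 1 then 0 else 1) ↔
        ((j : ℕ) - 1) % 2 = (if a j ≤ 1 then 0 else 1)))
    (hab : ∀ i, a i + b i = deg G (v i)) (hPs : ∀ i ∈ P, a i ≠ 1 ∨ b i ≠ 1)
    (hb0 : ∀ k, 2 ≤ k → cx a univ k = cx b univ k)
    (hn : ∀ i, i ∉ P → (deg G (v i) ≤ 3 → 1 ≤ a i ∧ 1 ≤ b i) ∧
      (4 ≤ deg G (v i) → 2 ≤ a i ∧ 2 ≤ b i))
    (W : Finset (Fin s × Fin s)) (hW : ∀ p ∈ W, p.1 < p.2 ∧ ((p.2 : ℕ) - p.1) % 2 = 1 ∧
      4 ≤ deg G (v p.1) ∧ 4 ≤ deg G (v p.2))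
    (hWd : ∀ p ∈ W, ∀ q ∈ W, p ≠ q → p.2 ≤ q.1 ∨ q.2 ≤ p.1)
    (hWc : 8 * P.card + 3 ≤ W.card) :
    Splittable G := by
  classical
  have h2d : ∀ i, 2 ≤ deg G (v i) := h.two
  obtain ⟨Q, hQe, hQ0⟩ : ∃ Q : Finset (Fin s), (∀ i, i ∉ Q) ∧ Q.card = 0 :=
    ⟨∅, fun i => Finset.notMem_empty i, rfl⟩
  have hQ2 : Q.card % 2 = 0 := by omega
  have hQc : Q.card = 0 ∨ 12 * P.card + 4 ≤ Q.card := Or.inl hQ0
  set U := univ \ Q with hU
  have hUQ : ∀ (z : Fin s → ℕ) k, cx z univ k = cx z U k + cx z Q k := by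
    intro z k
    unfold cx
    exact (Finset.sum_sdiff (Finset.subset_univ Q)).symm
  obtain ⟨x0, y0, hsw, hb, hx0, hy0⟩ : ∃ x0 y0 : Fin s → ℕ,
      (∀ i, (x0 i = a i ∧ y0 i = b i) ∨ (x0 i = b i ∧ y0 i = a i)) ∧
      (∀ k, 2 ≤ k → cx x0 U k = cx y0 U k) ∧ x0 = a ∧ y0 = b :=
    ⟨a, b, fun i => Or.inl ⟨rfl, rfl⟩, fun k hk => by rw [hU, Finset.card_eq_zero.1 hQ0, Finset.sdiff_empty]; exact hb0 k hk, rfl, rfl⟩
  have hxy0 : ∀ i, x0 i + y0 i = deg G (v i) := by
    intro i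
    have h1 := hab i
    rcases hsw i with ⟨h2, h3⟩ | ⟨h2, h3⟩ <;> omega
  have hbig0 : ∀ i, i ∉ P → i ∉ Q → ¬ deg G (v i) ≤ 3 → 2 ≤ x0 i ∧ 2 ≤ y0 i := by
    intro i hi hiQ hi2
    have h1 := (hn i hi).2 (by omega)
    rcases hsw i with ⟨h2, h3⟩ | ⟨h2, h3⟩ <;> omega
  have htwo0 : ∀ i, i ∉ P → deg G (v i) ≤ 3 → 1 ≤ x0 i ∧ 1 ≤ y0 i := by
    intro i hi hi2
    have h1 := (hn i hi).1 hi2
    rcases hsw i with ⟨h2, h3⟩ | ⟨h2, h3⟩ <;> omega
  have hone0 : ∀ i, i ∉ P → i ∉ Q → 1 ≤ x0 i ∧ 1 ≤ y0 i := by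
    intro i hi hiQ
    by_cases hi2 : deg G (v i) ≤ 3
    · have := htwo0 i hi hi2
      omega
    · have := hbig0 i hi hiQ hi2
      omega
  have hzle : ∀ z : Fin s → ℕ, (∀ i, i ∉ P → i ∉ Q → 1 ≤ z i) → cx z U 0 ≤ P.card := by
    intro z hz
    unfold cx
    rw [← Finset.card_filter]
    refine Finset.card_le_card (fun i hi => ?_)
    obtain ⟨h1, h2⟩ := Finset.mem_filter.1 hi
    by_contra hno
    have := hz i hno (Finset.mem_sdiff.1 h1).2
    omega
  have z1 := hzle x0 (fun i h1 h2 => (hone0 i h1 h2).1)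
  have z2' := hzle y0 (fun i h1 h2 => (hone0 i h1 h2).2)
  -- the final parts for a given half of `Q`
  have key : ∀ H ⊆ Q, 2 * H.card = Q.card →
      (∀ i, (if i ∈ Q then (if i ∈ H then 1 else 2) else x0 i) +
        (if i ∈ Q then (if i ∈ H then 2 else 1) else y0 i) = deg G (v i)) ∧
      (∀ k, 2 ≤ k → cx (fun i => if i ∈ Q then (if i ∈ H then 1 else 2) else x0 i) univ k =
        cx (fun i => if i ∈ Q then (if i ∈ H then 2 else 1) else y0 i) univ k) ∧
      cx (fun i => if i ∈ Q then (if i ∈ H then 1 else 2) else x0 i) univ 0 = cx x0 U 0 ∧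
      cx (fun i => if i ∈ Q then (if i ∈ H then 2 else 1) else y0 i) univ 0 = cx y0 U 0 := by
    intro H hHQ hH2
    have hsd : (Q \ H).card = H.card := by
      rw [Finset.card_sdiff_of_subset hHQ]; omega
    have f1 : ∀ k, cx (fun i => if i ∈ Q then (if i ∈ H then 1 else 2) else x0 i) univ k =
        cx x0 U k + ((if 1 = k then H.card else 0) + (if 2 = k then H.card else 0)) := by
      intro k
      rw [hUQ, cx_congr (x' := x0) (fun i hi => if_neg (Finset.mem_sdiff.1 hi).2) k,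
        cx_two hHQ 1 2 k _ (fun i hi => by
          show (if i ∈ Q then (if i ∈ H then 1 else 2) else x0 i) = 1
          rw [if_pos (hHQ hi), if_pos hi]) (fun i hi => by
          show (if i ∈ Q then (if i ∈ H then 1 else 2) else x0 i) = 2
          rw [if_pos (Finset.mem_sdiff.1 hi).1, if_neg (Finset.mem_sdiff.1 hi).2]), hsd]
    have f2 : ∀ k, cx (fun i => if i ∈ Q then (if i ∈ H then 2 else 1) else y0 i) univ k =
        cx y0 U k + ((if 2 = k then H.card else 0) + (if 1 = k then H.card else 0)) := by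
      intro k
      rw [hUQ, cx_congr (x' := y0) (fun i hi => if_neg (Finset.mem_sdiff.1 hi).2) k,
        cx_two hHQ 2 1 k _ (fun i hi => by
          show (if i ∈ Q then (if i ∈ H then 2 else 1) else y0 i) = 2
          rw [if_pos (hHQ hi), if_pos hi]) (fun i hi => by
          show (if i ∈ Q then (if i ∈ H then 2 else 1) else y0 i) = 1
          rw [if_pos (Finset.mem_sdiff.1 hi).1, if_neg (Finset.mem_sdiff.1 hi).2]), hsd]
    refine ⟨?_, ?_, ?_, ?_⟩
    · intro i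
      by_cases hi : i ∈ Q
      · exact absurd hi (hQe i)
      · rw [if_neg hi, if_neg hi]; exact hxy0 i
    · intro k hk
      rw [f1, f2, hb k hk]
      omega
    · rw [f1]; simp
    · rw [f2]; simp
  -- parity of the number of zeros
  have e1 := edges_eq h
  have e2 := sum_spine h
  obtain ⟨m, hm⟩ := hev
  have hpz : (s - 1 + cx x0 U 0 + cx y0 U 0) % 2 = 0 := by
    obtain ⟨H0, hH0, hH0c⟩ := Finset.exists_subset_card_eq (s := Q) (n := Q.card / 2) (by omega)
    obtain ⟨k1, k2, k3, k4⟩ := key H0 hH0 (by omega)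
    have e3 := sum_diff k2
    have e4 := zero_diff k2
    have e5 : ∑ i, (if i ∈ Q then (if i ∈ H0 then 1 else 2) else x0 i) +
        ∑ i, (if i ∈ Q then (if i ∈ H0 then 2 else 1) else y0 i) =
        2 * (s - 1) + (offSpine v).card := by
      rw [← Finset.sum_add_distrib, ← e2]
      exact Finset.sum_congr rfl (fun i _ => k1 i)
    rw [k3, k4] at e4
    omega
  set zx := cx x0 U 0 with hzx
  set zy := cx y0 U 0 with hzy
  -- rigid vertices, classes of edges
  set r : ℕ → Prop := fun i => ∃ hi : i < s, (⟨i, hi⟩ : Fin s) ∉ P ∧ deg G (v ⟨i, hi⟩) ≤ 3 with hr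
  have hrP : ∀ i ∈ P, ¬ r (i : ℕ) := by
    rintro i hi ⟨_, h1, _⟩
    exact h1 hi
  have hr3 : ∀ i : Fin s, 4 ≤ deg G (v i) → ¬ r (i : ℕ) := by
    rintro i hi ⟨_, _, h1⟩
    have h1' : deg G (v i) ≤ 3 := h1
    omega
  set want : Fin s → ℕ := fun i => if x0 i ≤ 1 then 0 else 1 with hwant
  have hwant2 : ∀ i, want i < 2 := by
    intro i; rw [hwant]; dsimp only; split_ifs <;> omega
  set inF := (range (s - 1)).filter (fun t => ∃ p ∈ P, (t = (p : ℕ) ∨ t + 1 = (p : ℕ)) ∧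
    t % 2 = want p) with hinF
  set outF := (range (s - 1)).filter (fun t => ∃ p ∈ P, (t = (p : ℕ) ∨ t + 1 = (p : ℕ)) ∧
    ¬ t % 2 = want p) with houtF
  have hinc : inF.card ≤ P.card := by
    have h1 : inF ⊆ P.image (fun p : Fin s => if (p : ℕ) % 2 = want p then (p : ℕ) else (p : ℕ) - 1) := by
      intro t ht
      obtain ⟨_, p, hp, htp, hpar⟩ := Finset.mem_filter.1 ht
      refine Finset.mem_image.2 ⟨p, hp, ?_⟩
      have := hwant2 p
      split_ifs <;> omega
    exact (Finset.card_le_card h1).trans Finset.card_image_le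
  have houtc : outF.card ≤ P.card := by
    have h1 : outF ⊆ P.image (fun p : Fin s => if (p : ℕ) % 2 = want p then (p : ℕ) - 1 else (p : ℕ)) := by
      intro t ht
      obtain ⟨_, p, hp, htp, hpar⟩ := Finset.mem_filter.1 ht
      refine Finset.mem_image.2 ⟨p, hp, ?_⟩
      have := hwant2 p
      split_ifs <;> omega
    exact (Finset.card_le_card h1).trans Finset.card_image_le
  have hsep : ∀ t ∈ inF, ∀ t' ∈ outF, rep r t ≠ rep r t' := by
    intro t ht t' ht'
    obtain ⟨_, p, hp, htp, hpar⟩ := Finset.mem_filter.1 ht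
    obtain ⟨_, q, hq, htq, hpar'⟩ := Finset.mem_filter.1 ht'
    refine sep_io r P want hrP (fun i hi j hj hij => ?_) p hp t htp hpar q hq t' htq hpar'
    rcases hP i hi j hj hij with ⟨k, k1, k2, k3⟩ | hc
    · exact Or.inl ⟨k, k1, k2, hr3 k k3⟩
    · right
      rw [hwant, hx0]
      exact hc
  set G0 := inF.image (rep r) with hG0
  set bad := outF.image (rep r) with hbad
  have hG0c : G0.card ≤ P.card := Finset.card_image_le.trans hinc
  have hbadc : bad.card ≤ P.card := Finset.card_image_le.trans houtc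
  have hG0bad : Disjoint G0 bad := by
    rw [Finset.disjoint_left]
    intro u h1 h2
    obtain ⟨t, ht, e1⟩ := Finset.mem_image.1 h1
    obtain ⟨t', ht', e2⟩ := Finset.mem_image.1 h2
    exact hsep t ht t' ht' (e1.trans e2.symm)
  have hB0 : |∑ u ∈ G0, cs r (s - 1) u| ≤ (P.card : ℤ) := by
    refine (Finset.abs_sum_le_sum_abs _ _).trans ?_
    refine (Finset.sum_le_sum (g := fun _ => (1 : ℤ)) (fun u _ => ?_)).trans ?_
    · rcases cs_cases r (s - 1) u with h1 | h1 <;> rw [h1]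
      · simp
      · unfold sgn; split_ifs <;> simp
    · rw [Finset.sum_const, nsmul_eq_mul, mul_one]
      exact_mod_cast hG0c
  rw [abs_le] at hB0
  set B0 := ∑ u ∈ G0, cs r (s - 1) u with hB0d
  have hWcls : ∀ p ∈ W, (p.1 : ℕ) < p.2 ∧ (p.2 : ℕ) ≤ s - 1 ∧ ((p.2 : ℕ) - p.1) % 2 = 1 ∧
      ¬ r (p.1 : ℕ) ∧ ¬ r (p.2 : ℕ) := by
    intro p hp
    obtain ⟨h1, h2, h3, h4⟩ := hW p hp
    have h5 := p.2.2
    exact ⟨h1, by omega, h2, hr3 _ h3, hr3 _ h4⟩
  -- the required sum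
  obtain ⟨V0, hV0⟩ : ∃ V0 : ℤ, 2 * V0 = (((s - 1 : ℕ) : ℤ) % 2) + zx - zy := by
    refine ⟨((((s - 1 : ℕ) : ℤ) % 2) + zx - zy) / 2, ?_⟩
    omega
  obtain ⟨σ, hσ, m, hm0, hmc⟩ : ∃ σ : ℤ, (σ = 1 ∨ σ = -1) ∧ ∃ m : ℕ, B0 + σ * m = V0 ∧
      m ≤ 2 * P.card + 1 := by
    rcases le_total B0 V0 with h1 | h1
    · refine ⟨1, Or.inl rfl, (V0 - B0).toNat, ?_, ?_⟩
      · rw [Int.toNat_of_nonneg (by omega)]; ring
      · omega
    · refine ⟨-1, Or.inr rfl, (B0 - V0).toNat, ?_, ?_⟩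
      · rw [Int.toNat_of_nonneg (by omega)]; ring
      · omega
  set Us := ((range (s - 1)).image (rep r)).filter (fun u => cs r (s - 1) u = σ) with hUs
  have hUsc : W.card ≤ 2 * Us.card + 1 := many_classes2 r (s - 1) W (fun p => (p.1 : ℕ))
    (fun p => (p.2 : ℕ)) hWcls hWd σ hσ
  obtain ⟨X, hX1, hX2⟩ : ∃ X ⊆ Us \ (G0 ∪ bad), X.card = m := by
    refine Finset.exists_subset_card_eq ?_
    have h1 := Finset.le_card_sdiff (G0 ∪ bad) Us
    have h2 := Finset.card_union_le G0 bad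
    omega
  have hXG : Disjoint G0 X := by
    rw [Finset.disjoint_left]
    intro u h1 h2
    exact (Finset.mem_sdiff.1 (hX1 h2)).2 (Finset.mem_union_left _ h1)
  set GG := G0 ∪ X with hGG
  have hGGc : GG.card ≤ 3 * P.card + 1 := by
    have h1 : GG.card ≤ G0.card + X.card := Finset.card_union_le _ _
    omega
  have hGGbad : ∀ u ∈ bad, u ∉ GG := by
    intro u hu hu2
    rcases Finset.mem_union.1 hu2 with h1 | h1
    · exact (Finset.disjoint_left.1 hG0bad) h1 hu
    · exact (Finset.mem_sdiff.1 (hX1 h1)).2 (Finset.mem_union_right _ hu)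
  have hsumGG : ∑ u ∈ GG, cs r (s - 1) u = V0 := by
    rw [hGG, Finset.sum_union hXG, ← hB0d, ← hm0]
    congr 1
    rw [Finset.sum_congr rfl (fun u hu =>
      (Finset.mem_filter.1 (Finset.mem_sdiff.1 (hX1 hu)).1).2), Finset.sum_const, hX2,
      nsmul_eq_mul, mul_comm]
  set F := (range (s - 1)).filter (fun t => rep r t ∈ GG) with hF
  have hsumF : ∑ t ∈ F, sgn t = V0 := by rw [← hsumGG, sum_cs]
  set C := (range (s - 1)).filter (fun t => (t % 2 = 0 ∧ t ∉ F) ∨ (¬ t % 2 = 0 ∧ t ∈ F)) with hC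
  set D := (range (s - 1)).filter (fun t => ¬ ((t % 2 = 0 ∧ t ∉ F) ∨ (¬ t % 2 = 0 ∧ t ∈ F)))
    with hD
  have hCD : Disjoint C D := Finset.disjoint_filter_filter_not _ _ _
  have hCDu : C ∪ D = range (s - 1) := Finset.filter_union_filter_not_eq _ _
  have hdiff : (C.card : ℤ) - (D.card : ℤ) = zy - zx := by
    have h1 : (C.card : ℤ) - (D.card : ℤ) =
        ∑ t ∈ range (s - 1), (sgn t - 2 * (if t ∈ F then sgn t else 0)) := by
      rw [hC, hD, Finset.card_filter, Finset.card_filter]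
      push_cast
      rw [← Finset.sum_sub_distrib]
      refine Finset.sum_congr rfl (fun t _ => ?_)
      unfold sgn
      by_cases h1 : t % 2 = 0 <;> by_cases h2 : t ∈ F <;> simp [h1, h2]
    rw [h1, Finset.sum_sub_distrib, sum_sgn, ← Finset.mul_sum, ← Finset.sum_filter]
    have h2 : (range (s - 1)).filter (fun t => t ∈ F) = F := by
      rw [hF]
      ext t
      simp only [Finset.mem_filter]
      tauto
    rw [h2, hsumF, hV0]
    split_ifs <;> omega
  have hcnt : C.card + zx = D.card + zy := by omega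
  have hFm : ∀ t, t < s - 1 → (t ∈ F ↔ rep r t ∈ GG) := by
    intro t ht
    rw [hF, Finset.mem_filter, Finset.mem_range]
    exact ⟨fun hh => hh.2, fun hh => ⟨ht, hh⟩⟩
  have hCr : ∀ t ∈ C, t < s - 1 := fun t ht => Finset.mem_range.1 (Finset.mem_filter.1 ht).1
  have hDr : ∀ t ∈ D, t < s - 1 := fun t ht => Finset.mem_range.1 (Finset.mem_filter.1 ht).1
  -- both edges at `i` in the same set
  have hsame : ∀ i : Fin s, (2 ≤ (C.filter (fun t => t = (i : ℕ) ∨ t + 1 = i)).card ∨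
      2 ≤ (D.filter (fun t => t = (i : ℕ) ∨ t + 1 = i)).card) →
      1 ≤ (i : ℕ) ∧ (i : ℕ) < s - 1 ∧ ¬ (rep r (i : ℕ) ∈ GG ↔ rep r ((i : ℕ) - 1) ∈ GG) := by
    intro i hi
    rcases hi with hi | hi
    · obtain ⟨m1, m2, m3⟩ := both_mem hi
      have b1 := hCr _ m1
      have b2 := hCr _ m2
      have c1 := (Finset.mem_filter.1 m1).2
      have c2 := (Finset.mem_filter.1 m2).2
      rw [hFm _ b1] at c1
      rw [hFm _ b2] at c2
      refine ⟨m3, b1, fun hh => ?_⟩
      rw [← hh] at c2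
      rcases c1 with ⟨c1, c1'⟩ | ⟨c1, c1'⟩ <;> rcases c2 with ⟨c2, c2'⟩ | ⟨c2, c2'⟩
      · omega
      · exact c1' c2'
      · exact c2' c1'
      · omega
    · obtain ⟨m1, m2, m3⟩ := both_mem hi
      have b1 := hDr _ m1
      have b2 := hDr _ m2
      have c1 := (Finset.mem_filter.1 m1).2
      have c2 := (Finset.mem_filter.1 m2).2
      rw [hFm _ b1] at c1
      rw [hFm _ b2] at c2
      refine ⟨m3, b1, fun hh => ?_⟩
      rw [← hh] at c2
      rw [not_or, not_and, not_and] at c1 c2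
      by_cases hg : rep r (i : ℕ) ∈ GG
      · have d1 : (i : ℕ) % 2 = 0 := by
          by_contra h0; exact c1.2 h0 hg
        have d2 : ((i : ℕ) - 1) % 2 = 0 := by
          by_contra h0; exact c2.2 h0 hg
        omega
      · have d1 : ¬ (i : ℕ) % 2 = 0 := fun h0 => c1.1 h0 hg
        have d2 : ¬ ((i : ℕ) - 1) % 2 = 0 := fun h0 => c2.1 h0 hg
        omega
  have hrig : ∀ i : Fin s, i ∉ P → deg G (v i) ≤ 3 →
      (C.filter (fun t => t = (i : ℕ) ∨ t + 1 = i)).card ≤ 1 ∧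
      (D.filter (fun t => t = (i : ℕ) ∨ t + 1 = i)).card ≤ 1 := by
    intro i hi hi2
    by_contra hno
    obtain ⟨m1, m2, m3⟩ := hsame i (by omega)
    apply m3
    rw [rep_rigid r (i := (i : ℕ)) ⟨i.2, hi, hi2⟩ m1]
  -- the defects
  set CC := univ.filter (fun i : Fin s =>
      2 ≤ (C.filter (fun t => t = (i : ℕ) ∨ t + 1 = i)).card) with hCC
  set DD := univ.filter (fun i : Fin s =>
      2 ≤ (D.filter (fun t => t = (i : ℕ) ∨ t + 1 = i)).card) with hDD
  have hQr : ∀ i ∈ Q, ¬ r (i : ℕ) := fun i hi => absurd hi (hQe i)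
  have hdef : ((CC ∪ DD) ∩ Q).card ≤ 6 * P.card + 2 := by
    have h1 : (CC ∪ DD) ∩ Q ⊆ (Q.filter (fun i : Fin s => rep r (i : ℕ) ∈ GG)) ∪
        (Q.filter (fun i : Fin s => 1 ≤ (i : ℕ) ∧ rep r ((i : ℕ) - 1) ∈ GG)) := by
      intro i hi
      obtain ⟨h1, h2⟩ := Finset.mem_inter.1 hi
      have h3 : 1 ≤ (i : ℕ) ∧ (i : ℕ) < s - 1 ∧
          ¬ (rep r (i : ℕ) ∈ GG ↔ rep r ((i : ℕ) - 1) ∈ GG) := by
        apply hsame
        rcases Finset.mem_union.1 h1 with h1 | h1
        · exact Or.inl (Finset.mem_filter.1 h1).2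
        · exact Or.inr (Finset.mem_filter.1 h1).2
      rw [Finset.mem_union, Finset.mem_filter, Finset.mem_filter]
      by_cases h4 : rep r (i : ℕ) ∈ GG
      · exact Or.inl ⟨h2, h4⟩
      · refine Or.inr ⟨h2, h3.1, ?_⟩
        by_contra h5
        exact h3.2.2 ⟨fun h => absurd h h4, fun h => absurd h h5⟩
    have h2 : (Q.filter (fun i : Fin s => rep r (i : ℕ) ∈ GG)).card ≤ GG.card := by
      refine Finset.card_le_card_of_injOn (fun i : Fin s => rep r (i : ℕ)) (fun i hi => ?_) ?_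
      · exact (Finset.mem_filter.1 (Finset.mem_coe.1 hi)).2
      · intro i hi j hj hij
        have e1 := rep_not r (hQr i (Finset.mem_filter.1 (Finset.mem_coe.1 hi)).1)
        have e2 := rep_not r (hQr j (Finset.mem_filter.1 (Finset.mem_coe.1 hj)).1)
        have hij' : rep r (i : ℕ) = rep r (j : ℕ) := hij
        exact Fin.ext (by rw [← e1, ← e2]; exact hij')
    have h3 : (Q.filter (fun i : Fin s => 1 ≤ (i : ℕ) ∧ rep r ((i : ℕ) - 1) ∈ GG)).card ≤ GG.card := by
      refine Finset.card_le_card_of_injOn (fun i : Fin s => rep r ((i : ℕ) - 1)) (fun i hi => ?_) ?_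
      · exact (Finset.mem_filter.1 (Finset.mem_coe.1 hi)).2.2
      · intro i hi j hj hij
        obtain ⟨i1, i2, _⟩ := Finset.mem_filter.1 (Finset.mem_coe.1 hi)
        obtain ⟨j1, j2, _⟩ := Finset.mem_filter.1 (Finset.mem_coe.1 hj)
        have hij' : rep r ((i : ℕ) - 1) = rep r ((j : ℕ) - 1) := hij
        have l1 := rep_le r ((i : ℕ) - 1)
        have l2 := rep_le r ((j : ℕ) - 1)
        rcases lt_trichotomy (i : ℕ) (j : ℕ) with hlt | hlt | hlt
        · have := le_rep r (hQr i i1) (t := (j : ℕ) - 1) (by omega)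
          omega
        · exact Fin.ext hlt
        · have := le_rep r (hQr j j1) (t := (i : ℕ) - 1) (by omega)
          omega
    have h4 := (Finset.card_le_card h1).trans (Finset.card_union_le _ _)
    omega
  have hCDi : ∀ i : Fin s, (C.filter (fun t => t = (i : ℕ) ∨ t + 1 = i)).card +
      (D.filter (fun t => t = (i : ℕ) ∨ t + 1 = i)).card ≤ 2 := by
    intro i
    have h1 := inc_le (C ∪ D) (i : ℕ)
    rw [Finset.filter_union, Finset.card_union_of_disjoint
      (Finset.disjoint_filter_filter hCD)] at h1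
    exact h1
  -- choose the half of `Q`
  obtain ⟨H, hH1, hH2, hH3⟩ : ∃ H, DD ∩ Q ⊆ H ∧ H ⊆ Q \ CC ∧ H.card = Q.card / 2 := by
    have hi1 : (DD ∩ Q).card ≤ ((CC ∪ DD) ∩ Q).card := Finset.card_le_card
      (Finset.inter_subset_inter_right Finset.subset_union_right)
    have hi2 : (CC ∩ Q).card ≤ ((CC ∪ DD) ∩ Q).card := Finset.card_le_card
      (Finset.inter_subset_inter_right Finset.subset_union_left)
    have hi3 := Finset.card_le_card (Finset.inter_subset_right (s₁ := CC ∪ DD) (s₂ := Q))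
    refine Finset.exists_subsuperset_card_eq ?_ ?_ ?_
    · intro i hi
      obtain ⟨h1, h2⟩ := Finset.mem_inter.1 hi
      refine Finset.mem_sdiff.2 ⟨h2, fun h3 => ?_⟩
      have h4 := (Finset.mem_filter.1 h1).2
      have h5 := (Finset.mem_filter.1 h3).2
      have := hCDi i
      omega
    · omega
    · have h1 : (Q \ CC).card + (CC ∩ Q).card = Q.card := by
        rw [Finset.inter_comm]
        exact Finset.card_sdiff_add_card_inter Q CC
      omega
  have hHQ : H ⊆ Q := hH2.trans Finset.sdiff_subset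
  obtain ⟨k1, k2, k3, k4⟩ := key H hHQ (by omega)
  rw [formZ h]
  refine ⟨_, _, C, D, k1, ?_, hCD, hCDu, ?_, ?_⟩
  · intro k hk
    rw [Finset.card_filter, Finset.card_filter]
    exact k2 k hk
  · intro i
    have k1' := inc_le C (i : ℕ)
    have k2' := inc_le D (i : ℕ)
    have k3' := hxy0 i
    have k4' := h2d i
    by_cases hiQ : i ∈ Q
    · rw [if_pos hiQ, if_pos hiQ]
      by_cases hiH : i ∈ H
      · rw [if_pos hiH, if_pos hiH]
        refine ⟨?_, k2'⟩
        by_contra hno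
        exact (Finset.mem_sdiff.1 (hH2 hiH)).2
          (Finset.mem_filter.2 ⟨Finset.mem_univ _, by omega⟩)
      · rw [if_neg hiH, if_neg hiH]
        refine ⟨k1', ?_⟩
        by_contra hno
        exact hiH (hH1 (Finset.mem_inter.2
          ⟨Finset.mem_filter.2 ⟨Finset.mem_univ _, by omega⟩, hiQ⟩))
    · rw [if_neg hiQ, if_neg hiQ]
      by_cases hi : i ∈ P
      · -- special vertices
        have hin : ∀ t, t < s - 1 → (t = (i : ℕ) ∨ t + 1 = (i : ℕ)) → (t ∈ F ↔ t % 2 = want i) := by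
          intro t ht hti
          rw [hFm t ht]
          constructor
          · intro hg
            by_contra hno
            refine hGGbad (rep r t) (Finset.mem_image_of_mem _ (Finset.mem_filter.2
              ⟨Finset.mem_range.2 ht, i, hi, hti, hno⟩)) hg
          · intro hw
            exact Finset.mem_union_left _ (Finset.mem_image_of_mem _ (Finset.mem_filter.2
              ⟨Finset.mem_range.2 ht, i, hi, hti, hw⟩))
        by_cases hx1 : x0 i ≤ 1
        · have hw : want i = 0 := by rw [hwant]; exact if_pos hx1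
          have hempty : C.filter (fun t => t = (i : ℕ) ∨ t + 1 = i) = ∅ := by
            rw [Finset.filter_eq_empty_iff]
            intro t ht hti
            have h1 := (Finset.mem_filter.1 ht).2
            rw [hin t (hCr t ht) hti, hw] at h1
            omega
          rw [hempty, Finset.card_empty]
          have hps : 2 ≤ y0 i := by
            have h5 := hPs i hi
            rcases hsw i with ⟨h6, h7⟩ | ⟨h6, h7⟩ <;> omega
          exact ⟨Nat.zero_le _, by omega⟩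
        · have hw : want i = 1 := by rw [hwant]; exact if_neg hx1
          have hempty : D.filter (fun t => t = (i : ℕ) ∨ t + 1 = i) = ∅ := by
            rw [Finset.filter_eq_empty_iff]
            intro t ht hti
            have h1 := (Finset.mem_filter.1 ht).2
            rw [hin t (hDr t ht) hti, hw] at h1
            omega
          rw [hempty, Finset.card_empty]
          exact ⟨by omega, Nat.zero_le _⟩
      · by_cases hi2 : deg G (v i) ≤ 3
        · have h5 := htwo0 i hi hi2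
          have h6 := hrig i hi hi2
          exact ⟨by omega, by omega⟩
        · have := hbig0 i hi hiQ hi2
          exact ⟨by omega, by omega⟩
  · have k3'' : (univ.filter (fun i =>
        (if i ∈ Q then (if i ∈ H then 1 else 2) else x0 i) = 0)).card = zx :=
      (Finset.card_filter _ _).trans k3
    have k4'' : (univ.filter (fun i =>
        (if i ∈ Q then (if i ∈ H then 2 else 1) else y0 i) = 0)).card = zy :=
      (Finset.card_filter _ _).trans k4
    rw [k3'', k4'']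
    exact hcnt

/-- two consecutive frequent spine degrees inside even gaps between vertices of degree at least
four, other parts at least one or two -/
theorem cons_or4 {G : SimpleGraph V} {s : ℕ} {v : Fin s → V} (h : IsSpine G v)
    (hev : Even G.edgeSet.ncard) (P : Finset (Fin s))
    (a b : Fin s → ℕ)
    (hP : ∀ i ∈ P, ∀ j ∈ P, i < j → (∃ k : Fin s, i < k ∧ k < j ∧ 4 ≤ deg G (v k)) ∨
      ((i : ℕ) % 2 = (if a i ≤ 1 then 0 else 1) ↔
        ((j : ℕ) - 1) % 2 = (if a j ≤ 1 then 0 else 1)))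
    (hab : ∀ i, a i + b i = deg G (v i)) (hPs : ∀ i ∈ P, a i ≠ 1 ∨ b i ≠ 1)
    (hn : ∀ i, i ∉ P → (deg G (v i) ≤ 3 → 1 ≤ a i ∧ 1 ≤ b i) ∧
      (4 ≤ deg G (v i) → 2 ≤ a i ∧ 2 ≤ b i))
    (c : ℕ) (hc : 4 ≤ c) (R0 R1 : Finset (Fin s))
    (hb0 : ∀ k, 2 ≤ k → cx a (univ \ (R0 ∪ R1)) k = cx b (univ \ (R0 ∪ R1)) k)
    (hR0 : ∀ i ∈ R0, deg G (v i) = c) (hR1 : ∀ i ∈ R1, deg G (v i) = c + 1)
    (c0 : R0.card = 2 * (2 * P.card + 1)) (c1 : R1.card = 2 * (2 * P.card + 1))
    (pv nx : Fin s → Fin s)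
    (hg : ∀ i ∈ R0 ∪ R1, pv i < i ∧ i < nx i ∧ ((i : ℕ) - pv i) % 2 = 0 ∧
      ((nx i : ℕ) - i) % 2 = 0 ∧ 4 ≤ deg G (v (pv i)) ∧ 4 ≤ deg G (v (nx i)) ∧
      (∀ k, pv i < k → k < i → deg G (v k) ≤ 3) ∧ (∀ k, i < k → k < nx i → deg G (v k) ≤ 3) ∧
      ∀ q ∈ P, ¬ (pv i ≤ q ∧ q ≤ nx i))
    (hfar : ∀ i ∈ R0 ∪ R1, ∀ j ∈ R0 ∪ R1, i ≠ j → nx i ≤ pv j ∨ nx j ≤ pv i) :
    Splittable G := by
  classical
  have h2d : ∀ i, 2 ≤ deg G (v i) := h.two
  have hR : Disjoint R0 R1 := by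
    rw [Finset.disjoint_left]
    intro i h1 h2
    have := hR0 i h1
    have := hR1 i h2
    omega
  have hRP : ∀ i ∈ R0 ∪ R1, i ∉ P := fun i hi hh => (hg i hi).2.2.2.2.2.2.2.2 i hh
    ⟨(hg i hi).1.le, (hg i hi).2.1.le⟩
  have hRd : ∀ i ∈ R0 ∪ R1, 4 ≤ deg G (v i) := by
    intro i hi
    rcases Finset.mem_union.1 hi with h6 | h6
    · rw [hR0 i h6]; exact hc
    · rw [hR1 i h6]; omega
  set J := 2 * P.card + 1 with hJ
  set U := univ \ (R0 ∪ R1) with hU
  have hsp : ∀ (z : Fin s → ℕ) k, cx z univ k = cx z U k + (cx z R0 k + cx z R1 k) := by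
    intro z k
    rw [← cx_union hR]
    unfold cx
    exact (Finset.sum_sdiff (Finset.subset_univ (R0 ∪ R1))).symm
  obtain ⟨x0, y0, hsw, hb, hx0, hy0⟩ : ∃ x0 y0 : Fin s → ℕ,
      (∀ i, (x0 i = a i ∧ y0 i = b i) ∨ (x0 i = b i ∧ y0 i = a i)) ∧
      (∀ k, 2 ≤ k → cx x0 U k = cx y0 U k) ∧ x0 = a ∧ y0 = b :=
    ⟨a, b, fun i => Or.inl ⟨rfl, rfl⟩, hb0, rfl, rfl⟩
  have hxy0 : ∀ i, x0 i + y0 i = deg G (v i) := by
    intro i
    have h1 := hab i
    rcases hsw i with ⟨h2, h3⟩ | ⟨h2, h3⟩ <;> omega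
  have hbig0 : ∀ i, i ∉ P → ¬ deg G (v i) ≤ 3 → 2 ≤ x0 i ∧ 2 ≤ y0 i := by
    intro i hi hi2
    have h1 := (hn i hi).2 (by omega)
    rcases hsw i with ⟨h2, h3⟩ | ⟨h2, h3⟩ <;> omega
  have htwo0 : ∀ i, i ∉ P → deg G (v i) ≤ 3 → 1 ≤ x0 i ∧ 1 ≤ y0 i := by
    intro i hi hi2
    have h1 := (hn i hi).1 hi2
    rcases hsw i with ⟨h2, h3⟩ | ⟨h2, h3⟩ <;> omega
  have hzle : ∀ z : Fin s → ℕ, (∀ i, i ∉ P → 1 ≤ z i) → cx z U 0 ≤ P.card := by
    intro z hz
    unfold cx
    rw [← Finset.card_filter]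
    refine Finset.card_le_card (fun i hi => ?_)
    obtain ⟨h1, h2⟩ := Finset.mem_filter.1 hi
    by_contra hno
    have := hz i hno
    omega
  have hone0 : ∀ i, i ∉ P → 1 ≤ x0 i ∧ 1 ≤ y0 i := by
    intro i hi
    by_cases hi2 : deg G (v i) ≤ 3
    · have := htwo0 i hi hi2
      omega
    · have := hbig0 i hi hi2
      omega
  have z1 := hzle x0 (fun i h1 => (hone0 i h1).1)
  have z2' := hzle y0 (fun i h1 => (hone0 i h1).2)
  -- parity of the number of zeros
  have e1 := edges_eq h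
  have e2 := sum_spine h
  obtain ⟨m, hm⟩ := hev
  have hpz : (s - 1 + cx x0 U 0 + cx y0 U 0) % 2 = 0 := by
    obtain ⟨H0, hH0, hH0c⟩ := Finset.exists_subset_card_eq (s := R0 \ ∅) (n := J) (by
      rw [Finset.sdiff_empty, c0]; omega)
    obtain ⟨H1, hH1, hH1c⟩ := Finset.exists_subset_card_eq (s := R1 \ ∅) (n := J) (by
      rw [Finset.sdiff_empty, c1]; omega)
    set xx : Fin s → ℕ := fun i => if i ∈ (∅ : Finset (Fin s)) then c * 0 else
      if i ∈ (∅ : Finset (Fin s)) then c * (1 - 0) + 0 else if i ∈ H0 ∪ H1 then 2 else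
      if i ∈ R0 ∪ R1 then deg G (v i) - 2 else x0 i with hxx
    set yy : Fin s → ℕ := fun i => if i ∈ (∅ : Finset (Fin s)) then c * (1 - 0) else
      if i ∈ (∅ : Finset (Fin s)) then c * 0 + (1 - 0) else if i ∈ H0 ∪ H1 then
      deg G (v i) - 2 else if i ∈ R0 ∪ R1 then 2 else y0 i with hyy
    obtain ⟨k1, k2, k3, k4⟩ := cons_assign (fun i => deg G (v i)) c J 0 0 (by omega) hc R0 R1 ∅ H0
      ∅ H1 hR hR0 hR1 (Finset.empty_subset _) hH0 (Finset.empty_subset _) hH1 c0 c1 rfl rfl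
      hH0c hH1c x0 y0 hxy0 hb xx yy hxx hyy
    have e3 := sum_diff k2
    have e4 := zero_diff k2
    rw [k3, k4] at e4
    have e5 : ∑ i, xx i + ∑ i, yy i = 2 * (s - 1) + (offSpine v).card := by
      rw [← Finset.sum_add_distrib, ← e2]
      exact Finset.sum_congr rfl (fun i _ => k1 i)
    rw [← hU] at e4
    omega
  set zx := cx x0 U 0 with hzx
  set zy := cx y0 U 0 with hzy
  -- rigid vertices, classes of edges
  set r : ℕ → Prop := fun i => ∃ hi : i < s, (⟨i, hi⟩ : Fin s) ∉ P ∧ deg G (v ⟨i, hi⟩) ≤ 3 with hr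
  have hrP : ∀ i ∈ P, ¬ r (i : ℕ) := by
    rintro i hi ⟨_, h1, _⟩
    exact h1 hi
  have hr3 : ∀ i : Fin s, 4 ≤ deg G (v i) → ¬ r (i : ℕ) := by
    rintro i hi ⟨_, _, h1⟩
    have h1' : deg G (v i) ≤ 3 := h1
    omega
  set want : Fin s → ℕ := fun i => if x0 i ≤ 1 then 0 else 1 with hwant
  have hwant2 : ∀ i, want i < 2 := by
    intro i; rw [hwant]; dsimp only; split_ifs <;> omega
  set inF := (range (s - 1)).filter (fun t => ∃ p ∈ P, (t = (p : ℕ) ∨ t + 1 = (p : ℕ)) ∧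
    t % 2 = want p) with hinF
  set outF := (range (s - 1)).filter (fun t => ∃ p ∈ P, (t = (p : ℕ) ∨ t + 1 = (p : ℕ)) ∧
    ¬ t % 2 = want p) with houtF
  have hinc : inF.card ≤ P.card := by
    have h1 : inF ⊆ P.image (fun p : Fin s => if (p : ℕ) % 2 = want p then (p : ℕ) else (p : ℕ) - 1) := by
      intro t ht
      obtain ⟨_, p, hp, htp, hpar⟩ := Finset.mem_filter.1 ht
      refine Finset.mem_image.2 ⟨p, hp, ?_⟩
      have := hwant2 p
      split_ifs <;> omega
    exact (Finset.card_le_card h1).trans Finset.card_image_le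
  have houtc : outF.card ≤ P.card := by
    have h1 : outF ⊆ P.image (fun p : Fin s => if (p : ℕ) % 2 = want p then (p : ℕ) - 1 else (p : ℕ)) := by
      intro t ht
      obtain ⟨_, p, hp, htp, hpar⟩ := Finset.mem_filter.1 ht
      refine Finset.mem_image.2 ⟨p, hp, ?_⟩
      have := hwant2 p
      split_ifs <;> omega
    exact (Finset.card_le_card h1).trans Finset.card_image_le
  have hsep : ∀ t ∈ inF, ∀ t' ∈ outF, rep r t ≠ rep r t' := by
    intro t ht t' ht'
    obtain ⟨_, p, hp, htp, hpar⟩ := Finset.mem_filter.1 ht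
    obtain ⟨_, q, hq, htq, hpar'⟩ := Finset.mem_filter.1 ht'
    refine sep_io r P want hrP (fun i hi j hj hij => ?_) p hp t htp hpar q hq t' htq hpar'
    rcases hP i hi j hj hij with ⟨k, k1, k2, k3⟩ | hc
    · exact Or.inl ⟨k, k1, k2, hr3 k k3⟩
    · right
      rw [hwant, hx0]
      exact hc
  set G0 := inF.image (rep r) with hG0
  set bad := outF.image (rep r) with hbad
  have hG0c : G0.card ≤ P.card := Finset.card_image_le.trans hinc
  have hbadc : bad.card ≤ P.card := Finset.card_image_le.trans houtc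
  have hG0bad : Disjoint G0 bad := by
    rw [Finset.disjoint_left]
    intro u h1 h2
    obtain ⟨t, ht, e1⟩ := Finset.mem_image.1 h1
    obtain ⟨t', ht', e2⟩ := Finset.mem_image.1 h2
    exact hsep t ht t' ht' (e1.trans e2.symm)
  have hB0 : |∑ u ∈ G0, cs r (s - 1) u| ≤ (P.card : ℤ) := by
    refine (Finset.abs_sum_le_sum_abs _ _).trans ?_
    refine (Finset.sum_le_sum (g := fun _ => (1 : ℤ)) (fun u _ => ?_)).trans ?_
    · rcases cs_cases r (s - 1) u with h1 | h1 <;> rw [h1]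
      · simp
      · unfold sgn; split_ifs <;> simp
    · rw [Finset.sum_const, nsmul_eq_mul, mul_one]
      exact_mod_cast hG0c
  rw [abs_le] at hB0
  set B0 := ∑ u ∈ G0, cs r (s - 1) u with hB0d
  -- the classes next to the chosen vertices
  have hA : ∀ i ∈ R0 ∪ R1, ∀ t, (pv i : ℕ) ≤ t → t < (i : ℕ) → rep r t = (pv i : ℕ) := by
    intro i hi t h1 h2
    obtain ⟨g1, g2, g3, g4, g5, g6, g7, g8, g9⟩ := hg i hi
    refine rep_const r (hr3 _ g5) (fun k hk1 hk2 => ?_) t h1 h2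
    have hks : k < s := hk2.trans i.2
    refine ⟨hks, fun hh => g9 _ hh ⟨hk1.le, ?_⟩, g7 ⟨k, hks⟩ hk1 hk2⟩
    exact (lt_trans (show (⟨k, hks⟩ : Fin s) < i from hk2) g2).le
  have hB : ∀ i ∈ R0 ∪ R1, ∀ t, (i : ℕ) ≤ t → t < (nx i : ℕ) → rep r t = (i : ℕ) := by
    intro i hi t h1 h2
    obtain ⟨g1, g2, g3, g4, g5, g6, g7, g8, g9⟩ := hg i hi
    refine rep_const r (hr3 _ (by have := hRd i hi; omega)) (fun k hk1 hk2 => ?_) t h1 h2
    have hks : k < s := hk2.trans (nx i).2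
    refine ⟨hks, fun hh => g9 _ hh ⟨?_, hk2.le⟩, g8 ⟨k, hks⟩ hk1 hk2⟩
    exact (lt_trans g1 (show i < (⟨k, hks⟩ : Fin s) from hk1)).le
  have hri : ∀ i ∈ R0 ∪ R1, ¬ r (i : ℕ) := fun i hi => hr3 _ (by have := hRd i hi; omega)
  have hrn : ∀ i ∈ R0 ∪ R1, ¬ r (nx i : ℕ) := fun i hi => hr3 _ (hg i hi).2.2.2.2.2.1
  have hrp : ∀ i ∈ R0 ∪ R1, ¬ r (pv i : ℕ) := fun i hi => hr3 _ (hg i hi).2.2.2.2.1
  have hcsA : ∀ i ∈ R0 ∪ R1, cs r (s - 1) (pv i : ℕ) = 0 := by
    intro i hi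
    obtain ⟨g1, g2, g3, g4, g5, g6, g7, g8, g9⟩ := hg i hi
    have g1' : (pv i : ℕ) < i := g1
    have his := i.2
    exact even_class r (s - 1) (pv i : ℕ) (i : ℕ) g1' (by omega) g3 (hri i hi) (hA i hi)
  have hcsB : ∀ i ∈ R0 ∪ R1, cs r (s - 1) (i : ℕ) = 0 := by
    intro i hi
    obtain ⟨g1, g2, g3, g4, g5, g6, g7, g8, g9⟩ := hg i hi
    have g2' : (i : ℕ) < nx i := g2
    have his := (nx i).2
    exact even_class r (s - 1) (i : ℕ) (nx i : ℕ) g2' (by omega) g4 (hrn i hi) (hB i hi)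
  have htouch : ∀ i ∈ R0 ∪ R1, ∀ q ∈ P, ∀ t, (t = (q : ℕ) ∨ t + 1 = (q : ℕ)) →
      rep r t ≠ (pv i : ℕ) ∧ rep r t ≠ (i : ℕ) := by
    intro i hi q hq t htq
    obtain ⟨g1, g2, g3, g4, g5, g6, g7, g8, g9⟩ := hg i hi
    have g1' : (pv i : ℕ) < i := g1
    have g2' : (i : ℕ) < nx i := g2
    have l1 := rep_le r t
    constructor
    · intro h1
      have h2 : t < (i : ℕ) := by
        by_contra h3
        have := le_rep r (hri i hi) (t := t) (by omega)
        omega
      refine g9 q hq ⟨?_, ?_⟩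
      · show (pv i : ℕ) ≤ q
        omega
      · show (q : ℕ) ≤ nx i
        omega
    · intro h1
      have h2 : t < (nx i : ℕ) := by
        by_contra h3
        have := le_rep r (hrn i hi) (t := t) (by omega)
        omega
      refine g9 q hq ⟨?_, ?_⟩
      · show (pv i : ℕ) ≤ q
        omega
      · show (q : ℕ) ≤ nx i
        omega
  have hG0R : ∀ i ∈ R0 ∪ R1, (pv i : ℕ) ∉ G0 ∧ (i : ℕ) ∉ G0 := by
    intro i hi
    constructor
    · intro hh
      obtain ⟨t, ht, e1⟩ := Finset.mem_image.1 hh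
      obtain ⟨_, q, hq, hti, _⟩ := Finset.mem_filter.1 ht
      exact (htouch i hi q hq t hti).1 e1
    · intro hh
      obtain ⟨t, ht, e1⟩ := Finset.mem_image.1 hh
      obtain ⟨_, q, hq, hti, _⟩ := Finset.mem_filter.1 ht
      exact (htouch i hi q hq t hti).2 e1
  -- the required sum
  obtain ⟨V0, hV0⟩ : ∃ V0 : ℤ, 2 * V0 = (((s - 1 : ℕ) : ℤ) % 2) + zx - zy := by
    refine ⟨((((s - 1 : ℕ) : ℤ) % 2) + zx - zy) / 2, ?_⟩
    omega
  obtain ⟨w, hw, j, hj, hjc⟩ : ∃ w : ℕ, w ≤ 1 ∧ ∃ j : ℕ, V0 + (1 - 2 * (w : ℤ)) * j = B0 ∧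
      j ≤ J := by
    rcases le_total B0 V0 with h1 | h1
    · refine ⟨1, le_rfl, (V0 - B0).toNat, ?_, ?_⟩
      · rw [Int.toNat_of_nonneg (by omega)]; push_cast; ring
      · omega
    · refine ⟨0, by omega, (B0 - V0).toNat, ?_, ?_⟩
      · rw [Int.toNat_of_nonneg (by omega)]; push_cast; ring
      · omega
  have hw2 : w = 0 ∨ w = 1 := by omega
  obtain ⟨S0, hS0, hS0c⟩ := Finset.exists_subset_card_eq (s := R0) (n := 2 * j) (by omega)
  obtain ⟨S1, hS1, hS1c⟩ := Finset.exists_subset_card_eq (s := R1) (n := 2 * j) (by omega)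
  obtain ⟨H0, hH0, hH0c⟩ := Finset.exists_subset_card_eq (s := R0 \ S0) (n := J - j) (by
    rw [Finset.card_sdiff_of_subset hS0]; omega)
  obtain ⟨H1, hH1, hH1c⟩ := Finset.exists_subset_card_eq (s := R1 \ S1) (n := J - j) (by
    rw [Finset.card_sdiff_of_subset hS1]; omega)
  set x : Fin s → ℕ := fun i => if i ∈ S0 then c * w else if i ∈ S1 then c * (1 - w) + w else
      if i ∈ H0 ∪ H1 then 2 else if i ∈ R0 ∪ R1 then deg G (v i) - 2 else x0 i with hx
  set y : Fin s → ℕ := fun i => if i ∈ S0 then c * (1 - w) else if i ∈ S1 then c * w + (1 - w)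
      else if i ∈ H0 ∪ H1 then deg G (v i) - 2 else if i ∈ R0 ∪ R1 then 2 else y0 i with hy
  obtain ⟨k1, k2, k3, k4⟩ := cons_assign (fun i => deg G (v i)) c J j w hw hc R0 R1 S0 H0
      S1 H1 hR hR0 hR1 hS0 hH0 hS1 hH1 c0 c1 hS0c hS1c (by omega) (by omega) x0 y0 hxy0 hb
      x y hx hy
  have hS0R : ∀ i ∈ S0, i ∈ R0 ∪ R1 := fun i hi => Finset.mem_union_left _ (hS0 hi)
  have hS1R : ∀ i ∈ S1, i ∈ R0 ∪ R1 := fun i hi => Finset.mem_union_right _ (hS1 hi)
  have hS01 : ∀ i ∈ S1, i ∉ S0 := fun i h1 h2 => (Finset.disjoint_left.1 hR) (hS0 h2) (hS1 h1)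
  have hSR : ∀ i ∈ S0 ∪ S1, i ∈ R0 ∪ R1 := by
    intro i hi
    rcases Finset.mem_union.1 hi with h1 | h1
    · exact hS0R i h1
    · exact hS1R i h1
  set wt : Fin s → ℕ := fun i => if i ∈ S0 then w else 1 - w with hwt
  have hwt1 : ∀ i, wt i ≤ 1 := by
    intro i; rw [hwt]; dsimp only; split_ifs <;> omega
  have hxS : ∀ i ∈ S0 ∪ S1, (if x i ≤ 1 then 0 else 1) = wt i ∧ (x i ≠ 1 ∨ y i ≠ 1) := by
    intro i hi
    by_cases h1 : i ∈ S0
    · have e1 : x i = c * w := if_pos h1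
      have e2 : y i = c * (1 - w) := if_pos h1
      have e3 : wt i = w := if_pos h1
      rw [e1, e2, e3]
      rcases hw2 with h | h <;> rw [h]
      · rw [Nat.mul_zero]
        exact ⟨rfl, Or.inl (by omega)⟩
      · rw [Nat.mul_one]
        exact ⟨if_neg (by omega), Or.inl (by omega)⟩
    · have h2 : i ∈ S1 := (Finset.mem_union.1 hi).resolve_left h1
      have e1 : x i = c * (1 - w) + w := (if_neg h1).trans (if_pos h2)
      have e2 : y i = c * w + (1 - w) := (if_neg h1).trans (if_pos h2)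
      have e3 : wt i = 1 - w := if_neg h1
      rw [e1, e2, e3]
      rcases hw2 with h | h <;> rw [h]
      · rw [Nat.sub_zero, Nat.mul_one, Nat.add_zero]
        exact ⟨if_neg (by omega), Or.inl (by omega)⟩
      · rw [Nat.sub_self, Nat.mul_zero, Nat.mul_one]
        exact ⟨rfl, Or.inr (by omega)⟩
  set uu : Fin s → ℕ := fun i => if (i : ℕ) % 2 = wt i then (i : ℕ) else (pv i : ℕ) with huu
  have huu2 : ∀ i : Fin s, ((i : ℕ) % 2 = wt i ∧ uu i = (i : ℕ)) ∨
      (¬ (i : ℕ) % 2 = wt i ∧ uu i = (pv i : ℕ)) := by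
    intro i
    rw [huu]
    dsimp only
    split_ifs with h1
    · exact Or.inl ⟨h1, rfl⟩
    · exact Or.inr ⟨h1, rfl⟩
  set X := (S0 ∪ S1).image uu with hX
  set GG := G0 ∪ X with hGG
  have hsumGG : ∑ u ∈ GG, cs r (s - 1) u = B0 := by
    rw [hGG, ← Finset.union_sdiff_self_eq_union, Finset.sum_union Finset.disjoint_sdiff, ← hB0d]
    rw [Finset.sum_eq_zero, add_zero]
    intro u hu
    obtain ⟨i, hi, e1⟩ := Finset.mem_image.1 (Finset.mem_sdiff.1 hu).1
    rw [← e1]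
    rcases huu2 i with ⟨_, h1⟩ | ⟨_, h1⟩
    · rw [h1]; exact hcsB i (hSR i hi)
    · rw [h1]; exact hcsA i (hSR i hi)
  have hmem : ∀ i ∈ S0 ∪ S1, ∀ u, (u = (pv i : ℕ) ∨ u = (i : ℕ)) → (u ∈ GG ↔ u = uu i) := by
    intro i hi u hu
    constructor
    · intro h1
      rcases Finset.mem_union.1 h1 with h1 | h1
      · exfalso
        obtain ⟨h3, h4⟩ := hG0R i (hSR i hi)
        rcases hu with h5 | h5
        · exact h3 (by rw [← h5]; exact h1)
        · exact h4 (by rw [← h5]; exact h1)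
      · obtain ⟨i', hi', e1⟩ := Finset.mem_image.1 h1
        by_cases hii : i = i'
        · rw [hii]; exact e1.symm
        · exfalso
          obtain ⟨g1, g2, _⟩ := hg i (hSR i hi)
          obtain ⟨g1', g2', _⟩ := hg i' (hSR i' hi')
          have a1 : (pv i : ℕ) < i := g1
          have a2 : (i : ℕ) < nx i := g2
          have a3 : (pv i' : ℕ) < i' := g1'
          have a4 : (i' : ℕ) < nx i' := g2'
          have h5 := huu2 i'
          rcases hfar i (hSR i hi) i' (hSR i' hi') hii with h6 | h6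
          · have h6' : (nx i : ℕ) ≤ pv i' := h6
            omega
          · have h6' : (nx i' : ℕ) ≤ pv i := h6
            omega
    · intro h1
      rw [h1]
      exact Finset.mem_union_right _ (Finset.mem_image_of_mem _ hi)
  have hxo : ∀ i, i ∉ S0 → i ∉ S1 → i ∉ P → ¬ deg G (v i) ≤ 3 → 2 ≤ x i ∧ 2 ≤ y i := by
    intro i h1 h2 hiP hi2
    have e1 : x i = if i ∈ H0 ∪ H1 then 2 else if i ∈ R0 ∪ R1 then deg G (v i) - 2 else x0 i :=
      (if_neg h1).trans (if_neg h2)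
    have e2 : y i = if i ∈ H0 ∪ H1 then deg G (v i) - 2 else if i ∈ R0 ∪ R1 then 2 else y0 i :=
      (if_neg h1).trans (if_neg h2)
    rw [e1, e2]
    have h4 := h2d i
    have h5 := hbig0 i hiP hi2
    split_ifs <;> omega
  have hnR' : ∀ i, deg G (v i) ≤ 3 → i ∉ R0 ∪ R1 := by
    intro i hi hh
    have := hRd i hh
    omega
  have hx2 : ∀ i, i ∉ R0 ∪ R1 → x i = x0 i ∧ y i = y0 i := by
    intro i hi
    have h1 : i ∉ S0 := fun hh => hi (hS0R i hh)
    have h2 : i ∉ S1 := fun hh => hi (hS1R i hh)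
    have h3 : i ∉ H0 ∪ H1 := by
      intro hh
      apply hi
      rcases Finset.mem_union.1 hh with h4 | h4
      · exact Finset.mem_union_left _ (Finset.mem_sdiff.1 (hH0 h4)).1
      · exact Finset.mem_union_right _ (Finset.mem_sdiff.1 (hH1 h4)).1
    exact ⟨(if_neg h1).trans ((if_neg h2).trans ((if_neg h3).trans (if_neg hi))),
      (if_neg h1).trans ((if_neg h2).trans ((if_neg h3).trans (if_neg hi)))⟩
  refine core_split04 h (P ∪ (S0 ∪ S1)) x y k1 ?_ ?_ ?_ k2 r GG ?_ ?_ ?_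
  · intro i hi
    rcases Finset.mem_union.1 hi with hiP | hiS
    · have h1 : i ∉ R0 ∪ R1 := fun hh => hRP i hh hiP
      rw [(hx2 i h1).1, (hx2 i h1).2]
      have h5 := hPs i hiP
      rcases hsw i with ⟨h6, h7⟩ | ⟨h6, h7⟩ <;> omega
    · exact (hxS i hiS).2
  · intro i hi hi2
    rw [Finset.mem_union, not_or, Finset.mem_union, not_or] at hi
    exact hxo i hi.2.1 hi.2.2 hi.1 hi2
  · intro i hi hi2
    rw [Finset.mem_union, not_or] at hi
    rw [(hx2 i (hnR' i hi2)).1, (hx2 i (hnR' i hi2)).2]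
    exact htwo0 i hi.1 hi2
  · -- rigid vertices
    intro i hi hi2 hi1 his
    rw [Finset.mem_union, not_or] at hi
    rw [rep_rigid r (i := (i : ℕ)) ⟨i.2, hi.1, hi2⟩ hi1]
  · -- special vertices
    intro i hi t ht hti
    by_cases hiS : i ∈ S0 ∪ S1
    · rw [(hxS i hiS).1]
      have hiR := hSR i hiS
      obtain ⟨g1, g2, _⟩ := hg i hiR
      have a1 : (pv i : ℕ) < i := g1
      have a2 : (i : ℕ) < nx i := g2
      have h5 := huu2 i
      have h6 := hwt1 i
      rcases hti with h1 | h1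
      · have e1 : rep r t = (i : ℕ) := hB i hiR t (by omega) (by omega)
        rw [e1, hmem i hiS _ (Or.inr rfl), h1]
        constructor
        · intro h7; omega
        · intro h7; omega
      · have e1 : rep r t = (pv i : ℕ) := hA i hiR t (by omega) (by omega)
        rw [e1, hmem i hiS _ (Or.inl rfl)]
        constructor
        · intro h7; omega
        · intro h7; omega
    · have hiP : i ∈ P := (Finset.mem_union.1 hi).resolve_right hiS
      have h1 : i ∉ R0 ∪ R1 := fun hh => hRP i hh hiP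
      have hwi : (if x0 i ≤ 1 then 0 else 1) = want i := rfl
      rw [(hx2 i h1).1, hwi]
      constructor
      · intro hgg
        by_contra hno
        rcases Finset.mem_union.1 hgg with h1 | h1
        · exact (Finset.disjoint_left.1 hG0bad) h1 (Finset.mem_image_of_mem _
            (Finset.mem_filter.2 ⟨Finset.mem_range.2 ht, i, hiP, hti, hno⟩))
        · obtain ⟨q, hq, e1⟩ := Finset.mem_image.1 h1
          obtain ⟨h3, h4⟩ := htouch q (hSR q hq) i hiP t hti
          rcases huu2 q with ⟨_, h5⟩ | ⟨_, h5⟩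
          · exact h4 (by rw [← e1, h5])
          · exact h3 (by rw [← e1, h5])
      · intro hw'
        exact Finset.mem_union_left _ (Finset.mem_image_of_mem _ (Finset.mem_filter.2
          ⟨Finset.mem_range.2 ht, i, hiP, hti, hw'⟩))
  · rw [hsumGG, k3, k4]
    rw [← hU, ← hzx, ← hzy]
    rcases hw2 with h1 | h1
    · rw [h1] at hj ⊢
      push_cast at hj ⊢
      omega
    · rw [h1] at hj ⊢
      push_cast at hj ⊢
      omega

end Pool.Agent.W_e8e3a0
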