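import Pool.Agent.W_e8e3a0.OrB49

/-! A special vertex of degree two next to a special vertex: its place is chosen by parity. -/

namespace Pool.Agent.W_e8e3a0

open Finset Num49

/-- a vertex of degree two away from `Ra`, or two of them beside an element of `Ra` -/
theorem two_far {s : ℕ} (d : Fin s → ℕ) (θ : ℕ) (Ra : Finset (Fin s))
    (hnr : ∀ i, i ∉ Ra → d i < θ → d i = 2)
    (hiso : ∀ i ∈ Ra, ∀ j ∈ Ra, i < j → ∃ k, i < k ∧ k < j ∧ θ ≤ d k)
    (hcount : 2 * Ra.card < (univ.filter (fun i => d i = 2)).card) :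
    (∃ z, d z = 2 ∧ ∀ q ∈ Ra, (z < q → ∃ k, z < k ∧ k < q ∧ θ ≤ d k) ∧
      (q < z → ∃ k, q < k ∧ k < z ∧ θ ≤ d k)) ∨
    (∃ q ∈ Ra, ∃ z1 z2 : Fin s, d z1 = 2 ∧ d z2 = 2 ∧
      (((z1 : ℕ) = q + 1 ∧ (z2 : ℕ) = q + 2) ∨ ((z1 : ℕ) + 1 = q ∧ (z2 : ℕ) + 2 = q))) := by
  classical
  by_contra hno
  rw [not_or] at hno
  obtain ⟨hno1, hno2⟩ := hno
  have hsub : univ.filter (fun i => d i = 2) ⊆ Ra.biUnion (fun q =>
      univ.filter (fun z : Fin s => (z : ℕ) + 1 = q ∨ (z : ℕ) = q + 1)) := by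
    intro z hz
    have hz2 := (Finset.mem_filter.1 hz).2
    by_contra hzn
    rw [Finset.mem_biUnion] at hzn
    push Not at hzn
    apply hno1
    refine ⟨z, hz2, fun q hq => ?_⟩
    have h0 := hzn q hq
    rw [Finset.mem_filter, not_and] at h0
    have h1 := h0 (Finset.mem_univ _)
    rw [not_or] at h1
    constructor
    · intro hzq
      by_contra hk
      push Not at hk
      have hzq' : (z : ℕ) < q := hzq
      have hall : ∀ k : Fin s, z < k → k < q → d k = 2 := by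
        intro k k1 k2
        refine hnr k (fun hkR => ?_) (hk k k1 k2)
        obtain ⟨k', c1, c2, c3⟩ := hiso k hkR q hq k2
        have := hk k' (k1.trans c1) c2
        omega
      apply hno2
      have hq2 := q.2
      refine ⟨q, hq, ⟨(q : ℕ) - 1, by omega⟩, ⟨(q : ℕ) - 2, by omega⟩, ?_, ?_, Or.inr
        ⟨by show (q : ℕ) - 1 + 1 = q; omega, by show (q : ℕ) - 2 + 2 = q; omega⟩⟩
      · refine hall _ ?_ ?_
        · show (z : ℕ) < (q : ℕ) - 1
          omega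
        · show (q : ℕ) - 1 < (q : ℕ)
          omega
      · by_cases h2 : (z : ℕ) = (q : ℕ) - 2
        · have h3 : (⟨(q : ℕ) - 2, by omega⟩ : Fin s) = z := Fin.ext h2.symm
          rw [h3]
          exact hz2
        · refine hall _ ?_ ?_
          · show (z : ℕ) < (q : ℕ) - 2
            omega
          · show (q : ℕ) - 2 < (q : ℕ)
            omega
    · intro hzq
      by_contra hk
      push Not at hk
      have hzq' : (q : ℕ) < z := hzq
      have hall : ∀ k : Fin s, q < k → k < z → d k = 2 := by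
        intro k k1 k2
        refine hnr k (fun hkR => ?_) (hk k k1 k2)
        obtain ⟨k', c1, c2, c3⟩ := hiso q hq k hkR k1
        have := hk k' c1 (c2.trans k2)
        omega
      apply hno2
      have hz3 := z.2
      refine ⟨q, hq, ⟨(q : ℕ) + 1, by omega⟩, ⟨(q : ℕ) + 2, by omega⟩, ?_, ?_, Or.inl
        ⟨rfl, rfl⟩⟩
      · refine hall _ ?_ ?_
        · show (q : ℕ) < (q : ℕ) + 1
          omega
        · show (q : ℕ) + 1 < (z : ℕ)
          omega
      · by_cases h2 : (z : ℕ) = (q : ℕ) + 2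
        · have h3 : (⟨(q : ℕ) + 2, by omega⟩ : Fin s) = z := Fin.ext h2.symm
          rw [h3]
          exact hz2
        · refine hall _ ?_ ?_
          · show (q : ℕ) < (q : ℕ) + 2
            omega
          · show (q : ℕ) + 2 < (z : ℕ)
            omega
  have h1 := (Finset.card_le_card hsub).trans Finset.card_biUnion_le
  have h2 : ∑ q ∈ Ra, (univ.filter (fun z : Fin s => (z : ℕ) + 1 = q ∨ (z : ℕ) = q + 1)).card ≤
      ∑ _q ∈ Ra, 2 := by
    refine Finset.sum_le_sum (fun q _ => ?_)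
    rw [← Finset.card_map Fin.valEmbedding]
    refine (Finset.card_le_card (t := {(q : ℕ) - 1, (q : ℕ) + 1}) ?_).trans Finset.card_le_two
    intro t ht
    rw [Finset.mem_map] at ht
    obtain ⟨z, hz, rfl⟩ := ht
    have := (Finset.mem_filter.1 hz).2
    show (z : ℕ) ∈ _
    rw [Finset.mem_insert, Finset.mem_singleton]
    omega
  rw [Finset.sum_const, smul_eq_mul] at h2
  omega

/-- oriented parts, the special vertices being moved within vertices of degree two -/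
def Oriented {s : ℕ} (d : Fin s → ℕ) (θ : ℕ) (U P : Finset (Fin s)) (a b : Fin s → ℕ)
    (z2 : Fin s) (P' : Finset (Fin s)) (x y : Fin s → ℕ) : Prop :=
  P'.card = P.card ∧ (∀ i ∈ P', i ∈ P ∨ i = z2) ∧ (∀ i, d i ≠ 2 → (i ∈ P' ↔ i ∈ P)) ∧
  (∀ i, x i + y i = d i) ∧ (∀ i ∈ P', x i ≠ 1 ∨ y i ≠ 1) ∧
  (∀ i, i ∉ P' → ∃ j, j ∉ P ∧ d j = d i ∧
    ((x i = a j ∧ y i = b j) ∨ (x i = b j ∧ y i = a j))) ∧
  (∀ k, 2 ≤ k → cx x U k = cx y U k) ∧
  (∀ i ∈ P', ∀ j ∈ P', i < j → (∃ k, i < k ∧ k < j ∧ θ ≤ d k) ∨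
    ((i : ℕ) % 2 = (if x i ≤ 1 then 0 else 1) ↔
      ((j : ℕ) - 1) % 2 = (if x j ≤ 1 then 0 else 1)))

theorem oriented_triv {s : ℕ} (d : Fin s → ℕ) (θ : ℕ) (U P : Finset (Fin s)) (a b : Fin s → ℕ)
    (hab : ∀ i, a i + b i = d i) (hPs : ∀ i ∈ P, a i ≠ 1 ∨ b i ≠ 1)
    (hpar : ∀ k, 2 ≤ k → (cx a U k + cx b U k) % 2 = 0) (z2 : Fin s)
    (hsep : ∀ i ∈ P, ∀ j ∈ P, i < j → ∃ k, i < k ∧ k < j ∧ θ ≤ d k) :
    ∃ P' x y, Oriented d θ U P a b z2 P' x y := by
  classical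
  obtain ⟨x0, y0, hsw, hb⟩ := orient U.card U a b rfl hpar
  refine ⟨P, x0, y0, rfl, fun i hi => Or.inl hi, fun i _ => Iff.rfl, fun i => ?_, fun i hi => ?_,
    fun i hi => ⟨i, hi, rfl, ?_⟩, hb, fun i hi j hj hij => Or.inl (hsep i hi j hj hij)⟩
  · have h1 := hab i
    rcases hsw i with ⟨h2, h3⟩ | ⟨h2, h3⟩ <;> omega
  · have h1 := hPs i hi
    rcases hsw i with ⟨h2, h3⟩ | ⟨h2, h3⟩ <;> omega
  · rcases hsw i with ⟨h2, h3⟩ | ⟨h2, h3⟩
    · exact Or.inl ⟨h2, h3⟩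
    · exact Or.inr ⟨h2, h3⟩

theorem oriented_cfg {s : ℕ} (d : Fin s → ℕ) (θ : ℕ) (U P : Finset (Fin s)) (a b : Fin s → ℕ)
    (hab : ∀ i, a i + b i = d i) (hPs : ∀ i ∈ P, a i ≠ 1 ∨ b i ≠ 1)
    (hpar : ∀ k, 2 ≤ k → (cx a U k + cx b U k) % 2 = 0) (q z1 z2 : Fin s)
    (hz1U : z1 ∈ U) (hz2U : z2 ∈ U) (hz1 : d z1 = 2) (hz2 : d z2 = 2)
    (hz1P : z1 ∈ P) (hz2P : z2 ∉ P)
    (hadj : ((z1 : ℕ) = q + 1 ∧ (z2 : ℕ) = q + 2) ∨ ((z1 : ℕ) + 1 = q ∧ (z2 : ℕ) + 2 = q))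
    (hsep : ∀ i ∈ P, ∀ j ∈ P, i < j → (i = q ∧ j = z1) ∨ (i = z1 ∧ j = q) ∨
      ∃ k, i < k ∧ k < j ∧ θ ≤ d k)
    (hsep2 : ∀ i ∈ P, i ≠ q → i ≠ z1 → (i < z2 → ∃ k, i < k ∧ k < z2 ∧ θ ≤ d k) ∧
      (z2 < i → ∃ k, z2 < k ∧ k < i ∧ θ ≤ d k)) :
    ∃ P' x y, Oriented d θ U P a b z2 P' x y := by
  classical
  obtain ⟨x0, y0, hsw, hb⟩ := orient U.card U a b rfl hpar
  have hxy : ∀ i, x0 i + y0 i = d i := by
    intro i
    have h1 := hab i
    rcases hsw i with ⟨h2, h3⟩ | ⟨h2, h3⟩ <;> omega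
  have hsp : ∀ i ∈ P, x0 i ≠ 1 ∨ y0 i ≠ 1 := by
    intro i hi
    have h1 := hPs i hi
    rcases hsw i with ⟨h2, h3⟩ | ⟨h2, h3⟩ <;> omega
  have hsw' : ∀ i, (x0 i = a i ∧ y0 i = b i) ∨ (x0 i = b i ∧ y0 i = a i) := by
    intro i
    rcases hsw i with ⟨h2, h3⟩ | ⟨h2, h3⟩
    · exact Or.inl ⟨h2, h3⟩
    · exact Or.inr ⟨h2, h3⟩
  set W : Fin s → ℕ := fun i => if x0 i ≤ 1 then 0 else 1 with hW
  have hW2 : ∀ i, W i = 0 ∨ W i = 1 := by
    intro i; rw [hW]; dsimp only; split_ifs <;> simp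
  by_cases hw : W q = W z1
  · -- nothing to be moved
    refine ⟨P, x0, y0, rfl, fun i hi => Or.inl hi, fun i _ => Iff.rfl, hxy, hsp,
      fun i hi => ⟨i, hi, rfl, hsw' i⟩, hb, fun i hi j hj hij => ?_⟩
    have hij' : (i : ℕ) < j := hij
    rcases hsep i hi j hj hij with ⟨h1, h2⟩ | ⟨h1, h2⟩ | h1
    · right
      show (i : ℕ) % 2 = W i ↔ ((j : ℕ) - 1) % 2 = W j
      rw [h1, h2, hw]
      rw [h1, h2] at hij'
      have h3 : (z1 : ℕ) - 1 = q := by omega
      rw [h3]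
    · right
      show (i : ℕ) % 2 = W i ↔ ((j : ℕ) - 1) % 2 = W j
      rw [h1, h2, hw]
      rw [h1, h2] at hij'
      have h3 : (q : ℕ) - 1 = z1 := by omega
      rw [h3]
    · exact Or.inl h1
  · -- exchange `z1` and `z2`
    have hz12 : z1 ≠ z2 := fun hh => hz2P (hh ▸ hz1P)
    set σ := Equiv.swap z1 z2 with hσ
    have hσ1 : σ z1 = z2 := Equiv.swap_apply_left _ _
    have hσ2 : σ z2 = z1 := Equiv.swap_apply_right _ _
    have hσo : ∀ i, i ≠ z1 → i ≠ z2 → σ i = i := fun i h1 h2 => Equiv.swap_apply_of_ne_of_ne h1 h2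
    have hσd : ∀ i, d (σ i) = d i := by
      intro i
      by_cases h1 : i = z1
      · rw [h1, hσ1, hz1, hz2]
      · by_cases h2 : i = z2
        · rw [h2, hσ2, hz1, hz2]
        · rw [hσo i h1 h2]
    have hσσ : ∀ i, σ (σ i) = i := by
      intro i
      by_cases h1 : i = z1
      · rw [h1, hσ1, hσ2]
      · by_cases h2 : i = z2
        · rw [h2, hσ2, hσ1]
        · rw [hσo i h1 h2, hσo i h1 h2]
    have hσU : ∀ i, i ∈ U → σ i ∈ U := by
      intro i hi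
      by_cases h1 : i = z1
      · rw [h1, hσ1]; exact hz2U
      · by_cases h2 : i = z2
        · rw [h2, hσ2]; exact hz1U
        · rw [hσo i h1 h2]; exact hi
    have hcx : ∀ (z : Fin s → ℕ) k, cx (fun i => z (σ i)) U k = cx z U k := by
      intro z k
      unfold cx
      exact Finset.sum_nbij' (fun i => σ i) (fun i => σ i) hσU hσU (fun i _ => hσσ i)
        (fun i _ => hσσ i) (fun i _ => rfl)
    have hP'm : ∀ i, i ∈ P.image σ ↔ σ i ∈ P := by
      intro i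
      rw [Finset.mem_image]
      constructor
      · rintro ⟨j, hj, rfl⟩
        rw [hσσ]; exact hj
      · intro hi
        exact ⟨σ i, hi, hσσ i⟩
    have hz1P' : z1 ∉ P.image σ := by
      rw [hP'm, hσ1]; exact hz2P
    have hcase : ∀ i ∈ P.image σ, i = z2 ∨ (i ∈ P ∧ i ≠ z1 ∧ i ≠ z2) := by
      intro i hi
      have h0 : i ≠ z1 := fun hh => hz1P' (hh ▸ hi)
      by_cases h1 : i = z2
      · exact Or.inl h1
      · right
        have h2 := (hP'm i).1 hi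
        rw [hσo i h0 h1] at h2
        exact ⟨h2, h0, h1⟩
    refine ⟨P.image σ, fun i => x0 (σ i), fun i => y0 (σ i),
      Finset.card_image_of_injective _ σ.injective, fun i hi => ?_, fun i hi => ?_, fun i => ?_,
      fun i hi => hsp _ ((hP'm i).1 hi), fun i hi => ⟨σ i, fun hh => hi ((hP'm i).2 hh), hσd i,
      hsw' _⟩, fun k hk => ?_, fun i hi j hj hij => ?_⟩
    · rcases hcase i hi with h1 | h1
      · exact Or.inr h1
      · exact Or.inl h1.1
    · rw [hP'm, hσo i (fun hh => hi (hh ▸ hz1)) (fun hh => hi (hh ▸ hz2))]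
    · rw [hxy (σ i), hσd i]
    · rw [hcx, hcx]; exact hb k hk
    · have hij' : (i : ℕ) < j := hij
      rcases hcase i hi with h1 | ⟨h1, h1', h1''⟩ <;> rcases hcase j hj with h2 | ⟨h2, h2', h2''⟩
      · rw [h1, h2] at hij
        exact absurd hij (lt_irrefl _)
      · -- `i = z2`
        by_cases hq : j = q
        · right
          show (i : ℕ) % 2 = W (σ i) ↔ ((j : ℕ) - 1) % 2 = W (σ j)
          rw [hσo j h2' h2'', h1, hσ2, hq]
          rw [h1, hq] at hij'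
          have h4 := hW2 q
          have h5 := hW2 z1
          omega
        · left
          rw [h1]
          exact (hsep2 j h2 hq h2').2 (by rw [← h1]; exact hij)
      · by_cases hq : i = q
        · right
          show (i : ℕ) % 2 = W (σ i) ↔ ((j : ℕ) - 1) % 2 = W (σ j)
          rw [hσo i h1' h1'', h2, hσ2, hq]
          rw [h2, hq] at hij'
          have h4 := hW2 q
          have h5 := hW2 z1
          omega
        · left
          rw [h2]
          exact (hsep2 i h1 hq h1').1 (by rw [← h2]; exact hij)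
      · rcases hsep i h1 j h2 hij with ⟨_, h4⟩ | ⟨h4, _⟩ | h4
        · exact absurd h4 h2'
        · exact absurd h4 h1'
        · exact Or.inl h4

end Pool.Agent.W_e8e3a0
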