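import Pool.Agent.W_e8e3a0.OrC49

/-! Placement of arcs, one of them possibly of label two, away from isolated vertices. -/

namespace Pool.Agent.W_e8e3a0

open Finset Num49

/-- placement of arcs, the arc of label two possibly beside a given vertex -/
theorem place_two {s : ℕ} (d e : Fin s → ℕ) (θ : ℕ) (hθ : 3 ≤ θ) (i0 : Fin s)
    (he : ∀ k, 3 ≤ e k → θ ≤ d k) (Ra : Finset (Fin s)) (hRa2 : ∀ i ∈ Ra, d i ≠ 2)
    (hnr : ∀ i, i ∉ Ra → d i < θ → d i = 2)
    (hiso : ∀ i ∈ Ra, ∀ j ∈ Ra, i < j → ∃ k, i < k ∧ k < j ∧ θ ≤ d k)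
    (hcount : 2 * Ra.card < (univ.filter (fun i => d i = 2)).card)
    (A : Finset (ℕ × ℕ)) (hA3 : ∀ a ∈ A, a.1 ≠ 2 → 3 ≤ a.1 ∧ ∀ i, e i = a.1 ↔ d i = a.1)
    (hA22 : ∀ a ∈ A, ∀ b ∈ A, a.1 = 2 → b.1 = 2 → a = b)
    (hcnt : ∀ a ∈ A, a.1 ≠ 2 →
      3 * (A.card + (Ra.card + 2)) ≤ (univ.filter (fun i => d i = a.1)).card) :
    ∃ (p : ℕ × ℕ → Fin s) (q z1 z2 : Fin s), (∀ a ∈ A, d (p a) = a.1) ∧
      (∀ a ∈ A, ∀ b ∈ A, a ≠ b → (p a : ℕ) + 1 < p b ∨ (p b : ℕ) + 1 < p a) ∧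
      d z1 = 2 ∧ d z2 = 2 ∧
      ((∀ i ∈ A.image p ∪ Ra, ∀ j ∈ A.image p ∪ Ra, i < j → ∃ k, i < k ∧ k < j ∧ θ ≤ d k) ∨
        (z1 ∈ A.image p ∪ Ra ∧ z2 ∉ A.image p ∪ Ra ∧
          (((z1 : ℕ) = q + 1 ∧ (z2 : ℕ) = q + 2) ∨ ((z1 : ℕ) + 1 = q ∧ (z2 : ℕ) + 2 = q)) ∧
          (∀ i ∈ A.image p ∪ Ra, ∀ j ∈ A.image p ∪ Ra, i < j → (i = q ∧ j = z1) ∨
            (i = z1 ∧ j = q) ∨ ∃ k, i < k ∧ k < j ∧ θ ≤ d k) ∧
          (∀ i ∈ A.image p ∪ Ra, i ≠ q → i ≠ z1 → (i < z2 → ∃ k, i < k ∧ k < z2 ∧ θ ≤ d k) ∧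
            (z2 < i → ∃ k, z2 < k ∧ k < i ∧ θ ≤ d k)))) := by
  classical
  obtain ⟨q, z1, z2, hz1, hz2, hcase⟩ : ∃ q z1 z2 : Fin s, d z1 = 2 ∧ d z2 = 2 ∧
      ((∀ q ∈ Ra, (z1 < q → ∃ k, z1 < k ∧ k < q ∧ θ ≤ d k) ∧
        (q < z1 → ∃ k, q < k ∧ k < z1 ∧ θ ≤ d k)) ∨
      (q ∈ Ra ∧
        (((z1 : ℕ) = q + 1 ∧ (z2 : ℕ) = q + 2) ∨ ((z1 : ℕ) + 1 = q ∧ (z2 : ℕ) + 2 = q)))) := by
    rcases two_far d θ Ra hnr hiso hcount with ⟨z, h1, h2⟩ | ⟨q, hq, z1, z2, h1, h2, h3⟩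
    · exact ⟨z, z, z, h1, h1, Or.inl h2⟩
    · exact ⟨q, z1, z2, h1, h2, Or.inr ⟨hq, h3⟩⟩
  set Av : Finset (Fin s) := insert z1 (insert z2 Ra) with hAv
  have hAvc : Av.card ≤ Ra.card + 2 := by
    have h1 := Finset.card_insert_le z1 (insert z2 Ra)
    have h2 := Finset.card_insert_le z2 Ra
    rw [hAv]
    omega
  have mz1 : z1 ∈ Av := Finset.mem_insert_self _ _
  have mz2 : z2 ∈ Av := Finset.mem_insert_of_mem (Finset.mem_insert_self _ _)
  have mR : ∀ i ∈ Ra, i ∈ Av := fun i hi =>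
    Finset.mem_insert_of_mem (Finset.mem_insert_of_mem hi)
  set A' := A.filter (fun a => ¬ a.1 = 2) with hA'
  have hA'c : A'.card ≤ A.card := Finset.card_filter_le _ _
  have hA'm : ∀ a ∈ A', a ∈ A ∧ a.1 ≠ 2 := fun a ha => Finset.mem_filter.1 ha
  obtain ⟨p', hp1', hpn', hps'⟩ := place_avoid e i0 Av A'
    (fun a ha => (hA3 a (hA'm a ha).1 (hA'm a ha).2).1)
    (fun a ha => by
      have h1 := hcnt a (hA'm a ha).1 (hA'm a ha).2
      rw [Finset.filter_congr (fun i _ => (hA3 a (hA'm a ha).1 (hA'm a ha).2).2 i)]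
      omega)
  have hnu : ∀ i j : Fin s, (nu e i + 2 ≤ nu e j ∨ nu e j + 2 ≤ nu e i) →
      i < j → ∃ k : Fin s, i < k ∧ k < j ∧ θ ≤ d k := by
    intro i j h1 hij
    rcases h1 with h1 | h1
    · obtain ⟨k, k1, k2, k3⟩ := nu_between e h1
      exact ⟨k, k1, k2, he k k3⟩
    · obtain ⟨k, k1, k2, _⟩ := nu_between e h1
      exact absurd (k1.trans k2) (not_lt.2 hij.le)
  have hnupos : ∀ i j : Fin s, (nu e i + 2 ≤ nu e j ∨ nu e j + 2 ≤ nu e i) →
      (i : ℕ) + 1 < j ∨ (j : ℕ) + 1 < i := by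
    intro i j h1
    rcases h1 with h1 | h1
    · obtain ⟨k, k1, k2, _⟩ := nu_between e h1
      have k1' : (i : ℕ) < k := k1
      have k2' : (k : ℕ) < j := k2
      omega
    · obtain ⟨k, k1, k2, _⟩ := nu_between e h1
      have k1' : (j : ℕ) < k := k1
      have k2' : (k : ℕ) < i := k2
      omega
  set p : ℕ × ℕ → Fin s := fun a => if a.1 = 2 then z1 else p' a with hp
  have hpA' : ∀ a, a.1 ≠ 2 → p a = p' a := fun a ha => if_neg ha
  have hp2 : ∀ a, a.1 = 2 → p a = z1 := fun a ha => if_pos ha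
  have hmA' : ∀ a ∈ A, a.1 ≠ 2 → a ∈ A' := fun a ha h => Finset.mem_filter.2 ⟨ha, h⟩
  -- the elements of `P`
  have hcl : ∀ i ∈ A.image p ∪ Ra, (∃ a ∈ A', i = p' a) ∨ i ∈ Ra ∨
      (i = z1 ∧ ∃ a ∈ A, a.1 = 2) := by
    intro i hi
    rcases Finset.mem_union.1 hi with h1 | h1
    · obtain ⟨a, ha, rfl⟩ := Finset.mem_image.1 h1
      by_cases ha2 : a.1 = 2
      · exact Or.inr (Or.inr ⟨hp2 a ha2, a, ha, ha2⟩)
      · exact Or.inl ⟨a, hmA' a ha ha2, hpA' a ha2⟩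
    · exact Or.inr (Or.inl h1)
  -- pairs of elements of `P`, at least one of them in the image of `A'`, or both in `Ra`
  have hpair : ∀ i ∈ A.image p ∪ Ra, ∀ j ∈ A.image p ∪ Ra, i < j →
      (∃ k, i < k ∧ k < j ∧ θ ≤ d k) ∨ ((∃ a ∈ A, a.1 = 2) ∧
        ((i = z1 ∧ j ∈ Ra) ∨ (i ∈ Ra ∧ j = z1))) := by
    intro i hi j hj hij
    rcases hcl i hi with ⟨a, ha, rfl⟩ | hiR | ⟨rfl, hex⟩
    · left
      rcases hcl j hj with ⟨b, hb, rfl⟩ | hjR | ⟨rfl, _⟩
      · exact hnu _ _ (hpn' a ha b hb (fun hh => absurd hij (by rw [hh]; exact lt_irrefl _))) hij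
      · exact hnu _ _ (hps' a ha j (mR j hjR)) hij
      · exact hnu _ _ (hps' a ha _ mz1) hij
    · rcases hcl j hj with ⟨b, hb, rfl⟩ | hjR | ⟨rfl, hex⟩
      · exact Or.inl (hnu _ _ (hps' b hb i (mR i hiR)).symm hij)
      · exact Or.inl (hiso i hiR j hjR hij)
      · exact Or.inr ⟨hex, Or.inr ⟨hiR, rfl⟩⟩
    · rcases hcl j hj with ⟨b, hb, rfl⟩ | hjR | ⟨rfl, _⟩
      · exact Or.inl (hnu _ _ (hps' b hb _ mz1).symm hij)
      · exact Or.inr ⟨hex, Or.inl ⟨rfl, hjR⟩⟩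
      · exact absurd hij (lt_irrefl _)
  refine ⟨p, q, z1, z2, fun a ha => ?_, fun a ha b hb hab => ?_, hz1, hz2, ?_⟩
  · by_cases ha2 : a.1 = 2
    · rw [hp2 a ha2, hz1, ha2]
    · rw [hpA' a ha2]
      exact ((hA3 a ha ha2).2 _).1 (hp1' a (hmA' a ha ha2))
  · by_cases ha2 : a.1 = 2
    · by_cases hb2 : b.1 = 2
      · exact absurd (hA22 a ha b hb ha2 hb2) hab
      · rw [hp2 a ha2, hpA' b hb2]
        exact hnupos _ _ (hps' b (hmA' b hb hb2) _ mz1).symm
    · by_cases hb2 : b.1 = 2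
      · rw [hp2 b hb2, hpA' a ha2]
        exact hnupos _ _ (hps' a (hmA' a ha ha2) _ mz1)
      · rw [hpA' a ha2, hpA' b hb2]
        exact hnupos _ _ (hpn' a (hmA' a ha ha2) b (hmA' b hb hb2) hab)
  · by_cases hex : ∃ a ∈ A, a.1 = 2
    · rcases hcase with hI | ⟨hqR, hadj⟩
      · left
        intro i hi j hj hij
        rcases hpair i hi j hj hij with h1 | ⟨_, ⟨h1, h2⟩ | ⟨h1, h2⟩⟩
        · exact h1
        · rw [h1]
          exact (hI j h2).1 (by rw [← h1]; exact hij)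
        · rw [h2]
          exact (hI i h1).2 (by rw [← h2]; exact hij)
      · right
        obtain ⟨a2, ha2, ha22⟩ := hex
        have hz1P : z1 ∈ A.image p ∪ Ra := Finset.mem_union_left _
          (Finset.mem_image.2 ⟨a2, ha2, hp2 a2 ha22⟩)
        have hz12 : (z1 : ℕ) ≠ z2 := by omega
        have hz2P : z2 ∉ A.image p ∪ Ra := by
          intro hh
          rcases hcl z2 hh with ⟨a, ha, h1⟩ | h1 | ⟨h1, _⟩
          · have h3 := hps' a ha z2 mz2
            rw [← h1] at h3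
            omega
          · exact hRa2 _ h1 hz2
          · exact hz12 (by rw [h1])
        -- other elements of `Ra` are far
        have hoth : ∀ q' ∈ Ra, q' ≠ q → ∀ z : Fin s, (z = z1 ∨ z = z2) →
            (q' < z → ∃ k, q' < k ∧ k < z ∧ θ ≤ d k) ∧
            (z < q' → ∃ k, z < k ∧ k < q' ∧ θ ≤ d k) := by
          intro q' hq' hne z hz
          have hne' : (q' : ℕ) ≠ q := fun hh => hne (Fin.ext hh)
          have hn1 : (q' : ℕ) ≠ z1 := fun hh => hRa2 q' hq' (by rw [Fin.ext hh]; exact hz1)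
          have hn2 : (q' : ℕ) ≠ z2 := fun hh => hRa2 q' hq' (by rw [Fin.ext hh]; exact hz2)
          have hzz : (z : ℕ) = z1 ∨ (z : ℕ) = z2 := by
            rcases hz with h | h
            · exact Or.inl (by rw [h])
            · exact Or.inr (by rw [h])
          have hkk : ∀ k : Fin s, θ ≤ d k → (k : ℕ) ≠ z1 ∧ (k : ℕ) ≠ z2 := by
            intro k hk
            constructor
            · intro hh
              rw [Fin.ext hh, hz1] at hk
              omega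
            · intro hh
              rw [Fin.ext hh, hz2] at hk
              omega
          constructor
          · intro hlt
            have hlt' : (q' : ℕ) < z := hlt
            have h1 : q' < q := by
              show (q' : ℕ) < q
              omega
            obtain ⟨k, c1, c2, c3⟩ := hiso q' hq' q hqR h1
            have c1' : (q' : ℕ) < k := c1
            have c2' : (k : ℕ) < q := c2
            obtain ⟨c4, c5⟩ := hkk k c3
            refine ⟨k, c1, ?_, c3⟩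
            show (k : ℕ) < z
            omega
          · intro hlt
            have hlt' : (z : ℕ) < q' := hlt
            have h1 : q < q' := by
              show (q : ℕ) < q'
              omega
            obtain ⟨k, c1, c2, c3⟩ := hiso q hqR q' hq' h1
            have c1' : (q : ℕ) < k := c1
            have c2' : (k : ℕ) < q' := c2
            obtain ⟨c4, c5⟩ := hkk k c3
            refine ⟨k, ?_, c2, c3⟩
            show (z : ℕ) < k
            omega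
        refine ⟨hz1P, hz2P, hadj, fun i hi j hj hij => ?_, fun i hi hiq hi1 => ?_⟩
        · rcases hpair i hi j hj hij with h1 | ⟨_, ⟨h1, h2⟩ | ⟨h1, h2⟩⟩
          · exact Or.inr (Or.inr h1)
          · by_cases hjq : j = q
            · exact Or.inr (Or.inl ⟨h1, hjq⟩)
            · right; right
              rw [h1]
              exact (hoth j h2 hjq z1 (Or.inl rfl)).2 (by rw [← h1]; exact hij)
          · by_cases hiq : i = q
            · exact Or.inl ⟨hiq, h2⟩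
            · right; right
              rw [h2]
              exact (hoth i h1 hiq z1 (Or.inl rfl)).1 (by rw [← h2]; exact hij)
        · rcases hcl i hi with ⟨a, ha, rfl⟩ | hiR | ⟨h1, _⟩
          · exact ⟨fun hlt => hnu _ _ (hps' a ha _ mz2) hlt,
              fun hlt => hnu _ _ (hps' a ha _ mz2).symm hlt⟩
          · exact hoth i hiR hiq z2 (Or.inr rfl)
          · exact absurd h1 hi1
    · left
      intro i hi j hj hij
      rcases hpair i hi j hj hij with h1 | ⟨h1, _⟩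
      · exact h1
      · exact absurd h1 hex

end Pool.Agent.W_e8e3a0
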