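import Pool.Agent.W_e8e3a0.OrD49

/-! Exact answer for isolated rare spine degrees when two and three are frequent. -/

namespace Pool.Agent.W_e8e3a0

open Finset Num49

/-- the arcs of the dual condition -/
theorem arcs_setup {s : ℕ} (d : Fin s → ℕ) (F : Finset ℕ) (M : ℕ) (hM1 : 1 ≤ M)
    (hFM : ∀ e ∈ F, e ≤ M) (u : Fin s → ℕ) (Ra : Finset (Fin s)) (hRam : ∀ i, i ∈ Ra ↔ d i ∉ F)
    (hdual : ∀ f : ℕ → ZMod 2, f 0 = 0 → f 1 = 0 →
      (∀ e ∈ F, ∀ k, k ≤ e → f k + f (e - k) = f e) →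
      ∑ i, (if d i ∈ F then f (d i) else f (u i) + f (d i - u i)) = 0) :
    ∃ A : Finset (ℕ × ℕ), A.card ≤ 2 * (M + 1) ∧ (∀ a ∈ A, a.1 ∈ F ∧ a.2 ≤ a.1) ∧
      (∀ e, e ≠ 2 → ∑ a ∈ A, (if a.1 = e then (1 : ZMod 2) else 0) =
        ∑ i ∈ univ \ Ra, (if d i = e then (1 : ZMod 2) else 0)) ∧
      (∀ k, 2 ≤ k → ∑ a ∈ A, ((if a.2 = k then (1 : ZMod 2) else 0) +
          (if a.1 - a.2 = k then (1 : ZMod 2) else 0)) =
        ∑ i ∈ Ra, ((if u i = k then (1 : ZMod 2) else 0) +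
          (if d i - u i = k then (1 : ZMod 2) else 0))) ∧
      (2, 1) ∉ A ∧ (∀ a ∈ A, ∀ b ∈ A, a.1 = 2 → b.1 = 2 → a = b) := by
  classical
  have hdF : ∀ i ∈ univ \ Ra, d i ∈ F := by
    intro i hi
    by_contra hh
    exact (Finset.mem_sdiff.1 hi).2 ((hRam i).2 hh)
  obtain ⟨hcv, huM⟩ := dual_conv d F M hM1 hFM u Ra hRam hdual
  obtain ⟨A, hAc, hA1, hA2', hA3', hA21, hA22⟩ := arcs_two_rhs F
    (fun e => ∑ i ∈ univ \ Ra, (if d i = e then (1 : ZMod 2) else 0))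
    (fun k => ∑ i ∈ Ra, ((if u i = k then (1 : ZMod 2) else 0) +
        (if d i - u i = k then (1 : ZMod 2) else 0))) M hFM hcv
  refine ⟨A, hAc, hA1, fun e he2 => ?_, fun k hk => ?_, hA21, hA22⟩
  · by_cases he : e ∈ F
    · exact hA2' e he he2
    · rw [Finset.sum_eq_zero, Finset.sum_eq_zero]
      · intro i hi
        exact if_neg (fun hh => he (by rw [← hh]; exact hdF i hi))
      · intro a ha
        exact if_neg (fun hh : a.1 = e => he (by rw [← hh]; exact (hA1 a ha).1))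
  · by_cases hkM : k ≤ M
    · exact hA3' k hk hkM
    · rw [huM k (by omega), Finset.sum_eq_zero]
      intro a ha
      obtain ⟨h1, h2⟩ := hA1 a ha
      have := hFM _ h1
      rw [if_neg (by omega), if_neg (by omega), add_zero]

variable {V : Type} [Fintype V]

theorem rare_two3 {G : SimpleGraph V} {s : ℕ} {v : Fin s → V} (h : IsSpine G v) (hs : 0 < s)
    (hev : Even G.edgeSet.ncard) (M m : ℕ) (F : Finset ℕ) (h2F : 2 ∈ F) (h3F : 3 ∈ F)
    (hF2 : ∀ e ∈ F, 2 ≤ e) (hFM : ∀ e ∈ F, e ≤ M) (Ra : Finset (Fin s))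
    (hRam : ∀ i, i ∈ Ra ↔ deg G (v i) ∉ F) (hm : 100 * (M + 1 + Ra.card) ≤ m)
    (hr : ∀ e ∈ F, m ≤ (univ.filter (fun j => deg G (v j) = e)).card)
    (hiso : ∀ i ∈ Ra, ∀ j ∈ Ra, i < j → ∃ k, i < k ∧ k < j ∧ 3 ≤ deg G (v k))
    (u : Fin s → ℕ) (hule : ∀ i, u i ≤ deg G (v i))
    (hdual : ∀ f : ℕ → ZMod 2, f 0 = 0 → f 1 = 0 →
      (∀ e ∈ F, ∀ k, k ≤ e → f k + f (e - k) = f e) →
      ∑ i, (if deg G (v i) ∈ F then f (deg G (v i)) else f (u i) + f (deg G (v i) - u i)) = 0) :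
    Splittable G := by
  classical
  set d : Fin s → ℕ := fun i => deg G (v i) with hd
  have h2d : ∀ i, 2 ≤ d i := h.two
  have hM3 : 3 ≤ M := hFM 3 h3F
  obtain ⟨A, hAc, hA1, hA2, hA3, hA21, hA22⟩ :=
    arcs_setup d F M (by omega) hFM u Ra hRam hdual
  have hRa2 : ∀ i ∈ Ra, d i ≠ 2 := fun i hi hh => (hRam i).1 hi (by
    show d i ∈ F
    rw [hh]; exact h2F)
  have hRa3 : ∀ i ∈ Ra, d i ≠ 3 := fun i hi hh => (hRam i).1 hi (by
    show d i ∈ F
    rw [hh]; exact h3F)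
  have hr2 := hr 2 h2F
  have hr3 := hr 3 h3F
  obtain ⟨p, q, z1, z2, hp1, hp2, hz1, hz2, hcfg⟩ := place_two d d 3 le_rfl ⟨0, hs⟩
    (fun k hk => hk) Ra hRa2 (fun i _ h3 => by have := h2d i; omega) hiso
    (lt_of_lt_of_le (by omega) hr2) A
    (fun a ha ha2 => ⟨by have := hF2 _ (hA1 a ha).1; omega, fun i => Iff.rfl⟩) hA22
    (fun a ha _ => le_trans (by omega) (hr _ (hA1 a ha).1))
  have hpR : ∀ a ∈ A, p a ∉ Ra := by
    intro a ha hh
    exact (hRam _).1 hh (by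
      show d (p a) ∈ F
      rw [hp1 a ha]; exact (hA1 a ha).1)
  obtain ⟨hQ2, a, b, hab, hpar, hn, hSpu, haA⟩ := mixed_parts6 d h2d Ra Ra
    (Finset.Subset.refl _) u (fun i hi => ⟨hule i, hRa3 i hi, fun hh => absurd hi hh⟩) A
    (fun a ha => (hA1 a ha).2) hA2 hA3 p hp1 hpR hp2
  set P := A.image p ∪ Ra with hP
  have hPc : P.card ≤ 2 * (M + 1) + Ra.card := by
    have h1 := Finset.card_union_le (A.image p) Ra
    have h2 := Finset.card_image_le (s := A) (f := p)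
    rw [hP]
    omega
  have hPs : ∀ i ∈ P, a i ≠ 1 ∨ b i ≠ 1 := by
    intro i hi
    by_contra hno
    push Not at hno
    have e3 := hab i
    rcases Finset.mem_union.1 hi with hi' | hi'
    · obtain ⟨c, hc, rfl⟩ := Finset.mem_image.1 hi'
      have e1 := haA c hc
      have e2 := hp1 c hc
      have e4 : c = (2, 1) := Prod.ext (by show c.1 = 2; omega) (by show c.2 = 1; omega)
      exact hA21 (e4 ▸ hc)
    · have e1 := hRa2 i hi'
      omega
  set Q : Finset (Fin s) := univ.filter (fun i => i ∉ P ∧ d i = 3) with hQ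
  have hQm : ∀ i, i ∈ Q ↔ i ∉ P ∧ d i = 3 := by intro i; rw [hQ]; simp
  have hQe : Q = univ.filter (fun i => i ∉ A.image p ∧ d i = 3) := by
    refine Finset.filter_congr (fun i _ => ?_)
    rw [hP, Finset.mem_union, not_or]
    constructor
    · rintro ⟨h1, h2⟩
      exact ⟨h1.1, h2⟩
    · rintro ⟨h1, h2⟩
      exact ⟨⟨h1, fun hh => hRa3 i hh h2⟩, h2⟩
  have hQ2' : Q.card % 2 = 0 := by rw [hQe]; exact hQ2
  have hQle : (univ.filter (fun j => d j = 3)).card ≤ Q.card + P.card := by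
    rw [← Finset.card_union_of_disjoint]
    · refine Finset.card_le_card (fun j hj => ?_)
      rw [Finset.mem_union]
      by_cases hjP : j ∈ P
      · exact Or.inr hjP
      · exact Or.inl ((hQm j).2 ⟨hjP, (Finset.mem_filter.1 hj).2⟩)
    · rw [Finset.disjoint_left]
      intro j hj hj2
      exact ((hQm j).1 hj).1 hj2
  have hnP : ∀ i, i ∉ P → i ∉ A.image p ∧ i ∉ Ra := by
    intro i hi
    rw [hP, Finset.mem_union, not_or] at hi
    exact hi
  set U := univ \ Q with hU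
  have hUQ : ∀ (z : Fin s → ℕ) k, cx z univ k = cx z U k + cx z Q k := by
    intro z k
    unfold cx
    exact (Finset.sum_sdiff (Finset.subset_univ Q)).symm
  have haQ : ∀ i ∈ Q, a i = 1 ∧ b i = 2 := fun i hi =>
    (hn i (hnP i ((hQm i).1 hi).1).1 (hnP i ((hQm i).1 hi).1).2).2.1 ((hQm i).1 hi).2
  have hparU : ∀ k, 2 ≤ k → (cx a U k + cx b U k) % 2 = 0 := by
    intro k hk
    have h1 := hpar k hk
    rw [hUQ a, hUQ b] at h1
    have h2 := cx_two (Finset.Subset.refl Q) 1 0 k a (fun i hi => (haQ i hi).1)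
      (fun i hi => by simp at hi)
    have h3' := cx_two (Finset.Subset.refl Q) 2 0 k b (fun i hi => (haQ i hi).2)
      (fun i hi => by simp at hi)
    rw [Finset.sdiff_self, Finset.card_empty] at h2 h3'
    rw [if_neg (by omega : ¬ 1 = k)] at h2
    split_ifs at h2 h3' <;> omega
  have hzU : ∀ z, d z = 2 → z ∈ U := by
    intro z hz
    refine Finset.mem_sdiff.2 ⟨Finset.mem_univ _, fun hh => ?_⟩
    have := ((hQm z).1 hh).2
    omega
  obtain ⟨P', x, y, o1, o2, o3, o4, o5, o6, o7, o8⟩ : ∃ P' x y,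
      Oriented d 3 U P a b z2 P' x y := by
    rcases hcfg with hsep | ⟨c1, c2, c3, c4, c5⟩
    · exact oriented_triv d 3 U P a b hab hPs hparU z2 hsep
    · exact oriented_cfg d 3 U P a b hab hPs hparU q z1 z2 (hzU z1 hz1) (hzU z2 hz2) hz1 hz2
        c1 c2 c3 c4 c5
  have hQm' : ∀ i, i ∈ Q ↔ i ∉ P' ∧ deg G (v i) = 3 := by
    intro i
    rw [hQm i]
    constructor
    · rintro ⟨h1, h2⟩
      exact ⟨fun hh => h1 ((o3 i (by omega)).1 hh), h2⟩
    · rintro ⟨h1, h2⟩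
      have h2' : d i = 3 := h2
      exact ⟨fun hh => h1 ((o3 i (by omega)).2 hh), h2⟩
  have hn' : ∀ i, i ∉ P' → (deg G (v i) = 2 → x i = 1 ∧ y i = 1) ∧
      (4 ≤ deg G (v i) → 2 ≤ x i ∧ 2 ≤ y i) := by
    intro i hi
    obtain ⟨j, j1, j2, j3⟩ := o6 i hi
    obtain ⟨n1, n2, n3, _⟩ := hn j (hnP j j1).1 (hnP j j1).2
    have j2' : d j = deg G (v i) := j2
    constructor
    · intro h5
      have h6 := n1 (j2'.trans h5)
      rcases j3 with ⟨j3, j4⟩ | ⟨j3, j4⟩ <;> omega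
    · intro h5
      have h6 := n3 (by rw [j2']; exact h5)
      rcases j3 with ⟨j3, j4⟩ | ⟨j3, j4⟩ <;> omega
  -- the gaps
  set GP : Finset (Fin s × Fin s) := univ.filter (fun p => p.1 < p.2 ∧
    3 ≤ d p.1 ∧ 3 ≤ d p.2 ∧ ∀ k, p.1 < k → k < p.2 → d k = 2) with hGP
  have hGPm : ∀ p ∈ GP, p.1 < p.2 ∧ 3 ≤ d p.1 ∧ 3 ≤ d p.2 ∧
      ∀ k, p.1 < k → k < p.2 → d k = 2 := fun p hp => (Finset.mem_filter.1 hp).2
  have hGPd : ∀ p ∈ GP, ∀ q ∈ GP, p ≠ q → p.2 ≤ q.1 ∨ q.2 ≤ p.1 := fun p hp q hq hpq =>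
    gaps_disj d p q (hGPm p hp) (hGPm q hq) hpq
  have hGPc : (univ.filter (fun i => 3 ≤ d i)).card ≤ GP.card + 1 := gaps_card d h2d
  have hsplit := Finset.card_filter_add_card_filter_not (s := GP)
    (fun p : Fin s × Fin s => Odd ((p.2 : ℕ) - p.1))
  have h3le : (univ.filter (fun j => d j = 3)).card ≤ (univ.filter (fun j => 3 ≤ d j)).card := by
    refine Finset.card_le_card (fun j hj => ?_)
    have := (Finset.mem_filter.1 hj).2
    exact Finset.mem_filter.2 ⟨Finset.mem_univ _, by omega⟩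
  have hr3' : m ≤ (univ.filter (fun j => d j = 3)).card := hr3
  by_cases hodd : 20 * (M + 1 + Ra.card) ≤ (GP.filter (fun p => Odd ((p.2 : ℕ) - p.1))).card
  · refine wide_or2 h hev P' x y o8 o4 o5 hn' Q hQm' hQ2' o7
      (GP.filter (fun p => Odd ((p.2 : ℕ) - p.1))) (fun p hp => ?_)
      (fun p hp q hq hpq =>
        hGPd p (Finset.mem_filter.1 hp).1 q (Finset.mem_filter.1 hq).1 hpq) (by omega)
        (Or.inr (by omega))
    obtain ⟨k1, k2⟩ := Finset.mem_filter.1 hp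
    obtain ⟨k3, k4, k5, k6⟩ := hGPm p k1
    exact ⟨k3, Nat.odd_iff.1 k2, k4, k5⟩
  · refine even_or2 h hev P' x y o8 o4 o5 hn' Q hQm' hQ2' o7
      (GP.filter (fun p => ¬ Odd ((p.2 : ℕ) - p.1))) (fun p hp => ?_) (fun p hp q hq hpq =>
        hGPd p (Finset.mem_filter.1 hp).1 q (Finset.mem_filter.1 hq).1 hpq) (by omega) (by omega)
    obtain ⟨k1, k2⟩ := Finset.mem_filter.1 hp
    obtain ⟨k3, k4, k5, k6⟩ := hGPm p k1
    rw [Nat.not_odd_iff] at k2
    exact ⟨k3, k2, k4, k5, k6⟩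

end Pool.Agent.W_e8e3a0
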