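import Pool.Agent.W_e8e3a0.OrE49

/-! Exact answer for isolated rare spine degrees when two and two consecutive integers are
frequent, and three is not. -/

namespace Pool.Agent.W_e8e3a0

open Finset Num49

variable {V : Type} [Fintype V]

theorem rare_two4 {G : SimpleGraph V} {s : ℕ} {v : Fin s → V} (h : IsSpine G v) (hs : 0 < s)
    (hev : Even G.edgeSet.ncard) (M m : ℕ) (F : Finset ℕ) (h2F : 2 ∈ F) (h3F : 3 ∉ F)
    (c : ℕ) (hcF : c ∈ F) (hcF1 : c + 1 ∈ F)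
    (hF2 : ∀ e ∈ F, 2 ≤ e) (hFM : ∀ e ∈ F, e ≤ M) (Ra : Finset (Fin s))
    (hRam : ∀ i, i ∈ Ra ↔ deg G (v i) ∉ F) (hm : 100 * (M + 1 + Ra.card) ≤ m)
    (hr : ∀ e ∈ F, m ≤ (univ.filter (fun j => deg G (v j) = e)).card)
    (hiso : ∀ i ∈ Ra, ∀ j ∈ Ra, i < j → ∃ k, i < k ∧ k < j ∧ 4 ≤ deg G (v k))
    (u : Fin s → ℕ) (hule : ∀ i, u i ≤ deg G (v i))
    (hdual : ∀ f : ℕ → ZMod 2, f 0 = 0 → f 1 = 0 →
      (∀ e ∈ F, ∀ k, k ≤ e → f k + f (e - k) = f e) →
      ∑ i, (if deg G (v i) ∈ F then f (deg G (v i)) else f (u i) + f (deg G (v i) - u i)) = 0) :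
    Splittable G := by
  classical
  set d : Fin s → ℕ := fun i => deg G (v i) with hd
  have h2d : ∀ i, 2 ≤ d i := h.two
  have hc : 4 ≤ c := by
    have a1 := hF2 c hcF
    have a2 : c ≠ 3 := fun hh => h3F (hh ▸ hcF)
    have a3 : c + 1 ≠ 3 := fun hh => h3F (hh ▸ hcF1)
    omega
  have hM5 : 5 ≤ M := by
    have := hFM _ hcF1
    omega
  obtain ⟨A, hAc, hA1, hA2, hA3, hA21, hA22⟩ :=
    arcs_setup d F M (by omega) hFM u Ra hRam hdual
  have hRa2 : ∀ i ∈ Ra, d i ≠ 2 := fun i hi hh => (hRam i).1 hi (by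
    show d i ∈ F
    rw [hh]; exact h2F)
  have hr2 := hr 2 h2F
  set d0 : Fin s → ℕ := fun i => if d i = 3 then 0 else d i with hd0
  have hd0e : ∀ i e, 2 ≤ e → e ≠ 3 → (d0 i = e ↔ d i = e) := by
    intro i e he he3
    rw [hd0]
    dsimp only
    split_ifs with h7 <;> omega
  have h8 : ∀ k, 3 ≤ d0 k → 4 ≤ d k := by
    intro k hk
    rw [hd0] at hk
    dsimp only at hk
    split_ifs at hk with h7 <;> omega
  have hnr : ∀ i, i ∉ Ra → d i < 4 → d i = 2 := by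
    intro i hi h4
    have h5 : d i ∈ F := by
      by_contra hh
      exact hi ((hRam i).2 hh)
    have h6 := h2d i
    have h7 : d i ≠ 3 := fun hh => h3F (hh ▸ h5)
    omega
  obtain ⟨p, q, z1, z2, hp1, hp2, hz1, hz2, hcfg⟩ := place_two d d0 4 (by norm_num) ⟨0, hs⟩
    h8 Ra hRa2 hnr hiso (lt_of_lt_of_le (by omega) hr2) A
    (fun a ha ha2 => by
      have h5 := hF2 _ (hA1 a ha).1
      have h6 : a.1 ≠ 3 := fun hh => h3F (by rw [← hh]; exact (hA1 a ha).1)
      exact ⟨by omega, fun i => hd0e i a.1 h5 h6⟩) hA22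
    (fun a ha _ => le_trans (by omega) (hr _ (hA1 a ha).1))
  have hpR : ∀ a ∈ A, p a ∉ Ra := by
    intro a ha hh
    exact (hRam _).1 hh (by
      show d (p a) ∈ F
      rw [hp1 a ha]; exact (hA1 a ha).1)
  obtain ⟨a, b, hab, hpar, hn, hSpu, haA⟩ := mixed_parts5 d h2d Ra Ra
    (Finset.Subset.refl _) u (fun i _ => hule i) (fun i hi hh => absurd hi hh) A
    (fun a ha => (hA1 a ha).2) hA2 hA3 p hp1 hpR hp2
  set P := A.image p ∪ Ra with hP
  have hPc : P.card ≤ 2 * (M + 1) + Ra.card := by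
    have h1 := Finset.card_union_le (A.image p) Ra
    have h2 := Finset.card_image_le (s := A) (f := p)
    rw [hP]
    omega
  have hPs : ∀ i ∈ P, a i ≠ 1 ∨ b i ≠ 1 := by
    intro i hi
    by_contra hno
    push Not at hno
    have e3 := hab i
    rcases Finset.mem_union.1 hi with hi' | hi'
    · obtain ⟨c, hc, rfl⟩ := Finset.mem_image.1 hi'
      have e1 := haA c hc
      have e2 := hp1 c hc
      have e4 : c = (2, 1) := Prod.ext (by show c.1 = 2; omega) (by show c.2 = 1; omega)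
      exact hA21 (e4 ▸ hc)
    · have e1 := hRa2 i hi'
      omega
  have hnP : ∀ i, i ∉ P → i ∉ A.image p ∧ i ∉ Ra := by
    intro i hi
    rw [hP, Finset.mem_union, not_or] at hi
    exact hi
  have hor : ∀ U : Finset (Fin s), z1 ∈ U → z2 ∈ U →
      (∀ k, 2 ≤ k → (cx a U k + cx b U k) % 2 = 0) → ∃ P' x y, Oriented d 4 U P a b z2 P' x y := by
    intro U u1 u2 hparU
    rcases hcfg with hsep | ⟨c1, c2, c3, c4, c5⟩
    · exact oriented_triv d 4 U P a b hab hPs hparU z2 hsep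
    · exact oriented_cfg d 4 U P a b hab hPs hparU q z1 z2 u1 u2 hz1 hz2
        c1 c2 c3 c4 c5
  have hnO : ∀ (P' : Finset (Fin s)) (x y : Fin s → ℕ),
      (∀ i, i ∉ P' → ∃ j, j ∉ P ∧ d j = d i ∧
        ((x i = a j ∧ y i = b j) ∨ (x i = b j ∧ y i = a j))) →
      ∀ i, i ∉ P' → (deg G (v i) ≤ 3 → 1 ≤ x i ∧ 1 ≤ y i) ∧
        (4 ≤ deg G (v i) → 2 ≤ x i ∧ 2 ≤ y i) := by
    intro P' x y o6 i hi
    obtain ⟨j, j1, j2, j3⟩ := o6 i hi
    obtain ⟨n1, n3, _⟩ := hn j (hnP j j1).1 (hnP j j1).2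
    have j2' : d j = deg G (v i) := j2
    constructor
    · intro h5
      have h6 := n1 (by rw [j2']; exact h5)
      rcases j3 with ⟨j3, j4⟩ | ⟨j3, j4⟩ <;> omega
    · intro h5
      have h6 := n3 (by rw [j2']; exact h5)
      rcases j3 with ⟨j3, j4⟩ | ⟨j3, j4⟩ <;> omega
  -- the gaps
  set d' : Fin s → ℕ := fun i => if deg G (v i) = 3 then 2 else deg G (v i) with hd'
  have h2d' : ∀ i, 2 ≤ d' i := by
    intro i
    have : 2 ≤ deg G (v i) := h2d i
    rw [hd']; dsimp only; split_ifs <;> omega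
  have hd4 : ∀ i, 3 ≤ d' i → 4 ≤ deg G (v i) := by
    intro i hi
    rw [hd'] at hi; dsimp only at hi; split_ifs at hi <;> omega
  have hd2 : ∀ i, d' i = 2 → deg G (v i) ≤ 3 := by
    intro i hi
    rw [hd'] at hi; dsimp only at hi; split_ifs at hi <;> omega
  have hde : ∀ i e, 4 ≤ e → (d' i = e ↔ deg G (v i) = e) := by
    intro i e he
    rw [hd']; dsimp only; split_ifs <;> omega
  by_cases hodd : 20 * (M + 1 + Ra.card) ≤ (univ.filter (fun p : Fin s × Fin s => IsGap d' p ∧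
      ¬ ((p.2 : ℕ) - p.1) % 2 = 0)).card
  · obtain ⟨P', x, y, o1, o2, o3, o4, o5, o6, o7, o8⟩ := hor univ (Finset.mem_univ _)
      (Finset.mem_univ _) hpar
    refine wide_or4 h hev P' x y o8 o4 o5 o7 (hnO P' x y o6)
      (univ.filter (fun p : Fin s × Fin s => IsGap d' p ∧ ¬ ((p.2 : ℕ) - p.1) % 2 = 0))
      (fun p hp => ?_) (fun p hp q hq hpq => gaps_disj d' p q (Finset.mem_filter.1 hp).2.1
        (Finset.mem_filter.1 hq).2.1 hpq) (by omega)
    obtain ⟨_, ⟨k1, k2, k3, _⟩, k5⟩ := Finset.mem_filter.1 hp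
    exact ⟨k1, by omega, hd4 _ k2, hd4 _ k3⟩
  set P2 : Finset (Fin s) := insert z1 (insert z2 P) with hP2
  have hP2c : P2.card ≤ P.card + 2 := by
    have h1 := Finset.card_insert_le z1 (insert z2 P)
    have h2 := Finset.card_insert_le z2 P
    rw [hP2]
    omega
  have mP2 : ∀ i ∈ P, i ∈ P2 := fun i hi =>
    Finset.mem_insert_of_mem (Finset.mem_insert_of_mem hi)
  have mz2 : z2 ∈ P2 := Finset.mem_insert_of_mem (Finset.mem_insert_self _ _)
  have n0 : m ≤ (univ.filter (fun j => d' j = c)).card := by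
    rw [Finset.filter_congr (fun i _ => hde i c hc)]
    exact hr c hcF
  have n1 : m ≤ (univ.filter (fun j => d' j = c + 1)).card := by
    rw [Finset.filter_congr (fun i _ => hde i (c + 1) (by omega))]
    exact hr (c + 1) hcF1
  have m0 := cand_count d' h2d' P2 c (by omega)
  have m1 := cand_count d' h2d' P2 (c + 1) (by omega)
  obtain ⟨R0, hR0T, R1, hR1T, c0, c1, hsep⟩ := pick_sep2 d'
    (2 * (2 * P.card + 1))
    (univ.filter (fun i => d' i = c ∧ ∃ ab, Cand d' P2 i ab))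
    (univ.filter (fun i => d' i = c + 1 ∧ ∃ ab, Cand d' P2 i ab))
    (fun i hi => by have h5 := (Finset.mem_filter.1 hi).2.1; omega)
    (fun i hi => by have h5 := (Finset.mem_filter.1 hi).2.1; omega)
    (by omega) (by omega)
  have hex2 : ∀ i, i ∈ R0 ∪ R1 → ∃ ab, Cand d' P2 i ab := by
    intro i hi
    rcases Finset.mem_union.1 hi with h2 | h2
    · exact (Finset.mem_filter.1 (hR0T h2)).2.2
    · exact (Finset.mem_filter.1 (hR1T h2)).2.2
  have hR0d : ∀ i ∈ R0, deg G (v i) = c := fun i hi =>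
    (hde i c hc).1 (Finset.mem_filter.1 (hR0T hi)).2.1
  have hR1d : ∀ i ∈ R1, deg G (v i) = c + 1 := fun i hi =>
    (hde i (c + 1) (by omega)).1 (Finset.mem_filter.1 (hR1T hi)).2.1
  have hRP : ∀ i ∈ R0 ∪ R1, i ∉ P := by
    intro i hi hh
    obtain ⟨ab, g1, g2, g3, g4, g5⟩ := hex2 i hi
    exact g5 i (mP2 i hh) ⟨g1.1.le, g2.1.le⟩
  have hRd : ∀ i ∈ R0 ∪ R1, 4 ≤ deg G (v i) := by
    intro i hi
    rcases Finset.mem_union.1 hi with h6 | h6
    · rw [hR0d i h6]; exact hc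
    · rw [hR1d i h6]; omega
  have hnR : ∀ i ∈ R0 ∪ R1, a i = 2 ∧ b i = deg G (v i) - 2 := fun i hi =>
    (hn i (hnP i (hRP i hi)).1 (hnP i (hRP i hi)).2).2.2 (hnP i (hRP i hi)).2 (hRd i hi)
  have hR : Disjoint R0 R1 := by
    rw [Finset.disjoint_left]
    intro i h1 h2
    have := hR0d i h1
    have := hR1d i h2
    omega
  set J := 2 * P.card + 1 with hJ
  have hsp : ∀ (z : Fin s → ℕ) k, cx z univ k = cx z (univ \ (R0 ∪ R1)) k +
      (cx z R0 k + cx z R1 k) := by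
    intro z k
    rw [← cx_union hR]
    unfold cx
    exact (Finset.sum_sdiff (Finset.subset_univ (R0 ∪ R1))).symm
  have hparU : ∀ k, 2 ≤ k → (cx a (univ \ (R0 ∪ R1)) k + cx b (univ \ (R0 ∪ R1)) k) % 2 = 0 := by
    intro k hk
    have h1 := hpar k hk
    rw [hsp a, hsp b] at h1
    have g : ∀ (R : Finset (Fin s)) (z : Fin s → ℕ) (e : ℕ), R.card = 2 * J → (∀ i ∈ R, z i = e) →
        (cx z R k) % 2 = 0 := by
      intro R z e hRc hz
      unfold cx
      rw [Finset.sum_congr rfl (fun i hi => by rw [hz i hi]), Finset.sum_const, hRc, smul_eq_mul,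
        Nat.mul_assoc]
      exact Nat.mul_mod_right 2 _
    have g1 := g R0 a 2 c0 (fun i hi => (hnR i (Finset.mem_union_left _ hi)).1)
    have g2 := g R0 b (c - 2) c0 (fun i hi => by
      rw [(hnR i (Finset.mem_union_left _ hi)).2, hR0d i hi])
    have g3 := g R1 a 2 c1 (fun i hi => (hnR i (Finset.mem_union_right _ hi)).1)
    have g4 := g R1 b (c + 1 - 2) c1 (fun i hi => by
      rw [(hnR i (Finset.mem_union_right _ hi)).2, hR1d i hi])
    omega
  have hzU : ∀ z, d z = 2 → z ∈ univ \ (R0 ∪ R1) := by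
    intro z hz
    refine Finset.mem_sdiff.2 ⟨Finset.mem_univ _, fun hh => ?_⟩
    have h5 : 4 ≤ d z := hRd z hh
    omega
  obtain ⟨P', x, y, o1, o2, o3, o4, o5, o6, o7, o8⟩ := hor (univ \ (R0 ∪ R1)) (hzU z1 hz1)
    (hzU z2 hz2) hparU
  have : Nonempty (Fin s × Fin s) := ⟨(⟨0, hs⟩, ⟨0, hs⟩)⟩
  choose! f hf using hex2
  refine cons_or4 h hev P' x y o8 o4 o5 (hnO P' x y o6) c hc R0 R1 o7
    hR0d hR1d (by rw [o1]; exact c0) (by rw [o1]; exact c1) (fun i => (f i).1)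
    (fun i => (f i).2) (fun i hi => ?_) (fun i hi j hj hij => ?_)
  · obtain ⟨g1, g2, g3, g4, g5⟩ := hf i hi
    refine ⟨g1.1, g2.1, g3, g4, hd4 _ g1.2.1, hd4 _ g2.2.2.1,
      fun k k1 k2 => hd2 _ (g1.2.2.2 k k1 k2), fun k k1 k2 => hd2 _ (g2.2.2.2 k k1 k2),
      fun q' hq' => g5 q' ?_⟩
    rcases o2 q' hq' with h5 | h5
    · exact mP2 q' h5
    · rw [h5]; exact mz2
  · have hord : ∀ i ∈ R0 ∪ R1, ∀ j ∈ R0 ∪ R1, nu d' i + 2 ≤ nu d' j → (f i).2 ≤ (f j).1 := by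
      intro i hi j hj hn2
      obtain ⟨k, k1, k2, k3⟩ := nu_between d' hn2
      obtain ⟨_, g2, _⟩ := hf i hi
      obtain ⟨g1, _⟩ := hf j hj
      have e1 : (f i).2 ≤ k := by
        by_contra hh
        have h5 : d' k = 2 := g2.2.2.2 k k1 (not_le.1 hh)
        omega
      have e2 : k ≤ (f j).1 := by
        by_contra hh
        have h5 : d' k = 2 := g1.2.2.2 k (not_le.1 hh) k2
        omega
      exact e1.trans e2
    rcases hsep i hi j hj hij with h2 | h2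
    · exact Or.inl (hord i hi j hj h2)
    · exact Or.inr (hord j hj i hi h2)

end Pool.Agent.W_e8e3a0
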