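import Pool.Agent.W_e8e3a0.OrF49

/-! Exact answer for isolated rare spine degrees. -/

namespace Pool.Agent.W_e8e3a0

open Finset Num49

variable {V : Type} [Fintype V]

/-- frequent values and isolated other spine vertices: the dual condition is sufficient -/
theorem rare_iso {G : SimpleGraph V} {s : ℕ} {v : Fin s → V} (h : IsSpine G v) (hs : 0 < s)
    (hev : Even G.edgeSet.ncard) (M m : ℕ) (F : Finset ℕ) (hMF : M ∈ F)
    (hF : ∀ e ∈ F, e ≤ M ∧ m ≤ {i | deg G (v i) = e}.ncard)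
    (hm : 100 * (M + {i | deg G (v i) ∉ F}.ncard + 1) ≤ m)
    (hc : 3 ∈ F ∨ (∃ c ∈ F, c + 1 ∈ F) ∨ 2 ∉ F)
    (hiso : ∀ i j : Fin s, i < j → deg G (v i) ∉ F → deg G (v j) ∉ F →
      ∃ k, i < k ∧ k < j ∧ 2 < deg G (v k) ∧ deg G (v k) ∈ F)
    (u : Fin s → ℕ) (hule : ∀ i, u i ≤ deg G (v i))
    (hdual : ∀ f : ℕ → ZMod 2, f 0 = 0 → f 1 = 0 →
      (∀ e ∈ F, ∀ k, k ≤ e → f k + f (e - k) = f e) →
      ∑ i, (if deg G (v i) ∈ F then f (deg G (v i)) else f (u i) + f (deg G (v i) - u i)) = 0) :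
    Splittable G := by
  classical
  by_cases h2F : 2 ∈ F
  · set Ra : Finset (Fin s) := univ.filter (fun i => deg G (v i) ∉ F) with hRa
    have hRam : ∀ i, i ∈ Ra ↔ deg G (v i) ∉ F := by intro i; rw [hRa]; simp
    have hRac : {i | deg G (v i) ∉ F}.ncard = Ra.card := by
      rw [Set.ncard_eq_toFinset_card']
      congr 1
      ext i
      simp [hRa]
    rw [hRac] at hm
    have hr : ∀ e ∈ F, m ≤ (univ.filter (fun j => deg G (v j) = e)).card := by
      intro e he
      have h1 := (hF e he).2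
      rw [Set.ncard_eq_toFinset_card'] at h1
      refine h1.trans (Finset.card_le_card (fun j hj => ?_))
      rw [Set.mem_toFinset] at hj
      exact Finset.mem_filter.2 ⟨Finset.mem_univ _, hj⟩
    have hF2 : ∀ e ∈ F, 2 ≤ e := by
      intro e he
      have h1 := hr e he
      obtain ⟨i, hi⟩ := Finset.card_pos.1 (lt_of_lt_of_le (by omega) h1)
      have h3 := h.two i
      have h4 := (Finset.mem_filter.1 hi).2
      omega
    by_cases h3F : 3 ∈ F
    · refine rare_two3 h hs hev M m F h2F h3F hF2 (fun e he => (hF e he).1) Ra hRam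
        (by omega) hr (fun i hi j hj hij => ?_) u hule hdual
      obtain ⟨k, k1, k2, k3, _⟩ := hiso i j hij ((hRam i).1 hi) ((hRam j).1 hj)
      exact ⟨k, k1, k2, k3⟩
    · obtain ⟨c, hcF, hcF1⟩ : ∃ c ∈ F, c + 1 ∈ F := by
        rcases hc with h1 | h1 | h1
        · exact absurd h1 h3F
        · exact h1
        · exact absurd h2F h1
      refine rare_two4 h hs hev M m F h2F h3F c hcF hcF1 hF2 (fun e he => (hF e he).1) Ra hRam
        (by omega) hr (fun i hi j hj hij => ?_) u hule hdual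
      obtain ⟨k, k1, k2, k3, k4⟩ := hiso i j hij ((hRam i).1 hi) ((hRam j).1 hj)
      have k5 : deg G (v k) ≠ 3 := fun hh => h3F (hh ▸ k4)
      exact ⟨k, k1, k2, by omega⟩
  · refine (rare_iff h hs M F ⟨M, hMF⟩ h2F (fun e he => (hF e he).1)
      (fun e he => le_trans (by omega) (le_trans hm (hF e he).2)) (fun i j hij => ?_)).2
      ⟨hev, u, hule, hdual⟩
    by_contra hno
    rw [not_or] at hno
    obtain ⟨k, k1, k2, _⟩ := hiso i j (by show (i : ℕ) < j; omega) hno.1 hno.2
    have k1' : (i : ℕ) < k := k1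
    have k2' : (k : ℕ) < j := k2
    omega

end Pool.Agent.W_e8e3a0
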