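import Pool.Agent.W_e8e3a0.OrG49

/-! The conditions on the frequent values replaced by many adjacent spine vertices of degree more
than three. -/

namespace Pool.Agent.W_e8e3a0

open Finset Num49

open Classical in
/-- adjacent vertices of degree more than three are gaps of length one -/
theorem pairs_le {s : ℕ} (D d' : Fin s → ℕ) (hD : ∀ i, 3 < D i → 3 ≤ d' i) :
    (univ.filter (fun i : Fin s => 3 < D i ∧ ∃ j : Fin s, (j : ℕ) = i + 1 ∧ 3 < D j)).card ≤
      (univ.filter (fun p : Fin s × Fin s => IsGap d' p ∧ ¬ ((p.2 : ℕ) - p.1) % 2 = 0)).card := by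
  refine Finset.card_le_card_of_injOn (fun i : Fin s =>
    (i, if hi : (i : ℕ) + 1 < s then (⟨(i : ℕ) + 1, hi⟩ : Fin s) else i)) (fun i hi => ?_) ?_
  · obtain ⟨_, h1, j, h2, h3⟩ := Finset.mem_filter.1 (Finset.mem_coe.1 hi)
    have h4 : (i : ℕ) + 1 < s := by have := j.2; omega
    have h5 : (⟨(i : ℕ) + 1, h4⟩ : Fin s) = j := Fin.ext h2.symm
    dsimp only
    rw [dif_pos h4, h5]
    refine Finset.mem_coe.2 (Finset.mem_filter.2 ⟨Finset.mem_univ _, ⟨?_, hD i h1, hD j h3, ?_⟩, ?_⟩)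
    · show (i : ℕ) < j
      omega
    · intro k k1 k2
      have k1' : (i : ℕ) < k := k1
      have k2' : (k : ℕ) < j := k2
      omega
    · show ¬ ((j : ℕ) - i) % 2 = 0
      omega
  · intro i _ j _ hij
    exact congrArg Prod.fst hij

variable {V : Type} [Fintype V]

/-- parts when the values in `F` are frequent, `3` is not in `F`, the others are arbitrary -/
theorem dual_parts7 {G : SimpleGraph V} {s : ℕ} {v : Fin s → V} (h : IsSpine G v) (hs : 0 < s)
    (M : ℕ) (hM1 : 1 ≤ M) (F : Finset ℕ) (hF2 : ∀ e ∈ F, 2 ≤ e) (hFM : ∀ e ∈ F, e ≤ M)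
    (u : Fin s → ℕ) (hu' : ∀ i, deg G (v i) ∉ F → (deg G (v i) ≤ 3 → u i = 1) ∧
      (4 ≤ deg G (v i) → 2 ≤ u i ∧ u i + 2 ≤ deg G (v i)))
    (hrich : ∀ e ∈ F, 30 * (M + 1) ≤ (univ.filter (fun j => deg G (v j) = e)).card)
    (h3 : 3 ∉ F)
    (hdual : ∀ f : ℕ → ZMod 2, f 0 = 0 → f 1 = 0 →
      (∀ e ∈ F, ∀ k, k ≤ e → f k + f (e - k) = f e) →
      ∑ i, (if deg G (v i) ∈ F then f (deg G (v i)) else f (u i) + f (deg G (v i) - u i)) = 0) :
    ∃ (P : Finset (Fin s)) (a b : Fin s → ℕ), P.card ≤ 2 * (M + 1) ∧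
      (∀ i ∈ P, ∀ j ∈ P, i < j → ∃ k : Fin s, i < k ∧ k < j ∧ 4 ≤ deg G (v k)) ∧
      (∀ i, a i + b i = deg G (v i)) ∧ (∀ i ∈ P, a i ≠ 1 ∨ b i ≠ 1) ∧
      (∀ k, 2 ≤ k → (cx a univ k + cx b univ k) % 2 = 0) ∧
      (∀ i, i ∉ P → (deg G (v i) ≤ 3 → 1 ≤ a i ∧ 1 ≤ b i) ∧ (4 ≤ deg G (v i) → 2 ≤ a i ∧ 2 ≤ b i) ∧
      (deg G (v i) ∈ F → 4 ≤ deg G (v i) → a i = 2 ∧ b i = deg G (v i) - 2)) := by
  classical
  set d : Fin s → ℕ := fun i => deg G (v i) with hd
  have h2d : ∀ i, 2 ≤ d i := h.two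
  set Ra : Finset (Fin s) := univ.filter (fun i => d i ∉ F) with hRa
  have hRam : ∀ i, i ∈ Ra ↔ d i ∉ F := by intro i; rw [hRa]; simp
  have hu : ∀ i ∈ Ra, (d i ≤ 3 → u i = 1) ∧ (4 ≤ d i → 2 ≤ u i ∧ u i + 2 ≤ d i) := by
    intro i hi
    have h1 := (hRam i).1 hi
    obtain ⟨u1, u2⟩ := hu' i h1
    have u1' : d i ≤ 3 → u i = 1 := u1
    have u2' : 4 ≤ d i → 2 ≤ u i ∧ u i + 2 ≤ d i := u2
    exact ⟨u1', u2'⟩
  have hdF : ∀ i ∈ univ \ Ra, d i ∈ F := by
    intro i hi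
    by_contra hh
    exact (Finset.mem_sdiff.1 hi).2 ((hRam i).2 hh)
  obtain ⟨hcv, huM⟩ := dual_conv d F M (by omega) hFM u Ra hRam hdual
  obtain ⟨A, hAc, hA1, hA2', hA3', hA21, hA22⟩ := arcs_two_rhs F
    (fun e => ∑ i ∈ univ \ Ra, (if d i = e then (1 : ZMod 2) else 0))
    (fun k => ∑ i ∈ Ra, ((if u i = k then (1 : ZMod 2) else 0) +
        (if d i - u i = k then (1 : ZMod 2) else 0))) M hFM hcv
  have hA2 : ∀ e, e ≠ 2 → ∑ a ∈ A, (if a.1 = e then (1 : ZMod 2) else 0) =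
      ∑ i ∈ univ \ Ra, (if d i = e then (1 : ZMod 2) else 0) := by
    intro e he2
    by_cases he : e ∈ F
    · exact hA2' e he he2
    · rw [Finset.sum_eq_zero, Finset.sum_eq_zero]
      · intro i hi
        exact if_neg (fun hh => he (by rw [← hh]; exact hdF i hi))
      · intro a ha
        exact if_neg (fun hh : a.1 = e => he (by rw [← hh]; exact (hA1 a ha).1))
  have hA3 : ∀ k, 2 ≤ k → ∑ a ∈ A, ((if a.2 = k then (1 : ZMod 2) else 0) +
        (if a.1 - a.2 = k then (1 : ZMod 2) else 0)) =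
      ∑ i ∈ Ra, ((if u i = k then (1 : ZMod 2) else 0) +
        (if d i - u i = k then (1 : ZMod 2) else 0)) := by
    intro k hk
    by_cases hkM : k ≤ M
    · exact hA3' k hk hkM
    · rw [huM k (by omega), Finset.sum_eq_zero]
      · intro a ha
        obtain ⟨h1, h2⟩ := hA1 a ha
        have := hFM _ h1
        rw [if_neg (by omega), if_neg (by omega), add_zero]
  have hex : ∀ e ∈ F, ∃ i, d i = e := by
    intro e he
    have h1 := hrich e he
    obtain ⟨i, hi⟩ := Finset.card_pos.1 (lt_of_lt_of_le (by omega) h1)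
    exact ⟨i, (Finset.mem_filter.1 hi).2⟩
  set d0 : Fin s → ℕ := fun i => if d i = 3 then 0 else d i with hd0
  have hd0e : ∀ i e, e ∈ F → (d0 i = e ↔ d i = e) := by
    intro i e he
    have h5 := hF2 e he
    have h6 : e ≠ 3 := fun hh => h3 (hh ▸ he)
    rw [hd0]
    dsimp only
    split_ifs with h7 <;> omega
  obtain ⟨p, hp1', hpn'⟩ := place_sep d0 hs A
    (fun a ha => hF2 _ (hA1 a ha).1) hA22
    (fun a ha ha2 => by
      obtain ⟨i, hi⟩ := hex _ (hA1 a ha).1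
      exact ⟨i, by rw [(hd0e i _ (hA1 a ha).1).2 hi, ha2]⟩)
    (fun a ha _ => by
      have h1 := hrich _ (hA1 a ha).1
      have h2 : (univ.filter (fun i => d0 i = a.1)) = univ.filter (fun i => d i = a.1) :=
        Finset.filter_congr (fun i _ => hd0e i _ (hA1 a ha).1)
      rw [h2]
      refine le_trans ?_ h1
      omega)
  have hp1 : ∀ a ∈ A, d (p a) = a.1 := fun a ha => (hd0e _ _ (hA1 a ha).1).1 (hp1' a ha)
  have hpn : ∀ a ∈ A, ∀ b ∈ A, a ≠ b → (∃ k : Fin s, p a < k ∧ k < p b ∧ 4 ≤ d k) ∨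
      ∃ k : Fin s, p b < k ∧ k < p a ∧ 4 ≤ d k := by
    have h8 : ∀ k, 3 ≤ d0 k → 4 ≤ d k := by
      intro k hk
      rw [hd0] at hk
      dsimp only at hk
      split_ifs at hk with h7 <;> omega
    intro a ha b hb hab
    rcases hpn' a ha b hb hab with h1 | h1
    · obtain ⟨k, k1, k2, k3⟩ := nu_between d0 h1
      exact Or.inl ⟨k, k1, k2, h8 k k3⟩
    · obtain ⟨k, k1, k2, k3⟩ := nu_between d0 h1
      exact Or.inr ⟨k, k1, k2, h8 k k3⟩
  have hp2 : ∀ a ∈ A, ∀ b ∈ A, a ≠ b → (p a : ℕ) + 1 < p b ∨ (p b : ℕ) + 1 < p a := by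
    intro a ha b hb hab
    rcases hpn a ha b hb hab with ⟨k, k1, k2, _⟩ | ⟨k, k1, k2, _⟩
    · have k1' : (p a : ℕ) < k := k1
      have k2' : (k : ℕ) < p b := k2
      omega
    · have _h0 := k1
      have k1' : (p b : ℕ) < k := k1
      have k2' : (k : ℕ) < p a := k2
      omega
  have hpR : ∀ a ∈ A, p a ∉ Ra := by
    intro a ha hh
    exact (hRam _).1 hh (by rw [hp1 a ha]; exact (hA1 a ha).1)
  obtain ⟨a, b, hab, hpar, hn, haA⟩ := mixed_parts4 d h2d Ra u hu A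
    (fun a ha => (hA1 a ha).2) hA2 hA3 p hp1 hpR hp2
  have hPc : (A.image p).card ≤ 2 * (M + 1) := Finset.card_image_le.trans hAc
  refine ⟨A.image p, a, b, hPc, ?_, hab, ?_, hpar, fun i hi => ?_⟩
  · intro i hi j hj hij
    obtain ⟨a', ha', rfl⟩ := Finset.mem_image.1 hi
    obtain ⟨b', hb', rfl⟩ := Finset.mem_image.1 hj
    rcases hpn a' ha' b' hb' (fun hh => absurd hij (by rw [hh]; exact lt_irrefl _)) with
      ⟨k, k1, k2, k3⟩ | ⟨k, k1, k2, _⟩
    · exact ⟨k, k1, k2, k3⟩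
    · exact absurd (k1.trans k2) (not_lt.2 hij.le)
  · intro i hi
    obtain ⟨c, hc, rfl⟩ := Finset.mem_image.1 hi
    by_contra hno
    push Not at hno
    have e1 := haA c hc
    have e2 := hp1 c hc
    have e3 := hab (p c)
    have e4 : c = (2, 1) := Prod.ext (by show c.1 = 2; omega) (by show c.2 = 1; omega)
    exact hA21 (e4 ▸ hc)
  · obtain ⟨q1, q3, q4⟩ := hn i hi
    exact ⟨q1, q3, fun hF h4 => q4 (fun hh => (hRam i).1 hh hF) h4⟩

/-- frequent values and the dual condition with chosen parts of the rare spine degrees -/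
theorem rare_full2 {G : SimpleGraph V} {s : ℕ} {v : Fin s → V} (h : IsSpine G v) (hs : 0 < s)
    (hev : Even G.edgeSet.ncard) (M : ℕ) (hM1 : 1 ≤ M) (F : Finset ℕ) (hFM : ∀ e ∈ F, e ≤ M)
    (u : Fin s → ℕ) (hu : ∀ i, deg G (v i) ∉ F → (deg G (v i) ≤ 3 → u i = 1) ∧
      (4 ≤ deg G (v i) → 2 ≤ u i ∧ u i + 2 ≤ deg G (v i)))
    (hrich : ∀ e ∈ F, 100 * (M + 1) ≤ {j | deg G (v j) = e}.ncard)
    (hF : 3 ∈ F ∨ (∃ c ∈ F, c + 1 ∈ F) ∨
      20 * (M + 1) ≤ {i : Fin s | 3 < deg G (v i) ∧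
        ∃ j : Fin s, (j : ℕ) = i + 1 ∧ 3 < deg G (v j)}.ncard)
    (hdual : ∀ f : ℕ → ZMod 2, f 0 = 0 → f 1 = 0 →
      (∀ e ∈ F, ∀ k, k ≤ e → f k + f (e - k) = f e) →
      ∑ i, (if deg G (v i) ∈ F then f (deg G (v i)) else f (u i) + f (deg G (v i) - u i)) = 0) :
    Splittable G := by
  classical
  have h2d : ∀ i, 2 ≤ deg G (v i) := h.two
  have hr : ∀ e ∈ F, 100 * (M + 1) ≤ (univ.filter (fun j => deg G (v j) = e)).card := by
    intro e he
    have h1 := hrich e he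
    rw [Set.ncard_eq_toFinset_card'] at h1
    refine h1.trans (Finset.card_le_card (fun j hj => ?_))
    rw [Set.mem_toFinset] at hj
    exact Finset.mem_filter.2 ⟨Finset.mem_univ _, hj⟩
  have hex : ∀ e ∈ F, ∃ i, deg G (v i) = e := by
    intro e he
    have h1 := hr e he
    obtain ⟨i, hi⟩ := Finset.card_pos.1 (lt_of_lt_of_le (by omega) h1)
    exact ⟨i, (Finset.mem_filter.1 hi).2⟩
  have hF2 : ∀ e ∈ F, 2 ≤ e := by
    intro e he
    obtain ⟨i, hi⟩ := hex e he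
    rw [← hi]; exact h2d i
  have hr30 : ∀ e ∈ F, 30 * (M + 1) ≤ (univ.filter (fun j => deg G (v j) = e)).card :=
    fun e he => le_trans (by omega) (hr e he)
  by_cases h3F : 3 ∈ F
  · have hM4 : 4 ≤ M + 1 := by
      have h2 := hFM _ h3F
      omega
    obtain ⟨P, a, b, hPc, hPsep, hab, hPs, hpar, hn, hQ2⟩ :=
      dual_parts5 h hs M hM4 F hF2 hFM u hu hr30 (fun _ _ => h3F) hdual
    have hn1 : ∀ i, i ∉ P → (deg G (v i) = 2 → a i = 1 ∧ b i = 1) ∧
        (deg G (v i) = 3 → a i = 1 ∧ b i = 2) ∧ (4 ≤ deg G (v i) → 2 ≤ a i ∧ 2 ≤ b i) :=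
      fun i hi => ⟨(hn i hi).1, (hn i hi).2.1, (hn i hi).2.2.1⟩
    set GP : Finset (Fin s × Fin s) := univ.filter (fun p => p.1 < p.2 ∧
      3 ≤ deg G (v p.1) ∧ 3 ≤ deg G (v p.2) ∧ ∀ k, p.1 < k → k < p.2 → deg G (v k) = 2) with hGP
    have hGPm : ∀ p ∈ GP, p.1 < p.2 ∧ 3 ≤ deg G (v p.1) ∧ 3 ≤ deg G (v p.2) ∧
        ∀ k, p.1 < k → k < p.2 → deg G (v k) = 2 := fun p hp => (Finset.mem_filter.1 hp).2
    have hGPd : ∀ p ∈ GP, ∀ q ∈ GP, p ≠ q → p.2 ≤ q.1 ∨ q.2 ≤ p.1 := fun p hp q hq hpq =>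
      gaps_disj (fun i => deg G (v i)) p q (hGPm p hp) (hGPm q hq) hpq
    have hGPc : (univ.filter (fun i => 3 ≤ deg G (v i))).card ≤ GP.card + 1 :=
      gaps_card (fun i => deg G (v i)) h2d
    have hsplit := Finset.card_filter_add_card_filter_not (s := GP)
      (fun p : Fin s × Fin s => Odd ((p.2 : ℕ) - p.1))
    have hQle : (univ.filter (fun j => deg G (v j) = 3)).card ≤
        (univ.filter (fun i => i ∉ P ∧ deg G (v i) = 3)).card + P.card := by
      rw [← Finset.card_union_of_disjoint]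
      · refine Finset.card_le_card (fun j hj => ?_)
        rw [Finset.mem_union]
        by_cases hjP : j ∈ P
        · exact Or.inr hjP
        · exact Or.inl (Finset.mem_filter.2 ⟨Finset.mem_univ _, hjP,
            (Finset.mem_filter.1 hj).2⟩)
      · rw [Finset.disjoint_left]
        intro j hj hj2
        exact (Finset.mem_filter.1 hj).2.1 hj2
    have h1 : (univ.filter (fun j => deg G (v j) = 3)).card ≤
        (univ.filter (fun j => 3 ≤ deg G (v j))).card := by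
      refine Finset.card_le_card (fun j hj => ?_)
      have := (Finset.mem_filter.1 hj).2
      exact Finset.mem_filter.2 ⟨Finset.mem_univ _, by omega⟩
    have h2 := hr 3 h3F
    by_cases hodd : 20 * (M + 1) ≤ (GP.filter (fun p => Odd ((p.2 : ℕ) - p.1))).card
    · refine wide_split2 h hev P hPsep a b hab hPs hpar hn1
        (univ.filter (fun i => i ∉ P ∧ deg G (v i) = 3)) (by intro i; simp) hQ2
        (GP.filter (fun p => Odd ((p.2 : ℕ) - p.1))) (fun p hp => ?_)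
        (fun p hp q hq hpq =>
          hGPd p (Finset.mem_filter.1 hp).1 q (Finset.mem_filter.1 hq).1 hpq) (by omega)
          (Or.inr (by omega))
      obtain ⟨k1, k2⟩ := Finset.mem_filter.1 hp
      obtain ⟨k3, k4, k5, k6⟩ := hGPm p k1
      exact ⟨k3, Nat.odd_iff.1 k2, k4, k5⟩
    · refine even_split h hev P hPsep a b hab hPs hpar hn1 _ (by intro i; simp) hQ2
        (GP.filter (fun p => ¬ Odd ((p.2 : ℕ) - p.1))) (fun p hp => ?_) (fun p hp q hq hpq =>
          hGPd p (Finset.mem_filter.1 hp).1 q (Finset.mem_filter.1 hq).1 hpq) (by omega) (by omega)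
      obtain ⟨k1, k2⟩ := Finset.mem_filter.1 hp
      obtain ⟨k3, k4, k5, k6⟩ := hGPm p k1
      rw [Nat.not_odd_iff] at k2
      exact ⟨k3, k2, k4, k5, k6⟩
  -- three is rare
  obtain ⟨P, a, b, hPc, hPsep, hab, hPs, hpar, hn⟩ :=
    dual_parts7 h hs M hM1 F hF2 hFM u hu hr30 h3F hdual
  set d' : Fin s → ℕ := fun i => if deg G (v i) = 3 then 2 else deg G (v i) with hd'
  have h2d' : ∀ i, 2 ≤ d' i := by
    intro i
    have := h2d i
    rw [hd']; dsimp only; split_ifs <;> omega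
  have hd4 : ∀ i, 3 ≤ d' i → 4 ≤ deg G (v i) := by
    intro i hi
    rw [hd'] at hi; dsimp only at hi; split_ifs at hi <;> omega
  have hd2 : ∀ i, d' i = 2 → deg G (v i) ≤ 3 := by
    intro i hi
    rw [hd'] at hi; dsimp only at hi; split_ifs at hi <;> omega
  have hde : ∀ i e, 4 ≤ e → (d' i = e ↔ deg G (v i) = e) := by
    intro i e he
    rw [hd']; dsimp only; split_ifs <;> omega
  set OG : Finset (Fin s × Fin s) := univ.filter (fun p : Fin s × Fin s => IsGap d' p ∧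
      ¬ ((p.2 : ℕ) - p.1) % 2 = 0) with hOG
  by_cases hodd : 20 * (M + 1) ≤ OG.card
  · refine wide_split4 h hev P hPsep a b hab hPs hpar
      (fun i hi => ⟨(hn i hi).1, (hn i hi).2.1⟩) OG (fun p hp => ?_)
      (fun p hp q hq hpq => gaps_disj d' p q (Finset.mem_filter.1 hp).2.1
        (Finset.mem_filter.1 hq).2.1 hpq) (by omega)
    obtain ⟨_, ⟨k1, k2, k3, _⟩, k5⟩ := Finset.mem_filter.1 hp
    exact ⟨k1, by omega, hd4 _ k2, hd4 _ k3⟩
  rw [hOG] at hodd
  rcases hF with hF | ⟨c, hcF, hcF1⟩ | hF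
  · exact absurd hF h3F
  rotate_left
  · exfalso
    have h1 := pairs_le (fun i => deg G (v i)) d' (fun i hi => by
      have := (hde i (deg G (v i)) hi).2 rfl
      rw [this]
      have hi' : 3 < deg G (v i) := hi
      omega)
    rw [Set.ncard_eq_toFinset_card'] at hF
    have h2 : (Set.toFinset {i : Fin s | 3 < deg G (v i) ∧
        ∃ j : Fin s, (j : ℕ) = i + 1 ∧ 3 < deg G (v j)}).card =
        (univ.filter (fun i : Fin s => 3 < deg G (v i) ∧
          ∃ j : Fin s, (j : ℕ) = i + 1 ∧ 3 < deg G (v j))).card := by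
      congr 1
      ext i
      simp
    omega
  have hc : 4 ≤ c := by
    have a1 := hF2 c hcF
    have a2 : c ≠ 3 := fun hh => h3F (hh ▸ hcF)
    have a3 : c + 1 ≠ 3 := fun hh => h3F (hh ▸ hcF1)
    omega
  have n0 : 100 * (M + 1) ≤ (univ.filter (fun j => d' j = c)).card := by
    rw [Finset.filter_congr (fun i _ => hde i c hc)]
    exact hr c hcF
  have n1 : 100 * (M + 1) ≤ (univ.filter (fun j => d' j = c + 1)).card := by
    rw [Finset.filter_congr (fun i _ => hde i (c + 1) (by omega))]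
    exact hr (c + 1) hcF1
  have m0 := cand_count d' h2d' P c (by omega)
  have m1 := cand_count d' h2d' P (c + 1) (by omega)
  obtain ⟨R0, hR0T, R1, hR1T, c0, c1, hsep⟩ := pick_sep2 d'
    (2 * (2 * P.card + 1))
    (univ.filter (fun i => d' i = c ∧ ∃ ab, Cand d' P i ab))
    (univ.filter (fun i => d' i = c + 1 ∧ ∃ ab, Cand d' P i ab))
    (fun i hi => by have h5 := (Finset.mem_filter.1 hi).2.1; omega)
    (fun i hi => by have h5 := (Finset.mem_filter.1 hi).2.1; omega)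
    (by omega) (by omega)
  have hex2 : ∀ i, i ∈ R0 ∪ R1 → ∃ ab, Cand d' P i ab := by
    intro i hi
    rcases Finset.mem_union.1 hi with h2 | h2
    · exact (Finset.mem_filter.1 (hR0T h2)).2.2
    · exact (Finset.mem_filter.1 (hR1T h2)).2.2
  have hR0d : ∀ i ∈ R0, deg G (v i) = c := fun i hi =>
    (hde i c hc).1 (Finset.mem_filter.1 (hR0T hi)).2.1
  have hR1d : ∀ i ∈ R1, deg G (v i) = c + 1 := fun i hi =>
    (hde i (c + 1) (by omega)).1 (Finset.mem_filter.1 (hR1T hi)).2.1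
  have hdR : ∀ i ∈ R0 ∪ R1, i ∉ P ∧ deg G (v i) ∈ F ∧ 4 ≤ deg G (v i) := by
    intro i hi
    obtain ⟨ab, g1, g2, g3, g4, g5⟩ := hex2 i hi
    refine ⟨fun hP => g5 i hP ⟨g1.1.le, g2.1.le⟩, ?_⟩
    rcases Finset.mem_union.1 hi with h2 | h2
    · rw [hR0d i h2]
      exact ⟨hcF, hc⟩
    · rw [hR1d i h2]
      exact ⟨hcF1, by omega⟩
  have : Nonempty (Fin s × Fin s) := ⟨(⟨0, hs⟩, ⟨0, hs⟩)⟩
  choose! f hf using hex2
  refine cons_split4 h hev P hPsep a b hab hPs hpar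
    (fun i hi => ⟨(hn i hi).1, (hn i hi).2.1⟩) c hc R0 R1
    (fun i hi => (hn i (hdR i hi).1).2.2 (hdR i hi).2.1 (hdR i hi).2.2)
    hR0d hR1d c0 c1 (fun i => (f i).1)
    (fun i => (f i).2) (fun i hi => ?_) (fun i hi j hj hij => ?_)
  · obtain ⟨g1, g2, g3, g4, g5⟩ := hf i hi
    exact ⟨g1.1, g2.1, g3, g4, hd4 _ g1.2.1, hd4 _ g2.2.2.1,
      fun k k1 k2 => hd2 _ (g1.2.2.2 k k1 k2), fun k k1 k2 => hd2 _ (g2.2.2.2 k k1 k2), g5⟩
  · have hord : ∀ i ∈ R0 ∪ R1, ∀ j ∈ R0 ∪ R1, nu d' i + 2 ≤ nu d' j → (f i).2 ≤ (f j).1 := by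
      intro i hi j hj hn2
      obtain ⟨k, k1, k2, k3⟩ := nu_between d' hn2
      obtain ⟨_, g2, _⟩ := hf i hi
      obtain ⟨g1, _⟩ := hf j hj
      have e1 : (f i).2 ≤ k := by
        by_contra hh
        have h5 : d' k = 2 := g2.2.2.2 k k1 (not_le.1 hh)
        omega
      have e2 : k ≤ (f j).1 := by
        by_contra hh
        have h5 : d' k = 2 := g1.2.2.2 k (not_le.1 hh) k2
        omega
      exact e1.trans e2
    rcases hsep i hi j hj hij with h2 | h2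
    · exact Or.inl (hord i hi j hj h2)
    · exact Or.inr (hord j hj i hi h2)

theorem rare_two5 {G : SimpleGraph V} {s : ℕ} {v : Fin s → V} (h : IsSpine G v) (hs : 0 < s)
    (hev : Even G.edgeSet.ncard) (M m : ℕ) (F : Finset ℕ) (h2F : 2 ∈ F) (h3F : 3 ∉ F)
    (hF2 : ∀ e ∈ F, 2 ≤ e) (hFM : ∀ e ∈ F, e ≤ M) (Ra : Finset (Fin s))
    (hRam : ∀ i, i ∈ Ra ↔ deg G (v i) ∉ F) (hm : 100 * (M + 1 + Ra.card) ≤ m)
    (hr : ∀ e ∈ F, m ≤ (univ.filter (fun j => deg G (v j) = e)).card)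
    (hcc : (∃ c ∈ F, c + 1 ∈ F) ∨ 20 * (M + 1 + Ra.card) ≤
      {i : Fin s | 3 < deg G (v i) ∧ ∃ j : Fin s, (j : ℕ) = i + 1 ∧ 3 < deg G (v j)}.ncard)
    (hiso : ∀ i ∈ Ra, ∀ j ∈ Ra, i < j → ∃ k, i < k ∧ k < j ∧ 4 ≤ deg G (v k))
    (u : Fin s → ℕ) (hule : ∀ i, u i ≤ deg G (v i))
    (hdual : ∀ f : ℕ → ZMod 2, f 0 = 0 → f 1 = 0 →
      (∀ e ∈ F, ∀ k, k ≤ e → f k + f (e - k) = f e) →
      ∑ i, (if deg G (v i) ∈ F then f (deg G (v i)) else f (u i) + f (deg G (v i) - u i)) = 0) :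
    Splittable G := by
  classical
  set d : Fin s → ℕ := fun i => deg G (v i) with hd
  have h2d : ∀ i, 2 ≤ d i := h.two
  have hM2 : 2 ≤ M := hFM 2 h2F
  obtain ⟨A, hAc, hA1, hA2, hA3, hA21, hA22⟩ :=
    arcs_setup d F M (by omega) hFM u Ra hRam hdual
  have hRa2 : ∀ i ∈ Ra, d i ≠ 2 := fun i hi hh => (hRam i).1 hi (by
    show d i ∈ F
    rw [hh]; exact h2F)
  have hr2 := hr 2 h2F
  set d0 : Fin s → ℕ := fun i => if d i = 3 then 0 else d i with hd0
  have hd0e : ∀ i e, 2 ≤ e → e ≠ 3 → (d0 i = e ↔ d i = e) := by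
    intro i e he he3
    rw [hd0]
    dsimp only
    split_ifs with h7 <;> omega
  have h8 : ∀ k, 3 ≤ d0 k → 4 ≤ d k := by
    intro k hk
    rw [hd0] at hk
    dsimp only at hk
    split_ifs at hk with h7 <;> omega
  have hnr : ∀ i, i ∉ Ra → d i < 4 → d i = 2 := by
    intro i hi h4
    have h5 : d i ∈ F := by
      by_contra hh
      exact hi ((hRam i).2 hh)
    have h6 := h2d i
    have h7 : d i ≠ 3 := fun hh => h3F (hh ▸ h5)
    omega
  obtain ⟨p, q, z1, z2, hp1, hp2, hz1, hz2, hcfg⟩ := place_two d d0 4 (by norm_num) ⟨0, hs⟩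
    h8 Ra hRa2 hnr hiso (lt_of_lt_of_le (by omega) hr2) A
    (fun a ha ha2 => by
      have h5 := hF2 _ (hA1 a ha).1
      have h6 : a.1 ≠ 3 := fun hh => h3F (by rw [← hh]; exact (hA1 a ha).1)
      exact ⟨by omega, fun i => hd0e i a.1 h5 h6⟩) hA22
    (fun a ha _ => le_trans (by omega) (hr _ (hA1 a ha).1))
  have hpR : ∀ a ∈ A, p a ∉ Ra := by
    intro a ha hh
    exact (hRam _).1 hh (by
      show d (p a) ∈ F
      rw [hp1 a ha]; exact (hA1 a ha).1)
  obtain ⟨a, b, hab, hpar, hn, hSpu, haA⟩ := mixed_parts5 d h2d Ra Ra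
    (Finset.Subset.refl _) u (fun i _ => hule i) (fun i hi hh => absurd hi hh) A
    (fun a ha => (hA1 a ha).2) hA2 hA3 p hp1 hpR hp2
  set P := A.image p ∪ Ra with hP
  have hPc : P.card ≤ 2 * (M + 1) + Ra.card := by
    have h1 := Finset.card_union_le (A.image p) Ra
    have h2 := Finset.card_image_le (s := A) (f := p)
    rw [hP]
    omega
  have hPs : ∀ i ∈ P, a i ≠ 1 ∨ b i ≠ 1 := by
    intro i hi
    by_contra hno
    push Not at hno
    have e3 := hab i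
    rcases Finset.mem_union.1 hi with hi' | hi'
    · obtain ⟨c, hc, rfl⟩ := Finset.mem_image.1 hi'
      have e1 := haA c hc
      have e2 := hp1 c hc
      have e4 : c = (2, 1) := Prod.ext (by show c.1 = 2; omega) (by show c.2 = 1; omega)
      exact hA21 (e4 ▸ hc)
    · have e1 := hRa2 i hi'
      omega
  have hnP : ∀ i, i ∉ P → i ∉ A.image p ∧ i ∉ Ra := by
    intro i hi
    rw [hP, Finset.mem_union, not_or] at hi
    exact hi
  have hor : ∀ U : Finset (Fin s), z1 ∈ U → z2 ∈ U →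
      (∀ k, 2 ≤ k → (cx a U k + cx b U k) % 2 = 0) → ∃ P' x y, Oriented d 4 U P a b z2 P' x y := by
    intro U u1 u2 hparU
    rcases hcfg with hsep | ⟨c1, c2, c3, c4, c5⟩
    · exact oriented_triv d 4 U P a b hab hPs hparU z2 hsep
    · exact oriented_cfg d 4 U P a b hab hPs hparU q z1 z2 u1 u2 hz1 hz2
        c1 c2 c3 c4 c5
  have hnO : ∀ (P' : Finset (Fin s)) (x y : Fin s → ℕ),
      (∀ i, i ∉ P' → ∃ j, j ∉ P ∧ d j = d i ∧
        ((x i = a j ∧ y i = b j) ∨ (x i = b j ∧ y i = a j))) →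
      ∀ i, i ∉ P' → (deg G (v i) ≤ 3 → 1 ≤ x i ∧ 1 ≤ y i) ∧
        (4 ≤ deg G (v i) → 2 ≤ x i ∧ 2 ≤ y i) := by
    intro P' x y o6 i hi
    obtain ⟨j, j1, j2, j3⟩ := o6 i hi
    obtain ⟨n1, n3, _⟩ := hn j (hnP j j1).1 (hnP j j1).2
    have j2' : d j = deg G (v i) := j2
    constructor
    · intro h5
      have h6 := n1 (by rw [j2']; exact h5)
      rcases j3 with ⟨j3, j4⟩ | ⟨j3, j4⟩ <;> omega
    · intro h5
      have h6 := n3 (by rw [j2']; exact h5)
      rcases j3 with ⟨j3, j4⟩ | ⟨j3, j4⟩ <;> omega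
  -- the gaps
  set d' : Fin s → ℕ := fun i => if deg G (v i) = 3 then 2 else deg G (v i) with hd'
  have h2d' : ∀ i, 2 ≤ d' i := by
    intro i
    have : 2 ≤ deg G (v i) := h2d i
    rw [hd']; dsimp only; split_ifs <;> omega
  have hd4 : ∀ i, 3 ≤ d' i → 4 ≤ deg G (v i) := by
    intro i hi
    rw [hd'] at hi; dsimp only at hi; split_ifs at hi <;> omega
  have hd2 : ∀ i, d' i = 2 → deg G (v i) ≤ 3 := by
    intro i hi
    rw [hd'] at hi; dsimp only at hi; split_ifs at hi <;> omega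
  have hde : ∀ i e, 4 ≤ e → (d' i = e ↔ deg G (v i) = e) := by
    intro i e he
    rw [hd']; dsimp only; split_ifs <;> omega
  by_cases hodd : 20 * (M + 1 + Ra.card) ≤ (univ.filter (fun p : Fin s × Fin s => IsGap d' p ∧
      ¬ ((p.2 : ℕ) - p.1) % 2 = 0)).card
  · obtain ⟨P', x, y, o1, o2, o3, o4, o5, o6, o7, o8⟩ := hor univ (Finset.mem_univ _)
      (Finset.mem_univ _) hpar
    refine wide_or4 h hev P' x y o8 o4 o5 o7 (hnO P' x y o6)
      (univ.filter (fun p : Fin s × Fin s => IsGap d' p ∧ ¬ ((p.2 : ℕ) - p.1) % 2 = 0))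
      (fun p hp => ?_) (fun p hp q hq hpq => gaps_disj d' p q (Finset.mem_filter.1 hp).2.1
        (Finset.mem_filter.1 hq).2.1 hpq) (by omega)
    obtain ⟨_, ⟨k1, k2, k3, _⟩, k5⟩ := Finset.mem_filter.1 hp
    exact ⟨k1, by omega, hd4 _ k2, hd4 _ k3⟩
  obtain ⟨c, hcF, hcF1⟩ : ∃ c ∈ F, c + 1 ∈ F := by
    rcases hcc with h1 | h1
    · exact h1
    · exfalso
      have h2 := pairs_le (fun i => deg G (v i)) d' (fun i hi => by
        have := (hde i (deg G (v i)) hi).2 rfl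
        rw [this]
        have hi' : 3 < deg G (v i) := hi
        omega)
      rw [Set.ncard_eq_toFinset_card'] at h1
      have h3 : (Set.toFinset {i : Fin s | 3 < deg G (v i) ∧
          ∃ j : Fin s, (j : ℕ) = i + 1 ∧ 3 < deg G (v j)}).card =
          (univ.filter (fun i : Fin s => 3 < deg G (v i) ∧
            ∃ j : Fin s, (j : ℕ) = i + 1 ∧ 3 < deg G (v j))).card := by
        congr 1
        ext i
        simp
      omega
  have hc : 4 ≤ c := by
    have a1 := hF2 c hcF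
    have a2 : c ≠ 3 := fun hh => h3F (hh ▸ hcF)
    have a3 : c + 1 ≠ 3 := fun hh => h3F (hh ▸ hcF1)
    omega
  have hM5 : 5 ≤ M := by
    have := hFM _ hcF1
    omega
  set P2 : Finset (Fin s) := insert z1 (insert z2 P) with hP2
  have hP2c : P2.card ≤ P.card + 2 := by
    have h1 := Finset.card_insert_le z1 (insert z2 P)
    have h2 := Finset.card_insert_le z2 P
    rw [hP2]
    omega
  have mP2 : ∀ i ∈ P, i ∈ P2 := fun i hi =>
    Finset.mem_insert_of_mem (Finset.mem_insert_of_mem hi)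
  have mz2 : z2 ∈ P2 := Finset.mem_insert_of_mem (Finset.mem_insert_self _ _)
  have n0 : m ≤ (univ.filter (fun j => d' j = c)).card := by
    rw [Finset.filter_congr (fun i _ => hde i c hc)]
    exact hr c hcF
  have n1 : m ≤ (univ.filter (fun j => d' j = c + 1)).card := by
    rw [Finset.filter_congr (fun i _ => hde i (c + 1) (by omega))]
    exact hr (c + 1) hcF1
  have m0 := cand_count d' h2d' P2 c (by omega)
  have m1 := cand_count d' h2d' P2 (c + 1) (by omega)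
  obtain ⟨R0, hR0T, R1, hR1T, c0, c1, hsep⟩ := pick_sep2 d'
    (2 * (2 * P.card + 1))
    (univ.filter (fun i => d' i = c ∧ ∃ ab, Cand d' P2 i ab))
    (univ.filter (fun i => d' i = c + 1 ∧ ∃ ab, Cand d' P2 i ab))
    (fun i hi => by have h5 := (Finset.mem_filter.1 hi).2.1; omega)
    (fun i hi => by have h5 := (Finset.mem_filter.1 hi).2.1; omega)
    (by omega) (by omega)
  have hex2 : ∀ i, i ∈ R0 ∪ R1 → ∃ ab, Cand d' P2 i ab := by
    intro i hi
    rcases Finset.mem_union.1 hi with h2 | h2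
    · exact (Finset.mem_filter.1 (hR0T h2)).2.2
    · exact (Finset.mem_filter.1 (hR1T h2)).2.2
  have hR0d : ∀ i ∈ R0, deg G (v i) = c := fun i hi =>
    (hde i c hc).1 (Finset.mem_filter.1 (hR0T hi)).2.1
  have hR1d : ∀ i ∈ R1, deg G (v i) = c + 1 := fun i hi =>
    (hde i (c + 1) (by omega)).1 (Finset.mem_filter.1 (hR1T hi)).2.1
  have hRP : ∀ i ∈ R0 ∪ R1, i ∉ P := by
    intro i hi hh
    obtain ⟨ab, g1, g2, g3, g4, g5⟩ := hex2 i hi
    exact g5 i (mP2 i hh) ⟨g1.1.le, g2.1.le⟩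
  have hRd : ∀ i ∈ R0 ∪ R1, 4 ≤ deg G (v i) := by
    intro i hi
    rcases Finset.mem_union.1 hi with h6 | h6
    · rw [hR0d i h6]; exact hc
    · rw [hR1d i h6]; omega
  have hnR : ∀ i ∈ R0 ∪ R1, a i = 2 ∧ b i = deg G (v i) - 2 := fun i hi =>
    (hn i (hnP i (hRP i hi)).1 (hnP i (hRP i hi)).2).2.2 (hnP i (hRP i hi)).2 (hRd i hi)
  have hR : Disjoint R0 R1 := by
    rw [Finset.disjoint_left]
    intro i h1 h2
    have := hR0d i h1
    have := hR1d i h2
    omega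
  set J := 2 * P.card + 1 with hJ
  have hsp : ∀ (z : Fin s → ℕ) k, cx z univ k = cx z (univ \ (R0 ∪ R1)) k +
      (cx z R0 k + cx z R1 k) := by
    intro z k
    rw [← cx_union hR]
    unfold cx
    exact (Finset.sum_sdiff (Finset.subset_univ (R0 ∪ R1))).symm
  have hparU : ∀ k, 2 ≤ k → (cx a (univ \ (R0 ∪ R1)) k + cx b (univ \ (R0 ∪ R1)) k) % 2 = 0 := by
    intro k hk
    have h1 := hpar k hk
    rw [hsp a, hsp b] at h1
    have g : ∀ (R : Finset (Fin s)) (z : Fin s → ℕ) (e : ℕ), R.card = 2 * J → (∀ i ∈ R, z i = e) →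
        (cx z R k) % 2 = 0 := by
      intro R z e hRc hz
      unfold cx
      rw [Finset.sum_congr rfl (fun i hi => by rw [hz i hi]), Finset.sum_const, hRc, smul_eq_mul,
        Nat.mul_assoc]
      exact Nat.mul_mod_right 2 _
    have g1 := g R0 a 2 c0 (fun i hi => (hnR i (Finset.mem_union_left _ hi)).1)
    have g2 := g R0 b (c - 2) c0 (fun i hi => by
      rw [(hnR i (Finset.mem_union_left _ hi)).2, hR0d i hi])
    have g3 := g R1 a 2 c1 (fun i hi => (hnR i (Finset.mem_union_right _ hi)).1)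
    have g4 := g R1 b (c + 1 - 2) c1 (fun i hi => by
      rw [(hnR i (Finset.mem_union_right _ hi)).2, hR1d i hi])
    omega
  have hzU : ∀ z, d z = 2 → z ∈ univ \ (R0 ∪ R1) := by
    intro z hz
    refine Finset.mem_sdiff.2 ⟨Finset.mem_univ _, fun hh => ?_⟩
    have h5 : 4 ≤ d z := hRd z hh
    omega
  obtain ⟨P', x, y, o1, o2, o3, o4, o5, o6, o7, o8⟩ := hor (univ \ (R0 ∪ R1)) (hzU z1 hz1)
    (hzU z2 hz2) hparU
  have : Nonempty (Fin s × Fin s) := ⟨(⟨0, hs⟩, ⟨0, hs⟩)⟩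
  choose! f hf using hex2
  refine cons_or4 h hev P' x y o8 o4 o5 (hnO P' x y o6) c hc R0 R1 o7
    hR0d hR1d (by rw [o1]; exact c0) (by rw [o1]; exact c1) (fun i => (f i).1)
    (fun i => (f i).2) (fun i hi => ?_) (fun i hi j hj hij => ?_)
  · obtain ⟨g1, g2, g3, g4, g5⟩ := hf i hi
    refine ⟨g1.1, g2.1, g3, g4, hd4 _ g1.2.1, hd4 _ g2.2.2.1,
      fun k k1 k2 => hd2 _ (g1.2.2.2 k k1 k2), fun k k1 k2 => hd2 _ (g2.2.2.2 k k1 k2),
      fun q' hq' => g5 q' ?_⟩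
    rcases o2 q' hq' with h5 | h5
    · exact mP2 q' h5
    · rw [h5]; exact mz2
  · have hord : ∀ i ∈ R0 ∪ R1, ∀ j ∈ R0 ∪ R1, nu d' i + 2 ≤ nu d' j → (f i).2 ≤ (f j).1 := by
      intro i hi j hj hn2
      obtain ⟨k, k1, k2, k3⟩ := nu_between d' hn2
      obtain ⟨_, g2, _⟩ := hf i hi
      obtain ⟨g1, _⟩ := hf j hj
      have e1 : (f i).2 ≤ k := by
        by_contra hh
        have h5 : d' k = 2 := g2.2.2.2 k k1 (not_le.1 hh)
        omega
      have e2 : k ≤ (f j).1 := by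
        by_contra hh
        have h5 : d' k = 2 := g1.2.2.2 k (not_le.1 hh) k2
        omega
      exact e1.trans e2
    rcases hsep i hi j hj hij with h2 | h2
    · exact Or.inl (hord i hi j hj h2)
    · exact Or.inr (hord j hj i hi h2)

/-- frequent values and isolated other spine vertices: the dual condition is sufficient -/
theorem rare_iso2 {G : SimpleGraph V} {s : ℕ} {v : Fin s → V} (h : IsSpine G v) (hs : 0 < s)
    (hev : Even G.edgeSet.ncard) (M m : ℕ) (F : Finset ℕ) (hMF : M ∈ F)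
    (hF : ∀ e ∈ F, e ≤ M ∧ m ≤ {i | deg G (v i) = e}.ncard)
    (hm : 100 * (M + {i | deg G (v i) ∉ F}.ncard + 1) ≤ m)
    (hc : 3 ∈ F ∨ (∃ c ∈ F, c + 1 ∈ F) ∨ 2 ∉ F ∨ m ≤ 5 * {i : Fin s | 3 < deg G (v i) ∧
      ∃ j : Fin s, (j : ℕ) = i + 1 ∧ 3 < deg G (v j)}.ncard)
    (hiso : ∀ i j : Fin s, i < j → deg G (v i) ∉ F → deg G (v j) ∉ F →
      ∃ k, i < k ∧ k < j ∧ 2 < deg G (v k) ∧ deg G (v k) ∈ F)
    (u : Fin s → ℕ) (hule : ∀ i, u i ≤ deg G (v i))
    (hdual : ∀ f : ℕ → ZMod 2, f 0 = 0 → f 1 = 0 →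
      (∀ e ∈ F, ∀ k, k ≤ e → f k + f (e - k) = f e) →
      ∑ i, (if deg G (v i) ∈ F then f (deg G (v i)) else f (u i) + f (deg G (v i) - u i)) = 0) :
    Splittable G := by
  classical
  by_cases h2F : 2 ∈ F
  · set Ra : Finset (Fin s) := univ.filter (fun i => deg G (v i) ∉ F) with hRa
    have hRam : ∀ i, i ∈ Ra ↔ deg G (v i) ∉ F := by intro i; rw [hRa]; simp
    have hRac : {i | deg G (v i) ∉ F}.ncard = Ra.card := by
      rw [Set.ncard_eq_toFinset_card']
      congr 1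
      ext i
      simp [hRa]
    rw [hRac] at hm
    have hr : ∀ e ∈ F, m ≤ (univ.filter (fun j => deg G (v j) = e)).card := by
      intro e he
      have h1 := (hF e he).2
      rw [Set.ncard_eq_toFinset_card'] at h1
      refine h1.trans (Finset.card_le_card (fun j hj => ?_))
      rw [Set.mem_toFinset] at hj
      exact Finset.mem_filter.2 ⟨Finset.mem_univ _, hj⟩
    have hF2 : ∀ e ∈ F, 2 ≤ e := by
      intro e he
      have h1 := hr e he
      obtain ⟨i, hi⟩ := Finset.card_pos.1 (lt_of_lt_of_le (by omega) h1)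
      have h3 := h.two i
      have h4 := (Finset.mem_filter.1 hi).2
      omega
    by_cases h3F : 3 ∈ F
    · refine rare_two3 h hs hev M m F h2F h3F hF2 (fun e he => (hF e he).1) Ra hRam
        (by omega) hr (fun i hi j hj hij => ?_) u hule hdual
      obtain ⟨k, k1, k2, k3, _⟩ := hiso i j hij ((hRam i).1 hi) ((hRam j).1 hj)
      exact ⟨k, k1, k2, k3⟩
    · refine rare_two5 h hs hev M m F h2F h3F hF2 (fun e he => (hF e he).1) Ra hRam
        (by omega) hr ?_ (fun i hi j hj hij => ?_) u hule hdual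
      · rcases hc with h1 | h1 | h1 | h1
        · exact absurd h1 h3F
        · exact Or.inl h1
        · exact absurd h2F h1
        · right
          omega
      obtain ⟨k, k1, k2, k3, k4⟩ := hiso i j hij ((hRam i).1 hi) ((hRam j).1 hj)
      have k5 : deg G (v k) ≠ 3 := fun hh => h3F (hh ▸ k4)
      exact ⟨k, k1, k2, by omega⟩
  · refine (rare_iff h hs M F ⟨M, hMF⟩ h2F (fun e he => (hF e he).1)
      (fun e he => le_trans (by omega) (le_trans hm (hF e he).2)) (fun i j hij => ?_)).2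
      ⟨hev, u, hule, hdual⟩
    by_contra hno
    rw [not_or] at hno
    obtain ⟨k, k1, k2, _⟩ := hiso i j (by show (i : ℕ) < j; omega) hno.1 hno.2
    have k1' : (i : ℕ) < k := k1
    have k2' : (k : ℕ) < j := k2
    omega

end Pool.Agent.W_e8e3a0
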