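import Pool.Agent.W_e8e3a0.ShortM49

namespace Pool.Agent.W_e8e3a0

open Finset Num49

theorem count_map {V : Type} [Fintype V] (f : V → ℕ) (k : ℕ) :
    (Multiset.map f Finset.univ.val).count k = ∑ i, if f i = k then 1 else 0 := by
  classical
  rw [Multiset.count_map]
  have : (Multiset.filter (fun a => k = f a) univ.val).card =
    (Finset.univ.filter (fun a => k = f a)).card := rfl
  rw [this, Finset.card_filter]
  exact Finset.sum_congr rfl (fun i _ => if_congr eq_comm rfl rfl)

theorem count_deg {V : Type} [Fintype V] {G : SimpleGraph V} {v : Fin 3 → V} (h : IsSpine G v)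
    (k : ℕ) : (Multiset.map (deg G) Finset.univ.val).count k =
      ((if deg G (v 0) = k then 1 else 0) + (if deg G (v 1) = k then 1 else 0) +
        (if deg G (v 2) = k then 1 else 0)) + (offSpine v).card * (if 1 = k then 1 else 0) := by
  classical
  rw [count_map, sum_split h.inj, Fin.sum_univ_three,
    Finset.sum_congr rfl (fun u hu => by rw [deg_leaf h hu])]
  simp

/-- two orders of the same spine degrees -/
theorem order (p q : ℕ) (hp : 2 ≤ p) (hpq : p < q) (ho : Odd p ∨ Odd q) :
    ∃ (V V' : Type) (_ : Fintype V) (_ : Fintype V') (G : SimpleGraph V) (G' : SimpleGraph V')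
      (v : Fin 3 → V) (v' : Fin 3 → V'), IsSpine G v ∧ IsSpine G' v' ∧
      (deg G (v 0) = p ∧ deg G (v 1) = p + q ∧ deg G (v 2) = q) ∧
      (deg G' (v' 0) = p + q ∧ deg G' (v' 1) = p ∧ deg G' (v' 2) = q) ∧
      Multiset.map (deg G) Finset.univ.val = Multiset.map (deg G') Finset.univ.val ∧
      Splittable G ∧ ¬ Splittable G' := by
  obtain ⟨V, hV, G, v, h, hd⟩ := exists_cat 3 (fun i => if i = 0 then p else
    if i = 1 then p + q else q) (fun i => by split_ifs <;> omega)
  obtain ⟨V', hV', G', v', h', hd'⟩ := exists_cat 3 (fun i => if i = 0 then p + q else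
    if i = 1 then p else q) (fun i => by split_ifs <;> omega)
  have a0 : deg G (v 0) = p := by rw [hd]; rfl
  have a1 : deg G (v 1) = p + q := by rw [hd]; rfl
  have a2 : deg G (v 2) = q := by rw [hd]; rfl
  have b0 : deg G' (v' 0) = p + q := by rw [hd']; rfl
  have b1 : deg G' (v' 1) = p := by rw [hd']; rfl
  have b2 : deg G' (v' 2) = q := by rw [hd']; rfl
  refine ⟨V, V', hV, hV', G, G', v, v', h, h', ⟨a0, a1, a2⟩, ⟨b0, b1, b2⟩, ?_, ?_, ?_⟩
  · have s1 := sum_spine h
    have s2 := sum_spine h'
    rw [Fin.sum_univ_three, a0, a1, a2] at s1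
    rw [Fin.sum_univ_three, b0, b1, b2] at s2
    have s3 : (offSpine v).card = (offSpine v').card := by omega
    ext k
    rw [count_deg h, count_deg h', a0, a1, a2, b0, b1, b2, s3]
    omega
  · exact split_sum h (by rw [a0, a1, a2])
  · intro hG
    obtain ⟨_, hc⟩ := (short_three h').1 hG
    rw [Fin.sum_univ_three, b0, b1, b2] at hc
    rcases hc with hc | ⟨i, j, hij, hoi, hdij⟩ | hc | hc
    · have c1 := hc 1
      have c2 := hc 2
      rw [b1] at c1
      rw [b2] at c2
      rcases ho with ho | ho
      · exact Nat.not_even_iff_odd.2 ho c1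
      · exact Nat.not_even_iff_odd.2 ho c2
    · have key : ∀ i j : Fin 3, i ≠ j → deg G' (v' i) ≠ deg G' (v' j) := by
        intro i j hij
        rw [hd', hd']
        fin_cases i <;> fin_cases j <;> first | exact absurd rfl hij | (simp; omega)
      exact key i j hij hdij
    · have := hc 0
      rw [b0] at this
      omega
    · omega

end Pool.Agent.W_e8e3a0
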