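import Pool.Agent.W_e8e3a0.FormZ49

namespace Pool.Agent.W_e8e3a0

open Finset Num49

theorem cx_erase {I : Type} [DecidableEq I] {x : I → ℕ} {P : Finset I} {i : I} (hi : i ∈ P)
    (k : ℕ) : cx x P k = cx x (P.erase i) k + (if x i = k then 1 else 0) := by
  unfold cx
  rw [← Finset.sum_erase_add _ _ hi]

theorem cx_le_of_mem {I : Type} [DecidableEq I] {x : I → ℕ} {P : Finset I} {k : ℕ}
    (h : ∀ i ∈ P, x i ≠ k) : cx x P k = 0 := by
  unfold cx
  exact Finset.sum_eq_zero (fun i hi => if_neg (h i hi))

/-- Every even system of pairs has a balanced orientation. -/
theorem orient {I : Type} [DecidableEq I] : ∀ (n : ℕ) (P : Finset I) (a b : I → ℕ),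
    P.card = n → (∀ k, 2 ≤ k → (cx a P k + cx b P k) % 2 = 0) →
    ∃ x y : I → ℕ, (∀ i, (x i = a i ∧ y i = b i) ∨ (x i = b i ∧ y i = a i)) ∧
      ∀ k, 2 ≤ k → cx x P k = cx y P k := by
  intro n
  induction n with
  | zero =>
    intro P a b hP _
    rw [Finset.card_eq_zero] at hP
    subst hP
    exact ⟨a, b, fun i => Or.inl ⟨rfl, rfl⟩, fun k _ => rfl⟩
  | succ n ih =>
    intro P a b hP hpar
    by_cases hall : ∀ i ∈ P, a i < 2 ∧ b i < 2
    · refine ⟨a, b, fun i => Or.inl ⟨rfl, rfl⟩, fun k hk => ?_⟩
      rw [cx_le_of_mem (fun i hi => by have := hall i hi; omega),
        cx_le_of_mem (fun i hi => by have := hall i hi; omega)]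
    · push Not at hall
      obtain ⟨i, hi, hi2⟩ := hall
      -- the two ends of `i`
      obtain ⟨k, oi, hk2, hki⟩ : ∃ k oi, 2 ≤ k ∧ ((a i = k ∧ b i = oi) ∨ (b i = k ∧ a i = oi)) := by
        by_cases h : a i < 2
        · exact ⟨b i, a i, hi2 h, Or.inr ⟨rfl, rfl⟩⟩
        · exact ⟨a i, b i, by omega, Or.inl ⟨rfl, rfl⟩⟩
      have hii : ∀ t, (if a i = t then 1 else 0) + (if b i = t then 1 else 0) =
          (if k = t then 1 else 0) + (if oi = t then 1 else 0) := by
        intro t
        rcases hki with ⟨h1, h2⟩ | ⟨h1, h2⟩ <;> rw [h1, h2]
        exact add_comm _ _
      have hce : (P.erase i).card = n := by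
        rw [Finset.card_erase_of_mem hi, hP]; rfl
      by_cases hloop : oi = k
      · obtain ⟨x, y, hxy, hb⟩ := ih (P.erase i) a b hce (fun t ht => by
          have h1 := hpar t ht
          rw [cx_erase hi, cx_erase (x := b) hi] at h1
          have h2 := hii t
          rw [hloop] at h2
          omega)
        refine ⟨x, y, hxy, fun t ht => ?_⟩
        rw [cx_erase hi, cx_erase (x := y) hi, hb t ht]
        have h3 : x i = y i := by have := hxy i; omega
        rw [h3]
      · -- another pair with the end `k`
        obtain ⟨j, hj, hjk⟩ : ∃ j ∈ P.erase i, a j = k ∨ b j = k := by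
          by_contra hno
          push Not at hno
          have h1 := hpar k hk2
          rw [cx_erase hi, cx_erase (x := b) hi, cx_le_of_mem (fun j hj => (hno j hj).1),
            cx_le_of_mem (fun j hj => (hno j hj).2)] at h1
          have h2 := hii k
          rw [if_pos rfl, if_neg hloop] at h2
          omega
        obtain ⟨oj, hkj⟩ : ∃ oj, (a j = k ∧ b j = oj) ∨ (b j = k ∧ a j = oj) := by
          rcases hjk with h | h
          · exact ⟨b j, Or.inl ⟨h, rfl⟩⟩
          · exact ⟨a j, Or.inr ⟨h, rfl⟩⟩
        have hjj : ∀ t, (if a j = t then 1 else 0) + (if b j = t then 1 else 0) =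
            (if k = t then 1 else 0) + (if oj = t then 1 else 0) := by
          intro t
          rcases hkj with ⟨h1, h2⟩ | ⟨h1, h2⟩ <;> rw [h1, h2]
          exact add_comm _ _
        have hji : j ≠ i := (Finset.mem_erase.1 hj).1
        have hjP : j ∈ P := (Finset.mem_erase.1 hj).2
        have hiP' : i ∈ P.erase j := Finset.mem_erase.2 ⟨hji.symm, hi⟩
        have hcj : (P.erase j).card = n := by
          rw [Finset.card_erase_of_mem hjP, hP]; rfl
        have hco : ∀ (z z' : I → ℕ), (∀ t, t ≠ i → t ≠ j → z t = z' t) → ∀ t,
            cx z ((P.erase j).erase i) t = cx z' ((P.erase j).erase i) t := by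
          intro z z' hz t
          refine cx_congr (fun u hu => ?_) t
          exact hz u (Finset.mem_erase.1 hu).1 (Finset.mem_erase.1 (Finset.mem_erase.1 hu).2).1
        have hsplit : ∀ (z : I → ℕ) t, cx z P t = cx z ((P.erase j).erase i) t +
            (if z i = t then 1 else 0) + (if z j = t then 1 else 0) := by
          intro z t
          rw [cx_erase hjP, cx_erase hiP']
        have hsplit' : ∀ (z : I → ℕ) t, cx z (P.erase j) t = cx z ((P.erase j).erase i) t +
            (if z i = t then 1 else 0) := by
          intro z t
          rw [cx_erase hiP']
        obtain ⟨x, y, hxy, hb⟩ := ih (P.erase j) (fun t => if t = i then oi else a t)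
          (fun t => if t = i then oj else b t) hcj (fun t ht => by
            have h1 := hpar t ht
            rw [hsplit, hsplit] at h1
            rw [hsplit', hsplit', hco _ a (fun u hu _ => if_neg hu) t,
              hco _ b (fun u hu _ => if_neg hu) t]
            simp only [if_true]
            have h2 := hii t
            have h3 := hjj t
            omega)
        have hxi := hxy i
        simp only [if_true] at hxi
        rcases hxi with ⟨h1, h2⟩ | ⟨h1, h2⟩
        · refine ⟨fun t => if t = j then k else x t,
            fun t => if t = j then oj else (if t = i then k else y t), ?_, ?_⟩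
          · intro t
            dsimp only
            by_cases htj : t = j
            · rw [if_pos htj, if_pos htj, htj]; omega
            · rw [if_neg htj, if_neg htj]
              by_cases hti : t = i
              · rw [if_pos hti, hti]; omega
              · have := hxy t
                rw [if_neg hti]
                simp only [if_neg hti] at this
                exact this
          · intro t ht
            have h3 := hb t ht
            rw [hsplit', hsplit'] at h3
            have h4 := hco (fun t => if t = j then k else x t) x (fun u _ hu => if_neg hu) t
            have h5 := hco (fun t => if t = j then oj else (if t = i then k else y t)) y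
              (fun u hu hu' => by rw [if_neg hu', if_neg hu]) t
            rw [hsplit, hsplit, h4, h5]
            simp only [if_true, if_neg hji.symm]
            rw [h1, h2] at h3
            rw [h1]
            omega
        · refine ⟨fun t => if t = j then oj else (if t = i then k else x t),
            fun t => if t = j then k else y t, ?_, ?_⟩
          · intro t
            dsimp only
            by_cases htj : t = j
            · rw [if_pos htj, if_pos htj, htj]; omega
            · rw [if_neg htj, if_neg htj]
              by_cases hti : t = i
              · rw [if_pos hti, hti]; omega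
              · have := hxy t
                rw [if_neg hti]
                simp only [if_neg hti] at this
                exact this
          · intro t ht
            have h3 := hb t ht
            rw [hsplit', hsplit'] at h3
            have h4 := hco (fun t => if t = j then k else y t) y (fun u _ hu => if_neg hu) t
            have h5 := hco (fun t => if t = j then oj else (if t = i then k else x t)) x
              (fun u hu hu' => by rw [if_neg hu', if_neg hu]) t
            rw [hsplit, hsplit, h4, h5]
            simp only [if_true, if_neg hji.symm]
            rw [h1, h2] at h3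
            rw [h2]
            omega

end Pool.Agent.W_e8e3a0
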