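import Pool.Agent.W_e8e3a0.ParityM49

namespace Pool.Agent.W_e8e3a0

open Finset Num49

variable {V : Type} [Fintype V]

theorem r_eq {s : ℕ} (P : ℕ → Prop) [DecidablePred P] (i : Fin s) :
    (∑ j : Fin s, if ((i : ℕ) + 1 = j ∧ P i) ∨ ((j : ℕ) + 1 = i ∧ P j) then 1 else 0) =
      (if (i : ℕ) + 1 < s ∧ P i then 1 else 0) + (if 1 ≤ (i : ℕ) ∧ P (i - 1) then 1 else 0) := by
  have h1 : ∀ j : Fin s,
      (if ((i : ℕ) + 1 = j ∧ P i) ∨ ((j : ℕ) + 1 = i ∧ P j) then 1 else 0)
      = (if ((i : ℕ) + 1 = j ∧ P i) then 1 else 0) + (if ((j : ℕ) + 1 = i ∧ P j) then 1 else 0) := by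
    intro j
    by_cases a : ((i : ℕ) + 1 = j ∧ P i) <;> by_cases b : ((j : ℕ) + 1 = i ∧ P j)
    · omega
    · simp [a, b]
    · simp [a, b]
    · simp [a, b]
  rw [Finset.sum_congr rfl (fun j _ => h1 j), Finset.sum_add_distrib]
  congr 1
  · by_cases h : (i : ℕ) + 1 < s
    · rw [Finset.sum_eq_single ⟨i + 1, h⟩]
      · simp [h]
      · intro j _ hj
        rw [if_neg]
        rintro ⟨h4, _⟩
        exact hj (Fin.ext h4.symm)
      · intro hn; exact absurd (Finset.mem_univ _) hn
    · rw [if_neg (fun h4 => h h4.1)]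
      refine Finset.sum_eq_zero (fun j _ => if_neg ?_)
      rintro ⟨h4, _⟩
      have := j.2
      omega
  · by_cases h : 1 ≤ (i : ℕ)
    · have hi := i.2
      rw [Finset.sum_eq_single ⟨i - 1, by omega⟩]
      · have : (i : ℕ) - 1 + 1 = i := by omega
        simp [h, this]
      · intro j _ hj
        rw [if_neg]
        rintro ⟨h4, _⟩
        exact hj (Fin.ext (by simp only; omega))
      · intro hn; exact absurd (Finset.mem_univ _) hn
    · rw [if_neg (fun h4 => h h4.1)]
      refine Finset.sum_eq_zero (fun j _ => if_neg ?_)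
      rintro ⟨h4, _⟩
      omega

/-- splitting from a pattern of colours of the spine edges -/
theorem construct_pat {G : SimpleGraph V} {s : ℕ} {v : Fin s → V} (h : IsSpine G v)
    (x y : Fin s → ℕ) (hxy : ∀ i, x i + y i = deg G (v i)) (P : ℕ → Prop) [DecidablePred P]
    (hloc : ∀ i : Fin s, (if (i : ℕ) + 1 < s ∧ P i then 1 else 0) +
        (if 1 ≤ (i : ℕ) ∧ P (i - 1) then 1 else 0) ≤ x i ∧
      (if (i : ℕ) + 1 < s ∧ ¬ P i then 1 else 0) +
        (if 1 ≤ (i : ℕ) ∧ ¬ P (i - 1) then 1 else 0) ≤ y i)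
    (hbal : ∀ k, 2 ≤ k → cx x univ k = cx y univ k)
    (hZ : cx y univ 0 + (s - 1) = cx x univ 0 +
      2 * ∑ i ∈ range (s - 1), (if P i then 1 else 0)) : Splittable G := by
  refine construct_gen h x y hxy P ?_ hbal ?_
  · intro i
    rw [r_eq P i, r_eq (fun t => ¬ P t) i]
    exact hloc i
  · have := zero_diff hbal
    omega

/-- the count of the colours by pairs of edges at the odd positions -/
theorem pair_sum (f : ℕ → ℕ) (m : ℕ) :
    ∑ i ∈ range (2 * m), f i = ∑ j ∈ range m, (f (2 * j) + f (2 * j + 1)) := by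
  induction m with
  | zero => simp
  | succ m ih =>
    rw [show 2 * (m + 1) = 2 * m + 1 + 1 by ring, Finset.sum_range_succ, Finset.sum_range_succ, ih,
      Finset.sum_range_succ]
    ring

theorem odd_count (m w : ℕ) (hw : w < 2 * m + 1) :
    ∑ j ∈ range m, (if 2 * j + 1 = w then 1 else 0) = w % 2 := by
  rcases Nat.mod_two_eq_zero_or_one w with h | h
  · rw [h]
    exact Finset.sum_eq_zero (fun j _ => if_neg (by omega))
  · rw [h, Finset.sum_eq_single (w / 2)]
    · rw [if_pos (by omega)]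
    · intro j _ hj
      exact if_neg (by omega)
    · intro hn
      exact absurd (Finset.mem_range.2 (by omega)) hn

/-- colouring with two defects, `C` on both sides of `w` -/
def two (u w : ℕ) (t : ℕ) : Prop :=
  (t + (if u ≤ t then 1 else 0) + (if w ≤ t then 1 else 0) + w + (if u < w then 0 else 1)) % 2 = 0

instance (u w : ℕ) : DecidablePred (two u w) := fun t => by unfold two; infer_instance

theorem two_count_even (m u w : ℕ) (hu : u < 2 * m + 1) (hw : w < 2 * m + 1)
    (hp : (u + w) % 2 = 0) : ∑ t ∈ range (2 * m), (if two u w t then 1 else 0) = m := by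
  rw [pair_sum]
  have h1 : ∀ j ∈ range m, (if two u w (2 * j) then 1 else 0) +
      (if two u w (2 * j + 1) then 1 else 0) + (if 2 * j + 1 = u then 1 else 0) =
      1 + (if 2 * j + 1 = w then 1 else 0) := by
    intro j _
    unfold two
    split_ifs <;> omega
  have h2 := Finset.sum_congr rfl h1
  rw [Finset.sum_add_distrib, Finset.sum_add_distrib (f := fun _ => 1), odd_count m u hu,
    odd_count m w hw, Finset.sum_const, Finset.card_range, smul_eq_mul, mul_one] at h2
  omega

theorem two_count_odd (m u w : ℕ) (hu : u < 2 * m + 1) (hw : w < 2 * m + 1)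
    (hp : (u + w) % 2 = 1) : ∑ t ∈ range (2 * m), (if two u w t then 1 else 0) = m + 1 := by
  rw [pair_sum]
  have h1 : ∀ j ∈ range m, (if two u w (2 * j) then 1 else 0) +
      (if two u w (2 * j + 1) then 1 else 0) =
      1 + ((if 2 * j + 1 = u then 1 else 0) + (if 2 * j + 1 = w then 1 else 0)) := by
    intro j _
    unfold two
    split_ifs <;> omega
  rw [Finset.sum_congr rfl h1, Finset.sum_add_distrib, Finset.sum_add_distrib, odd_count m u hu,
    odd_count m w hw, Finset.sum_const, Finset.card_range, smul_eq_mul, mul_one]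
  omega

/-- colouring with three defects -/
def three (u w p : ℕ) (t : ℕ) : Prop :=
  (t + (if u ≤ t then 1 else 0) + (if w ≤ t then 1 else 0) + (if p ≤ t then 1 else 0) + w + 1) % 2
    = 0

instance (u w p : ℕ) : DecidablePred (three u w p) := fun t => by unfold three; infer_instance

theorem three_count (m u w p : ℕ) (hu : u < 2 * m + 1) (hp : p < 2 * m + 1)
    (hbt : (u < p ∧ p < w) ∨ (w < p ∧ p < u)) (h1 : u % 2 = 1) (h2 : w % 2 = 0) (h3 : p % 2 = 1) :
    ∑ t ∈ range (2 * m), (if three u w p t then 1 else 0) = m := by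
  rw [pair_sum]
  have h1 : ∀ j ∈ range m, (if three u w p (2 * j) then 1 else 0) +
      (if three u w p (2 * j + 1) then 1 else 0) + (if 2 * j + 1 = u then 1 else 0) =
      1 + (if 2 * j + 1 = p then 1 else 0) := by
    intro j _
    unfold three
    split_ifs <;> omega
  have h2 := Finset.sum_congr rfl h1
  rw [Finset.sum_add_distrib, Finset.sum_add_distrib (f := fun _ => 1), odd_count m u hu,
    odd_count m p hp, Finset.sum_const, Finset.card_range, smul_eq_mul, mul_one] at h2
  omega

/-- colouring by pairs at the odd positions -/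
def prs (u w p : ℕ) (t : ℕ) : Prop :=
  (t % 2 = 0 ∧ (t + 1 = w ∨ (t + 1 < u ∧ t + 1 ≠ p))) ∨ (t % 2 = 1 ∧ (t = w ∨ (u < t ∧ t ≠ p)))

instance (u w p : ℕ) : DecidablePred (prs u w p) := fun t => by unfold prs; infer_instance

theorem prs_count (m u w p : ℕ) (hw : w < 2 * m + 1) (hp : p < 2 * m + 1) (hwp : w ≠ p)
    (h1 : u % 2 = 0) (h2 : w % 2 = 1) (h3 : p % 2 = 1) :
    ∑ t ∈ range (2 * m), (if prs u w p t then 1 else 0) = m := by
  rw [pair_sum]
  have h1 : ∀ j ∈ range m, (if prs u w p (2 * j) then 1 else 0) +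
      (if prs u w p (2 * j + 1) then 1 else 0) + (if 2 * j + 1 = p then 1 else 0) =
      1 + (if 2 * j + 1 = w then 1 else 0) := by
    intro j _
    have a1 : prs u w p (2 * j) ↔ (2 * j + 1 = w ∨ (2 * j + 1 < u ∧ 2 * j + 1 ≠ p)) := by
      unfold prs; omega
    have a2 : prs u w p (2 * j + 1) ↔ (2 * j + 1 = w ∨ (u < 2 * j + 1 ∧ 2 * j + 1 ≠ p)) := by
      unfold prs; omega
    rw [if_congr a1 rfl rfl, if_congr a2 rfl rfl]
    by_cases c1 : 2 * j + 1 = w
    · rw [if_pos (Or.inl c1), if_pos (Or.inl c1), if_neg (by omega), if_pos c1]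
    · by_cases c2 : 2 * j + 1 = p
      · rw [if_neg (by omega), if_neg (by omega), if_pos c2, if_neg c1]
      · by_cases c3 : 2 * j + 1 < u
        · rw [if_pos (Or.inr ⟨c3, c2⟩), if_neg (by omega), if_neg c2, if_neg c1]
        · rw [if_neg (by omega), if_pos (Or.inr ⟨by omega, c2⟩), if_neg c2, if_neg c1]
  have h2 := Finset.sum_congr rfl h1
  rw [Finset.sum_add_distrib, Finset.sum_add_distrib (f := fun _ => 1), odd_count m w hw,
    odd_count m p hp, Finset.sum_const, Finset.card_range, smul_eq_mul, mul_one] at h2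
  omega

end Pool.Agent.W_e8e3a0
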