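import Pool.Agent.W_e8e3a0.Closed49

namespace Pool.Agent.W_e8e3a0.Num49

open Finset

variable {I : Type} [DecidableEq I]

/-- one pair `(a, b)`: from `q` to `q + d b - d a` -/
theorem seg_pair {d : I → ℕ} {a b : I} (hab : a ≠ b) {q z : ℕ} (hq : 1 ≤ q) (h1 : q + 1 ≤ d a)
    (h2 : q + d b = z + d a) : Seg d {a, b} q z := by
  have e : ({a, b} : Finset I) = {a} ∪ {b} := rfl
  rw [e]
  exact Seg.trans (r := d a - q) (by omega) (seg_one (by omega) hq) (seg_one (by omega) (by omega))
    (by simpa using hab)

variable {J : Type} [DecidableEq J]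

/-- the union of the pairs with index in `T` -/
def pairs (α β : J → I) (T : Finset J) : Finset I := T.image α ∪ T.image β

theorem pairs_split {α β : J → I} {T : Finset J} {j : J} (hj : j ∈ T) :
    pairs α β T = {α j, β j} ∪ pairs α β (T.erase j) := by
  ext i
  simp only [pairs, Finset.mem_union, Finset.mem_image, Finset.mem_insert, Finset.mem_singleton,
    Finset.mem_erase]
  constructor
  · rintro (⟨t, ht, rfl⟩ | ⟨t, ht, rfl⟩)
    · by_cases h : t = j
      · subst h; exact Or.inl (Or.inl rfl)
      · exact Or.inr (Or.inl ⟨t, ⟨h, ht⟩, rfl⟩)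
    · by_cases h : t = j
      · subst h; exact Or.inl (Or.inr rfl)
      · exact Or.inr (Or.inr ⟨t, ⟨h, ht⟩, rfl⟩)
  · rintro ((rfl | rfl) | ⟨t, ⟨_, ht⟩, rfl⟩ | ⟨t, ⟨_, ht⟩, rfl⟩)
    · exact Or.inl ⟨j, hj, rfl⟩
    · exact Or.inr ⟨j, hj, rfl⟩
    · exact Or.inl ⟨t, ht, rfl⟩
    · exact Or.inr ⟨t, ht, rfl⟩

theorem pairs_disj {α β : J → I} {T : Finset J} {j : J} (hj : j ∈ T)
    (hα : Function.Injective α) (hβ : Function.Injective β) (hαβ : ∀ s t, α s ≠ β t) :
    Disjoint ({α j, β j} : Finset I) (pairs α β (T.erase j)) := by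
  rw [Finset.disjoint_left]
  intro i hi hi2
  simp only [pairs, Finset.mem_union, Finset.mem_image, Finset.mem_insert, Finset.mem_singleton,
    Finset.mem_erase] at hi hi2
  rcases hi with rfl | rfl
  · rcases hi2 with ⟨t, ⟨h, _⟩, h'⟩ | ⟨t, ⟨h, _⟩, h'⟩
    · exact h (hα h')
    · exact hαβ _ _ h'.symm
  · rcases hi2 with ⟨t, ⟨h, _⟩, h'⟩ | ⟨t, ⟨h, _⟩, h'⟩
    · exact hαβ _ _ h'
    · exact h (hβ h')

/-- greedy step lemma -/
theorem seg_pairs {d : I → ℕ} {α β : J → I} (hα : Function.Injective α)
    (hβ : Function.Injective β) (hαβ : ∀ s t, α s ≠ β t) (δ z : ℕ)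
    (hd : ∀ j, δ ≤ d (α j) ∧ δ ≤ d (β j)) (hz : z = 0 ∨ (δ ≤ z ∧ ∀ j, z ≤ d (α j))) :
    ∀ (n : ℕ) (T : Finset J), T.card = n → ∀ q, 1 ≤ q →
      (q ≤ δ ∨ ∀ j ∈ T, d (α j) < d (β j)) →
      (∀ j ∈ T, d (α j) ≠ d (β j)) →
      (∀ i ∈ T, ∀ j ∈ T, d (α i) < d (β i) → d (β j) < d (α j) →
        d (β i) + d (α j) ≤ δ + d (α i) + d (β j)) →
      q + ∑ j ∈ T, d (β j) = z + ∑ j ∈ T, d (α j) →
      Seg d (pairs α β T) q z := by
  intro n
  induction n with
  | zero =>
    intro T hT q hq _ _ _ hsum
    have : T = ∅ := Finset.card_eq_zero.1 hT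
    subst this
    simp only [Finset.sum_empty, add_zero] at hsum
    subst hsum
    have : pairs α β (∅ : Finset J) = ∅ := by simp [pairs]
    rw [this]
    exact seg_empty d q
  | succ n ih =>
    intro T hT q hq hinv hne hwin hsum
    -- it is enough to find a good pair
    have main : ∀ j ∈ T, q + 1 ≤ d (α j) → (T.erase j = ∅ ∨ d (α j) + 1 ≤ q + d (β j)) →
        (q + d (β j) ≤ δ + d (α j) ∨ ∀ i ∈ T.erase j, d (α i) < d (β i)) →
        Seg d (pairs α β T) q z := by
      intro j hj h1 h2 h3
      have hc : (T.erase j).card = n := by rw [Finset.card_erase_of_mem hj, hT]; rfl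
      have hs1 := Finset.add_sum_erase T (fun j => d (β j)) hj
      have hs2 := Finset.add_sum_erase T (fun j => d (α j)) hj
      rw [pairs_split hj]
      rcases h2 with h2 | h2
      · rw [h2] at hs1 hs2 ⊢
        simp only [Finset.sum_empty, add_zero] at hs1 hs2
        have : pairs α β (∅ : Finset J) = ∅ := by simp [pairs]
        rw [this, Finset.union_empty]
        exact seg_pair (hαβ _ _) hq h1 (by omega)
      · have hle : d (α j) ≤ q + d (β j) := by omega
        refine Seg.trans (r := q + d (β j) - d (α j)) (by omega)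
          (seg_pair (hαβ _ _) hq h1 (by omega)) ?_ (pairs_disj hj hα hβ hαβ)
        refine ih _ hc _ (by omega) ?_ (fun i hi => hne i (Finset.mem_of_mem_erase hi))
          (fun i hi i' hi' => hwin i (Finset.mem_of_mem_erase hi) i' (Finset.mem_of_mem_erase hi'))
          (by omega)
        rcases h3 with h3 | h3
        · left; omega
        · exact Or.inr h3
    have hTne : T.Nonempty := by
      rw [← Finset.card_pos]; omega
    by_cases hneg : ∃ j ∈ T, d (β j) < d (α j)
    · obtain ⟨j, hj, hjn⟩ := hneg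
      have hqδ : q ≤ δ := by
        rcases hinv with h | h
        · exact h
        · have := h j hj; omega
      by_cases hpos : ∃ i ∈ T, d (α i) < d (β i)
      · obtain ⟨i, hi, hip⟩ := hpos
        by_cases hθ : ∃ j ∈ T, d (β j) < d (α j) ∧ q + d (β j) ≤ d (α j)
        · obtain ⟨j', hj', hj'n, hqj⟩ := hθ
          have hw := hwin i hi j' hj' hip hj'n
          have h1 := (hd i).1
          exact main i hi (by omega) (Or.inr (by omega)) (Or.inl (by omega))
        · push Not at hθ
          have h1 := hθ j hj hjn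
          have h2 := (hd j).2
          exact main j hj (by omega) (Or.inr (by omega)) (Or.inl (by omega))
      · push Not at hpos
        have hall : ∀ i ∈ T, d (β i) < d (α i) := fun i hi =>
          lt_of_le_of_ne (hpos i hi) (Ne.symm (hne i hi))
        have hlt : ∑ i ∈ T, d (β i) < ∑ i ∈ T, d (α i) := Finset.sum_lt_sum_of_nonempty hTne hall
        rcases hz with hz | hz
        · subst hz
          have h2 := (hd j).2
          refine main j hj (by omega) ?_ (Or.inl (by omega))
          by_cases hem : T.erase j = ∅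
          · exact Or.inl hem
          · right
            have hs1 := Finset.add_sum_erase T (fun j => d (β j)) hj
            have hs2 := Finset.add_sum_erase T (fun j => d (α j)) hj
            have hlt2 : ∑ i ∈ T.erase j, d (β i) < ∑ i ∈ T.erase j, d (α i) :=
              Finset.sum_lt_sum_of_nonempty (Finset.nonempty_of_ne_empty hem)
                (fun i hi => hall i (Finset.mem_of_mem_erase hi))
            omega
        · exfalso; omega
    · push Not at hneg
      have hall : ∀ i ∈ T, d (α i) < d (β i) := fun i hi =>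
        lt_of_le_of_ne (hneg i hi) (hne i hi)
      have hlt : ∑ i ∈ T, d (α i) < ∑ i ∈ T, d (β i) := Finset.sum_lt_sum_of_nonempty hTne hall
      obtain ⟨j, hj⟩ := hTne
      rcases hz with hz | ⟨hz1, hz2⟩
      · exfalso; omega
      · have hs1 := Finset.add_sum_erase T (fun j => d (β j)) hj
        have hs2 := Finset.add_sum_erase T (fun j => d (α j)) hj
        have hle2 : ∑ i ∈ T.erase j, d (α i) ≤ ∑ i ∈ T.erase j, d (β i) :=
          Finset.sum_le_sum (fun i hi => (hall i (Finset.mem_of_mem_erase hi)).le)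
        have h3 := hz2 j
        have h4 := hall j hj
        exact main j hj (by omega) (Or.inr (by omega))
          (Or.inr (fun i hi => hall i (Finset.mem_of_mem_erase hi)))

end Pool.Agent.W_e8e3a0.Num49
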