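import Pool.Agent.W_e8e3a0.Path49

namespace Pool.Agent.W_e8e3a0.Num49

open Finset

variable {I : Type} [DecidableEq I]

theorem exists_enum' (d : I → ℕ) (P : Finset I) (n : ℕ) (h : n = P.card) :
    ∃ e : Fin n ≃ P, ∀ i j : Fin n, i ≤ j → d (e i) ≤ d (e j) := by
  subst h
  exact exists_enum d P

theorem seg_sorted {d : I → ℕ} (δ z : ℕ) (hδ : 1 ≤ δ) {A B : Finset I} (hAB : Disjoint A B)
    (hcard : A.card = B.card) (hwin : ∀ i ∈ A ∪ B, δ ≤ d i ∧ d i ≤ 2 * δ)
    (hne : ∀ a ∈ A, ∀ b ∈ B, d a ≠ d b) (hz : z = 0 ∨ (δ ≤ z ∧ ∀ a ∈ A, z ≤ d a))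
    (hsum : 1 + ∑ i ∈ B, d i = z + ∑ i ∈ A, d i) : Seg d (A ∪ B) 1 z := by
  obtain ⟨eA, hA⟩ := exists_enum d A
  obtain ⟨eB', hB'⟩ := exists_enum' d B A.card hcard
  let α : Fin A.card → I := fun j => (eA j : I)
  let β : Fin A.card → I := fun j => (eB' j : I)
  have hα : Function.Injective α := fun i j h => eA.injective (Subtype.ext h)
  have hβ : Function.Injective β := fun i j h => eB'.injective (Subtype.ext h)
  have hαm : ∀ j, α j ∈ A := fun j => (eA j).2
  have hβm : ∀ j, β j ∈ B := fun j => (eB' j).2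
  have hαw : ∀ j, δ ≤ d (α j) ∧ d (α j) ≤ 2 * δ := fun j =>
    hwin _ (Finset.mem_union_left _ (hαm j))
  have hβw : ∀ j, δ ≤ d (β j) ∧ d (β j) ≤ 2 * δ := fun j =>
    hwin _ (Finset.mem_union_right _ (hβm j))
  have hp : pairs α β Finset.univ = A ∪ B := by
    unfold pairs
    congr 1
    · ext i
      simp only [Finset.mem_image, Finset.mem_univ, true_and]
      constructor
      · rintro ⟨j, rfl⟩; exact hαm j
      · intro hi; exact ⟨eA.symm ⟨i, hi⟩, by simp [α]⟩
    · ext i
      simp only [Finset.mem_image, Finset.mem_univ, true_and]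
      constructor
      · rintro ⟨j, rfl⟩; exact hβm j
      · intro hi; exact ⟨eB'.symm ⟨i, hi⟩, by simp [β]⟩
  have hsA : ∑ j, d (α j) = ∑ i ∈ A, d i := by
    rw [← Finset.sum_coe_sort A, ← Equiv.sum_comp eA]
  have hsB : ∑ j, d (β j) = ∑ i ∈ B, d i := by
    rw [← Finset.sum_coe_sort B, ← Equiv.sum_comp eB']
  rw [← hp]
  refine seg_pairs hα hβ (fun s t h => ?_) δ z (fun j => ⟨(hαw j).1, (hβw j).1⟩) ?_ _ _ rfl 1
    le_rfl (Or.inl hδ) (fun j _ => hne _ (hαm j) _ (hβm j)) ?_ ?_
  · exact (Finset.disjoint_left.1 hAB) (hαm s) (h ▸ hβm t)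
  · rcases hz with hz | ⟨h1, h2⟩
    · exact Or.inl hz
    · exact Or.inr ⟨h1, fun j => h2 _ (hαm j)⟩
  · intro i _ j _ hi hj
    rcases le_total i j with hij | hij
    · have h1 : d (β i) ≤ d (β j) := hB' i j hij
      have h2 := hαw i
      have h3 := hαw j
      omega
    · have h1 : d (α j) ≤ d (α i) := hA j i hij
      have h2 := hβw i
      have h3 := hβw j
      omega
  · rw [hsA, hsB]; exact hsum

theorem seg_main {d : I → ℕ} (δ : ℕ) (hδ : 2 ≤ δ) : ∀ (n : ℕ) (A B : Finset I), B.card = n →
    Disjoint A B → (A.card = B.card ∨ A.card = B.card + 1) →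
    (∀ i ∈ A ∪ B, δ ≤ d i ∧ d i ≤ 2 * δ) → (∑ i ∈ A, d i = ∑ i ∈ B, d i + 1) →
    Seg d (A ∪ B) 1 0 := by
  intro n
  induction n using Nat.strong_induction_on with
  | _ n ih =>
  intro A B hn hAB hcard hwin hsum
  by_cases hex : ∃ a ∈ A, ∃ b ∈ B, d a = d b
  · obtain ⟨a, ha, b, hb, hd⟩ := hex
    have hab : a ≠ b := by rintro rfl; exact (Finset.disjoint_left.1 hAB) ha hb
    have hcA := Finset.card_erase_add_one ha
    have hcB := Finset.card_erase_add_one hb
    have hsA := Finset.add_sum_erase A d ha
    have hsB := Finset.add_sum_erase B d hb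
    have hsub : ∀ i ∈ A.erase a ∪ B.erase b, i ∈ A ∪ B := by
      intro i hi
      rcases Finset.mem_union.1 hi with h | h
      · exact Finset.mem_union_left _ (Finset.mem_of_mem_erase h)
      · exact Finset.mem_union_right _ (Finset.mem_of_mem_erase h)
    have hs := ih (B.erase b).card (by omega) (A.erase a) (B.erase b) rfl
      (Finset.disjoint_of_subset_left (Finset.erase_subset _ _)
        (Finset.disjoint_of_subset_right (Finset.erase_subset _ _) hAB)) (by omega)
      (fun i hi => hwin i (hsub i hi)) (by omega)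
    have h3 : A ∪ B = (A.erase a ∪ B.erase b) ∪ {a, b} := by
      ext i
      by_cases h1 : i = a
      · simp [h1, ha]
      · by_cases h2 : i = b
        · simp [h2, hb]
        · simp [h1, h2]
    rw [h3]
    refine hs.good (good_pair hab hd ?_) ?_
    · have := (hwin a (Finset.mem_union_left _ ha)).1; omega
    · rw [Finset.disjoint_right]
      intro i hi hi2
      simp only [Finset.mem_insert, Finset.mem_singleton] at hi
      rcases hi with rfl | rfl
      · rcases Finset.mem_union.1 hi2 with h | h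
        · simp at h
        · exact (Finset.disjoint_left.1 hAB) ha (Finset.mem_of_mem_erase h)
      · rcases Finset.mem_union.1 hi2 with h | h
        · exact (Finset.disjoint_left.1 hAB) (Finset.mem_of_mem_erase h) hb
        · simp at h
  · push Not at hex
    rcases hcard with hcard | hcard
    · exact seg_sorted δ 0 (by omega) hAB hcard hwin hex (Or.inl rfl) (by omega)
    · have hAne : A.Nonempty := by rw [← Finset.card_pos]; omega
      obtain ⟨w, hw, hmin⟩ := Finset.exists_min_image A d hAne
      have hcA := Finset.card_erase_add_one hw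
      have hsA := Finset.add_sum_erase A d hw
      have hwδ := (hwin w (Finset.mem_union_left _ hw)).1
      have h1 := seg_sorted (d := d) δ (d w) (by omega) (A := A.erase w) (B := B)
        (Finset.disjoint_of_subset_left (Finset.erase_subset _ _) hAB) (by omega)
        (fun i hi => hwin i (by
          rcases Finset.mem_union.1 hi with h | h
          · exact Finset.mem_union_left _ (Finset.mem_of_mem_erase h)
          · exact Finset.mem_union_right _ h))
        (fun a ha b hb => hex a (Finset.mem_of_mem_erase ha) b hb)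
        (Or.inr ⟨hwδ, fun a ha => hmin a (Finset.mem_of_mem_erase ha)⟩) (by omega)
      have h2 : Seg d {w} (d w) 0 := seg_one (by omega) (by omega)
      have h3 : A ∪ B = (A.erase w ∪ B) ∪ {w} := by
        ext i
        by_cases h1 : i = w
        · simp [h1, hw]
        · simp [h1]
      rw [h3]
      refine Seg.trans (by omega) h1 h2 ?_
      rw [Finset.disjoint_singleton_right]
      intro hi
      rcases Finset.mem_union.1 hi with h | h
      · simp at h
      · exact (Finset.disjoint_left.1 hAB) hw h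

end Pool.Agent.W_e8e3a0.Num49
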