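import Pool.Agent.W_e8e3a0.ZoneA49
import Pool.Agent.W_e8e3a0.GadgB49

/-! Placement of an indexed family of special vertices in even gaps. -/

namespace Pool.Agent.W_e8e3a0

open Finset

theorem place_index {s : ℕ} (d : Fin s → ℕ) (i0 : Fin s) {ι : Type} [DecidableEq ι] (N : ℕ)
    (T : ι → Finset (Fin s)) (I : Finset ι) (hI : I.card ≤ N)
    (hc : ∀ i ∈ I, 3 * N ≤ (T i).card)
    (hnear : ∀ i ∈ I, ∀ c, ((T i).filter (fun z => nu d z ≤ c + 1 ∧ c ≤ nu d z + 1)).card ≤ 3) :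
    ∃ f : ι → Fin s, (∀ i ∈ I, f i ∈ T i) ∧ ∀ i ∈ I, ∀ j ∈ I, i ≠ j →
      nu d (f i) + 2 ≤ nu d (f j) ∨ nu d (f j) + 2 ≤ nu d (f i) := by
  classical
  induction I using Finset.induction_on with
  | empty => exact ⟨fun _ => i0, fun i hi => by simp at hi, fun i hi => by simp at hi⟩
  | insert a I ha ih =>
    rw [Finset.card_insert_of_notMem ha] at hI
    obtain ⟨f, hf1, hf2⟩ := ih (by omega) (fun i hi => hc i (Finset.mem_insert_of_mem hi))
      (fun i hi => hnear i (Finset.mem_insert_of_mem hi))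
    have hbad : ((T a).filter (fun z => ∃ j ∈ I, nu d z ≤ nu d (f j) + 1 ∧
        nu d (f j) ≤ nu d z + 1)).card ≤ I.card * 3 := by
      have hsub : (T a).filter (fun z => ∃ j ∈ I, nu d z ≤ nu d (f j) + 1 ∧
          nu d (f j) ≤ nu d z + 1) ⊆ I.biUnion (fun j => (T a).filter (fun z =>
            nu d z ≤ nu d (f j) + 1 ∧ nu d (f j) ≤ nu d z + 1)) := by
        intro z hz
        obtain ⟨h1, j, hj, h2⟩ := Finset.mem_filter.1 hz
        exact Finset.mem_biUnion.2 ⟨j, hj, Finset.mem_filter.2 ⟨h1, h2⟩⟩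
      exact (Finset.card_le_card hsub).trans (Finset.card_biUnion_le_card_mul _ _ _
        (fun j _ => hnear a (Finset.mem_insert_self _ _) _))
    have hca := hc a (Finset.mem_insert_self _ _)
    obtain ⟨z, hz1, hz2⟩ : ∃ z ∈ T a, z ∉ (T a).filter (fun z => ∃ j ∈ I,
        nu d z ≤ nu d (f j) + 1 ∧ nu d (f j) ≤ nu d z + 1) :=
      Finset.exists_mem_notMem_of_card_lt_card (by omega)
    have hz3 : ∀ j ∈ I, nu d z + 2 ≤ nu d (f j) ∨ nu d (f j) + 2 ≤ nu d z := by
      intro j hj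
      by_contra hno
      exact hz2 (Finset.mem_filter.2 ⟨hz1, j, hj, by omega, by omega⟩)
    have hne : ∀ j ∈ I, j ≠ a := fun j hj hh => ha (hh ▸ hj)
    refine ⟨fun i => if i = a then z else f i, fun i hi => ?_, fun i hi j hj hij => ?_⟩
    · rcases Finset.mem_insert.1 hi with h1 | h1
      · show (if i = a then z else f i) ∈ T i
        rw [if_pos h1, h1]; exact hz1
      · show (if i = a then z else f i) ∈ T i
        rw [if_neg (hne i h1)]; exact hf1 i h1
    · show nu d (if i = a then z else f i) + 2 ≤ nu d (if j = a then z else f j) ∨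
        nu d (if j = a then z else f j) + 2 ≤ nu d (if i = a then z else f i)
      rcases Finset.mem_insert.1 hi with h1 | h1 <;> rcases Finset.mem_insert.1 hj with h2 | h2
      · exact absurd (h1.trans h2.symm) hij
      · rw [if_pos h1, if_neg (hne j h2)]; exact hz3 j h2
      · rw [if_neg (hne i h1), if_pos h2]; exact (hz3 i h1).symm
      · rw [if_neg (hne i h1), if_neg (hne j h2)]; exact hf2 i h1 j h2 hij

/-- the first vertex of an even gap -/
def CandZ {s : ℕ} (d : Fin s → ℕ) (z : Fin s) (ab : Fin s × Fin s) : Prop :=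
  IsGap d ab ∧ ((ab.2 : ℕ) - ab.1) % 2 = 0 ∧ (z : ℕ) = ab.1 + 1

theorem candZ_nu {s : ℕ} (d : Fin s → ℕ) {z : Fin s} {ab : Fin s × Fin s} (h : CandZ d z ab) :
    ab.1 < z ∧ z < ab.2 ∧ d z = 2 ∧ nu d z = nu d ab.2 := by
  obtain ⟨⟨g1, g2, g3, g4⟩, h2, h3⟩ := h
  have g1' : (ab.1 : ℕ) < ab.2 := g1
  have k1 : ab.1 < z := by
    show (ab.1 : ℕ) < z
    omega
  have k2 : z < ab.2 := by
    show (z : ℕ) < ab.2
    omega
  refine ⟨k1, k2, g4 z k1 k2, ?_⟩
  have e1 := nu_lt d k1 g2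
  have e2 := nu_mono d k2.le
  have e3 : nu d ab.2 ≤ nu d ab.1 + 1 := nu_gap d (a := ab.1) (i := ab.2) ⟨g1, g2, g3, g4⟩
  omega

open Classical in
theorem candZ_near {s : ℕ} (d : Fin s → ℕ) (c : ℕ) :
    ((univ.filter (fun z => ∃ ab, CandZ d z ab)).filter
      (fun z => nu d z ≤ c + 1 ∧ c ≤ nu d z + 1)).card ≤ 3 := by
  refine le_trans ?_ (nu_three d c)
  have hex : ∀ z, z ∈ (univ.filter (fun z => ∃ ab, CandZ d z ab)).filter
      (fun z => nu d z ≤ c + 1 ∧ c ≤ nu d z + 1) → ∃ ab, CandZ d z ab ∧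
      nu d z ≤ c + 1 ∧ c ≤ nu d z + 1 := by
    intro z hz
    obtain ⟨h1, h2⟩ := Finset.mem_filter.1 hz
    obtain ⟨ab, h3⟩ := (Finset.mem_filter.1 h1).2
    exact ⟨ab, h3, h2⟩
  rcases Nat.eq_zero_or_pos s with h0 | h0
  · subst h0
    have : ((univ.filter (fun z => ∃ ab, CandZ d z ab)).filter
      (fun z => nu d z ≤ c + 1 ∧ c ≤ nu d z + 1)) = ∅ := by
      ext z; exact z.elim0
    rw [this]; exact Nat.zero_le _
  have : Nonempty (Fin s × Fin s) := ⟨(⟨0, h0⟩, ⟨0, h0⟩)⟩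
  choose! g hg using hex
  refine Finset.card_le_card_of_injOn (fun z => (g z).2) (fun z hz => ?_) (fun z hz z' hz' hzz => ?_)
  · obtain ⟨h1, h2, h3⟩ := hg z hz
    have h4 := (candZ_nu d h1).2.2.2
    rw [h4] at h2 h3
    exact Finset.mem_coe.2 (Finset.mem_filter.2 ⟨Finset.mem_univ _, h1.1.2.2.1, h2, h3⟩)
  · have h1 := (hg z hz).1
    have h1' := (hg z' hz').1
    have hzz' : (g z).2 = (g z').2 := hzz
    by_cases hgg : g z = g z'
    · have e1 := h1.2.2
      have e2 := h1'.2.2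
      rw [← hgg] at e2
      exact Fin.ext (by omega)
    · exfalso
      have l1 : (g z).1 < (g z).2 := h1.1.1
      have l2 : (g z').1 < (g z').2 := h1'.1.1
      rcases gaps_disj d (g z) (g z') h1.1 h1'.1 hgg with h5 | h5
      · rw [hzz'] at h5
        exact absurd l2 (not_lt.2 h5)
      · rw [← hzz'] at h5
        exact absurd l1 (not_lt.2 h5)

open Classical in
theorem candZ_count {s : ℕ} (d : Fin s → ℕ) (h2 : ∀ i, 2 ≤ d i) :
    (univ.filter (fun i => 3 ≤ d i)).card ≤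
      (univ.filter (fun z => ∃ ab, CandZ d z ab)).card + 1 +
      (univ.filter (fun p : Fin s × Fin s => IsGap d p ∧ ¬ ((p.2 : ℕ) - p.1) % 2 = 0)).card := by
  have h1 : (univ.filter (fun i => 3 ≤ d i)).card ≤
      (univ.filter (fun p : Fin s × Fin s => IsGap d p)).card + 1 := by
    refine (gaps_card d h2).trans (le_of_eq ?_)
    congr 2
    ext p
    rw [Finset.mem_filter, Finset.mem_filter]
    rfl
  have h3 : (univ.filter (fun p : Fin s × Fin s => IsGap d p)).card =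
      (univ.filter (fun p : Fin s × Fin s => IsGap d p ∧ ((p.2 : ℕ) - p.1) % 2 = 0)).card +
      (univ.filter (fun p : Fin s × Fin s => IsGap d p ∧ ¬ ((p.2 : ℕ) - p.1) % 2 = 0)).card := by
    rw [← Finset.filter_filter, ← Finset.filter_filter]
    exact (Finset.card_filter_add_card_filter_not _).symm
  have h4 : (univ.filter (fun p : Fin s × Fin s => IsGap d p ∧ ((p.2 : ℕ) - p.1) % 2 = 0)).card ≤
      (univ.filter (fun z => ∃ ab, CandZ d z ab)).card := by
    refine Finset.card_le_card_of_injOn (fun p => if h : (p.1 : ℕ) + 1 < s then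
      (⟨(p.1 : ℕ) + 1, h⟩ : Fin s) else p.1) (fun p hp => ?_) (fun p hp q hq hpq => ?_)
    · obtain ⟨_, hg, he⟩ := Finset.mem_filter.1 (Finset.mem_coe.1 hp)
      have l1 : (p.1 : ℕ) < p.2 := hg.1
      have l2 := p.2.2
      have l3 : (p.1 : ℕ) + 1 < s := by omega
      show (if h : (p.1 : ℕ) + 1 < s then (⟨(p.1 : ℕ) + 1, h⟩ : Fin s) else p.1) ∈ _
      rw [dif_pos l3]
      exact Finset.mem_coe.2 (Finset.mem_filter.2 ⟨Finset.mem_univ _, p, hg, he, rfl⟩)
    · obtain ⟨_, hg, he⟩ := Finset.mem_filter.1 (Finset.mem_coe.1 hp)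
      obtain ⟨_, hg', he'⟩ := Finset.mem_filter.1 (Finset.mem_coe.1 hq)
      have l1 : (p.1 : ℕ) < p.2 := hg.1
      have l2 := p.2.2
      have l3 : (p.1 : ℕ) + 1 < s := by omega
      have m1 : (q.1 : ℕ) < q.2 := hg'.1
      have m2 := q.2.2
      have m3 : (q.1 : ℕ) + 1 < s := by omega
      have hpq' : (if h : (p.1 : ℕ) + 1 < s then (⟨(p.1 : ℕ) + 1, h⟩ : Fin s) else p.1) =
        (if h : (q.1 : ℕ) + 1 < s then (⟨(q.1 : ℕ) + 1, h⟩ : Fin s) else q.1) := hpq
      rw [dif_pos l3, dif_pos m3] at hpq'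
      have h5 : (p.1 : ℕ) = q.1 := by
        have := congrArg Fin.val hpq'
        simp only at this
        omega
      by_contra hne
      have h6 : p.1 = q.1 := Fin.ext h5
      rcases gaps_disj d p q hg hg' hne with h7 | h7
      · rw [← h6] at h7
        exact absurd hg.1 (not_lt.2 h7)
      · rw [h6] at h7
        exact absurd hg'.1 (not_lt.2 h7)
  omega

open Classical in
theorem cand_near {s : ℕ} (d : Fin s → ℕ) (e : ℕ) (he : 3 ≤ e) (c : ℕ) :
    ((univ.filter (fun i => d i = e ∧ ∃ ab, Cand d ∅ i ab)).filter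
      (fun z => nu d z ≤ c + 1 ∧ c ≤ nu d z + 1)).card ≤ 3 := by
  refine le_trans (Finset.card_le_card (fun z hz => ?_)) (nu_three d c)
  obtain ⟨h1, h2⟩ := Finset.mem_filter.1 hz
  have h3 := (Finset.mem_filter.1 h1).2.1
  exact Finset.mem_filter.2 ⟨Finset.mem_univ _, by omega, h2⟩

end Pool.Agent.W_e8e3a0
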