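import Pool.Agent.W_e8e3a0.FullZ49

/-! Arcs and parts in the presence of vertices with prescribed parts. -/

namespace Pool.Agent.W_e8e3a0

open Finset Num49

/-- `arcs` with prescribed numbers of labels and prescribed parities at all states `≥ 2` -/
theorem arcs_rhs (S : Finset ℕ) (n ρ : ℕ → ZMod 2) (M : ℕ) (hM : ∀ d ∈ S, d ≤ M)
    (hdual : ∀ f : ℕ → ZMod 2, f 0 = 0 → f 1 = 0 → (∀ d ∈ S, ∀ k, k ≤ d → f k + f (d - k) = f d) →
      ∑ d ∈ S, n d * f d + ∑ k ∈ range (M + 1), (if 2 ≤ k then ρ k * f k else 0) = 0) :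
    ∃ A : Finset (ℕ × ℕ), A.card ≤ 2 * (M + 1) ∧ (∀ a ∈ A, a.1 ∈ S ∧ a.2 ≤ a.1) ∧
      (∀ d ∈ S, ∑ a ∈ A, (if a.1 = d then (1 : ZMod 2) else 0) = n d) ∧
      (∀ k, 2 ≤ k → k ≤ M → ∑ a ∈ A, ((if a.2 = k then (1 : ZMod 2) else 0) +
        (if a.1 - a.2 = k then (1 : ZMod 2) else 0)) = ρ k) := by
  classical
  set st : ℕ → (Fin (M + 1) → ZMod 2) := fun k j => if 2 ≤ k ∧ (j : ℕ) = k then 1 else 0 with hst
  set lab : ℕ → (Fin (M + 1) → ZMod 2) := fun d j => if (j : ℕ) = d then 1 else 0 with hlab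
  set B : Finset (ℕ × ℕ) := (S ×ˢ range (M + 1)).filter (fun a => a.2 ≤ a.1) with hB
  have hBm : ∀ d k, (d, k) ∈ B ↔ d ∈ S ∧ k ≤ d := by
    intro d k
    rw [hB, Finset.mem_filter, Finset.mem_product, Finset.mem_range]
    constructor
    · rintro ⟨⟨h1, _⟩, h3⟩; exact ⟨h1, h3⟩
    · rintro ⟨h1, h2⟩
      have := hM d h1
      exact ⟨⟨h1, by show k < M + 1; omega⟩, h2⟩
  set g : ℕ × ℕ → (Fin (M + 1) → ZMod 2) × (Fin (M + 1) → ZMod 2) :=
    fun a => (st a.2 + st (a.1 - a.2), lab a.1) with hg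
  set ρv : Fin (M + 1) → ZMod 2 := fun j => if 2 ≤ (j : ℕ) then ρ j else 0 with hρv
  set t : (Fin (M + 1) → ZMod 2) × (Fin (M + 1) → ZMod 2) :=
    (ρv, 0) + ∑ d ∈ S, n d • (0, lab d) with ht
  have hmem : t ∈ Submodule.span (ZMod 2) (g '' (B : Set (ℕ × ℕ))) := by
    by_contra hno
    obtain ⟨ψ, hψ, hker⟩ := Submodule.exists_le_ker_of_notMem hno
    apply hψ
    have hz : ∀ a ∈ B, ψ (g a) = 0 := by
      intro a ha
      have := hker (Submodule.subset_span (Set.mem_image_of_mem g (Finset.mem_coe.2 ha)))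
      exact LinearMap.mem_ker.1 this
    have hst0 : st 0 = 0 := by
      funext j; rw [hst]; simp
    have hst1 : st 1 = 0 := by
      funext j; rw [hst]; simp
    have hadd : ∀ u w : Fin (M + 1) → ZMod 2, ∀ l : Fin (M + 1) → ZMod 2,
        ψ (u + w, l) = ψ (u, 0) + ψ (w, 0) + ψ (0, l) := by
      intro u w l
      rw [← map_add, ← map_add]
      congr 1
      simp
    have h00 : ψ (0, 0) = 0 := by
      have : ((0, 0) : (Fin (M + 1) → ZMod 2) × (Fin (M + 1) → ZMod 2)) = 0 := rfl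
      rw [this, map_zero]
    have harc : ∀ d ∈ S, ∀ k, k ≤ d → ψ (st k, 0) + ψ (st (d - k), 0) + ψ (0, lab d) = 0 := by
      intro d hd k hk
      have h1 := hz (d, k) ((hBm d k).2 ⟨hd, hk⟩)
      rw [← hadd]
      exact h1
    have hphi : ∀ d ∈ S, ψ (st d, 0) = ψ (0, lab d) := by
      intro d hd
      have h1 := harc d hd 0 (Nat.zero_le _)
      rw [hst0, h00, Nat.sub_zero] at h1
      have h2 := z2_add _ _ _ h1
      rw [zero_add] at h2
      exact h2
    have h1 := hdual (fun k => ψ (st k, 0)) (by show ψ (st 0, 0) = 0; rw [hst0, h00])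
      (by show ψ (st 1, 0) = 0; rw [hst1, h00]) (fun d hd k hk => by
        show ψ (st k, 0) + ψ (st (d - k), 0) = ψ (st d, 0)
        rw [hphi d hd]
        exact z2_add _ _ _ (harc d hd k hk))
    have hρ : ψ (ρv, 0) = ∑ k ∈ range (M + 1), (if 2 ≤ k then ρ k * ψ (st k, 0) else 0) := by
      have e1 : ((ρv, 0) : (Fin (M + 1) → ZMod 2) × (Fin (M + 1) → ZMod 2)) =
          ∑ k ∈ range (M + 1), (if 2 ≤ k then ρ k • (st k, 0) else 0) := by
        refine Prod.ext ?_ ?_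
        · rw [Prod.fst_sum]
          funext j
          rw [Finset.sum_apply, Finset.sum_eq_single (j : ℕ)]
          · show ρv j = (if 2 ≤ (j : ℕ) then ρ j • ((st j, 0) :
              (Fin (M + 1) → ZMod 2) × (Fin (M + 1) → ZMod 2)) else 0).1 j
            rw [hρv]
            by_cases h2 : 2 ≤ (j : ℕ)
            · simp [h2, hst]
            · simp [h2]
          · intro k _ hk
            by_cases h2 : 2 ≤ k
            · rw [if_pos h2]
              simp [hst, Ne.symm hk]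
            · rw [if_neg h2]; rfl
          · intro hn
            exact absurd (Finset.mem_range.2 j.2) hn
        · rw [Prod.snd_sum]
          refine (Finset.sum_eq_zero (fun k _ => ?_)).symm
          split_ifs
          · simp
          · rfl
      rw [e1, _root_.map_sum]
      refine Finset.sum_congr rfl (fun k _ => ?_)
      split_ifs
      · rw [map_smul, smul_eq_mul]
      · rw [map_zero]
    rw [ht, map_add, _root_.map_sum, hρ]
    refine Eq.trans ?_ h1
    rw [add_comm]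
    congr 1
    refine Finset.sum_congr rfl (fun d hd => ?_)
    rw [map_smul, smul_eq_mul]
    show n d * ψ (0, lab d) = n d * ψ (st d, 0)
    rw [hphi d hd]
  rw [Submodule.mem_span_image_finset_iff_exists_fun'] at hmem
  obtain ⟨c, hc⟩ := hmem
  -- a solution with the least number of arcs
  have hne : (B.powerset.filter (fun A => ∑ a ∈ A, g a = t)).Nonempty := by
    refine ⟨B.filter (fun a => c a = 1), Finset.mem_filter.2
      ⟨Finset.mem_powerset.2 (Finset.filter_subset _ _), ?_⟩⟩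
    rw [← hc, Finset.sum_filter]
    refine Finset.sum_congr rfl (fun a _ => ?_)
    rcases z2 (c a) with h | h
    · rw [h, zero_smul, if_neg (by decide)]
    · rw [h, one_smul, if_pos rfl]
  obtain ⟨A, hA, hmin⟩ := Finset.exists_min_image _ Finset.card hne
  obtain ⟨hAB', hsum⟩ := Finset.mem_filter.1 hA
  rw [Finset.mem_powerset] at hAB'
  have hAB : ∀ a ∈ A, a.1 ∈ S ∧ a.2 ≤ a.1 := by
    intro a ha
    exact (hBm a.1 a.2).1 (hAB' ha)
  have hcardA : A.card ≤ 2 * (M + 1) := by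
    by_contra hbig
    have hfr : Module.finrank (ZMod 2) ((Fin (M + 1) → ZMod 2) × (Fin (M + 1) → ZMod 2)) =
        2 * (M + 1) := by
      rw [Module.finrank_prod, Module.finrank_fin_fun]
      ring
    have hnl : ¬ LinearIndependent (ZMod 2) (fun a : A => g a.1) := by
      intro hli
      have h1 := hli.fintype_card_le_finrank
      rw [hfr, Fintype.card_coe] at h1
      exact hbig h1
    rw [Fintype.not_linearIndependent_iff] at hnl
    obtain ⟨c', hc', ⟨a0, ha0⟩, hc0⟩ := hnl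
    set c2 : ℕ × ℕ → ZMod 2 := fun a => if h : a ∈ A then c' ⟨a, h⟩ else 0 with hc2
    have hs2 : ∑ a ∈ A, c2 a • g a = 0 := by
      rw [← hc', ← Finset.sum_coe_sort A]
      refine Finset.sum_congr rfl (fun a _ => ?_)
      rw [hc2]
      simp
    have hs3 : ∑ a ∈ A.filter (fun a => c2 a = 1), g a = 0 := by
      rw [← hs2, Finset.sum_filter]
      refine Finset.sum_congr rfl (fun a _ => ?_)
      rcases z2 (c2 a) with h | h
      · rw [h, zero_smul, if_neg (by decide)]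
      · rw [h, one_smul, if_pos rfl]
    have hs4 := Finset.sum_filter_add_sum_filter_not A (fun a => c2 a = 1) g
    rw [hs3, zero_add, hsum] at hs4
    have hmem2 : A.filter (fun a => ¬ c2 a = 1) ∈
        B.powerset.filter (fun A => ∑ a ∈ A, g a = t) :=
      Finset.mem_filter.2 ⟨Finset.mem_powerset.2 ((Finset.filter_subset _ _).trans hAB'), hs4⟩
    have h1 := hmin _ hmem2
    have h2 : c2 a0 = 1 := by
      rcases z2 (c2 a0) with h | h
      · exfalso
        apply hc0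
        rw [hc2] at h
        simpa [ha0] using h
      · exact h
    have h3 : (A.filter (fun a => ¬ c2 a = 1)).card < A.card := by
      refine Finset.card_lt_card (Finset.filter_ssubset.2 ⟨a0, ha0, ?_⟩)
      intro h; exact h h2
    omega
  have ht2 : t = (ρv, ∑ d ∈ S, n d • lab d) := by
    rw [ht]
    refine Prod.ext ?_ ?_
    · show ρv + (∑ d ∈ S, n d • ((0, lab d) :
        (Fin (M + 1) → ZMod 2) × (Fin (M + 1) → ZMod 2))).1 = ρv
      rw [Prod.fst_sum, Finset.sum_eq_zero (fun d _ => by simp), add_zero]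
    · show 0 + (∑ d ∈ S, n d • ((0, lab d) :
        (Fin (M + 1) → ZMod 2) × (Fin (M + 1) → ZMod 2))).2 = _
      rw [Prod.snd_sum, zero_add]
      rfl
  rw [ht2] at hsum
  have e1 : ∑ a ∈ A, (g a).1 = ρv := by
    have h1 := congrArg Prod.fst hsum
    rw [Prod.fst_sum] at h1
    exact h1
  have e2 : ∑ a ∈ A, (g a).2 = ∑ d ∈ S, n d • lab d := by
    have h1 := congrArg Prod.snd hsum
    rw [Prod.snd_sum] at h1
    exact h1
  refine ⟨A, hcardA, hAB, ?_, ?_⟩
  · intro d hd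
    have h1 := congrFun e2 ⟨d, by have := hM d hd; omega⟩
    rw [Finset.sum_apply, Finset.sum_apply] at h1
    have h2 : ∑ a ∈ A, (if a.1 = d then (1 : ZMod 2) else 0) =
        ∑ a ∈ A, (g a).2 ⟨d, by have := hM d hd; omega⟩ := by
      refine Finset.sum_congr rfl (fun a _ => ?_)
      rw [hg, hlab]
      exact if_congr eq_comm rfl rfl
    rw [h2, h1]
    rw [Finset.sum_eq_single d]
    · rw [hlab]; simp
    · intro b _ hb
      rw [hlab]
      simp [Ne.symm hb]
    · intro hn; exact absurd hd hn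
  · intro k hk hkM
    have h1 := congrFun e1 ⟨k, by omega⟩
    rw [Finset.sum_apply] at h1
    have h6 : ρv ⟨k, by omega⟩ = ρ k := if_pos hk
    rw [h6] at h1
    refine Eq.trans (Finset.sum_congr rfl (fun a _ => ?_)) h1
    rw [hg]
    show _ = st a.2 ⟨k, by omega⟩ + st (a.1 - a.2) ⟨k, by omega⟩
    rw [hst]
    have h5 : ∀ z : ℕ, (if z = k then (1 : ZMod 2) else 0) =
        (if 2 ≤ z ∧ k = z then (1 : ZMod 2) else 0) := by
      intro z
      by_cases hz : z = k
      · rw [if_pos hz, if_pos ⟨by omega, hz.symm⟩]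
      · rw [if_neg hz, if_neg (fun h => hz h.2.symm)]
    show (if a.2 = k then (1 : ZMod 2) else 0) + (if a.1 - a.2 = k then (1 : ZMod 2) else 0) =
      (if 2 ≤ a.2 ∧ k = a.2 then (1 : ZMod 2) else 0) +
      (if 2 ≤ a.1 - a.2 ∧ k = a.1 - a.2 then (1 : ZMod 2) else 0)
    rw [h5 a.2, h5 (a.1 - a.2)]

/-- arcs without `(1, 1)` and with at most one arc of label two -/
theorem arcs_two_rhs (S : Finset ℕ) (n ρ : ℕ → ZMod 2) (M : ℕ) (hM : ∀ d ∈ S, d ≤ M)
    (hdual : ∀ f : ℕ → ZMod 2, f 0 = 0 → f 1 = 0 → (∀ d ∈ S, ∀ k, k ≤ d → f k + f (d - k) = f d) →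
      ∑ d ∈ S, n d * f d + ∑ k ∈ range (M + 1), (if 2 ≤ k then ρ k * f k else 0) = 0) :
    ∃ A : Finset (ℕ × ℕ), A.card ≤ 2 * (M + 1) ∧ (∀ a ∈ A, a.1 ∈ S ∧ a.2 ≤ a.1) ∧
      (∀ d ∈ S, d ≠ 2 → ∑ a ∈ A, (if a.1 = d then (1 : ZMod 2) else 0) = n d) ∧
      (∀ k, 2 ≤ k → k ≤ M → ∑ a ∈ A, ((if a.2 = k then (1 : ZMod 2) else 0) +
        (if a.1 - a.2 = k then (1 : ZMod 2) else 0)) = ρ k) ∧
      (2, 1) ∉ A ∧ (∀ a ∈ A, ∀ b ∈ A, a.1 = 2 → b.1 = 2 → a = b) := by
  classical
  obtain ⟨A0, hAc0, hA10, hA20, hA30⟩ := arcs_rhs S n ρ M hM hdual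
  set A1 := A0.erase (2, 1) with hA1
  have hs1 : ∀ F : ℕ × ℕ → ZMod 2, F (2, 1) = 0 → ∑ a ∈ A1, F a = ∑ a ∈ A0, F a := by
    intro F hF
    rw [hA1]
    exact Finset.sum_erase _ hF
  have hc1 : A1.card ≤ 2 * (M + 1) := (Finset.card_le_card (Finset.erase_subset _ _)).trans hAc0
  have hm1 : ∀ a ∈ A1, a.1 ∈ S ∧ a.2 ≤ a.1 := fun a ha => hA10 a (Finset.mem_of_mem_erase ha)
  have hl1 : ∀ d ∈ S, d ≠ 2 → ∑ a ∈ A1, (if a.1 = d then (1 : ZMod 2) else 0) = n d := by
    intro d hd hd2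
    rw [hs1 _ (if_neg (fun hh => hd2 hh.symm))]
    exact hA20 d hd
  have hk1 : ∀ k, 2 ≤ k → k ≤ M → ∑ a ∈ A1, ((if a.2 = k then (1 : ZMod 2) else 0) +
      (if a.1 - a.2 = k then (1 : ZMod 2) else 0)) = ρ k := by
    intro k hk hkM
    rw [hs1 _ (by
      show (if 1 = k then (1 : ZMod 2) else 0) + (if 2 - 1 = k then (1 : ZMod 2) else 0) = 0
      rw [if_neg (by omega), add_zero])]
    exact hA30 k hk hkM
  have hn1 : (2, 1) ∉ A1 := Finset.notMem_erase _ _
  have hlist : ∀ a : ℕ × ℕ, a.1 = 2 → a.2 ≤ a.1 → a ≠ (2, 1) → a = (2, 0) ∨ a = (2, 2) := by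
    rintro ⟨a1, a2⟩ h1 h2 h3
    have h1' : a1 = 2 := h1
    have h2' : a2 ≤ a1 := h2
    subst h1'
    have h4 : a2 ≠ 1 := fun hh => h3 (by rw [hh])
    have h5 : a2 = 0 ∨ a2 = 2 := by omega
    rcases h5 with h5 | h5 <;> rw [h5] <;> simp
  by_cases hboth : (2, 0) ∈ A1 ∧ (2, 2) ∈ A1
  · obtain ⟨b0, b2⟩ := hboth
    have b2' : ((2, 2) : ℕ × ℕ) ∈ A1.erase (2, 0) := Finset.mem_erase.2 ⟨by simp, b2⟩
    have hs2 : ∀ F : ℕ × ℕ → ZMod 2, F (2, 0) + F (2, 2) = 0 →
        ∑ a ∈ (A1.erase (2, 0)).erase (2, 2), F a = ∑ a ∈ A1, F a := by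
      intro F hF
      have e1 := Finset.add_sum_erase A1 F b0
      have e2 := Finset.add_sum_erase (A1.erase (2, 0)) F b2'
      rw [← e1, ← e2, ← add_assoc, hF, zero_add]
    have hsub : (A1.erase (2, 0)).erase (2, 2) ⊆ A1 :=
      (Finset.erase_subset _ _).trans (Finset.erase_subset _ _)
    refine ⟨(A1.erase (2, 0)).erase (2, 2), (Finset.card_le_card hsub).trans hc1,
      fun a ha => hm1 a (hsub ha), ?_, ?_, fun hh => hn1 (hsub hh), ?_⟩
    · intro d hd hd2
      rw [hs2 _ (by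
        show (if 2 = d then (1 : ZMod 2) else 0) + (if 2 = d then (1 : ZMod 2) else 0) = 0
        rw [if_neg (fun hh => hd2 hh.symm), add_zero])]
      exact hl1 d hd hd2
    · intro k hk hkM
      rw [hs2 _ (by
        show ((if 0 = k then (1 : ZMod 2) else 0) + (if 2 - 0 = k then (1 : ZMod 2) else 0)) +
          ((if 2 = k then (1 : ZMod 2) else 0) + (if 2 - 2 = k then (1 : ZMod 2) else 0)) = 0
        by_cases h2k : 2 = k
        · subst h2k; decide
        · rw [if_neg (by omega), if_neg (by omega)]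
          decide)]
      exact hk1 k hk hkM
    · intro a ha b hb ha2 hb2
      exfalso
      rcases hlist a ha2 (hm1 a (hsub ha)).2 (fun hh => hn1 (hh ▸ hsub ha)) with e | e
      · rw [e] at ha
        exact (Finset.notMem_erase _ _) (Finset.mem_of_mem_erase ha)
      · rw [e] at ha
        exact (Finset.notMem_erase _ _) ha
  · refine ⟨A1, hc1, hm1, hl1, hk1, hn1, ?_⟩
    intro a ha b hb ha2 hb2
    rcases hlist a ha2 (hm1 a ha).2 (fun hh => hn1 (hh ▸ ha)) with e1 | e1 <;>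
      rcases hlist b hb2 (hm1 b hb).2 (fun hh => hn1 (hh ▸ hb)) with e2 | e2
    · rw [e1, e2]
    · exact absurd ⟨e1 ▸ ha, e2 ▸ hb⟩ hboth
    · exact absurd ⟨e2 ▸ hb, e1 ▸ ha⟩ hboth
    · rw [e1, e2]

/-- parts with the parity property -/
theorem mixed_parts3 {s : ℕ} (d : Fin s → ℕ) (h2 : ∀ i, 2 ≤ d i) (Ra : Finset (Fin s))
    (u : Fin s → ℕ) (hu : ∀ i ∈ Ra, u i ≤ d i ∧ d i ≠ 3 ∧ (d i = 2 → u i = 1) ∧
      (4 ≤ d i → 2 ≤ u i ∧ u i + 2 ≤ d i))
    (A : Finset (ℕ × ℕ)) (hA1 : ∀ a ∈ A, a.2 ≤ a.1)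
    (hA2 : ∀ e, e ≠ 2 → ∑ a ∈ A, (if a.1 = e then (1 : ZMod 2) else 0) =
      ∑ i ∈ univ \ Ra, (if d i = e then (1 : ZMod 2) else 0))
    (hA3 : ∀ k, 2 ≤ k → ∑ a ∈ A, ((if a.2 = k then (1 : ZMod 2) else 0) +
        (if a.1 - a.2 = k then (1 : ZMod 2) else 0)) =
      ∑ i ∈ Ra, ((if u i = k then (1 : ZMod 2) else 0) +
        (if d i - u i = k then (1 : ZMod 2) else 0)))
    (p : ℕ × ℕ → Fin s) (hp1 : ∀ a ∈ A, d (p a) = a.1) (hpR : ∀ a ∈ A, p a ∉ Ra)
    (hp2 : ∀ a ∈ A, ∀ b ∈ A, a ≠ b → (p a : ℕ) + 1 < p b ∨ (p b : ℕ) + 1 < p a) :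
    (univ.filter (fun i => i ∉ A.image p ∧ d i = 3)).card % 2 = 0 ∧
    ∃ a b : Fin s → ℕ, (∀ i, a i + b i = d i) ∧
      (∀ k, 2 ≤ k → (cx a univ k + cx b univ k) % 2 = 0) ∧
      (∀ i, i ∉ A.image p → (d i = 2 → a i = 1 ∧ b i = 1) ∧ (d i = 3 → a i = 1 ∧ b i = 2) ∧
        (4 ≤ d i → 2 ≤ a i ∧ 2 ≤ b i) ∧ (i ∉ Ra → 4 ≤ d i → a i = 2 ∧ b i = d i - 2)) ∧
      (∀ c ∈ A, a (p c) = c.2) := by
  classical
  have hinj : ∀ a ∈ A, ∀ b ∈ A, p a = p b → a = b := by
    intro a ha b hb hab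
    by_contra hne
    have := hp2 a ha b hb hne
    rw [hab] at this
    omega
  obtain ⟨N, hN1, hN2⟩ : ∃ N, (∀ i ∈ (univ : Finset (Fin s)), d i < N) ∧
      (∀ a ∈ A, a.1 < N) := by
    refine ⟨∑ i, d i + ∑ a ∈ A, a.1 + 1, fun i hi => ?_, fun a ha => ?_⟩
    · have := Finset.single_le_sum (f := d) (fun _ _ => Nat.zero_le _) hi
      omega
    · have := Finset.single_le_sum (f := fun a : ℕ × ℕ => a.1)
        (fun _ _ => Nat.zero_le _) ha
      omega
  -- sums over the non-special vertices vanish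
  have hsubR : A.image p ⊆ univ \ Ra := by
    intro i hi
    obtain ⟨a, ha, rfl⟩ := Finset.mem_image.1 hi
    exact Finset.mem_sdiff.2 ⟨Finset.mem_univ _, hpR a ha⟩
  have hvan : ∀ H : ℕ → ZMod 2, H 2 = 0 → ∑ i ∈ (univ \ Ra) \ A.image p, H (d i) = 0 := by
    intro H hH2
    have h2 : ∑ i ∈ A.image p, H (d i) = ∑ a ∈ A, H a.1 := by
      rw [Finset.sum_image (fun a ha b hb hab => hinj a ha b hb hab)]
      exact Finset.sum_congr rfl (fun a ha => by rw [hp1 a ha])
    have h3 : ∑ i ∈ univ \ Ra, H (d i) = ∑ a ∈ A, H a.1 := by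
      rw [sum_by_label (univ \ Ra) d H N (fun i _ => hN1 i (Finset.mem_univ _)),
        sum_by_label A (fun a => a.1) H N hN2]
      refine Finset.sum_congr rfl (fun e _ => ?_)
      by_cases he : e = 2
      · rw [he, hH2, mul_zero, mul_zero]
      · rw [hA2 e he]
    have h6 := Finset.sum_sdiff (f := fun i => H (d i)) hsubR
    rw [h2, h3] at h6
    exact add_eq_right.1 h6
  refine ⟨?_, ?_⟩
  · have h1 := hvan (fun e => if e = 3 then 1 else 0) (if_neg (by norm_num))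
    have h2 : (((univ.filter (fun i => i ∉ A.image p ∧ d i = 3)).card : ℕ) : ZMod 2) = 0 := by
      rw [← h1, Finset.card_filter]
      push_cast
      rw [← Finset.sum_sdiff (Finset.subset_univ Ra)]
      have h3R : ∑ i ∈ Ra, (if i ∉ A.image p ∧ d i = 3 then (1 : ZMod 2) else 0) = 0 :=
        Finset.sum_eq_zero (fun i hi => if_neg (fun hh => (hu i hi).2.1 hh.2))
      rw [h3R, add_zero, ← Finset.sum_sdiff hsubR]
      have h3 : ∑ i ∈ A.image p, (if i ∉ A.image p ∧ d i = 3 then (1 : ZMod 2) else 0) = 0 :=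
        Finset.sum_eq_zero (fun i hi => if_neg (fun hh => hh.1 hi))
      rw [h3, add_zero]
      refine Finset.sum_congr rfl (fun i hi => ?_)
      have := (Finset.mem_sdiff.1 hi).2
      exact if_congr ⟨fun hh => hh.2, fun hh => ⟨this, hh⟩⟩ rfl rfl
    have := (ZMod.natCast_eq_zero_iff _ _).1 h2
    omega
  set c0 : ℕ → ℕ := fun e => if e ≤ 3 then 1 else 2 with hc0
  set α : Fin s → ℕ := fun i => if h : ∃ a ∈ A, p a = i then (Classical.choose h).2
    else if i ∈ Ra then u i else c0 (d i) with hα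
  have hαA : ∀ a ∈ A, α (p a) = a.2 := by
    intro a ha
    have hex : ∃ b ∈ A, p b = p a := ⟨a, ha, rfl⟩
    rw [hα]
    dsimp only
    rw [dif_pos hex]
    have h1 := Classical.choose_spec hex
    rw [hinj _ h1.1 a ha h1.2]
  have hαn : ∀ i, i ∉ A.image p → α i = if i ∈ Ra then u i else c0 (d i) := by
    intro i hi
    rw [hα]
    dsimp only
    rw [dif_neg]
    rintro ⟨a, ha, rfl⟩
    exact hi (Finset.mem_image_of_mem p ha)
  have hαle : ∀ i, α i ≤ d i := by
    intro i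
    by_cases hi : i ∈ A.image p
    · obtain ⟨a, ha, rfl⟩ := Finset.mem_image.1 hi
      rw [hαA a ha, hp1 a ha]
      exact hA1 a ha
    · rw [hαn i hi, hc0]
      have := h2 i
      dsimp only
      by_cases hR : i ∈ Ra
      · rw [if_pos hR]; exact (hu i hR).1
      · rw [if_neg hR]
        split_ifs <;> omega
  refine ⟨α, fun i => d i - α i, fun i => by have := hαle i; show α i + (d i - α i) = d i; omega,
    ?_, ?_, hαA⟩
  · intro k hk
    have hcast : ((cx α univ k + cx (fun i => d i - α i) univ k : ℕ) : ZMod 2) = 0 := by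
      unfold cx
      push_cast
      rw [← Finset.sum_add_distrib]
      set F : Fin s → ZMod 2 := fun i => (if α i = k then (1 : ZMod 2) else 0) +
        (if d i - α i = k then (1 : ZMod 2) else 0) with hF
      set H : ℕ → ZMod 2 := fun e => (if c0 e = k then (1 : ZMod 2) else 0) +
        (if e - c0 e = k then (1 : ZMod 2) else 0) with hH
      show ∑ i, F i = 0
      have h1 : ∑ i ∈ A.image p, F i = ∑ a ∈ A, ((if a.2 = k then (1 : ZMod 2) else 0) +
          (if a.1 - a.2 = k then (1 : ZMod 2) else 0)) := by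
        rw [Finset.sum_image (fun a ha b hb hab => hinj a ha b hb hab)]
        refine Finset.sum_congr rfl (fun a ha => ?_)
        rw [hF]
        dsimp only
        rw [hαA a ha, hp1 a ha]
      have hRA : ∀ i ∈ Ra, i ∉ A.image p := by
        intro i hi hh
        obtain ⟨a, ha, rfl⟩ := Finset.mem_image.1 hh
        exact hpR a ha hi
      have h1R : ∑ i ∈ Ra, F i = ∑ i ∈ Ra, ((if u i = k then (1 : ZMod 2) else 0) +
          (if d i - u i = k then (1 : ZMod 2) else 0)) := by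
        refine Finset.sum_congr rfl (fun i hi => ?_)
        rw [hF]
        dsimp only
        rw [hαn i (hRA i hi), if_pos hi]
      have h4' : ∑ i ∈ (univ \ Ra) \ A.image p, F i =
          ∑ i ∈ (univ \ Ra) \ A.image p, H (d i) := by
        refine Finset.sum_congr rfl (fun i hi => ?_)
        obtain ⟨hi1, hi2⟩ := Finset.mem_sdiff.1 hi
        rw [hF, hH]
        dsimp only
        rw [hαn i hi2, if_neg (Finset.mem_sdiff.1 hi1).2]
      have h5 := Finset.sum_sdiff (f := F) hsubR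
      rw [h4', hvan H (by
        show (if c0 2 = k then (1 : ZMod 2) else 0) + (if 2 - c0 2 = k then (1 : ZMod 2) else 0) = 0
        have hc2 : c0 2 = 1 := rfl
        rw [hc2, if_neg (by omega), add_zero]), zero_add, h1, hA3 k hk, ← h1R] at h5
      have h6 := Finset.sum_sdiff (f := F) (Finset.subset_univ Ra)
      rw [← h6, ← h5]
      exact CharTwo.add_self_eq_zero _
    have := (ZMod.natCast_eq_zero_iff _ _).1 hcast
    omega
  · intro i hi
    have := h2 i
    show (d i = 2 → α i = 1 ∧ d i - α i = 1) ∧ (d i = 3 → α i = 1 ∧ d i - α i = 2) ∧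
      (4 ≤ d i → 2 ≤ α i ∧ 2 ≤ d i - α i) ∧ (i ∉ Ra → 4 ≤ d i → α i = 2 ∧ d i - α i = d i - 2)
    rw [hαn i hi, hc0]
    dsimp only
    by_cases hR : i ∈ Ra
    · rw [if_pos hR]
      obtain ⟨u1, u2, u3, u4⟩ := hu i hR
      refine ⟨fun h => ?_, fun h => absurd h u2, fun h => ?_, fun h => absurd hR h⟩
      · have := u3 h
        omega
      · have := u4 h
        omega
    · rw [if_neg hR]
      split_ifs <;> omega

end Pool.Agent.W_e8e3a0
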