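import Pool.Agent.W_e8e3a0.RareE49

/-! Parts when some degrees are rare, with chosen parts of the rare degrees. -/

namespace Pool.Agent.W_e8e3a0

open Finset Num49

/-- parts with the parity property, `3` being rare -/
theorem mixed_parts4 {s : ℕ} (d : Fin s → ℕ) (h2 : ∀ i, 2 ≤ d i) (Ra : Finset (Fin s))
    (u : Fin s → ℕ) (hu : ∀ i ∈ Ra, (d i ≤ 3 → u i = 1) ∧
      (4 ≤ d i → 2 ≤ u i ∧ u i + 2 ≤ d i))
    (A : Finset (ℕ × ℕ)) (hA1 : ∀ a ∈ A, a.2 ≤ a.1)
    (hA2 : ∀ e, e ≠ 2 → ∑ a ∈ A, (if a.1 = e then (1 : ZMod 2) else 0) =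
      ∑ i ∈ univ \ Ra, (if d i = e then (1 : ZMod 2) else 0))
    (hA3 : ∀ k, 2 ≤ k → ∑ a ∈ A, ((if a.2 = k then (1 : ZMod 2) else 0) +
        (if a.1 - a.2 = k then (1 : ZMod 2) else 0)) =
      ∑ i ∈ Ra, ((if u i = k then (1 : ZMod 2) else 0) +
        (if d i - u i = k then (1 : ZMod 2) else 0)))
    (p : ℕ × ℕ → Fin s) (hp1 : ∀ a ∈ A, d (p a) = a.1) (hpR : ∀ a ∈ A, p a ∉ Ra)
    (hp2 : ∀ a ∈ A, ∀ b ∈ A, a ≠ b → (p a : ℕ) + 1 < p b ∨ (p b : ℕ) + 1 < p a) :
    ∃ a b : Fin s → ℕ, (∀ i, a i + b i = d i) ∧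
      (∀ k, 2 ≤ k → (cx a univ k + cx b univ k) % 2 = 0) ∧
      (∀ i, i ∉ A.image p → (d i ≤ 3 → 1 ≤ a i ∧ 1 ≤ b i) ∧
        (4 ≤ d i → 2 ≤ a i ∧ 2 ≤ b i) ∧ (i ∉ Ra → 4 ≤ d i → a i = 2 ∧ b i = d i - 2)) ∧
      (∀ c ∈ A, a (p c) = c.2) := by
  classical
  have hinj : ∀ a ∈ A, ∀ b ∈ A, p a = p b → a = b := by
    intro a ha b hb hab
    by_contra hne
    have := hp2 a ha b hb hne
    rw [hab] at this
    omega
  obtain ⟨N, hN1, hN2⟩ : ∃ N, (∀ i ∈ (univ : Finset (Fin s)), d i < N) ∧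
      (∀ a ∈ A, a.1 < N) := by
    refine ⟨∑ i, d i + ∑ a ∈ A, a.1 + 1, fun i hi => ?_, fun a ha => ?_⟩
    · have := Finset.single_le_sum (f := d) (fun _ _ => Nat.zero_le _) hi
      omega
    · have := Finset.single_le_sum (f := fun a : ℕ × ℕ => a.1)
        (fun _ _ => Nat.zero_le _) ha
      omega
  -- sums over the non-special vertices vanish
  have hsubR : A.image p ⊆ univ \ Ra := by
    intro i hi
    obtain ⟨a, ha, rfl⟩ := Finset.mem_image.1 hi
    exact Finset.mem_sdiff.2 ⟨Finset.mem_univ _, hpR a ha⟩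
  have hvan : ∀ H : ℕ → ZMod 2, H 2 = 0 → ∑ i ∈ (univ \ Ra) \ A.image p, H (d i) = 0 := by
    intro H hH2
    have h2 : ∑ i ∈ A.image p, H (d i) = ∑ a ∈ A, H a.1 := by
      rw [Finset.sum_image (fun a ha b hb hab => hinj a ha b hb hab)]
      exact Finset.sum_congr rfl (fun a ha => by rw [hp1 a ha])
    have h3 : ∑ i ∈ univ \ Ra, H (d i) = ∑ a ∈ A, H a.1 := by
      rw [sum_by_label (univ \ Ra) d H N (fun i _ => hN1 i (Finset.mem_univ _)),
        sum_by_label A (fun a => a.1) H N hN2]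
      refine Finset.sum_congr rfl (fun e _ => ?_)
      by_cases he : e = 2
      · rw [he, hH2, mul_zero, mul_zero]
      · rw [hA2 e he]
    have h6 := Finset.sum_sdiff (f := fun i => H (d i)) hsubR
    rw [h2, h3] at h6
    exact add_eq_right.1 h6
  set c0 : ℕ → ℕ := fun e => if e ≤ 3 then 1 else 2 with hc0
  set α : Fin s → ℕ := fun i => if h : ∃ a ∈ A, p a = i then (Classical.choose h).2
    else if i ∈ Ra then u i else c0 (d i) with hα
  have hαA : ∀ a ∈ A, α (p a) = a.2 := by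
    intro a ha
    have hex : ∃ b ∈ A, p b = p a := ⟨a, ha, rfl⟩
    rw [hα]
    dsimp only
    rw [dif_pos hex]
    have h1 := Classical.choose_spec hex
    rw [hinj _ h1.1 a ha h1.2]
  have hαn : ∀ i, i ∉ A.image p → α i = if i ∈ Ra then u i else c0 (d i) := by
    intro i hi
    rw [hα]
    dsimp only
    rw [dif_neg]
    rintro ⟨a, ha, rfl⟩
    exact hi (Finset.mem_image_of_mem p ha)
  have hαle : ∀ i, α i ≤ d i := by
    intro i
    by_cases hi : i ∈ A.image p
    · obtain ⟨a, ha, rfl⟩ := Finset.mem_image.1 hi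
      rw [hαA a ha, hp1 a ha]
      exact hA1 a ha
    · rw [hαn i hi, hc0]
      have := h2 i
      dsimp only
      by_cases hR : i ∈ Ra
      · rw [if_pos hR]
        obtain ⟨u1, u2⟩ := hu i hR
        omega
      · rw [if_neg hR]
        split_ifs <;> omega
  refine ⟨α, fun i => d i - α i, fun i => by have := hαle i; show α i + (d i - α i) = d i; omega,
    ?_, ?_, hαA⟩
  · intro k hk
    have hcast : ((cx α univ k + cx (fun i => d i - α i) univ k : ℕ) : ZMod 2) = 0 := by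
      unfold cx
      push_cast
      rw [← Finset.sum_add_distrib]
      set F : Fin s → ZMod 2 := fun i => (if α i = k then (1 : ZMod 2) else 0) +
        (if d i - α i = k then (1 : ZMod 2) else 0) with hF
      set H : ℕ → ZMod 2 := fun e => (if c0 e = k then (1 : ZMod 2) else 0) +
        (if e - c0 e = k then (1 : ZMod 2) else 0) with hH
      show ∑ i, F i = 0
      have h1 : ∑ i ∈ A.image p, F i = ∑ a ∈ A, ((if a.2 = k then (1 : ZMod 2) else 0) +
          (if a.1 - a.2 = k then (1 : ZMod 2) else 0)) := by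
        rw [Finset.sum_image (fun a ha b hb hab => hinj a ha b hb hab)]
        refine Finset.sum_congr rfl (fun a ha => ?_)
        rw [hF]
        dsimp only
        rw [hαA a ha, hp1 a ha]
      have hRA : ∀ i ∈ Ra, i ∉ A.image p := by
        intro i hi hh
        obtain ⟨a, ha, rfl⟩ := Finset.mem_image.1 hh
        exact hpR a ha hi
      have h1R : ∑ i ∈ Ra, F i = ∑ i ∈ Ra, ((if u i = k then (1 : ZMod 2) else 0) +
          (if d i - u i = k then (1 : ZMod 2) else 0)) := by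
        refine Finset.sum_congr rfl (fun i hi => ?_)
        rw [hF]
        dsimp only
        rw [hαn i (hRA i hi), if_pos hi]
      have h4' : ∑ i ∈ (univ \ Ra) \ A.image p, F i =
          ∑ i ∈ (univ \ Ra) \ A.image p, H (d i) := by
        refine Finset.sum_congr rfl (fun i hi => ?_)
        obtain ⟨hi1, hi2⟩ := Finset.mem_sdiff.1 hi
        rw [hF, hH]
        dsimp only
        rw [hαn i hi2, if_neg (Finset.mem_sdiff.1 hi1).2]
      have h5 := Finset.sum_sdiff (f := F) hsubR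
      rw [h4', hvan H (by
        show (if c0 2 = k then (1 : ZMod 2) else 0) + (if 2 - c0 2 = k then (1 : ZMod 2) else 0) = 0
        have hc2 : c0 2 = 1 := rfl
        rw [hc2, if_neg (by omega), add_zero]), zero_add, h1, hA3 k hk, ← h1R] at h5
      have h6 := Finset.sum_sdiff (f := F) (Finset.subset_univ Ra)
      rw [← h6, ← h5]
      exact CharTwo.add_self_eq_zero _
    have := (ZMod.natCast_eq_zero_iff _ _).1 hcast
    omega
  · intro i hi
    have := h2 i
    show (d i ≤ 3 → 1 ≤ α i ∧ 1 ≤ d i - α i) ∧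
      (4 ≤ d i → 2 ≤ α i ∧ 2 ≤ d i - α i) ∧ (i ∉ Ra → 4 ≤ d i → α i = 2 ∧ d i - α i = d i - 2)
    rw [hαn i hi, hc0]
    dsimp only
    by_cases hR : i ∈ Ra
    · rw [if_pos hR]
      obtain ⟨u1, u2⟩ := hu i hR
      refine ⟨fun h => ?_, fun h => ?_, fun h => absurd hR h⟩
      · have := u1 h
        omega
      · have := u2 h
        omega
    · rw [if_neg hR]
      split_ifs <;> omega

/-- the dual condition with chosen parts of the rare degrees -/
theorem dual_conv {s : ℕ} (d : Fin s → ℕ) (F : Finset ℕ) (M : ℕ) (hM1 : 1 ≤ M)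
    (hFM : ∀ e ∈ F, e ≤ M) (u : Fin s → ℕ) (Ra : Finset (Fin s)) (hRam : ∀ i, i ∈ Ra ↔ d i ∉ F)
    (hdual : ∀ f : ℕ → ZMod 2, f 0 = 0 → f 1 = 0 →
      (∀ e ∈ F, ∀ k, k ≤ e → f k + f (e - k) = f e) →
      ∑ i, (if d i ∈ F then f (d i) else f (u i) + f (d i - u i)) = 0) :
    (∀ f : ℕ → ZMod 2, f 0 = 0 → f 1 = 0 → (∀ d ∈ F, ∀ k, k ≤ d → f k + f (d - k) = f d) →
      ∑ e ∈ F, (∑ i ∈ univ \ Ra, (if d i = e then (1 : ZMod 2) else 0)) * f e +
      ∑ k ∈ range (M + 1), (if 2 ≤ k then (∑ i ∈ Ra, ((if u i = k then (1 : ZMod 2) else 0) +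
        (if d i - u i = k then (1 : ZMod 2) else 0))) * f k else 0) = 0) ∧
    (∀ k, M < k → ∑ i ∈ Ra, ((if u i = k then (1 : ZMod 2) else 0) +
        (if d i - u i = k then (1 : ZMod 2) else 0)) = 0) := by
  classical
  have hsp : ∀ g : ℕ → ZMod 2, ∑ i, (if d i ∈ F then g (d i) else g (u i) + g (d i - u i)) =
      ∑ i ∈ univ \ Ra, g (d i) + ∑ i ∈ Ra, (g (u i) + g (d i - u i)) := by
    intro g
    rw [← Finset.sum_sdiff (Finset.subset_univ Ra)]
    congr 1
    · refine Finset.sum_congr rfl (fun i hi => ?_)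
      rw [if_pos]
      by_contra hh
      exact (Finset.mem_sdiff.1 hi).2 ((hRam i).2 hh)
    · exact Finset.sum_congr rfl (fun i hi => if_neg ((hRam i).1 hi))
  constructor
  · intro f h0 h1 hf
    set g : ℕ → ZMod 2 := fun k => if k ≤ M then f k else 0 with hg
    have hg1 : ∀ n, g n = ∑ k ∈ range (M + 1), (if 2 ≤ k then (if n = k then (1 : ZMod 2) else 0) *
        f k else 0) := by
      intro n
      by_cases hn : n ≤ M
      · rw [Finset.sum_eq_single n]
        · rw [if_pos rfl, one_mul, hg]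
          dsimp only
          rw [if_pos hn]
          by_cases h2 : 2 ≤ n
          · rw [if_pos h2]
          · rw [if_neg h2]
            have : n = 0 ∨ n = 1 := by omega
            rcases this with h | h <;> rw [h]
            · exact h0
            · exact h1
        · intro k _ hk
          rw [if_neg (Ne.symm hk), zero_mul, ite_self]
        · intro hh
          exact absurd (Finset.mem_range.2 (by omega)) hh
      · rw [Finset.sum_eq_zero]
        · exact if_neg hn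
        · intro k hk
          have := Finset.mem_range.1 hk
          rw [if_neg (by omega : ¬ n = k), zero_mul, ite_self]
    have h2 := hdual g (by rw [hg]; dsimp only; rw [if_pos (Nat.zero_le _)]; exact h0)
      (by rw [hg]; dsimp only; rw [if_pos hM1]; exact h1) (fun e he k hk => by
        have := hFM e he
        rw [hg]; dsimp only
        rw [if_pos (by omega), if_pos (by omega), if_pos (by omega)]
        exact hf e he k hk)
    rw [hsp] at h2
    refine Eq.trans ?_ h2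
    congr 1
    · simp only [Finset.sum_mul]
      rw [Finset.sum_comm]
      refine Finset.sum_congr rfl (fun i hi => ?_)
      have hiF : d i ∈ F := by
        by_contra hh
        exact (Finset.mem_sdiff.1 hi).2 ((hRam i).2 hh)
      rw [Finset.sum_eq_single (d i)]
      · rw [if_pos rfl, one_mul, hg]
        dsimp only
        rw [if_pos (hFM _ hiF)]
      · intro e _ he
        rw [if_neg (Ne.symm he), zero_mul]
      · intro hh
        exact absurd hiF hh
    · have h3 : ∀ i ∈ Ra, g (u i) + g (d i - u i) = ∑ k ∈ range (M + 1), (if 2 ≤ k then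
          ((if u i = k then (1 : ZMod 2) else 0) + (if d i - u i = k then (1 : ZMod 2) else 0)) *
            f k else 0) := by
        intro i _
        rw [hg1 (u i), hg1 (d i - u i), ← Finset.sum_add_distrib]
        refine Finset.sum_congr rfl (fun k _ => ?_)
        split_ifs <;> ring
      rw [Finset.sum_congr rfl h3, Finset.sum_comm]
      refine Finset.sum_congr rfl (fun k _ => ?_)
      by_cases h2 : 2 ≤ k
      · rw [if_pos h2, Finset.sum_mul]
        exact Finset.sum_congr rfl (fun i _ => (if_pos h2).symm)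
      · rw [if_neg h2]
        exact (Finset.sum_eq_zero (fun i _ => if_neg h2)).symm
  · intro k hk
    have h2 := hdual (fun n => if n = k then 1 else 0) (if_neg (by omega)) (if_neg (by omega))
      (fun e he j hj => by
        have := hFM e he
        show (if j = k then (1 : ZMod 2) else 0) + (if e - j = k then (1 : ZMod 2) else 0) =
          if e = k then 1 else 0
        rw [if_neg (by omega), if_neg (by omega), if_neg (by omega), add_zero])
    rw [hsp (fun n => if n = k then 1 else 0)] at h2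
    rw [Finset.sum_eq_zero (s := univ \ Ra), zero_add] at h2
    · exact h2
    · intro i hi
      have hiF : d i ∈ F := by
        by_contra hh
        exact (Finset.mem_sdiff.1 hi).2 ((hRam i).2 hh)
      have := hFM _ hiF
      exact if_neg (by omega)

variable {V : Type} [Fintype V]

/-- parts when the values in `F` are frequent and the others are arbitrary -/
theorem dual_parts5 {G : SimpleGraph V} {s : ℕ} {v : Fin s → V} (h : IsSpine G v) (hs : 0 < s)
    (M : ℕ) (hM4 : 4 ≤ M + 1) (F : Finset ℕ) (hF2 : ∀ e ∈ F, 2 ≤ e) (hFM : ∀ e ∈ F, e ≤ M)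
    (u : Fin s → ℕ) (hu' : ∀ i, deg G (v i) ∉ F → (deg G (v i) ≤ 3 → u i = 1) ∧
      (4 ≤ deg G (v i) → 2 ≤ u i ∧ u i + 2 ≤ deg G (v i)))
    (hrich : ∀ e ∈ F, 30 * (M + 1) ≤ (univ.filter (fun j => deg G (v j) = e)).card)
    (h3 : ∀ i, deg G (v i) = 3 → 3 ∈ F)
    (hdual : ∀ f : ℕ → ZMod 2, f 0 = 0 → f 1 = 0 →
      (∀ e ∈ F, ∀ k, k ≤ e → f k + f (e - k) = f e) →
      ∑ i, (if deg G (v i) ∈ F then f (deg G (v i)) else f (u i) + f (deg G (v i) - u i)) = 0) :
    ∃ (P : Finset (Fin s)) (a b : Fin s → ℕ), P.card ≤ 2 * (M + 1) ∧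
      (∀ i ∈ P, ∀ j ∈ P, i < j → ∃ k : Fin s, i < k ∧ k < j ∧ 3 ≤ deg G (v k)) ∧
      (∀ i, a i + b i = deg G (v i)) ∧ (∀ i ∈ P, a i ≠ 1 ∨ b i ≠ 1) ∧
      (∀ k, 2 ≤ k → (cx a univ k + cx b univ k) % 2 = 0) ∧
      (∀ i, i ∉ P → (deg G (v i) = 2 → a i = 1 ∧ b i = 1) ∧
      (deg G (v i) = 3 → a i = 1 ∧ b i = 2) ∧ (4 ≤ deg G (v i) → 2 ≤ a i ∧ 2 ≤ b i) ∧
      (deg G (v i) ∈ F → 4 ≤ deg G (v i) → a i = 2 ∧ b i = deg G (v i) - 2)) ∧
      (univ.filter (fun i => i ∉ P ∧ deg G (v i) = 3)).card % 2 = 0 := by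
  classical
  set d : Fin s → ℕ := fun i => deg G (v i) with hd
  have h2d : ∀ i, 2 ≤ d i := h.two
  set Ra : Finset (Fin s) := univ.filter (fun i => d i ∉ F) with hRa
  have hRam : ∀ i, i ∈ Ra ↔ d i ∉ F := by intro i; rw [hRa]; simp
  have hu : ∀ i ∈ Ra, u i ≤ d i ∧ d i ≠ 3 ∧ (d i = 2 → u i = 1) ∧
      (4 ≤ d i → 2 ≤ u i ∧ u i + 2 ≤ d i) := by
    intro i hi
    have h1 := (hRam i).1 hi
    obtain ⟨u1, u2⟩ := hu' i h1
    have u1' : d i ≤ 3 → u i = 1 := u1
    have u2' : 4 ≤ d i → 2 ≤ u i ∧ u i + 2 ≤ d i := u2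
    have h4 := h2d i
    refine ⟨by omega, fun hh => h1 (by rw [hh]; exact h3 i hh), fun hh => u1' (by omega),
      u2'⟩
  have hdF : ∀ i ∈ univ \ Ra, d i ∈ F := by
    intro i hi
    by_contra hh
    exact (Finset.mem_sdiff.1 hi).2 ((hRam i).2 hh)
  obtain ⟨hcv, huM⟩ := dual_conv d F M (by omega) hFM u Ra hRam hdual
  obtain ⟨A, hAc, hA1, hA2', hA3', hA21, hA22⟩ := arcs_two_rhs F
    (fun e => ∑ i ∈ univ \ Ra, (if d i = e then (1 : ZMod 2) else 0))
    (fun k => ∑ i ∈ Ra, ((if u i = k then (1 : ZMod 2) else 0) +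
        (if d i - u i = k then (1 : ZMod 2) else 0))) M hFM hcv
  have hA2 : ∀ e, e ≠ 2 → ∑ a ∈ A, (if a.1 = e then (1 : ZMod 2) else 0) =
      ∑ i ∈ univ \ Ra, (if d i = e then (1 : ZMod 2) else 0) := by
    intro e he2
    by_cases he : e ∈ F
    · exact hA2' e he he2
    · rw [Finset.sum_eq_zero, Finset.sum_eq_zero]
      · intro i hi
        exact if_neg (fun hh => he (by rw [← hh]; exact hdF i hi))
      · intro a ha
        exact if_neg (fun hh : a.1 = e => he (by rw [← hh]; exact (hA1 a ha).1))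
  have hA3 : ∀ k, 2 ≤ k → ∑ a ∈ A, ((if a.2 = k then (1 : ZMod 2) else 0) +
        (if a.1 - a.2 = k then (1 : ZMod 2) else 0)) =
      ∑ i ∈ Ra, ((if u i = k then (1 : ZMod 2) else 0) +
        (if d i - u i = k then (1 : ZMod 2) else 0)) := by
    intro k hk
    by_cases hkM : k ≤ M
    · exact hA3' k hk hkM
    · rw [huM k (by omega), Finset.sum_eq_zero]
      · intro a ha
        obtain ⟨h1, h2⟩ := hA1 a ha
        have := hFM _ h1
        rw [if_neg (by omega), if_neg (by omega), add_zero]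
  have hex : ∀ e ∈ F, ∃ i, d i = e := by
    intro e he
    have h1 := hrich e he
    obtain ⟨i, hi⟩ := Finset.card_pos.1 (lt_of_lt_of_le (by omega) h1)
    exact ⟨i, (Finset.mem_filter.1 hi).2⟩
  obtain ⟨p, hp1, hpn⟩ := place_sep d hs A
    (fun a ha => hF2 _ (hA1 a ha).1) hA22
    (fun a ha ha2 => by
      obtain ⟨i, hi⟩ := hex _ (hA1 a ha).1
      exact ⟨i, by rw [hi, ha2]⟩)
    (fun a ha _ => by
      have h1 := hrich _ (hA1 a ha).1
      refine le_trans ?_ h1
      omega)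
  have hp2 : ∀ a ∈ A, ∀ b ∈ A, a ≠ b → (p a : ℕ) + 1 < p b ∨ (p b : ℕ) + 1 < p a := by
    intro a ha b hb hab
    rcases hpn a ha b hb hab with h1 | h1
    · obtain ⟨k, k1, k2, _⟩ := nu_between d h1
      have k1' : (p a : ℕ) < k := k1
      have k2' : (k : ℕ) < p b := k2
      omega
    · obtain ⟨k, k1, k2, _⟩ := nu_between d h1
      have k1' : (p b : ℕ) < k := k1
      have k2' : (k : ℕ) < p a := k2
      omega
  have hpR : ∀ a ∈ A, p a ∉ Ra := by
    intro a ha hh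
    exact (hRam _).1 hh (by rw [hp1 a ha]; exact (hA1 a ha).1)
  obtain ⟨hQ2, a, b, hab, hpar, hn, haA⟩ := mixed_parts3 d h2d Ra u hu A
    (fun a ha => (hA1 a ha).2) hA2 hA3 p hp1 hpR hp2
  have hPc : (A.image p).card ≤ 2 * (M + 1) := Finset.card_image_le.trans hAc
  refine ⟨A.image p, a, b, hPc, ?_, hab, ?_, hpar, fun i hi => ?_, hQ2⟩
  · intro i hi j hj hij
    obtain ⟨a', ha', rfl⟩ := Finset.mem_image.1 hi
    obtain ⟨b', hb', rfl⟩ := Finset.mem_image.1 hj
    rcases hpn a' ha' b' hb' (fun hh => absurd hij (by rw [hh]; exact lt_irrefl _)) with h1 | h1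
    · exact nu_between d h1
    · obtain ⟨k, k1, k2, _⟩ := nu_between d h1
      exact absurd (k1.trans k2) (not_lt.2 hij.le)
  · intro i hi
    obtain ⟨c, hc, rfl⟩ := Finset.mem_image.1 hi
    by_contra hno
    push Not at hno
    have e1 := haA c hc
    have e2 := hp1 c hc
    have e3 := hab (p c)
    have e4 : c = (2, 1) := Prod.ext (by show c.1 = 2; omega) (by show c.2 = 1; omega)
    exact hA21 (e4 ▸ hc)
  · obtain ⟨q1, q2, q3, q4⟩ := hn i hi
    exact ⟨q1, q2, q3, fun hF h4 => q4 (fun hh => (hRam i).1 hh hF) h4⟩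

/-- parts when the values in `F` are frequent, `3` is not in `F`, the others are arbitrary -/
theorem dual_parts6 {G : SimpleGraph V} {s : ℕ} {v : Fin s → V} (h : IsSpine G v) (hs : 0 < s)
    (M : ℕ) (hM4 : 4 ≤ M + 1) (F : Finset ℕ) (hF2 : ∀ e ∈ F, 2 ≤ e) (hFM : ∀ e ∈ F, e ≤ M)
    (u : Fin s → ℕ) (hu' : ∀ i, deg G (v i) ∉ F → (deg G (v i) ≤ 3 → u i = 1) ∧
      (4 ≤ deg G (v i) → 2 ≤ u i ∧ u i + 2 ≤ deg G (v i)))
    (hrich : ∀ e ∈ F, 30 * (M + 1) ≤ (univ.filter (fun j => deg G (v j) = e)).card)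
    (h3 : 3 ∉ F)
    (hdual : ∀ f : ℕ → ZMod 2, f 0 = 0 → f 1 = 0 →
      (∀ e ∈ F, ∀ k, k ≤ e → f k + f (e - k) = f e) →
      ∑ i, (if deg G (v i) ∈ F then f (deg G (v i)) else f (u i) + f (deg G (v i) - u i)) = 0) :
    ∃ (P : Finset (Fin s)) (a b : Fin s → ℕ), P.card ≤ 2 * (M + 1) ∧
      (∀ i ∈ P, ∀ j ∈ P, i < j → ∃ k : Fin s, i < k ∧ k < j ∧ 4 ≤ deg G (v k)) ∧
      (∀ i, a i + b i = deg G (v i)) ∧ (∀ i ∈ P, a i ≠ 1 ∨ b i ≠ 1) ∧
      (∀ k, 2 ≤ k → (cx a univ k + cx b univ k) % 2 = 0) ∧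
      (∀ i, i ∉ P → (deg G (v i) ≤ 3 → 1 ≤ a i ∧ 1 ≤ b i) ∧ (4 ≤ deg G (v i) → 2 ≤ a i ∧ 2 ≤ b i) ∧
      (deg G (v i) ∈ F → 4 ≤ deg G (v i) → a i = 2 ∧ b i = deg G (v i) - 2)) := by
  classical
  set d : Fin s → ℕ := fun i => deg G (v i) with hd
  have h2d : ∀ i, 2 ≤ d i := h.two
  set Ra : Finset (Fin s) := univ.filter (fun i => d i ∉ F) with hRa
  have hRam : ∀ i, i ∈ Ra ↔ d i ∉ F := by intro i; rw [hRa]; simp
  have hu : ∀ i ∈ Ra, (d i ≤ 3 → u i = 1) ∧ (4 ≤ d i → 2 ≤ u i ∧ u i + 2 ≤ d i) := by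
    intro i hi
    have h1 := (hRam i).1 hi
    obtain ⟨u1, u2⟩ := hu' i h1
    have u1' : d i ≤ 3 → u i = 1 := u1
    have u2' : 4 ≤ d i → 2 ≤ u i ∧ u i + 2 ≤ d i := u2
    exact ⟨u1', u2'⟩
  have hdF : ∀ i ∈ univ \ Ra, d i ∈ F := by
    intro i hi
    by_contra hh
    exact (Finset.mem_sdiff.1 hi).2 ((hRam i).2 hh)
  obtain ⟨hcv, huM⟩ := dual_conv d F M (by omega) hFM u Ra hRam hdual
  obtain ⟨A, hAc, hA1, hA2', hA3', hA21, hA22⟩ := arcs_two_rhs F
    (fun e => ∑ i ∈ univ \ Ra, (if d i = e then (1 : ZMod 2) else 0))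
    (fun k => ∑ i ∈ Ra, ((if u i = k then (1 : ZMod 2) else 0) +
        (if d i - u i = k then (1 : ZMod 2) else 0))) M hFM hcv
  have hA2 : ∀ e, e ≠ 2 → ∑ a ∈ A, (if a.1 = e then (1 : ZMod 2) else 0) =
      ∑ i ∈ univ \ Ra, (if d i = e then (1 : ZMod 2) else 0) := by
    intro e he2
    by_cases he : e ∈ F
    · exact hA2' e he he2
    · rw [Finset.sum_eq_zero, Finset.sum_eq_zero]
      · intro i hi
        exact if_neg (fun hh => he (by rw [← hh]; exact hdF i hi))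
      · intro a ha
        exact if_neg (fun hh : a.1 = e => he (by rw [← hh]; exact (hA1 a ha).1))
  have hA3 : ∀ k, 2 ≤ k → ∑ a ∈ A, ((if a.2 = k then (1 : ZMod 2) else 0) +
        (if a.1 - a.2 = k then (1 : ZMod 2) else 0)) =
      ∑ i ∈ Ra, ((if u i = k then (1 : ZMod 2) else 0) +
        (if d i - u i = k then (1 : ZMod 2) else 0)) := by
    intro k hk
    by_cases hkM : k ≤ M
    · exact hA3' k hk hkM
    · rw [huM k (by omega), Finset.sum_eq_zero]
      · intro a ha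
        obtain ⟨h1, h2⟩ := hA1 a ha
        have := hFM _ h1
        rw [if_neg (by omega), if_neg (by omega), add_zero]
  have hex : ∀ e ∈ F, ∃ i, d i = e := by
    intro e he
    have h1 := hrich e he
    obtain ⟨i, hi⟩ := Finset.card_pos.1 (lt_of_lt_of_le (by omega) h1)
    exact ⟨i, (Finset.mem_filter.1 hi).2⟩
  set d0 : Fin s → ℕ := fun i => if d i = 3 then 0 else d i with hd0
  have hd0e : ∀ i e, e ∈ F → (d0 i = e ↔ d i = e) := by
    intro i e he
    have h5 := hF2 e he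
    have h6 : e ≠ 3 := fun hh => h3 (hh ▸ he)
    rw [hd0]
    dsimp only
    split_ifs with h7 <;> omega
  obtain ⟨p, hp1', hpn'⟩ := place_sep d0 hs A
    (fun a ha => hF2 _ (hA1 a ha).1) hA22
    (fun a ha ha2 => by
      obtain ⟨i, hi⟩ := hex _ (hA1 a ha).1
      exact ⟨i, by rw [(hd0e i _ (hA1 a ha).1).2 hi, ha2]⟩)
    (fun a ha _ => by
      have h1 := hrich _ (hA1 a ha).1
      have h2 : (univ.filter (fun i => d0 i = a.1)) = univ.filter (fun i => d i = a.1) :=
        Finset.filter_congr (fun i _ => hd0e i _ (hA1 a ha).1)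
      rw [h2]
      refine le_trans ?_ h1
      omega)
  have hp1 : ∀ a ∈ A, d (p a) = a.1 := fun a ha => (hd0e _ _ (hA1 a ha).1).1 (hp1' a ha)
  have hpn : ∀ a ∈ A, ∀ b ∈ A, a ≠ b → (∃ k : Fin s, p a < k ∧ k < p b ∧ 4 ≤ d k) ∨
      ∃ k : Fin s, p b < k ∧ k < p a ∧ 4 ≤ d k := by
    have h8 : ∀ k, 3 ≤ d0 k → 4 ≤ d k := by
      intro k hk
      rw [hd0] at hk
      dsimp only at hk
      split_ifs at hk with h7 <;> omega
    intro a ha b hb hab
    rcases hpn' a ha b hb hab with h1 | h1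
    · obtain ⟨k, k1, k2, k3⟩ := nu_between d0 h1
      exact Or.inl ⟨k, k1, k2, h8 k k3⟩
    · obtain ⟨k, k1, k2, k3⟩ := nu_between d0 h1
      exact Or.inr ⟨k, k1, k2, h8 k k3⟩
  have hp2 : ∀ a ∈ A, ∀ b ∈ A, a ≠ b → (p a : ℕ) + 1 < p b ∨ (p b : ℕ) + 1 < p a := by
    intro a ha b hb hab
    rcases hpn a ha b hb hab with ⟨k, k1, k2, _⟩ | ⟨k, k1, k2, _⟩
    · have k1' : (p a : ℕ) < k := k1
      have k2' : (k : ℕ) < p b := k2
      omega
    · have _h0 := k1
      have k1' : (p b : ℕ) < k := k1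
      have k2' : (k : ℕ) < p a := k2
      omega
  have hpR : ∀ a ∈ A, p a ∉ Ra := by
    intro a ha hh
    exact (hRam _).1 hh (by rw [hp1 a ha]; exact (hA1 a ha).1)
  obtain ⟨a, b, hab, hpar, hn, haA⟩ := mixed_parts4 d h2d Ra u hu A
    (fun a ha => (hA1 a ha).2) hA2 hA3 p hp1 hpR hp2
  have hPc : (A.image p).card ≤ 2 * (M + 1) := Finset.card_image_le.trans hAc
  refine ⟨A.image p, a, b, hPc, ?_, hab, ?_, hpar, fun i hi => ?_⟩
  · intro i hi j hj hij
    obtain ⟨a', ha', rfl⟩ := Finset.mem_image.1 hi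
    obtain ⟨b', hb', rfl⟩ := Finset.mem_image.1 hj
    rcases hpn a' ha' b' hb' (fun hh => absurd hij (by rw [hh]; exact lt_irrefl _)) with
      ⟨k, k1, k2, k3⟩ | ⟨k, k1, k2, _⟩
    · exact ⟨k, k1, k2, k3⟩
    · exact absurd (k1.trans k2) (not_lt.2 hij.le)
  · intro i hi
    obtain ⟨c, hc, rfl⟩ := Finset.mem_image.1 hi
    by_contra hno
    push Not at hno
    have e1 := haA c hc
    have e2 := hp1 c hc
    have e3 := hab (p c)
    have e4 : c = (2, 1) := Prod.ext (by show c.1 = 2; omega) (by show c.2 = 1; omega)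
    exact hA21 (e4 ▸ hc)
  · obtain ⟨q1, q3, q4⟩ := hn i hi
    exact ⟨q1, q3, fun hF h4 => q4 (fun hh => (hRam i).1 hh hF) h4⟩

end Pool.Agent.W_e8e3a0
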