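import Pool.Agent.W_e8e3a0.RareF49

/-! Frequent values with two consecutive ones among them, the other spine degrees arbitrary. -/

namespace Pool.Agent.W_e8e3a0

open Finset Num49

variable {V : Type} [Fintype V]

/-- frequent values and the dual condition with chosen parts of the rare spine degrees -/
theorem rare_full {G : SimpleGraph V} {s : ℕ} {v : Fin s → V} (h : IsSpine G v) (hs : 0 < s)
    (hev : Even G.edgeSet.ncard) (M : ℕ) (F : Finset ℕ) (hFM : ∀ e ∈ F, e ≤ M)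
    (u : Fin s → ℕ) (hu : ∀ i, deg G (v i) ∉ F → (deg G (v i) ≤ 3 → u i = 1) ∧
      (4 ≤ deg G (v i) → 2 ≤ u i ∧ u i + 2 ≤ deg G (v i)))
    (hrich : ∀ e ∈ F, 100 * (M + 1) ≤ {j | deg G (v j) = e}.ncard)
    (hF : 3 ∈ F ∨ (∃ c ∈ F, c + 1 ∈ F) ∨
      (F.Nonempty ∧ {i | deg G (v i) ≤ 3}.ncard ≤ 50 * (M + 1)))
    (hdual : ∀ f : ℕ → ZMod 2, f 0 = 0 → f 1 = 0 →
      (∀ e ∈ F, ∀ k, k ≤ e → f k + f (e - k) = f e) →
      ∑ i, (if deg G (v i) ∈ F then f (deg G (v i)) else f (u i) + f (deg G (v i) - u i)) = 0) :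
    Splittable G := by
  classical
  have h2d : ∀ i, 2 ≤ deg G (v i) := h.two
  have hr : ∀ e ∈ F, 100 * (M + 1) ≤ (univ.filter (fun j => deg G (v j) = e)).card := by
    intro e he
    have h1 := hrich e he
    rw [Set.ncard_eq_toFinset_card'] at h1
    refine h1.trans (Finset.card_le_card (fun j hj => ?_))
    rw [Set.mem_toFinset] at hj
    exact Finset.mem_filter.2 ⟨Finset.mem_univ _, hj⟩
  have hex : ∀ e ∈ F, ∃ i, deg G (v i) = e := by
    intro e he
    have h1 := hr e he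
    obtain ⟨i, hi⟩ := Finset.card_pos.1 (lt_of_lt_of_le (by omega) h1)
    exact ⟨i, (Finset.mem_filter.1 hi).2⟩
  have hF2 : ∀ e ∈ F, 2 ≤ e := by
    intro e he
    obtain ⟨i, hi⟩ := hex e he
    rw [← hi]; exact h2d i
  have h50 : {i | deg G (v i) ≤ 3}.ncard = (univ.filter (fun i => deg G (v i) ≤ 3)).card := by
    rw [Set.ncard_eq_toFinset_card']
    congr 1
    ext i
    simp
  have hM4 : 4 ≤ M + 1 := by
    rcases hF with h1 | ⟨c, hcF, hcF1⟩ | ⟨⟨e, he⟩, h1⟩
    · have h2 := hFM _ h1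
      omega
    · have h1 := hF2 c hcF
      have h2 := hFM _ hcF1
      omega
    · have h2 := hFM _ he
      by_contra hh
      have h3 : (univ.filter (fun j => deg G (v j) = e)).card ≤
          (univ.filter (fun i => deg G (v i) ≤ 3)).card := by
        refine Finset.card_le_card (fun j hj => ?_)
        have h4 := (Finset.mem_filter.1 hj).2
        exact Finset.mem_filter.2 ⟨Finset.mem_univ _, by omega⟩
      have h5 := hr e he
      rw [h50] at h1
      omega
  have hr30 : ∀ e ∈ F, 30 * (M + 1) ≤ (univ.filter (fun j => deg G (v j) = e)).card :=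
    fun e he => le_trans (by omega) (hr e he)
  by_cases h3F : 3 ∈ F
  · obtain ⟨P, a, b, hPc, hPsep, hab, hPs, hpar, hn, hQ2⟩ :=
      dual_parts5 h hs M hM4 F hF2 hFM u hu hr30 (fun _ _ => h3F) hdual
    have hn1 : ∀ i, i ∉ P → (deg G (v i) = 2 → a i = 1 ∧ b i = 1) ∧
        (deg G (v i) = 3 → a i = 1 ∧ b i = 2) ∧ (4 ≤ deg G (v i) → 2 ≤ a i ∧ 2 ≤ b i) :=
      fun i hi => ⟨(hn i hi).1, (hn i hi).2.1, (hn i hi).2.2.1⟩
    set GP : Finset (Fin s × Fin s) := univ.filter (fun p => p.1 < p.2 ∧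
      3 ≤ deg G (v p.1) ∧ 3 ≤ deg G (v p.2) ∧ ∀ k, p.1 < k → k < p.2 → deg G (v k) = 2) with hGP
    have hGPm : ∀ p ∈ GP, p.1 < p.2 ∧ 3 ≤ deg G (v p.1) ∧ 3 ≤ deg G (v p.2) ∧
        ∀ k, p.1 < k → k < p.2 → deg G (v k) = 2 := fun p hp => (Finset.mem_filter.1 hp).2
    have hGPd : ∀ p ∈ GP, ∀ q ∈ GP, p ≠ q → p.2 ≤ q.1 ∨ q.2 ≤ p.1 := fun p hp q hq hpq =>
      gaps_disj (fun i => deg G (v i)) p q (hGPm p hp) (hGPm q hq) hpq
    have hGPc : (univ.filter (fun i => 3 ≤ deg G (v i))).card ≤ GP.card + 1 :=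
      gaps_card (fun i => deg G (v i)) h2d
    have hsplit := Finset.card_filter_add_card_filter_not (s := GP)
      (fun p : Fin s × Fin s => Odd ((p.2 : ℕ) - p.1))
    have hQle : (univ.filter (fun j => deg G (v j) = 3)).card ≤
        (univ.filter (fun i => i ∉ P ∧ deg G (v i) = 3)).card + P.card := by
      rw [← Finset.card_union_of_disjoint]
      · refine Finset.card_le_card (fun j hj => ?_)
        rw [Finset.mem_union]
        by_cases hjP : j ∈ P
        · exact Or.inr hjP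
        · exact Or.inl (Finset.mem_filter.2 ⟨Finset.mem_univ _, hjP,
            (Finset.mem_filter.1 hj).2⟩)
      · rw [Finset.disjoint_left]
        intro j hj hj2
        exact (Finset.mem_filter.1 hj).2.1 hj2
    have h1 : (univ.filter (fun j => deg G (v j) = 3)).card ≤
        (univ.filter (fun j => 3 ≤ deg G (v j))).card := by
      refine Finset.card_le_card (fun j hj => ?_)
      have := (Finset.mem_filter.1 hj).2
      exact Finset.mem_filter.2 ⟨Finset.mem_univ _, by omega⟩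
    have h2 := hr 3 h3F
    by_cases hodd : 20 * (M + 1) ≤ (GP.filter (fun p => Odd ((p.2 : ℕ) - p.1))).card
    · refine wide_split2 h hev P hPsep a b hab hPs hpar hn1
        (univ.filter (fun i => i ∉ P ∧ deg G (v i) = 3)) (by intro i; simp) hQ2
        (GP.filter (fun p => Odd ((p.2 : ℕ) - p.1))) (fun p hp => ?_)
        (fun p hp q hq hpq =>
          hGPd p (Finset.mem_filter.1 hp).1 q (Finset.mem_filter.1 hq).1 hpq) (by omega)
          (Or.inr (by omega))
      obtain ⟨k1, k2⟩ := Finset.mem_filter.1 hp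
      obtain ⟨k3, k4, k5, k6⟩ := hGPm p k1
      exact ⟨k3, Nat.odd_iff.1 k2, k4, k5⟩
    · refine even_split h hev P hPsep a b hab hPs hpar hn1 _ (by intro i; simp) hQ2
        (GP.filter (fun p => ¬ Odd ((p.2 : ℕ) - p.1))) (fun p hp => ?_) (fun p hp q hq hpq =>
          hGPd p (Finset.mem_filter.1 hp).1 q (Finset.mem_filter.1 hq).1 hpq) (by omega) (by omega)
      obtain ⟨k1, k2⟩ := Finset.mem_filter.1 hp
      obtain ⟨k3, k4, k5, k6⟩ := hGPm p k1
      rw [Nat.not_odd_iff] at k2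
      exact ⟨k3, k2, k4, k5, k6⟩
  -- three is rare
  obtain ⟨P, a, b, hPc, hPsep, hab, hPs, hpar, hn⟩ :=
    dual_parts6 h hs M hM4 F hF2 hFM u hu hr30 h3F hdual
  set d' : Fin s → ℕ := fun i => if deg G (v i) = 3 then 2 else deg G (v i) with hd'
  have h2d' : ∀ i, 2 ≤ d' i := by
    intro i
    have := h2d i
    rw [hd']; dsimp only; split_ifs <;> omega
  have hd4 : ∀ i, 3 ≤ d' i → 4 ≤ deg G (v i) := by
    intro i hi
    rw [hd'] at hi; dsimp only at hi; split_ifs at hi <;> omega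
  have hd2 : ∀ i, d' i = 2 → deg G (v i) ≤ 3 := by
    intro i hi
    rw [hd'] at hi; dsimp only at hi; split_ifs at hi <;> omega
  have hde : ∀ i e, 4 ≤ e → (d' i = e ↔ deg G (v i) = e) := by
    intro i e he
    rw [hd']; dsimp only; split_ifs <;> omega
  set OG : Finset (Fin s × Fin s) := univ.filter (fun p : Fin s × Fin s => IsGap d' p ∧
      ¬ ((p.2 : ℕ) - p.1) % 2 = 0) with hOG
  by_cases hodd : 20 * (M + 1) ≤ OG.card
  · refine wide_split4 h hev P hPsep a b hab hPs hpar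
      (fun i hi => ⟨(hn i hi).1, (hn i hi).2.1⟩) OG (fun p hp => ?_)
      (fun p hp q hq hpq => gaps_disj d' p q (Finset.mem_filter.1 hp).2.1
        (Finset.mem_filter.1 hq).2.1 hpq) (by omega)
    obtain ⟨_, ⟨k1, k2, k3, _⟩, k5⟩ := Finset.mem_filter.1 hp
    exact ⟨k1, by omega, hd4 _ k2, hd4 _ k3⟩
  rw [hOG] at hodd
  rcases hF with hF | ⟨c, hcF, hcF1⟩ | ⟨⟨e, he⟩, h1⟩
  · exact absurd hF h3F
  rotate_left
  · -- few gaps contain vertices
    exfalso
    rw [h50] at h1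
    have he4 : 4 ≤ e := by
      by_contra hh
      have h3 : (univ.filter (fun j => deg G (v j) = e)).card ≤
          (univ.filter (fun i => deg G (v i) ≤ 3)).card := by
        refine Finset.card_le_card (fun j hj => ?_)
        have h4 := (Finset.mem_filter.1 hj).2
        exact Finset.mem_filter.2 ⟨Finset.mem_univ _, by omega⟩
      have h5 := hr e he
      omega
    have hg1 : (univ.filter (fun i => 3 ≤ d' i)).card ≤ (univ.filter (fun p : Fin s × Fin s =>
        p.1 < p.2 ∧ 3 ≤ d' p.1 ∧ 3 ≤ d' p.2 ∧ ∀ k, p.1 < k → k < p.2 → d' k = 2)).card + 1 :=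
      gaps_card d' h2d'
    have hg2 : (univ.filter (fun j => deg G (v j) = e)).card ≤
        (univ.filter (fun i => 3 ≤ d' i)).card := by
      refine Finset.card_le_card (fun j hj => ?_)
      have h4 := (hde j e he4).2 (Finset.mem_filter.1 hj).2
      exact Finset.mem_filter.2 ⟨Finset.mem_univ _, by omega⟩
    have hg3 := Finset.card_filter_add_card_filter_not (s := univ.filter (fun p : Fin s × Fin s =>
        p.1 < p.2 ∧ 3 ≤ d' p.1 ∧ 3 ≤ d' p.2 ∧ ∀ k, p.1 < k → k < p.2 → d' k = 2))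
      (fun p : Fin s × Fin s => ((p.2 : ℕ) - p.1) % 2 = 0)
    have hg4 : (Finset.filter (fun p : Fin s × Fin s => ¬ ((p.2 : ℕ) - p.1) % 2 = 0)
        (univ.filter (fun p : Fin s × Fin s =>
        p.1 < p.2 ∧ 3 ≤ d' p.1 ∧ 3 ≤ d' p.2 ∧ ∀ k, p.1 < k → k < p.2 → d' k = 2))).card <
        20 * (M + 1) := by
      refine lt_of_le_of_lt (Finset.card_le_card (fun p hp => ?_)) (not_le.1 hodd)
      obtain ⟨k1, k2⟩ := Finset.mem_filter.1 hp
      exact Finset.mem_filter.2 ⟨Finset.mem_univ _, (Finset.mem_filter.1 k1).2, k2⟩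
    have hg5 : (Finset.filter (fun p : Fin s × Fin s => ((p.2 : ℕ) - p.1) % 2 = 0)
        (univ.filter (fun p : Fin s × Fin s =>
        p.1 < p.2 ∧ 3 ≤ d' p.1 ∧ 3 ≤ d' p.2 ∧ ∀ k, p.1 < k → k < p.2 → d' k = 2))).card ≤
        (univ.filter (fun i => deg G (v i) ≤ 3)).card := by
      have hs1 : ∀ p : Fin s × Fin s, (p.1 : ℕ) < p.2 → ((p.2 : ℕ) - p.1) % 2 = 0 →
          (p.1 : ℕ) + 1 < p.2 ∧ (p.1 : ℕ) + 1 < s := by
        intro p h6 h7
        have h8 := p.2.2
        omega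
      refine Finset.card_le_card_of_injOn (fun p : Fin s × Fin s =>
        if hp : (p.1 : ℕ) + 1 < s then ⟨(p.1 : ℕ) + 1, hp⟩ else p.1) (fun p hp => ?_) ?_
      · obtain ⟨k1, k2⟩ := Finset.mem_filter.1 (Finset.mem_coe.1 hp)
        obtain ⟨_, q1, q2, q3, q4⟩ := Finset.mem_filter.1 k1
        obtain ⟨w1, w2⟩ := hs1 p q1 k2
        dsimp only
        rw [dif_pos w2]
        refine Finset.mem_coe.2 (Finset.mem_filter.2 ⟨Finset.mem_univ _, hd2 _ (q4 _ ?_ w1)⟩)
        show (p.1 : ℕ) < p.1 + 1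
        omega
      · intro p hp q hq hpq
        obtain ⟨k1, k2⟩ := Finset.mem_filter.1 (Finset.mem_coe.1 hp)
        obtain ⟨_, q1, q2, q3, q4⟩ := Finset.mem_filter.1 k1
        obtain ⟨w1, w2⟩ := hs1 p q1 k2
        obtain ⟨k1', k2'⟩ := Finset.mem_filter.1 (Finset.mem_coe.1 hq)
        obtain ⟨_, q1', q2', q3', q4'⟩ := Finset.mem_filter.1 k1'
        obtain ⟨w1', w2'⟩ := hs1 q q1' k2'
        dsimp only at hpq
        rw [dif_pos w2, dif_pos w2'] at hpq
        by_contra hne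
        have h6 : (p.1 : ℕ) + 1 = (q.1 : ℕ) + 1 := congrArg Fin.val hpq
        rcases gaps_disj d' p q ⟨q1, q2, q3, q4⟩ ⟨q1', q2', q3', q4'⟩ hne with h7 | h7
        · have h7' : (p.2 : ℕ) ≤ q.1 := h7
          omega
        · have h7' : (q.2 : ℕ) ≤ p.1 := h7
          omega
    have h5 := hr e he
    omega
  have hc : 4 ≤ c := by
    have a1 := hF2 c hcF
    have a2 : c ≠ 3 := fun hh => h3F (hh ▸ hcF)
    have a3 : c + 1 ≠ 3 := fun hh => h3F (hh ▸ hcF1)
    omega
  have n0 : 100 * (M + 1) ≤ (univ.filter (fun j => d' j = c)).card := by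
    rw [Finset.filter_congr (fun i _ => hde i c hc)]
    exact hr c hcF
  have n1 : 100 * (M + 1) ≤ (univ.filter (fun j => d' j = c + 1)).card := by
    rw [Finset.filter_congr (fun i _ => hde i (c + 1) (by omega))]
    exact hr (c + 1) hcF1
  have m0 := cand_count d' h2d' P c (by omega)
  have m1 := cand_count d' h2d' P (c + 1) (by omega)
  obtain ⟨R0, hR0T, R1, hR1T, c0, c1, hsep⟩ := pick_sep2 d'
    (2 * (2 * P.card + 1))
    (univ.filter (fun i => d' i = c ∧ ∃ ab, Cand d' P i ab))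
    (univ.filter (fun i => d' i = c + 1 ∧ ∃ ab, Cand d' P i ab))
    (fun i hi => by have h5 := (Finset.mem_filter.1 hi).2.1; omega)
    (fun i hi => by have h5 := (Finset.mem_filter.1 hi).2.1; omega)
    (by omega) (by omega)
  have hex2 : ∀ i, i ∈ R0 ∪ R1 → ∃ ab, Cand d' P i ab := by
    intro i hi
    rcases Finset.mem_union.1 hi with h2 | h2
    · exact (Finset.mem_filter.1 (hR0T h2)).2.2
    · exact (Finset.mem_filter.1 (hR1T h2)).2.2
  have hR0d : ∀ i ∈ R0, deg G (v i) = c := fun i hi =>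
    (hde i c hc).1 (Finset.mem_filter.1 (hR0T hi)).2.1
  have hR1d : ∀ i ∈ R1, deg G (v i) = c + 1 := fun i hi =>
    (hde i (c + 1) (by omega)).1 (Finset.mem_filter.1 (hR1T hi)).2.1
  have hdR : ∀ i ∈ R0 ∪ R1, i ∉ P ∧ deg G (v i) ∈ F ∧ 4 ≤ deg G (v i) := by
    intro i hi
    obtain ⟨ab, g1, g2, g3, g4, g5⟩ := hex2 i hi
    refine ⟨fun hP => g5 i hP ⟨g1.1.le, g2.1.le⟩, ?_⟩
    rcases Finset.mem_union.1 hi with h2 | h2
    · rw [hR0d i h2]
      exact ⟨hcF, hc⟩
    · rw [hR1d i h2]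
      exact ⟨hcF1, by omega⟩
  have : Nonempty (Fin s × Fin s) := ⟨(⟨0, hs⟩, ⟨0, hs⟩)⟩
  choose! f hf using hex2
  refine cons_split4 h hev P hPsep a b hab hPs hpar
    (fun i hi => ⟨(hn i hi).1, (hn i hi).2.1⟩) c hc R0 R1
    (fun i hi => (hn i (hdR i hi).1).2.2 (hdR i hi).2.1 (hdR i hi).2.2)
    hR0d hR1d c0 c1 (fun i => (f i).1)
    (fun i => (f i).2) (fun i hi => ?_) (fun i hi j hj hij => ?_)
  · obtain ⟨g1, g2, g3, g4, g5⟩ := hf i hi
    exact ⟨g1.1, g2.1, g3, g4, hd4 _ g1.2.1, hd4 _ g2.2.2.1,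
      fun k k1 k2 => hd2 _ (g1.2.2.2 k k1 k2), fun k k1 k2 => hd2 _ (g2.2.2.2 k k1 k2), g5⟩
  · have hord : ∀ i ∈ R0 ∪ R1, ∀ j ∈ R0 ∪ R1, nu d' i + 2 ≤ nu d' j → (f i).2 ≤ (f j).1 := by
      intro i hi j hj hn2
      obtain ⟨k, k1, k2, k3⟩ := nu_between d' hn2
      obtain ⟨_, g2, _⟩ := hf i hi
      obtain ⟨g1, _⟩ := hf j hj
      have e1 : (f i).2 ≤ k := by
        by_contra hh
        have h5 : d' k = 2 := g2.2.2.2 k k1 (not_le.1 hh)
        omega
      have e2 : k ≤ (f j).1 := by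
        by_contra hh
        have h5 : d' k = 2 := g1.2.2.2 k (not_le.1 hh) k2
        omega
      exact e1.trans e2
    rcases hsep i hi j hj hij with h2 | h2
    · exact Or.inl (hord i hi j hj h2)
    · exact Or.inr (hord j hj i hi h2)

/-- the dual condition with parts of the rare spine degrees is necessary -/
theorem rare_nec {G : SimpleGraph V} {s : ℕ} {v : Fin s → V} (h : IsSpine G v)
    (hG : Splittable G) : ∃ u : Fin s → ℕ, (∀ i, u i ≤ deg G (v i)) ∧
      ∀ (F : Finset ℕ) (f : ℕ → ZMod 2), f 0 = 0 → f 1 = 0 →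
      (∀ e ∈ F, ∀ k, k ≤ e → f k + f (e - k) = f e) →
      ∑ i, (if deg G (v i) ∈ F then f (deg G (v i)) else f (u i) + f (deg G (v i) - u i)) = 0 := by
  classical
  obtain ⟨x, y, C, D, hxy, hk, _⟩ := (formZ h).1 hG
  refine ⟨x, fun i => by have := hxy i; omega, fun F f h0 h1 hf => ?_⟩
  have e1 : ∀ i, (if deg G (v i) ∈ F then f (deg G (v i)) else f (x i) + f (deg G (v i) - x i)) =
      f (x i) + f (y i) := by
    intro i
    have h2 := hxy i
    have h3 : deg G (v i) - x i = y i := by omega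
    by_cases hi : deg G (v i) ∈ F
    · rw [if_pos hi, ← h3]
      exact (hf _ hi (x i) (by omega)).symm
    · rw [if_neg hi, h3]
  rw [Finset.sum_congr rfl (fun i _ => e1 i), Finset.sum_add_distrib]
  obtain ⟨N, hN1, hN2⟩ : ∃ N, (∀ i ∈ (univ : Finset (Fin s)), x i < N) ∧
      (∀ i ∈ (univ : Finset (Fin s)), y i < N) := by
    refine ⟨∑ i, x i + ∑ i, y i + 1, fun i hi => ?_, fun i hi => ?_⟩
    · have := Finset.single_le_sum (f := x) (fun _ _ => Nat.zero_le _) hi
      omega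
    · have := Finset.single_le_sum (f := y) (fun _ _ => Nat.zero_le _) hi
      omega
  have e2 : ∑ i, f (x i) = ∑ i, f (y i) := by
    rw [sum_by_label univ x f N hN1, sum_by_label univ y f N hN2]
    refine Finset.sum_congr rfl (fun k _ => ?_)
    by_cases h2 : 2 ≤ k
    · congr 1
      rw [Finset.sum_boole, Finset.sum_boole, hk k h2]
    · have : k = 0 ∨ k = 1 := by omega
      rcases this with h | h <;> rw [h]
      · rw [h0, mul_zero, mul_zero]
      · rw [h1, mul_zero, mul_zero]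
  rw [e2]
  exact CharTwo.add_self_eq_zero _

end Pool.Agent.W_e8e3a0
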