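import Pool.Agent.W_e8e3a0.RareG49

/-! Frequent values containing two consecutive integers without large jumps. -/

namespace Pool.Agent.W_e8e3a0

open Finset Num49

variable {V : Type} [Fintype V]

/-- admissible functions for a set of values containing `a`, `a + 1` -/
theorem adm_zero2 (F : Finset ℕ) (M : ℕ) (hMF : M ∈ F) (f : ℕ → ZMod 2) (h0 : f 0 = 0)
    (h1 : f 1 = 0) (hf : ∀ e ∈ F, ∀ k, k ≤ e → f k + f (e - k) = f e) (a : ℕ)
    (ha : a ∈ F) (ha1 : a + 1 ∈ F)
    (hstep : ∀ e ∈ F, a + 1 < e → ∃ e' ∈ F, a < e' ∧ e' < e ∧ e ≤ 2 * e') :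
    ∀ k, k ≤ M → f k = 0 := by
  have hshift : ∀ k, k ≤ a → f (k + 1) = f k + (f a + f (a + 1)) := by
    intro k hk
    have e1 := hf a ha k (by omega)
    have e2 := hf (a + 1) ha1 (k + 1) (by omega)
    rw [show a + 1 - (k + 1) = a - k by omega] at e2
    rw [← e1, ← e2]
    generalize f k = x
    generalize f (k + 1) = y
    generalize f (a - k) = z
    revert x y z
    decide
  have hsum : f a + f (a + 1) = 0 := by
    have e := hshift 0 (Nat.zero_le _)
    rw [zero_add, h1, h0, zero_add] at e
    exact e.symm
  have hlow : ∀ k, k ≤ a + 1 → f k = 0 := by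
    intro k
    induction k with
    | zero => intro _; exact h0
    | succ k ih =>
      intro hk
      rw [hshift k (by omega), ih (by omega), hsum, add_zero]
  have hall : ∀ n, n ∈ F → a < n → ∀ k, k ≤ n → f k = 0 := by
    intro n
    induction n using Nat.strong_induction_on with
    | _ n ih =>
    intro hn han k hk
    rcases Nat.lt_or_ge (a + 1) n with hlt | hge
    · obtain ⟨e', he', hj1, hj2, hj3⟩ := hstep n hn (by omega)
      have hz := ih e' (by omega) he' hj1
      have hfn : f n = 0 := by
        have e := hf n hn e' (by omega)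
        rw [hz e' le_rfl, hz (n - e') (by omega), add_zero] at e
        exact e.symm
      rcases Nat.lt_or_ge e' k with hk2 | hk2
      · have e := hf n hn k (by omega)
        rw [hfn, hz (n - k) (by omega), add_zero] at e
        exact e
      · exact hz k hk2
    · exact hlow k (by omega)
  rcases Nat.lt_or_ge a M with h | h
  · exact hall M hMF h
  · intro k hk
    exact hlow k (by omega)

/-- frequent values, two consecutive ones among them, each larger one at most twice a smaller one,
the other spine degrees arbitrary up to the parity of the numbers of large odd ones -/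
theorem rare_consec {G : SimpleGraph V} {s : ℕ} {v : Fin s → V} (h : IsSpine G v) (hs : 0 < s)
    (M : ℕ) (F : Finset ℕ) (hMF : M ∈ F) (hFM : ∀ e ∈ F, e ≤ M)
    (hrich : ∀ e ∈ F, 100 * (M + 1) ≤ {j | deg G (v j) = e}.ncard)
    (a : ℕ) (ha : a ∈ F) (ha1 : a + 1 ∈ F)
    (hstep : ∀ e ∈ F, a + 1 < e → ∃ e' ∈ F, a < e' ∧ e' < e ∧ e ≤ 2 * e')
    (hodd : ∀ D, Odd D → 2 * M < D → Even {j | deg G (v j) = D}.ncard) :
    Splittable G ↔ Even G.edgeSet.ncard := by
  classical
  constructor
  · intro hG
    exact (necessary hs h hG).1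
  · intro hev
    have h2d : ∀ i, 2 ≤ deg G (v i) := h.two
    refine rare_full h hs hev M F hFM (fun i => deg G (v i) / 2) (fun i _ => ⟨fun h3 => ?_,
      fun h4 => ?_⟩) hrich (Or.inr (Or.inl ⟨a, ha, ha1⟩)) (fun f h0 h1 hf => ?_)
    · have := h2d i
      show deg G (v i) / 2 = 1
      omega
    · show 2 ≤ deg G (v i) / 2 ∧ deg G (v i) / 2 + 2 ≤ deg G (v i)
      omega
    · have hz := adm_zero2 F M hMF f h0 h1 hf a ha ha1 hstep
      set g : ℕ → ZMod 2 := fun D => if D ∈ F then f D else f (D / 2) + f (D - D / 2) with hg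
      have hg0 : ∀ D, ¬ (Odd D ∧ 2 * M < D) → g D = 0 := by
        intro D hD
        rw [hg]
        dsimp only
        by_cases hDF : D ∈ F
        · rw [if_pos hDF, hz D (hFM D hDF)]
        · rw [if_neg hDF]
          by_cases hDM : 2 * M < D
          · have he : ¬ Odd D := fun hh => hD ⟨hh, hDM⟩
            have he2 : D % 2 = 0 := Nat.even_iff.1 (Nat.not_odd_iff_even.1 he)
            have e1 : D - D / 2 = D / 2 := by omega
            rw [e1]
            exact CharTwo.add_self_eq_zero _
          · rw [hz (D / 2) (by omega), hz (D - D / 2) (by omega), add_zero]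
      show ∑ i, g (deg G (v i)) = 0
      rw [sum_by_label univ (fun i => deg G (v i)) g (∑ i, deg G (v i) + 1) (fun i hi => by
        have := Finset.single_le_sum (f := fun i => deg G (v i)) (fun _ _ => Nat.zero_le _) hi
        omega)]
      refine Finset.sum_eq_zero (fun D _ => ?_)
      by_cases hD : Odd D ∧ 2 * M < D
      · have h5 := hodd D hD.1 hD.2
        rw [Set.ncard_eq_toFinset_card'] at h5
        have h6 : ∑ i : Fin s, (if deg G (v i) = D then (1 : ZMod 2) else 0) = 0 := by
          rw [Finset.sum_boole]
          have h7 : (univ.filter (fun i => deg G (v i) = D)) =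
              Set.toFinset {j | deg G (v j) = D} := by
            ext i
            simp
          rw [h7]
          exact (ZMod.natCast_eq_zero_iff_even).2 h5
        rw [h6, zero_mul]
      · rw [hg0 D hD, mul_zero]

end Pool.Agent.W_e8e3a0
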