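import Pool.Agent.W_e8e3a0.RareH49

/-! Exact answer when the spine vertices of rare degree are isolated. -/

namespace Pool.Agent.W_e8e3a0

open Finset Num49

/-- parts with the parity property, arbitrary parts in `Sp` -/
theorem mixed_parts5 {s : ℕ} (d : Fin s → ℕ) (h2 : ∀ i, 2 ≤ d i) (Ra Sp : Finset (Fin s))
    (hSp : Sp ⊆ Ra)
    (u : Fin s → ℕ) (hu1 : ∀ i ∈ Ra, u i ≤ d i)
    (hu : ∀ i ∈ Ra, i ∉ Sp → (d i ≤ 3 → u i = 1) ∧
      (4 ≤ d i → 2 ≤ u i ∧ u i + 2 ≤ d i))
    (A : Finset (ℕ × ℕ)) (hA1 : ∀ a ∈ A, a.2 ≤ a.1)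
    (hA2 : ∀ e, e ≠ 2 → ∑ a ∈ A, (if a.1 = e then (1 : ZMod 2) else 0) =
      ∑ i ∈ univ \ Ra, (if d i = e then (1 : ZMod 2) else 0))
    (hA3 : ∀ k, 2 ≤ k → ∑ a ∈ A, ((if a.2 = k then (1 : ZMod 2) else 0) +
        (if a.1 - a.2 = k then (1 : ZMod 2) else 0)) =
      ∑ i ∈ Ra, ((if u i = k then (1 : ZMod 2) else 0) +
        (if d i - u i = k then (1 : ZMod 2) else 0)))
    (p : ℕ × ℕ → Fin s) (hp1 : ∀ a ∈ A, d (p a) = a.1) (hpR : ∀ a ∈ A, p a ∉ Ra)
    (hp2 : ∀ a ∈ A, ∀ b ∈ A, a ≠ b → (p a : ℕ) + 1 < p b ∨ (p b : ℕ) + 1 < p a) :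
    ∃ a b : Fin s → ℕ, (∀ i, a i + b i = d i) ∧
      (∀ k, 2 ≤ k → (cx a univ k + cx b univ k) % 2 = 0) ∧
      (∀ i, i ∉ A.image p → i ∉ Sp → (d i ≤ 3 → 1 ≤ a i ∧ 1 ≤ b i) ∧
        (4 ≤ d i → 2 ≤ a i ∧ 2 ≤ b i) ∧ (i ∉ Ra → 4 ≤ d i → a i = 2 ∧ b i = d i - 2)) ∧
      (∀ i ∈ Sp, a i = u i) ∧ (∀ c ∈ A, a (p c) = c.2) := by
  classical
  have hinj : ∀ a ∈ A, ∀ b ∈ A, p a = p b → a = b := by
    intro a ha b hb hab
    by_contra hne
    have := hp2 a ha b hb hne
    rw [hab] at this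
    omega
  obtain ⟨N, hN1, hN2⟩ : ∃ N, (∀ i ∈ (univ : Finset (Fin s)), d i < N) ∧
      (∀ a ∈ A, a.1 < N) := by
    refine ⟨∑ i, d i + ∑ a ∈ A, a.1 + 1, fun i hi => ?_, fun a ha => ?_⟩
    · have := Finset.single_le_sum (f := d) (fun _ _ => Nat.zero_le _) hi
      omega
    · have := Finset.single_le_sum (f := fun a : ℕ × ℕ => a.1)
        (fun _ _ => Nat.zero_le _) ha
      omega
  -- sums over the non-special vertices vanish
  have hsubR : A.image p ⊆ univ \ Ra := by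
    intro i hi
    obtain ⟨a, ha, rfl⟩ := Finset.mem_image.1 hi
    exact Finset.mem_sdiff.2 ⟨Finset.mem_univ _, hpR a ha⟩
  have hvan : ∀ H : ℕ → ZMod 2, H 2 = 0 → ∑ i ∈ (univ \ Ra) \ A.image p, H (d i) = 0 := by
    intro H hH2
    have h2 : ∑ i ∈ A.image p, H (d i) = ∑ a ∈ A, H a.1 := by
      rw [Finset.sum_image (fun a ha b hb hab => hinj a ha b hb hab)]
      exact Finset.sum_congr rfl (fun a ha => by rw [hp1 a ha])
    have h3 : ∑ i ∈ univ \ Ra, H (d i) = ∑ a ∈ A, H a.1 := by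
      rw [sum_by_label (univ \ Ra) d H N (fun i _ => hN1 i (Finset.mem_univ _)),
        sum_by_label A (fun a => a.1) H N hN2]
      refine Finset.sum_congr rfl (fun e _ => ?_)
      by_cases he : e = 2
      · rw [he, hH2, mul_zero, mul_zero]
      · rw [hA2 e he]
    have h6 := Finset.sum_sdiff (f := fun i => H (d i)) hsubR
    rw [h2, h3] at h6
    exact add_eq_right.1 h6
  set c0 : ℕ → ℕ := fun e => if e ≤ 3 then 1 else 2 with hc0
  set α : Fin s → ℕ := fun i => if h : ∃ a ∈ A, p a = i then (Classical.choose h).2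
    else if i ∈ Ra then u i else c0 (d i) with hα
  have hαA : ∀ a ∈ A, α (p a) = a.2 := by
    intro a ha
    have hex : ∃ b ∈ A, p b = p a := ⟨a, ha, rfl⟩
    rw [hα]
    dsimp only
    rw [dif_pos hex]
    have h1 := Classical.choose_spec hex
    rw [hinj _ h1.1 a ha h1.2]
  have hαn : ∀ i, i ∉ A.image p → α i = if i ∈ Ra then u i else c0 (d i) := by
    intro i hi
    rw [hα]
    dsimp only
    rw [dif_neg]
    rintro ⟨a, ha, rfl⟩
    exact hi (Finset.mem_image_of_mem p ha)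
  have hαle : ∀ i, α i ≤ d i := by
    intro i
    by_cases hi : i ∈ A.image p
    · obtain ⟨a, ha, rfl⟩ := Finset.mem_image.1 hi
      rw [hαA a ha, hp1 a ha]
      exact hA1 a ha
    · rw [hαn i hi, hc0]
      have := h2 i
      dsimp only
      by_cases hR : i ∈ Ra
      · rw [if_pos hR]
        exact hu1 i hR
      · rw [if_neg hR]
        split_ifs <;> omega
  refine ⟨α, fun i => d i - α i, fun i => by have := hαle i; show α i + (d i - α i) = d i; omega,
    ?_, ?_, fun i hi => by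
      rw [hαn i (fun hh => by
        obtain ⟨a, ha, rfl⟩ := Finset.mem_image.1 hh
        exact hpR a ha (hSp hi)), if_pos (hSp hi)], hαA⟩
  · intro k hk
    have hcast : ((cx α univ k + cx (fun i => d i - α i) univ k : ℕ) : ZMod 2) = 0 := by
      unfold cx
      push_cast
      rw [← Finset.sum_add_distrib]
      set F : Fin s → ZMod 2 := fun i => (if α i = k then (1 : ZMod 2) else 0) +
        (if d i - α i = k then (1 : ZMod 2) else 0) with hF
      set H : ℕ → ZMod 2 := fun e => (if c0 e = k then (1 : ZMod 2) else 0) +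
        (if e - c0 e = k then (1 : ZMod 2) else 0) with hH
      show ∑ i, F i = 0
      have h1 : ∑ i ∈ A.image p, F i = ∑ a ∈ A, ((if a.2 = k then (1 : ZMod 2) else 0) +
          (if a.1 - a.2 = k then (1 : ZMod 2) else 0)) := by
        rw [Finset.sum_image (fun a ha b hb hab => hinj a ha b hb hab)]
        refine Finset.sum_congr rfl (fun a ha => ?_)
        rw [hF]
        dsimp only
        rw [hαA a ha, hp1 a ha]
      have hRA : ∀ i ∈ Ra, i ∉ A.image p := by
        intro i hi hh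
        obtain ⟨a, ha, rfl⟩ := Finset.mem_image.1 hh
        exact hpR a ha hi
      have h1R : ∑ i ∈ Ra, F i = ∑ i ∈ Ra, ((if u i = k then (1 : ZMod 2) else 0) +
          (if d i - u i = k then (1 : ZMod 2) else 0)) := by
        refine Finset.sum_congr rfl (fun i hi => ?_)
        rw [hF]
        dsimp only
        rw [hαn i (hRA i hi), if_pos hi]
      have h4' : ∑ i ∈ (univ \ Ra) \ A.image p, F i =
          ∑ i ∈ (univ \ Ra) \ A.image p, H (d i) := by
        refine Finset.sum_congr rfl (fun i hi => ?_)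
        obtain ⟨hi1, hi2⟩ := Finset.mem_sdiff.1 hi
        rw [hF, hH]
        dsimp only
        rw [hαn i hi2, if_neg (Finset.mem_sdiff.1 hi1).2]
      have h5 := Finset.sum_sdiff (f := F) hsubR
      rw [h4', hvan H (by
        show (if c0 2 = k then (1 : ZMod 2) else 0) + (if 2 - c0 2 = k then (1 : ZMod 2) else 0) = 0
        have hc2 : c0 2 = 1 := rfl
        rw [hc2, if_neg (by omega), add_zero]), zero_add, h1, hA3 k hk, ← h1R] at h5
      have h6 := Finset.sum_sdiff (f := F) (Finset.subset_univ Ra)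
      rw [← h6, ← h5]
      exact CharTwo.add_self_eq_zero _
    have := (ZMod.natCast_eq_zero_iff _ _).1 hcast
    omega
  · intro i hi hiS
    have := h2 i
    show (d i ≤ 3 → 1 ≤ α i ∧ 1 ≤ d i - α i) ∧
      (4 ≤ d i → 2 ≤ α i ∧ 2 ≤ d i - α i) ∧ (i ∉ Ra → 4 ≤ d i → α i = 2 ∧ d i - α i = d i - 2)
    rw [hαn i hi, hc0]
    dsimp only
    by_cases hR : i ∈ Ra
    · rw [if_pos hR]
      obtain ⟨u1, u2⟩ := hu i hR hiS
      refine ⟨fun h => ?_, fun h => ?_, fun h => absurd hR h⟩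
      · have := u1 h
        omega
      · have := u2 h
        omega
    · rw [if_neg hR]
      split_ifs <;> omega

/-- placement of arcs away from a given set -/
theorem place_avoid {s : ℕ} (d : Fin s → ℕ) (i0 : Fin s) (Sp : Finset (Fin s))
    (A : Finset (ℕ × ℕ)) (h3 : ∀ a ∈ A, 3 ≤ a.1)
    (h : ∀ a ∈ A, 3 * (A.card + Sp.card) ≤ (univ.filter (fun i => d i = a.1)).card) :
    ∃ p : ℕ × ℕ → Fin s, (∀ a ∈ A, d (p a) = a.1) ∧
      (∀ a ∈ A, ∀ b ∈ A, a ≠ b → nu d (p a) + 2 ≤ nu d (p b) ∨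
        nu d (p b) + 2 ≤ nu d (p a)) ∧
      (∀ a ∈ A, ∀ q ∈ Sp, nu d (p a) + 2 ≤ nu d q ∨ nu d q + 2 ≤ nu d (p a)) := by
  classical
  induction A using Finset.induction_on with
  | empty =>
    exact ⟨fun _ => i0, fun a ha => by simp at ha, fun a ha => by simp at ha,
      fun a ha => by simp at ha⟩
  | insert a A ha ih =>
    rw [Finset.card_insert_of_notMem ha] at h
    obtain ⟨p, hp1, hp2, hp3⟩ := ih (fun b hb => h3 b (Finset.mem_insert_of_mem hb))
      (fun b hb => by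
        have := h b (Finset.mem_insert_of_mem hb)
        omega)
    have hfa := h a (Finset.mem_insert_self _ _)
    have h3a := h3 a (Finset.mem_insert_self _ _)
    set Bk : Finset (Fin s) := (A.image p ∪ Sp).biUnion (fun q =>
      univ.filter (fun i : Fin s => 3 ≤ d i ∧ nu d i ≤ nu d q + 1 ∧
        nu d q ≤ nu d i + 1)) with hBk
    have hBkc : Bk.card ≤ 3 * (A.card + Sp.card) := by
      refine Finset.card_biUnion_le.trans ?_
      refine (Finset.sum_le_sum (fun q _ => nu_three d (nu d q))).trans ?_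
      rw [Finset.sum_const, smul_eq_mul]
      have h1 := Finset.card_union_le (A.image p) Sp
      have h2 := Finset.card_image_le (s := A) (f := p)
      omega
    obtain ⟨i, hi⟩ : ∃ i, i ∈ (univ.filter (fun i => d i = a.1)) \ Bk := by
      have h1 := Finset.le_card_sdiff Bk (univ.filter (fun i => d i = a.1))
      have h2 : 0 < ((univ.filter (fun i => d i = a.1)) \ Bk).card := by omega
      exact Finset.card_pos.1 h2
    obtain ⟨hi1, hi2⟩ := Finset.mem_sdiff.1 hi
    have hi3 := (Finset.mem_filter.1 hi1).2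
    have hfar : ∀ q ∈ A.image p ∪ Sp, nu d i + 2 ≤ nu d q ∨ nu d q + 2 ≤ nu d i := by
      intro q hq
      by_contra hno
      apply hi2
      rw [hBk, Finset.mem_biUnion]
      exact ⟨q, hq, Finset.mem_filter.2 ⟨Finset.mem_univ _, by omega, by omega, by omega⟩⟩
    have hfarA : ∀ b ∈ A, nu d i + 2 ≤ nu d (p b) ∨ nu d (p b) + 2 ≤ nu d i := fun b hb =>
      hfar _ (Finset.mem_union_left _ (Finset.mem_image_of_mem _ hb))
    have hne : ∀ b ∈ A, b ≠ a := fun b hb hba => ha (hba ▸ hb)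
    refine ⟨fun b => if b = a then i else p b, ?_, ?_, ?_⟩
    · intro b hb
      dsimp only
      rcases Finset.mem_insert.1 hb with hb' | hb'
      · rw [if_pos hb', hb']; exact hi3
      · rw [if_neg (hne b hb')]; exact hp1 b hb'
    · intro b hb c hc hbc
      dsimp only
      rcases Finset.mem_insert.1 hb with hb' | hb'
      · rcases Finset.mem_insert.1 hc with hc' | hc'
        · exact absurd (hb'.trans hc'.symm) hbc
        · rw [if_pos hb', if_neg (hne c hc')]; exact hfarA c hc'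
      · rcases Finset.mem_insert.1 hc with hc' | hc'
        · rw [if_pos hc', if_neg (hne b hb')]
          exact (hfarA b hb').symm
        · rw [if_neg (hne b hb'), if_neg (hne c hc')]; exact hp2 b hb' c hc' hbc
    · intro b hb q hq
      dsimp only
      rcases Finset.mem_insert.1 hb with hb' | hb'
      · rw [if_pos hb']; exact hfar q (Finset.mem_union_right _ hq)
      · rw [if_neg (hne b hb')]; exact hp3 b hb' q hq

open Classical in
/-- most gaps have length one when few vertices are small -/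
theorem many_odd {s : ℕ} (d' : Fin s → ℕ) (h2d' : ∀ i, 2 ≤ d' i) (X : Finset (Fin s))
    (hX : ∀ i, d' i = 2 → i ∈ X) :
    (univ.filter (fun i => 3 ≤ d' i)).card ≤
      (univ.filter (fun p : Fin s × Fin s => IsGap d' p ∧ ¬ ((p.2 : ℕ) - p.1) % 2 = 0)).card +
      X.card + 1 := by
  have hg1 : (univ.filter (fun i => 3 ≤ d' i)).card ≤ (univ.filter (fun p : Fin s × Fin s =>
      p.1 < p.2 ∧ 3 ≤ d' p.1 ∧ 3 ≤ d' p.2 ∧ ∀ k, p.1 < k → k < p.2 → d' k = 2)).card + 1 :=
    gaps_card d' h2d'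
  have hg3 := Finset.card_filter_add_card_filter_not (s := univ.filter (fun p : Fin s × Fin s =>
      p.1 < p.2 ∧ 3 ≤ d' p.1 ∧ 3 ≤ d' p.2 ∧ ∀ k, p.1 < k → k < p.2 → d' k = 2))
    (fun p : Fin s × Fin s => ((p.2 : ℕ) - p.1) % 2 = 0)
  have hg4 : (Finset.filter (fun p : Fin s × Fin s => ¬ ((p.2 : ℕ) - p.1) % 2 = 0)
      (univ.filter (fun p : Fin s × Fin s =>
      p.1 < p.2 ∧ 3 ≤ d' p.1 ∧ 3 ≤ d' p.2 ∧ ∀ k, p.1 < k → k < p.2 → d' k = 2))).card ≤
      (univ.filter (fun p : Fin s × Fin s => IsGap d' p ∧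
        ¬ ((p.2 : ℕ) - p.1) % 2 = 0)).card := by
    refine Finset.card_le_card (fun p hp => ?_)
    obtain ⟨k1, k2⟩ := Finset.mem_filter.1 hp
    exact Finset.mem_filter.2 ⟨Finset.mem_univ _, (Finset.mem_filter.1 k1).2, k2⟩
  have hg5 : (Finset.filter (fun p : Fin s × Fin s => ((p.2 : ℕ) - p.1) % 2 = 0)
      (univ.filter (fun p : Fin s × Fin s =>
      p.1 < p.2 ∧ 3 ≤ d' p.1 ∧ 3 ≤ d' p.2 ∧ ∀ k, p.1 < k → k < p.2 → d' k = 2))).card ≤
      X.card := by
    have hs1 : ∀ p : Fin s × Fin s, (p.1 : ℕ) < p.2 → ((p.2 : ℕ) - p.1) % 2 = 0 →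
        (p.1 : ℕ) + 1 < p.2 ∧ (p.1 : ℕ) + 1 < s := by
      intro p h6 h7
      have h8 := p.2.2
      omega
    refine Finset.card_le_card_of_injOn (fun p : Fin s × Fin s =>
      if hp : (p.1 : ℕ) + 1 < s then ⟨(p.1 : ℕ) + 1, hp⟩ else p.1) (fun p hp => ?_) ?_
    · obtain ⟨k1, k2⟩ := Finset.mem_filter.1 (Finset.mem_coe.1 hp)
      obtain ⟨_, q1, q2, q3, q4⟩ := Finset.mem_filter.1 k1
      obtain ⟨w1, w2⟩ := hs1 p q1 k2
      dsimp only
      rw [dif_pos w2]
      refine Finset.mem_coe.2 (hX _ (q4 _ ?_ w1))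
      show (p.1 : ℕ) < p.1 + 1
      omega
    · intro p hp q hq hpq
      obtain ⟨k1, k2⟩ := Finset.mem_filter.1 (Finset.mem_coe.1 hp)
      obtain ⟨_, q1, q2, q3, q4⟩ := Finset.mem_filter.1 k1
      obtain ⟨w1, w2⟩ := hs1 p q1 k2
      obtain ⟨k1', k2'⟩ := Finset.mem_filter.1 (Finset.mem_coe.1 hq)
      obtain ⟨_, q1', q2', q3', q4'⟩ := Finset.mem_filter.1 k1'
      obtain ⟨w1', w2'⟩ := hs1 q q1' k2'
      dsimp only at hpq
      rw [dif_pos w2, dif_pos w2'] at hpq
      by_contra hne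
      have h6 : (p.1 : ℕ) + 1 = (q.1 : ℕ) + 1 := congrArg Fin.val hpq
      rcases gaps_disj d' p q ⟨q1, q2, q3, q4⟩ ⟨q1', q2', q3', q4'⟩ hne with h7 | h7
      · have h7' : (p.2 : ℕ) ≤ q.1 := h7
        omega
      · have h7' : (q.2 : ℕ) ≤ p.1 := h7
        omega
  omega

variable {V : Type} [Fintype V]

/-- frequent spine degrees at least four, the other spine vertices isolated: exact answer -/
theorem rare_exact {G : SimpleGraph V} {s : ℕ} {v : Fin s → V} (h : IsSpine G v) (hs : 0 < s)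
    (M : ℕ) (F : Finset ℕ) (hF0 : F.Nonempty) (hF4 : ∀ e ∈ F, 4 ≤ e) (hFM : ∀ e ∈ F, e ≤ M)
    (hrich : ∀ e ∈ F, 30 * (M + 1 + {j | deg G (v j) ∉ F}.ncard) ≤
      {j | deg G (v j) = e}.ncard)
    (hiso : ∀ i j : Fin s, (j : ℕ) = i + 1 → deg G (v i) ∈ F ∨ deg G (v j) ∈ F) :
    Splittable G ↔ (Even G.edgeSet.ncard ∧ ∃ u : Fin s → ℕ, (∀ i, u i ≤ deg G (v i)) ∧
      ∀ f : ℕ → ZMod 2, f 0 = 0 → f 1 = 0 →
        (∀ e ∈ F, ∀ k, k ≤ e → f k + f (e - k) = f e) →
        ∑ i, (if deg G (v i) ∈ F then f (deg G (v i))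
          else f (u i) + f (deg G (v i) - u i)) = 0) := by
  classical
  constructor
  · intro hG
    obtain ⟨u, hu, huf⟩ := rare_nec h hG
    exact ⟨(necessary hs h hG).1, u, hu, fun f h0 h1 hf => huf F f h0 h1 hf⟩
  rintro ⟨hev, u, hule, hdual⟩
  set d : Fin s → ℕ := fun i => deg G (v i) with hd
  have h2d : ∀ i, 2 ≤ d i := h.two
  set Ra : Finset (Fin s) := univ.filter (fun i => d i ∉ F) with hRa
  have hRam : ∀ i, i ∈ Ra ↔ d i ∉ F := by intro i; rw [hRa]; simp
  have hRac : {j | deg G (v j) ∉ F}.ncard = Ra.card := by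
    rw [Set.ncard_eq_toFinset_card']
    congr 1
    ext i
    simp [hRa, hd]
  have hr : ∀ e ∈ F, 30 * (M + 1 + Ra.card) ≤ (univ.filter (fun j => d j = e)).card := by
    intro e he
    have h1 := hrich e he
    rw [hRac, Set.ncard_eq_toFinset_card'] at h1
    refine h1.trans (Finset.card_le_card (fun j hj => ?_))
    rw [Set.mem_toFinset] at hj
    exact Finset.mem_filter.2 ⟨Finset.mem_univ _, hj⟩
  obtain ⟨e0, he0⟩ := hF0
  have hM5 : 4 ≤ M := (hF4 e0 he0).trans (hFM e0 he0)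
  set Sp : Finset (Fin s) := Ra.filter (fun i => ¬ (u i = 1 ∧ d i = 2)) with hSp
  have hSpR : Sp ⊆ Ra := Finset.filter_subset _ _
  have hSpc : Sp.card ≤ Ra.card := Finset.card_le_card hSpR
  have hdF : ∀ i ∈ univ \ Ra, d i ∈ F := by
    intro i hi
    by_contra hh
    exact (Finset.mem_sdiff.1 hi).2 ((hRam i).2 hh)
  obtain ⟨hcv, huM⟩ := dual_conv d F M (by omega) hFM u Ra hRam hdual
  obtain ⟨A, hAc, hA1, hA2', hA3', hA21, hA22⟩ := arcs_two_rhs F
    (fun e => ∑ i ∈ univ \ Ra, (if d i = e then (1 : ZMod 2) else 0))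
    (fun k => ∑ i ∈ Ra, ((if u i = k then (1 : ZMod 2) else 0) +
        (if d i - u i = k then (1 : ZMod 2) else 0))) M hFM hcv
  have hA2 : ∀ e, e ≠ 2 → ∑ a ∈ A, (if a.1 = e then (1 : ZMod 2) else 0) =
      ∑ i ∈ univ \ Ra, (if d i = e then (1 : ZMod 2) else 0) := by
    intro e he2
    by_cases he : e ∈ F
    · exact hA2' e he he2
    · rw [Finset.sum_eq_zero, Finset.sum_eq_zero]
      · intro i hi
        exact if_neg (fun hh => he (by rw [← hh]; exact hdF i hi))
      · intro a ha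
        exact if_neg (fun hh : a.1 = e => he (by rw [← hh]; exact (hA1 a ha).1))
  have hA3 : ∀ k, 2 ≤ k → ∑ a ∈ A, ((if a.2 = k then (1 : ZMod 2) else 0) +
        (if a.1 - a.2 = k then (1 : ZMod 2) else 0)) =
      ∑ i ∈ Ra, ((if u i = k then (1 : ZMod 2) else 0) +
        (if d i - u i = k then (1 : ZMod 2) else 0)) := by
    intro k hk
    by_cases hkM : k ≤ M
    · exact hA3' k hk hkM
    · rw [huM k (by omega), Finset.sum_eq_zero]
      · intro a ha
        obtain ⟨h1, h2⟩ := hA1 a ha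
        have := hFM _ h1
        rw [if_neg (by omega), if_neg (by omega), add_zero]
  set d0 : Fin s → ℕ := fun i => if d i = 3 then 0 else d i with hd0
  have hd0e : ∀ i e, e ∈ F → (d0 i = e ↔ d i = e) := by
    intro i e he
    have h5 := hF4 e he
    rw [hd0]
    dsimp only
    split_ifs with h7 <;> omega
  have h8 : ∀ k, 3 ≤ d0 k → 4 ≤ d k := by
    intro k hk
    rw [hd0] at hk
    dsimp only at hk
    split_ifs at hk with h7 <;> omega
  obtain ⟨p, hp1', hpn', hps'⟩ := place_avoid d0 ⟨0, hs⟩ Sp A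
    (fun a ha => by have := hF4 _ (hA1 a ha).1; omega)
    (fun a ha => by
      have h1 := hr _ (hA1 a ha).1
      have h2 : (univ.filter (fun i => d0 i = a.1)) = univ.filter (fun i => d i = a.1) :=
        Finset.filter_congr (fun i _ => hd0e i _ (hA1 a ha).1)
      rw [h2]
      refine le_trans ?_ h1
      omega)
  have hp1 : ∀ a ∈ A, d (p a) = a.1 := fun a ha => (hd0e _ _ (hA1 a ha).1).1 (hp1' a ha)
  have hbt : ∀ i j : Fin s, (nu d0 i + 2 ≤ nu d0 j ∨ nu d0 j + 2 ≤ nu d0 i) →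
      i < j → ∃ k : Fin s, i < k ∧ k < j ∧ 4 ≤ d k := by
    intro i j h1 hij
    rcases h1 with h1 | h1
    · obtain ⟨k, k1, k2, k3⟩ := nu_between d0 h1
      exact ⟨k, k1, k2, h8 k k3⟩
    · obtain ⟨k, k1, k2, _⟩ := nu_between d0 h1
      exact absurd (k1.trans k2) (not_lt.2 hij.le)
  have hp2 : ∀ a ∈ A, ∀ b ∈ A, a ≠ b → (p a : ℕ) + 1 < p b ∨ (p b : ℕ) + 1 < p a := by
    intro a ha b hb hab
    rcases hpn' a ha b hb hab with h1 | h1
    · obtain ⟨k, k1, k2, _⟩ := nu_between d0 h1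
      have k1' : (p a : ℕ) < k := k1
      have k2' : (k : ℕ) < p b := k2
      omega
    · obtain ⟨k, k1, k2, _⟩ := nu_between d0 h1
      have k1' : (p b : ℕ) < k := k1
      have k2' : (k : ℕ) < p a := k2
      omega
  have hpR : ∀ a ∈ A, p a ∉ Ra := by
    intro a ha hh
    exact (hRam _).1 hh (by rw [hp1 a ha]; exact (hA1 a ha).1)
  obtain ⟨a, b, hab, hpar, hn, hSpu, haA⟩ := mixed_parts5 d h2d Ra Sp hSpR u
    (fun i _ => hule i) (fun i hi hiS => by
      have h1 : u i = 1 ∧ d i = 2 := by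
        by_contra hh
        exact hiS (Finset.mem_filter.2 ⟨hi, hh⟩)
      exact ⟨fun _ => h1.1, fun h4 => by omega⟩) A
    (fun a ha => (hA1 a ha).2) hA2 hA3 p hp1 hpR hp2
  set P := A.image p ∪ Sp with hP
  have hPc : P.card ≤ 2 * (M + 1) + Ra.card := by
    have h1 := Finset.card_union_le (A.image p) Sp
    have h2 := Finset.card_image_le (s := A) (f := p)
    rw [hP]
    omega
  have hPsep : ∀ i ∈ P, ∀ j ∈ P, i < j → ∃ k : Fin s, i < k ∧ k < j ∧ 4 ≤ deg G (v k) := by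
    intro i hi j hj hij
    rcases Finset.mem_union.1 hi with hi' | hi' <;> rcases Finset.mem_union.1 hj with hj' | hj'
    · obtain ⟨a', ha', rfl⟩ := Finset.mem_image.1 hi'
      obtain ⟨b', hb', rfl⟩ := Finset.mem_image.1 hj'
      exact hbt _ _ (hpn' a' ha' b' hb' (fun hh => absurd hij (by rw [hh]; exact lt_irrefl _))) hij
    · obtain ⟨a', ha', rfl⟩ := Finset.mem_image.1 hi'
      exact hbt _ _ (hps' a' ha' j hj') hij
    · obtain ⟨b', hb', rfl⟩ := Finset.mem_image.1 hj'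
      exact hbt _ _ (hps' b' hb' i hi').symm hij
    · have h1 := (hRam i).1 (hSpR hi')
      have h2 := (hRam j).1 (hSpR hj')
      have hij' : (i : ℕ) < j := hij
      have h3 : (i : ℕ) + 1 < s := by have := j.2; omega
      have h4 : (i : ℕ) + 1 ≠ j := by
        intro hh
        rcases hiso i j hh.symm with h5 | h5
        · exact h1 h5
        · exact h2 h5
      refine ⟨⟨(i : ℕ) + 1, h3⟩, ?_, ?_, ?_⟩
      · show (i : ℕ) < i + 1
        omega
      · show (i : ℕ) + 1 < j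
        omega
      · rcases hiso i ⟨(i : ℕ) + 1, h3⟩ rfl with h5 | h5
        · exact absurd h5 h1
        · exact hF4 _ h5
  have hPs : ∀ i ∈ P, a i ≠ 1 ∨ b i ≠ 1 := by
    intro i hi
    by_contra hno
    push Not at hno
    have e3 := hab i
    rcases Finset.mem_union.1 hi with hi' | hi'
    · obtain ⟨c, hc, rfl⟩ := Finset.mem_image.1 hi'
      have e2 := hp1 c hc
      have e4 := hF4 _ (hA1 c hc).1
      omega
    · have e1 := hSpu i hi'
      exact (Finset.mem_filter.1 hi').2 ⟨by omega, by omega⟩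
  -- the gaps
  set d' : Fin s → ℕ := fun i => if deg G (v i) = 3 then 2 else deg G (v i) with hd'
  have h2d' : ∀ i, 2 ≤ d' i := by
    intro i
    have : 2 ≤ deg G (v i) := h2d i
    rw [hd']; dsimp only; split_ifs <;> omega
  have hd4 : ∀ i, 3 ≤ d' i → 4 ≤ deg G (v i) := by
    intro i hi
    rw [hd'] at hi; dsimp only at hi; split_ifs at hi <;> omega
  have hd2 : ∀ i, d' i = 2 → deg G (v i) ≤ 3 := by
    intro i hi
    rw [hd'] at hi; dsimp only at hi; split_ifs at hi <;> omega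
  have hde : ∀ i e, 4 ≤ e → (d' i = e ↔ deg G (v i) = e) := by
    intro i e he
    rw [hd']; dsimp only; split_ifs <;> omega
  have hgc := many_odd d' h2d' (univ.filter (fun i => deg G (v i) ≤ 3)) (fun i hi =>
    Finset.mem_filter.2 ⟨Finset.mem_univ _, hd2 i hi⟩)
  have hg2 : (univ.filter (fun j => d j = e0)).card ≤
      (univ.filter (fun i => 3 ≤ d' i)).card := by
    refine Finset.card_le_card (fun j hj => ?_)
    have h4 := (hde j e0 (hF4 e0 he0)).2 (Finset.mem_filter.1 hj).2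
    have h5 := hF4 e0 he0
    exact Finset.mem_filter.2 ⟨Finset.mem_univ _, by omega⟩
  have hg3 : (univ.filter (fun i => deg G (v i) ≤ 3)).card ≤ Ra.card := by
    refine Finset.card_le_card (fun j hj => ?_)
    have h4 := (Finset.mem_filter.1 hj).2
    refine (hRam j).2 (fun hh => ?_)
    have h5 : 4 ≤ deg G (v j) := hF4 _ hh
    omega
  have hr0 := hr e0 he0
  refine wide_split4 h hev P hPsep a b hab hPs hpar
    (fun i hi => ?_) (univ.filter (fun p : Fin s × Fin s => IsGap d' p ∧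
      ¬ ((p.2 : ℕ) - p.1) % 2 = 0)) (fun p hp => ?_)
    (fun p hp q hq hpq => gaps_disj d' p q (Finset.mem_filter.1 hp).2.1
      (Finset.mem_filter.1 hq).2.1 hpq) (by omega)
  · rw [hP, Finset.mem_union, not_or] at hi
    have h5 := hn i hi.1 hi.2
    exact ⟨h5.1, h5.2.1⟩
  · obtain ⟨_, ⟨k1, k2, k3, _⟩, k5⟩ := Finset.mem_filter.1 hp
    exact ⟨k1, by omega, hd4 _ k2, hd4 _ k3⟩

end Pool.Agent.W_e8e3a0
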