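import Pool.Agent.W_e8e3a0.RareI49

/-! Exact answer when the spine vertices of rare degree are isolated and two is rare. -/

namespace Pool.Agent.W_e8e3a0

open Finset Num49

/-- parts with the parity property, arbitrary parts in `Sp`, `3` being frequent -/
theorem mixed_parts6 {s : ℕ} (d : Fin s → ℕ) (h2 : ∀ i, 2 ≤ d i) (Ra Sp : Finset (Fin s))
    (hSp : Sp ⊆ Ra)
    (u : Fin s → ℕ) (hu : ∀ i ∈ Ra, u i ≤ d i ∧ d i ≠ 3 ∧ (i ∉ Sp → (d i = 2 → u i = 1) ∧
      (4 ≤ d i → 2 ≤ u i ∧ u i + 2 ≤ d i)))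
    (A : Finset (ℕ × ℕ)) (hA1 : ∀ a ∈ A, a.2 ≤ a.1)
    (hA2 : ∀ e, e ≠ 2 → ∑ a ∈ A, (if a.1 = e then (1 : ZMod 2) else 0) =
      ∑ i ∈ univ \ Ra, (if d i = e then (1 : ZMod 2) else 0))
    (hA3 : ∀ k, 2 ≤ k → ∑ a ∈ A, ((if a.2 = k then (1 : ZMod 2) else 0) +
        (if a.1 - a.2 = k then (1 : ZMod 2) else 0)) =
      ∑ i ∈ Ra, ((if u i = k then (1 : ZMod 2) else 0) +
        (if d i - u i = k then (1 : ZMod 2) else 0)))
    (p : ℕ × ℕ → Fin s) (hp1 : ∀ a ∈ A, d (p a) = a.1) (hpR : ∀ a ∈ A, p a ∉ Ra)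
    (hp2 : ∀ a ∈ A, ∀ b ∈ A, a ≠ b → (p a : ℕ) + 1 < p b ∨ (p b : ℕ) + 1 < p a) :
    (univ.filter (fun i => i ∉ A.image p ∧ d i = 3)).card % 2 = 0 ∧
    ∃ a b : Fin s → ℕ, (∀ i, a i + b i = d i) ∧
      (∀ k, 2 ≤ k → (cx a univ k + cx b univ k) % 2 = 0) ∧
      (∀ i, i ∉ A.image p → i ∉ Sp → (d i = 2 → a i = 1 ∧ b i = 1) ∧ (d i = 3 → a i = 1 ∧ b i = 2) ∧
        (4 ≤ d i → 2 ≤ a i ∧ 2 ≤ b i) ∧ (i ∉ Ra → 4 ≤ d i → a i = 2 ∧ b i = d i - 2)) ∧
      (∀ i ∈ Sp, a i = u i) ∧ (∀ c ∈ A, a (p c) = c.2) := by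
  classical
  have hinj : ∀ a ∈ A, ∀ b ∈ A, p a = p b → a = b := by
    intro a ha b hb hab
    by_contra hne
    have := hp2 a ha b hb hne
    rw [hab] at this
    omega
  obtain ⟨N, hN1, hN2⟩ : ∃ N, (∀ i ∈ (univ : Finset (Fin s)), d i < N) ∧
      (∀ a ∈ A, a.1 < N) := by
    refine ⟨∑ i, d i + ∑ a ∈ A, a.1 + 1, fun i hi => ?_, fun a ha => ?_⟩
    · have := Finset.single_le_sum (f := d) (fun _ _ => Nat.zero_le _) hi
      omega
    · have := Finset.single_le_sum (f := fun a : ℕ × ℕ => a.1)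
        (fun _ _ => Nat.zero_le _) ha
      omega
  -- sums over the non-special vertices vanish
  have hsubR : A.image p ⊆ univ \ Ra := by
    intro i hi
    obtain ⟨a, ha, rfl⟩ := Finset.mem_image.1 hi
    exact Finset.mem_sdiff.2 ⟨Finset.mem_univ _, hpR a ha⟩
  have hvan : ∀ H : ℕ → ZMod 2, H 2 = 0 → ∑ i ∈ (univ \ Ra) \ A.image p, H (d i) = 0 := by
    intro H hH2
    have h2 : ∑ i ∈ A.image p, H (d i) = ∑ a ∈ A, H a.1 := by
      rw [Finset.sum_image (fun a ha b hb hab => hinj a ha b hb hab)]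
      exact Finset.sum_congr rfl (fun a ha => by rw [hp1 a ha])
    have h3 : ∑ i ∈ univ \ Ra, H (d i) = ∑ a ∈ A, H a.1 := by
      rw [sum_by_label (univ \ Ra) d H N (fun i _ => hN1 i (Finset.mem_univ _)),
        sum_by_label A (fun a => a.1) H N hN2]
      refine Finset.sum_congr rfl (fun e _ => ?_)
      by_cases he : e = 2
      · rw [he, hH2, mul_zero, mul_zero]
      · rw [hA2 e he]
    have h6 := Finset.sum_sdiff (f := fun i => H (d i)) hsubR
    rw [h2, h3] at h6
    exact add_eq_right.1 h6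
  refine ⟨?_, ?_⟩
  · have h1 := hvan (fun e => if e = 3 then 1 else 0) (if_neg (by norm_num))
    have h2 : (((univ.filter (fun i => i ∉ A.image p ∧ d i = 3)).card : ℕ) : ZMod 2) = 0 := by
      rw [← h1, Finset.card_filter]
      push_cast
      rw [← Finset.sum_sdiff (Finset.subset_univ Ra)]
      have h3R : ∑ i ∈ Ra, (if i ∉ A.image p ∧ d i = 3 then (1 : ZMod 2) else 0) = 0 :=
        Finset.sum_eq_zero (fun i hi => if_neg (fun hh => (hu i hi).2.1 hh.2))
      rw [h3R, add_zero, ← Finset.sum_sdiff hsubR]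
      have h3 : ∑ i ∈ A.image p, (if i ∉ A.image p ∧ d i = 3 then (1 : ZMod 2) else 0) = 0 :=
        Finset.sum_eq_zero (fun i hi => if_neg (fun hh => hh.1 hi))
      rw [h3, add_zero]
      refine Finset.sum_congr rfl (fun i hi => ?_)
      have := (Finset.mem_sdiff.1 hi).2
      exact if_congr ⟨fun hh => hh.2, fun hh => ⟨this, hh⟩⟩ rfl rfl
    have := (ZMod.natCast_eq_zero_iff _ _).1 h2
    omega
  set c0 : ℕ → ℕ := fun e => if e ≤ 3 then 1 else 2 with hc0
  set α : Fin s → ℕ := fun i => if h : ∃ a ∈ A, p a = i then (Classical.choose h).2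
    else if i ∈ Ra then u i else c0 (d i) with hα
  have hαA : ∀ a ∈ A, α (p a) = a.2 := by
    intro a ha
    have hex : ∃ b ∈ A, p b = p a := ⟨a, ha, rfl⟩
    rw [hα]
    dsimp only
    rw [dif_pos hex]
    have h1 := Classical.choose_spec hex
    rw [hinj _ h1.1 a ha h1.2]
  have hαn : ∀ i, i ∉ A.image p → α i = if i ∈ Ra then u i else c0 (d i) := by
    intro i hi
    rw [hα]
    dsimp only
    rw [dif_neg]
    rintro ⟨a, ha, rfl⟩
    exact hi (Finset.mem_image_of_mem p ha)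
  have hαle : ∀ i, α i ≤ d i := by
    intro i
    by_cases hi : i ∈ A.image p
    · obtain ⟨a, ha, rfl⟩ := Finset.mem_image.1 hi
      rw [hαA a ha, hp1 a ha]
      exact hA1 a ha
    · rw [hαn i hi, hc0]
      have := h2 i
      dsimp only
      by_cases hR : i ∈ Ra
      · rw [if_pos hR]; exact (hu i hR).1
      · rw [if_neg hR]
        split_ifs <;> omega
  refine ⟨α, fun i => d i - α i, fun i => by have := hαle i; show α i + (d i - α i) = d i; omega,
    ?_, ?_, fun i hi => by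
      rw [hαn i (fun hh => by
        obtain ⟨a, ha, rfl⟩ := Finset.mem_image.1 hh
        exact hpR a ha (hSp hi)), if_pos (hSp hi)], hαA⟩
  · intro k hk
    have hcast : ((cx α univ k + cx (fun i => d i - α i) univ k : ℕ) : ZMod 2) = 0 := by
      unfold cx
      push_cast
      rw [← Finset.sum_add_distrib]
      set F : Fin s → ZMod 2 := fun i => (if α i = k then (1 : ZMod 2) else 0) +
        (if d i - α i = k then (1 : ZMod 2) else 0) with hF
      set H : ℕ → ZMod 2 := fun e => (if c0 e = k then (1 : ZMod 2) else 0) +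
        (if e - c0 e = k then (1 : ZMod 2) else 0) with hH
      show ∑ i, F i = 0
      have h1 : ∑ i ∈ A.image p, F i = ∑ a ∈ A, ((if a.2 = k then (1 : ZMod 2) else 0) +
          (if a.1 - a.2 = k then (1 : ZMod 2) else 0)) := by
        rw [Finset.sum_image (fun a ha b hb hab => hinj a ha b hb hab)]
        refine Finset.sum_congr rfl (fun a ha => ?_)
        rw [hF]
        dsimp only
        rw [hαA a ha, hp1 a ha]
      have hRA : ∀ i ∈ Ra, i ∉ A.image p := by
        intro i hi hh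
        obtain ⟨a, ha, rfl⟩ := Finset.mem_image.1 hh
        exact hpR a ha hi
      have h1R : ∑ i ∈ Ra, F i = ∑ i ∈ Ra, ((if u i = k then (1 : ZMod 2) else 0) +
          (if d i - u i = k then (1 : ZMod 2) else 0)) := by
        refine Finset.sum_congr rfl (fun i hi => ?_)
        rw [hF]
        dsimp only
        rw [hαn i (hRA i hi), if_pos hi]
      have h4' : ∑ i ∈ (univ \ Ra) \ A.image p, F i =
          ∑ i ∈ (univ \ Ra) \ A.image p, H (d i) := by
        refine Finset.sum_congr rfl (fun i hi => ?_)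
        obtain ⟨hi1, hi2⟩ := Finset.mem_sdiff.1 hi
        rw [hF, hH]
        dsimp only
        rw [hαn i hi2, if_neg (Finset.mem_sdiff.1 hi1).2]
      have h5 := Finset.sum_sdiff (f := F) hsubR
      rw [h4', hvan H (by
        show (if c0 2 = k then (1 : ZMod 2) else 0) + (if 2 - c0 2 = k then (1 : ZMod 2) else 0) = 0
        have hc2 : c0 2 = 1 := rfl
        rw [hc2, if_neg (by omega), add_zero]), zero_add, h1, hA3 k hk, ← h1R] at h5
      have h6 := Finset.sum_sdiff (f := F) (Finset.subset_univ Ra)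
      rw [← h6, ← h5]
      exact CharTwo.add_self_eq_zero _
    have := (ZMod.natCast_eq_zero_iff _ _).1 hcast
    omega
  · intro i hi hiS
    have := h2 i
    show (d i = 2 → α i = 1 ∧ d i - α i = 1) ∧ (d i = 3 → α i = 1 ∧ d i - α i = 2) ∧
      (4 ≤ d i → 2 ≤ α i ∧ 2 ≤ d i - α i) ∧ (i ∉ Ra → 4 ≤ d i → α i = 2 ∧ d i - α i = d i - 2)
    rw [hαn i hi, hc0]
    dsimp only
    by_cases hR : i ∈ Ra
    · rw [if_pos hR]
      obtain ⟨u1, u2, u5⟩ := hu i hR
      obtain ⟨u3, u4⟩ := u5 hiS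
      refine ⟨fun h => ?_, fun h => absurd h u2, fun h => ?_, fun h => absurd hR h⟩
      · have := u3 h
        omega
      · have := u4 h
        omega
    · rw [if_neg hR]
      split_ifs <;> omega

variable {V : Type} [Fintype V]

/-- frequent spine degrees at least three and including three, the other spine vertices
isolated: exact answer -/
theorem rare_exact3 {G : SimpleGraph V} {s : ℕ} {v : Fin s → V} (h : IsSpine G v) (hs : 0 < s)
    (M : ℕ) (F : Finset ℕ) (h3F : 3 ∈ F) (hF3 : ∀ e ∈ F, 3 ≤ e) (hFM : ∀ e ∈ F, e ≤ M)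
    (hrich : ∀ e ∈ F, 30 * (M + 1 + {j | deg G (v j) ∉ F}.ncard) ≤
      {j | deg G (v j) = e}.ncard)
    (hiso : ∀ i j : Fin s, (j : ℕ) = i + 1 → deg G (v i) ∈ F ∨ deg G (v j) ∈ F) :
    Splittable G ↔ (Even G.edgeSet.ncard ∧ ∃ u : Fin s → ℕ, (∀ i, u i ≤ deg G (v i)) ∧
      ∀ f : ℕ → ZMod 2, f 0 = 0 → f 1 = 0 →
        (∀ e ∈ F, ∀ k, k ≤ e → f k + f (e - k) = f e) →
        ∑ i, (if deg G (v i) ∈ F then f (deg G (v i))
          else f (u i) + f (deg G (v i) - u i)) = 0) := by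
  classical
  constructor
  · intro hG
    obtain ⟨u, hu, huf⟩ := rare_nec h hG
    exact ⟨(necessary hs h hG).1, u, hu, fun f h0 h1 hf => huf F f h0 h1 hf⟩
  rintro ⟨hev, u, hule, hdual⟩
  set d : Fin s → ℕ := fun i => deg G (v i) with hd
  have h2d : ∀ i, 2 ≤ d i := h.two
  set Ra : Finset (Fin s) := univ.filter (fun i => d i ∉ F) with hRa
  have hRam : ∀ i, i ∈ Ra ↔ d i ∉ F := by intro i; rw [hRa]; simp
  have hRac : {j | deg G (v j) ∉ F}.ncard = Ra.card := by
    rw [Set.ncard_eq_toFinset_card']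
    congr 1
    ext i
    simp [hRa, hd]
  have hr : ∀ e ∈ F, 30 * (M + 1 + Ra.card) ≤ (univ.filter (fun j => d j = e)).card := by
    intro e he
    have h1 := hrich e he
    rw [hRac, Set.ncard_eq_toFinset_card'] at h1
    refine h1.trans (Finset.card_le_card (fun j hj => ?_))
    rw [Set.mem_toFinset] at hj
    exact Finset.mem_filter.2 ⟨Finset.mem_univ _, hj⟩
  have hM5 : 3 ≤ M := hFM 3 h3F
  set Sp : Finset (Fin s) := Ra.filter (fun i => ¬ (u i = 1 ∧ d i = 2)) with hSp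
  have hSpR : Sp ⊆ Ra := Finset.filter_subset _ _
  have hSpc : Sp.card ≤ Ra.card := Finset.card_le_card hSpR
  have hdF : ∀ i ∈ univ \ Ra, d i ∈ F := by
    intro i hi
    by_contra hh
    exact (Finset.mem_sdiff.1 hi).2 ((hRam i).2 hh)
  obtain ⟨hcv, huM⟩ := dual_conv d F M (by omega) hFM u Ra hRam hdual
  obtain ⟨A, hAc, hA1, hA2', hA3', hA21, hA22⟩ := arcs_two_rhs F
    (fun e => ∑ i ∈ univ \ Ra, (if d i = e then (1 : ZMod 2) else 0))
    (fun k => ∑ i ∈ Ra, ((if u i = k then (1 : ZMod 2) else 0) +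
        (if d i - u i = k then (1 : ZMod 2) else 0))) M hFM hcv
  have hA2 : ∀ e, e ≠ 2 → ∑ a ∈ A, (if a.1 = e then (1 : ZMod 2) else 0) =
      ∑ i ∈ univ \ Ra, (if d i = e then (1 : ZMod 2) else 0) := by
    intro e he2
    by_cases he : e ∈ F
    · exact hA2' e he he2
    · rw [Finset.sum_eq_zero, Finset.sum_eq_zero]
      · intro i hi
        exact if_neg (fun hh => he (by rw [← hh]; exact hdF i hi))
      · intro a ha
        exact if_neg (fun hh : a.1 = e => he (by rw [← hh]; exact (hA1 a ha).1))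
  have hA3 : ∀ k, 2 ≤ k → ∑ a ∈ A, ((if a.2 = k then (1 : ZMod 2) else 0) +
        (if a.1 - a.2 = k then (1 : ZMod 2) else 0)) =
      ∑ i ∈ Ra, ((if u i = k then (1 : ZMod 2) else 0) +
        (if d i - u i = k then (1 : ZMod 2) else 0)) := by
    intro k hk
    by_cases hkM : k ≤ M
    · exact hA3' k hk hkM
    · rw [huM k (by omega), Finset.sum_eq_zero]
      · intro a ha
        obtain ⟨h1, h2⟩ := hA1 a ha
        have := hFM _ h1
        rw [if_neg (by omega), if_neg (by omega), add_zero]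
  obtain ⟨p, hp1, hpn', hps'⟩ := place_avoid d ⟨0, hs⟩ Sp A
    (fun a ha => hF3 _ (hA1 a ha).1)
    (fun a ha => by
      have h1 := hr _ (hA1 a ha).1
      refine le_trans ?_ h1
      omega)
  have hbt : ∀ i j : Fin s, (nu d i + 2 ≤ nu d j ∨ nu d j + 2 ≤ nu d i) →
      i < j → ∃ k : Fin s, i < k ∧ k < j ∧ 3 ≤ d k := by
    intro i j h1 hij
    rcases h1 with h1 | h1
    · obtain ⟨k, k1, k2, k3⟩ := nu_between d h1
      exact ⟨k, k1, k2, k3⟩
    · obtain ⟨k, k1, k2, _⟩ := nu_between d h1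
      exact absurd (k1.trans k2) (not_lt.2 hij.le)
  have hp2 : ∀ a ∈ A, ∀ b ∈ A, a ≠ b → (p a : ℕ) + 1 < p b ∨ (p b : ℕ) + 1 < p a := by
    intro a ha b hb hab
    rcases hpn' a ha b hb hab with h1 | h1
    · obtain ⟨k, k1, k2, _⟩ := nu_between d h1
      have k1' : (p a : ℕ) < k := k1
      have k2' : (k : ℕ) < p b := k2
      omega
    · obtain ⟨k, k1, k2, _⟩ := nu_between d h1
      have k1' : (p b : ℕ) < k := k1
      have k2' : (k : ℕ) < p a := k2
      omega
  have hpR : ∀ a ∈ A, p a ∉ Ra := by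
    intro a ha hh
    exact (hRam _).1 hh (by rw [hp1 a ha]; exact (hA1 a ha).1)
  obtain ⟨hQ2, a, b, hab, hpar, hn, hSpu, haA⟩ := mixed_parts6 d h2d Ra Sp hSpR u
    (fun i hi => ⟨hule i, fun hh => (hRam i).1 hi (by rw [hh]; exact h3F), fun hiS => by
      have h1 : u i = 1 ∧ d i = 2 := by
        by_contra hh
        exact hiS (Finset.mem_filter.2 ⟨hi, hh⟩)
      exact ⟨fun _ => h1.1, fun h4 => by omega⟩⟩) A
    (fun a ha => (hA1 a ha).2) hA2 hA3 p hp1 hpR hp2
  set P := A.image p ∪ Sp with hP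
  have hPc : P.card ≤ 2 * (M + 1) + Ra.card := by
    have h1 := Finset.card_union_le (A.image p) Sp
    have h2 := Finset.card_image_le (s := A) (f := p)
    rw [hP]
    omega
  have hPsep : ∀ i ∈ P, ∀ j ∈ P, i < j → ∃ k : Fin s, i < k ∧ k < j ∧ 3 ≤ deg G (v k) := by
    intro i hi j hj hij
    rcases Finset.mem_union.1 hi with hi' | hi' <;> rcases Finset.mem_union.1 hj with hj' | hj'
    · obtain ⟨a', ha', rfl⟩ := Finset.mem_image.1 hi'
      obtain ⟨b', hb', rfl⟩ := Finset.mem_image.1 hj'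
      exact hbt _ _ (hpn' a' ha' b' hb' (fun hh => absurd hij (by rw [hh]; exact lt_irrefl _))) hij
    · obtain ⟨a', ha', rfl⟩ := Finset.mem_image.1 hi'
      exact hbt _ _ (hps' a' ha' j hj') hij
    · obtain ⟨b', hb', rfl⟩ := Finset.mem_image.1 hj'
      exact hbt _ _ (hps' b' hb' i hi').symm hij
    · have h1 := (hRam i).1 (hSpR hi')
      have h2 := (hRam j).1 (hSpR hj')
      have hij' : (i : ℕ) < j := hij
      have h3 : (i : ℕ) + 1 < s := by have := j.2; omega
      have h4 : (i : ℕ) + 1 ≠ j := by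
        intro hh
        rcases hiso i j hh.symm with h5 | h5
        · exact h1 h5
        · exact h2 h5
      refine ⟨⟨(i : ℕ) + 1, h3⟩, ?_, ?_, ?_⟩
      · show (i : ℕ) < i + 1
        omega
      · show (i : ℕ) + 1 < j
        omega
      · rcases hiso i ⟨(i : ℕ) + 1, h3⟩ rfl with h5 | h5
        · exact absurd h5 h1
        · exact hF3 _ h5
  have hPs : ∀ i ∈ P, a i ≠ 1 ∨ b i ≠ 1 := by
    intro i hi
    by_contra hno
    push Not at hno
    have e3 := hab i
    rcases Finset.mem_union.1 hi with hi' | hi'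
    · obtain ⟨c, hc, rfl⟩ := Finset.mem_image.1 hi'
      have e2 := hp1 c hc
      have e4 := hF3 _ (hA1 c hc).1
      omega
    · have e1 := hSpu i hi'
      exact (Finset.mem_filter.1 hi').2 ⟨by omega, by omega⟩
  -- the gaps
  have hgc := many_odd d h2d (univ.filter (fun i => d i = 2)) (fun i hi =>
    Finset.mem_filter.2 ⟨Finset.mem_univ _, hi⟩)
  have hg2 : (univ.filter (fun j => d j = 3)).card ≤
      (univ.filter (fun i => 3 ≤ d i)).card := by
    refine Finset.card_le_card (fun j hj => ?_)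
    have h4 := (Finset.mem_filter.1 hj).2
    exact Finset.mem_filter.2 ⟨Finset.mem_univ _, by omega⟩
  have hg3 : (univ.filter (fun i => d i = 2)).card ≤ Ra.card := by
    refine Finset.card_le_card (fun j hj => ?_)
    have h4 := (Finset.mem_filter.1 hj).2
    refine (hRam j).2 (fun hh => ?_)
    have h5 : 3 ≤ d j := hF3 _ hh
    omega
  have hr0 := hr 3 h3F
  have hQle : (univ.filter (fun j => d j = 3)).card ≤
      (univ.filter (fun i => i ∉ P ∧ d i = 3)).card + P.card := by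
    rw [← Finset.card_union_of_disjoint]
    · refine Finset.card_le_card (fun j hj => ?_)
      rw [Finset.mem_union]
      by_cases hjP : j ∈ P
      · exact Or.inr hjP
      · exact Or.inl (Finset.mem_filter.2 ⟨Finset.mem_univ _, hjP,
          (Finset.mem_filter.1 hj).2⟩)
    · rw [Finset.disjoint_left]
      intro j hj hj2
      exact (Finset.mem_filter.1 hj).2.1 hj2
  have hQe : univ.filter (fun i => i ∉ P ∧ d i = 3) =
      univ.filter (fun i => i ∉ A.image p ∧ d i = 3) := by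
    refine Finset.filter_congr (fun i _ => ?_)
    rw [hP, Finset.mem_union, not_or]
    constructor
    · rintro ⟨h1, h2⟩
      exact ⟨h1.1, h2⟩
    · rintro ⟨h1, h2⟩
      exact ⟨⟨h1, fun hh => (hRam i).1 (hSpR hh) (by rw [h2]; exact h3F)⟩, h2⟩
  refine wide_split2 h hev P hPsep a b hab hPs hpar
    (fun i hi => ?_) (univ.filter (fun i => i ∉ P ∧ d i = 3)) (by intro i; simp [hd])
    (by rw [hQe]; exact hQ2)
    (univ.filter (fun p : Fin s × Fin s => IsGap d p ∧
      ¬ ((p.2 : ℕ) - p.1) % 2 = 0)) (fun p hp => ?_)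
    (fun p hp q hq hpq => gaps_disj d p q (Finset.mem_filter.1 hp).2.1
      (Finset.mem_filter.1 hq).2.1 hpq) (by omega) (Or.inr (by omega))
  · rw [hP, Finset.mem_union, not_or] at hi
    have h5 := hn i hi.1 hi.2
    exact ⟨h5.1, h5.2.1, h5.2.2.1⟩
  · obtain ⟨_, ⟨k1, k2, k3, _⟩, k5⟩ := Finset.mem_filter.1 hp
    exact ⟨k1, by omega, k2, k3⟩

/-- frequent spine degrees at least three, the other spine vertices isolated: exact answer -/
theorem rare_iff {G : SimpleGraph V} {s : ℕ} {v : Fin s → V} (h : IsSpine G v) (hs : 0 < s)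
    (M : ℕ) (F : Finset ℕ) (hF0 : F.Nonempty) (hF2 : 2 ∉ F) (hFM : ∀ e ∈ F, e ≤ M)
    (hrich : ∀ e ∈ F, 30 * (M + 1 + {j | deg G (v j) ∉ F}.ncard) ≤
      {j | deg G (v j) = e}.ncard)
    (hiso : ∀ i j : Fin s, (j : ℕ) = i + 1 → deg G (v i) ∈ F ∨ deg G (v j) ∈ F) :
    Splittable G ↔ (Even G.edgeSet.ncard ∧ ∃ u : Fin s → ℕ, (∀ i, u i ≤ deg G (v i)) ∧
      ∀ f : ℕ → ZMod 2, f 0 = 0 → f 1 = 0 →
        (∀ e ∈ F, ∀ k, k ≤ e → f k + f (e - k) = f e) →
        ∑ i, (if deg G (v i) ∈ F then f (deg G (v i))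
          else f (u i) + f (deg G (v i) - u i)) = 0) := by
  have hF3 : ∀ e ∈ F, 3 ≤ e := by
    intro e he
    have h1 := hrich e he
    have h2 : 0 < {j | deg G (v j) = e}.ncard := by omega
    obtain ⟨i, hi⟩ := (Set.ncard_pos (Set.toFinite _)).1 h2
    have h3 := h.two i
    have h4 : deg G (v i) = e := hi
    have h5 : e ≠ 2 := fun hh => hF2 (hh ▸ he)
    omega
  by_cases h3 : 3 ∈ F
  · exact rare_exact3 h hs M F h3 hF3 hFM hrich hiso
  · refine rare_exact h hs M F hF0 (fun e he => ?_) hFM hrich hiso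
    have h4 := hF3 e he
    have h5 : e ≠ 3 := fun hh => h3 (hh ▸ he)
    omega

end Pool.Agent.W_e8e3a0
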