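import Pool.Agent.W_e8e3a0.Mark49

namespace Pool.Agent.W_e8e3a0

open Finset

theorem sq_exp (y : ℝ) (hy : 0 ≤ y) :
    y ^ 2 * Real.exp (-y) ≤ 6 * (y / (1 + y) - (y / 2) / (1 + y / 2)) := by
  have e1 : (1 + y) ≠ 0 := by positivity
  have e2 : (2 + y) ≠ 0 := by positivity
  have e3 : (1 + y / 2) ≠ 0 := by positivity
  have h1 : y / (1 + y) - (y / 2) / (1 + y / 2) = y / ((1 + y) * (2 + y)) := by
    field_simp
    ring
  rw [h1, Real.exp_neg, ← div_eq_mul_inv, mul_div_assoc', div_le_div_iff₀ (Real.exp_pos y)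
    (by positivity)]
  have h2 := Real.sum_le_exp_of_nonneg hy 4
  have h3 : ∑ i ∈ range 4, y ^ i / (Nat.factorial i : ℝ) = 1 + y + y ^ 2 / 2 + y ^ 3 / 6 := by
    simp [Finset.sum_range_succ, Nat.factorial]
  rw [h3] at h2
  have h4 : y * ((1 + y) * (2 + y)) ≤ 6 * Real.exp y := by nlinarith
  nlinarith [mul_le_mul_of_nonneg_left h4 hy]

theorem sum_sq_exp (y : ℝ) (hy : 0 ≤ y) (K : ℕ) :
    ∑ k ∈ range K, (y / 2 ^ k) ^ 2 * Real.exp (-(y / 2 ^ k)) ≤ 6 := by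
  have h : ∀ K : ℕ, ∑ k ∈ range K, (y / 2 ^ k) ^ 2 * Real.exp (-(y / 2 ^ k)) ≤
      6 * (y / (1 + y) - (y / 2 ^ K) / (1 + y / 2 ^ K)) := by
    intro K
    induction K with
    | zero => simp
    | succ K ih =>
      rw [Finset.sum_range_succ]
      have h1 := sq_exp (y / 2 ^ K) (by positivity)
      have h2 : y / 2 ^ K / 2 = y / 2 ^ (K + 1) := by
        rw [div_div, pow_succ]
      rw [h2] at h1
      linarith
  refine (h K).trans ?_
  have h1 : y / (1 + y) ≤ 1 := by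
    rw [div_le_one (by positivity)]; linarith
  have h2 : 0 ≤ (y / 2 ^ K) / (1 + y / 2 ^ K) := by positivity
  linarith

/-- compositions with an even part `2k` and no part `k`, or no part `k + 1` -/
theorem miss_total (N : ℕ) (hN : 1 ≤ N) [DecidablePred (fun l : List ℕ => ∃ k, 1 ≤ k ∧
      2 * k ∈ l ∧ (k ∉ l ∨ k + 1 ∉ l))] :
    (((comps N).filter (fun l : List ℕ => ∃ k, 1 ≤ k ∧ 2 * k ∈ l ∧
      (k ∉ l ∨ k + 1 ∉ l))).card : ℝ) ≤ 2 ^ N * (20000 / N) := by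
  classical
  have hN0 : (0 : ℝ) < N := by exact_mod_cast hN
  have hN1 : (1 : ℝ) ≤ N := by exact_mod_cast hN
  have hsub : (comps N).filter (fun l : List ℕ => ∃ k, 1 ≤ k ∧ 2 * k ∈ l ∧
      (k ∉ l ∨ k + 1 ∉ l)) ⊆ (range N).biUnion (fun k =>
        ((comps N).filter (fun l => 2 * (k + 1) ∈ l ∧ k + 1 ∉ l)) ∪
        ((comps N).filter (fun l => 2 * (k + 1) ∈ l ∧ k + 2 ∉ l))) := by
    intro l hl
    obtain ⟨h1, k, hk, h2, h3⟩ := Finset.mem_filter.1 hl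
    have h4 := (mem_comps _ _).1 h1
    have h5 : 2 * k ≤ N := by
      rw [← h4.2]
      exact List.le_sum_of_mem h2
    rw [Finset.mem_biUnion]
    refine ⟨k - 1, Finset.mem_range.2 (by omega), ?_⟩
    have e1 : k - 1 + 1 = k := by omega
    have e2 : k - 1 + 2 = k + 1 := by omega
    rw [Finset.mem_union, Finset.mem_filter, Finset.mem_filter, e1, e2]
    rcases h3 with h3 | h3
    · exact Or.inl ⟨h1, h2, h3⟩
    · exact Or.inr ⟨h1, h2, h3⟩
  have h1 : ((comps N).filter (fun l : List ℕ => ∃ k, 1 ≤ k ∧ 2 * k ∈ l ∧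
      (k ∉ l ∨ k + 1 ∉ l))).card ≤ ∑ k ∈ range N,
        (((comps N).filter (fun l => 2 * (k + 1) ∈ l ∧ k + 1 ∉ l)).card +
        ((comps N).filter (fun l => 2 * (k + 1) ∈ l ∧ k + 2 ∉ l)).card) :=
    (Finset.card_le_card hsub).trans (Finset.card_biUnion_le.trans
      (Finset.sum_le_sum (fun k _ => Finset.card_union_le _ _)))
  have h2 : (((comps N).filter (fun l : List ℕ => ∃ k, 1 ≤ k ∧ 2 * k ∈ l ∧
      (k ∉ l ∨ k + 1 ∉ l))).card : ℝ) ≤ ∑ k ∈ range N,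
        ((((comps N).filter (fun l => 2 * (k + 1) ∈ l ∧ k + 1 ∉ l)).card : ℝ) +
        (((comps N).filter (fun l => 2 * (k + 1) ∈ l ∧ k + 2 ∉ l)).card : ℝ)) := by
    exact_mod_cast h1
  have hterm : ∀ k : ℕ, (if 2 * (k + 1) ≤ N then 2 ^ (N - 2 * (k + 1)) *
      Real.exp (-(((N - 2 * (k + 1) : ℕ) : ℝ) * (1 / 2 : ℝ) ^ (k + 5))) else 0) ≤
      (3 * 256 * 2 ^ N / (N : ℝ) ^ 2) *
        (((N : ℝ) / 32 / 2 ^ k) ^ 2 * Real.exp (-((N : ℝ) / 32 / 2 ^ k))) := by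
    intro k
    by_cases hk : 2 * (k + 1) ≤ N
    · rw [if_pos hk]
      have e1 : (1 / 2 : ℝ) ^ (k + 5) = 1 / 32 / 2 ^ k := by
        rw [pow_add, one_div, inv_pow]
        norm_num
        ring
      have e2 : (N : ℝ) * (1 / 2 : ℝ) ^ (k + 5) = (N : ℝ) / 32 / 2 ^ k := by
        rw [e1]; ring
      have e3 : ((N - 2 * (k + 1) : ℕ) : ℝ) = (N : ℝ) - 2 * (k + 1) := by
        rw [Nat.cast_sub hk]; push_cast; ring
      have e4 : 2 * ((k : ℝ) + 1) * (1 / 2 : ℝ) ^ (k + 5) ≤ 1 := by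
        have h3 : k + 1 ≤ 2 ^ k := Nat.lt_two_pow_self
        have h4 : (k : ℝ) + 1 ≤ 2 ^ k := by exact_mod_cast h3
        have h5 : (2 : ℝ) ^ k * (1 / 2 : ℝ) ^ (k + 5) = 1 / 32 := by
          rw [e1]
          have : (2 : ℝ) ^ k ≠ 0 := by positivity
          field_simp
        have h6 : (0 : ℝ) ≤ (1 / 2 : ℝ) ^ (k + 5) := by positivity
        calc 2 * ((k : ℝ) + 1) * (1 / 2 : ℝ) ^ (k + 5) ≤ 2 * 2 ^ k * (1 / 2 : ℝ) ^ (k + 5) :=
              mul_le_mul_of_nonneg_right (by linarith) h6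
          _ = 2 * (1 / 32) := by rw [mul_assoc, h5]
          _ ≤ 1 := by norm_num
      have e5 : Real.exp (-(((N - 2 * (k + 1) : ℕ) : ℝ) * (1 / 2 : ℝ) ^ (k + 5))) ≤
          3 * Real.exp (-((N : ℝ) / 32 / 2 ^ k)) := by
        have h3 : -(((N - 2 * (k + 1) : ℕ) : ℝ) * (1 / 2 : ℝ) ^ (k + 5)) =
            2 * ((k : ℝ) + 1) * (1 / 2 : ℝ) ^ (k + 5) + -((N : ℝ) / 32 / 2 ^ k) := by
          rw [e3, ← e2]; ring
        rw [h3, Real.exp_add]
        refine mul_le_mul_of_nonneg_right ?_ (Real.exp_pos _).le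
        have h4 := Real.exp_le_exp.2 e4
        have h5 := Real.exp_one_lt_d9
        linarith
      have e6 : (2 : ℝ) ^ (N - 2 * (k + 1)) = 256 * 2 ^ N / (N : ℝ) ^ 2 *
          ((N : ℝ) / 32 / 2 ^ k) ^ 2 := by
        have h3 : (2 : ℝ) ^ N = 2 ^ (N - 2 * (k + 1)) * (2 ^ k) ^ 2 * 4 := by
          rw [← pow_mul, ← pow_add]
          have : (4 : ℝ) = 2 ^ 2 := by norm_num
          rw [this, ← pow_add]
          congr 1; omega
        rw [h3]
        have h4 : (2 : ℝ) ^ k ≠ 0 := by positivity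
        have h5 : (N : ℝ) ≠ 0 := hN0.ne'
        field_simp
        norm_num
      calc (2 : ℝ) ^ (N - 2 * (k + 1)) *
            Real.exp (-(((N - 2 * (k + 1) : ℕ) : ℝ) * (1 / 2 : ℝ) ^ (k + 5)))
          ≤ 2 ^ (N - 2 * (k + 1)) * (3 * Real.exp (-((N : ℝ) / 32 / 2 ^ k))) :=
            mul_le_mul_of_nonneg_left e5 (by positivity)
        _ = (3 * 256 * 2 ^ N / (N : ℝ) ^ 2) *
              (((N : ℝ) / 32 / 2 ^ k) ^ 2 * Real.exp (-((N : ℝ) / 32 / 2 ^ k))) := by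
            rw [e6]; ring
    · rw [if_neg hk]
      positivity
  have h3 : ∀ k ∈ range N, ((((comps N).filter (fun l => 2 * (k + 1) ∈ l ∧ k + 1 ∉ l)).card : ℝ) +
        (((comps N).filter (fun l => 2 * (k + 1) ∈ l ∧ k + 2 ∉ l)).card : ℝ)) ≤
      (2 * (N + 1) * (3 * 256 * 2 ^ N / (N : ℝ) ^ 2)) *
        (((N : ℝ) / 32 / 2 ^ k) ^ 2 * Real.exp (-((N : ℝ) / 32 / 2 ^ k))) := by
    intro k _
    have h4 := miss_card N (2 * (k + 1)) (k + 1) (k + 5) (by omega) (by omega)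
    have h5 := miss_card N (2 * (k + 1)) (k + 2) (k + 5) (by omega) (by omega)
    have h6 := mul_le_mul_of_nonneg_left (hterm k) (show (0 : ℝ) ≤ N + 1 by positivity)
    have h7 := h4.trans h6
    have h8 := h5.trans h6
    linarith
  refine h2.trans ((Finset.sum_le_sum h3).trans ?_)
  rw [← Finset.mul_sum]
  have h4 := sum_sq_exp ((N : ℝ) / 32) (by positivity) N
  refine (mul_le_mul_of_nonneg_left h4 (by positivity)).trans ?_
  have h5 : 2 * ((N : ℝ) + 1) * (3 * 256 * 2 ^ N / (N : ℝ) ^ 2) * 6 =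
      2 ^ N * (9216 * (N + 1) / N ^ 2) := by ring
  rw [h5]
  refine mul_le_mul_of_nonneg_left ?_ (by positivity)
  rw [div_le_div_iff₀ (by positivity) hN0]
  nlinarith

end Pool.Agent.W_e8e3a0
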