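import Pool.Agent.W_e8e3a0.BadG49
import Pool.Agent.W_e8e3a0.SumG49

namespace Pool.Agent.W_e8e3a0

open Finset

theorem exp_five (a : ℕ) : Real.exp (-(5 * ((a : ℝ) + 1))) ≤ (1 / 2 : ℝ) ^ (7 * (a + 1)) := by
  have h1 : (2 : ℝ) ^ 7 ≤ Real.exp 5 := by
    have h2 : (2.7 : ℝ) ≤ Real.exp 1 := by
      have := Real.exp_one_gt_d9
      linarith
    have h3 : Real.exp 5 = Real.exp 1 ^ 5 := by
      rw [← Real.exp_nat_mul]; norm_num
    rw [h3]
    refine le_trans ?_ (pow_le_pow_left₀ (by norm_num) h2 5)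
    norm_num
  have h2 : Real.exp (-5) ≤ (1 / 2 : ℝ) ^ 7 := by
    rw [Real.exp_neg, one_div, inv_pow]
    exact inv_anti₀ (by positivity) h1
  have h3 : Real.exp (-(5 * ((a : ℝ) + 1))) = Real.exp (-5) ^ (a + 1) := by
    rw [← Real.exp_nat_mul]
    congr 1
    push_cast
    ring
  rw [h3, pow_mul]
  exact pow_le_pow_left₀ (Real.exp_pos _).le h2 _

theorem poly_two (a : ℕ) : (a + 2) * (2 * a + 1) ≤ 5 * 2 ^ a := by
  rcases Nat.lt_or_ge a 2 with h | h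
  · interval_cases a <;> norm_num
  · induction a, h using Nat.le_induction with
    | base => norm_num
    | succ k hk ih =>
      rw [pow_succ]
      nlinarith

theorem poly_four (a : ℕ) (ha : 1 ≤ a) : 4 * (a + 2) ^ 3 ≤ 27 * 4 ^ a := by
  induction a, ha using Nat.le_induction with
  | base => norm_num
  | succ k hk ih =>
    have h1 : (k + 1 + 2) ^ 3 ≤ 4 * (k + 2) ^ 3 := by
      nlinarith [sq_nonneg k, pow_pos (show 0 < k by omega) 3]
    have h2 : 4 ^ (k + 1) = 4 * 4 ^ k := by ring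
    rw [h2]
    omega

theorem bad_g (a N : ℕ) (ha : 1 ≤ a) [DecidablePred (BadG a)] (h1 : 4 ^ a * (80 * (a + 1)) ≤ N)
    (h2 : N < 4 ^ (a + 1) * (80 * (a + 2))) :
    (((comps N).filter (BadG a)).card : ℝ) ≤ 2 ^ N * (240000000 / N) := by
  classical
  have hsub : (comps N).filter (BadG a) ⊆
      (Finset.range (2 * a + 1)).biUnion (fun c =>
        (comps N).filter (fun l => l.count (c + 1) < 4 * a + 7)) ∪
      (((comps N).filter (fun l : List ℕ => ∃ l₁ x l₂, l = l₁ ++ x :: l₂ ∧ 4 * a + 1 ≤ x ∧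
        ∃ y ∈ l₂, 4 * a + 1 ≤ y)) ∪
      ((comps N).filter (fun l : List ℕ => ∃ k, 1 ≤ k ∧ 2 * k ∈ l ∧ (k ∉ l ∨ k + 1 ∉ l)))) := by
    intro l hl
    obtain ⟨hl1, hl2⟩ := Finset.mem_filter.1 hl
    rw [Finset.mem_union, Finset.mem_union, Finset.mem_biUnion]
    rcases hl2 with ⟨c, hc1, hc2, hc3⟩ | h | h
    · refine Or.inl ⟨c - 1, Finset.mem_range.2 (by omega), Finset.mem_filter.2 ⟨hl1, ?_⟩⟩
      have : c - 1 + 1 = c := by omega
      rw [this]; exact hc3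
    · exact Or.inr (Or.inl (Finset.mem_filter.2 ⟨hl1, h⟩))
    · exact Or.inr (Or.inr (Finset.mem_filter.2 ⟨hl1, h⟩))
  have hcard := (Finset.card_le_card hsub).trans ((Finset.card_union_le _ _).trans
    (Nat.add_le_add Finset.card_biUnion_le (Finset.card_union_le _ _)))
  have hreal : (((comps N).filter (BadG a)).card : ℝ) ≤
      ∑ c ∈ range (2 * a + 1), (few (c + 1) (4 * a + 7) N : ℝ) +
      ((((comps N).filter (fun l : List ℕ => ∃ l₁ x l₂, l = l₁ ++ x :: l₂ ∧ 4 * a + 1 ≤ x ∧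
        ∃ y ∈ l₂, 4 * a + 1 ≤ y)).card : ℝ) +
      (((comps N).filter (fun l : List ℕ => ∃ k, 1 ≤ k ∧ 2 * k ∈ l ∧
        (k ∉ l ∨ k + 1 ∉ l))).card : ℝ)) := by
    exact_mod_cast hcard
  refine hreal.trans ?_
  have hN640 : 640 ≤ N := by
    refine le_trans ?_ h1
    have h3 : 4 ^ 1 ≤ 4 ^ a := Nat.pow_le_pow_right (by norm_num) ha
    have h4 : 4 ^ 1 * (80 * (1 + 1)) ≤ 4 ^ a * (80 * (a + 1)) :=
      Nat.mul_le_mul h3 (by omega)
    omega
  have hN1 : 1 ≤ N := by omega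
  have hN640' : (640 : ℝ) ≤ N := by exact_mod_cast hN640
  have hN0 : (0 : ℝ) < N := by linarith
  have hN : (4 : ℝ) ^ a * (80 * (a + 1)) ≤ N := by exact_mod_cast h1
  have h4a : (4 : ℝ) ^ a * (1 / 4 : ℝ) ^ a = 1 := by rw [← mul_pow]; norm_num
  have h2a : (2 : ℝ) ^ a * (1 / 2 : ℝ) ^ a = 1 := by rw [← mul_pow]; norm_num
  have hP : (0 : ℝ) < 2 ^ N := by positivity
  -- `N / 4 ^ a ≤ 320 (a + 2)`
  have hNq : N * (1 / 4 : ℝ) ^ a ≤ 320 * (a + 2) := by
    have h7 : (N : ℝ) ≤ 4 ^ a * (320 * (a + 2)) := by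
      have h8 : (N : ℝ) < 4 ^ (a + 1) * (80 * ((a : ℝ) + 2)) := by exact_mod_cast h2
      rw [pow_succ] at h8
      nlinarith
    calc N * (1 / 4 : ℝ) ^ a ≤ (4 ^ a * (320 * (a + 2))) * (1 / 4 : ℝ) ^ a :=
          mul_le_mul_of_nonneg_right h7 (by positivity)
      _ = 320 * (a + 2) := by linear_combination (320 * ((a : ℝ) + 2)) * h4a
  -- few
  have hfew : ∀ c ∈ range (2 * a + 1), (few (c + 1) (4 * a + 7) N : ℝ) ≤
      2 ^ N * (1 / 8 : ℝ) ^ a := by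
    intro c hc
    have hc' := Finset.mem_range.1 hc
    have h3 := few_le (c + 1) (4 * a + 7) N (by omega)
    have hy : 5 * ((a : ℝ) + 1) ≤ N * (1 / 2 : ℝ) ^ (c + 1 + 3) := by
      have h4 : (1 / 2 : ℝ) ^ (2 * a + 4) ≤ (1 / 2 : ℝ) ^ (c + 1 + 3) :=
        pow_le_pow_of_le_one (by norm_num) (by norm_num) (by omega)
      have h5 : 5 * ((a : ℝ) + 1) = 4 ^ a * (80 * (a + 1)) * (1 / 2 : ℝ) ^ (2 * a + 4) := by
        have h8 : (1 / 2 : ℝ) ^ (2 * a + 4) = (1 / 4 : ℝ) ^ a / 16 := by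
          rw [pow_add, pow_mul]; norm_num
          ring
        rw [h8]
        linear_combination (- 5 * ((a : ℝ) + 1)) * h4a
      rw [h5]
      exact mul_le_mul hN h4 (by positivity) (by positivity)
    have h4 : Real.exp (-(N * (1 / 2 : ℝ) ^ (c + 1 + 3))) ≤ (1 / 2 : ℝ) ^ (7 * (a + 1)) :=
      (Real.exp_le_exp.2 (neg_le_neg hy)).trans (exp_five a)
    refine h3.trans ?_
    have h5 : (2 : ℝ) ^ (4 * a + 7) * (2 ^ N * (1 / 2 : ℝ) ^ (7 * (a + 1))) =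
        2 ^ N * (1 / 8 : ℝ) ^ a := by
      have h8 : (2 : ℝ) ^ (4 * a + 7) = 16 ^ a * 128 := by
        rw [pow_add, pow_mul]; norm_num
      have h9 : (1 / 2 : ℝ) ^ (7 * (a + 1)) = (1 / 16 : ℝ) ^ a * (1 / 8 : ℝ) ^ a * (1 / 128) := by
        rw [mul_add, pow_add, pow_mul, ← mul_pow]; norm_num
      have h16 : (16 : ℝ) ^ a * (1 / 16 : ℝ) ^ a = 1 := by rw [← mul_pow]; norm_num
      rw [h8, h9]
      linear_combination (2 ^ N * (1 / 8 : ℝ) ^ a) * h16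
    rw [← h5]
    refine mul_le_mul_of_nonneg_left (mul_le_mul_of_nonneg_left h4 (by positivity)) (by positivity)
  have hsum := Finset.sum_le_sum hfew
  rw [Finset.sum_const, Finset.card_range, nsmul_eq_mul] at hsum
  have hcnt : ((2 * a + 1 : ℕ) : ℝ) * (1 / 8 : ℝ) ^ a ≤ 1600 / N := by
    rw [le_div_iff₀ hN0]
    have h3 : (1 / 8 : ℝ) ^ a = (1 / 4 : ℝ) ^ a * (1 / 2 : ℝ) ^ a := by
      rw [← mul_pow]; norm_num
    have h4 : ((a : ℝ) + 2) * (2 * a + 1) ≤ 5 * 2 ^ a := by exact_mod_cast poly_two a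
    have h5 : ((2 * a + 1 : ℕ) : ℝ) = 2 * a + 1 := by push_cast; ring
    rw [h3, h5]
    calc (2 * (a : ℝ) + 1) * ((1 / 4 : ℝ) ^ a * (1 / 2 : ℝ) ^ a) * N
        = (N * (1 / 4 : ℝ) ^ a) * ((2 * (a : ℝ) + 1) * (1 / 2 : ℝ) ^ a) := by ring
      _ ≤ (320 * (a + 2)) * ((2 * (a : ℝ) + 1) * (1 / 2 : ℝ) ^ a) :=
          mul_le_mul_of_nonneg_right hNq (by positivity)
      _ = 320 * (((a : ℝ) + 2) * (2 * a + 1)) * (1 / 2 : ℝ) ^ a := by ring
      _ ≤ 320 * (5 * 2 ^ a) * (1 / 2 : ℝ) ^ a :=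
          mul_le_mul_of_nonneg_right (by linarith) (by positivity)
      _ = 1600 := by linear_combination 1600 * h2a
  -- two big parts
  have hbig := two_big (4 * a + 1) N (by omega)
  have hbig2 : 4 * (N : ℝ) * (N + 1) * 2 ^ N * ((1 / 2 : ℝ) ^ (4 * a + 1)) ^ 2 ≤
      2 ^ N * (230000000 / N) := by
    have h3 : ((1 / 2 : ℝ) ^ (4 * a + 1)) ^ 2 = ((1 / 4 : ℝ) ^ a) ^ 4 / 4 := by
      rw [← pow_mul, ← pow_mul, show (1 / 4 : ℝ) = (1 / 2) ^ 2 by norm_num, ← pow_mul]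
      rw [show (4 * a + 1) * 2 = 2 * (a * 4) + 2 by ring, pow_add]
      norm_num
      ring
    rw [h3]
    have h4 : 4 * (N : ℝ) * (N + 1) * 2 ^ N * (((1 / 4 : ℝ) ^ a) ^ 4 / 4) =
        2 ^ N * (N * (N + 1) * ((1 / 4 : ℝ) ^ a) ^ 4) := by ring
    rw [h4]
    refine mul_le_mul_of_nonneg_left ?_ hP.le
    rw [le_div_iff₀ hN0]
    have h5 : (N : ℝ) + 1 ≤ 641 / 640 * N := by linarith
    have h6 : 4 * ((a : ℝ) + 2) ^ 3 ≤ 27 * 4 ^ a := by exact_mod_cast poly_four a ha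
    have h7 : (N * (1 / 4 : ℝ) ^ a) ^ 3 ≤ (320 * (a + 2)) ^ 3 :=
      pow_le_pow_left₀ (by positivity) hNq 3
    calc (N : ℝ) * (N + 1) * ((1 / 4 : ℝ) ^ a) ^ 4 * N
        = (N + 1) * ((N : ℝ) ^ 2 * ((1 / 4 : ℝ) ^ a) ^ 4) := by ring
      _ ≤ (641 / 640 * N) * ((N : ℝ) ^ 2 * ((1 / 4 : ℝ) ^ a) ^ 4) :=
          mul_le_mul_of_nonneg_right h5 (by positivity)
      _ = 641 / 640 * (1 / 4 : ℝ) ^ a * (N * (1 / 4 : ℝ) ^ a) ^ 3 := by ring
      _ ≤ 641 / 640 * (1 / 4 : ℝ) ^ a * (320 * (a + 2)) ^ 3 :=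
          mul_le_mul_of_nonneg_left h7 (by positivity)
      _ = 641 / 640 * (320 ^ 3 / 4) * (1 / 4 : ℝ) ^ a * (4 * (a + 2) ^ 3) := by ring
      _ ≤ 641 / 640 * (320 ^ 3 / 4) * (1 / 4 : ℝ) ^ a * (27 * 4 ^ a) :=
          mul_le_mul_of_nonneg_left h6 (by positivity)
      _ = 641 / 640 * (320 ^ 3 / 4) * 27 := by
          linear_combination (641 / 640 * (320 ^ 3 / 4) * 27) * h4a
      _ ≤ 230000000 := by norm_num
  have hmiss := miss_total N hN1
  have hnum : (1600 : ℝ) / N + (230000000 / N + 20000 / N) ≤ 240000000 / N := by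
    rw [← add_div, ← add_div]
    exact div_le_div_of_nonneg_right (by norm_num) hN0.le
  have hs1 : ∑ c ∈ range (2 * a + 1), (few (c + 1) (4 * a + 7) N : ℝ) ≤ 2 ^ N * (1600 / N) := by
    refine hsum.trans ?_
    calc ((2 * a + 1 : ℕ) : ℝ) * (2 ^ N * (1 / 8 : ℝ) ^ a)
        = 2 ^ N * (((2 * a + 1 : ℕ) : ℝ) * (1 / 8 : ℝ) ^ a) := by ring
      _ ≤ 2 ^ N * (1600 / N) := mul_le_mul_of_nonneg_left hcnt hP.le
  have hs2 := hbig.trans hbig2
  refine (add_le_add hs1 (add_le_add hs2 hmiss)).trans ?_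
  rw [← mul_add, ← mul_add]
  exact mul_le_mul_of_nonneg_left hnum hP.le

/-- the proportion of non-splittable caterpillars is at most `C / n` -/
theorem rate_g (n : ℕ) (hn : 3 ≤ n) (hodd : Odd n) :
    ((NonSplitSeqs n).ncard : ℝ) ≤ 500000000 / n * ((DegSeqs n).ncard : ℝ) := by
  classical
  set N := n - 2 with hN
  have hn0 : (0 : ℝ) < n := by exact_mod_cast (by omega : 0 < n)
  have hD : (0 : ℝ) < 2 ^ (n - 3) := by positivity
  have hex : ∃ a, N < 4 ^ a * (80 * (a + 1)) := by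
    refine ⟨N, ?_⟩
    have h1 := Nat.lt_pow_self (n := N) (show 1 < 4 by norm_num)
    have h2 : 4 ^ N * 1 ≤ 4 ^ N * (80 * (N + 1)) := Nat.mul_le_mul_left _ (by omega)
    omega
  set a' := Nat.find hex with ha'
  have hspec : N < 4 ^ a' * (80 * (a' + 1)) := Nat.find_spec hex
  rcases Nat.lt_or_ge a' 2 with hsmall | hlarge
  · -- small `n`
    have hsub : NonSplitSeqs n ⊆ DegSeqs n := by
      rintro L ⟨V, hV, G, v, q1, q2, q3, q4, _⟩
      exact ⟨V, hV, G, v, q1, q2, q3, q4⟩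
    have hfin : (DegSeqs n).Finite := by
      rw [degSeqs_eq n hn]
      exact (Finset.finite_toSet _).image _
    have h3 : ((NonSplitSeqs n).ncard : ℝ) ≤ ((DegSeqs n).ncard : ℝ) := by
      exact_mod_cast Set.ncard_le_ncard hsub hfin
    have hN640 : N < 640 := by
      have h4 : 4 ^ a' * (80 * (a' + 1)) ≤ 640 := by
        interval_cases a' <;> norm_num
      omega
    have hn642 : (n : ℝ) ≤ 642 := by exact_mod_cast (by omega : n ≤ 642)
    have h5 : (1 : ℝ) ≤ 500000000 / n := by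
      rw [le_div_iff₀ hn0]; linarith
    refine h3.trans ?_
    nlinarith [Nat.cast_nonneg (α := ℝ) (DegSeqs n).ncard]
  · obtain ⟨a, ha⟩ : ∃ a, a' = a + 1 := ⟨a' - 1, by omega⟩
    have ha1 : 1 ≤ a := by omega
    have hmin : 4 ^ a * (80 * (a + 1)) ≤ N := by
      have := Nat.find_min hex (m := a) (by omega)
      omega
    rw [ha] at hspec
    have hsub := nonSplit_subset_g n a ha1 hodd
    have hfin : {l | l ∈ comps (n - 2) ∧ BadG a l}.Finite :=
      (Finset.finite_toSet (comps (n - 2))).subset (fun l hl => hl.1)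
    have h3 := Set.ncard_le_ncard hsub (hfin.image _)
    rw [Set.ncard_image_of_injective _ map_succ_inj] at h3
    have h4 : {l | l ∈ comps (n - 2) ∧ BadG a l}.ncard = ((comps N).filter (BadG a)).card := by
      rw [← Set.ncard_coe_finset]
      congr 1
      ext l
      simp [hN]
    rw [h4] at h3
    have h5 := bad_g a N ha1 hmin hspec
    have h6 : ((NonSplitSeqs n).ncard : ℝ) ≤ (((comps N).filter (BadG a)).card : ℝ) := by
      exact_mod_cast h3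
    refine (h6.trans h5).trans ?_
    rw [degSeqs_card n hn]
    have hpow : (2 : ℝ) ^ N = 2 * 2 ^ (n - 3) := by
      rw [← pow_succ']; congr 1; omega
    rw [hpow]
    push_cast
    have hNn : N + 2 = n := by omega
    have hNn' : (N : ℝ) + 2 = n := by exact_mod_cast hNn
    have hN48 : 48 ≤ N := by
      refine le_trans ?_ hmin
      have h7 : 1 ≤ 4 ^ a := Nat.one_le_pow _ _ (by norm_num)
      have h8 : 1 * 48 ≤ 4 ^ a * (80 * (a + 1)) := Nat.mul_le_mul h7 (by omega)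
      omega
    have hN48' : (48 : ℝ) ≤ N := by exact_mod_cast hN48
    have hN0 : (0 : ℝ) < N := by linarith
    have h11 : 2 * (240000000 / (N : ℝ)) ≤ 500000000 / n := by
      rw [mul_div_assoc', div_le_div_iff₀ hN0 hn0, ← hNn']
      nlinarith
    calc 2 * 2 ^ (n - 3) * (240000000 / (N : ℝ))
        = (2 * (240000000 / (N : ℝ))) * 2 ^ (n - 3) := by ring
      _ ≤ 500000000 / n * 2 ^ (n - 3) := mul_le_mul_of_nonneg_right h11 hD.le

end Pool.Agent.W_e8e3a0
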