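import Pool.Agent.W_e8e3a0.Four49

namespace Pool.Agent.W_e8e3a0

open Finset Num49

section num

variable {I : Type} [DecidableEq I]

/-- all odd degrees have even multiplicity -/
theorem good_pairs {d : I → ℕ} : ∀ (n : ℕ) (R : Finset I), R.card = n → (∀ i ∈ R, 2 ≤ d i) →
    (∀ q, Odd q → Even (cx d R q)) → Good d R := by
  intro n
  induction n using Nat.strong_induction_on with
  | _ n ih =>
  intro R hn hd hq
  rcases Finset.eq_empty_or_nonempty R with rfl | ⟨i, hi⟩
  · exact good_empty d
  by_cases hei : Even (d i)
  · have h2 : R = {i} ∪ R.erase i := by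
      ext j; by_cases hj : j = i <;> simp [hj, hi]
    have hcx : ∀ q, cx d R q = (if d i = q then 1 else 0) + cx d (R.erase i) q := by
      intro q
      rw [← cx_insert (Finset.notMem_erase i R), Finset.insert_erase hi]
    have hg := ih (R.erase i).card (by rw [← hn]; exact Finset.card_erase_lt_of_mem hi) _ rfl
      (fun j hj => hd j (Finset.mem_of_mem_erase hj)) (fun q hqo => by
        have h3 := hq q hqo
        have h4 : ¬ d i = q := by rintro rfl; exact (Nat.not_even_iff_odd.2 hqo) hei
        rw [hcx q, if_neg h4, zero_add] at h3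
        exact h3)
    rw [h2]
    exact (good_even hei (hd i hi)).union hg (by simp)
  · have hoi : Odd (d i) := Nat.not_even_iff_odd.1 hei
    have hcx : ∀ q, cx d R q = (if d i = q then 1 else 0) + cx d (R.erase i) q := by
      intro q
      rw [← cx_insert (Finset.notMem_erase i R), Finset.insert_erase hi]
    have h3 := hq (d i) hoi
    rw [hcx, if_pos rfl] at h3
    have h5 : 1 ≤ cx d (R.erase i) (d i) := by
      by_contra hno
      have : cx d (R.erase i) (d i) = 0 := by omega
      rw [this] at h3
      exact absurd h3 (by decide)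
    obtain ⟨j, hj, hji⟩ := exists_of_cx h5
    have hne : i ≠ j := fun e => (Finset.notMem_erase i R) (e ▸ hj)
    have hcx2 : ∀ q, cx d (R.erase i) q = (if d j = q then 1 else 0) +
        cx d ((R.erase i).erase j) q := by
      intro q
      rw [← cx_insert (Finset.notMem_erase j _), Finset.insert_erase hj]
    have hg := ih ((R.erase i).erase j).card (by
        rw [← hn]
        exact lt_trans (Finset.card_erase_lt_of_mem hj) (Finset.card_erase_lt_of_mem hi)) _ rfl
      (fun k hk => hd k (Finset.mem_of_mem_erase (Finset.mem_of_mem_erase hk)))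
      (fun q hqo => by
        have h6 := hq q hqo
        rw [hcx q, hcx2 q, hji] at h6
        by_cases h7 : d i = q
        · rw [if_pos h7, ← add_assoc] at h6
          exact (Nat.even_add.1 h6).1 (by decide)
        · rw [if_neg h7, zero_add, zero_add] at h6
          exact h6)
    have h8 : R = {i, j} ∪ (R.erase i).erase j := by
      ext k
      by_cases hk : k = i
      · simp [hk, hi]
      · by_cases hk2 : k = j
        · simp [hk2, Finset.mem_of_mem_erase hj]
        · simp [hk, hk2]
    rw [h8]
    refine (good_pair hne hji.symm (hd i hi)).union hg ?_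
    rw [Finset.disjoint_left]
    intro k hk hk2
    simp only [Finset.mem_insert, Finset.mem_singleton] at hk
    rcases hk with rfl | rfl
    · simp at hk2
    · simp at hk2

theorem even_cx {d : I → ℕ} {R : Finset I} {p : ℕ} (hp : Odd p) (hs : Even (∑ i ∈ R, d i))
    (h : ∀ q, Odd q → q ≠ p → Even (cx d R q)) : Even (cx d R p) := by
  obtain ⟨N, hN⟩ : ∃ N, ∀ i ∈ R, d i < N :=
    ⟨∑ i ∈ R, d i + 1, fun i hi => by
      have := Finset.single_le_sum (f := d) (fun _ _ => Nat.zero_le _) hi
      omega⟩
  have h1 := sum_cx (fun k => k) d R (max N (p + 1)) (fun i hi => lt_of_lt_of_le (hN i hi)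
    (le_max_left _ _))
  have hpm : p ∈ range (max N (p + 1)) := Finset.mem_range.2 (lt_of_lt_of_le (by omega)
    (le_max_right _ _))
  rw [← Finset.add_sum_erase _ _ hpm] at h1
  have h2 : Even (∑ k ∈ (range (max N (p + 1))).erase p, k * cx d R k) := by
    refine Finset.even_sum _ (fun k hk => ?_)
    rcases Nat.even_or_odd k with he | ho
    · exact he.mul_right _
    · exact (h k ho (Finset.ne_of_mem_erase hk)).mul_left _
  rw [← h1] at hs
  have h3 : Even (p * cx d R p) := (Nat.even_add.1 hs).2 h2
  rcases Nat.even_mul.1 h3 with h4 | h4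
  · exact absurd h4 (Nat.not_even_iff_odd.2 hp)
  · exact h4

theorem good_rich {d : I → ℕ} {p D : ℕ} (hp : Odd p) (hp3 : 3 ≤ p) (hD : D + 1 ≤ 2 * p) :
    ∀ (t : ℕ) (R : Finset I),
      ((range (D + 1)).filter (fun q => Odd q ∧ q ≠ p ∧ Odd (cx d R q))).card ≤ t →
      Even (∑ i ∈ R, d i) → (∀ i ∈ R, 2 ≤ d i ∧ d i ≤ D) → t ≤ cx d R p →
      (∀ e, Even e → 4 ≤ e → e ≤ p + 1 → t ≤ cx d R e) → Good d R := by
  intro t
  induction t with
  | zero =>
    intro R hc hs hd _ _
    have hem := Finset.card_eq_zero.1 (Nat.le_zero.1 hc)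
    have h1 : ∀ q, Odd q → q ≠ p → Even (cx d R q) := by
      intro q hq hqp
      by_contra hno
      have ho : Odd (cx d R q) := Nat.not_even_iff_odd.1 hno
      obtain ⟨i, hi, hiq⟩ := exists_of_cx (x := d) (R := R) (k := q) ho.pos
      have : q ∈ (range (D + 1)).filter (fun q => Odd q ∧ q ≠ p ∧ Odd (cx d R q)) := by
        rw [Finset.mem_filter, Finset.mem_range]
        exact ⟨by have := (hd i hi).2; omega, hq, hqp, ho⟩
      rw [hem] at this
      simp at this
    refine good_pairs _ R rfl (fun i hi => (hd i hi).1) (fun q hq => ?_)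
    by_cases hqp : q = p
    · rw [hqp]; exact even_cx hp hs h1
    · exact h1 q hq hqp
  | succ t ih =>
    intro R hc hs hd hcp hce
    by_cases hem : ((range (D + 1)).filter (fun q => Odd q ∧ q ≠ p ∧ Odd (cx d R q))).card ≤ t
    · exact ih R hem hs hd (by omega) (fun e h1 h2 h3 => by have := hce e h1 h2 h3; omega)
    have hne : ((range (D + 1)).filter (fun q => Odd q ∧ q ≠ p ∧ Odd (cx d R q))).Nonempty := by
      rw [← Finset.card_pos]; omega
    obtain ⟨q, hqm⟩ := hne
    obtain ⟨hqr, hqo, hqp, hqc⟩ := Finset.mem_filter.1 hqm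
    have hqD : q ≤ D := by have := Finset.mem_range.1 hqr; omega
    obtain ⟨i, hi, hiq⟩ := exists_of_cx (x := d) (R := R) (k := q) hqc.pos
    obtain ⟨j, hj, hjp⟩ := exists_of_cx (x := d) (R := R) (k := p) (by omega)
    have hq3 : 3 ≤ q := by
      have h1 := (hd i hi).1
      obtain ⟨r, hr⟩ := hqo
      omega
    -- the even degree used
    obtain ⟨e, hee, he4, hep, hlt1, hlt2, hlt3⟩ : ∃ e, Even e ∧ 4 ≤ e ∧ e ≤ p + 1 ∧
        q < p + e ∧ p < q + e ∧ e < p + q := by
      obtain ⟨r, hr⟩ := hqo
      obtain ⟨u, hu⟩ := hp
      rcases Nat.lt_or_ge q p with hlt | hge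
      · exact ⟨p - q + 2, ⟨u - r + 1, by omega⟩, by omega, by omega, by omega, by omega, by omega⟩
      · exact ⟨q - p + 2, ⟨r - u + 1, by omega⟩, by omega, by omega, by omega, by omega, by omega⟩
    obtain ⟨k, hk, hke⟩ := exists_of_cx (x := d) (R := R) (k := e) (by
      have := hce e hee he4 hep; omega)
    have hij : i ≠ j := by rintro rfl; exact hqp (hiq.symm.trans hjp)
    have hodd_ne : ∀ r, Odd r → r ≠ e := by
      rintro r hr rfl
      exact (Nat.not_even_iff_odd.2 hr) hee
    have hik : i ≠ k := by rintro rfl; exact hodd_ne q hqo (hiq.symm.trans hke)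
    have hjk : j ≠ k := by rintro rfl; exact hodd_ne p hp (hjp.symm.trans hke)
    set B : Finset I := {i, j, k} with hB
    have hBR : B ⊆ R := by
      intro x hx
      simp only [hB, Finset.mem_insert, Finset.mem_singleton] at hx
      rcases hx with rfl | rfl | rfl
      · exact hi
      · exact hj
      · exact hk
    have hBc : B.card = 3 := by
      rw [hB, Finset.card_eq_three]
      exact ⟨i, j, k, hij, hik, hjk, rfl⟩
    have hBs : ∑ x ∈ B, d x = q + p + e := by
      rw [hB, Finset.sum_insert (by simp [hij, hik]), Finset.sum_pair hjk, hiq, hjp, hke]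
      ring
    have hqpe : Even (q + p + e) := by
      rw [Nat.even_add]
      exact ⟨fun _ => hee, fun _ => Nat.even_add.2 ⟨fun h' => absurd h' (Nat.not_even_iff_odd.2 hqo),
        fun h' => absurd h' (Nat.not_even_iff_odd.2 hp)⟩⟩
    have hBg : Good d B := by
      refine good_chain (by rw [hBc]; decide) (by rw [hBs]; exact hqpe)
        (fun x hx => by have := (hd x (hBR hx)).1; omega) ?_
      intro a ha b hb hab c hc'
      simp only [hB, Finset.mem_insert, Finset.mem_singleton] at ha hb hc'
      rcases ha with rfl | rfl | rfl <;> rcases hb with rfl | rfl | rfl <;>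
        rcases hc' with rfl | rfl | rfl <;> first | exact absurd rfl hab | omega
    have hcxB : ∀ r, cx d B r = (if q = r then 1 else 0) + (if p = r then 1 else 0) +
        (if e = r then 1 else 0) := by
      intro r
      unfold cx
      rw [hB, Finset.sum_insert (by simp [hij, hik]), Finset.sum_pair hjk, hiq, hjp, hke]
      ring
    have hsub := fun r => cx_sub (x := d) hBR r
    have hgood : Good d (R \ B) := by
      refine ih (R \ B) ?_ ?_ (fun x hx => hd x (Finset.mem_sdiff.1 hx).1) ?_ ?_
      · have hss : (range (D + 1)).filter (fun r => Odd r ∧ r ≠ p ∧ Odd (cx d (R \ B) r)) ⊆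
            ((range (D + 1)).filter (fun r => Odd r ∧ r ≠ p ∧ Odd (cx d R r))).erase q := by
          intro r hr
          obtain ⟨h1, h2, h3, h4⟩ := Finset.mem_filter.1 hr
          have h5 := hsub r
          have h6 := hcxB r
          have h7 := hodd_ne r h2
          rw [if_neg (Ne.symm h3), if_neg (Ne.symm h7)] at h6
          have h8 : r ≠ q := by
            rintro rfl
            rw [if_pos rfl] at h6
            rw [h5, h6] at hqc
            have h9 : Even (cx d (R \ B) r + (1 + 0 + 0)) := by
              simpa using h4.add_one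
            exact (Nat.not_even_iff_odd.2 hqc) h9
          rw [if_neg (Ne.symm h8)] at h6
          rw [Finset.mem_erase, Finset.mem_filter]
          refine ⟨h8, h1, h2, h3, ?_⟩
          rw [h5, h6]
          simpa using h4
        have h9 := Finset.card_le_card hss
        rw [Finset.card_erase_of_mem hqm] at h9
        omega
      · have h1 := Finset.sum_sdiff hBR (f := d)
        rw [← h1, hBs] at hs
        exact (Nat.even_add.1 hs).2 hqpe
      · have h5 := hsub p
        have h6 := hcxB p
        rw [if_neg hqp, if_pos rfl, if_neg (Ne.symm (hodd_ne p hp))] at h6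
        omega
      · intro r hr1 hr2 hr3
        have h5 := hsub r
        have h6 := hcxB r
        have h7 := hce r hr1 hr2 hr3
        rw [if_neg (by rintro rfl; exact (Nat.not_even_iff_odd.2 hqo) hr1),
          if_neg (by rintro rfl; exact (Nat.not_even_iff_odd.2 hp) hr1)] at h6
        by_cases h8 : e = r
        · rw [if_pos h8] at h6; omega
        · rw [if_neg h8] at h6; omega
    have hun : R = B ∪ (R \ B) := (Finset.union_sdiff_of_subset hBR).symm
    rw [hun]
    exact hBg.union hgood Finset.disjoint_sdiff

end num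

end Pool.Agent.W_e8e3a0
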