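import Pool.Agent.W_e8e3a0.ParityM49
import Pool.Agent.W_e8e3a0.RichM49

namespace Pool.Agent.W_e8e3a0

open Finset Num49

theorem seg_close {I : Type} [DecidableEq I] {d : I → ℕ} {P : Finset I} {q : ℕ} (hq : 1 ≤ q)
    (h : Seg d P q q) : Good d P := by
  obtain ⟨x, y, a, b⟩ := h
  refine ⟨x, y, ?_, ?_⟩
  · intro i hi
    have := a i hi
    omega
  · intro k
    have := b k
    omega

/-- a triangle -/
theorem good_tri {I : Type} [DecidableEq I] {d : I → ℕ} {a b e : I} (hab : a ≠ b) (hae : a ≠ e)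
    (hbe : b ≠ e) (hpar : (d a + d b + d e) % 2 = 0) (h1 : d a < d b + d e) (h2 : d b < d a + d e)
    (h3 : d e < d a + d b) : Good d {a, b, e} := by
  have s1 : Seg d {a} ((d a + d e - d b) / 2) ((d a + d b - d e) / 2) :=
    seg_one (by omega) (by omega)
  have s2 : Seg d {b} ((d a + d b - d e) / 2) ((d b + d e - d a) / 2) :=
    seg_one (by omega) (by omega)
  have s3 : Seg d {e} ((d b + d e - d a) / 2) ((d a + d e - d b) / 2) :=
    seg_one (by omega) (by omega)
  have s23 := s2.trans (by omega) s3 (by simpa using hbe)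
  exact seg_close (by omega) (s1.trans (by omega) s23 (by simp [hab, hae]))

variable {V : Type} [Fintype V]

theorem cx_sdiff {s : ℕ} (d : Fin s → ℕ) (P : Finset (Fin s)) (q : ℕ) :
    cx d univ q ≤ cx d (univ \ P) q + P.card := by
  have h1 : cx d (univ \ P) q + cx d P q = cx d univ q := by
    unfold cx
    exact Finset.sum_sdiff (Finset.subset_univ _)
  have h2 : cx d P q ≤ P.card := by
    unfold cx
    rw [Finset.card_eq_sum_ones]
    exact Finset.sum_le_sum (fun i _ => by split_ifs <;> omega)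
  omega

theorem good_sum {I : Type} [DecidableEq I] {d : I → ℕ} {P : Finset I} (h : Good d P) :
    Even (∑ i ∈ P, d i) := by
  obtain ⟨x, y, h1, h2⟩ := h
  have h3 : ∑ i ∈ P, d i = ∑ i ∈ P, x i + ∑ i ∈ P, y i := by
    rw [← Finset.sum_add_distrib]
    exact Finset.sum_congr rfl (fun i hi => (h1 i hi).1.symm)
  have h4 : ∑ i ∈ P, x i = ∑ i ∈ P, y i := by
    have := sum_eq_of_cx (x := x) (y := y) (R := P) (fun k _ => h2 k) (fun k => k)
    exact this
  rw [h3, h4]
  exact ⟨_, rfl⟩

/-- rich caterpillars, with an exceptional good set `P₀` of at most three vertices -/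
theorem rich_split_gen {G : SimpleGraph V} {s : ℕ} {v : Fin s → V} (h : IsSpine G v) (hs : 0 < s)
    (hev : Even G.edgeSet.ncard) {p : ℕ} (hp : Odd p) (hp3 : 3 ≤ p) (P₀ : Finset (Fin s))
    (hP₀ : Good (fun i => deg G (v i)) P₀) (hPc : P₀.card ≤ 3)
    (hD : ∀ i, i ∉ P₀ → deg G (v i) + 1 ≤ 2 * p)
    (hcp : 2 * p + 5 ≤ cx (fun i => deg G (v i)) univ p)
    (hce : ∀ e, Even e → 4 ≤ e → e ≤ p + 1 → 2 * p + 5 ≤ cx (fun i => deg G (v i)) univ e)
    (h2 : 4 ≤ cx (fun i => deg G (v i)) univ 2) (h3 : 4 ≤ cx (fun i => deg G (v i)) univ 3) :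
    Splittable G := by
  classical
  have e1 := edges_eq h
  have e2 := sum_spine h
  set d : Fin s → ℕ := fun i => deg G (v i) with hd
  have e2' : (univ : Finset (Fin s)).sum d = 2 * (s - 1) + (offSpine v).card := e2
  have hcard : ∀ R : Finset (Fin s), ((range (2 * p - 1 + 1)).filter
      (fun q => Odd q ∧ q ≠ p ∧ Odd (cx d R q))).card ≤ 2 * p := by
    intro R
    refine le_trans (Finset.card_filter_le _ _) ?_
    rw [Finset.card_range]; omega
  have hP₀s := good_sum hP₀
  obtain ⟨z, hz⟩ := hP₀s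
  have hz' : P₀.sum d = z + z := hz
  obtain ⟨r, hr⟩ := hev
  have hsd : ∀ Q : Finset (Fin s), (univ \ Q).sum d + Q.sum d = (univ : Finset (Fin s)).sum d :=
    fun Q => Finset.sum_sdiff (Finset.subset_univ _)
  rcases Nat.even_or_odd s with hse | hso
  · -- a `3` and a `2` outside `P₀`
    have hex : ∀ q, 4 ≤ cx d univ q → ∃ a, a ∉ P₀ ∧ d a = q := by
      intro q hq
      have := cx_sdiff d P₀ q
      obtain ⟨a, ha, ha2⟩ := exists_of_cx (x := d) (R := univ \ P₀) (k := q) (by omega)
      exact ⟨a, (Finset.mem_sdiff.1 ha).2, ha2⟩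
    obtain ⟨a, haP, ha⟩ := hex 3 h3
    obtain ⟨b, hbP, hb⟩ := hex 2 h2
    have hab : a ≠ b := by rintro rfl; omega
    have hseg : Seg d {a, b} 1 0 := seg_pair hab le_rfl (by omega) (by omega)
    have hdis1 : Disjoint ({a, b} : Finset (Fin s)) P₀ := by
      rw [Finset.disjoint_left]
      intro i hi
      rw [Finset.mem_insert, Finset.mem_singleton] at hi
      rcases hi with rfl | rfl
      · exact haP
      · exact hbP
    have hseg2 := hseg.good hP₀ hdis1
    set Q : Finset (Fin s) := {a, b} ∪ P₀ with hQ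
    have hQc : Q.card ≤ 5 := by
      refine (Finset.card_union_le _ _).trans ?_
      rw [Finset.card_pair hab]; omega
    have hQs : Q.sum d = 5 + (z + z) := by
      have h9 : ({a, b} : Finset (Fin s)).sum d = d a + d b := Finset.sum_pair hab
      have h10 : ({a, b} ∪ P₀).sum d = ({a, b} : Finset (Fin s)).sum d + P₀.sum d :=
        Finset.sum_union hdis1
      rw [hQ, h10, h9, hz']
      omega
    obtain ⟨t, ht⟩ := hse
    have hgood : Good d (univ \ Q) := by
      refine good_rich hp hp3 (D := 2 * p - 1) (by omega) (2 * p) _ (hcard _) ?_ ?_ ?_ ?_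
      · refine Nat.even_iff.2 ?_
        have := hsd Q
        show ((univ \ Q).sum d) % 2 = 0
        omega
      · intro i hi
        have hi' := (Finset.mem_sdiff.1 hi).2
        have h9 := hD i (fun hh => hi' (by rw [hQ]; exact Finset.mem_union_right _ hh))
        have h8 : 2 ≤ d i := h.two i
        have h9' : d i + 1 ≤ 2 * p := h9
        omega
      · have := cx_sdiff d Q p
        omega
      · intro e he h4 hle
        have h5 := cx_sdiff d Q e
        have h7 := hce e he h4 hle
        omega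
    have hall := hseg2.good hgood Finset.disjoint_sdiff
    have hu : Q ∪ (univ \ Q) = univ := Finset.union_sdiff_of_subset (subset_univ _)
    rw [hu] at hall
    exact split_of_seg h ⟨t, ht⟩ hall
  · have hgood : Good d (univ \ P₀) := by
      refine good_rich hp hp3 (D := 2 * p - 1) (by omega) (2 * p) _ (hcard _) ?_ ?_ ?_ ?_
      · refine Nat.even_iff.2 ?_
        have := hsd P₀
        obtain ⟨t, ht⟩ := hso
        show ((univ \ P₀).sum d) % 2 = 0
        omega
      · intro i hi
        have hi' := (Finset.mem_sdiff.1 hi).2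
        have h9' : d i + 1 ≤ 2 * p := hD i hi'
        have h8 : 2 ≤ d i := h.two i
        omega
      · have := cx_sdiff d P₀ p
        omega
      · intro e he h4 hle
        have h5 := cx_sdiff d P₀ e
        have h7 := hce e he h4 hle
        omega
    have hall := hP₀.union hgood Finset.disjoint_sdiff
    have hu : P₀ ∪ (univ \ P₀) = univ := Finset.union_sdiff_of_subset (subset_univ _)
    rw [hu] at hall
    exact split_of_good h hso hall

/-- rich caterpillars with one very large degree -/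
theorem rich_split_big {G : SimpleGraph V} {s : ℕ} {v : Fin s → V} (h : IsSpine G v) (hs : 0 < s)
    (hev : Even G.edgeSet.ncard) {p : ℕ} (hp : Odd p) (hp3 : 3 ≤ p) (X : Fin s)
    (hX : Even (deg G (v X)) ∨ ∃ b e : Fin s, b ≠ X ∧ e ≠ X ∧ b ≠ e ∧
      (deg G (v X) + deg G (v b) + deg G (v e)) % 2 = 0 ∧
      deg G (v X) < deg G (v b) + deg G (v e) ∧ deg G (v b) < deg G (v X) + deg G (v e) ∧
      deg G (v e) < deg G (v X) + deg G (v b))
    (hD : ∀ i, i ≠ X → deg G (v i) + 1 ≤ 2 * p)
    (hcp : 2 * p + 5 ≤ cx (fun i => deg G (v i)) univ p)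
    (hce : ∀ e, Even e → 4 ≤ e → e ≤ p + 1 → 2 * p + 5 ≤ cx (fun i => deg G (v i)) univ e)
    (h2 : 4 ≤ cx (fun i => deg G (v i)) univ 2) (h3 : 4 ≤ cx (fun i => deg G (v i)) univ 3) :
    Splittable G := by
  classical
  rcases hX with hX | ⟨b, e, hb, he, hbe, hpar, t1, t2, t3⟩
  · refine rich_split_gen h hs hev hp hp3 {X} (good_even hX (h.two X)) (by simp) ?_ hcp hce h2 h3
    intro i hi
    exact hD i (fun q => hi (by simp [q]))
  · refine rich_split_gen h hs hev hp hp3 {X, b, e} (good_tri (Ne.symm hb) (Ne.symm he) hbe hpar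
      t1 t2 t3) ?_ ?_ hcp hce h2 h3
    · rw [Finset.card_insert_of_notMem (by simp [hb.symm, he.symm]), Finset.card_pair hbe]
    · intro i hi
      exact hD i (fun q => hi (by simp [q]))

end Pool.Agent.W_e8e3a0
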