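import Pool.Agent.W_e8e3a0.Form49
import Pool.Agent.W_e8e3a0.Main49

namespace Pool.Agent.W_e8e3a0

open Finset Num49

variable {V : Type} [Fintype V]

/-- even spine, abstract form -/
theorem of_seg {G : SimpleGraph V} {s : ℕ} {v : Fin s → V} (h : IsSpine G v) (hs : Even s)
    (P : Finset (Fin s)) (hseg : Seg (fun i => deg G (v i)) P 1 0)
    (hgood : Good (fun i => deg G (v i)) (univ \ P)) : Splittable G := by
  classical
  have hall := hseg.good hgood Finset.disjoint_sdiff
  have hu : P ∪ (univ \ P) = univ := Finset.union_sdiff_of_subset (subset_univ _)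
  rw [hu] at hall
  obtain ⟨x, y, hxy, hb⟩ := hall
  have hx0 : cx x univ 0 = 0 := by
    unfold cx
    exact Finset.sum_eq_zero (fun i hi => if_neg (by have := (hxy i hi).2.1; omega))
  have hy0 : cx y univ 0 = 1 := by
    have := hb 0
    rw [hx0] at this
    simpa using this.symm
  obtain ⟨w, _, hw⟩ := exists_of_cx (x := y) (R := univ) (k := 0) (by omega)
  have hyp : ∀ i, i ≠ w → 1 ≤ y i := by
    intro i hi
    by_contra hno
    have hi0 : y i = 0 := by omega
    have h3 := cx_sub (x := y) (Finset.subset_univ ({i, w} : Finset (Fin s))) 0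
    have h4 : cx y {i, w} 0 = 2 := by
      unfold cx
      rw [Finset.sum_pair hi, hi0, hw]
      rfl
    omega
  refine construct h x y (fun i => (hxy i (mem_univ i)).1) w (Or.inl hw)
    (fun i hi => ⟨(hxy i (mem_univ i)).2.1, hyp i hi⟩) ?_ ?_
  · intro k hk
    have := hb k
    rw [if_neg (by omega), if_neg (by omega)] at this
    omega
  · have h3 := hb 1
    simp only [one_ne_zero, if_false, if_true, add_zero] at h3
    rw [col_count]
    have hwl := w.2
    obtain ⟨t, ht⟩ := hs
    split_ifs <;> omega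

theorem m3 {k a b c p q r : ℕ} (h : (if a = k then 1 else 0) + (if b = k then 1 else 0) +
    (if c = k then 1 else 0) = (if p = k then 1 else 0) + (if q = k then 1 else 0) +
    (if r = k then 1 else 0)) (ha : a = k) : p = k ∨ q = k ∨ r = k := by
  by_contra hno
  rw [if_pos ha, if_neg (fun h' => hno (Or.inl h')), if_neg (fun h' => hno (Or.inr (Or.inl h'))),
    if_neg (fun h' => hno (Or.inr (Or.inr h')))] at h
  omega

theorem m2 {k a b p q : ℕ} (h : (if a = k then 1 else 0) + (if b = k then 1 else 0) =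
    (if p = k then 1 else 0) + (if q = k then 1 else 0)) (ha : a = k) : p = k ∨ q = k := by
  by_contra hno
  rw [if_pos ha, if_neg (fun h' => hno (Or.inl h')), if_neg (fun h' => hno (Or.inr h'))] at h
  omega

theorem three_aux {x0 x1 x2 y0 y1 y2 : ℕ}
    (bal : ∀ k, 2 ≤ k → (if x0 = k then 1 else 0) + (if x1 = k then 1 else 0) +
      (if x2 = k then 1 else 0) = (if y0 = k then 1 else 0) + (if y1 = k then 1 else 0) +
      (if y2 = k then 1 else 0))
    (hle : y0 ≤ x0) (hM : x1 + y1 + (x2 + y2) ≤ x0 + y0)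
    (h1 : 2 ≤ x1 + y1) (h2 : 2 ≤ x2 + y2)
    (hpar : (x0 + y0 + (x1 + y1) + (x2 + y2)) % 2 = 0)
    (hne : ¬ ((x1 + y1) % 2 = 0 ∧ (x2 + y2) % 2 = 0))
    (hodd : (x1 + y1) % 2 = 1 → x1 + y1 ≠ x2 + y2) :
    ((x1 = 0 ∧ y2 = 0) ∨ (y1 = 0 ∧ x2 = 0)) ∧ x0 + y0 = x1 + y1 + (x2 + y2) := by
  rcases Nat.eq_or_lt_of_le hle with he | hlt
  · exfalso
    have b2 : ∀ k, 2 ≤ k → (if x1 = k then 1 else 0) + (if x2 = k then 1 else 0) =
        (if y1 = k then 1 else 0) + (if y2 = k then 1 else 0) := by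
      intro k hk
      have := bal k hk
      rw [he] at this
      omega
    have i1 : 2 ≤ x1 → y1 = x1 ∨ y2 = x1 := fun hk => m2 (b2 _ hk) rfl
    have i2 : 2 ≤ y1 → x1 = y1 ∨ x2 = y1 := fun hk => m2 (b2 _ hk).symm rfl
    have i3 : 2 ≤ x2 → y1 = x2 ∨ y2 = x2 := fun hk =>
      m2 ((add_comm _ _).trans (b2 _ hk)) rfl
    have i4 : 2 ≤ y2 → x1 = y2 ∨ x2 = y2 := fun hk =>
      m2 ((add_comm _ _).trans (b2 _ hk).symm) rfl
    omega
  · have i0 : y0 = x0 ∨ y1 = x0 ∨ y2 = x0 := m3 (bal x0 (by omega)) rfl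
    have i1 : 2 ≤ y0 → x0 = y0 ∨ x1 = y0 ∨ x2 = y0 := fun hk => m3 (bal _ hk).symm rfl
    omega

theorem three_key {x0 x1 x2 y0 y1 y2 : ℕ}
    (bal : ∀ k, 2 ≤ k → (if x0 = k then 1 else 0) + (if x1 = k then 1 else 0) +
      (if x2 = k then 1 else 0) = (if y0 = k then 1 else 0) + (if y1 = k then 1 else 0) +
      (if y2 = k then 1 else 0))
    (hM : x1 + y1 + (x2 + y2) ≤ x0 + y0)
    (h1 : 2 ≤ x1 + y1) (h2 : 2 ≤ x2 + y2)
    (hpar : (x0 + y0 + (x1 + y1) + (x2 + y2)) % 2 = 0)
    (hne : ¬ ((x1 + y1) % 2 = 0 ∧ (x2 + y2) % 2 = 0))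
    (hodd : (x1 + y1) % 2 = 1 → x1 + y1 ≠ x2 + y2) :
    ((x1 = 0 ∧ y2 = 0) ∨ (y1 = 0 ∧ x2 = 0)) ∧ x0 + y0 = x1 + y1 + (x2 + y2) := by
  rcases le_total y0 x0 with hle | hle
  · exact three_aux bal hle hM h1 h2 hpar hne hodd
  · obtain ⟨h3, h4⟩ := three_aux (fun k hk => (bal k hk).symm) hle (by omega)
      (by omega) (by omega) (by omega) (by omega) (by omega)
    omega

theorem one_le_of_mem {C : Finset ℕ} {t i : ℕ} {n : ℕ} (ht : t ∈ C) (hti : t = i ∨ t + 1 = i)
    (h : (C.filter (fun t => t = i ∨ t + 1 = i)).card ≤ n) : 1 ≤ n := by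
  have : 0 < (C.filter (fun t => t = i ∨ t + 1 = i)).card :=
    Finset.card_pos.2 ⟨t, Finset.mem_filter.2 ⟨ht, hti⟩⟩
  omega

/-- `(p, p + q, q)` in this order is splittable -/
theorem split_sum {G : SimpleGraph V} {v : Fin 3 → V} (h : IsSpine G v)
    (h1 : deg G (v 1) = deg G (v 0) + deg G (v 2)) : Splittable G := by
  set p := deg G (v 0) with hp
  set q := deg G (v 2) with hq
  have p2 : 2 ≤ p := h.two 0
  have q2 : 2 ≤ q := h.two 2
  refine construct_gen h ![0, p, q] ![p, q, 0] ?_ (fun i => i = 1) ?_ ?_ ?_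
  · intro i
    fin_cases i
    · show 0 + p = deg G (v 0); omega
    · show p + q = deg G (v 1); rw [h1]
    · show q + 0 = deg G (v 2); omega
  · intro i
    rw [fil_card 3 (fun t => t = 1), fil_card 3 (fun t => ¬ t = 1)]
    have e1 : ∀ i : Fin 3, (((range (3 - 1)).filter (fun t => t = 1)).filter
        (fun t => t = (i : ℕ) ∨ t + 1 = i)).card = if (i : ℕ) = 0 then 0 else 1 := by decide
    have e2 : ∀ i : Fin 3, (((range (3 - 1)).filter (fun t => ¬ t = 1)).filter
        (fun t => t = (i : ℕ) ∨ t + 1 = i)).card = if (i : ℕ) = 2 then 0 else 1 := by decide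
    rw [e1 i, e2 i]
    fin_cases i
    · exact ⟨Nat.zero_le _, show 1 ≤ p by omega⟩
    · exact ⟨show 1 ≤ p by omega, show 1 ≤ q by omega⟩
    · exact ⟨show 1 ≤ q by omega, Nat.zero_le _⟩
  · intro k hk
    unfold cx
    rw [Fin.sum_univ_three, Fin.sum_univ_three]
    show (if (0 : ℕ) = k then 1 else 0) + (if p = k then 1 else 0) + (if q = k then 1 else 0) =
      (if p = k then 1 else 0) + (if q = k then 1 else 0) + (if (0 : ℕ) = k then 1 else 0)
    omega
  · have e3 : ∑ i ∈ range (3 - 1), (if i = 1 then 1 else 0) = 1 := by decide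
    rw [e3]
    unfold cx
    rw [Fin.sum_univ_three, Fin.sum_univ_three]
    show (if (0 : ℕ) = 1 then 1 else 0) + (if p = 1 then 1 else 0) + (if q = 1 then 1 else 0)
      + (3 - 1) = (if p = 1 then 1 else 0) + (if q = 1 then 1 else 0) +
        (if (0 : ℕ) = 1 then 1 else 0) + 2 * 1
    omega

theorem short_three {G : SimpleGraph V} {v : Fin 3 → V} (h : IsSpine G v) :
    Splittable G ↔ Even (∑ i, deg G (v i)) ∧ ((∀ i, Even (deg G (v i))) ∨
      (∃ i j, i ≠ j ∧ Odd (deg G (v i)) ∧ deg G (v i) = deg G (v j)) ∨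
      (∀ i, 2 * deg G (v i) < ∑ j, deg G (v j)) ∨
      deg G (v 1) = deg G (v 0) + deg G (v 2)) := by
  have e1 := edges_eq h
  have e2 := sum_spine h
  have t0 := h.two 0
  have t1 := h.two 1
  have t2 := h.two 2
  have hS : ∑ i, deg G (v i) = deg G (v 0) + deg G (v 1) + deg G (v 2) := Fin.sum_univ_three _
  constructor
  · intro hG
    have hev := (necessary (by norm_num) h hG).1
    have hpar : Even (∑ i, deg G (v i)) := by
      obtain ⟨r, hr⟩ := hev
      exact ⟨r + 1, by omega⟩
    refine ⟨hpar, ?_⟩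
    by_contra hno
    push Not at hno
    obtain ⟨n1, n2, n3, n4⟩ := hno
    obtain ⟨x, y, C, D, hxy, hbal, _, huni, hloc, _⟩ := (form h).1 hG
    have bal : ∀ k, 2 ≤ k → (if x 0 = k then 1 else 0) + (if x 1 = k then 1 else 0) +
        (if x 2 = k then 1 else 0) = (if y 0 = k then 1 else 0) + (if y 1 = k then 1 else 0) +
        (if y 2 = k then 1 else 0) := by
      intro k hk
      have := hbal k hk
      rw [Finset.card_filter, Finset.card_filter, Fin.sum_univ_three, Fin.sum_univ_three] at this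
      exact this
    have a0 := hxy 0
    have a1 := hxy 1
    have a2 := hxy 2
    have c0 : (1 ≤ x 0 ∧ 1 ≤ x 1) ∨ (1 ≤ y 0 ∧ 1 ≤ y 1) := by
      have : 0 ∈ C ∪ D := by rw [huni]; simp
      rcases Finset.mem_union.1 this with hm | hm
      · exact Or.inl ⟨one_le_of_mem (i := ((0 : Fin 3) : ℕ)) hm (Or.inl rfl) (hloc 0).1,
          one_le_of_mem (i := ((1 : Fin 3) : ℕ)) hm (Or.inr rfl) (hloc 1).1⟩
      · exact Or.inr ⟨one_le_of_mem (i := ((0 : Fin 3) : ℕ)) hm (Or.inl rfl) (hloc 0).2,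
          one_le_of_mem (i := ((1 : Fin 3) : ℕ)) hm (Or.inr rfl) (hloc 1).2⟩
    have c1 : (1 ≤ x 1 ∧ 1 ≤ x 2) ∨ (1 ≤ y 1 ∧ 1 ≤ y 2) := by
      have : 1 ∈ C ∪ D := by rw [huni]; simp
      rcases Finset.mem_union.1 this with hm | hm
      · exact Or.inl ⟨one_le_of_mem (i := ((1 : Fin 3) : ℕ)) hm (Or.inl rfl) (hloc 1).1,
          one_le_of_mem (i := ((2 : Fin 3) : ℕ)) hm (Or.inr rfl) (hloc 2).1⟩
      · exact Or.inr ⟨one_le_of_mem (i := ((1 : Fin 3) : ℕ)) hm (Or.inl rfl) (hloc 1).2,
          one_le_of_mem (i := ((2 : Fin 3) : ℕ)) hm (Or.inr rfl) (hloc 2).2⟩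
    have hpar' : (deg G (v 0) + deg G (v 1) + deg G (v 2)) % 2 = 0 := by
      rw [← hS]; exact Nat.even_iff.1 hpar
    have hne : ¬ (deg G (v 0) % 2 = 0 ∧ deg G (v 1) % 2 = 0 ∧ deg G (v 2) % 2 = 0) := by
      rintro ⟨q0, q1, q2⟩
      obtain ⟨i, hi⟩ := n1
      apply hi
      fin_cases i
      · exact Nat.even_iff.2 q0
      · exact Nat.even_iff.2 q1
      · exact Nat.even_iff.2 q2
    have n01 : deg G (v 0) % 2 = 1 → deg G (v 0) ≠ deg G (v 1) := fun hq =>
      n2 0 1 (by decide) (Nat.odd_iff.2 hq)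
    have n02 : deg G (v 0) % 2 = 1 → deg G (v 0) ≠ deg G (v 2) := fun hq =>
      n2 0 2 (by decide) (Nat.odd_iff.2 hq)
    have n12 : deg G (v 1) % 2 = 1 → deg G (v 1) ≠ deg G (v 2) := fun hq =>
      n2 1 2 (by decide) (Nat.odd_iff.2 hq)
    obtain ⟨i, hi⟩ := n3
    rw [hS] at hi
    fin_cases i
    · have hi' : deg G (v 0) + deg G (v 1) + deg G (v 2) ≤ 2 * deg G (v 0) := hi
      obtain ⟨k1, k2⟩ := three_key bal (by omega) (by omega) (by omega) (by omega) (by omega)
        (by omega)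
      omega
    · have hi' : deg G (v 0) + deg G (v 1) + deg G (v 2) ≤ 2 * deg G (v 1) := hi
      obtain ⟨k1, k2⟩ := three_key (x0 := x 1) (x1 := x 0) (x2 := x 2) (y0 := y 1) (y1 := y 0)
        (y2 := y 2) (fun k hk => by have := bal k hk; omega) (by omega) (by omega) (by omega)
        (by omega) (by omega) (by omega)
      omega
    · have hi' : deg G (v 0) + deg G (v 1) + deg G (v 2) ≤ 2 * deg G (v 2) := hi
      obtain ⟨k1, k2⟩ := three_key (x0 := x 2) (x1 := x 0) (x2 := x 1) (y0 := y 2) (y1 := y 0)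
        (y2 := y 1) (fun k hk => by have := bal k hk; omega) (by omega) (by omega) (by omega)
        (by omega) (by omega) (by omega)
      omega
  · rintro ⟨hpar, hc⟩
    have hev : Even G.edgeSet.ncard := by
      obtain ⟨r, hr⟩ := hpar
      exact ⟨r - 1, by omega⟩
    rw [hS] at hpar hc
    have hpar' := Nat.even_iff.1 hpar
    have hmain : (∀ a b c : Fin 3, deg G (v a) ≠ deg G (v b) → (Odd (deg G (v a)) ∨
        Odd (deg G (v b))) → deg G (v c) < deg G (v a) + deg G (v b)) → Splittable G := by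
      intro hn
      obtain ⟨e, he⟩ : ∃ e, Even (deg G (v e)) := by
        by_contra hno
        push Not at hno
        have o0 := Nat.odd_iff.1 (Nat.not_even_iff_odd.1 (hno 0))
        have o1 := Nat.odd_iff.1 (Nat.not_even_iff_odd.1 (hno 1))
        have o2 := Nat.odd_iff.1 (Nat.not_even_iff_odd.1 (hno 2))
        omega
      refine suff_odd h (by decide) hev e he ?_
      intro a b c ha hb hc' hab
      refine hn a b c hab ?_
      rcases ha with ha | ha
      · rcases hb with hb | hb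
        · exact absurd (by rw [ha, hb]) hab
        · exact Or.inr hb
      · exact Or.inl ha
    rcases hc with hc | ⟨i, j, hij, hoi, hdij⟩ | hc | hc
    · refine hmain (fun a b c _ hab => ?_)
      rcases hab with hab | hab
      · exact absurd (hc a) (Nat.not_even_iff_odd.2 hab)
      · exact absurd (hc b) (Nat.not_even_iff_odd.2 hab)
    · refine hmain (fun a b c hab _ => ?_)
      have ta := h.two a
      have tb := h.two b
      have hab' : a ≠ b := fun e => hab (by rw [e])
      by_cases hca : c = a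
      · rw [hca]; omega
      · by_cases hcb : c = b
        · rw [hcb]; omega
        · have hi3 : ∀ t : Fin 3, t = a ∨ t = b ∨ t = c := by omega
          rcases hi3 i with rfl | rfl | rfl <;> rcases hi3 j with rfl | rfl | rfl <;>
            first | exact absurd rfl hij | exact absurd hdij hab | exact absurd hdij.symm hab |
              omega
    · refine hmain (fun a b c hab _ => ?_)
      have ta := h.two a
      have tb := h.two b
      have hab' : a ≠ b := fun e => hab (by rw [e])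
      by_cases hca : c = a
      · rw [hca]; omega
      · by_cases hcb : c = b
        · rw [hcb]; omega
        · have h3 := hc c
          have hsum : deg G (v 0) + deg G (v 1) + deg G (v 2) =
              deg G (v a) + deg G (v b) + deg G (v c) := by
            fin_cases a <;> fin_cases b <;> fin_cases c <;>
              first | exact absurd rfl hab' | exact absurd rfl hca | exact absurd rfl hcb |
                (simp only [Fin.zero_eta, Fin.mk_one, Fin.reduceFinMk]; done) |
                (simp only [Fin.zero_eta, Fin.mk_one, Fin.reduceFinMk]; omega)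
          omega
    · exact split_sum h hc

end Pool.Agent.W_e8e3a0
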