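import Pool.Agent.W_e8e3a0.Short49

namespace Pool.Agent.W_e8e3a0

open Finset Num49

variable {V : Type} [Fintype V]

theorem good_evens {I : Type} [DecidableEq I] {d : I → ℕ} {P : Finset I}
    (h2 : ∀ i, 2 ≤ d i) (h : ∀ i ∈ P, Even (d i)) : Good d P := by
  refine ⟨fun i => d i / 2, fun i => d i / 2, ?_, fun _ => rfl⟩
  intro i hi
  have a := Nat.even_iff.1 (h i hi)
  have b := h2 i
  dsimp only
  omega

theorem cond_small {s : ℕ} {d : Fin s → ℕ} (h2 : ∀ i, 2 ≤ d i) {A B : Finset (Fin s)}
    (hAB : Disjoint A B) (hsum : ∑ i ∈ A, d i = ∑ i ∈ B, d i + 1)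
    (hc : A.card = B.card ∨ A.card = B.card + 1) (h4 : A.card + B.card ≤ 4) :
    (∃ a b, a ≠ b ∧ A = {a} ∧ B = {b} ∧ d a = d b + 1) ∨
    (∃ a b c, a ≠ b ∧ a ≠ c ∧ b ≠ c ∧ A = {a, b} ∧ B = {c} ∧ d a + d b = d c + 1) ∨
    (∃ a b c e, a ≠ b ∧ a ≠ c ∧ a ≠ e ∧ b ≠ c ∧ b ≠ e ∧ c ≠ e ∧ A = {a, b} ∧ B = {c, e} ∧
      d a + d b = d c + d e + 1) := by
  have hdis := Finset.disjoint_left.1 hAB
  have hB : B.card = 0 ∨ B.card = 1 ∨ B.card = 2 := by omega
  rcases hB with hB | hB | hB
  · exfalso
    rw [Finset.card_eq_zero.1 hB, Finset.sum_empty] at hsum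
    rcases hc with hc | hc
    · rw [hB] at hc
      rw [Finset.card_eq_zero.1 hc, Finset.sum_empty] at hsum
      omega
    · rw [hB] at hc
      obtain ⟨a, rfl⟩ := Finset.card_eq_one.1 hc
      rw [Finset.sum_singleton] at hsum
      have := h2 a
      omega
  · obtain ⟨c, rfl⟩ := Finset.card_eq_one.1 hB
    rw [Finset.sum_singleton] at hsum
    rcases hc with hc | hc
    · rw [hB] at hc
      obtain ⟨a, rfl⟩ := Finset.card_eq_one.1 hc
      rw [Finset.sum_singleton] at hsum
      exact Or.inl ⟨a, c, by simpa using hAB, rfl, rfl, hsum⟩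
    · rw [hB] at hc
      obtain ⟨a, b, hab, rfl⟩ := Finset.card_eq_two.1 hc
      rw [Finset.sum_pair hab] at hsum
      refine Or.inr (Or.inl ⟨a, b, c, hab, ?_, ?_, rfl, rfl, hsum⟩)
      · rintro rfl; exact hdis (a := a) (by simp) (by simp)
      · rintro rfl; exact hdis (a := b) (by simp) (by simp)
  · rcases hc with hc | hc
    · rw [hB] at hc
      obtain ⟨a, b, hab, rfl⟩ := Finset.card_eq_two.1 hc
      obtain ⟨c, e, hce, rfl⟩ := Finset.card_eq_two.1 hB
      rw [Finset.sum_pair hab, Finset.sum_pair hce] at hsum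
      refine Or.inr (Or.inr ⟨a, b, c, e, hab, ?_, ?_, ?_, ?_, hce, rfl, rfl, hsum⟩)
      · rintro rfl; exact hdis (a := a) (by simp) (by simp)
      · rintro rfl; exact hdis (a := a) (by simp) (by simp)
      · rintro rfl; exact hdis (a := b) (by simp) (by simp)
      · rintro rfl; exact hdis (a := b) (by simp) (by simp)
    · omega

theorem seg22 {I : Type} [DecidableEq I] {d : I → ℕ} {a b c e : I} (hab : a ≠ b) (hac : a ≠ c)
    (hae : a ≠ e) (hbc : b ≠ c) (hbe : b ≠ e) (hce : c ≠ e) (h2 : ∀ i, 2 ≤ d i)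
    (hsum : d a + d b = d c + d e + 1) (hle : d a ≤ d c) : Seg d {a, c, b, e} 1 0 := by
  have s1 : Seg d {a} 1 (d a - 1) := seg_one (by have := h2 a; omega) le_rfl
  have s2 : Seg d {c} (d a - 1) (d c - d a + 1) := seg_one (by have := h2 a; omega)
    (by have := h2 a; omega)
  have s3 : Seg d {b} (d c - d a + 1) (d e) := seg_one (by omega) (by omega)
  have s4 : Seg d {e} (d e) 0 := seg_one (by omega) (by have := h2 e; omega)
  have s34 := s3.trans (by have := h2 e; omega) s4 (by simpa using hbe)
  have s234 := s2.trans (by omega) s34 (by simp [hbc.symm, hce])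
  exact s1.trans (by have := h2 a; omega) s234 (by simp [hab, hac, hae])

theorem seg11 {I : Type} [DecidableEq I] {d : I → ℕ} {a b : I} (hab : a ≠ b)
    (h2 : ∀ i, 2 ≤ d i) (hsum : d a = d b + 1) : Seg d {a, b} 1 0 := by
  have s1 : Seg d {a} 1 (d b) := seg_one (by omega) le_rfl
  have s2 : Seg d {b} (d b) 0 := seg_one (by omega) (by have := h2 b; omega)
  exact s1.trans (by have := h2 b; omega) s2 (by simpa using hab)

theorem seg21 {I : Type} [DecidableEq I] {d : I → ℕ} {a b c : I} (hab : a ≠ b) (hac : a ≠ c)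
    (hbc : b ≠ c) (h2 : ∀ i, 2 ≤ d i) (hsum : d a + d b = d c + 1) : Seg d {a, c, b} 1 0 := by
  have s1 : Seg d {a} 1 (d a - 1) := seg_one (by have := h2 a; omega) le_rfl
  have s2 : Seg d {c} (d a - 1) (d b) := seg_one (by have := h2 a; have := h2 b; omega)
    (by have := h2 a; omega)
  have s3 : Seg d {b} (d b) 0 := seg_one (by omega) (by have := h2 b; omega)
  have s23 := s2.trans (by have := h2 b; omega) s3 (by simpa using hbc.symm)
  exact s1.trans (by have := h2 a; omega) s23 (by simp [hab, hac])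

/-- sufficiency of the condition with all other degrees even, for small `A ∪ B` -/
theorem suff_small {G : SimpleGraph V} {s : ℕ} {v : Fin s → V} (h : IsSpine G v) (hs : Even s)
    (A B : Finset (Fin s)) (hAB : Disjoint A B)
    (hsum : ∑ i ∈ A, deg G (v i) = ∑ i ∈ B, deg G (v i) + 1)
    (hc : A.card = B.card ∨ A.card = B.card + 1) (h4 : A.card + B.card ≤ 4)
    (hR : ∀ i, i ∉ A ∪ B → Even (deg G (v i))) : Splittable G := by
  classical
  set d : Fin s → ℕ := fun i => deg G (v i) with hd
  have h2 : ∀ i, 2 ≤ d i := h.two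
  have fin : ∀ P : Finset (Fin s), Seg d P 1 0 → (∀ i, i ∉ P → i ∉ A ∪ B) → Splittable G := by
    intro P hP hPA
    refine of_seg h hs P hP (good_evens h2 ?_)
    intro i hi
    exact hR i (hPA i (Finset.mem_sdiff.1 hi).2)
  rcases cond_small h2 hAB hsum hc h4 with ⟨a, b, hab, rfl, rfl, he⟩ |
    ⟨a, b, c, hab, hac, hbc, rfl, rfl, he⟩ |
    ⟨a, b, c, e, hab, hac, hae, hbc, hbe, hce, rfl, rfl, he⟩
  · exact fin _ (seg11 hab h2 he) (fun i hi => by simpa using hi)
  · refine fin _ (seg21 hab hac hbc h2 he) (fun i hi => ?_)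
    simp only [Finset.mem_insert, Finset.mem_singleton, Finset.mem_union] at hi ⊢
    tauto
  · by_cases k1 : d a ≤ d c
    · refine fin _ (seg22 hab hac hae hbc hbe hce h2 he k1) (fun i hi => ?_)
      simp only [Finset.mem_insert, Finset.mem_singleton, Finset.mem_union] at hi ⊢
      tauto
    · by_cases k2 : d a ≤ d e
      · refine fin _ (seg22 hab hae hac hbe hbc hce.symm h2 (by omega) k2) (fun i hi => ?_)
        simp only [Finset.mem_insert, Finset.mem_singleton, Finset.mem_union] at hi ⊢
        tauto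
      · refine fin _ (seg22 hab.symm hbc hbe hac hae hce h2 (by omega) (by omega))
          (fun i hi => ?_)
        simp only [Finset.mem_insert, Finset.mem_singleton, Finset.mem_union] at hi ⊢
        tauto

theorem sum_four {d : Fin 4 → ℕ} {a b c e : Fin 4} (hab : a ≠ b) (hac : a ≠ c)
    (hae : a ≠ e) (hbc : b ≠ c) (hbe : b ≠ e) (hce : c ≠ e) :
    ∑ i, d i = d a + d b + d c + d e := by
  have h1 : ({a, b, c, e} : Finset (Fin 4)) = univ := by
    apply Finset.eq_univ_of_card
    rw [Finset.card_insert_of_notMem (by simp [hab, hac, hae]),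
      Finset.card_insert_of_notMem (by simp [hbc, hbe]),
      Finset.card_insert_of_notMem (by simp [hce]), Finset.card_singleton, Fintype.card_fin]
  rw [← h1, Finset.sum_insert (by simp [hab, hac, hae]), Finset.sum_insert (by simp [hbc, hbe]),
    Finset.sum_pair hce]
  omega

/-- spines with two or four vertices -/
theorem short_even {G : SimpleGraph V} {s : ℕ} {v : Fin s → V} (h : IsSpine G v)
    (hs : s = 2 ∨ s = 4) :
    Splittable G ↔ ∃ A B : Finset (Fin s), Disjoint A B ∧
      ∑ i ∈ A, deg G (v i) = ∑ i ∈ B, deg G (v i) + 1 ∧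
      (A.card = B.card ∨ A.card = B.card + 1) ∧ ∀ i, i ∉ A ∪ B → Even (deg G (v i)) := by
  classical
  have hse : Even s := by rcases hs with rfl | rfl <;> decide
  constructor
  · intro hG
    obtain ⟨hev, hC⟩ := necessary (by omega) h hG
    rcases hC with hC | ⟨A, B, hAB, hsum, hc⟩
    · exact absurd hse (Nat.not_even_iff_odd.2 hC)
    have e1 := edges_eq h
    have e2 := sum_spine h
    have hodd : (∑ i, deg G (v i)) % 2 = 1 := by
      obtain ⟨r, hr⟩ := hev
      rcases hs with rfl | rfl <;> omega
    have hcard : A.card + B.card ≤ s := by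
      rw [← Finset.card_union_of_disjoint hAB]
      exact (Finset.card_le_univ _).trans (by rw [Fintype.card_fin])
    have hc' : A.card = B.card ∨ A.card = B.card + 1 := by
      rcases hc with hc | hc
      · exact Or.inr hc
      · exact Or.inl hc.1
    refine ⟨A, B, hAB, hsum, hc', ?_⟩
    rcases cond_small h.two hAB hsum hc' (by omega) with ⟨a, b, hab, rfl, rfl, he⟩ |
      ⟨a, b, c, hab, hac, hbc, rfl, rfl, he⟩ |
      ⟨a, b, c, e, hab, hac, hae, hbc, hbe, hce, rfl, rfl, he⟩
    · intro i hi
      rcases hc with hc | ⟨_, hc | ⟨e, hemem, hee⟩⟩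
      · simp at hc
      · exact absurd (hc i) hi
      · by_cases hie : i = e
        · rw [hie]; exact hee
        · simp only [Finset.mem_union, Finset.mem_singleton, not_or] at hi hemem
          rcases hs with rfl | rfl
          · exfalso
            omega
          · have := sum_four (d := fun i => deg G (v i)) hab (Ne.symm hemem.1) (Ne.symm hi.1)
              (Ne.symm hemem.2) (Ne.symm hi.2) (Ne.symm hie)
            have q : deg G (v e) % 2 = 0 := Nat.even_iff.1 hee
            rw [Nat.even_iff]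
            omega
    · intro i hi
      simp only [Finset.mem_union, Finset.mem_singleton, Finset.mem_insert, not_or] at hi
      rcases hs with rfl | rfl
      · exfalso
        rw [Finset.card_pair hab, Finset.card_singleton] at hcard
        omega
      · have := sum_four (d := fun i => deg G (v i)) hab hac (Ne.symm hi.1.1)
          hbc (Ne.symm hi.1.2) (Ne.symm hi.2)
        rw [Nat.even_iff]
        omega
    · intro i hi
      simp only [Finset.mem_union, Finset.mem_singleton, Finset.mem_insert, not_or] at hi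
      exfalso
      rw [Finset.card_pair hab, Finset.card_pair hce] at hcard
      rcases hs with rfl | rfl
      · omega
      · omega
  · rintro ⟨A, B, hAB, hsum, hc, hR⟩
    have hcard : A.card + B.card ≤ s := by
      rw [← Finset.card_union_of_disjoint hAB]
      exact (Finset.card_le_univ _).trans (by rw [Fintype.card_fin])
    exact suff_small h hse A B hAB hsum hc (by omega) hR

theorem short_one {G : SimpleGraph V} {v : Fin 1 → V} (h : IsSpine G v) :
    Splittable G ↔ Even (deg G (v 0)) := by
  have e1 := edges_eq h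
  have e2 := sum_spine h
  rw [Fin.sum_univ_one] at e2
  constructor
  · intro hG
    obtain ⟨r, hr⟩ := (necessary (by norm_num) h hG).1
    exact ⟨r, by omega⟩
  · intro he
    refine suff_odd h (by decide) ?_ 0 he ?_
    · obtain ⟨r, hr⟩ := he
      exact ⟨r, by omega⟩
    · intro a b c _ _ _ hab
      exact absurd (by rw [Subsingleton.elim a b]) hab

end Pool.Agent.W_e8e3a0
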