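import Pool.Agent.W_e8e3a0.ParityM49
import Pool.Agent.W_e8e3a0.RichM49

namespace Pool.Agent.W_e8e3a0

open Finset Num49

variable {V : Type} [Fintype V]

theorem cx_eq_card {s : ℕ} (d : Fin s → ℕ) (q : ℕ) :
    cx d univ q = (univ.filter (fun i => d i = q)).card := (Finset.card_filter _ _).symm

theorem exists_two {s : ℕ} {d : Fin s → ℕ} {q : ℕ} (h : 2 ≤ cx d univ q) :
    ∃ i j, i ≠ j ∧ d i = q ∧ d j = q := by
  rw [cx_eq_card] at h
  obtain ⟨i, hi, j, hj, hij⟩ := Finset.one_lt_card.1 (show 1 < _ from h)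
  exact ⟨i, j, hij, (Finset.mem_filter.1 hi).2, (Finset.mem_filter.1 hj).2⟩

theorem exists_one {s : ℕ} {d : Fin s → ℕ} {q : ℕ} (h : 1 ≤ cx d univ q) : ∃ i, d i = q := by
  obtain ⟨i, _, hi⟩ := exists_of_cx h
  exact ⟨i, hi⟩

theorem cx_zero_of {s : ℕ} {d : Fin s → ℕ} {q : ℕ} (h : ∀ i, d i ≠ q) : cx d univ q = 0 := by
  unfold cx
  exact Finset.sum_eq_zero (fun i _ => if_neg (h i))

theorem six_sums {s : ℕ} {d : Fin s → ℕ} (h2 : ∀ i, 2 ≤ d i) (h6 : ∀ i, d i ≤ 6) :
    ∑ i, d i = 2 * cx d univ 2 + 3 * cx d univ 3 + 4 * cx d univ 4 + 5 * cx d univ 5 +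
      6 * cx d univ 6 ∧
    s = cx d univ 2 + cx d univ 3 + cx d univ 4 + cx d univ 5 + cx d univ 6 := by
  constructor
  · unfold cx
    simp only [Finset.mul_sum, ← Finset.sum_add_distrib]
    refine Finset.sum_congr rfl (fun i _ => ?_)
    have a := h2 i
    have b := h6 i
    rcases (by omega : d i = 2 ∨ d i = 3 ∨ d i = 4 ∨ d i = 5 ∨ d i = 6) with e | e | e | e | e <;>
      rw [e] <;> rfl
  · unfold cx
    have : s = ∑ _i : Fin s, 1 := by simp
    conv_lhs => rw [this]
    simp only [← Finset.sum_add_distrib]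
    refine Finset.sum_congr rfl (fun i _ => ?_)
    have a := h2 i
    have b := h6 i
    rcases (by omega : d i = 2 ∨ d i = 3 ∨ d i = 4 ∨ d i = 5 ∨ d i = 6) with e | e | e | e | e <;>
      rw [e] <;> rfl

theorem rest_good {s : ℕ} {d : Fin s → ℕ} (h2 : ∀ i, 2 ≤ d i) (h6 : ∀ i, d i ≤ 6)
    (P : Finset (Fin s)) (h3 : (cx d univ 3 + cx d P 3) % 2 = 0)
    (h5 : (cx d univ 5 + cx d P 5) % 2 = 0) : Good d (univ \ P) := by
  refine good_pairs _ _ rfl (fun i _ => h2 i) (fun q hq => ?_)
  have hs : cx d (univ \ P) q + cx d P q = cx d univ q := by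
    unfold cx
    exact Finset.sum_sdiff (Finset.subset_univ _)
  rw [Nat.even_iff]
  by_cases q3 : q = 3
  · subst q3; omega
  · by_cases q5 : q = 5
    · subst q5; omega
    · have : cx d univ q = 0 := by
        refine cx_zero_of (fun i hi => ?_)
        have a := h2 i
        have b := h6 i
        have c := Nat.odd_iff.1 hq
        omega
      omega

theorem six_even {G : SimpleGraph V} {s : ℕ} {v : Fin s → V} (h : IsSpine G v) (hs : Even s)
    (hev : Even G.edgeSet.ncard) (h6 : ∀ i, deg G (v i) ≤ 6)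
    (h25 : ¬ ∀ i, deg G (v i) = 2 ∨ deg G (v i) = 5)
    (h36 : ¬ ∀ i, deg G (v i) = 3 ∨ deg G (v i) = 6) : Splittable G := by
  classical
  set d : Fin s → ℕ := fun i => deg G (v i) with hd
  have h2 : ∀ i, 2 ≤ d i := h.two
  have h6' : ∀ i, d i ≤ 6 := h6
  obtain ⟨e1, e2⟩ := six_sums h2 h6'
  have e3 := edges_eq h
  have e4 : ∑ i, d i = 2 * (s - 1) + (offSpine v).card := sum_spine h
  obtain ⟨r, hr⟩ := hev
  obtain ⟨t, ht⟩ := hs
  have hs0 : 0 < s := by
    by_contra h0
    exact h25 (fun i => absurd i.2 (by omega))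
  have hodd : (cx d univ 3 + cx d univ 5) % 2 = 1 := by omega
  have fin : ∀ P : Finset (Fin s), Seg d P 1 0 → (cx d univ 3 + cx d P 3) % 2 = 0 →
      (cx d univ 5 + cx d P 5) % 2 = 0 → Splittable G := fun P hP h3 h5 =>
    of_seg h ⟨t, ht⟩ P hP (rest_good h2 h6' P h3 h5)
  have c2 : ∀ {a b : Fin s}, a ≠ b → ∀ q, cx d {a, b} q = (if d a = q then 1 else 0) +
      (if d b = q then 1 else 0) := by
    intro a b hab q
    unfold cx
    rw [Finset.sum_pair hab]
  have c4 : ∀ {a b c e : Fin s}, a ≠ b → a ≠ c → a ≠ e → b ≠ c → b ≠ e → c ≠ e →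
      ∀ q, cx d {a, c, b, e} q = (if d a = q then 1 else 0) + ((if d c = q then 1 else 0) +
      ((if d b = q then 1 else 0) + (if d e = q then 1 else 0))) := by
    intro a b c e hab hac hae hbc hbe hce q
    unfold cx
    rw [Finset.sum_insert (by simp [hab, hac, hae]), Finset.sum_insert (by simp [hbc.symm, hce]),
      Finset.sum_pair hbe]
  have hne : ∀ {a b : Fin s}, d a ≠ d b → a ≠ b := fun hab e => hab (by rw [e])
  rcases Nat.even_or_odd (cx d univ 3) with h3 | h3
  · -- `n₅` odd
    have q3 := Nat.even_iff.1 h3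
    obtain ⟨a, ha⟩ := exists_one (d := d) (q := 5) (by omega)
    by_cases n4 : 1 ≤ cx d univ 4
    · obtain ⟨b, hb⟩ := exists_one n4
      have hab : a ≠ b := hne (by omega)
      refine fin _ (seg11 hab h2 (by omega)) ?_ ?_ <;> rw [c2 hab, ha, hb] <;> simp <;> omega
    · by_cases n6 : 1 ≤ cx d univ 6
      · obtain ⟨b, hb⟩ := exists_one n6
        have hab : b ≠ a := hne (by omega)
        refine fin _ (seg11 hab h2 (by omega)) ?_ ?_ <;> rw [c2 hab, ha, hb] <;> simp <;> omega
      · by_cases n3 : 2 ≤ cx d univ 3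
        · obtain ⟨c, e, hce, hc, he⟩ := exists_two n3
          obtain ⟨b, hb⟩ := exists_one (d := d) (q := 2) (by omega)
          have hbc : b ≠ c := hne (by omega)
          have hba : b ≠ a := hne (by omega)
          have hbe : b ≠ e := hne (by omega)
          have hac : a ≠ c := hne (by omega)
          have hae : a ≠ e := hne (by omega)
          refine fin _ (seg22 hba hbc hbe hac hae hce h2 (by omega) (by omega)) ?_ ?_ <;>
            rw [c4 hba hbc hbe hac hae hce, ha, hb, hc, he] <;> simp <;> omega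
        · exfalso
          refine h25 (fun i => ?_)
          have a1 := h2 i
          have a2 := h6' i
          have k3 : d i ≠ 3 := by
            intro hi
            have : 1 ≤ cx d univ 3 := by
              rw [cx_eq_card]
              exact Finset.card_pos.2 ⟨i, by simp [hi]⟩
            omega
          have k4 : d i ≠ 4 := by
            intro hi
            apply n4
            rw [cx_eq_card]
            exact Finset.card_pos.2 ⟨i, by simp [hi]⟩
          have k6 : d i ≠ 6 := by
            intro hi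
            apply n6
            rw [cx_eq_card]
            exact Finset.card_pos.2 ⟨i, by simp [hi]⟩
          show d i = 2 ∨ d i = 5
          omega
  · -- `n₃` odd, `n₅` even
    have q3 := Nat.odd_iff.1 h3
    obtain ⟨a, ha⟩ := exists_one (d := d) (q := 3) (by omega)
    by_cases n2 : 1 ≤ cx d univ 2
    · obtain ⟨b, hb⟩ := exists_one n2
      have hab : a ≠ b := hne (by omega)
      refine fin _ (seg11 hab h2 (by omega)) ?_ ?_ <;> rw [c2 hab, ha, hb] <;> simp <;> omega
    · by_cases n4 : 1 ≤ cx d univ 4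
      · obtain ⟨b, hb⟩ := exists_one n4
        have hab : b ≠ a := hne (by omega)
        refine fin _ (seg11 hab h2 (by omega)) ?_ ?_ <;> rw [c2 hab, ha, hb] <;> simp <;> omega
      · by_cases n5 : 2 ≤ cx d univ 5
        · obtain ⟨c, e, hce, hc, he⟩ := exists_two n5
          obtain ⟨b, hb⟩ := exists_one (d := d) (q := 6) (by omega)
          have hcb : c ≠ b := hne (by omega)
          have hca : c ≠ a := hne (by omega)
          have heb : e ≠ b := hne (by omega)
          have hea : e ≠ a := hne (by omega)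
          have hba : b ≠ a := hne (by omega)
          refine fin _ (seg22 hce hcb hca heb hea hba h2 (by omega) (by omega)) ?_ ?_ <;>
            rw [c4 hce hcb hca heb hea hba, ha, hb, hc, he] <;> simp <;> omega
        · exfalso
          refine h36 (fun i => ?_)
          have a1 := h2 i
          have a2 := h6' i
          have k5 : d i ≠ 5 := by
            intro hi
            have : 1 ≤ cx d univ 5 := by
              rw [cx_eq_card]
              exact Finset.card_pos.2 ⟨i, by simp [hi]⟩
            omega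
          have k4 : d i ≠ 4 := by
            intro hi
            apply n4
            rw [cx_eq_card]
            exact Finset.card_pos.2 ⟨i, by simp [hi]⟩
          have k2 : d i ≠ 2 := by
            intro hi
            apply n2
            rw [cx_eq_card]
            exact Finset.card_pos.2 ⟨i, by simp [hi]⟩
          show d i = 3 ∨ d i = 6
          omega

/-- `m` divides all differences of the spine degrees -/
theorem not_cond_mod {s : ℕ} {d : Fin s → ℕ} (m r : ℕ) (hm : ∀ i, d i % m = r % m)
    (h0 : 1 % m ≠ 0) (h1 : r % m ≠ 1 % m) : ¬ Cond d := by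
  rintro ⟨A, B, _, hsum, hc⟩
  have key : ∀ Q : Finset (Fin s), (∑ i ∈ Q, d i) % m = (Q.card * r) % m := by
    intro Q
    rw [Finset.card_eq_sum_ones, Finset.sum_mul]
    simp only [one_mul]
    rw [Finset.sum_nat_mod, Finset.sum_nat_mod Q m (fun _ => r)]
    congr 1
    exact Finset.sum_congr rfl (fun i _ => hm i)
  have k1 : (A.card * r) % m = (B.card * r + 1) % m := by
    rw [← key A, hsum, Nat.add_mod, key B, ← Nat.add_mod]
  have hc' : A.card = B.card + 1 ∨ A.card = B.card := by tauto
  rcases hc' with hc | hc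
  · rw [hc, add_mul, one_mul] at k1
    exact h1 (Nat.ModEq.add_left_cancel' (B.card * r) k1)
  · rw [hc] at k1
    exact h0 (Nat.ModEq.add_left_cancel' (B.card * r)
      (show (B.card * r + 1) ≡ (B.card * r + 0) [MOD m] from by
        show (B.card * r + 1) % m = (B.card * r + 0) % m
        rw [add_zero]; exact k1.symm))

end Pool.Agent.W_e8e3a0
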