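import Pool.Agent.W_e8e3a0.SixT49
import Pool.Agent.W_e8e3a0.FormZ49

namespace Pool.Agent.W_e8e3a0

open Finset Num49

variable {V : Type} [Fintype V]

/-- odd spine, all degrees in `{2, 3, 5}`, one `3` -/
theorem solo {G : SimpleGraph V} {s : ℕ} {v : Fin s → V} (h : IsSpine G v) (hs : Odd s)
    (hd : ∀ i, deg G (v i) = 2 ∨ deg G (v i) = 3 ∨ deg G (v i) = 5) (u f : Fin s)
    (du : deg G (v u) = 3) (hu1 : ∀ i, deg G (v i) = 3 → i = u) (df : deg G (v f) = 5)
    (c2 : cx (fun i => deg G (v i)) univ 2 % 2 = 1)
    (c3 : cx (fun i => deg G (v i)) univ 3 % 2 = 1)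
    (c5 : cx (fun i => deg G (v i)) univ 5 % 2 = 1)
    (hX3 : ¬ ∃ w : Fin s, deg G (v w) = 2 ∧ (∀ i, deg G (v i) = 2 → i = w) ∧
      ((w : ℕ) = u + 1 ∨ (u : ℕ) = w + 1))
    (hX4 : ¬ ((u : ℕ) % 2 = 0 ∧ (∀ i : Fin s, (i : ℕ) % 2 = 1 → deg G (v i) = 2) ∧
      ∀ i : Fin s, (i : ℕ) % 2 = 0 → i ≠ u → deg G (v i) = 5)) : Splittable G := by
  classical
  have h6 : ∀ i, deg G (v i) ≤ 6 := fun i => by have := hd i; omega
  by_cases hI : ∃ w : Fin s, deg G (v w) = 2 ∧ ((u : ℕ) + w) % 2 = 0
  · obtain ⟨w, dw, hp⟩ := hI
    exact case_I h hs h6 u w f du dw df hp c3 c5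
  · push Not at hI
    have hpar : ∀ w : Fin s, deg G (v w) = 2 → ((u : ℕ) + w) % 2 = 1 := fun w hw => by
      have := hI w hw; omega
    -- a `2` not adjacent to `u`
    obtain ⟨w, dw, ha1, ha2⟩ : ∃ w : Fin s, deg G (v w) = 2 ∧ (w : ℕ) ≠ u + 1 ∧
        (w : ℕ) + 1 ≠ u := by
      by_contra hno
      push Not at hno
      obtain ⟨w₁, hw₁⟩ := exists_one (d := fun i => deg G (v i)) (q := 2) (by omega)
      have hw₁' : deg G (v w₁) = 2 := hw₁
      apply hX3
      refine ⟨w₁, hw₁', ?_, ?_⟩
      · intro i hi
        by_contra hne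
        have hcard : (univ.filter (fun i => deg G (v i) = 2)) = {w₁, i} := by
          ext j
          simp only [Finset.mem_filter, Finset.mem_univ, true_and, Finset.mem_insert,
            Finset.mem_singleton]
          constructor
          · intro hj
            have n1 : (i : ℕ) ≠ w₁ := fun e => hne (Fin.ext e)
            have q1 := hno j hj
            have q2 := hno i hi
            have q3 := hno w₁ hw₁'
            by_cases e1 : (j : ℕ) = w₁
            · exact Or.inl (Fin.ext e1)
            · right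
              apply Fin.ext
              omega
          · rintro (rfl | rfl)
            · exact hw₁'
            · exact hi
        rw [cx_eq_card] at c2
        have c2' : (univ.filter (fun i => deg G (v i) = 2)).card % 2 = 1 := c2
        rw [hcard, Finset.card_pair (fun e => hne e.symm)] at c2'
        omega
      · have := hno w₁ hw₁'
        omega
    have pw := hpar w dw
    have hwu : (w : ℕ) ≠ u := fun e => by rw [Fin.ext e] at dw; omega
    have hu2 := u.2
    have hw2 := w.2
    rcases Nat.mod_two_eq_zero_or_one (u : ℕ) with ue | uo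
    · -- `u` even
      have hev : ∀ i : Fin s, (i : ℕ) % 2 = 0 → i ≠ u → deg G (v i) = 5 := by
        intro i hi hiu
        have q1 : deg G (v i) ≠ 2 := fun e => by have := hpar i e; omega
        have q2 : deg G (v i) ≠ 3 := fun e => hiu (hu1 i e)
        have := hd i
        omega
      obtain ⟨p, hp1, hp2⟩ : ∃ p : Fin s, (p : ℕ) % 2 = 1 ∧ deg G (v p) ≠ 2 := by
        by_contra hno
        push Not at hno
        exact hX4 ⟨ue, hno, hev⟩
      have dp : deg G (v p) = 5 := by
        have q2 : deg G (v p) ≠ 3 := fun e => by rw [hu1 p e] at hp1; omega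
        have := hd p
        omega
      exact case_prs h hs hd u w p du hu1 dw dp c5 hev ha1 ha2 ue (by omega) hp1
    · -- `u` odd
      have dpp : ∀ p : Fin s, (p : ℕ) % 2 = 1 → p ≠ u → deg G (v p) = 5 := by
        intro p hp hpu
        have q1 : deg G (v p) ≠ 2 := fun e => by have := hpar p e; omega
        have q2 : deg G (v p) ≠ 3 := fun e => hpu (hu1 p e)
        have := hd p
        omega
      rcases Nat.lt_or_ge (u : ℕ) w with hlt | hge
      · refine case_three h hs hd u w ⟨u + 2, by omega⟩ du hu1 dw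
          (dpp _ (by show ((u : ℕ) + 2) % 2 = 1; omega) (fun e => ?_)) c5 (Or.inl ⟨?_, ?_⟩) uo
          (by omega) (by show ((u : ℕ) + 2) % 2 = 1; omega)
        · have := congrArg Fin.val e
          simp only at this
          omega
        · show (u : ℕ) < u + 2; omega
        · show (u : ℕ) + 2 < w; omega
      · refine case_three h hs hd u w ⟨u - 2, by omega⟩ du hu1 dw
          (dpp _ (by show ((u : ℕ) - 2) % 2 = 1; omega) (fun e => ?_)) c5 (Or.inr ⟨?_, ?_⟩) uo
          (by omega) (by show ((u : ℕ) - 2) % 2 = 1; omega)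
        · have := congrArg Fin.val e
          simp only at this
          omega
        · show (w : ℕ) < u - 2; omega
        · show (u : ℕ) - 2 < u; omega

/-- the third and the fourth exceptional families -/
def X3 {s : ℕ} (d : Fin s → ℕ) : Prop :=
  ∃ u w : Fin s, ((w : ℕ) = u + 1 ∨ (u : ℕ) = w + 1) ∧ d u = 3 ∧ d w = 2 ∧
    ∀ i, i ≠ u → i ≠ w → d i = 5

def X4 {s : ℕ} (d : Fin s → ℕ) : Prop :=
  ∃ u : Fin s, (u : ℕ) % 2 = 0 ∧ d u = 3 ∧ (∀ i : Fin s, (i : ℕ) % 2 = 1 → d i = 2) ∧
    ∀ i : Fin s, (i : ℕ) % 2 = 0 → i ≠ u → d i = 5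

theorem six_odd {G : SimpleGraph V} {s : ℕ} {v : Fin s → V} (h : IsSpine G v) (hs : Odd s)
    (hev : Even G.edgeSet.ncard) (h6 : ∀ i, deg G (v i) ≤ 6)
    (hX3 : ¬ X3 (fun i => deg G (v i))) (hX4 : ¬ X4 (fun i => deg G (v i))) : Splittable G := by
  classical
  set d : Fin s → ℕ := fun i => deg G (v i) with hd
  have h2 : ∀ i, 2 ≤ d i := h.two
  have h6' : ∀ i, d i ≤ 6 := h6
  obtain ⟨e1, e2⟩ := six_sums h2 h6'
  have e3 := edges_eq h
  have e4 : ∑ i, d i = 2 * (s - 1) + (offSpine v).card := sum_spine h
  obtain ⟨r, hr⟩ := hev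
  obtain ⟨t, ht⟩ := hs
  have hs' : Odd s := ⟨t, ht⟩
  have hpar : (cx d univ 3 + cx d univ 5) % 2 = 0 := by omega
  rcases Nat.mod_two_eq_zero_or_one (cx d univ 3) with c3 | c3
  · have hg : Good d (univ \ (∅ : Finset (Fin s))) := by
      refine rest_good h2 h6' ∅ ?_ ?_
      · have : cx d ∅ 3 = 0 := rfl
        omega
      · have : cx d ∅ 5 = 0 := rfl
        omega
    rw [Finset.sdiff_empty] at hg
    exact split_of_good h hs' hg
  · have c5 : cx d univ 5 % 2 = 1 := by omega
    by_cases h46 : ∃ e, d e = 4 ∨ d e = 6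
    · obtain ⟨e, he⟩ := h46
      refine suff_odd h hs' ⟨r, hr⟩ e (by
        rcases he with he | he
        · have : deg G (v e) = 4 := he
          rw [this]; decide
        · have : deg G (v e) = 6 := he
          rw [this]; decide) ?_
      intro a b c ha hb hc hab
      have val : ∀ a : Fin s, (a = e ∨ Odd (deg G (v a))) → d a = d e ∨ d a = 3 ∨ d a = 5 := by
        intro a ha
        rcases ha with ha | ha
        · left; rw [ha]
        · right
          have q := Nat.odd_iff.1 ha
          have q1 := h2 a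
          have q2 := h6' a
          have q3 : d a % 2 = 1 := q
          omega
      have va := val a ha
      have vb := val b hb
      have vc := val c hc
      have hab' : d a ≠ d b := hab
      show d c < d a + d b
      omega
    · push Not at h46
      have hd235 : ∀ i, d i = 2 ∨ d i = 3 ∨ d i = 5 := by
        intro i
        have q1 := h2 i
        have q2 := h6' i
        have q3 := h46 i
        omega
      have n4 : cx d univ 4 = 0 := cx_zero_of (fun i => (h46 i).1)
      have n6 : cx d univ 6 = 0 := cx_zero_of (fun i => (h46 i).2)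
      have c2 : cx d univ 2 % 2 = 1 := by omega
      obtain ⟨f, df⟩ := exists_one (d := d) (q := 5) (by omega)
      obtain ⟨w, dw⟩ := exists_one (d := d) (q := 2) (by omega)
      by_cases n3 : cx d univ 3 = 1
      · rw [cx_eq_card, Finset.card_eq_one] at n3
        obtain ⟨u, hu⟩ := n3
        have du : d u = 3 := by
          have : u ∈ univ.filter (fun i => d i = 3) := by rw [hu]; simp
          exact (Finset.mem_filter.1 this).2
        have hu1 : ∀ i, d i = 3 → i = u := by
          intro i hi
          have : i ∈ univ.filter (fun i => d i = 3) := by simp [hi]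
          rw [hu] at this
          exact Finset.mem_singleton.1 this
        refine solo h hs' hd235 u f du hu1 df c2 c3 c5 ?_ ?_
        · rintro ⟨w, q1, q2, q3⟩
          apply hX3
          refine ⟨u, w, q3, du, q1, ?_⟩
          intro i hi1 hi2
          have a1 : d i ≠ 3 := fun e => hi1 (hu1 i e)
          have a2 : d i ≠ 2 := fun e => hi2 (q2 i e)
          have := hd235 i
          show d i = 5
          omega
        · rintro ⟨q1, q2, q3⟩
          exact hX4 ⟨u, q1, du, q2, q3⟩
      · -- at least three `3`s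
        have n3' : 2 < (univ.filter (fun i => d i = 3)).card := by
          rw [← cx_eq_card]; omega
        obtain ⟨u, g, g', mu, mg, mg', hug, hug', hgg⟩ := Finset.two_lt_card_iff.1 n3'
        have du := (Finset.mem_filter.1 mu).2
        have dg := (Finset.mem_filter.1 mg).2
        have dg' := (Finset.mem_filter.1 mg').2
        rcases Nat.mod_two_eq_zero_or_one ((u : ℕ) + w) with hp | hp
        · exact case_I h hs' h6 u w f du dw df hp c3 c5
        · exact case_II h hs' h6 u w f g g' du dw df dg dg' hug hug' hgg hp c3 c5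

end Pool.Agent.W_e8e3a0
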