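import Pool.Agent.W_e8e3a0.Six49
import Pool.Agent.W_e8e3a0.Pat49

namespace Pool.Agent.W_e8e3a0

open Finset Num49

variable {V : Type} [Fintype V]

theorem ext_good {s : ℕ} {d : Fin s → ℕ} (P : Finset (Fin s)) (a b : Fin s → ℕ)
    (hab : ∀ i ∈ P, a i + b i = d i) (hg : Good d (univ \ P))
    (hb : ∀ k, 2 ≤ k → cx a P k = cx b P k) :
    ∃ x y : Fin s → ℕ, (∀ i, x i + y i = d i) ∧ (∀ i ∈ P, x i = a i ∧ y i = b i) ∧
      (∀ i, i ∉ P → 1 ≤ x i ∧ 1 ≤ y i) ∧ (∀ k, 2 ≤ k → cx x univ k = cx y univ k) ∧
      cx x univ 0 = cx a P 0 ∧ cx y univ 0 = cx b P 0 := by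
  obtain ⟨xR, yR, h1, h2⟩ := hg
  have hmem : ∀ i, i ∈ univ \ P ↔ i ∉ P := fun i => by simp
  have key : ∀ (z zR : Fin s → ℕ) k, cx (fun i => if i ∈ P then z i else zR i) univ k =
      cx zR (univ \ P) k + cx z P k := by
    intro z zR k
    have e1 : cx (fun i => if i ∈ P then z i else zR i) univ k =
        cx (fun i => if i ∈ P then z i else zR i) (univ \ P) k +
        cx (fun i => if i ∈ P then z i else zR i) P k := by
      unfold cx
      exact (Finset.sum_sdiff (Finset.subset_univ _)).symm
    rw [e1]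
    congr 1
    · exact cx_congr (fun i hi => if_neg ((hmem i).1 hi)) k
    · exact cx_congr (fun i hi => if_pos hi) k
  have hz : ∀ zR : Fin s → ℕ, (∀ i ∈ univ \ P, 1 ≤ zR i) → cx zR (univ \ P) 0 = 0 := by
    intro zR hzR
    unfold cx
    exact Finset.sum_eq_zero (fun i hi => if_neg (by have := hzR i hi; omega))
  refine ⟨fun i => if i ∈ P then a i else xR i, fun i => if i ∈ P then b i else yR i, ?_, ?_, ?_,
    ?_, ?_, ?_⟩
  · intro i
    by_cases hi : i ∈ P
    · simp only [if_pos hi]; exact hab i hi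
    · simp only [if_neg hi]; exact (h1 i ((hmem i).2 hi)).1
  · intro i hi
    exact ⟨if_pos hi, if_pos hi⟩
  · intro i hi
    simp only [if_neg hi]
    exact (h1 i ((hmem i).2 hi)).2
  · intro k hk
    rw [key, key, h2 k, hb k hk]
  · rw [key, hz xR (fun i hi => (h1 i hi).2.1), zero_add]
  · rw [key, hz yR (fun i hi => (h1 i hi).2.2), zero_add]

theorem two_flip {u w i : ℕ} (hu : i ≠ u) (hw : i ≠ w) (hi : 1 ≤ i) :
    two u w (i - 1) ↔ ¬ two u w i := by
  unfold two
  split_ifs <;> omega

theorem loc_other {s i : ℕ} {P : ℕ → Prop} [DecidablePred P] (h : 1 ≤ i → (P (i - 1) ↔ ¬ P i)) :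
    (if i + 1 < s ∧ P i then 1 else 0) + (if 1 ≤ i ∧ P (i - 1) then 1 else 0) ≤ 1 ∧
    (if i + 1 < s ∧ ¬ P i then 1 else 0) + (if 1 ≤ i ∧ ¬ P (i - 1) then 1 else 0) ≤ 1 := by
  by_cases hi : 1 ≤ i
  · have h1 := h hi
    by_cases hP : P i
    · have h2 : ¬ P (i - 1) := fun h3 => (h1.1 h3) hP
      constructor
      · rw [if_neg (fun h3 : 1 ≤ i ∧ P (i - 1) => h2 h3.2)]
        split_ifs <;> omega
      · rw [if_neg (fun h3 : i + 1 < s ∧ ¬ P i => h3.2 hP)]
        split_ifs <;> omega
    · constructor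
      · rw [if_neg (fun h3 : i + 1 < s ∧ P i => hP h3.2)]
        split_ifs <;> omega
      · rw [if_neg (fun h3 : 1 ≤ i ∧ ¬ P (i - 1) => h3.2 (h1.2 hP))]
        split_ifs <;> omega
  · constructor
    · rw [if_neg (fun h3 : 1 ≤ i ∧ P (i - 1) => hi h3.1)]
      split_ifs <;> omega
    · rw [if_neg (fun h3 : 1 ≤ i ∧ ¬ P (i - 1) => hi h3.1)]
      split_ifs <;> omega

theorem loc_all {s i : ℕ} {P : ℕ → Prop} [DecidablePred P] (h0 : P i) (h1 : 1 ≤ i → P (i - 1)) :
    (if i + 1 < s ∧ P i then 1 else 0) + (if 1 ≤ i ∧ P (i - 1) then 1 else 0) ≤ 2 ∧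
    (if i + 1 < s ∧ ¬ P i then 1 else 0) + (if 1 ≤ i ∧ ¬ P (i - 1) then 1 else 0) = 0 := by
  constructor
  · split_ifs <;> omega
  · rw [if_neg (fun h3 : i + 1 < s ∧ ¬ P i => h3.2 h0),
      if_neg (fun h3 : 1 ≤ i ∧ ¬ P (i - 1) => h3.2 (h1 h3.1))]

theorem loc_none {s i : ℕ} {P : ℕ → Prop} [DecidablePred P] (h0 : ¬ P i)
    (h1 : 1 ≤ i → ¬ P (i - 1)) :
    (if i + 1 < s ∧ P i then 1 else 0) + (if 1 ≤ i ∧ P (i - 1) then 1 else 0) = 0 ∧
    (if i + 1 < s ∧ ¬ P i then 1 else 0) + (if 1 ≤ i ∧ ¬ P (i - 1) then 1 else 0) ≤ 2 := by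
  constructor
  · rw [if_neg (fun h3 : i + 1 < s ∧ P i => h0 h3.2),
      if_neg (fun h3 : 1 ≤ i ∧ P (i - 1) => h1 h3.1 h3.2)]
  · split_ifs <;> omega

theorem loc_free {s i : ℕ} {P : ℕ → Prop} [DecidablePred P] :
    (if i + 1 < s ∧ P i then 1 else 0) + (if 1 ≤ i ∧ P (i - 1) then 1 else 0) ≤ 2 ∧
    (if i + 1 < s ∧ ¬ P i then 1 else 0) + (if 1 ≤ i ∧ ¬ P (i - 1) then 1 else 0) ≤ 2 := by
  constructor <;> split_ifs <;> omega

/-- a `3` and a `2` at even distance -/
theorem case_I {G : SimpleGraph V} {s : ℕ} {v : Fin s → V} (h : IsSpine G v) (hs : Odd s)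
    (h6 : ∀ i, deg G (v i) ≤ 6) (u w f : Fin s) (du : deg G (v u) = 3) (dw : deg G (v w) = 2)
    (df : deg G (v f) = 5) (hp : ((u : ℕ) + w) % 2 = 0)
    (c3 : cx (fun i => deg G (v i)) univ 3 % 2 = 1)
    (c5 : cx (fun i => deg G (v i)) univ 5 % 2 = 1) : Splittable G := by
  classical
  set d : Fin s → ℕ := fun i => deg G (v i) with hd
  have du' : d u = 3 := du
  have dw' : d w = 2 := dw
  have df' : d f = 5 := df
  have huw : u ≠ w := fun e => by rw [e] at du'; omega
  have huf : u ≠ f := fun e => by rw [e] at du'; omega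
  have hwf : w ≠ f := fun e => by rw [e] at dw'; omega
  have cS : ∀ (z : Fin s → ℕ) k, cx z {u, w, f} k = (if z u = k then 1 else 0) +
      ((if z w = k then 1 else 0) + (if z f = k then 1 else 0)) := by
    intro z k
    unfold cx
    rw [Finset.sum_insert (by simp [huw, huf]), Finset.sum_pair hwf]
  have hgood : Good d (univ \ {u, w, f}) := by
    refine rest_good (d := d) h.two h6 _ ?_ ?_
    · rw [cS d 3, du', dw', df']; simp; omega
    · rw [cS d 5, du', dw', df']; simp; omega
  obtain ⟨x, y, hxy, hP, hR, hbal, hx0, hy0⟩ := ext_good {u, w, f}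
    (fun i => if i = u then 0 else if i = w then 2 else 3)
    (fun i => if i = u then 3 else if i = w then 0 else 2) (by
      intro i hi
      simp only [Finset.mem_insert, Finset.mem_singleton] at hi
      rcases hi with rfl | rfl | rfl
      · simp [du']
      · simp [huw.symm, dw']
      · simp [huf.symm, hwf.symm, df']) hgood (by
      intro k hk
      rw [cS, cS]
      simp only [if_true, if_neg huw.symm, if_neg huf.symm, if_neg hwf.symm]
      split_ifs <;> omega)
  rw [cS] at hx0 hy0
  simp only [if_true, if_neg huw.symm, if_neg huf.symm, if_neg hwf.symm] at hx0 hy0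
  have pu := hP u (by simp)
  have pw := hP w (by simp)
  have pf := hP f (by simp)
  simp only [if_true, if_neg huw.symm, if_neg huf.symm, if_neg hwf.symm] at pu pw pf
  have huw' : (u : ℕ) ≠ w := fun e => huw (Fin.ext e)
  obtain ⟨m, hm⟩ := hs
  refine construct_pat h x y hxy (two u w) ?_ hbal ?_
  · intro i
    by_cases iu : i = u
    · subst iu
      have := loc_none (s := s) (i := (i : ℕ)) (P := two i w) (by unfold two; split_ifs <;> omega)
        (by intro h1; unfold two; split_ifs <;> omega)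
      omega
    · by_cases iw : i = w
      · subst iw
        have := loc_all (s := s) (i := (i : ℕ)) (P := two u i) (by unfold two; split_ifs <;> omega)
          (by intro h1; unfold two; split_ifs <;> omega)
        omega
      · have iu' : (i : ℕ) ≠ u := fun e => iu (Fin.ext e)
        have iw' : (i : ℕ) ≠ w := fun e => iw (Fin.ext e)
        have h1 := loc_other (s := s) (i := (i : ℕ)) (P := two u w) (fun hi => two_flip iu' iw' hi)
        have h2 : 1 ≤ x i ∧ 1 ≤ y i := by
          by_cases fi : i = f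
          · rw [fi]; omega
          · exact hR i (by simp [iu, iw, fi])
        omega
  · have hu := u.2
    have hw := w.2
    have h1 := two_count_even m u w (by omega) (by omega) hp
    rw [show s - 1 = 2 * m by omega, h1]
    simp at hx0 hy0
    omega

/-- a `3` and a `2` at odd distance, at least three `3`s -/
theorem case_II {G : SimpleGraph V} {s : ℕ} {v : Fin s → V} (h : IsSpine G v) (hs : Odd s)
    (h6 : ∀ i, deg G (v i) ≤ 6) (u w f g g' : Fin s) (du : deg G (v u) = 3)
    (dw : deg G (v w) = 2) (df : deg G (v f) = 5) (dg : deg G (v g) = 3)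
    (dg' : deg G (v g') = 3) (hug : u ≠ g) (hug' : u ≠ g') (hgg : g ≠ g')
    (hp : ((u : ℕ) + w) % 2 = 1)
    (c3 : cx (fun i => deg G (v i)) univ 3 % 2 = 1)
    (c5 : cx (fun i => deg G (v i)) univ 5 % 2 = 1) : Splittable G := by
  classical
  set d : Fin s → ℕ := fun i => deg G (v i) with hd
  have du' : d u = 3 := du
  have dw' : d w = 2 := dw
  have df' : d f = 5 := df
  have dg1 : d g = 3 := dg
  have dg1' : d g' = 3 := dg'
  have huw : u ≠ w := fun e => by rw [e] at du'; omega
  have huf : u ≠ f := fun e => by rw [e] at du'; omega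
  have hwf : w ≠ f := fun e => by rw [e] at dw'; omega
  have hwg : w ≠ g := fun e => by rw [e] at dw'; omega
  have hwg' : w ≠ g' := fun e => by rw [e] at dw'; omega
  have hfg : f ≠ g := fun e => by rw [e] at df'; omega
  have hfg' : f ≠ g' := fun e => by rw [e] at df'; omega
  have cS : ∀ (z : Fin s → ℕ) k, cx z {u, w, f, g, g'} k = (if z u = k then 1 else 0) +
      ((if z w = k then 1 else 0) + ((if z f = k then 1 else 0) + ((if z g = k then 1 else 0) +
      (if z g' = k then 1 else 0)))) := by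
    intro z k
    unfold cx
    rw [Finset.sum_insert (by simp [huw, huf, hug, hug']), Finset.sum_insert (by simp [hwf, hwg, hwg']),
      Finset.sum_insert (by simp [hfg, hfg']), Finset.sum_pair hgg]
  have hgood : Good d (univ \ {u, w, f, g, g'}) := by
    refine rest_good (d := d) h.two h6 _ ?_ ?_
    · rw [cS d 3, du', dw', df', dg1, dg1']; simp; omega
    · rw [cS d 5, du', dw', df', dg1, dg1']; simp; omega
  obtain ⟨x, y, hxy, hP, hR, hbal, hx0, hy0⟩ := ext_good {u, w, f, g, g'}
    (fun i => if i = u then 3 else if i = w then 2 else if i = f then 2 else 1)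
    (fun i => if i = u then 0 else if i = w then 0 else if i = f then 3 else 2) (by
      intro i hi
      simp only [Finset.mem_insert, Finset.mem_singleton] at hi
      rcases hi with rfl | rfl | rfl | rfl | rfl
      · simp [du']
      · simp [huw.symm, dw']
      · simp [huf.symm, hwf.symm, df']
      · simp [hug.symm, hwg.symm, hfg.symm, dg1]
      · simp [hug'.symm, hwg'.symm, hfg'.symm, dg1']) hgood (by
      intro k hk
      rw [cS, cS]
      simp only [if_true, if_neg huw.symm, if_neg huf.symm, if_neg hwf.symm, if_neg hug.symm,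
        if_neg hwg.symm, if_neg hfg.symm, if_neg hug'.symm, if_neg hwg'.symm, if_neg hfg'.symm]
      split_ifs <;> omega)
  rw [cS] at hx0 hy0
  simp only [if_true, if_neg huw.symm, if_neg huf.symm, if_neg hwf.symm, if_neg hug.symm,
    if_neg hwg.symm, if_neg hfg.symm, if_neg hug'.symm, if_neg hwg'.symm, if_neg hfg'.symm]
    at hx0 hy0
  have pu := hP u (by simp)
  have pw := hP w (by simp)
  have pf := hP f (by simp)
  have pg := hP g (by simp)
  have pg' := hP g' (by simp)
  simp only [if_true, if_neg huw.symm, if_neg huf.symm, if_neg hwf.symm, if_neg hug.symm,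
    if_neg hwg.symm, if_neg hfg.symm, if_neg hug'.symm, if_neg hwg'.symm, if_neg hfg'.symm]
    at pu pw pf pg pg'
  have huw' : (u : ℕ) ≠ w := fun e => huw (Fin.ext e)
  obtain ⟨m, hm⟩ := hs
  refine construct_pat h x y hxy (two u w) ?_ hbal ?_
  · intro i
    by_cases iu : i = u
    · subst iu
      have := loc_all (s := s) (i := (i : ℕ)) (P := two i w) (by unfold two; split_ifs <;> omega)
        (by intro h1; unfold two; split_ifs <;> omega)
      omega
    · by_cases iw : i = w
      · subst iw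
        have := loc_all (s := s) (i := (i : ℕ)) (P := two u i) (by unfold two; split_ifs <;> omega)
          (by intro h1; unfold two; split_ifs <;> omega)
        omega
      · have iu' : (i : ℕ) ≠ u := fun e => iu (Fin.ext e)
        have iw' : (i : ℕ) ≠ w := fun e => iw (Fin.ext e)
        have h1 := loc_other (s := s) (i := (i : ℕ)) (P := two u w) (fun hi => two_flip iu' iw' hi)
        have h2 : 1 ≤ x i ∧ 1 ≤ y i := by
          by_cases fi : i = f
          · rw [fi]; omega
          · by_cases gi : i = g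
            · rw [gi]; omega
            · by_cases gi' : i = g'
              · rw [gi']; omega
              · exact hR i (by simp [iu, iw, fi, gi, gi'])
        omega
  · have hu := u.2
    have hw := w.2
    have h1 := two_count_odd m u w (by omega) (by omega) hp
    rw [show s - 1 = 2 * m by omega, h1]
    simp at hx0 hy0
    omega

end Pool.Agent.W_e8e3a0
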