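import Pool.Agent.W_e8e3a0.SixF49

namespace Pool.Agent.W_e8e3a0

open Finset Num49

variable {V : Type} [Fintype V]

theorem one_three {s : ℕ} {x y d : Fin s → ℕ} (hxy : ∀ i, x i + y i = d i)
    (hbal : ∀ k, 2 ≤ k → cx x univ k = cx y univ k) (u : Fin s) (du : d u = 3)
    (hd : ∀ i, i ≠ u → d i = 2 ∨ d i = 5) (c5 : cx d univ 5 % 2 = 1) : x u = 0 ∨ y u = 0 := by
  by_contra hno
  push Not at hno
  have h3 := hbal 3 (by norm_num)
  have h4 := hbal 4 (by norm_num)
  have h5 := hbal 5 (by norm_num)
  have key : (cx x univ 3 + cx x univ 4 + cx x univ 5) + (cx y univ 3 + cx y univ 4 +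
      cx y univ 5) = cx d univ 5 := by
    unfold cx
    simp only [← Finset.sum_add_distrib]
    refine Finset.sum_congr rfl (fun i _ => ?_)
    have h := hxy i
    by_cases hi : i = u
    · rw [hi] at h ⊢
      split_ifs <;> omega
    · have := hd i hi
      split_ifs <;> omega
  omega

theorem edge_mem {s : ℕ} {x y : Fin s → ℕ} {C D : Finset ℕ} (huni : C ∪ D = range (s - 1))
    (hloc : ∀ i : Fin s, (C.filter (fun t => t = (i : ℕ) ∨ t + 1 = i)).card ≤ x i ∧
      (D.filter (fun t => t = (i : ℕ) ∨ t + 1 = i)).card ≤ y i) (i j : Fin s)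
    (hij : (j : ℕ) = i + 1) : (1 ≤ x i ∧ 1 ≤ x j) ∨ (1 ≤ y i ∧ 1 ≤ y j) := by
  have hj := j.2
  have hm : (i : ℕ) ∈ C ∪ D := by rw [huni, Finset.mem_range]; omega
  rcases Finset.mem_union.1 hm with hm | hm
  · exact Or.inl ⟨one_le_of_mem (i := (i : ℕ)) hm (Or.inl rfl) (hloc i).1,
      one_le_of_mem (i := (j : ℕ)) hm (Or.inr hij.symm) (hloc j).1⟩
  · exact Or.inr ⟨one_le_of_mem (i := (i : ℕ)) hm (Or.inl rfl) (hloc i).2,
      one_le_of_mem (i := (j : ℕ)) hm (Or.inr hij.symm) (hloc j).2⟩

/-- necessity for the third family -/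
theorem not_X3 {G : SimpleGraph V} {s : ℕ} {v : Fin s → V} (h : IsSpine G v) (hs : Odd s)
    (hX : X3 (fun i => deg G (v i))) : ¬ Splittable G := by
  classical
  obtain ⟨u, w, huw, du, dw, d5⟩ := hX
  intro hG
  obtain ⟨x, y, C, D, hxy, hbal, _, huni, hloc, _⟩ := (form h).1 hG
  have hne : u ≠ w := fun e => by
    rw [e] at du
    have e1 : deg G (v w) = 3 := du
    have e2 : deg G (v w) = 2 := dw
    omega
  have hb : ∀ k, 2 ≤ k → cx x univ k = cx y univ k := by
    intro k hk
    rw [cx_eq_card, cx_eq_card]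
    exact hbal k hk
  have du' : deg G (v u) = 3 := du
  have dw' : deg G (v w) = 2 := dw
  have c5 : cx (fun i => deg G (v i)) univ 5 % 2 = 1 := by
    have e1 : cx (fun i => deg G (v i)) univ 5 + (∑ i : Fin s, if i = u then 1 else 0) +
        (∑ i : Fin s, if i = w then 1 else 0) = ∑ _i : Fin s, 1 := by
      unfold cx
      simp only [← Finset.sum_add_distrib]
      refine Finset.sum_congr rfl (fun i _ => ?_)
      by_cases iu : i = u
      · rw [iu]; simp [du', hne]
      · by_cases iw : i = w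
        · rw [iw]; simp [dw', hne.symm]
        · have e5 : deg G (v i) = 5 := d5 i iu iw
          simp [e5, iu, iw]
    rw [Finset.sum_ite_eq' univ u (fun _ => 1), Finset.sum_ite_eq' univ w (fun _ => 1)] at e1
    simp at e1
    obtain ⟨t, ht⟩ := hs
    omega
  have hor := one_three hxy hb u du' (fun i hi => by
    by_cases iw : i = w
    · left; rw [iw]; exact dw'
    · right; exact d5 i hi iw) c5
  have h2 := hb 2 le_rfl
  have h3 := hb 3 (by norm_num)
  have hu := hxy u
  have hw := hxy w
  -- both types of `u`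
  have key : (cx x univ 2 + cx x univ 3) + (if y u = 3 then 1 else 0) +
      (if y w = 2 then 1 else 0) =
      (cx y univ 2 + cx y univ 3) + (if x u = 3 then 1 else 0) + (if x w = 2 then 1 else 0) ∨
      (1 ≤ x u ∧ 1 ≤ y u) := by
    by_cases hzz : 1 ≤ x u ∧ 1 ≤ y u
    · exact Or.inr hzz
    · left
      have e1 : ∀ (c : ℕ) (a : Fin s), ∑ i : Fin s, (if i = a then c else 0) = c := by
        intro c a
        rw [Finset.sum_ite_eq' univ a (fun _ => c)]
        simp
      rw [← e1 (if y u = 3 then 1 else 0) u, ← e1 (if y w = 2 then 1 else 0) w,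
        ← e1 (if x u = 3 then 1 else 0) u, ← e1 (if x w = 2 then 1 else 0) w]
      unfold cx
      simp only [← Finset.sum_add_distrib]
      refine Finset.sum_congr rfl (fun i _ => ?_)
      by_cases iu : i = u
      · rw [iu, if_pos rfl, if_neg hne, if_pos rfl, if_neg hne]
        split_ifs <;> omega
      · by_cases iw : i = w
        · rw [iw, if_neg hne.symm, if_pos rfl, if_neg hne.symm, if_pos rfl]
          split_ifs <;> omega
        · have e5 : deg G (v i) = 5 := d5 i iu iw
          have hi := hxy i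
          rw [if_neg iu, if_neg iw, if_neg iu, if_neg iw]
          split_ifs <;> omega
  have hadj : (1 ≤ x u ∧ 1 ≤ x w) ∨ (1 ≤ y u ∧ 1 ≤ y w) := by
    rcases huw with e | e
    · exact edge_mem huni hloc u w e
    · rcases edge_mem huni hloc w u e with q | q
      · exact Or.inl ⟨q.2, q.1⟩
      · exact Or.inr ⟨q.2, q.1⟩
  rcases key with key | key
  · split_ifs at key <;> omega
  · omega

/-- necessity for the fourth family -/
theorem not_X4 {G : SimpleGraph V} {s : ℕ} {v : Fin s → V} (h : IsSpine G v) (hs : Odd s)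
    (hX : X4 (fun i => deg G (v i))) : ¬ Splittable G := by
  classical
  obtain ⟨u, ue, du, d2, d5⟩ := hX
  intro hG
  have hs0 : 0 < s := lt_of_le_of_lt (Nat.zero_le _) u.2
  obtain ⟨r, hr⟩ := (necessary hs0 h hG).1
  obtain ⟨x, y, C, D, hxy, hbal, hdis, huni, hloc, hcnt⟩ := (formZ h).1 hG
  have hb : ∀ k, 2 ≤ k → cx x univ k = cx y univ k := by
    intro k hk
    rw [cx_eq_card, cx_eq_card]
    exact hbal k hk
  have du' : deg G (v u) = 3 := du
  obtain ⟨m, hm⟩ := hs
  have hd235 : ∀ i, i ≠ u → deg G (v i) = 2 ∨ deg G (v i) = 5 := by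
    intro i hi
    rcases Nat.mod_two_eq_zero_or_one (i : ℕ) with e | e
    · exact Or.inr (d5 i e hi)
    · exact Or.inl (d2 i e)
  have h6 : ∀ i, deg G (v i) ≤ 6 := by
    intro i
    by_cases hi : i = u
    · rw [hi]; omega
    · have := hd235 i hi; omega
  -- the number of `5`s is odd
  have c5 : cx (fun i => deg G (v i)) univ 5 % 2 = 1 := by
    obtain ⟨e1, e2⟩ := six_sums (d := fun i => deg G (v i)) h.two h6
    have e3 := edges_eq h
    have e4 := sum_spine h
    have n3 : cx (fun i => deg G (v i)) univ 3 = 1 := by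
      rw [cx_eq_card, Finset.card_eq_one]
      refine ⟨u, ?_⟩
      ext i
      simp only [Finset.mem_filter, Finset.mem_univ, true_and, Finset.mem_singleton]
      constructor
      · intro hi
        by_contra hne
        have := hd235 i hne
        omega
      · rintro rfl; exact du'
    have n4 : cx (fun i => deg G (v i)) univ 4 = 0 := cx_zero_of (fun i => by
      by_cases hi : i = u
      · rw [hi]; omega
      · have := hd235 i hi; omega)
    have n6 : cx (fun i => deg G (v i)) univ 6 = 0 := cx_zero_of (fun i => by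
      by_cases hi : i = u
      · rw [hi]; omega
      · have := hd235 i hi; omega)
    omega
  have hor := one_three hxy hb u du' hd235 c5
  -- the edges counted at the odd positions
  have hcount : ∀ E : Finset ℕ, E ⊆ range (s - 1) → E.card = ∑ i : Fin s,
      (if (i : ℕ) % 2 = 1 then (E.filter (fun t => t = (i : ℕ) ∨ t + 1 = i)).card else 0) := by
    intro E hE
    have e1 : ∀ i : Fin s, (if (i : ℕ) % 2 = 1 then
        (E.filter (fun t => t = (i : ℕ) ∨ t + 1 = i)).card else 0) =
        ∑ t ∈ E, if (i : ℕ) % 2 = 1 ∧ (t = (i : ℕ) ∨ t + 1 = i) then 1 else 0 := by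
      intro i
      by_cases hi : (i : ℕ) % 2 = 1
      · rw [if_pos hi, Finset.card_filter]
        refine Finset.sum_congr rfl (fun t _ => ?_)
        by_cases ht : t = (i : ℕ) ∨ t + 1 = i
        · rw [if_pos ht, if_pos ⟨hi, ht⟩]
        · rw [if_neg ht, if_neg (fun q => ht q.2)]
      · rw [if_neg hi]
        exact (Finset.sum_eq_zero (fun t _ => if_neg (fun q => hi q.1))).symm
    rw [Finset.sum_congr rfl (fun i _ => e1 i), Finset.sum_comm, Finset.card_eq_sum_ones]
    refine Finset.sum_congr rfl (fun t ht => ?_)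
    have ht' := Finset.mem_range.1 (hE ht)
    have ho : ∃ a : Fin s, (a : ℕ) % 2 = 1 ∧ (t = (a : ℕ) ∨ t + 1 = a) := by
      rcases Nat.mod_two_eq_zero_or_one t with q | q
      · exact ⟨⟨t + 1, by omega⟩, by simp only; omega, Or.inr rfl⟩
      · exact ⟨⟨t, by omega⟩, q, Or.inl rfl⟩
    obtain ⟨a, ha1, ha2⟩ := ho
    rw [Finset.sum_eq_single a]
    · rw [if_pos ⟨ha1, ha2⟩]
    · intro b _ hba
      apply if_neg
      rintro ⟨hb1, hb2⟩
      apply hba
      apply Fin.ext
      omega
    · intro hn; exact absurd (Finset.mem_univ _) hn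
  have hCs : C ⊆ range (s - 1) := by rw [← huni]; exact Finset.subset_union_left
  have hDs : D ⊆ range (s - 1) := by rw [← huni]; exact Finset.subset_union_right
  have hCD : ∀ i : Fin s, (i : ℕ) % 2 = 1 →
      (C.filter (fun t => t = (i : ℕ) ∨ t + 1 = i)).card = x i ∧
      (D.filter (fun t => t = (i : ℕ) ∨ t + 1 = i)).card = y i := by
    intro i hi
    have hi2 := i.2
    have e1 : (C.filter (fun t => t = (i : ℕ) ∨ t + 1 = i)).card +
        (D.filter (fun t => t = (i : ℕ) ∨ t + 1 = i)).card =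
        ((range (s - 1)).filter (fun t => t = (i : ℕ) ∨ t + 1 = i)).card := by
      rw [← huni, Finset.filter_union, Finset.card_union_of_disjoint
        (Finset.disjoint_filter_filter hdis)]
    have e2 : (range (s - 1)).filter (fun t => t = (i : ℕ) ∨ t + 1 = i) =
        {(i : ℕ) - 1, (i : ℕ)} := by
      ext t
      rw [Finset.mem_filter, Finset.mem_range, Finset.mem_insert, Finset.mem_singleton]
      omega
    rw [e2, Finset.card_pair (by omega)] at e1
    have e3 : deg G (v i) = 2 := d2 i hi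
    have e4 := hxy i
    have e5 := hloc i
    omega
  have hC := hcount C hCs
  have hD := hcount D hDs
  rw [← cx_eq_card, ← cx_eq_card] at hcnt
  have h2 := hb 2 le_rfl
  have h3 := hb 3 (by norm_num)
  have h5 := hb 5 (by norm_num)
  have key : (∑ i : Fin s,
      (if (i : ℕ) % 2 = 1 then (C.filter (fun t => t = (i : ℕ) ∨ t + 1 = i)).card else 0)) +
      cx x univ 0 + cx x univ 5 + cx y univ 2 + cx y univ 3 +
      (∑ i : Fin s, if i = u then (if y u = 0 then 2 else 0) else 0) =
      (∑ i : Fin s,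
      (if (i : ℕ) % 2 = 1 then (D.filter (fun t => t = (i : ℕ) ∨ t + 1 = i)).card else 0)) +
      cx y univ 0 + cx y univ 5 + cx x univ 2 + cx x univ 3 +
      (∑ i : Fin s, if i = u then (if x u = 0 then 2 else 0) else 0) := by
    unfold cx
    simp only [← Finset.sum_add_distrib]
    refine Finset.sum_congr rfl (fun i _ => ?_)
    have hi := hxy i
    by_cases iu : i = u
    · rw [iu] at hi ⊢
      rw [if_neg (show ¬ (u : ℕ) % 2 = 1 by omega), if_neg (show ¬ (u : ℕ) % 2 = 1 by omega),
        if_pos rfl, if_pos rfl]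
      split_ifs <;> omega
    · rw [if_neg iu, if_neg iu]
      rcases Nat.mod_two_eq_zero_or_one (i : ℕ) with e | e
      · rw [if_neg (show ¬ (i : ℕ) % 2 = 1 by omega), if_neg (show ¬ (i : ℕ) % 2 = 1 by omega)]
        have e5 : deg G (v i) = 5 := d5 i e iu
        split_ifs <;> omega
      · rw [if_pos e, if_pos e, (hCD i e).1, (hCD i e).2]
        have e5 : deg G (v i) = 2 := d2 i e
        split_ifs <;> omega
  have e1 : ∀ c : ℕ, ∑ i : Fin s, (if i = u then c else 0) = c := by
    intro c
    rw [Finset.sum_ite_eq' univ u (fun _ => c)]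
    simp
  rw [e1, e1, ← hC, ← hD] at key
  have hu := hxy u
  split_ifs at key <;> omega

/-- the complete answer for spine degrees at most six -/
theorem six {G : SimpleGraph V} {s : ℕ} {v : Fin s → V} (h : IsSpine G v) (hs0 : 0 < s)
    (h6 : ∀ i, deg G (v i) ≤ 6) :
    Splittable G ↔ Even G.edgeSet.ncard ∧
      ¬ (Even s ∧ ∀ i, deg G (v i) = 2 ∨ deg G (v i) = 5) ∧
      ¬ (Even s ∧ ∀ i, deg G (v i) = 3 ∨ deg G (v i) = 6) ∧
      ¬ (Odd s ∧ X3 (fun i => deg G (v i))) ∧ ¬ (Odd s ∧ X4 (fun i => deg G (v i))) := by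
  constructor
  · intro hG
    obtain ⟨hev, hC⟩ := necessary hs0 h hG
    refine ⟨hev, ?_, ?_, fun hX => not_X3 h hX.1 hX.2 hG, fun hX => not_X4 h hX.1 hX.2 hG⟩
    · rintro ⟨hse, hd⟩
      rcases hC with hC | hC
      · exact Nat.not_even_iff_odd.2 hC hse
      · exact not_cond_mod (d := fun i => deg G (v i)) 3 2
          (fun i => by rcases hd i with e | e <;> simp only [e]) (by decide) (by decide) hC
    · rintro ⟨hse, hd⟩
      rcases hC with hC | hC
      · exact Nat.not_even_iff_odd.2 hC hse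
      · exact not_cond_mod (d := fun i => deg G (v i)) 3 0
          (fun i => by rcases hd i with e | e <;> simp only [e]) (by decide) (by decide) hC
  · rintro ⟨hev, h1, h2, h3, h4⟩
    rcases Nat.even_or_odd s with hse | hso
    · exact six_even h hse hev h6 (fun q => h1 ⟨hse, q⟩) (fun q => h2 ⟨hse, q⟩)
    · exact six_odd h hso hev h6 (fun q => h3 ⟨hso, q⟩) (fun q => h4 ⟨hso, q⟩)

end Pool.Agent.W_e8e3a0
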