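import Pool.Agent.W_e8e3a0.SixM49

namespace Pool.Agent.W_e8e3a0

open Finset Num49

variable {V : Type} [Fintype V]

theorem solo_xy {s : ℕ} {d : Fin s → ℕ} (hd : ∀ i, d i = 2 ∨ d i = 3 ∨ d i = 5) (u w : Fin s)
    (du : d u = 3) (hu1 : ∀ i, d i = 3 → i = u) (dw : d w = 2) (c5 : cx d univ 5 % 2 = 1) :
    ∃ x y : Fin s → ℕ, (∀ i, x i + y i = d i) ∧ x u = 0 ∧ y w = 0 ∧
      (∀ i, i ≠ u → i ≠ w → 1 ≤ x i ∧ 1 ≤ y i) ∧ (∀ i, d i = 5 → 2 ≤ x i ∧ 2 ≤ y i) ∧
      (∀ k, 2 ≤ k → cx x univ k = cx y univ k) ∧ cx x univ 0 = 1 ∧ cx y univ 0 = 1 := by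
  classical
  rw [cx_eq_card] at c5
  obtain ⟨F, hF, hFc⟩ := Finset.exists_subset_card_eq
    (show ((univ.filter (fun i => d i = 5)).card + 1) / 2 ≤
      (univ.filter (fun i => d i = 5)).card by omega)
  have hF5 : ∀ i, i ∈ F → d i = 5 := fun i hi => (Finset.mem_filter.1 (hF hi)).2
  have huw : u ≠ w := fun e => by rw [e] at du; omega
  have huF : u ∉ F := fun e => by have := hF5 u e; omega
  have hwF : w ∉ F := fun e => by have := hF5 w e; omega
  set c := (univ.filter (fun i => d i = 5)).card with hc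
  have hFs : ∑ i : Fin s, (if i ∈ F then 1 else 0) = F.card := by
    rw [Finset.sum_ite_mem, Finset.univ_inter, Finset.card_eq_sum_ones]
  have h5s : ∑ i : Fin s, (if d i = 5 then 1 else 0) = c := by rw [hc, Finset.card_filter]
  have hone : ∀ a : Fin s, ∑ i : Fin s, (if i = a then 1 else 0) = 1 := by
    intro a
    rw [Finset.sum_ite_eq' univ a (fun _ => 1)]
    simp
  let x : Fin s → ℕ := fun i => if i = u then 0 else if i = w then 2 else if i ∈ F then 3 else
    if d i = 5 then 2 else 1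
  let y : Fin s → ℕ := fun i => if i = u then 3 else if i = w then 0 else if i ∈ F then 2 else
    if d i = 5 then 3 else 1
  have val : ∀ i, (i = u ∧ x i = 0 ∧ y i = 3) ∨ (i = w ∧ x i = 2 ∧ y i = 0) ∨
      (i ≠ u ∧ i ≠ w ∧ i ∈ F ∧ d i = 5 ∧ x i = 3 ∧ y i = 2) ∨
      (i ≠ u ∧ i ≠ w ∧ i ∉ F ∧ d i = 5 ∧ x i = 2 ∧ y i = 3) ∨
      (i ≠ u ∧ i ≠ w ∧ i ∉ F ∧ d i = 2 ∧ x i = 1 ∧ y i = 1) := by
    intro i
    by_cases i1 : i = u
    · left; exact ⟨i1, if_pos i1, if_pos i1⟩
    · by_cases i2 : i = w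
      · right; left
        refine ⟨i2, ?_, ?_⟩
        · show (if i = u then 0 else _) = 2
          rw [if_neg i1, if_pos i2]
        · show (if i = u then 3 else _) = 0
          rw [if_neg i1, if_pos i2]
      · by_cases i3 : i ∈ F
        · right; right; left
          refine ⟨i1, i2, i3, hF5 i i3, ?_, ?_⟩
          · show (if i = u then 0 else _) = 3
            rw [if_neg i1, if_neg i2, if_pos i3]
          · show (if i = u then 3 else _) = 2
            rw [if_neg i1, if_neg i2, if_pos i3]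
        · by_cases i4 : d i = 5
          · right; right; right; left
            refine ⟨i1, i2, i3, i4, ?_, ?_⟩
            · show (if i = u then 0 else _) = 2
              rw [if_neg i1, if_neg i2, if_neg i3, if_pos i4]
            · show (if i = u then 3 else _) = 3
              rw [if_neg i1, if_neg i2, if_neg i3, if_pos i4]
          · right; right; right; right
            have i5 : d i ≠ 3 := fun e => i1 (hu1 i e)
            refine ⟨i1, i2, i3, by have := hd i; omega, ?_, ?_⟩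
            · show (if i = u then 0 else _) = 1
              rw [if_neg i1, if_neg i2, if_neg i3, if_neg i4]
            · show (if i = u then 3 else _) = 1
              rw [if_neg i1, if_neg i2, if_neg i3, if_neg i4]
  have sx2 : cx x univ 2 + F.card = 1 + c := by
    rw [← hFs, ← h5s, ← hone w]
    unfold cx
    rw [← Finset.sum_add_distrib, ← Finset.sum_add_distrib]
    refine Finset.sum_congr rfl (fun i _ => ?_)
    rcases val i with ⟨a, b, c⟩ | ⟨a, b, c⟩ | ⟨a, b, c, e, f, g⟩ | ⟨a, b, c, e, f, g⟩ |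
      ⟨a, b, c, e, f, g⟩
    · rw [a] at b ⊢; rw [b]; simp [huF, huw, du]
    · rw [a] at b ⊢; rw [b]; simp [hwF, dw]
    · rw [f]; simp [a, b, c, e]
    · rw [f]; simp [a, b, c, e]
    · rw [f]; simp [a, b, c, e]
  have sy2 : cx y univ 2 = F.card := by
    rw [← hFs]
    unfold cx
    refine Finset.sum_congr rfl (fun i _ => ?_)
    rcases val i with ⟨a, b, c⟩ | ⟨a, b, c⟩ | ⟨a, b, c, e, f, g⟩ | ⟨a, b, c, e, f, g⟩ |
      ⟨a, b, c, e, f, g⟩
    · rw [a] at c ⊢; rw [c]; simp [huF]
    · rw [a] at c ⊢; rw [c]; simp [hwF]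
    · rw [g]; simp [c]
    · rw [g]; simp [c]
    · rw [g]; simp [c]
  have sx3 : cx x univ 3 = F.card := by
    rw [← hFs]
    unfold cx
    refine Finset.sum_congr rfl (fun i _ => ?_)
    rcases val i with ⟨a, b, c⟩ | ⟨a, b, c⟩ | ⟨a, b, c, e, f, g⟩ | ⟨a, b, c, e, f, g⟩ |
      ⟨a, b, c, e, f, g⟩
    · rw [a] at b ⊢; rw [b]; simp [huF]
    · rw [a] at b ⊢; rw [b]; simp [hwF]
    · rw [f]; simp [c]
    · rw [f]; simp [c]
    · rw [f]; simp [c]
  have sy3 : cx y univ 3 + F.card = 1 + c := by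
    rw [← hFs, ← h5s, ← hone u]
    unfold cx
    rw [← Finset.sum_add_distrib, ← Finset.sum_add_distrib]
    refine Finset.sum_congr rfl (fun i _ => ?_)
    rcases val i with ⟨a, b, c⟩ | ⟨a, b, c⟩ | ⟨a, b, c, e, f, g⟩ | ⟨a, b, c, e, f, g⟩ |
      ⟨a, b, c, e, f, g⟩
    · rw [a] at c ⊢; rw [c]; simp [huF, du]
    · rw [a] at c ⊢; rw [c]; simp [hwF, dw, huw.symm]
    · rw [g]; simp [a, b, c, e]
    · rw [g]; simp [a, b, c, e]
    · rw [g]; simp [a, b, c, e]
  have sx0 : cx x univ 0 = 1 := by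
    rw [← hone u]
    unfold cx
    refine Finset.sum_congr rfl (fun i _ => ?_)
    rcases val i with ⟨a, b, c⟩ | ⟨a, b, c⟩ | ⟨a, b, c, e, f, g⟩ | ⟨a, b, c, e, f, g⟩ |
      ⟨a, b, c, e, f, g⟩
    · rw [b]; simp [a]
    · rw [b, a]; simp [huw.symm]
    · rw [f]; simp [a]
    · rw [f]; simp [a]
    · rw [f]; simp [a]
  have sy0 : cx y univ 0 = 1 := by
    rw [← hone w]
    unfold cx
    refine Finset.sum_congr rfl (fun i _ => ?_)
    rcases val i with ⟨a, b, c⟩ | ⟨a, b, c⟩ | ⟨a, b, c, e, f, g⟩ | ⟨a, b, c, e, f, g⟩ |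
      ⟨a, b, c, e, f, g⟩
    · rw [c, a]; simp [huw]
    · rw [c]; simp [a]
    · rw [g]; simp [b]
    · rw [g]; simp [b]
    · rw [g]; simp [b]
  refine ⟨x, y, ?_, ?_, ?_, ?_, ?_, ?_, sx0, sy0⟩
  · intro i
    rcases val i with ⟨a, b, c⟩ | ⟨a, b, c⟩ | ⟨a, b, c, e, f, g⟩ | ⟨a, b, c, e, f, g⟩ |
      ⟨a, b, c, e, f, g⟩
    · rw [b, c, a, du]
    · rw [b, c, a, dw]
    · rw [f, g, e]
    · rw [f, g, e]
    · rw [f, g, e]
  · rcases val u with ⟨a, b, c⟩ | ⟨a, b, c⟩ | ⟨a, b, c, e, f, g⟩ | ⟨a, b, c, e, f, g⟩ |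
      ⟨a, b, c, e, f, g⟩
    · exact b
    · exact absurd a huw
    · exact absurd rfl a
    · exact absurd rfl a
    · exact absurd rfl a
  · rcases val w with ⟨a, b, c⟩ | ⟨a, b, c⟩ | ⟨a, b, c, e, f, g⟩ | ⟨a, b, c, e, f, g⟩ |
      ⟨a, b, c, e, f, g⟩
    · exact absurd a huw.symm
    · exact c
    · exact absurd rfl b
    · exact absurd rfl b
    · exact absurd rfl b
  · intro i iu iw
    rcases val i with ⟨a, b, c⟩ | ⟨a, b, c⟩ | ⟨a, b, c, e, f, g⟩ | ⟨a, b, c, e, f, g⟩ |
      ⟨a, b, c, e, f, g⟩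
    · exact absurd a iu
    · exact absurd a iw
    · omega
    · omega
    · omega
  · intro i i5
    rcases val i with ⟨a, b, c⟩ | ⟨a, b, c⟩ | ⟨a, b, c, e, f, g⟩ | ⟨a, b, c, e, f, g⟩ |
      ⟨a, b, c, e, f, g⟩
    · rw [a] at i5; omega
    · rw [a] at i5; omega
    · omega
    · omega
    · omega
  · intro k hk
    by_cases k2 : k = 2
    · subst k2; omega
    · by_cases k3 : k = 3
      · subst k3; omega
      · have z1 : cx x univ k = 0 := by
          refine cx_zero_of (fun i => ?_)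
          have := val i
          omega
        have z2 : cx y univ k = 0 := by
          refine cx_zero_of (fun i => ?_)
          have := val i
          omega
        rw [z1, z2]

theorem case_three {G : SimpleGraph V} {s : ℕ} {v : Fin s → V} (h : IsSpine G v) (hs : Odd s)
    (hd : ∀ i, deg G (v i) = 2 ∨ deg G (v i) = 3 ∨ deg G (v i) = 5) (u w p : Fin s)
    (du : deg G (v u) = 3) (hu1 : ∀ i, deg G (v i) = 3 → i = u) (dw : deg G (v w) = 2)
    (dp : deg G (v p) = 5) (c5 : cx (fun i => deg G (v i)) univ 5 % 2 = 1)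
    (hbt : ((u : ℕ) < p ∧ (p : ℕ) < w) ∨ ((w : ℕ) < p ∧ (p : ℕ) < u))
    (h1 : (u : ℕ) % 2 = 1) (h2 : (w : ℕ) % 2 = 0) (h3 : (p : ℕ) % 2 = 1) : Splittable G := by
  obtain ⟨x, y, hxy, xu, yw, hR, h5, hbal, hx0, hy0⟩ := solo_xy hd u w du hu1 dw c5
  obtain ⟨m, hm⟩ := hs
  have hxyu := hxy u
  have hxyw := hxy w
  refine construct_pat h x y hxy (three u w p) ?_ hbal ?_
  · intro i
    by_cases iu : i = u
    · subst iu
      have := loc_none (s := s) (i := (i : ℕ)) (P := three i w p)
        (by unfold three; split_ifs <;> omega) (by intro h1; unfold three; split_ifs <;> omega)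
      omega
    · by_cases iw : i = w
      · subst iw
        have := loc_all (s := s) (i := (i : ℕ)) (P := three u i p)
          (by unfold three; split_ifs <;> omega) (by intro h1; unfold three; split_ifs <;> omega)
        omega
      · by_cases ip : i = p
        · have := loc_free (s := s) (i := (i : ℕ)) (P := three u w p)
          have h6 := h5 i (by rw [ip]; exact dp)
          omega
        · have iu' : (i : ℕ) ≠ u := fun e => iu (Fin.ext e)
          have iw' : (i : ℕ) ≠ w := fun e => iw (Fin.ext e)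
          have ip' : (i : ℕ) ≠ p := fun e => ip (Fin.ext e)
          have h6 := loc_other (s := s) (i := (i : ℕ)) (P := three u w p)
            (fun hi => by unfold three; split_ifs <;> omega)
          have h7 := hR i iu iw
          omega
  · have hu := u.2
    have hp := p.2
    have h4 := three_count m u w p (by omega) (by omega) hbt h1 h2 h3
    rw [show s - 1 = 2 * m by omega, h4]
    omega

theorem case_prs {G : SimpleGraph V} {s : ℕ} {v : Fin s → V} (h : IsSpine G v) (hs : Odd s)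
    (hd : ∀ i, deg G (v i) = 2 ∨ deg G (v i) = 3 ∨ deg G (v i) = 5) (u w p : Fin s)
    (du : deg G (v u) = 3) (hu1 : ∀ i, deg G (v i) = 3 → i = u) (dw : deg G (v w) = 2)
    (dp : deg G (v p) = 5) (c5 : cx (fun i => deg G (v i)) univ 5 % 2 = 1)
    (hev : ∀ i : Fin s, (i : ℕ) % 2 = 0 → i ≠ u → deg G (v i) = 5)
    (ha1 : (w : ℕ) ≠ u + 1) (ha2 : (w : ℕ) + 1 ≠ u)
    (h1 : (u : ℕ) % 2 = 0) (h2 : (w : ℕ) % 2 = 1) (h3 : (p : ℕ) % 2 = 1) : Splittable G := by
  obtain ⟨x, y, hxy, xu, yw, hR, h5, hbal, hx0, hy0⟩ := solo_xy hd u w du hu1 dw c5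
  obtain ⟨m, hm⟩ := hs
  have hxyu := hxy u
  have hxyw := hxy w
  have hwp : (w : ℕ) ≠ p := fun e => by rw [Fin.ext e] at dw; omega
  refine construct_pat h x y hxy (prs u w p) ?_ hbal ?_
  · intro i
    by_cases iu : i = u
    · subst iu
      have := loc_none (s := s) (i := (i : ℕ)) (P := prs i w p)
        (by unfold prs; omega) (by intro h1; unfold prs; omega)
      omega
    · by_cases iw : i = w
      · subst iw
        have := loc_all (s := s) (i := (i : ℕ)) (P := prs u i p)
          (by unfold prs; omega) (by intro h1; unfold prs; omega)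
        omega
      · by_cases ip : i = p
        · have := loc_free (s := s) (i := (i : ℕ)) (P := prs u w p)
          have h6 := h5 i (by rw [ip]; exact dp)
          omega
        · rcases Nat.mod_two_eq_zero_or_one (i : ℕ) with ie | io
          · have := loc_free (s := s) (i := (i : ℕ)) (P := prs u w p)
            have h6 := h5 i (hev i ie iu)
            omega
          · have iu' : (i : ℕ) ≠ u := fun e => iu (Fin.ext e)
            have iw' : (i : ℕ) ≠ w := fun e => iw (Fin.ext e)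
            have ip' : (i : ℕ) ≠ p := fun e => ip (Fin.ext e)
            have h6 := loc_other (s := s) (i := (i : ℕ)) (P := prs u w p)
              (fun hi => by unfold prs; omega)
            have h7 := hR i iu iw
            omega
  · have hu := u.2
    have hw := w.2
    have hp := p.2
    have h4 := prs_count m u w p (by omega) (by omega) hwp h1 h2 h3
    rw [show s - 1 = 2 * m by omega, h4]
    omega

end Pool.Agent.W_e8e3a0
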