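import Pool.Agent.W_e8e3a0.Thick49

namespace Pool.Agent.W_e8e3a0

open Finset Num49

variable {V : Type} [Fintype V]

theorem inc_le (E : Finset ℕ) (i : ℕ) : (E.filter (fun t => t = i ∨ t + 1 = i)).card ≤ 2 := by
  have h : E.filter (fun t => t = i ∨ t + 1 = i) ⊆ ({i, i - 1} : Finset ℕ) := by
    intro t ht
    rw [Finset.mem_insert, Finset.mem_singleton]
    have := (Finset.mem_filter.1 ht).2
    omega
  exact (Finset.card_le_card h).trans (Finset.card_insert_le _ _)

/-- the spine edges at the vertices of `Q` -/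
def inc {s : ℕ} (Q : Finset (Fin s)) : Finset ℕ :=
  (range (s - 1)).filter (fun t => ∃ i ∈ Q, t = (i : ℕ) ∨ t + 1 = (i : ℕ))

theorem card_inc {s : ℕ} (Q : Finset (Fin s)) : (inc Q).card ≤ 2 * Q.card := by
  classical
  have h : inc Q ⊆ Q.biUnion (fun i => ({(i : ℕ), (i : ℕ) - 1} : Finset ℕ)) := by
    intro t ht
    obtain ⟨_, i, hi, hti⟩ := Finset.mem_filter.1 ht
    rw [Finset.mem_biUnion]
    refine ⟨i, hi, ?_⟩
    rw [Finset.mem_insert, Finset.mem_singleton]
    omega
  refine (Finset.card_le_card h).trans (Finset.card_biUnion_le.trans ?_)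
  rw [mul_comm, ← smul_eq_mul, ← Finset.sum_const]
  exact Finset.sum_le_sum (fun i _ => Finset.card_insert_le _ _)

theorem mem_inc {s : ℕ} {Q : Finset (Fin s)} {i : Fin s} (hi : i ∈ Q) {t : ℕ}
    (ht : t ∈ range (s - 1)) (hti : t = (i : ℕ) ∨ t + 1 = (i : ℕ)) : t ∈ inc Q :=
  Finset.mem_filter.2 ⟨ht, i, hi, hti⟩

/-- special vertices far from each other, all other parts at least 2 -/
theorem thick_split {G : SimpleGraph V} {s : ℕ} {v : Fin s → V} (h : IsSpine G v)
    (hev : Even G.edgeSet.ncard) {x y : Fin s → ℕ} (hxy : ∀ i, x i + y i = deg G (v i))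
    (h4 : ∀ i, 4 ≤ deg G (v i)) (hbal : ∀ k, 2 ≤ k → cx x univ k = cx y univ k)
    (P : Finset (Fin s))
    (hP : ∀ i ∈ P, ∀ j ∈ P, i ≠ j → (i : ℕ) + 1 < j ∨ (j : ℕ) + 1 < i)
    (hnP : ∀ i, i ∉ P → 2 ≤ x i ∧ 2 ≤ y i) (hcard : 5 * P.card + 1 ≤ s) : Splittable G := by
  classical
  have e1 := edges_eq h
  have e2 := sum_spine h
  have e3 := sum_diff hbal
  have e4 := zero_diff hbal
  have e5 : ∑ i, x i + ∑ i, y i = 2 * (s - 1) + (offSpine v).card := by
    rw [← Finset.sum_add_distrib, ← e2]
    exact Finset.sum_congr rfl (fun i _ => hxy i)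
  have c1 : cx x univ 0 = (univ.filter (fun i => x i = 0)).card := (Finset.card_filter _ _).symm
  have c2 : cx y univ 0 = (univ.filter (fun i => y i = 0)).card := (Finset.card_filter _ _).symm
  have z1 : (univ.filter (fun i => x i = 0)).card ≤ P.card := by
    refine Finset.card_le_card (fun i hi => ?_)
    by_contra hno
    have := (Finset.mem_filter.1 hi).2
    have := (hnP i hno).1
    omega
  have z2' : (univ.filter (fun i => y i = 0)).card ≤ P.card := by
    refine Finset.card_le_card (fun i hi => ?_)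
    by_contra hno
    have := (Finset.mem_filter.1 hi).2
    have := (hnP i hno).2
    omega
  set zx := (univ.filter (fun i => x i = 0)).card with hzx
  set zy := (univ.filter (fun i => y i = 0)).card with hzy
  set P1 := P.filter (fun i => x i ≤ 1) with hP1
  set P2 := P.filter (fun i => ¬ x i ≤ 1) with hP2
  have hPc : P1.card + P2.card = P.card := Finset.card_filter_add_card_filter_not _
  have hd1 := card_inc P1
  have hd2 := card_inc P2
  have hdis : Disjoint (inc P1) (inc P2) := by
    rw [Finset.disjoint_left]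
    intro t h1 h2
    obtain ⟨_, i, hi, hti⟩ := Finset.mem_filter.1 h1
    obtain ⟨_, j, hj, htj⟩ := Finset.mem_filter.1 h2
    obtain ⟨hi1, hi2⟩ := Finset.mem_filter.1 hi
    obtain ⟨hj1, hj2⟩ := Finset.mem_filter.1 hj
    have hij : i ≠ j := by rintro rfl; exact hj2 hi2
    have := hP i hi1 j hj1 hij
    omega
  have hs1 : inc P1 ∪ inc P2 ⊆ range (s - 1) :=
    Finset.union_subset (Finset.filter_subset _ _) (Finset.filter_subset _ _)
  set R := range (s - 1) \ (inc P1 ∪ inc P2) with hR
  have hRc : R.card + ((inc P1).card + (inc P2).card) = s - 1 := by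
    have h1 := Finset.card_sdiff_add_card_eq_card hs1
    rw [Finset.card_union_of_disjoint hdis, Finset.card_range] at h1
    exact h1
  obtain ⟨m, hm⟩ := hev
  obtain ⟨r, hr⟩ : ∃ r, (inc P2).card + r + zx = (inc P1).card + (R.card - r) + zy ∧ r ≤ R.card := by
    refine ⟨((inc P1).card + R.card + zy - (inc P2).card - zx) / 2, ?_⟩
    omega
  obtain ⟨RC, hRC1, hRC2⟩ := Finset.exists_subset_card_eq hr.2
  have hdR1 : Disjoint (inc P1) R := by
    rw [Finset.disjoint_left]
    intro t h1 h2
    exact (Finset.mem_sdiff.1 h2).2 (Finset.mem_union_left _ h1)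
  have hdR2 : Disjoint (inc P2) R := by
    rw [Finset.disjoint_left]
    intro t h1 h2
    exact (Finset.mem_sdiff.1 h2).2 (Finset.mem_union_right _ h1)
  have hCc : (inc P2 ∪ RC).card = (inc P2).card + r := by
    rw [Finset.card_union_of_disjoint (Finset.disjoint_of_subset_right hRC1 hdR2), hRC2]
  have hDc : (inc P1 ∪ (R \ RC)).card = (inc P1).card + (R.card - r) := by
    rw [Finset.card_union_of_disjoint (Finset.disjoint_of_subset_right Finset.sdiff_subset hdR1),
      Finset.card_sdiff_of_subset hRC1, hRC2]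
  have hCr : inc P2 ∪ RC ⊆ range (s - 1) :=
    Finset.union_subset (Finset.filter_subset _ _)
      (hRC1.trans Finset.sdiff_subset)
  have hDr : inc P1 ∪ (R \ RC) ⊆ range (s - 1) :=
    Finset.union_subset (Finset.filter_subset _ _)
      (Finset.sdiff_subset.trans Finset.sdiff_subset)
  have hCD : Disjoint (inc P2 ∪ RC) (inc P1 ∪ (R \ RC)) := by
    rw [Finset.disjoint_left]
    intro t h1 h2
    rw [Finset.mem_union] at h1 h2
    rcases h1 with h1 | h1 <;> rcases h2 with h2 | h2
    · exact (Finset.disjoint_left.1 hdis) h2 h1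
    · exact (Finset.disjoint_left.1 hdR2) h1 (Finset.mem_sdiff.1 h2).1
    · exact (Finset.disjoint_left.1 hdR1) h2 (hRC1 h1)
    · exact (Finset.mem_sdiff.1 h2).2 h1
  rw [formZ h]
  refine ⟨x, y, inc P2 ∪ RC, inc P1 ∪ (R \ RC), hxy, ?_, hCD, ?_, ?_, ?_⟩
  · intro k hk
    rw [Finset.card_filter, Finset.card_filter]
    exact hbal k hk
  · refine Finset.Subset.antisymm (Finset.union_subset hCr hDr) ?_
    intro t ht
    rw [Finset.mem_union, Finset.mem_union, Finset.mem_union]
    by_cases h1 : t ∈ inc P1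
    · exact Or.inr (Or.inl h1)
    · by_cases h2 : t ∈ inc P2
      · exact Or.inl (Or.inl h2)
      · have h3 : t ∈ R := Finset.mem_sdiff.2 ⟨ht, fun hh => by
          rcases Finset.mem_union.1 hh with hh | hh
          · exact h1 hh
          · exact h2 hh⟩
        by_cases h5 : t ∈ RC
        · exact Or.inl (Or.inr h5)
        · exact Or.inr (Or.inr (Finset.mem_sdiff.2 ⟨h3, h5⟩))
  · intro i
    have k1 := inc_le (inc P2 ∪ RC) (i : ℕ)
    have k2 := inc_le (inc P1 ∪ (R \ RC)) (i : ℕ)
    have k3 := hxy i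
    have k4 := h4 i
    by_cases hi : i ∈ P
    · by_cases hx1 : x i ≤ 1
      · have hiP1 : i ∈ P1 := Finset.mem_filter.2 ⟨hi, hx1⟩
        have hempty : (inc P2 ∪ RC).filter (fun t => t = (i : ℕ) ∨ t + 1 = i) = ∅ := by
          rw [Finset.filter_eq_empty_iff]
          intro t ht hti
          have h1 := mem_inc hiP1 (hCr ht) hti
          exact (Finset.disjoint_left.1 hCD) ht (Finset.mem_union_left _ h1)
        rw [hempty, Finset.card_empty]
        exact ⟨Nat.zero_le _, by omega⟩
      · have hiP2 : i ∈ P2 := Finset.mem_filter.2 ⟨hi, hx1⟩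
        have hempty : (inc P1 ∪ (R \ RC)).filter (fun t => t = (i : ℕ) ∨ t + 1 = i) = ∅ := by
          rw [Finset.filter_eq_empty_iff]
          intro t ht hti
          have h1 := mem_inc hiP2 (hDr ht) hti
          exact (Finset.disjoint_left.1 hCD) (Finset.mem_union_left _ h1) ht
        rw [hempty, Finset.card_empty]
        exact ⟨by omega, Nat.zero_le _⟩
    · have := hnP i hi
      exact ⟨by omega, by omega⟩
  · rw [hCc, hDc]
    exact hr.1

end Pool.Agent.W_e8e3a0
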