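import Pool.Agent.W_e8e3a0.Extra49

namespace Pool.Agent.W_e8e3a0

open Finset Num49

variable {V : Type} [Fintype V]

theorem sum_two {s : ℕ} (d : Fin s → ℕ) (lo hi : ℕ) (hlh : lo < hi)
    (hd : ∀ i, d i = lo ∨ d i = hi) (A : Finset (Fin s)) :
    ∑ i ∈ A, d i = A.card * lo + (A.filter (fun i => d i = hi)).card * (hi - lo) := by
  rw [Finset.card_eq_sum_ones, Finset.card_filter, Finset.sum_mul, Finset.sum_mul,
    ← Finset.sum_add_distrib]
  refine Finset.sum_congr rfl (fun i _ => ?_)
  rcases hd i with h | h
  · rw [if_neg (by omega), zero_mul, one_mul, add_zero, h]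
  · rw [if_pos h, one_mul, one_mul, h]
    omega

/-- spines with at most two different degrees -/
theorem two_valued {G : SimpleGraph V} {s : ℕ} {v : Fin s → V} (h : IsSpine G v) (hs : 0 < s)
    (a b : ℕ) (hab : ∀ i, deg G (v i) = a ∨ deg G (v i) = b)
    (hC : Even G.edgeSet.ncard ∧ (Odd s ∨ Cond (fun i => deg G (v i)))) : Splittable G := by
  classical
  by_cases hwin : ∀ i j, deg G (v i) ≤ 2 * deg G (v j)
  · exact (window h hs hwin).2 hC
  · push Not at hwin
    obtain ⟨i0, j0, hij⟩ := hwin
    have h2 : ∀ i, 2 ≤ deg G (v i) := h.two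
    set lo := deg G (v j0) with hlo
    set hi := deg G (v i0) with hhi
    have hd : ∀ i, deg G (v i) = lo ∨ deg G (v i) = hi := by
      intro i
      rcases hab i with e1 | e1 <;> rcases hab i0 with e2 | e2 <;> rcases hab j0 with e3 | e3 <;>
        omega
    have hlo2 : 2 ≤ lo := h2 j0
    rcases Nat.even_or_odd s with hse | hso
    · exfalso
      obtain ⟨A, B, _, hsum, hcard⟩ := hC.2.resolve_left (Nat.not_odd_iff_even.2 hse)
      have sA := sum_two (fun i => deg G (v i)) lo hi (by omega) hd A
      have sB := sum_two (fun i => deg G (v i)) lo hi (by omega) hd B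
      rw [sA, sB] at hsum
      set q := (A.filter (fun i => deg G (v i) = hi)).card with hq
      set q' := (B.filter (fun i => deg G (v i) = hi)).card with hq'
      obtain ⟨δ, hδ⟩ : ∃ δ, hi - lo = δ := ⟨_, rfl⟩
      rw [hδ] at hsum
      have hδ2 : lo < δ := by omega
      rcases Nat.lt_or_ge q q' with hlt | hge
      · obtain ⟨t, ht⟩ : ∃ t, q' = q + 1 + t := ⟨q' - (q + 1), by omega⟩
        have e1 : q' * δ = q * δ + δ + t * δ := by rw [ht]; ring
        rcases hcard with hc | ⟨hc, _⟩
        · have e2 : A.card * lo = B.card * lo + lo := by rw [hc]; ring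
          omega
        · rw [hc] at hsum
          omega
      · obtain ⟨t, ht⟩ : ∃ t, q = q' + t := ⟨q - q', by omega⟩
        have e1 : q * δ = q' * δ + t * δ := by rw [ht]; ring
        rcases hcard with hc | ⟨hc, _⟩
        · have e2 : A.card * lo = B.card * lo + lo := by rw [hc]; ring
          omega
        · rw [hc] at hsum
          rcases Nat.eq_zero_or_pos t with h0 | h0
          · rw [h0, zero_mul] at e1
            omega
          · have : δ ≤ t * δ := Nat.le_mul_of_pos_left δ h0
            omega
    · have e1 := edges_eq h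
      have e2 := sum_spine h
      have hex : ∃ e, Even (deg G (v e)) := by
        by_contra hno
        push Not at hno
        have h3 := sum_odd_par (d := fun i => deg G (v i)) univ
          (fun i _ => Nat.not_even_iff_odd.1 (hno i))
        rw [Finset.card_univ, Fintype.card_fin] at h3
        obtain ⟨m, hm⟩ := hC.1
        obtain ⟨t, ht⟩ := hso
        have e2' : ∑ i, (fun i => deg G (v i)) i = 2 * (s - 1) + (offSpine v).card := e2
        omega
      obtain ⟨e, he⟩ := hex
      refine suff_odd h hso hC.1 e he (fun a' b' c' _ _ _ hne => ?_)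
      rcases hd a' with q1 | q1 <;> rcases hd b' with q2 | q2 <;> rcases hd c' with q3 | q3 <;>
        omega

end Pool.Agent.W_e8e3a0
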