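import Pool.Agent.W_e8e3a0.Class49

namespace Pool.Agent.W_e8e3a0

open Finset Num49

variable {V : Type} [Fintype V]

theorem wide_split {G : SimpleGraph V} {s : ℕ} {v : Fin s → V} (h : IsSpine G v)
    (hev : Even G.edgeSet.ncard) (P : Finset (Fin s))
    (hP : ∀ i ∈ P, ∀ j ∈ P, i < j → ∃ k : Fin s, i < k ∧ k < j ∧ 3 ≤ deg G (v k))
    (a b : Fin s → ℕ) (hab : ∀ i, a i + b i = deg G (v i)) (hPs : ∀ i ∈ P, a i ≠ 1 ∨ b i ≠ 1)
    (hpar : ∀ k, 2 ≤ k → (cx a univ k + cx b univ k) % 2 = 0)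
    (hn : ∀ i, i ∉ P → (deg G (v i) = 2 → a i = 1 ∧ b i = 1) ∧
      (deg G (v i) = 3 → a i = 1 ∧ b i = 2) ∧ (4 ≤ deg G (v i) → 2 ≤ a i ∧ 2 ≤ b i))
    (Q : Finset (Fin s)) (hQm : ∀ i, i ∈ Q ↔ i ∉ P ∧ deg G (v i) = 3)
    (hQ2 : Q.card % 2 = 0)
    (W : Finset ℕ) (hW : ∀ t ∈ W, t < s - 1 ∧ gd (fun i => deg G (v i)) t)
    (hWc : 8 * P.card + 3 ≤ W.card) (hQc : Q.card = 0 ∨ 12 * P.card + 4 ≤ Q.card) :
    Splittable G := by
  classical
  have h2d : ∀ i, 2 ≤ deg G (v i) := h.two
  set U := univ \ Q with hU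
  have hUQ : ∀ (z : Fin s → ℕ) k, cx z univ k = cx z U k + cx z Q k := by
    intro z k
    unfold cx
    exact (Finset.sum_sdiff (Finset.subset_univ Q)).symm
  have haQ : ∀ i ∈ Q, a i = 1 ∧ b i = 2 := fun i hi =>
    (hn i ((hQm i).1 hi).1).2.1 ((hQm i).1 hi).2
  have hparU : ∀ k, 2 ≤ k → (cx a U k + cx b U k) % 2 = 0 := by
    intro k hk
    have h1 := hpar k hk
    rw [hUQ a, hUQ b] at h1
    have h2 := cx_two (Finset.Subset.refl Q) 1 0 k a (fun i hi => (haQ i hi).1)
      (fun i hi => by simp at hi)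
    have h3' := cx_two (Finset.Subset.refl Q) 2 0 k b (fun i hi => (haQ i hi).2)
      (fun i hi => by simp at hi)
    rw [Finset.sdiff_self, Finset.card_empty] at h2 h3'
    rw [if_neg (by omega : ¬ 1 = k)] at h2
    split_ifs at h2 h3' <;> omega
  obtain ⟨x0, y0, hsw, hb⟩ := orient U.card U a b rfl hparU
  have hxy0 : ∀ i, x0 i + y0 i = deg G (v i) := by
    intro i
    have h1 := hab i
    rcases hsw i with ⟨h2, h3⟩ | ⟨h2, h3⟩ <;> omega
  have hbig0 : ∀ i, i ∉ P → i ∉ Q → deg G (v i) ≠ 2 → 2 ≤ x0 i ∧ 2 ≤ y0 i := by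
    intro i hi hiQ hi2
    have h0 := h2d i
    have hne3 : deg G (v i) ≠ 3 := fun hh => hiQ ((hQm i).2 ⟨hi, hh⟩)
    have h1 := (hn i hi).2.2 (by omega)
    rcases hsw i with ⟨h2, h3⟩ | ⟨h2, h3⟩ <;> omega
  have htwo0 : ∀ i, i ∉ P → deg G (v i) = 2 → x0 i = 1 ∧ y0 i = 1 := by
    intro i hi hi2
    have h1 := (hn i hi).1 hi2
    rcases hsw i with ⟨h2, h3⟩ | ⟨h2, h3⟩ <;> omega
  have hone0 : ∀ i, i ∉ P → i ∉ Q → 1 ≤ x0 i ∧ 1 ≤ y0 i := by
    intro i hi hiQ
    by_cases hi2 : deg G (v i) = 2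
    · have := htwo0 i hi hi2
      omega
    · have := hbig0 i hi hiQ hi2
      omega
  have hzle : ∀ z : Fin s → ℕ, (∀ i, i ∉ P → i ∉ Q → 1 ≤ z i) → cx z U 0 ≤ P.card := by
    intro z hz
    unfold cx
    rw [← Finset.card_filter]
    refine Finset.card_le_card (fun i hi => ?_)
    obtain ⟨h1, h2⟩ := Finset.mem_filter.1 hi
    by_contra hno
    have := hz i hno (Finset.mem_sdiff.1 h1).2
    omega
  have z1 := hzle x0 (fun i h1 h2 => (hone0 i h1 h2).1)
  have z2' := hzle y0 (fun i h1 h2 => (hone0 i h1 h2).2)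
  -- the final parts for a given half of `Q`
  have key : ∀ H ⊆ Q, 2 * H.card = Q.card →
      (∀ i, (if i ∈ Q then (if i ∈ H then 1 else 2) else x0 i) +
        (if i ∈ Q then (if i ∈ H then 2 else 1) else y0 i) = deg G (v i)) ∧
      (∀ k, 2 ≤ k → cx (fun i => if i ∈ Q then (if i ∈ H then 1 else 2) else x0 i) univ k =
        cx (fun i => if i ∈ Q then (if i ∈ H then 2 else 1) else y0 i) univ k) ∧
      cx (fun i => if i ∈ Q then (if i ∈ H then 1 else 2) else x0 i) univ 0 = cx x0 U 0 ∧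
      cx (fun i => if i ∈ Q then (if i ∈ H then 2 else 1) else y0 i) univ 0 = cx y0 U 0 := by
    intro H hHQ hH2
    have hsd : (Q \ H).card = H.card := by
      rw [Finset.card_sdiff_of_subset hHQ]; omega
    have f1 : ∀ k, cx (fun i => if i ∈ Q then (if i ∈ H then 1 else 2) else x0 i) univ k =
        cx x0 U k + ((if 1 = k then H.card else 0) + (if 2 = k then H.card else 0)) := by
      intro k
      rw [hUQ, cx_congr (x' := x0) (fun i hi => if_neg (Finset.mem_sdiff.1 hi).2) k,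
        cx_two hHQ 1 2 k _ (fun i hi => by
          show (if i ∈ Q then (if i ∈ H then 1 else 2) else x0 i) = 1
          rw [if_pos (hHQ hi), if_pos hi]) (fun i hi => by
          show (if i ∈ Q then (if i ∈ H then 1 else 2) else x0 i) = 2
          rw [if_pos (Finset.mem_sdiff.1 hi).1, if_neg (Finset.mem_sdiff.1 hi).2]), hsd]
    have f2 : ∀ k, cx (fun i => if i ∈ Q then (if i ∈ H then 2 else 1) else y0 i) univ k =
        cx y0 U k + ((if 2 = k then H.card else 0) + (if 1 = k then H.card else 0)) := by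
      intro k
      rw [hUQ, cx_congr (x' := y0) (fun i hi => if_neg (Finset.mem_sdiff.1 hi).2) k,
        cx_two hHQ 2 1 k _ (fun i hi => by
          show (if i ∈ Q then (if i ∈ H then 2 else 1) else y0 i) = 2
          rw [if_pos (hHQ hi), if_pos hi]) (fun i hi => by
          show (if i ∈ Q then (if i ∈ H then 2 else 1) else y0 i) = 1
          rw [if_pos (Finset.mem_sdiff.1 hi).1, if_neg (Finset.mem_sdiff.1 hi).2]), hsd]
    refine ⟨?_, ?_, ?_, ?_⟩
    · intro i
      by_cases hi : i ∈ Q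
      · rw [if_pos hi, if_pos hi, ((hQm i).1 hi).2]
        split_ifs <;> rfl
      · rw [if_neg hi, if_neg hi]; exact hxy0 i
    · intro k hk
      rw [f1, f2, hb k hk]
      omega
    · rw [f1]; simp
    · rw [f2]; simp
  -- parity of the number of zeros
  have e1 := edges_eq h
  have e2 := sum_spine h
  obtain ⟨m, hm⟩ := hev
  have hpz : (s - 1 + cx x0 U 0 + cx y0 U 0) % 2 = 0 := by
    obtain ⟨H0, hH0, hH0c⟩ := Finset.exists_subset_card_eq (s := Q) (n := Q.card / 2) (by omega)
    obtain ⟨k1, k2, k3, k4⟩ := key H0 hH0 (by omega)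
    have e3 := sum_diff k2
    have e4 := zero_diff k2
    have e5 : ∑ i, (if i ∈ Q then (if i ∈ H0 then 1 else 2) else x0 i) +
        ∑ i, (if i ∈ Q then (if i ∈ H0 then 2 else 1) else y0 i) =
        2 * (s - 1) + (offSpine v).card := by
      rw [← Finset.sum_add_distrib, ← e2]
      exact Finset.sum_congr rfl (fun i _ => k1 i)
    rw [k3, k4] at e4
    omega
  set zx := cx x0 U 0 with hzx
  set zy := cx y0 U 0 with hzy
  -- rigid vertices, classes of edges
  set r : ℕ → Prop := fun i => ∃ hi : i < s, (⟨i, hi⟩ : Fin s) ∉ P ∧ deg G (v ⟨i, hi⟩) = 2 with hr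
  have hrP : ∀ i ∈ P, ¬ r (i : ℕ) := by
    rintro i hi ⟨_, h1, _⟩
    exact h1 hi
  have hr3 : ∀ i : Fin s, 3 ≤ deg G (v i) → ¬ r (i : ℕ) := by
    rintro i hi ⟨_, _, h1⟩
    have h1' : deg G (v i) = 2 := h1
    omega
  set want : Fin s → ℕ := fun i => if x0 i ≤ 1 then 0 else 1 with hwant
  have hwant2 : ∀ i, want i < 2 := by
    intro i; rw [hwant]; dsimp only; split_ifs <;> omega
  set inF := (range (s - 1)).filter (fun t => ∃ p ∈ P, (t = (p : ℕ) ∨ t + 1 = (p : ℕ)) ∧
    t % 2 = want p) with hinF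
  set outF := (range (s - 1)).filter (fun t => ∃ p ∈ P, (t = (p : ℕ) ∨ t + 1 = (p : ℕ)) ∧
    ¬ t % 2 = want p) with houtF
  have hinc : inF.card ≤ P.card := by
    have h1 : inF ⊆ P.image (fun p : Fin s => if (p : ℕ) % 2 = want p then (p : ℕ) else (p : ℕ) - 1) := by
      intro t ht
      obtain ⟨_, p, hp, htp, hpar⟩ := Finset.mem_filter.1 ht
      refine Finset.mem_image.2 ⟨p, hp, ?_⟩
      have := hwant2 p
      split_ifs <;> omega
    exact (Finset.card_le_card h1).trans Finset.card_image_le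
  have houtc : outF.card ≤ P.card := by
    have h1 : outF ⊆ P.image (fun p : Fin s => if (p : ℕ) % 2 = want p then (p : ℕ) - 1 else (p : ℕ)) := by
      intro t ht
      obtain ⟨_, p, hp, htp, hpar⟩ := Finset.mem_filter.1 ht
      refine Finset.mem_image.2 ⟨p, hp, ?_⟩
      have := hwant2 p
      split_ifs <;> omega
    exact (Finset.card_le_card h1).trans Finset.card_image_le
  have hsep : ∀ t ∈ inF, ∀ t' ∈ outF, rep r t ≠ rep r t' := by
    intro t ht t' ht' heq
    obtain ⟨_, p, hp, htp, hpar⟩ := Finset.mem_filter.1 ht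
    obtain ⟨_, q, hq, htq, hpar'⟩ := Finset.mem_filter.1 ht'
    have l1 := rep_le r t
    have l2 := rep_le r t'
    rcases lt_trichotomy p q with hpq | hpq | hpq
    · obtain ⟨k, hk1, hk2, hk3⟩ := hP p hp q hq hpq
      have hk1' : (p : ℕ) < k := hk1
      have hk2' : (k : ℕ) < q := hk2
      have := le_rep r (hr3 k hk3) (t := t') (by omega)
      omega
    · subst hpq
      rcases htp with e1 | e1
      · rcases htq with e2 | e2
        · exact hpar' (by rw [e2, ← e1]; exact hpar)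
        · have := le_rep r (hrP p hp) (t := t) (by omega)
          omega
      · rcases htq with e2 | e2
        · have := le_rep r (hrP p hp) (t := t') (by omega)
          omega
        · have : t = t' := by omega
          exact hpar' (by rw [← this]; exact hpar)
    · obtain ⟨k, hk1, hk2, hk3⟩ := hP q hq p hp hpq
      have hk1' : (q : ℕ) < k := hk1
      have hk2' : (k : ℕ) < p := hk2
      have := le_rep r (hr3 k hk3) (t := t) (by omega)
      omega
  set G0 := inF.image (rep r) with hG0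
  set bad := outF.image (rep r) with hbad
  have hG0c : G0.card ≤ P.card := Finset.card_image_le.trans hinc
  have hbadc : bad.card ≤ P.card := Finset.card_image_le.trans houtc
  have hG0bad : Disjoint G0 bad := by
    rw [Finset.disjoint_left]
    intro u h1 h2
    obtain ⟨t, ht, e1⟩ := Finset.mem_image.1 h1
    obtain ⟨t', ht', e2⟩ := Finset.mem_image.1 h2
    exact hsep t ht t' ht' (e1.trans e2.symm)
  have hB0 : |∑ u ∈ G0, cs r (s - 1) u| ≤ (P.card : ℤ) := by
    refine (Finset.abs_sum_le_sum_abs _ _).trans ?_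
    refine (Finset.sum_le_sum (g := fun _ => (1 : ℤ)) (fun u _ => ?_)).trans ?_
    · rcases cs_cases r (s - 1) u with h1 | h1 <;> rw [h1]
      · simp
      · unfold sgn; split_ifs <;> simp
    · rw [Finset.sum_const, nsmul_eq_mul, mul_one]
      exact_mod_cast hG0c
  rw [abs_le] at hB0
  set B0 := ∑ u ∈ G0, cs r (s - 1) u with hB0d
  have hWcls : ∀ t ∈ W, t < s - 1 ∧ ¬ r t ∧ ¬ r (t + 1) := by
    intro t ht
    obtain ⟨h1, h2⟩ := hW t ht
    refine ⟨h1, ?_, ?_⟩
    · rintro ⟨hi, _, h3⟩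
      have : 3 ≤ deg G (v ⟨t, hi⟩) := h2 ⟨t, hi⟩ (Or.inl rfl)
      omega
    · rintro ⟨hi, _, h3⟩
      have : 3 ≤ deg G (v ⟨t + 1, hi⟩) := h2 ⟨t + 1, hi⟩ (Or.inr rfl)
      omega
  -- the required sum
  obtain ⟨V0, hV0⟩ : ∃ V0 : ℤ, 2 * V0 = (((s - 1 : ℕ) : ℤ) % 2) + zx - zy := by
    refine ⟨((((s - 1 : ℕ) : ℤ) % 2) + zx - zy) / 2, ?_⟩
    omega
  obtain ⟨σ, hσ, m, hm0, hmc⟩ : ∃ σ : ℤ, (σ = 1 ∨ σ = -1) ∧ ∃ m : ℕ, B0 + σ * m = V0 ∧
      m ≤ 2 * P.card + 1 := by
    rcases le_total B0 V0 with h1 | h1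
    · refine ⟨1, Or.inl rfl, (V0 - B0).toNat, ?_, ?_⟩
      · rw [Int.toNat_of_nonneg (by omega)]; ring
      · omega
    · refine ⟨-1, Or.inr rfl, (B0 - V0).toNat, ?_, ?_⟩
      · rw [Int.toNat_of_nonneg (by omega)]; ring
      · omega
  set Us := ((range (s - 1)).image (rep r)).filter (fun u => cs r (s - 1) u = σ) with hUs
  have hUsc : W.card ≤ 2 * Us.card + 1 := many_classes r (s - 1) W hWcls σ hσ
  obtain ⟨X, hX1, hX2⟩ : ∃ X ⊆ Us \ (G0 ∪ bad), X.card = m := by
    refine Finset.exists_subset_card_eq ?_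
    have h1 := Finset.le_card_sdiff (G0 ∪ bad) Us
    have h2 := Finset.card_union_le G0 bad
    omega
  have hXG : Disjoint G0 X := by
    rw [Finset.disjoint_left]
    intro u h1 h2
    exact (Finset.mem_sdiff.1 (hX1 h2)).2 (Finset.mem_union_left _ h1)
  set GG := G0 ∪ X with hGG
  have hGGc : GG.card ≤ 3 * P.card + 1 := by
    have h1 : GG.card ≤ G0.card + X.card := Finset.card_union_le _ _
    omega
  have hGGbad : ∀ u ∈ bad, u ∉ GG := by
    intro u hu hu2
    rcases Finset.mem_union.1 hu2 with h1 | h1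
    · exact (Finset.disjoint_left.1 hG0bad) h1 hu
    · exact (Finset.mem_sdiff.1 (hX1 h1)).2 (Finset.mem_union_right _ hu)
  have hsumGG : ∑ u ∈ GG, cs r (s - 1) u = V0 := by
    rw [hGG, Finset.sum_union hXG, ← hB0d, ← hm0]
    congr 1
    rw [Finset.sum_congr rfl (fun u hu =>
      (Finset.mem_filter.1 (Finset.mem_sdiff.1 (hX1 hu)).1).2), Finset.sum_const, hX2,
      nsmul_eq_mul, mul_comm]
  set F := (range (s - 1)).filter (fun t => rep r t ∈ GG) with hF
  have hsumF : ∑ t ∈ F, sgn t = V0 := by rw [← hsumGG, sum_cs]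
  set C := (range (s - 1)).filter (fun t => (t % 2 = 0 ∧ t ∉ F) ∨ (¬ t % 2 = 0 ∧ t ∈ F)) with hC
  set D := (range (s - 1)).filter (fun t => ¬ ((t % 2 = 0 ∧ t ∉ F) ∨ (¬ t % 2 = 0 ∧ t ∈ F)))
    with hD
  have hCD : Disjoint C D := Finset.disjoint_filter_filter_not _ _ _
  have hCDu : C ∪ D = range (s - 1) := Finset.filter_union_filter_not_eq _ _
  have hdiff : (C.card : ℤ) - (D.card : ℤ) = zy - zx := by
    have h1 : (C.card : ℤ) - (D.card : ℤ) =
        ∑ t ∈ range (s - 1), (sgn t - 2 * (if t ∈ F then sgn t else 0)) := by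
      rw [hC, hD, Finset.card_filter, Finset.card_filter]
      push_cast
      rw [← Finset.sum_sub_distrib]
      refine Finset.sum_congr rfl (fun t _ => ?_)
      unfold sgn
      by_cases h1 : t % 2 = 0 <;> by_cases h2 : t ∈ F <;> simp [h1, h2]
    rw [h1, Finset.sum_sub_distrib, sum_sgn, ← Finset.mul_sum, ← Finset.sum_filter]
    have h2 : (range (s - 1)).filter (fun t => t ∈ F) = F := by
      rw [hF]
      ext t
      simp only [Finset.mem_filter]
      tauto
    rw [h2, hsumF, hV0]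
    split_ifs <;> omega
  have hcnt : C.card + zx = D.card + zy := by omega
  have hFm : ∀ t, t < s - 1 → (t ∈ F ↔ rep r t ∈ GG) := by
    intro t ht
    rw [hF, Finset.mem_filter, Finset.mem_range]
    exact ⟨fun hh => hh.2, fun hh => ⟨ht, hh⟩⟩
  have hCr : ∀ t ∈ C, t < s - 1 := fun t ht => Finset.mem_range.1 (Finset.mem_filter.1 ht).1
  have hDr : ∀ t ∈ D, t < s - 1 := fun t ht => Finset.mem_range.1 (Finset.mem_filter.1 ht).1
  -- both edges at `i` in the same set
  have hsame : ∀ i : Fin s, (2 ≤ (C.filter (fun t => t = (i : ℕ) ∨ t + 1 = i)).card ∨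
      2 ≤ (D.filter (fun t => t = (i : ℕ) ∨ t + 1 = i)).card) →
      1 ≤ (i : ℕ) ∧ (i : ℕ) < s - 1 ∧ ¬ (rep r (i : ℕ) ∈ GG ↔ rep r ((i : ℕ) - 1) ∈ GG) := by
    intro i hi
    rcases hi with hi | hi
    · obtain ⟨m1, m2, m3⟩ := both_mem hi
      have b1 := hCr _ m1
      have b2 := hCr _ m2
      have c1 := (Finset.mem_filter.1 m1).2
      have c2 := (Finset.mem_filter.1 m2).2
      rw [hFm _ b1] at c1
      rw [hFm _ b2] at c2
      refine ⟨m3, b1, fun hh => ?_⟩
      rw [← hh] at c2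
      rcases c1 with ⟨c1, c1'⟩ | ⟨c1, c1'⟩ <;> rcases c2 with ⟨c2, c2'⟩ | ⟨c2, c2'⟩
      · omega
      · exact c1' c2'
      · exact c2' c1'
      · omega
    · obtain ⟨m1, m2, m3⟩ := both_mem hi
      have b1 := hDr _ m1
      have b2 := hDr _ m2
      have c1 := (Finset.mem_filter.1 m1).2
      have c2 := (Finset.mem_filter.1 m2).2
      rw [hFm _ b1] at c1
      rw [hFm _ b2] at c2
      refine ⟨m3, b1, fun hh => ?_⟩
      rw [← hh] at c2
      rw [not_or, not_and, not_and] at c1 c2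
      by_cases hg : rep r (i : ℕ) ∈ GG
      · have d1 : (i : ℕ) % 2 = 0 := by
          by_contra h0; exact c1.2 h0 hg
        have d2 : ((i : ℕ) - 1) % 2 = 0 := by
          by_contra h0; exact c2.2 h0 hg
        omega
      · have d1 : ¬ (i : ℕ) % 2 = 0 := fun h0 => c1.1 h0 hg
        have d2 : ¬ ((i : ℕ) - 1) % 2 = 0 := fun h0 => c2.1 h0 hg
        omega
  have hrig : ∀ i : Fin s, i ∉ P → deg G (v i) = 2 →
      (C.filter (fun t => t = (i : ℕ) ∨ t + 1 = i)).card ≤ 1 ∧
      (D.filter (fun t => t = (i : ℕ) ∨ t + 1 = i)).card ≤ 1 := by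
    intro i hi hi2
    by_contra hno
    obtain ⟨m1, m2, m3⟩ := hsame i (by omega)
    apply m3
    rw [rep_rigid r (i := (i : ℕ)) ⟨i.2, hi, hi2⟩ m1]
  -- the defects
  set CC := univ.filter (fun i : Fin s =>
      2 ≤ (C.filter (fun t => t = (i : ℕ) ∨ t + 1 = i)).card) with hCC
  set DD := univ.filter (fun i : Fin s =>
      2 ≤ (D.filter (fun t => t = (i : ℕ) ∨ t + 1 = i)).card) with hDD
  have hQr : ∀ i ∈ Q, ¬ r (i : ℕ) := fun i hi => hr3 i (by rw [((hQm i).1 hi).2])
  have hdef : ((CC ∪ DD) ∩ Q).card ≤ 6 * P.card + 2 := by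
    have h1 : (CC ∪ DD) ∩ Q ⊆ (Q.filter (fun i : Fin s => rep r (i : ℕ) ∈ GG)) ∪
        (Q.filter (fun i : Fin s => 1 ≤ (i : ℕ) ∧ rep r ((i : ℕ) - 1) ∈ GG)) := by
      intro i hi
      obtain ⟨h1, h2⟩ := Finset.mem_inter.1 hi
      have h3 : 1 ≤ (i : ℕ) ∧ (i : ℕ) < s - 1 ∧
          ¬ (rep r (i : ℕ) ∈ GG ↔ rep r ((i : ℕ) - 1) ∈ GG) := by
        apply hsame
        rcases Finset.mem_union.1 h1 with h1 | h1
        · exact Or.inl (Finset.mem_filter.1 h1).2
        · exact Or.inr (Finset.mem_filter.1 h1).2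
      rw [Finset.mem_union, Finset.mem_filter, Finset.mem_filter]
      by_cases h4 : rep r (i : ℕ) ∈ GG
      · exact Or.inl ⟨h2, h4⟩
      · refine Or.inr ⟨h2, h3.1, ?_⟩
        by_contra h5
        exact h3.2.2 ⟨fun h => absurd h h4, fun h => absurd h h5⟩
    have h2 : (Q.filter (fun i : Fin s => rep r (i : ℕ) ∈ GG)).card ≤ GG.card := by
      refine Finset.card_le_card_of_injOn (fun i : Fin s => rep r (i : ℕ)) (fun i hi => ?_) ?_
      · exact (Finset.mem_filter.1 (Finset.mem_coe.1 hi)).2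
      · intro i hi j hj hij
        have e1 := rep_not r (hQr i (Finset.mem_filter.1 (Finset.mem_coe.1 hi)).1)
        have e2 := rep_not r (hQr j (Finset.mem_filter.1 (Finset.mem_coe.1 hj)).1)
        have hij' : rep r (i : ℕ) = rep r (j : ℕ) := hij
        exact Fin.ext (by rw [← e1, ← e2]; exact hij')
    have h3 : (Q.filter (fun i : Fin s => 1 ≤ (i : ℕ) ∧ rep r ((i : ℕ) - 1) ∈ GG)).card ≤ GG.card := by
      refine Finset.card_le_card_of_injOn (fun i : Fin s => rep r ((i : ℕ) - 1)) (fun i hi => ?_) ?_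
      · exact (Finset.mem_filter.1 (Finset.mem_coe.1 hi)).2.2
      · intro i hi j hj hij
        obtain ⟨i1, i2, _⟩ := Finset.mem_filter.1 (Finset.mem_coe.1 hi)
        obtain ⟨j1, j2, _⟩ := Finset.mem_filter.1 (Finset.mem_coe.1 hj)
        have hij' : rep r ((i : ℕ) - 1) = rep r ((j : ℕ) - 1) := hij
        have l1 := rep_le r ((i : ℕ) - 1)
        have l2 := rep_le r ((j : ℕ) - 1)
        rcases lt_trichotomy (i : ℕ) (j : ℕ) with hlt | hlt | hlt
        · have := le_rep r (hQr i i1) (t := (j : ℕ) - 1) (by omega)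
          omega
        · exact Fin.ext hlt
        · have := le_rep r (hQr j j1) (t := (i : ℕ) - 1) (by omega)
          omega
    have h4 := (Finset.card_le_card h1).trans (Finset.card_union_le _ _)
    omega
  have hCDi : ∀ i : Fin s, (C.filter (fun t => t = (i : ℕ) ∨ t + 1 = i)).card +
      (D.filter (fun t => t = (i : ℕ) ∨ t + 1 = i)).card ≤ 2 := by
    intro i
    have h1 := inc_le (C ∪ D) (i : ℕ)
    rw [Finset.filter_union, Finset.card_union_of_disjoint
      (Finset.disjoint_filter_filter hCD)] at h1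
    exact h1
  -- choose the half of `Q`
  obtain ⟨H, hH1, hH2, hH3⟩ : ∃ H, DD ∩ Q ⊆ H ∧ H ⊆ Q \ CC ∧ H.card = Q.card / 2 := by
    have hi1 : (DD ∩ Q).card ≤ ((CC ∪ DD) ∩ Q).card := Finset.card_le_card
      (Finset.inter_subset_inter_right Finset.subset_union_right)
    have hi2 : (CC ∩ Q).card ≤ ((CC ∪ DD) ∩ Q).card := Finset.card_le_card
      (Finset.inter_subset_inter_right Finset.subset_union_left)
    have hi3 := Finset.card_le_card (Finset.inter_subset_right (s₁ := CC ∪ DD) (s₂ := Q))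
    refine Finset.exists_subsuperset_card_eq ?_ ?_ ?_
    · intro i hi
      obtain ⟨h1, h2⟩ := Finset.mem_inter.1 hi
      refine Finset.mem_sdiff.2 ⟨h2, fun h3 => ?_⟩
      have h4 := (Finset.mem_filter.1 h1).2
      have h5 := (Finset.mem_filter.1 h3).2
      have := hCDi i
      omega
    · omega
    · have h1 : (Q \ CC).card + (CC ∩ Q).card = Q.card := by
        rw [Finset.inter_comm]
        exact Finset.card_sdiff_add_card_inter Q CC
      omega
  have hHQ : H ⊆ Q := hH2.trans Finset.sdiff_subset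
  obtain ⟨k1, k2, k3, k4⟩ := key H hHQ (by omega)
  rw [formZ h]
  refine ⟨_, _, C, D, k1, ?_, hCD, hCDu, ?_, ?_⟩
  · intro k hk
    rw [Finset.card_filter, Finset.card_filter]
    exact k2 k hk
  · intro i
    have k1' := inc_le C (i : ℕ)
    have k2' := inc_le D (i : ℕ)
    have k3' := hxy0 i
    have k4' := h2d i
    by_cases hiQ : i ∈ Q
    · rw [if_pos hiQ, if_pos hiQ]
      by_cases hiH : i ∈ H
      · rw [if_pos hiH, if_pos hiH]
        refine ⟨?_, k2'⟩
        by_contra hno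
        exact (Finset.mem_sdiff.1 (hH2 hiH)).2
          (Finset.mem_filter.2 ⟨Finset.mem_univ _, by omega⟩)
      · rw [if_neg hiH, if_neg hiH]
        refine ⟨k1', ?_⟩
        by_contra hno
        exact hiH (hH1 (Finset.mem_inter.2
          ⟨Finset.mem_filter.2 ⟨Finset.mem_univ _, by omega⟩, hiQ⟩))
    · rw [if_neg hiQ, if_neg hiQ]
      by_cases hi : i ∈ P
      · -- special vertices
        have hin : ∀ t, t < s - 1 → (t = (i : ℕ) ∨ t + 1 = (i : ℕ)) → (t ∈ F ↔ t % 2 = want i) := by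
          intro t ht hti
          rw [hFm t ht]
          constructor
          · intro hg
            by_contra hno
            refine hGGbad (rep r t) (Finset.mem_image_of_mem _ (Finset.mem_filter.2
              ⟨Finset.mem_range.2 ht, i, hi, hti, hno⟩)) hg
          · intro hw
            exact Finset.mem_union_left _ (Finset.mem_image_of_mem _ (Finset.mem_filter.2
              ⟨Finset.mem_range.2 ht, i, hi, hti, hw⟩))
        by_cases hx1 : x0 i ≤ 1
        · have hw : want i = 0 := by rw [hwant]; exact if_pos hx1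
          have hempty : C.filter (fun t => t = (i : ℕ) ∨ t + 1 = i) = ∅ := by
            rw [Finset.filter_eq_empty_iff]
            intro t ht hti
            have h1 := (Finset.mem_filter.1 ht).2
            rw [hin t (hCr t ht) hti, hw] at h1
            omega
          rw [hempty, Finset.card_empty]
          have hps : 2 ≤ y0 i := by
            have h5 := hPs i hi
            rcases hsw i with ⟨h6, h7⟩ | ⟨h6, h7⟩ <;> omega
          exact ⟨Nat.zero_le _, by omega⟩
        · have hw : want i = 1 := by rw [hwant]; exact if_neg hx1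
          have hempty : D.filter (fun t => t = (i : ℕ) ∨ t + 1 = i) = ∅ := by
            rw [Finset.filter_eq_empty_iff]
            intro t ht hti
            have h1 := (Finset.mem_filter.1 ht).2
            rw [hin t (hDr t ht) hti, hw] at h1
            omega
          rw [hempty, Finset.card_empty]
          exact ⟨by omega, Nat.zero_le _⟩
      · by_cases hi2 : deg G (v i) = 2
        · have h5 := htwo0 i hi hi2
          have h6 := hrig i hi hi2
          exact ⟨by omega, by omega⟩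
        · have := hbig0 i hi hiQ hi2
          exact ⟨by omega, by omega⟩
  · have k3'' : (univ.filter (fun i =>
        (if i ∈ Q then (if i ∈ H then 1 else 2) else x0 i) = 0)).card = zx :=
      (Finset.card_filter _ _).trans k3
    have k4'' : (univ.filter (fun i =>
        (if i ∈ Q then (if i ∈ H then 2 else 1) else y0 i) = 0)).card = zy :=
      (Finset.card_filter _ _).trans k4
    rw [k3'', k4'']
    exact hcnt

end Pool.Agent.W_e8e3a0
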