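import Pool.Agent.W_e8e3a0.CoreO49

/-! Splittings from many even gaps and many spine vertices of degree three. -/

namespace Pool.Agent.W_e8e3a0

open Finset Num49

variable {V : Type} [Fintype V]

theorem cx_change {I : Type} [DecidableEq I] (U P' : Finset I) (hP' : P' ⊆ U) (x0 x1 : I → ℕ)
    (c : ℕ) (h1 : ∀ i ∈ P', x0 i = 1) (h2 : ∀ i ∈ P', x1 i = c) (h3 : ∀ i, i ∉ P' → x1 i = x0 i)
    (k : ℕ) : cx x1 U k + (if 1 = k then P'.card else 0) =
      cx x0 U k + (if c = k then P'.card else 0) := by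
  unfold cx
  rw [← Finset.sum_sdiff hP', ← Finset.sum_sdiff hP']
  have e1 : ∑ i ∈ U \ P', (if x1 i = k then 1 else 0) = ∑ i ∈ U \ P', (if x0 i = k then 1 else 0) :=
    Finset.sum_congr rfl (fun i hi => by rw [h3 i (Finset.mem_sdiff.1 hi).2])
  have e2 : ∑ i ∈ P', (if x1 i = k then 1 else 0) = if c = k then P'.card else 0 := by
    rw [Finset.sum_congr rfl (fun i hi => by rw [h2 i hi]), Finset.sum_const]
    split_ifs <;> simp
  have e3 : ∑ i ∈ P', (if x0 i = k then 1 else 0) = if 1 = k then P'.card else 0 := by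
    rw [Finset.sum_congr rfl (fun i hi => by rw [h1 i hi]), Finset.sum_const]
    split_ifs <;> simp
  rw [e1, e2, e3]
  ring

/-- an interval lies on at most two of the intervals of a disjoint family -/
theorem two_gaps {s : ℕ} (W : Finset (Fin s × Fin s)) (hW : ∀ p ∈ W, p.1 < p.2)
    (hWd : ∀ p ∈ W, ∀ q ∈ W, p ≠ q → p.2 ≤ q.1 ∨ q.2 ≤ p.1) (P : Finset (Fin s)) :
    W.card ≤ (W.filter (fun p => ∀ i ∈ P, ¬ (p.1 ≤ i ∧ i ≤ p.2))).card + 2 * P.card := by
  classical
  have h1 : (W.filter (fun p => ¬ ∀ i ∈ P, ¬ (p.1 ≤ i ∧ i ≤ p.2))).card ≤ P.card * 2 := by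
    have hsub : W.filter (fun p => ¬ ∀ i ∈ P, ¬ (p.1 ≤ i ∧ i ≤ p.2)) ⊆
        P.biUnion (fun i => W.filter (fun p => p.1 ≤ i ∧ i ≤ p.2)) := by
      intro p hp
      obtain ⟨h1, h2⟩ := Finset.mem_filter.1 hp
      push Not at h2
      obtain ⟨i, hi, h3⟩ := h2
      exact Finset.mem_biUnion.2 ⟨i, hi, Finset.mem_filter.2 ⟨h1, h3⟩⟩
    refine (Finset.card_le_card hsub).trans (Finset.card_biUnion_le_card_mul _ _ _ (fun i _ => ?_))
    have hs2 : W.filter (fun p => p.1 ≤ i ∧ i ≤ p.2) ⊆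
        W.filter (fun p => p.1 ≤ i ∧ i < p.2) ∪ W.filter (fun p => p.2 = i) := by
      intro p hp
      obtain ⟨h1, h2, h3⟩ := Finset.mem_filter.1 hp
      rw [Finset.mem_union, Finset.mem_filter, Finset.mem_filter]
      rcases lt_or_eq_of_le h3 with h4 | h4
      · exact Or.inl ⟨h1, h2, h4⟩
      · exact Or.inr ⟨h1, h4.symm⟩
    refine (Finset.card_le_card hs2).trans ((Finset.card_union_le _ _).trans ?_)
    have c1 : (W.filter (fun p => p.1 ≤ i ∧ i < p.2)).card ≤ 1 := by
      rw [Finset.card_le_one]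
      intro p hp q hq
      obtain ⟨p1, p2, p3⟩ := Finset.mem_filter.1 hp
      obtain ⟨q1, q2, q3⟩ := Finset.mem_filter.1 hq
      by_contra hne
      rcases hWd p p1 q q1 hne with h | h
      · exact absurd (lt_of_lt_of_le p3 (h.trans q2)) (lt_irrefl _)
      · exact absurd (lt_of_lt_of_le q3 (h.trans p2)) (lt_irrefl _)
    have c2 : (W.filter (fun p => p.2 = i)).card ≤ 1 := by
      rw [Finset.card_le_one]
      intro p hp q hq
      obtain ⟨p1, p2⟩ := Finset.mem_filter.1 hp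
      obtain ⟨q1, q2⟩ := Finset.mem_filter.1 hq
      by_contra hne
      rcases hWd p p1 q q1 hne with h | h
      · have := hW q q1
        rw [q2, ← p2] at this
        exact absurd (lt_of_le_of_lt h this) (lt_irrefl _)
      · have := hW p p1
        rw [p2, ← q2] at this
        exact absurd (lt_of_le_of_lt h this) (lt_irrefl _)
    omega
  have h2 := Finset.card_filter_add_card_filter_not (s := W)
    (fun p : Fin s × Fin s => ∀ i ∈ P, ¬ (p.1 ≤ i ∧ i ≤ p.2))
  omega

/-- many even gaps and many spine vertices of degree three -/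
theorem even_split {G : SimpleGraph V} {s : ℕ} {v : Fin s → V} (h : IsSpine G v)
    (hev : Even G.edgeSet.ncard) (P : Finset (Fin s))
    (hP : ∀ i ∈ P, ∀ j ∈ P, i < j → ∃ k : Fin s, i < k ∧ k < j ∧ 3 ≤ deg G (v k))
    (a b : Fin s → ℕ) (hab : ∀ i, a i + b i = deg G (v i)) (hPs : ∀ i ∈ P, a i ≠ 1 ∨ b i ≠ 1)
    (hpar : ∀ k, 2 ≤ k → (cx a univ k + cx b univ k) % 2 = 0)
    (hn : ∀ i, i ∉ P → (deg G (v i) = 2 → a i = 1 ∧ b i = 1) ∧
      (deg G (v i) = 3 → a i = 1 ∧ b i = 2) ∧ (4 ≤ deg G (v i) → 2 ≤ a i ∧ 2 ≤ b i))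
    (Q : Finset (Fin s)) (hQm : ∀ i, i ∈ Q ↔ i ∉ P ∧ deg G (v i) = 3)
    (hQ2 : Q.card % 2 = 0)
    (W : Finset (Fin s × Fin s)) (hW : ∀ p ∈ W, p.1 < p.2 ∧ ((p.2 : ℕ) - p.1) % 2 = 0 ∧
      3 ≤ deg G (v p.1) ∧ 3 ≤ deg G (v p.2) ∧ ∀ k, p.1 < k → k < p.2 → deg G (v k) = 2)
    (hWd : ∀ p ∈ W, ∀ q ∈ W, p ≠ q → p.2 ≤ q.1 ∨ q.2 ≤ p.1)
    (hWc : 6 * P.card + 2 ≤ W.card) (hQc : 24 * P.card + 10 ≤ Q.card) :
    Splittable G := by
  classical
  have h2d : ∀ i, 2 ≤ deg G (v i) := h.two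
  set U := univ \ Q with hU
  have hUQ : ∀ (z : Fin s → ℕ) k, cx z univ k = cx z U k + cx z Q k := by
    intro z k
    unfold cx
    exact (Finset.sum_sdiff (Finset.subset_univ Q)).symm
  have haQ : ∀ i ∈ Q, a i = 1 ∧ b i = 2 := fun i hi =>
    (hn i ((hQm i).1 hi).1).2.1 ((hQm i).1 hi).2
  have hparU : ∀ k, 2 ≤ k → (cx a U k + cx b U k) % 2 = 0 := by
    intro k hk
    have h1 := hpar k hk
    rw [hUQ a, hUQ b] at h1
    have h2 := cx_two (Finset.Subset.refl Q) 1 0 k a (fun i hi => (haQ i hi).1)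
      (fun i hi => by simp at hi)
    have h3' := cx_two (Finset.Subset.refl Q) 2 0 k b (fun i hi => (haQ i hi).2)
      (fun i hi => by simp at hi)
    rw [Finset.sdiff_self, Finset.card_empty] at h2 h3'
    rw [if_neg (by omega : ¬ 1 = k)] at h2
    split_ifs at h2 h3' <;> omega
  obtain ⟨x0, y0, hsw, hb⟩ := orient U.card U a b rfl hparU
  have hxy0 : ∀ i, x0 i + y0 i = deg G (v i) := by
    intro i
    have h1 := hab i
    rcases hsw i with ⟨h2, h3⟩ | ⟨h2, h3⟩ <;> omega
  have hbig0 : ∀ i, i ∉ P → i ∉ Q → deg G (v i) ≠ 2 → 2 ≤ x0 i ∧ 2 ≤ y0 i := by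
    intro i hi hiQ hi2
    have h0 := h2d i
    have hne3 : deg G (v i) ≠ 3 := fun hh => hiQ ((hQm i).2 ⟨hi, hh⟩)
    have h1 := (hn i hi).2.2 (by omega)
    rcases hsw i with ⟨h2, h3⟩ | ⟨h2, h3⟩ <;> omega
  have htwo0 : ∀ i, i ∉ P → deg G (v i) = 2 → x0 i = 1 ∧ y0 i = 1 := by
    intro i hi hi2
    have h1 := (hn i hi).1 hi2
    rcases hsw i with ⟨h2, h3⟩ | ⟨h2, h3⟩ <;> omega
  have hone0 : ∀ i, i ∉ P → i ∉ Q → 1 ≤ x0 i ∧ 1 ≤ y0 i := by
    intro i hi hiQ
    by_cases hi2 : deg G (v i) = 2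
    · have := htwo0 i hi hi2
      omega
    · have := hbig0 i hi hiQ hi2
      omega
  have hzle : ∀ z : Fin s → ℕ, (∀ i, i ∉ P → i ∉ Q → 1 ≤ z i) → cx z U 0 ≤ P.card := by
    intro z hz
    unfold cx
    rw [← Finset.card_filter]
    refine Finset.card_le_card (fun i hi => ?_)
    obtain ⟨h1, h2⟩ := Finset.mem_filter.1 hi
    by_contra hno
    have := hz i hno (Finset.mem_sdiff.1 h1).2
    omega
  have z1 := hzle x0 (fun i h1 h2 => (hone0 i h1 h2).1)
  have z2' := hzle y0 (fun i h1 h2 => (hone0 i h1 h2).2)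
  -- the final parts for a given half of `Q`
  have key : ∀ H ⊆ Q, 2 * H.card = Q.card →
      (∀ i, (if i ∈ Q then (if i ∈ H then 1 else 2) else x0 i) +
        (if i ∈ Q then (if i ∈ H then 2 else 1) else y0 i) = deg G (v i)) ∧
      (∀ k, 2 ≤ k → cx (fun i => if i ∈ Q then (if i ∈ H then 1 else 2) else x0 i) univ k =
        cx (fun i => if i ∈ Q then (if i ∈ H then 2 else 1) else y0 i) univ k) ∧
      cx (fun i => if i ∈ Q then (if i ∈ H then 1 else 2) else x0 i) univ 0 = cx x0 U 0 ∧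
      cx (fun i => if i ∈ Q then (if i ∈ H then 2 else 1) else y0 i) univ 0 = cx y0 U 0 := by
    intro H hHQ hH2
    have hsd : (Q \ H).card = H.card := by
      rw [Finset.card_sdiff_of_subset hHQ]; omega
    have f1 : ∀ k, cx (fun i => if i ∈ Q then (if i ∈ H then 1 else 2) else x0 i) univ k =
        cx x0 U k + ((if 1 = k then H.card else 0) + (if 2 = k then H.card else 0)) := by
      intro k
      rw [hUQ, cx_congr (x' := x0) (fun i hi => if_neg (Finset.mem_sdiff.1 hi).2) k,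
        cx_two hHQ 1 2 k _ (fun i hi => by
          show (if i ∈ Q then (if i ∈ H then 1 else 2) else x0 i) = 1
          rw [if_pos (hHQ hi), if_pos hi]) (fun i hi => by
          show (if i ∈ Q then (if i ∈ H then 1 else 2) else x0 i) = 2
          rw [if_pos (Finset.mem_sdiff.1 hi).1, if_neg (Finset.mem_sdiff.1 hi).2]), hsd]
    have f2 : ∀ k, cx (fun i => if i ∈ Q then (if i ∈ H then 2 else 1) else y0 i) univ k =
        cx y0 U k + ((if 2 = k then H.card else 0) + (if 1 = k then H.card else 0)) := by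
      intro k
      rw [hUQ, cx_congr (x' := y0) (fun i hi => if_neg (Finset.mem_sdiff.1 hi).2) k,
        cx_two hHQ 2 1 k _ (fun i hi => by
          show (if i ∈ Q then (if i ∈ H then 2 else 1) else y0 i) = 2
          rw [if_pos (hHQ hi), if_pos hi]) (fun i hi => by
          show (if i ∈ Q then (if i ∈ H then 2 else 1) else y0 i) = 1
          rw [if_pos (Finset.mem_sdiff.1 hi).1, if_neg (Finset.mem_sdiff.1 hi).2]), hsd]
    refine ⟨?_, ?_, ?_, ?_⟩
    · intro i
      by_cases hi : i ∈ Q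
      · rw [if_pos hi, if_pos hi, ((hQm i).1 hi).2]
        split_ifs <;> rfl
      · rw [if_neg hi, if_neg hi]; exact hxy0 i
    · intro k hk
      rw [f1, f2, hb k hk]
      omega
    · rw [f1]; simp
    · rw [f2]; simp
  -- parity of the number of zeros
  have e1 := edges_eq h
  have e2 := sum_spine h
  obtain ⟨m, hm⟩ := hev
  have hpz : (s - 1 + cx x0 U 0 + cx y0 U 0) % 2 = 0 := by
    obtain ⟨H0, hH0, hH0c⟩ := Finset.exists_subset_card_eq (s := Q) (n := Q.card / 2) (by omega)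
    obtain ⟨k1, k2, k3, k4⟩ := key H0 hH0 (by omega)
    have e3 := sum_diff k2
    have e4 := zero_diff k2
    have e5 : ∑ i, (if i ∈ Q then (if i ∈ H0 then 1 else 2) else x0 i) +
        ∑ i, (if i ∈ Q then (if i ∈ H0 then 2 else 1) else y0 i) =
        2 * (s - 1) + (offSpine v).card := by
      rw [← Finset.sum_add_distrib, ← e2]
      exact Finset.sum_congr rfl (fun i _ => k1 i)
    rw [k3, k4] at e4
    omega
  set zx := cx x0 U 0 with hzx
  set zy := cx y0 U 0 with hzy
  -- gaps not touched by `P`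
  set W' := W.filter (fun p => ∀ i ∈ P, ¬ (p.1 ≤ i ∧ i ≤ p.2)) with hW'
  have hW'c : W.card ≤ W'.card + 2 * P.card := two_gaps W (fun p hp => (hW p hp).1) hWd P
  have hW'W : ∀ p ∈ W', p ∈ W := fun p hp => (Finset.mem_filter.1 hp).1
  have hgap : ∀ p ∈ W', (p.1 : ℕ) + 2 ≤ p.2 := by
    intro p hp
    obtain ⟨h1, h2, _⟩ := hW p (hW'W p hp)
    have h1' : (p.1 : ℕ) < p.2 := h1
    omega
  -- rigid vertices, classes of edges
  set r : ℕ → Prop := fun i => ∃ hi : i < s, (⟨i, hi⟩ : Fin s) ∉ P ∧ deg G (v ⟨i, hi⟩) = 2 ∧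
    ∀ p ∈ W', i ≠ (p.1 : ℕ) + 1 with hr
  have hrP : ∀ i ∈ P, ¬ r (i : ℕ) := by
    rintro i hi ⟨_, h1, _⟩
    exact h1 hi
  have hr3 : ∀ i : Fin s, 3 ≤ deg G (v i) → ¬ r (i : ℕ) := by
    rintro i hi ⟨_, _, h1, _⟩
    have h1' : deg G (v i) = 2 := h1
    omega
  have hrW : ∀ p ∈ W', ¬ r ((p.1 : ℕ) + 1) := by
    rintro p hp ⟨_, _, _, h1⟩
    exact h1 p hp rfl
  have hrW1 : ∀ p ∈ W', ¬ r (p.1 : ℕ) := fun p hp => hr3 _ (hW p (hW'W p hp)).2.2.1
  have hrW2 : ∀ p ∈ W', ¬ r (p.2 : ℕ) := fun p hp => hr3 _ (hW p (hW'W p hp)).2.2.2.1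
  set want : Fin s → ℕ := fun i => if x0 i ≤ 1 then 0 else 1 with hwant
  have hwant2 : ∀ i, want i < 2 := by
    intro i; rw [hwant]; dsimp only; split_ifs <;> omega
  set inF := (range (s - 1)).filter (fun t => ∃ p ∈ P, (t = (p : ℕ) ∨ t + 1 = (p : ℕ)) ∧
    t % 2 = want p) with hinF
  set outF := (range (s - 1)).filter (fun t => ∃ p ∈ P, (t = (p : ℕ) ∨ t + 1 = (p : ℕ)) ∧
    ¬ t % 2 = want p) with houtF
  have hinc : inF.card ≤ P.card := by
    have h1 : inF ⊆ P.image (fun p : Fin s => if (p : ℕ) % 2 = want p then (p : ℕ) else (p : ℕ) - 1) := by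
      intro t ht
      obtain ⟨_, p, hp, htp, hpar⟩ := Finset.mem_filter.1 ht
      refine Finset.mem_image.2 ⟨p, hp, ?_⟩
      have := hwant2 p
      split_ifs <;> omega
    exact (Finset.card_le_card h1).trans Finset.card_image_le
  have houtc : outF.card ≤ P.card := by
    have h1 : outF ⊆ P.image (fun p : Fin s => if (p : ℕ) % 2 = want p then (p : ℕ) - 1 else (p : ℕ)) := by
      intro t ht
      obtain ⟨_, p, hp, htp, hpar⟩ := Finset.mem_filter.1 ht
      refine Finset.mem_image.2 ⟨p, hp, ?_⟩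
      have := hwant2 p
      split_ifs <;> omega
    exact (Finset.card_le_card h1).trans Finset.card_image_le
  have hsep : ∀ t ∈ inF, ∀ t' ∈ outF, rep r t ≠ rep r t' := by
    intro t ht t' ht' heq
    obtain ⟨_, p, hp, htp, hpar⟩ := Finset.mem_filter.1 ht
    obtain ⟨_, q, hq, htq, hpar'⟩ := Finset.mem_filter.1 ht'
    have l1 := rep_le r t
    have l2 := rep_le r t'
    rcases lt_trichotomy p q with hpq | hpq | hpq
    · obtain ⟨k, hk1, hk2, hk3⟩ := hP p hp q hq hpq
      have hk1' : (p : ℕ) < k := hk1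
      have hk2' : (k : ℕ) < q := hk2
      have := le_rep r (hr3 k hk3) (t := t') (by omega)
      omega
    · subst hpq
      rcases htp with e1 | e1
      · rcases htq with e2 | e2
        · exact hpar' (by rw [e2, ← e1]; exact hpar)
        · have := le_rep r (hrP p hp) (t := t) (by omega)
          omega
      · rcases htq with e2 | e2
        · have := le_rep r (hrP p hp) (t := t') (by omega)
          omega
        · have : t = t' := by omega
          exact hpar' (by rw [← this]; exact hpar)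
    · obtain ⟨k, hk1, hk2, hk3⟩ := hP q hq p hp hpq
      have hk1' : (q : ℕ) < k := hk1
      have hk2' : (k : ℕ) < p := hk2
      have := le_rep r (hr3 k hk3) (t := t) (by omega)
      omega
  set G0 := inF.image (rep r) with hG0
  set bad := outF.image (rep r) with hbad
  have hG0c : G0.card ≤ P.card := Finset.card_image_le.trans hinc
  have hbadc : bad.card ≤ P.card := Finset.card_image_le.trans houtc
  have hG0bad : Disjoint G0 bad := by
    rw [Finset.disjoint_left]
    intro u h1 h2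
    obtain ⟨t, ht, e1⟩ := Finset.mem_image.1 h1
    obtain ⟨t', ht', e2⟩ := Finset.mem_image.1 h2
    exact hsep t ht t' ht' (e1.trans e2.symm)
  have hB0 : |∑ u ∈ G0, cs r (s - 1) u| ≤ (P.card : ℤ) := by
    refine (Finset.abs_sum_le_sum_abs _ _).trans ?_
    refine (Finset.sum_le_sum (g := fun _ => (1 : ℤ)) (fun u _ => ?_)).trans ?_
    · rcases cs_cases r (s - 1) u with h1 | h1 <;> rw [h1]
      · simp
      · unfold sgn; split_ifs <;> simp
    · rw [Finset.sum_const, nsmul_eq_mul, mul_one]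
      exact_mod_cast hG0c
  rw [abs_le] at hB0
  set B0 := ∑ u ∈ G0, cs r (s - 1) u with hB0d
  -- the classes of the untouched gaps
  have hinside : ∀ p ∈ W', ∀ t, (p.1 : ℕ) + 1 ≤ t → t < (p.2 : ℕ) → rep r t = (p.1 : ℕ) + 1 := by
    intro p hp t
    induction t with
    | zero => intro h1 _; omega
    | succ t ih =>
      intro h1 h2
      rcases Nat.lt_or_ge t ((p.1 : ℕ) + 1) with h3 | h3
      · have h4 : t + 1 = (p.1 : ℕ) + 1 := by omega
        rw [h4]
        exact rep_not r (hrW p hp)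
      · have h5 : r (t + 1) := by
          have hts : t + 1 < s := h2.trans p.2.2
          have hk1 : p.1 < (⟨t + 1, hts⟩ : Fin s) := by
            show (p.1 : ℕ) < t + 1
            omega
          have hk2 : (⟨t + 1, hts⟩ : Fin s) < p.2 := h2
          refine ⟨hts, fun hh => ?_, (hW p (hW'W p hp)).2.2.2.2 _ hk1 hk2, fun q hq hqt => ?_⟩
          · exact (Finset.mem_filter.1 hp).2 _ hh ⟨hk1.le, hk2.le⟩
          · by_cases hpq : p = q
            · rw [hpq] at h3
              omega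
            · have hg := hgap q hq
              rcases hWd p (hW'W p hp) q (hW'W q hq) hpq with h6 | h6
              · have h6' : (p.2 : ℕ) ≤ q.1 := h6
                omega
              · have h6' : (q.2 : ℕ) ≤ p.1 := h6
                omega
        have h6 : rep r (t + 1) = rep r t := by
          rw [rep, if_pos h5]
        rw [h6]
        exact ih h3 (by omega)
  have hcsa : ∀ p ∈ W', cs r (s - 1) (p.1 : ℕ) = sgn (p.1 : ℕ) := by
    intro p hp
    have hg := hgap p hp
    have hps := p.2.2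
    obtain ⟨u, _, h1, h2, h3⟩ := odd_class r (s - 1) (p.1 : ℕ) ((p.1 : ℕ) + 1) (by omega)
      (by omega) (by omega) (hrW1 p hp) (hrW p hp)
    have h4 : u = (p.1 : ℕ) := by omega
    rw [h4] at h1
    exact (cs_cases r (s - 1) (p.1 : ℕ)).resolve_left h1
  have hcsb : ∀ p ∈ W', cs r (s - 1) ((p.1 : ℕ) + 1) = sgn ((p.1 : ℕ) + 1) := by
    intro p hp
    have hg := hgap p hp
    have hps := p.2.2
    have h0 := (hW p (hW'W p hp)).2.1
    obtain ⟨u, hu, h1, h2, h3⟩ := odd_class r (s - 1) ((p.1 : ℕ) + 1) (p.2 : ℕ) (by omega)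
      (by omega) (by omega) (hrW p hp) (hrW2 p hp)
    obtain ⟨t, _, ht2⟩ := Finset.mem_image.1 hu
    have l1 := rep_le r t
    have h4 : t < (p.2 : ℕ) := by
      by_contra hno
      have := le_rep r (hrW2 p hp) (t := t) (by omega)
      omega
    have h5 := hinside p hp t (by omega) h4
    rw [h5] at ht2
    rw [← ht2] at h1
    exact (cs_cases r (s - 1) ((p.1 : ℕ) + 1)).resolve_left h1
  have htouch : ∀ p ∈ W', ∀ i ∈ P, ∀ t, (t = (i : ℕ) ∨ t + 1 = (i : ℕ)) →
      rep r t ≠ (p.1 : ℕ) ∧ rep r t ≠ (p.1 : ℕ) + 1 := by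
    intro p hp i hi t hti
    have hno := (Finset.mem_filter.1 hp).2 i hi
    have hg := hgap p hp
    have l1 := rep_le r t
    constructor
    · intro h1
      have h2 : t < (p.1 : ℕ) + 1 := by
        by_contra h3
        have := le_rep r (hrW p hp) (t := t) (by omega)
        omega
      refine hno ⟨?_, ?_⟩
      · show (p.1 : ℕ) ≤ i
        omega
      · show (i : ℕ) ≤ p.2
        omega
    · intro h1
      have h2 : t < (p.2 : ℕ) := by
        by_contra h3
        have := le_rep r (hrW2 p hp) (t := t) (by omega)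
        omega
      refine hno ⟨?_, ?_⟩
      · show (p.1 : ℕ) ≤ i
        omega
      · show (i : ℕ) ≤ p.2
        omega
  have hG0W : ∀ p ∈ W', (p.1 : ℕ) ∉ G0 ∧ (p.1 : ℕ) + 1 ∉ G0 := by
    intro p hp
    constructor
    · intro hh
      obtain ⟨t, ht, e1⟩ := Finset.mem_image.1 hh
      obtain ⟨_, i, hi, hti, _⟩ := Finset.mem_filter.1 ht
      exact (htouch p hp i hi t hti).1 e1
    · intro hh
      obtain ⟨t, ht, e1⟩ := Finset.mem_image.1 hh
      obtain ⟨_, i, hi, hti, _⟩ := Finset.mem_filter.1 ht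
      exact (htouch p hp i hi t hti).2 e1
  -- the required sum
  obtain ⟨V0, hV0⟩ : ∃ V0 : ℤ, 2 * V0 = (((s - 1 : ℕ) : ℤ) % 2) + zx - zy := by
    refine ⟨((((s - 1 : ℕ) : ℤ) % 2) + zx - zy) / 2, ?_⟩
    omega
  obtain ⟨w, hw, j, hj, hjc⟩ : ∃ w : ℕ, w ≤ 1 ∧ ∃ j : ℕ, B0 + (1 - 2 * (w : ℤ)) * j = V0 ∧
      j ≤ 2 * P.card + 1 := by
    rcases le_total B0 V0 with h1 | h1
    · refine ⟨0, by omega, (V0 - B0).toNat, ?_, ?_⟩
      · rw [Int.toNat_of_nonneg (by omega)]; push_cast; ring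
      · omega
    · refine ⟨1, le_rfl, (B0 - V0).toNat, ?_, ?_⟩
      · rw [Int.toNat_of_nonneg (by omega)]; push_cast; ring
      · omega
  obtain ⟨W2, hW2, hW2c⟩ : ∃ W2 ⊆ W', W2.card = 2 * j :=
    Finset.exists_subset_card_eq (by omega)
  -- the new special vertices and the flipped classes
  set nx : Fin s × Fin s → Fin s := fun p => if hh : (p.1 : ℕ) + 1 < s then ⟨(p.1 : ℕ) + 1, hh⟩
    else p.1 with hnx
  have hnxv : ∀ p ∈ W', (nx p : ℕ) = (p.1 : ℕ) + 1 := by
    intro p hp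
    have hg := hgap p hp
    have hps := p.2.2
    rw [hnx]
    dsimp only
    rw [dif_pos (by omega)]
  set uu : Fin s × Fin s → ℕ := fun p => if (p.1 : ℕ) % 2 = w then (p.1 : ℕ) else (p.1 : ℕ) + 1
    with huu
  have huu2 : ∀ p, uu p % 2 = w ∧ (uu p = (p.1 : ℕ) ∨ uu p = (p.1 : ℕ) + 1) := by
    intro p
    rw [huu]
    dsimp only
    split_ifs <;> omega
  have hne : ∀ p ∈ W', ∀ q ∈ W', p ≠ q → (p.1 : ℕ) + 2 ≤ q.1 ∨ (q.1 : ℕ) + 2 ≤ p.1 := by
    intro p hp q hq hpq
    have g1 := hgap p hp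
    have g2 := hgap q hq
    rcases hWd p (hW'W p hp) q (hW'W q hq) hpq with h6 | h6
    · have h6' : (p.2 : ℕ) ≤ q.1 := h6
      omega
    · have h6' : (q.2 : ℕ) ≤ p.1 := h6
      omega
  set P' := W2.image nx with hP'
  have hP'c : P'.card = 2 * j := by
    rw [hP', Finset.card_image_of_injOn, hW2c]
    intro p hp q hq hpq
    by_contra hno
    have e1 := hnxv p (hW2 hp)
    have e2 := hnxv q (hW2 hq)
    have hpq' : nx p = nx q := hpq
    rw [hpq', e2] at e1
    rcases hne p (hW2 hp) q (hW2 hq) hno with h1 | h1 <;> omega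
  set X := W2.image uu with hX
  have hXc : X.card = 2 * j := by
    rw [hX, Finset.card_image_of_injOn, hW2c]
    intro p hp q hq hpq
    by_contra hno
    have e1 := (huu2 p).2
    have e2 := (huu2 q).2
    have hpq' : uu p = uu q := hpq
    rcases hne p (hW2 hp) q (hW2 hq) hno with h1 | h1 <;> omega
  have hP'd : ∀ i ∈ P', i ∉ P ∧ deg G (v i) = 2 ∧ ∃ p ∈ W2, (i : ℕ) = (p.1 : ℕ) + 1 := by
    intro i hi
    obtain ⟨p, hp, rfl⟩ := Finset.mem_image.1 hi
    have e1 := hnxv p (hW2 hp)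
    have hg := hgap p (hW2 hp)
    have hk1 : p.1 < nx p := by
      show (p.1 : ℕ) < nx p
      omega
    have hk2 : nx p < p.2 := by
      show (nx p : ℕ) < p.2
      omega
    exact ⟨fun hh => (Finset.mem_filter.1 (hW2 hp)).2 _ hh ⟨hk1.le, hk2.le⟩,
      (hW p (hW'W p (hW2 hp))).2.2.2.2 _ hk1 hk2, p, hp, e1⟩
  have hP'U : P' ⊆ U := by
    intro i hi
    refine Finset.mem_sdiff.2 ⟨Finset.mem_univ _, fun hh => ?_⟩
    have h1 := ((hQm i).1 hh).2
    have h2 := (hP'd i hi).2.1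
    omega
  have hG0X : Disjoint G0 X := by
    rw [Finset.disjoint_left]
    intro u h1 h2
    obtain ⟨p, hp, e1⟩ := Finset.mem_image.1 h2
    obtain ⟨h3, h4⟩ := hG0W p (hW2 hp)
    rcases (huu2 p).2 with h5 | h5
    · exact h3 (by rw [← h5, e1]; exact h1)
    · exact h4 (by rw [← h5, e1]; exact h1)
  have hsumX : ∑ u ∈ X, cs r (s - 1) u = (1 - 2 * (w : ℤ)) * (2 * j : ℕ) := by
    rw [Finset.sum_congr rfl (g := fun _ => (1 - 2 * (w : ℤ))), Finset.sum_const, hXc,
      nsmul_eq_mul, mul_comm]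
    intro u hu
    obtain ⟨p, hp, e1⟩ := Finset.mem_image.1 hu
    have h1 : cs r (s - 1) u = sgn u := by
      rw [← e1]
      rcases (huu2 p).2 with h5 | h5
      · rw [h5]; exact hcsa p (hW2 hp)
      · rw [h5]; exact hcsb p (hW2 hp)
    have h2 : u % 2 = w := by rw [← e1]; exact (huu2 p).1
    rw [h1]
    unfold sgn
    split_ifs <;> omega
  set GG := G0 ∪ X with hGG
  have hGGc : GG.card ≤ P.card + 2 * j := by
    have h1 : GG.card ≤ G0.card + X.card := Finset.card_union_le _ _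
    omega
  have hsumGG : ∑ u ∈ GG, cs r (s - 1) u = B0 + (1 - 2 * (w : ℤ)) * (2 * j : ℕ) := by
    rw [hGG, Finset.sum_union hG0X, ← hB0d, hsumX]
  -- membership in the untouched gaps
  have hmemX : ∀ p ∈ W', ∀ t, (t = (p.1 : ℕ) ∨ t = (p.1 : ℕ) + 1) →
      (t ∈ GG ↔ p ∈ W2 ∧ t % 2 = w) := by
    intro p hp t ht
    constructor
    · intro h1
      rcases Finset.mem_union.1 h1 with h1 | h1
      · exfalso
        obtain ⟨h3, h4⟩ := hG0W p hp
        rcases ht with ht | ht
        · exact h3 (by rw [← ht]; exact h1)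
        · exact h4 (by rw [← ht]; exact h1)
      · obtain ⟨q, hq, e1⟩ := Finset.mem_image.1 h1
        have h5 := huu2 q
        by_cases hpq : p = q
        · rw [hpq]
          exact ⟨hq, by rw [← e1]; exact h5.1⟩
        · exfalso
          rcases hne p hp q (hW2 hq) hpq with h6 | h6 <;> omega
    · rintro ⟨h1, h2⟩
      refine Finset.mem_union_right _ (Finset.mem_image.2 ⟨p, h1, ?_⟩)
      have h5 := huu2 p
      omega
  set x1 : Fin s → ℕ := fun i => if i ∈ P' then 2 * w else x0 i with hx1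
  set y1 : Fin s → ℕ := fun i => if i ∈ P' then 2 * (1 - w) else y0 i with hy1
  have ex : ∀ k, cx x1 U k + (if 1 = k then P'.card else 0) =
      cx x0 U k + (if 2 * w = k then P'.card else 0) := cx_change U P' hP'U x0 x1 (2 * w)
    (fun i hi => (htwo0 i (hP'd i hi).1 (hP'd i hi).2.1).1) (fun i hi => if_pos hi)
    (fun i hi => if_neg hi)
  have ey : ∀ k, cx y1 U k + (if 1 = k then P'.card else 0) =
      cx y0 U k + (if 2 * (1 - w) = k then P'.card else 0) :=
    cx_change U P' hP'U y0 y1 (2 * (1 - w))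
    (fun i hi => (htwo0 i (hP'd i hi).1 (hP'd i hi).2.1).2) (fun i hi => if_pos hi)
    (fun i hi => if_neg hi)
  have hj0 : 2 * j ≤ Q.card := by omega
  refine core_split h (P ∪ P') Q x1 y1 ?_ ?_ ?_ ?_ (fun i hi => ((hQm i).1 hi).2)
    (Q.card / 2 + w * j - (1 - w) * j) ?_ ?_ r (fun i hi => hr3 i (by rw [((hQm i).1 hi).2])) GG
    ?_ ?_ ?_ (Or.inr ⟨?_, ?_⟩)
  · intro i
    rw [hx1, hy1]
    dsimp only
    by_cases hi : i ∈ P'
    · rw [if_pos hi, if_pos hi, (hP'd i hi).2.1]
      omega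
    · rw [if_neg hi, if_neg hi]
      exact hxy0 i
  · intro i hi
    rw [hx1, hy1]
    dsimp only
    by_cases hi' : i ∈ P'
    · rw [if_pos hi', if_pos hi']
      omega
    · rw [if_neg hi', if_neg hi']
      have hiP : i ∈ P := (Finset.mem_union.1 hi).resolve_right hi'
      have h5 := hPs i hiP
      rcases hsw i with ⟨h6, h7⟩ | ⟨h6, h7⟩ <;> omega
  · intro i hi hiQ hi2
    rw [Finset.mem_union, not_or] at hi
    rw [hx1, hy1]
    dsimp only
    rw [if_neg hi.2, if_neg hi.2]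
    exact hbig0 i hi.1 hiQ hi2
  · intro i hi hi2
    rw [Finset.mem_union, not_or] at hi
    rw [hx1, hy1]
    dsimp only
    rw [if_neg hi.2, if_neg hi.2]
    exact htwo0 i hi.1 hi2
  · rcases (by omega : w = 0 ∨ w = 1) with h1 | h1 <;> rw [h1] <;> simp <;> omega
  · intro k hk
    have e1 := ex k
    have e2 := ey k
    have e3 := hb k hk
    rw [if_neg (by omega : ¬ 1 = k)] at e1 e2
    rw [← hU]
    rcases (by omega : w = 0 ∨ w = 1) with h1 | h1
    · rw [h1] at e1 e2 ⊢
      by_cases h2k : 2 = k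
      · subst h2k
        simp at e1 e2 ⊢
        omega
      · rw [if_neg (by omega)] at e1
        rw [if_neg (by omega)] at e2
        rw [if_neg h2k, if_neg h2k]
        omega
    · rw [h1] at e1 e2 ⊢
      by_cases h2k : 2 = k
      · subst h2k
        simp at e1 e2 ⊢
        omega
      · rw [if_neg (by omega)] at e1
        rw [if_neg (by omega)] at e2
        rw [if_neg h2k, if_neg h2k]
        omega
  · -- rigid vertices
    intro i hi hi2 hi1 his
    rw [Finset.mem_union, not_or] at hi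
    by_cases hri : r (i : ℕ)
    · rw [rep_rigid r hri hi1]
    · have h1 : ∃ p ∈ W', (i : ℕ) = (p.1 : ℕ) + 1 := by
        by_contra hno
        push Not at hno
        exact hri ⟨i.2, hi.1, hi2, hno⟩
      obtain ⟨p, hp, hip⟩ := h1
      have hpW2 : p ∉ W2 := by
        intro hh
        apply hi.2
        refine Finset.mem_image.2 ⟨p, hh, Fin.ext ?_⟩
        rw [hnxv p hp, hip]
      have r1 : rep r (i : ℕ) = (p.1 : ℕ) + 1 := by
        rw [hip]; exact rep_not r (hrW p hp)
      have r2 : rep r ((i : ℕ) - 1) = (p.1 : ℕ) := by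
        rw [hip, Nat.add_sub_cancel]; exact rep_not r (hrW1 p hp)
      rw [r1, r2, hmemX p hp _ (Or.inr rfl), hmemX p hp _ (Or.inl rfl)]
      exact ⟨fun hh => absurd hh.1 hpW2, fun hh => absurd hh.1 hpW2⟩
  · -- special vertices
    intro i hi t ht hti
    by_cases hi' : i ∈ P'
    · obtain ⟨_, _, p, hp, hip⟩ := hP'd i hi'
      have hx : x1 i = 2 * w := if_pos hi'
      have hrt : rep r t = t := by
        rcases hti with h1 | h1
        · rw [h1, hip]; exact rep_not r (hrW p (hW2 hp))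
        · have h2 : t = (p.1 : ℕ) := by omega
          rw [h2]; exact rep_not r (hrW1 p (hW2 hp))
      rw [hrt, hmemX p (hW2 hp) t (by omega), hx]
      constructor
      · rintro ⟨_, h2⟩
        split_ifs <;> omega
      · intro h2
        refine ⟨hp, ?_⟩
        split_ifs at h2 <;> omega
    · have hiP : i ∈ P := (Finset.mem_union.1 hi).resolve_right hi'
      have hx : x1 i = x0 i := if_neg hi'
      have hwi : (if x0 i ≤ 1 then 0 else 1) = want i := rfl
      rw [hx, hwi]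
      constructor
      · intro hg
        by_contra hno
        rcases Finset.mem_union.1 hg with h1 | h1
        · exact (Finset.disjoint_left.1 hG0bad) h1 (Finset.mem_image_of_mem _
            (Finset.mem_filter.2 ⟨Finset.mem_range.2 ht, i, hiP, hti, hno⟩))
        · obtain ⟨q, hq, e1⟩ := Finset.mem_image.1 h1
          obtain ⟨h3, h4⟩ := htouch q (hW2 hq) i hiP t hti
          rcases (huu2 q).2 with h5 | h5
          · exact h3 (by rw [← e1, h5])
          · exact h4 (by rw [← e1, h5])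
      · intro hw'
        exact Finset.mem_union_left _ (Finset.mem_image_of_mem _ (Finset.mem_filter.2
          ⟨Finset.mem_range.2 ht, i, hiP, hti, hw'⟩))
  · have e1 := ex 0
    have e2 := ey 0
    rw [if_neg (by omega : ¬ 1 = 0)] at e1 e2
    rw [← hU, hsumGG]
    rw [← hzx] at e1
    rw [← hzy] at e2
    rcases (by omega : w = 0 ∨ w = 1) with h1 | h1
    · rw [h1] at e1 e2 hj ⊢
      simp at e1 e2 hj ⊢
      omega
    · rw [h1] at e1 e2 hj ⊢
      simp at e1 e2 hj ⊢
      omega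
  · rcases (by omega : w = 0 ∨ w = 1) with h1 | h1 <;> rw [h1] <;> simp <;> omega
  · rcases (by omega : w = 0 ∨ w = 1) with h1 | h1 <;> rw [h1] <;> simp <;> omega

end Pool.Agent.W_e8e3a0
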