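import Pool.Agent.W_e8e3a0.ConsD49

/-! Splittings with special vertices in even gaps only. -/

namespace Pool.Agent.W_e8e3a0

open Finset Num49

variable {V : Type} [Fintype V]

theorem class_sum (r : ℕ → Prop) [DecidablePred r] (n a b : ℕ) (hab : a < b) (hbn : b ≤ n)
    (hb : ¬ r b) (hin : ∀ t, a ≤ t → t < b → rep r t = a) :
    cs r n a = if (b - a) % 2 = 0 then 0 else sgn a := by
  unfold cs
  have h1 : (range n).filter (fun t => rep r t = a) = Finset.Ico a b := by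
    ext t
    rw [Finset.mem_filter, Finset.mem_range, Finset.mem_Ico]
    constructor
    · rintro ⟨h1, h2⟩
      have h5 := rep_le r t
      refine ⟨by omega, ?_⟩
      by_contra h6
      have := le_rep r hb (t := t) (by omega)
      omega
    · rintro ⟨h1, h2⟩
      exact ⟨by omega, hin t h1 h2⟩
  rw [h1, Finset.sum_Ico_eq_sub _ hab.le, sum_sgn, sum_sgn]
  unfold sgn
  split_ifs <;> omega

/-- special vertices in even gaps only -/
theorem zone_split {G : SimpleGraph V} {s : ℕ} {v : Fin s → V} (h : IsSpine G v)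
    (x y : Fin s → ℕ) (hxy : ∀ i, x i + y i = deg G (v i)) (R Z : Finset (Fin s))
    (hR4 : ∀ i ∈ R, 4 ≤ deg G (v i)) (hZ2 : ∀ i ∈ Z, deg G (v i) = 2)
    (hout : ∀ i, i ∉ R → i ∉ Z → (deg G (v i) = 2 → x i = 1 ∧ y i = 1) ∧
      (deg G (v i) ≠ 2 → 2 ≤ x i ∧ 2 ≤ y i))
    (hb : ∀ k, 2 ≤ k → cx x univ k = cx y univ k) (pv nx : Fin s → Fin s)
    (hg : ∀ i ∈ R ∪ Z, pv i < i ∧ i < nx i ∧ 3 ≤ deg G (v (pv i)) ∧ 3 ≤ deg G (v (nx i)) ∧
      (∀ k, pv i < k → k < i → deg G (v k) = 2) ∧ (∀ k, i < k → k < nx i → deg G (v k) = 2))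
    (hgR : ∀ i ∈ R, ((i : ℕ) - pv i) % 2 = 0 ∧ ((nx i : ℕ) - i) % 2 = 0)
    (hgZ : ∀ i ∈ Z, (i : ℕ) = pv i + 1 ∧ ((nx i : ℕ) - i) % 2 = 1)
    (hfar : ∀ i ∈ R ∪ Z, ∀ j ∈ R ∪ Z, i ≠ j → nx i ≤ pv j ∨ nx j ≤ pv i)
    (hT : (((s - 1 : ℕ) : ℤ) % 2) + (cx x univ 0 : ℕ) - (cx y univ 0 : ℕ) =
      2 * ((cx x Z 0 : ℕ) - (cx y Z 0 : ℕ))) : Splittable G := by
  classical
  set r : ℕ → Prop := fun i => ∃ hi : i < s, deg G (v ⟨i, hi⟩) = 2 ∧ (⟨i, hi⟩ : Fin s) ∉ Z with hr
  have hr3 : ∀ i : Fin s, 3 ≤ deg G (v i) → ¬ r (i : ℕ) := by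
    rintro i hi ⟨_, h1, _⟩
    have h1' : deg G (v i) = 2 := h1
    omega
  have hri : ∀ i ∈ R ∪ Z, ¬ r (i : ℕ) := by
    intro i hi
    rcases Finset.mem_union.1 hi with h1 | h1
    · exact hr3 i (by have := hR4 i h1; omega)
    · rintro ⟨_, _, h2⟩
      exact h2 h1
  have hrn : ∀ i ∈ R ∪ Z, ¬ r (nx i : ℕ) := fun i hi => hr3 _ (hg i hi).2.2.2.1
  have hrp : ∀ i ∈ R ∪ Z, ¬ r (pv i : ℕ) := fun i hi => hr3 _ (hg i hi).2.2.1
  have hnZ : ∀ i ∈ R ∪ Z, ∀ k : Fin s, k ≠ i → pv i < k → k < nx i → k ∉ Z := by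
    intro i hi k hki h1 h2 hk
    have h3 := hg k (Finset.mem_union_right _ hk)
    rcases hfar i hi k (Finset.mem_union_right _ hk) (Ne.symm hki) with h4 | h4
    · exact absurd (h2.trans_le (h4.trans h3.1.le)) (lt_irrefl _)
    · exact absurd (h3.2.1.trans_le (h4.trans h1.le)) (lt_irrefl _)
  have hA : ∀ i ∈ R ∪ Z, ∀ t, (pv i : ℕ) ≤ t → t < (i : ℕ) → rep r t = (pv i : ℕ) := by
    intro i hi t h1 h2
    obtain ⟨g1, g2, g5, g6, g7, g8⟩ := hg i hi
    refine rep_const r (hrp i hi) (fun k hk1 hk2 => ?_) t h1 h2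
    have hks : k < s := hk2.trans i.2
    exact ⟨hks, g7 ⟨k, hks⟩ hk1 hk2, hnZ i hi ⟨k, hks⟩ (by
      intro hh; rw [← hh] at hk2; exact lt_irrefl _ hk2) hk1
      (lt_trans (show (⟨k, hks⟩ : Fin s) < i from hk2) g2)⟩
  have hB : ∀ i ∈ R ∪ Z, ∀ t, (i : ℕ) ≤ t → t < (nx i : ℕ) → rep r t = (i : ℕ) := by
    intro i hi t h1 h2
    obtain ⟨g1, g2, g5, g6, g7, g8⟩ := hg i hi
    refine rep_const r (hri i hi) (fun k hk1 hk2 => ?_) t h1 h2
    have hks : k < s := hk2.trans (nx i).2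
    exact ⟨hks, g8 ⟨k, hks⟩ hk1 hk2, hnZ i hi ⟨k, hks⟩ (by
      intro hh; rw [← hh] at hk1; exact lt_irrefl _ hk1)
      (lt_trans g1 (show i < (⟨k, hks⟩ : Fin s) from hk1)) hk2⟩
  have hcsA : ∀ i ∈ R ∪ Z, cs r (s - 1) (pv i : ℕ) =
      if ((i : ℕ) - pv i) % 2 = 0 then 0 else sgn (pv i : ℕ) := by
    intro i hi
    have g1 : (pv i : ℕ) < i := (hg i hi).1
    have his := i.2
    exact class_sum r (s - 1) (pv i : ℕ) (i : ℕ) g1 (by omega) (hri i hi) (hA i hi)
  have hcsB : ∀ i ∈ R ∪ Z, cs r (s - 1) (i : ℕ) =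
      if ((nx i : ℕ) - i) % 2 = 0 then 0 else sgn (i : ℕ) := by
    intro i hi
    have g2 : (i : ℕ) < nx i := (hg i hi).2.1
    have his := (nx i).2
    exact class_sum r (s - 1) (i : ℕ) (nx i : ℕ) g2 (by omega) (hrn i hi) (hB i hi)
  set Zf := Z.filter (fun i => x i ≠ 1) with hZf
  set SP := R ∪ Zf with hSP
  have hSPR : ∀ i ∈ SP, i ∈ R ∪ Z := by
    intro i hi
    rcases Finset.mem_union.1 hi with h1 | h1
    · exact Finset.mem_union_left _ h1
    · exact Finset.mem_union_right _ (Finset.mem_filter.1 h1).1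
  set wt : Fin s → ℕ := fun i => if x i ≤ 1 then 0 else 1 with hwt
  have hwt1 : ∀ i, wt i ≤ 1 := by
    intro i; rw [hwt]; dsimp only; split_ifs <;> omega
  set uu : Fin s → ℕ := fun i => if (i : ℕ) % 2 = wt i then (i : ℕ) else (pv i : ℕ) with huu
  have huu2 : ∀ i : Fin s, ((i : ℕ) % 2 = wt i ∧ uu i = (i : ℕ)) ∨
      (¬ (i : ℕ) % 2 = wt i ∧ uu i = (pv i : ℕ)) := by
    intro i
    rw [huu]
    dsimp only
    split_ifs with h1
    · exact Or.inl ⟨h1, rfl⟩
    · exact Or.inr ⟨h1, rfl⟩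
  have hdisj : ∀ i ∈ R ∪ Z, ∀ j ∈ R ∪ Z, ∀ u, (u = (pv i : ℕ) ∨ u = (i : ℕ)) → u = uu j → i = j := by
    intro i hi j hj u hu huj
    by_contra hij
    have a1 : (pv i : ℕ) < i := (hg i hi).1
    have a2 : (i : ℕ) < nx i := (hg i hi).2.1
    have a3 : (pv j : ℕ) < j := (hg j hj).1
    have a4 : (j : ℕ) < nx j := (hg j hj).2.1
    have h5 := huu2 j
    rcases hfar i hi j hj hij with h6 | h6
    · have h6' : (nx i : ℕ) ≤ pv j := h6
      omega
    · have h6' : (nx j : ℕ) ≤ pv i := h6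
      omega
  set GG := SP.image uu with hGG
  have hmem : ∀ i ∈ R ∪ Z, ∀ u, (u = (pv i : ℕ) ∨ u = (i : ℕ)) →
      (u ∈ GG ↔ i ∈ SP ∧ u = uu i) := by
    intro i hi u hu
    constructor
    · intro h1
      obtain ⟨j, hj, e1⟩ := Finset.mem_image.1 h1
      have h2 := hdisj i hi j (hSPR j hj) u hu e1.symm
      rw [h2]
      exact ⟨hj, e1.symm⟩
    · rintro ⟨h1, h2⟩
      rw [h2]
      exact Finset.mem_image_of_mem _ h1
  have hRZ : Disjoint R Zf := by
    rw [Finset.disjoint_left]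
    intro i h1 h2
    have := hR4 i h1
    have := hZ2 i (Finset.mem_filter.1 h2).1
    omega
  have hsumGG : ∑ u ∈ GG, cs r (s - 1) u = (cx x Z 0 : ℕ) - (cx y Z 0 : ℕ) := by
    rw [hGG, Finset.sum_image, hSP, Finset.sum_union hRZ, Finset.sum_eq_zero, zero_add]
    · have e1 : ((cx x Z 0 : ℕ) : ℤ) - (cx y Z 0 : ℕ) =
          ∑ i ∈ Z, ((if x i = 0 then (1 : ℤ) else 0) - (if y i = 0 then (1 : ℤ) else 0)) := by
        unfold cx
        push_cast
        rw [← Finset.sum_sub_distrib]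
      rw [e1, hZf, Finset.sum_filter]
      refine Finset.sum_congr rfl (fun i hi => ?_)
      have h0 := hxy i
      rw [hZ2 i hi] at h0
      by_cases hx1 : x i = 1
      · rw [if_neg (by simp [hx1]), if_neg (by omega), if_neg (by omega)]
        rfl
      · rw [if_pos hx1]
        have hiRZ : i ∈ R ∪ Z := Finset.mem_union_right _ hi
        obtain ⟨g1, g2⟩ := hgZ i hi
        have hA' := hcsA i hiRZ
        have hB' := hcsB i hiRZ
        rw [if_neg (by omega)] at hA' hB'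
        have hw : (x i = 0 ∧ wt i = 0) ∨ (x i = 2 ∧ wt i = 1) := by
          have h5 : x i = 0 ∨ x i = 2 := by omega
          rcases h5 with h5 | h5
          · exact Or.inl ⟨h5, by rw [hwt]; dsimp only; rw [if_pos (by omega)]⟩
          · exact Or.inr ⟨h5, by rw [hwt]; dsimp only; rw [if_neg (by omega)]⟩
        have hval : cs r (s - 1) (uu i) = if wt i = 0 then 1 else -1 := by
          rcases huu2 i with ⟨h1, h2⟩ | ⟨h1, h2⟩
          · rw [h2, hB']
            unfold sgn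
            rcases hw with ⟨_, h3⟩ | ⟨_, h3⟩
            · rw [if_pos (by omega), if_pos h3]
            · rw [if_neg (by omega), if_neg (by omega)]
          · rw [h2, hA']
            unfold sgn
            rcases hw with ⟨_, h3⟩ | ⟨_, h3⟩
            · rw [if_pos (by omega), if_pos h3]
            · rw [if_neg (by omega), if_neg (by omega)]
        rw [hval]
        rcases hw with ⟨h3, h4⟩ | ⟨h3, h4⟩
        · rw [if_pos h4, if_pos h3, if_neg (by omega)]; rfl
        · rw [if_neg (by omega), if_neg (by omega), if_pos (by omega)]; rfl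
    · intro i hi
      have hiRZ : i ∈ R ∪ Z := Finset.mem_union_left _ hi
      obtain ⟨g1, g2⟩ := hgR i hi
      have hA' := hcsA i hiRZ
      have hB' := hcsB i hiRZ
      rw [if_pos g1] at hA'
      rw [if_pos g2] at hB'
      rcases huu2 i with ⟨h1, h2⟩ | ⟨h1, h2⟩
      · rw [h2, hB']
      · rw [h2, hA']
    · intro i hi j hj hij
      have h5 := huu2 i
      exact hdisj i (hSPR i hi) j (hSPR j hj) (uu i) (by
        rcases h5 with h5 | h5
        · exact Or.inr h5.2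
        · exact Or.inl h5.2) hij
  refine core_split0 h SP x y hxy ?_ ?_ ?_ hb r GG ?_ ?_ ?_
  · intro i hi
    rcases Finset.mem_union.1 hi with h1 | h1
    · have h2 := hR4 i h1
      have h3 := hxy i
      by_contra hno
      rw [not_or, not_not, not_not] at hno
      omega
    · exact Or.inl (Finset.mem_filter.1 h1).2
  · intro i hi hi2
    refine (hout i (fun hh => hi (Finset.mem_union_left _ hh)) (fun hh => hi2 (hZ2 i hh))).2 hi2
  · intro i hi hi2
    by_cases hiZ : i ∈ Z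
    · have h1 : x i = 1 := by
        by_contra hno
        exact hi (Finset.mem_union_right _ (Finset.mem_filter.2 ⟨hiZ, hno⟩))
      have := hxy i
      omega
    · exact (hout i (fun hh => hi (Finset.mem_union_left _ hh)) hiZ).1 hi2
  · -- rigid vertices
    intro i hi hi2 hi1 his
    by_cases hiZ : i ∈ Z
    · have hiRZ : i ∈ R ∪ Z := Finset.mem_union_right _ hiZ
      have g := hgZ i hiZ
      have e1 : rep r (i : ℕ) = (i : ℕ) := hB i hiRZ _ le_rfl (hg i hiRZ).2.1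
      have e2 : rep r ((i : ℕ) - 1) = (pv i : ℕ) := hA i hiRZ _ (by omega) (by omega)
      rw [e1, e2, hmem i hiRZ _ (Or.inr rfl), hmem i hiRZ _ (Or.inl rfl)]
      exact ⟨fun hh => absurd hh.1 hi, fun hh => absurd hh.1 hi⟩
    · rw [rep_rigid r (i := (i : ℕ)) ⟨i.2, hi2, hiZ⟩ hi1]
  · -- special vertices
    intro i hi t ht hti
    have hiR := hSPR i hi
    have a1 : (pv i : ℕ) < i := (hg i hiR).1
    have a2 : (i : ℕ) < nx i := (hg i hiR).2.1
    have h5 := huu2 i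
    have h6 := hwt1 i
    have hwi : (if x i ≤ 1 then 0 else 1) = wt i := rfl
    rw [hwi]
    rcases hti with h1 | h1
    · have e1 : rep r t = (i : ℕ) := hB i hiR t (by omega) (by omega)
      rw [e1, hmem i hiR _ (Or.inr rfl), h1]
      constructor
      · rintro ⟨_, h7⟩; omega
      · intro h7; exact ⟨hi, by omega⟩
    · have e1 : rep r t = (pv i : ℕ) := hA i hiR t (by omega) (by omega)
      rw [e1, hmem i hiR _ (Or.inl rfl)]
      constructor
      · rintro ⟨_, h7⟩; omega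
      · intro h7; exact ⟨hi, by omega⟩
  · rw [hsumGG, hT]

end Pool.Agent.W_e8e3a0
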